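import Pool.Agent.Lib.MP_f11a48_ag.K3.BSpec

/-! # CURVE: integral curves of the Lie algebra of a torsor stay in the torsor -/

set_option autoImplicit false

namespace Pool.Agent.Lib.MPf11a48.K3

namespace CurveM

open Matrix MvPolynomial Pool.Agent.Lib.MPf11a48.GL2

variable {I : Type} [Fintype I] [DecidableEq I]

/-- a polynomial along the curve `s ↦ g s * f` -/
noncomputable def F (g : ℂ → GL I ℂ) (f : GL I ℂ) (p : MvPolynomial (I × I) ℂ) (s : ℂ) : ℂ :=
  eval (en (g s * f).1) p

theorem F_deriv {M : Matrix I I ℂ} {g : ℂ → GL I ℂ}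
    (hg : ∀ s i j, HasDerivAt (fun s => (g s).1 i j) ((M * (g s).1) i j) s) (f : GL I ℂ)
    (p : MvPolynomial (I × I) ℂ) (s : ℂ) : HasDerivAt (F g f p) (F g f (vf M p) s) s := by
  induction p using MvPolynomial.induction_on with
  | C a =>
    have e1 : F g f (C a) = fun _ => a := funext fun s => eval_C a
    have e2 : F g f (vf M (C a)) s = 0 := by rw [F, derivation_C, map_zero]
    rw [e1, e2]
    exact hasDerivAt_const s a
  | add p q hp hq =>
    have e1 : F g f (p + q) = fun s => F g f p s + F g f q s := funext fun s => by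
      rw [F, map_add]
      rfl
    have e2 : F g f (vf M (p + q)) s = F g f (vf M p) s + F g f (vf M q) s := by
      rw [F, map_add, map_add]
      rfl
    rw [e1, e2]
    exact hp.add hq
  | mul_X p v hp =>
    have e1 : F g f (p * X v) = fun s => F g f p s * (g s * f).1 v.1 v.2 := funext fun s => by
      rw [F, map_mul, eval_X]
      rfl
    have e2 : F g f (vf M (p * X v)) s =
        F g f (vf M p) s * (g s * f).1 v.1 v.2 + F g f p s * (M * (g s * f).1) v.1 v.2 := by
      rw [F, Derivation.leibniz, map_add, smul_eq_mul, smul_eq_mul, map_mul, map_mul, eval_vf_X,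
        eval_X, F, F, en]
      ring
    have h1 : HasDerivAt (fun s => (g s * f).1 v.1 v.2) ((M * (g s * f).1) v.1 v.2) s := by
      have h2 : (fun s => (g s * f).1 v.1 v.2) = fun s => ∑ k, (g s).1 v.1 k * f.1 k v.2 := by
        funext s
        rw [glmul, Matrix.mul_apply]
      have h3 : (M * (g s * f).1) v.1 v.2 = ∑ k, (M * (g s).1) v.1 k * f.1 k v.2 := by
        rw [glmul, ← Matrix.mul_assoc, Matrix.mul_apply]
      rw [h2, h3]
      exact HasDerivAt.fun_sum fun k _ => (hg s v.1 k).mul_const _
    rw [e1, e2]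
    exact hp.mul h1

theorem F_iter {M : Matrix I I ℂ} {g : ℂ → GL I ℂ}
    (hg : ∀ s i j, HasDerivAt (fun s => (g s).1 i j) ((M * (g s).1) i j) s) (f : GL I ℂ) (k : ℕ)
    (p : MvPolynomial (I × I) ℂ) : iteratedDeriv k (F g f p) = F g f ((vf M)^[k] p) := by
  induction k with
  | zero => rw [iteratedDeriv_zero, Function.iterate_zero, id]
  | succ k ih =>
    rw [iteratedDeriv_succ, ih, Function.iterate_succ_apply']
    funext s
    exact (F_deriv hg f _ s).deriv

end CurveM

open CurveM Matrix MvPolynomial Pool.Agent.Lib.MPf11a48.GL2 in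
theorem specCurve : SpecCurve := by
  intro I _ _ T hT M hM g hg0 hg f hf s
  refine hT.closed _ fun p hp => ?_
  have hmem : ∀ k, (vf M)^[k] p ∈ van T := by
    intro k
    induction k with
    | zero => exact hp
    | succ k ih =>
      rw [Function.iterate_succ_apply']
      exact vf_mem hM ih
  have hd : Differentiable ℂ (F g f p) := fun x => (F_deriv hg f p x).differentiableAt
  have ht := Complex.taylorSeries_eq_of_entire' 0 s hd
  have h0 : ∀ k, iteratedDeriv k (F g f p) 0 = 0 := by
    intro k
    rw [F_iter hg, F, hg0, one_mul]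
    exact hmem k f hf
  simp only [h0, mul_zero, zero_mul, tsum_zero] at ht
  exact ht.symm

end Pool.Agent.Lib.MPf11a48.K3
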