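import Pool.Agent.Lib.MP_f11a48_ag.K3.KSpec

/-! # Module LRAT: the Lie algebra of a torsor whose group is defined over the rational numbers -/

set_option autoImplicit false

namespace Pool.Agent.Lib.MPf11a48.K3

open Matrix MvPolynomial Pool.Agent.Lib.MPf11a48.Tors
open Pool.Agent.Lib.MPf11a48.CM hiding OmegaM
open Pool.Agent.Lib.MPf11a48.GL2 (lie van tang en lr)

namespace LRatM

variable {n : Type} [Fintype n] [DecidableEq n] {T : Set (GL n ℂ)}

/-- the Lie algebra of a torsor is the tangent space of its group -/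
theorem mem_lie_iff (h : GL2.Geo T) {M : Matrix n n ℂ} :
    M ∈ lie T ↔ ∀ p ∈ van (grp T), tang p 1 M = 0 := by
  obtain ⟨f₀, hf₀⟩ := h.nonempty
  rw [h.mem_lie_iff hf₀]
  constructor
  · intro hM p hp
    have hq : lr 1 (f₀⁻¹).1 p ∈ van T := by
      intro f hf
      rw [GL2.eval_lr, one_mul]
      exact hp (f * f₀⁻¹) ⟨f, hf, f₀, hf₀, rfl⟩
    have h1 := hM _ hq
    rw [GL2.tang_lr, one_mul, one_mul, Matrix.mul_assoc M, GL2.glinv, mul_one] at h1
    exact h1
  · intro hM p hp
    have hq : lr 1 f₀.1 p ∈ van (grp T) := by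
      rintro _ ⟨a, ha, b, hb, rfl⟩
      rw [GL2.eval_lr, one_mul]
      exact hp (a * b⁻¹ * f₀) (h.heap a ha b hb f₀ hf₀)
    have h1 := hM _ hq
    rw [GL2.tang_lr, one_mul, one_mul, one_mul] at h1
    exact h1

theorem eval_tau (τ : ℂ ≃+* ℂ) {V : Type} (x : V → ℂ) (p : MvPolynomial V ℂ) :
    eval (fun v => τ (x v)) (map τ.toRingHom p) = τ (eval x p) := by
  rw [eval_map]
  have h := MvPolynomial.eval₂_comp_left τ.toRingHom (RingHom.id ℂ) x p
  exact h.symm

omit [Fintype n] in
theorem en_one_tau (τ : ℂ ≃+* ℂ) :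
    (fun v => τ (en (1 : Matrix n n ℂ) v)) = en (1 : Matrix n n ℂ) := by
  funext v
  unfold en
  rw [Matrix.one_apply]
  split_ifs <;> simp

theorem tang_tau (τ : ℂ ≃+* ℂ) (p : MvPolynomial (n × n) ℂ) (M : Matrix n n ℂ) :
    tang (map τ.toRingHom p) 1 (M.map τ) = τ (tang p 1 M) := by
  unfold tang
  rw [map_sum]
  refine Finset.sum_congr rfl fun v _ => ?_
  rw [map_mul, pderiv_map, ← eval_tau τ, en_one_tau]
  rfl

theorem van_tau (hH : ClosedOver ⊥ (grp T)) (τ : ℂ ≃+* ℂ) {p : MvPolynomial (n × n) ℂ}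
    (hp : p ∈ van (grp T)) : map τ.toRingHom p ∈ van (grp T) := by
  intro h hh
  have h1 := hp _ (hH.tw_mem (fixesField_bot τ.symm) hh)
  have h2 : en h.1 = fun v => τ (en (tw τ.symm h).1 v) := by
    funext v
    exact (τ.apply_symm_apply _).symm
  rw [h2, eval_tau, h1, map_zero]

theorem lie_tau (hG : GL2.Geo T) (hH : ClosedOver ⊥ (grp T)) (τ : ℂ ≃+* ℂ) {M : Matrix n n ℂ}
    (hM : M ∈ lie T) : M.map τ ∈ lie T := by
  rw [mem_lie_iff hG] at hM ⊢
  intro p hp
  have h1 := hM _ (van_tau hH τ.symm hp)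
  have h2 : map τ.toRingHom (map τ.symm.toRingHom p) = p := by
    rw [MvPolynomial.map_map]
    have : τ.toRingHom.comp τ.symm.toRingHom = RingHom.id ℂ := by
      ext x
      exact τ.apply_symm_apply x
    rw [this, MvPolynomial.map_id]
  rw [← h2, tang_tau, h1, map_zero]

/-- rational forms on the complexification of a rational subspace -/
theorem form_mem {J : Type} {W : Submodule ℚ (J → ℚ)} {v : J → ℂ} (hv : v ∈ spanC W) :
    ∀ l : ℂ →ₗ[ℚ] ℚ, (fun j => l (v j)) ∈ W := by
  induction hv using Submodule.span_induction with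
  | mem v hv =>
    obtain ⟨w, hw, rfl⟩ := hv
    intro l
    have h : (fun j => l (algebraMap ℚ ℂ (w j))) = l 1 • w := by
      funext j
      rw [Algebra.algebraMap_eq_smul_one, map_smul, Pi.smul_apply, smul_eq_mul, smul_eq_mul,
        mul_comm]
    rw [h]
    exact W.smul_mem _ hw
  | zero =>
    intro l
    have h : (fun j : J => l ((0 : J → ℂ) j)) = 0 := by
      funext j
      exact map_zero l
    rw [h]
    exact W.zero_mem
  | add x y _ _ hx hy =>
    intro l
    have h : (fun j => l ((x + y) j)) = (fun j => l (x j)) + fun j => l (y j) := by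
      funext j
      exact map_add l _ _
    rw [h]
    exact W.add_mem (hx l) (hy l)
  | smul a x _ hx =>
    intro l
    exact hx (l ∘ₗ (LinearMap.mulLeft ℚ a))

end LRatM

/-- Module LRAT. -/
theorem specLRat : SpecLRat := by
  intro n _ _ T hT hH M hM l
  have hG := GL2.geo_of_torsor hT
  let e : (n × n → ℂ) →ₗ[ℂ] Matrix n n ℂ :=
    { toFun := fun v => Matrix.of fun i j => v (i, j)
      map_add' := fun _ _ => rfl
      map_smul' := fun _ _ => rfl }
  obtain ⟨W, hW⟩ := descentQ ((lie T).comap e) (by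
    intro τ v hv
    exact LRatM.lie_tau hG hH τ hv)
  have h1 : (fun v : n × n => M v.1 v.2) ∈ spanC W := by
    rw [hW]
    exact hM
  have h2 := LRatM.form_mem h1 l
  have h3 : (fun v : n × n => algebraMap ℚ ℂ (l (M v.1 v.2))) ∈ spanC W :=
    Submodule.subset_span ⟨_, h2, rfl⟩
  rw [hW] at h3
  exact h3

end Pool.Agent.Lib.MPf11a48.K3
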