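import Pool.Agent.Lib.MP_f11a48_ag.K3.KSpec
import Pool.Agent.Lib.MP_f11a48_ag.helper92.Bridge

/-! # Objects obtained by tensor operations -/

set_option autoImplicit false
set_option linter.unusedSectionVars false

namespace Pool.Agent.Lib.MPf11a48.K3

open Matrix MvPolynomial Pool.Agent.Lib.MPf11a48.Tors
open Pool.Agent.Lib.MPf11a48.CM hiding OmegaM
open Pool.Agent.Lib.MPf11a48.U (AbData Ix)

namespace KTenM

variable {n : ℕ} {ι : Type} [Fintype ι] [DecidableEq ι]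

theorem det_ne {I : Type} [Fintype I] [DecidableEq I] (g : GL I ℂ) : g.1.det ≠ 0 := by
  intro h0
  have h2 : g.1 * g⁻¹.1 = 1 := g.mul_inv
  have h3 := congrArg Matrix.det h2
  rw [det_mul, h0, zero_mul, det_one] at h3
  exact zero_ne_one h3

/-- preimages of closed sets under polynomial maps -/
theorem closedOver_pull {k : IntermediateField ℚ ℂ} {Ψ : GL (Fin n) ℂ → GL ι ℂ}
    (hΨ : ∀ i j, ∃ p : MvPolynomial ((Fin n × Fin n) ⊕ (Fin n × Fin n)) k, ∀ g,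
      (Ψ g).1 i j = aeval (Sum.elim (ent g) (ent g⁻¹)) p)
    {T₀ : Set (GL ι ℂ)} (h : ClosedOver k T₀) : ClosedOver k {g | Ψ g ∈ T₀} := by
  obtain ⟨S, hS⟩ := h
  choose P hP using hΨ
  choose M q hq using fun p : MvPolynomial (ι × ι) k =>
    clear_inverse (ι := Fin n) (aeval (fun ij : ι × ι => P ij.1 ij.2) p)
  have key : ∀ (p : MvPolynomial (ι × ι) k) (g : GL (Fin n) ℂ),
      aeval (ent g) (q p) = g.1.det ^ M p * aeval (fun ij : ι × ι => (Ψ g).1 ij.1 ij.2) p := by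
    intro p g
    rw [hq, comp_aeval_apply]
    congr 3
    funext ij
    exact (hP ij.1 ij.2 g).symm
  refine ⟨{r | ∃ p ∈ S, r = q p}, ?_⟩
  ext g
  constructor
  · rintro hg _ ⟨p, hp, rfl⟩
    have h1 := key p g
    change Ψ g ∈ T₀ at hg
    rw [hS] at hg
    rw [hg p hp, mul_zero] at h1
    exact h1
  · intro hg
    change Ψ g ∈ T₀
    rw [hS]
    intro p hp
    have h1 := (key p g).symm.trans (hg _ ⟨p, hp, rfl⟩)
    exact (mul_eq_zero.1 h1).resolve_left (pow_ne_zero _ (det_ne g))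

variable {Φ : GL (Fin n) ℂ → GL ι ℂ}

theorem isTorsor_pull (hΦ : IsTensorial Φ) {T₀ : Set (GL ι ℂ)}
    (hT₀ : IsTorsor Qbar T₀) {t : GL (Fin n) ℂ} (ht : Φ t ∈ T₀) :
    IsTorsor Qbar {g : GL (Fin n) ℂ | Φ g ∈ T₀} where
  closed := by
    refine closedOver_pull (fun i j => ?_) hT₀.closed
    obtain ⟨p, hp, hF⟩ := hΦ.regular i j
    obtain ⟨q, hq⟩ := GL2T.polyQ hp
    exact ⟨q, fun g => (hF g).trans (hq _).symm⟩
  nonempty := ⟨t, ht⟩
  heap := by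
    intro x hx y hy z hz
    change Φ (x * y⁻¹ * z) ∈ T₀
    rw [hΦ.heap]
    exact hT₀.heap _ hx _ hy _ hz

theorem mul_eq (hΦ : IsTensorial Φ) (g t : GL (Fin n) ℂ) : Φ (g * t) = Φ g * (Φ 1)⁻¹ * Φ t := by
  rw [← hΦ.heap, inv_one, mul_one]

/-- a rational polynomial as a polynomial over `ℚ ⊆ ℂ` -/
theorem exists_bot {σ : Type} (p : MvPolynomial σ ℚ) :
    ∃ q : MvPolynomial σ (⊥ : IntermediateField ℚ ℂ), ∀ z : σ → ℂ, aeval z q = aeval z p :=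
  ⟨MvPolynomial.map (algebraMap ℚ (⊥ : IntermediateField ℚ ℂ)) p, fun _ => aeval_map_algebraMap _ _ _⟩

theorem grp_pull (hΦ : IsTensorial Φ) {T₀ : Set (GL ι ℂ)}
    (hT₀ : IsTorsor Qbar T₀) (hcl : ClosedOver ⊥ (grp T₀)) {t : GL (Fin n) ℂ} (ht : Φ t ∈ T₀) :
    ClosedOver ⊥ (grp {g : GL (Fin n) ℂ | Φ g ∈ T₀}) := by
  have e : grp {g : GL (Fin n) ℂ | Φ g ∈ T₀} = {g | Φ g * (Φ 1)⁻¹ ∈ grp T₀} := by
    ext g
    rw [mem_grp_iff (isTorsor_pull hΦ hT₀ ht) (c := t) ht]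
    change Φ (g * t) ∈ T₀ ↔ Φ g * (Φ 1)⁻¹ ∈ grp T₀
    rw [mem_grp_iff hT₀ ht, mul_eq hΦ]
  rw [e]
  refine closedOver_pull (Ψ := fun g => Φ g * (Φ 1)⁻¹) (fun i j => ?_) hcl
  obtain ⟨p, hp⟩ := hΦ.rational i j
  obtain ⟨q, hq⟩ := exists_bot p
  exact ⟨q, fun g => (hp g).trans (hq _).symm⟩

end KTenM

open KTenM in
theorem specKTen (hGrp : SpecKGrp) : SpecKTen := by
  intro g N n A c t qdR qB B E κ _ _ m P lam hKS hSp h3 h5 K ι _ _ Φ hK hΦ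
  have hT₀ : IsTorsor Qbar (OmegaDRB K (Φ t)) := by
    have h := isTorsor_OmegaDRB K (Φ t)
    exact ⟨GL2.closedOver_mono hK h.closed, h.nonempty, h.heap⟩
  have ht : Φ t ∈ OmegaDRB K (Φ t) := mem_OmegaDRB_self K (Φ t)
  have hcl : ClosedOver ⊥ (grp (OmegaDRB K (Φ t))) := by
    rw [grp_OmegaDRB]
    exact closedOver_GdRB K (Φ t)
  have h0 : soTorsor t qB m P ⊆ {f | Φ f ∈ OmegaDRB K (Φ t)} :=
    hGrp g N n A c t qdR qB B E κ m P lam hKS hSp h3 h5 _ (isTorsor_pull hΦ hT₀ ht) ht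
      (grp_pull hΦ hT₀ hcl ht)
  have h1 : ∀ x ∈ soTorsor t qB m P, ∀ f, Conj K (Φ x) f → f ∈ OmegaDRB K (Φ t) := by
    intro x hx f hf
    obtain ⟨τ, hτ, hf⟩ := hf
    have hf' : f = tw τ (Φ x) := by
      apply Units.ext
      exact Matrix.ext hf
    rw [hf']
    exact OmegaDRB_tw hτ (h0 hx)
  refine ⟨h1, fun S hS hsub => ?_⟩
  have h3 : OmegaDRB K (Φ t) = OmegaS S := by
    refine (drb_subset hS).antisymm fun f hf => ?_
    obtain ⟨x, hx, hxf⟩ := hsub f hf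
    exact h1 x hx f hxf
  refine ⟨h3, ?_⟩
  rintro rfl
  rw [← h3]
  exact OmegaM_eq_OmegaDRB (Φ t)

end Pool.Agent.Lib.MPf11a48.K3
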