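import Pool.Agent.Lib.MP_f11a48_ag.K3.Stmt

/-! # Block diagonal matrices -/

set_option autoImplicit false
set_option linter.unusedSectionVars false

namespace Pool.Agent.Lib.MPf11a48.K3

open Matrix

variable {κ J : Type} [Fintype κ] [Fintype J] [DecidableEq κ] [DecidableEq J] {n : κ → ℕ}
  {R : Type} [CommRing R]

/-- the index set of the block diagonal matrices -/
abbrev BI (n : κ → ℕ) (J : Type) : Type := ((k : κ) × Fin (n k)) ⊕ J

/-- the block diagonal matrix with blocks `A k` and `y j` -/
def blk (A : (k : κ) → Matrix (Fin (n k)) (Fin (n k)) R) (y : J → R) :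
    Matrix (BI n J) (BI n J) R :=
  Matrix.fromBlocks (Matrix.blockDiagonal' A) 0 0 (Matrix.diagonal y)

theorem blk_mul (A B : (k : κ) → Matrix (Fin (n k)) (Fin (n k)) R) (y z : J → R) :
    blk A y * blk B z = blk (fun k => A k * B k) (fun j => y j * z j) := by
  rw [blk, blk, blk, fromBlocks_multiply]
  simp only [Matrix.mul_zero, Matrix.zero_mul, add_zero, zero_add, diagonal_mul_diagonal,
    ← blockDiagonal'_mul]

theorem blk_one : blk (fun k => (1 : Matrix (Fin (n k)) (Fin (n k)) R)) (fun _ : J => (1 : R)) =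
    1 := by
  rw [blk]
  have h1 : blockDiagonal' (fun k => (1 : Matrix (Fin (n k)) (Fin (n k)) R)) = 1 :=
    blockDiagonal'_one
  rw [h1]
  have h2 : diagonal (fun _ : J => (1 : R)) = 1 := diagonal_one
  rw [h2, fromBlocks_one]

theorem blk_add (A B : (k : κ) → Matrix (Fin (n k)) (Fin (n k)) R) (y z : J → R) :
    blk A y + blk B z = blk (fun k => A k + B k) (fun j => y j + z j) := by
  rw [blk, blk, blk, fromBlocks_add]
  have h1 : blockDiagonal' (fun k => A k + B k) = blockDiagonal' A + blockDiagonal' B :=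
    blockDiagonal'_add A B
  rw [h1, add_zero, add_zero, diagonal_add]

theorem blk_sub (A B : (k : κ) → Matrix (Fin (n k)) (Fin (n k)) R) (y z : J → R) :
    blk A y - blk B z = blk (fun k => A k - B k) (fun j => y j - z j) := by
  rw [sub_eq_iff_eq_add, blk_add]
  simp

theorem blk_smul (t : R) (A : (k : κ) → Matrix (Fin (n k)) (Fin (n k)) R) (y : J → R) :
    t • blk A y = blk (fun k => t • A k) (fun j => t * y j) := by
  rw [blk, blk, fromBlocks_smul]
  have h1 : blockDiagonal' (fun k => t • A k) = t • blockDiagonal' A := blockDiagonal'_smul t A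
  rw [h1, smul_zero, smul_zero, ← diagonal_smul]
  rfl

theorem blk_map {R' : Type} [CommRing R'] (f : R → R') (h0 : f 0 = 0)
    (A : (k : κ) → Matrix (Fin (n k)) (Fin (n k)) R) (y : J → R) :
    (blk A y).map f = blk (fun k => (A k).map f) (fun j => f (y j)) := by
  rw [blk, blk, fromBlocks_map, blockDiagonal'_map _ f h0, diagonal_map h0]
  congr 1
  · ext i j
    exact h0
  · ext i j
    exact h0

theorem blk_injective {A B : (k : κ) → Matrix (Fin (n k)) (Fin (n k)) R} {y z : J → R}
    (h : blk A y = blk B z) : A = B ∧ y = z := by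
  have h1 := fromBlocks_inj.1 h
  exact ⟨blockDiagonal'_injective h1.1, diagonal_injective h1.2.2.2⟩

/-- the block diagonal invertible matrices -/
def blkGL : ((k : κ) → GL (Fin (n k)) R) × (J → Rˣ) →* GL (BI n J) R where
  toFun x :=
    { val := blk (fun k => (x.1 k).1) (fun j => (x.2 j : R))
      inv := blk (fun k => (x.1 k)⁻¹.1) (fun j => ((x.2 j)⁻¹ : Rˣ))
      val_inv := by
        rw [blk_mul, ← blk_one]
        congr 1
        · funext k
          exact (x.1 k).mul_inv
        · funext j
          exact (x.2 j).mul_inv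
      inv_val := by
        rw [blk_mul, ← blk_one]
        congr 1
        · funext k
          exact (x.1 k).inv_mul
        · funext j
          exact (x.2 j).inv_mul }
  map_one' := Units.ext blk_one
  map_mul' x y := Units.ext (blk_mul _ _ _ _).symm

/-- the point of `GL` given by a point of `∏ SO_{n k} × G_m^J` -/
def blkP (x : Pt n J) : GL (BI n J) ℂ := blkGL (fun k => (x.1 k).1, x.2)

theorem blkP_mul (x y : Pt n J) : blkP (x * y) = blkP x * blkP y :=
  map_mul blkGL (fun k => (x.1 k).1, x.2) (fun k => (y.1 k).1, y.2)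

theorem blkP_inv (x : Pt n J) : blkP x⁻¹ = (blkP x)⁻¹ :=
  map_inv blkGL (fun k => (x.1 k).1, x.2)

theorem blkP_val (x : Pt n J) : (blkP x).1 = blk (fun k => (x.1 k).1.1) (fun j => (x.2 j : ℂ)) :=
  rfl

theorem blkP_injective {x y : Pt n J} (h : blkP x = blkP y) : x = y := by
  have h1 := blk_injective (congrArg Units.val h)
  refine Prod.ext (funext fun k => Subtype.ext (Units.ext (congrFun h1.1 k))) (funext fun j => ?_)
  exact Units.ext (congrFun h1.2 j)

/-- two indices are in the same block -/
def inB : BI n J → BI n J → Prop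
  | Sum.inl a, Sum.inl b => a.1 = b.1
  | Sum.inr a, Sum.inr b => a = b
  | _, _ => False

theorem blk_off {A : (k : κ) → Matrix (Fin (n k)) (Fin (n k)) R} {y : J → R} {u v : BI n J}
    (h : ¬inB u v) : blk A y u v = 0 := by
  rcases u with ⟨k, i⟩ | j <;> rcases v with ⟨l, i'⟩ | j'
  · exact blockDiagonal'_apply_ne A i i' h
  · rfl
  · rfl
  · exact diagonal_apply_ne y h

theorem eq_blk {M : Matrix (BI n J) (BI n J) R} (h : ∀ u v, ¬inB u v → M u v = 0) :
    M = blk (fun k => Matrix.of fun i i' => M (Sum.inl ⟨k, i⟩) (Sum.inl ⟨k, i'⟩))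
      (fun j => M (Sum.inr j) (Sum.inr j)) := by
  ext u v
  by_cases huv : inB u v
  · rcases u with ⟨k, i⟩ | j <;> rcases v with ⟨l, i'⟩ | j'
    · have hkl : k = l := huv
      subst hkl
      exact (blockDiagonal'_apply_eq (fun k => Matrix.of fun i i' =>
        M (Sum.inl ⟨k, i⟩) (Sum.inl ⟨k, i'⟩)) k i i').symm
    · exact huv.elim
    · exact huv.elim
    · have hj : j = j' := huv
      subst hj
      exact (diagonal_apply_eq (fun j => M (Sum.inr j) (Sum.inr j)) j).symm
  · rw [h u v huv, blk_off huv]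

theorem blk_ll (A : (k : κ) → Matrix (Fin (n k)) (Fin (n k)) R) (y : J → R) (k : κ)
    (i i' : Fin (n k)) : blk A y (Sum.inl ⟨k, i⟩) (Sum.inl ⟨k, i'⟩) = A k i i' :=
  blockDiagonal'_apply_eq A k i i'

theorem blk_rr (A : (k : κ) → Matrix (Fin (n k)) (Fin (n k)) R) (y : J → R) (j : J) :
    blk A y (Sum.inr j) (Sum.inr j) = y j :=
  diagonal_apply_eq y j

end Pool.Agent.Lib.MPf11a48.K3
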