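import Pool.Agent.Lib.MP_f11a48_ag.K3.AlgSpec
import Pool.Agent.Lib.MP_f11a48_ag.K3.Blk
import Pool.Agent.Lib.MP_f11a48_ag.helper92.Exact

/-!
# Torsors containing orthogonal objects: Specs
-/

set_option autoImplicit false

namespace Pool.Agent.Lib.MPf11a48.K3

open Matrix MvPolynomial Pool.Agent.Lib.MPf11a48.Tors
open Pool.Agent.Lib.MPf11a48.CM hiding OmegaM
open Pool.Agent.Lib.MPf11a48.GL2 (Geo lie)

/-- the logarithmic derivative of a matrix -/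
noncomputable def dlog {n : ℕ} (D : Derivation Qbar ℂ ℂ) (c : GL (Fin n) ℂ) :
    Matrix (Fin n) (Fin n) ℂ := c.1.map D * c⁻¹.1

/-- all logarithmic derivatives of `c` are complex combinations of elements of `g` -/
def HasLog {n : ℕ} (c : GL (Fin n) ℂ) (g : Set (Matrix (Fin n) (Fin n) Qbar)) : Prop :=
  ∀ D : Derivation Qbar ℂ ℂ, dlog D c ∈ Submodule.span ℂ {M | ∃ X ∈ g, M = toC X}

/-- the same for pairs -/
def HasLog2 {n m : ℕ} (c : GL (Fin n) ℂ) (d : GL (Fin m) ℂ)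
    (h : Set (Matrix (Fin n) (Fin n) Qbar × Matrix (Fin m) (Fin m) Qbar)) : Prop :=
  ∀ D : Derivation Qbar ℂ ℂ, (dlog D c, dlog D d) ∈
    Submodule.span ℂ {M | ∃ X ∈ h, M = (toC X.1, toC X.2)}

/-- there is no non-zero linear map from skew-symmetric matrices to skew-symmetric matrices
(extended by zero to symmetric matrices) which commutes with the pairs in `h` -/
def NL {n m : ℕ} {F : Type} [Field F]
    (h : Set (Matrix (Fin n) (Fin n) F × Matrix (Fin m) (Fin m) F)) : Prop :=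
  ∀ φ : Matrix (Fin n) (Fin n) F →ₗ[F] Matrix (Fin m) (Fin m) F, (∀ Y, φ Yᵀ = -φ Y) →
    (∀ Y, (φ Y)ᵀ = -φ Y) → (∀ X ∈ h, ∀ Y, φ (X.1 * Y - Y * X.1) = X.2 * φ Y - φ Y * X.2) → φ = 0

/-- DSC: a complex subspace stable under all derivations of `ℂ` over `Qbar` is spanned by its
algebraic vectors, and a vector killed by all derivations is algebraic. -/
def SpecDsc : Prop :=
  (∀ (J : Type) [Fintype J] (U : Submodule ℂ (J → ℂ)),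
    (∀ D : Derivation Qbar ℂ ℂ, ∀ u ∈ U, (fun j => D (u j)) ∈ U) →
    ∃ W : Submodule Qbar (J → Qbar), U = spanC W) ∧
  ∀ z : ℂ, (∀ D : Derivation Qbar ℂ ℂ, D z = 0) → z ∈ Qbar

/-- IRR -/
def SpecIrr : Prop :=
  ∀ (n : ℕ) (c : GL (Fin n) ℂ) (g : Set (Matrix (Fin n) (Fin n) Qbar)), Irr c → HasLog c g →
    ∀ W : Submodule Qbar (Fin n → Qbar), (∀ X ∈ g, ∀ v ∈ W, X.mulVec v ∈ W) → W = ⊥ ∨ W = ⊤

/-- EXT -/
def SpecExt : Prop :=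
  ∀ (n : ℕ) (c : GL (Fin n) ℂ) (g : Set (Matrix (Fin n) (Fin n) Qbar)), NoExt c → HasLog c g →
    NoInv g

/-- LNK -/
def SpecLnk : Prop :=
  ∀ (n m : ℕ) (c : GL (Fin n) ℂ) (d : GL (Fin m) ℂ)
    (h : Set (Matrix (Fin n) (Fin n) Qbar × Matrix (Fin m) (Fin m) Qbar)),
    (∀ X ∈ h, X.1ᵀ = -X.1 ∧ X.2ᵀ = -X.2) → NonLink c d → HasLog2 c d h → NL h

/-- PERF: skew-symmetric matrices are sums of commutators. -/
def SpecPerf : Prop :=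
  ∀ (F : Type) [Field F] [CharZero F] (n : ℕ), 3 ≤ n → ∀ A : Matrix (Fin n) (Fin n) F, Aᵀ = -A →
    A ∈ Submodule.span F {C | ∃ X Y : Matrix (Fin n) (Fin n) F, Xᵀ = -X ∧ Yᵀ = -Y ∧
      C = X * Y - Y * X}

/-- GOUR: Goursat -/
def SpecGour : Prop :=
  ∀ (F : Type) [Field F] [CharZero F] [IsAlgClosed F] (κ : Type) [Fintype κ] [DecidableEq κ]
    (n : κ → ℕ), (∀ k, 3 ≤ n k) → ∀ h : Submodule F ((k : κ) → Matrix (Fin (n k)) (Fin (n k)) F),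
    (∀ X ∈ h, ∀ k, (X k)ᵀ = -X k) →
    (∀ X ∈ h, ∀ Y ∈ h, (fun k => X k * Y k - Y k * X k) ∈ h) →
    (∀ k, ∀ A : Matrix (Fin (n k)) (Fin (n k)) F, Aᵀ = -A → ∃ X ∈ h, X k = A) →
    (∀ k l, k ≠ l → NL {p | ∃ X ∈ h, p = (X k, X l)}) →
    ∀ X : (k : κ) → Matrix (Fin (n k)) (Fin (n k)) F, (∀ k, (X k)ᵀ = -X k) → X ∈ h

/-- CURVE: integral curves -/
def SpecCurve : Prop :=
  ∀ (I : Type) [Fintype I] [DecidableEq I] (T : Set (GL I ℂ)), Geo T → ∀ X ∈ lie T,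
    ∀ g : ℂ → GL I ℂ, g 0 = 1 →
    (∀ s i j, HasDerivAt (fun s => (g s).1 i j) ((X * (g s).1) i j) s) → ∀ f ∈ T, ∀ s, g s * f ∈ T

/-- GEN: generation of `SO_n(ℂ)` by integral curves -/
def SpecGen : Prop :=
  ∀ (n : ℕ) (G : Subgroup (GL (Fin n) ℂ)),
    (∀ X : Matrix (Fin n) (Fin n) ℂ, Xᵀ = -X → ∀ g : ℂ → GL (Fin n) ℂ, g 0 = 1 →
      (∀ s i j, HasDerivAt (fun s => (g s).1 i j) ((X * (g s).1) i j) s) → ∀ s, g s ∈ G) →
    SO n ≤ G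

section core

variable {κ J : Type} {n : κ → ℕ}

/-- the hypotheses on the orthogonal objects -/
structure Good (c : Pt n J) : Prop where
  three : ∀ k, 3 ≤ n k
  five : ∀ k, n k ≠ 5
  irr : ∀ k, Irr (c.1 k).1
  ext : ∀ k, NoExt (c.1 k).1
  lnk : ∀ k l, k ≠ l → NonLink (c.1 k).1 (c.1 l).1

end core

/-- CORE -/
def SpecCore : Prop :=
  ∀ (κ J : Type) [Fintype κ] [Fintype J] [DecidableEq κ] [DecidableEq J] (n : κ → ℕ)
    (T : Set (GL (BI n J) ℂ)), IsTorsor Qbar T → ∀ c : Pt n J, Good c → blkP c ∈ T →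
    ∀ x : Pt n J, SameRel c x → blkP x ∈ T

/-- FINAL -/
def SpecFinal : Prop :=
  ∀ (K : IntermediateField ℚ ℂ) (κ J ι : Type) [Fintype κ] [DecidableEq κ] [Fintype J]
    [DecidableEq J] [Fintype ι] [DecidableEq ι] (n : κ → ℕ) (Φ : Pt n J → GL ι ℂ) (c : Pt n J),
    K ≤ Qbar → IsMor Φ → (∀ k, 3 ≤ n k) → (∀ k, n k ≠ 5) → (∀ k, Irr (c.1 k).1) →
    (∀ k, NoExt (c.1 k).1) → (∀ k l, k ≠ l → NonLink (c.1 k).1 (c.1 l).1) →
    (∀ x, SameRel c x → ∀ f, Conj K (Φ x) f → f ∈ OmegaM K (Φ c)) ∧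
    (K = Qbar → IsImm Φ → OmegaM K (Φ c) = {f | ∃ x, SameRel c x ∧ f = Φ x}) ∧
    ∀ S : Set (TPair K ι), (∀ α ∈ S, Fixes (Φ c) α) →
      (∀ f ∈ OmegaS S, ∃ x, SameRel c x ∧ Conj K (Φ x) f) →
      OmegaM K (Φ c) = OmegaS S ∧ OmegaDRB K (Φ c) = OmegaS S

end Pool.Agent.Lib.MPf11a48.K3
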