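import Pool.Agent.Lib.MP_f11a48_ag.K3.KStmt
import Pool.Agent.Lib.MP_f11a48_ag.K3.BSpec
import Pool.Agent.Lib.MP_f11a48_ag.U.SpecR

/-!
# Orthogonal de Rham-Betti objects with a Kuga-Satake variety: specifications
-/

set_option autoImplicit false

namespace Pool.Agent.Lib.MPf11a48.K3

open Matrix MvPolynomial Pool.Agent.Lib.MPf11a48.Tors
open Pool.Agent.Lib.MPf11a48.CM hiding OmegaM
open Pool.Agent.Lib.MPf11a48.GL2 (lie)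
open Pool.Agent.Lib.MPf11a48.U (AbData Ix HD EndAlg)

/-- BIC2: the bicommutant theorem for a rational Lie algebra of similitudes containing the
logarithmic derivatives of the period matrix of an abelian variety (as U/Bic.lean, which treats all
`Z` with `InH c Z`). -/
def SpecBic2 : Prop :=
  ∀ {ι : Type} [Fintype ι] [DecidableEq ι] (c : GL ι ℂ) (J : Matrix ι ι ℝ) (ψ : Matrix ι ι ℚ),
    HD c J ψ → ∀ kk : Submodule ℚ (Matrix ι ι ℚ),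
    (∀ Z ∈ kk, ∃ m : ℚ, Zᵀ * ψ + ψ * Z = m • ψ) →
    (∀ δ : Derivation Qbar ℂ ℂ, c.1.map δ * c⁻¹.1 ∈
      Submodule.span ℂ {Y : Matrix ι ι ℂ | ∃ Z ∈ kk, Y = cx Z}) →
    ∀ x : Matrix ι ι ℚ, (∀ B ∈ EndAlg c.1, x * B = B * x) → x ∈ Algebra.adjoin ℚ (kk : Set _)

/-- A family `γ` of Clifford operators on `ℂ^ι`, and pairs `(X, ρ)` such that `X` acts on the span of
`γ` by the skew-symmetric matrix `ρ`; the products `γ i γ j` are in the algebra generated by the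
`X`. -/
structure CF {ι : Type} [Fintype ι] [DecidableEq ι] {m : ℕ} (γ : Fin m → Matrix ι ι ℂ)
    (kk : Set (Matrix ι ι ℂ × Matrix (Fin m) (Fin m) ℂ)) : Prop where
  cl : ∀ i j, γ i * γ j + γ j * γ i = if i = j then 1 else 0
  skew : ∀ X ∈ kk, X.2ᵀ = -X.2
  act : ∀ X ∈ kk, ∀ j, X.1 * γ j - γ j * X.1 = ∑ i, X.2 i j • γ i
  gen : ∀ i j, γ i * γ j ∈ Algebra.adjoin ℂ (Prod.fst '' kk)

/-- the element `∑ w(I) γ_{I 1} ⋯ γ_{I j}` -/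
noncomputable def bt {ι : Type} [Fintype ι] [DecidableEq ι] {m j : ℕ}
    (γ : Fin m → Matrix ι ι ℂ) (w : (Fin j → Fin m) → ℂ) : Matrix ι ι ℂ :=
  ∑ I, w I • (List.ofFn fun a => γ (I a)).prod

/-- KBR: Leibniz rule -/
def SpecKBr : Prop :=
  ∀ (ι : Type) [Fintype ι] [DecidableEq ι] (m j : ℕ) (γ : Fin m → Matrix ι ι ℂ)
    (X : Matrix ι ι ℂ) (ρ : Matrix (Fin m) (Fin m) ℂ), (∀ k, X * γ k - γ k * X = ∑ i, ρ i k • γ i) →
    ∀ w : (Fin j → Fin m) → ℂ, X * bt γ w - bt γ w * X = bt γ (actT ρ w)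

/-- KINJ: `bt` is injective on alternating tensors -/
def SpecKInj : Prop :=
  ∀ (ι : Type) [Fintype ι] [DecidableEq ι] [Nonempty ι] (m j : ℕ) (γ : Fin m → Matrix ι ι ℂ),
    (∀ i j, γ i * γ j + γ j * γ i = if i = j then 1 else 0) → ∀ w : (Fin j → Fin m) → ℂ, Alt w →
    bt γ w = 0 → w = 0

/-- KNI: no invariants in the exterior powers -/
def SpecKNI : Prop :=
  ∀ (ι : Type) [Fintype ι] [DecidableEq ι] [Nonempty ι] (m : ℕ) (γ : Fin m → Matrix ι ι ℂ)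
    (kk : Set (Matrix ι ι ℂ × Matrix (Fin m) (Fin m) ℂ)), CF γ kk → NoInv (Prod.snd '' kk)

/-- KISO: no isotropic stable subspaces -/
def SpecKIso : Prop :=
  ∀ (ι : Type) [Fintype ι] [DecidableEq ι] [Nonempty ι] (m : ℕ) (γ : Fin m → Matrix ι ι ℂ)
    (kk : Set (Matrix ι ι ℂ × Matrix (Fin m) (Fin m) ℂ)), 3 ≤ m → CF γ kk →
    ∀ W : Submodule ℂ (Fin m → ℂ), (∀ X ∈ kk, ∀ v ∈ W, X.2 *ᵥ v ∈ W) →
      (∀ v ∈ W, ∀ w ∈ W, v ⬝ᵥ w = 0) → W = ⊥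

/-- KIRR: irreducibility, from KNI and KISO -/
def SpecKIrr : Prop :=
  ∀ (m : ℕ) (g : Set (Matrix (Fin m) (Fin m) ℂ)), (∀ X ∈ g, Xᵀ = -X) → NoInv g →
    (∀ W : Submodule ℂ (Fin m → ℂ), (∀ X ∈ g, ∀ v ∈ W, X *ᵥ v ∈ W) →
      (∀ v ∈ W, ∀ w ∈ W, v ⬝ᵥ w = 0) → W = ⊥) →
    ∀ W : Submodule ℂ (Fin m → ℂ), (∀ X ∈ g, ∀ v ∈ W, X *ᵥ v ∈ W) → W = ⊥ ∨ W = ⊤

/-- KLNK: no links between two anticommuting Clifford families -/
def SpecKLnk : Prop :=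
  ∀ (ι : Type) [Fintype ι] [DecidableEq ι] [Nonempty ι] (m m' : ℕ) (γ : Fin m → Matrix ι ι ℂ)
    (γ' : Fin m' → Matrix ι ι ℂ)
    (kk : Set (Matrix ι ι ℂ × (Matrix (Fin m) (Fin m) ℂ × Matrix (Fin m') (Fin m') ℂ))), 3 ≤ m →
    (∀ i j, γ i * γ' j + γ' j * γ i = 0) →
    CF γ ((fun X => (X.1, X.2.1)) '' kk) → (∀ i j, γ' i * γ' j + γ' j * γ' i = if i = j then 1 else 0) →
    (∀ X ∈ kk, X.2.2ᵀ = -X.2.2) →
    (∀ X ∈ kk, ∀ j, X.1 * γ' j - γ' j * X.1 = ∑ i, X.2.2 i j • γ' i) → NL (Prod.snd '' kk)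

/-- LRAT: if the group of a torsor over `Qbar` is defined over `ℚ`, then its Lie algebra is stable
under the application of `ℚ`-linear forms to the entries. -/
def SpecLRat : Prop :=
  ∀ (n : Type) [Fintype n] [DecidableEq n] (T : Set (GL n ℂ)), IsTorsor Qbar T →
    ClosedOver ⊥ (grp T) → ∀ M ∈ lie T, ∀ l : ℂ →ₗ[ℚ] ℚ, cx (fun i j => l (M i j)) ∈ lie T

section

variable {n : ℕ} {μ : Type} [Fintype μ]

/-- the elements of the Lie algebra of `T` which are infinitesimal isometries commuting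
with `E` -/
def gT (T : Set (GL (Fin n) ℂ)) (qB : Matrix (Fin n) (Fin n) ℚ)
    (E : Set (Matrix (Fin n) (Fin n) ℚ)) : Set (Matrix (Fin n) (Fin n) ℂ) :=
  {ρ | ρ ∈ lie T ∧ ρᵀ * cx qB + cx qB * ρ = 0 ∧ ∀ e ∈ E, ρ * cx e = cx e * ρ}

/-- the rational Lie algebra of similitudes of `ψ` which act on `T` by elements of `gT` -/
def kT (T : Set (GL (Fin n) ℂ)) (qB : Matrix (Fin n) (Fin n) ℚ)
    (E : Set (Matrix (Fin n) (Fin n) ℚ)) (ψ : Matrix μ μ ℚ) (B : Fin n → Matrix μ μ ℚ) :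
    Set (Matrix μ μ ℚ) :=
  {Z | (∃ m : ℚ, Zᵀ * ψ + ψ * Z = m • ψ) ∧ ∃ ρ : Matrix (Fin n) (Fin n) ℚ, cx ρ ∈ gT T qB E ∧
    ∀ j, Z * B j - B j * Z = ∑ i, ρ i j • B i}

end

/-- KRAT: `kT` is a subspace, and contains (complex combinations) the logarithmic derivatives -/
def SpecKRat : Prop :=
  ∀ (g N n : ℕ) (A : AbData g N) (c : GL (Ix g) ℂ) (t : GL (Fin n) ℂ)
    (qdR : Matrix (Fin n) (Fin n) ℂ) (qB : Matrix (Fin n) (Fin n) ℚ)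
    (B : Fin n → Matrix (Ix g) (Ix g) ℚ) (E : Set (Matrix (Fin n) (Fin n) ℚ))
    (J : Matrix (Ix g) (Ix g) ℝ) (ψ : Matrix (Ix g) (Ix g) ℚ),
    KugaSatake A c t qdR qB B E → HD c J ψ → ∀ T : Set (GL (Fin n) ℂ), IsTorsor Qbar T → t ∈ T →
    ClosedOver ⊥ (grp T) →
    ∃ kk : Submodule ℚ (Matrix (Ix g) (Ix g) ℚ), (kk : Set (Matrix (Ix g) (Ix g) ℚ)) = kT T qB E ψ B ∧
      ∀ δ : Derivation Qbar ℂ ℂ, c.1.map δ * c⁻¹.1 ∈
        Submodule.span ℂ {Y : Matrix (Ix g) (Ix g) ℂ | ∃ Z ∈ kk, Y = cx Z}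

/-- KFULL: the Lie algebra of `T` contains everything it can -/
def SpecKFull : Prop :=
  ∀ (g N n : ℕ) (A : AbData g N) (c : GL (Ix g) ℂ) (t : GL (Fin n) ℂ)
    (qdR : Matrix (Fin n) (Fin n) ℂ) (qB : Matrix (Fin n) (Fin n) ℚ)
    (B : Fin n → Matrix (Ix g) (Ix g) ℚ) (E : Set (Matrix (Fin n) (Fin n) ℚ))
    (κ : Type) [Fintype κ] [DecidableEq κ] (m : κ → ℕ)
    (P : Matrix (Fin n) ((k : κ) × Fin (m k)) ℂ) (lam : Matrix (Fin n) (Fin n) ℚ → κ → ℂ),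
    KugaSatake A c t qdR qB B E → Split qB E m P lam → (∀ k, 3 ≤ m k) → (∀ k, m k ≠ 5) →
    ∀ T : Set (GL (Fin n) ℂ), IsTorsor Qbar T → t ∈ T → ClosedOver ⊥ (grp T) →
    ∀ X : (k : κ) → Matrix (Fin (m k)) (Fin (m k)) ℂ, (∀ k, (X k)ᵀ = -X k) →
      P * blockDiagonal' X * (Pᵀ * cx qB) ∈ lie T

/-- KGRP: every torsor with group over `ℚ` contains `soTorsor` -/
def SpecKGrp : Prop :=
  ∀ (g N n : ℕ) (A : AbData g N) (c : GL (Ix g) ℂ) (t : GL (Fin n) ℂ)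
    (qdR : Matrix (Fin n) (Fin n) ℂ) (qB : Matrix (Fin n) (Fin n) ℚ)
    (B : Fin n → Matrix (Ix g) (Ix g) ℚ) (E : Set (Matrix (Fin n) (Fin n) ℚ))
    (κ : Type) [Fintype κ] [DecidableEq κ] (m : κ → ℕ)
    (P : Matrix (Fin n) ((k : κ) × Fin (m k)) ℂ) (lam : Matrix (Fin n) (Fin n) ℚ → κ → ℂ),
    KugaSatake A c t qdR qB B E → Split qB E m P lam → (∀ k, 3 ≤ m k) → (∀ k, m k ≠ 5) →
    ∀ T : Set (GL (Fin n) ℂ), IsTorsor Qbar T → t ∈ T → ClosedOver ⊥ (grp T) →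
    soTorsor t qB m P ⊆ T

/-- KTEN: the general theorem -/
def SpecKTen : Prop :=
  ∀ (g N n : ℕ) (A : AbData g N) (c : GL (Ix g) ℂ) (t : GL (Fin n) ℂ)
    (qdR : Matrix (Fin n) (Fin n) ℂ) (qB : Matrix (Fin n) (Fin n) ℚ)
    (B : Fin n → Matrix (Ix g) (Ix g) ℚ) (E : Set (Matrix (Fin n) (Fin n) ℚ))
    (κ : Type) [Fintype κ] [DecidableEq κ] (m : κ → ℕ)
    (P : Matrix (Fin n) ((k : κ) × Fin (m k)) ℂ) (lam : Matrix (Fin n) (Fin n) ℚ → κ → ℂ),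
    KugaSatake A c t qdR qB B E → Split qB E m P lam → (∀ k, 3 ≤ m k) → (∀ k, m k ≠ 5) →
    ∀ (K : IntermediateField ℚ ℂ) (ι : Type) [Fintype ι] [DecidableEq ι]
      (Φ : GL (Fin n) ℂ → GL ι ℂ), K ≤ Qbar → IsTensorial Φ →
      (∀ x ∈ soTorsor t qB m P, ∀ f, Conj K (Φ x) f → f ∈ OmegaDRB K (Φ t)) ∧
      ∀ S : Set (TPair K ι), (∀ α ∈ S, Fixes (Φ t) α) →
        (∀ f ∈ OmegaS S, ∃ x ∈ soTorsor t qB m P, Conj K (Φ x) f) →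
        OmegaDRB K (Φ t) = OmegaS S ∧ (K = ⊥ → OmegaM K (Φ t) = OmegaS S)

/-- KEX: the case of `T` itself, over `K`, if all endomorphisms of `A` commute with the even
Clifford algebra (`E = ∅`) -/
def SpecKEx : Prop :=
  ∀ (g N n : ℕ) (A : AbData g N) (c : GL (Ix g) ℂ) (t : GL (Fin n) ℂ)
    (K : IntermediateField ℚ ℂ) (qdR : Matrix (Fin n) (Fin n) K) (qB : Matrix (Fin n) (Fin n) ℚ)
    (B : Fin n → Matrix (Ix g) (Ix g) ℚ), K ≤ Qbar →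
    KugaSatake A c t (qdR.map fun x => (x : ℂ)) qB B ∅ → 3 ≤ n → n ≠ 5 →
    OmegaDRB K t = {f | f.1ᵀ * cx qB * f.1 = qdR.map (fun x => (x : ℂ)) ∧
      (t.1.det ∈ K → f.1.det = t.1.det)} ∧
    ∀ S : Set (TPair K (Fin n)), (∀ α ∈ S, Fixes t α) → formPair qdR qB ∈ S →
      (∀ δ : K, t.1.det = δ → detPair δ ∈ S) →
      OmegaDRB K t = OmegaS S ∧ (K = ⊥ → OmegaM K t = OmegaS S)

end Pool.Agent.Lib.MPf11a48.K3
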