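import Pool.Agent.Lib.MP_f11a48_ag.K3.KSpec3

/-! # KCUR: lifting integral curves to the spin group -/

set_option autoImplicit false

namespace Pool.Agent.Lib.MPf11a48.K3

open Matrix NormedSpace
open Pool.Agent.Lib.MPf11a48.U (AbData Ix HD EndAlg)
open KLieM KRatM

namespace KCurM

section curves

variable {μ ν κ : Type} [Fintype μ] [Fintype ν] [Fintype κ]

/-- `F'` is the derivative of the matrix valued function `F` -/
def Dv (F F' : ℂ → Matrix μ ν ℂ) : Prop := ∀ s i j, HasDerivAt (fun s => F s i j) (F' s i j) s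

omit [Fintype μ] [Fintype ν] in
theorem Dv.congr {F F' G' : ℂ → Matrix μ ν ℂ} (h : Dv F F') (h' : ∀ s, F' s = G' s) : Dv F G' :=
  fun s i j => h' s ▸ h s i j

omit [Fintype μ] [Fintype ν] in
theorem Dv.const (A : Matrix μ ν ℂ) : Dv (fun _ => A) (fun _ => 0) :=
  fun s i j => hasDerivAt_const s (A i j)

omit [Fintype μ] [Fintype ν] in
theorem Dv.transpose {F F' : ℂ → Matrix μ ν ℂ} (h : Dv F F') :
    Dv (fun s => (F s)ᵀ) (fun s => (F' s)ᵀ) := fun s i j => h s j i

omit [Fintype μ] [Fintype κ] in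
theorem Dv.mul {F F' : ℂ → Matrix μ ν ℂ} {G G' : ℂ → Matrix ν κ ℂ} (hF : Dv F F') (hG : Dv G G') :
    Dv (fun s => F s * G s) (fun s => F' s * G s + F s * G' s) := by
  intro s i j
  have h1 : HasDerivAt (fun s => ∑ k, F s i k * G s k j)
      (∑ k, (F' s i k * G s k j + F s i k * G' s k j)) s :=
    HasDerivAt.fun_sum fun k _ => (hF s i k).mul (hG s k j)
  have h2 : (fun s => (F s * G s) i j) = fun s => ∑ k, F s i k * G s k j := by
    funext s
    rw [Matrix.mul_apply]
  rw [h2]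
  refine h1.congr_deriv ?_
  change _ = (F' s * G s + F s * G' s) i j
  rw [Finset.sum_add_distrib, Matrix.add_apply, Matrix.mul_apply, Matrix.mul_apply]

omit [Fintype μ] [Fintype ν] in
theorem Dv.const_of_zero {F : ℂ → Matrix μ ν ℂ} (h : Dv F (fun _ => 0)) (s : ℂ) : F s = F 0 := by
  ext i j
  exact is_const_of_deriv_eq_zero (𝕜 := ℂ) (f := fun s => F s i j)
    (fun t => (h t i j).differentiableAt) (fun t => (h t i j).deriv) s 0

end curves

section exp

variable {ι : Type} [Fintype ι] [DecidableEq ι]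

/-- an entry, as a continuous linear map -/
noncomputable def entryL (i j : ι) : Matrix ι ι ℂ →L[ℂ] ℂ where
  toFun := fun M => M i j
  map_add' := fun _ _ => rfl
  map_smul' := fun _ _ => rfl
  cont := continuous_apply_apply i j

set_option backward.isDefEq.respectTransparency false in
/-- derivative of the exponential -/
theorem dv_exp (X : Matrix ι ι ℂ) : Dv (fun s : ℂ => exp (s • X)) (fun s => X * exp (s • X)) := by
  intro t i j
  open scoped Matrix.Norms.Operator in
  have h := hasDerivAt_exp_smul_const' (𝕂 := ℂ) X t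
  exact (entryL i j).hasFDerivAt.comp_hasDerivAt t h

theorem exp_comm (X : Matrix ι ι ℂ) (s : ℂ) : Commute X (exp (s • X)) :=
  ((Commute.refl X).smul_right s).exp_right

theorem exp_neg_mul (X : Matrix ι ι ℂ) (s : ℂ) : exp (s • (-X)) * exp (s • X) = 1 := by
  rw [← Matrix.exp_add_of_commute _ _ (by
    rw [smul_neg]
    exact (Commute.refl _).neg_left), smul_neg, neg_add_cancel, exp_zero]

theorem exp_mul_neg (X : Matrix ι ι ℂ) (s : ℂ) : exp (s • X) * exp (s • (-X)) = 1 := by
  rw [← Matrix.exp_add_of_commute _ _ (by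
    rw [smul_neg]
    exact (Commute.refl _).neg_right), smul_neg, add_neg_cancel, exp_zero]

/-- the one-parameter group of `X` -/
noncomputable def gl (X : Matrix ι ι ℂ) (s : ℂ) : GL ι ℂ :=
  ⟨exp (s • X), exp (s • (-X)), exp_mul_neg X s, exp_neg_mul X s⟩

theorem gl_zero (X : Matrix ι ι ℂ) : gl X 0 = 1 := by
  refine Units.ext ?_
  change exp ((0 : ℂ) • X) = 1
  rw [zero_smul, exp_zero]

theorem dv_gl (X : Matrix ι ι ℂ) : Dv (fun s => (gl X s).1) (fun s => X * (gl X s).1) := dv_exp X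

theorem dv_gl_inv (X : Matrix ι ι ℂ) :
    Dv (fun s => exp (s • (-X))) (fun s => -(exp (s • (-X)) * X)) := by
  refine (dv_exp (-X)).congr fun s => ?_
  rw [(exp_comm (-X) s).eq, Matrix.mul_neg]

end exp

variable {n : ℕ} {μ : Type} [Fintype μ] [DecidableEq μ] {B : Fin n → Matrix μ μ ℚ}
  {qB : Matrix (Fin n) (Fin n) ℚ}

/-- `[clC ρ, B k] = 4 ∑ ρ_ik B i` for `ρ` in the Lie algebra of isometries -/
theorem clC_comm (hcl : ∀ i j, B i * B j + B j * B i = (2 * qB i j) • (1 : Matrix μ μ ℚ))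
    (hq : qBᵀ = qB) (hdet : qB.det ≠ 0) {ρ : Matrix (Fin n) (Fin n) ℂ}
    (hρ : ρᵀ * cx qB + cx qB * ρ = 0) (k : Fin n) :
    clC B qB ρ * cx (B k) - cx (B k) * clC B qB ρ = (4 : ℂ) • ∑ i, ρ i k • cx (B i) := by
  have h1 : ∀ i j, cx (B i) * cx (B j) + cx (B j) * cx (B i) =
      (2 * (qB i j : ℂ)) • (1 : Matrix μ μ ℂ) := by
    intro i j
    rw [← cx_mul, ← cx_mul, ← cx_add, hcl, cx_smul, cx_one]
    push_cast
    rfl
  have h2 : ∀ i j, (cx (B i) * cx (B j)) * cx (B k) - cx (B k) * (cx (B i) * cx (B j)) =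
      (2 * (qB j k : ℂ)) • cx (B i) - (2 * (qB i k : ℂ)) • cx (B j) := by
    intro i j
    have e1 := h1 j k
    have e2 := h1 i k
    have e3 : (cx (B i) * cx (B j)) * cx (B k) - cx (B k) * (cx (B i) * cx (B j)) =
        cx (B i) * (cx (B j) * cx (B k) + cx (B k) * cx (B j)) -
          (cx (B i) * cx (B k) + cx (B k) * cx (B i)) * cx (B j) := by noncomm_ring
    rw [e3, e1, e2, Matrix.mul_smul, Matrix.mul_one, Matrix.smul_mul, Matrix.one_mul]
  set τ : Matrix (Fin n) (Fin n) ℂ := ρ * cx qB⁻¹ with hτ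
  have hqq : cx qB⁻¹ * cx qB = 1 := by
    rw [← cx_mul, Matrix.nonsing_inv_mul _ (isUnit_iff_ne_zero.2 hdet), cx_one]
  have hqq' : cx qB * cx qB⁻¹ = 1 := by
    rw [← cx_mul, Matrix.mul_nonsing_inv _ (isUnit_iff_ne_zero.2 hdet), cx_one]
  have h3 : ∀ i, ∑ j, τ i j * (qB j k : ℂ) = ρ i k := by
    intro i
    have e1 : τ * cx qB = ρ := by rw [hτ, Matrix.mul_assoc, hqq, Matrix.mul_one]
    have e2 := congrFun (congrFun e1 i) k
    rw [Matrix.mul_apply] at e2
    exact e2
  have h4 : ∀ j, ∑ i, τ i j * (qB i k : ℂ) = -ρ j k := by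
    intro j
    have e1 : cx qB * τ = -ρᵀ := by
      rw [hτ, ← Matrix.mul_assoc, eq_neg_of_add_eq_zero_right hρ, Matrix.neg_mul, Matrix.mul_assoc,
        hqq', Matrix.mul_one]
    have e2 := congrFun (congrFun e1 k) j
    rw [Matrix.mul_apply, Matrix.neg_apply, Matrix.transpose_apply] at e2
    rw [← e2]
    refine Finset.sum_congr rfl fun i _ => ?_
    have e3 : qB k i = qB i k := by
      conv_lhs => rw [← hq]
      rfl
    simp only [cx, Matrix.map_apply]
    rw [e3, mul_comm]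
  have h5 : clC B qB ρ * cx (B k) - cx (B k) * clC B qB ρ =
      ∑ i, ∑ j, ((2 * (τ i j * (qB j k : ℂ))) • cx (B i) - (2 * (τ i j * (qB i k : ℂ))) • cx (B j)) := by
    rw [clC, Finset.sum_mul, Finset.mul_sum, ← Finset.sum_sub_distrib]
    refine Finset.sum_congr rfl fun i _ => ?_
    rw [Finset.sum_mul, Finset.mul_sum, ← Finset.sum_sub_distrib]
    refine Finset.sum_congr rfl fun j _ => ?_
    rw [Matrix.smul_mul, Matrix.mul_smul, ← smul_sub, h2, smul_sub, smul_smul, smul_smul, ← hτ]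
    congr 2 <;> ring
  rw [h5]
  simp only [Finset.sum_sub_distrib]
  have h6 : ∑ i, ∑ j, (2 * (τ i j * (qB j k : ℂ))) • cx (B i) = (2 : ℂ) • ∑ i, ρ i k • cx (B i) := by
    rw [Finset.smul_sum]
    refine Finset.sum_congr rfl fun i _ => ?_
    rw [← Finset.sum_smul, ← Finset.mul_sum, h3, smul_smul]
  have h7 : ∑ i, ∑ j, (2 * (τ i j * (qB i k : ℂ))) • cx (B j) = -((2 : ℂ) • ∑ i, ρ i k • cx (B i)) := by
    rw [Finset.sum_comm, Finset.smul_sum, ← Finset.sum_neg_distrib]
    refine Finset.sum_congr rfl fun j _ => ?_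
    rw [← Finset.sum_smul, ← Finset.mul_sum, h4, smul_smul, mul_neg, neg_smul]
  rw [h6, h7, sub_neg_eq_add, ← add_smul]
  norm_num

end KCurM

open KCurM in
theorem specKCur : SpecKCur := by
  intro g n qB B ψ ρ hq hdet hcl hρ hψ x hx0 hx
  obtain ⟨M, hM⟩ : ∃ M : Matrix (Ix g) (Ix g) ℂ, M = (4 : ℂ)⁻¹ • clC B qB ρ := ⟨_, rfl⟩
  have hM1 : ∀ k, M * cx (B k) - cx (B k) * M = ∑ i, ρ i k • cx (B i) := by
    intro k
    rw [hM, Matrix.smul_mul, Matrix.mul_smul, ← smul_sub, clC_comm hcl hq hdet hρ, smul_smul,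
      inv_mul_cancel₀ (by norm_num : (4 : ℂ) ≠ 0), one_smul]
  have hM2 : ∀ Z : Matrix (Ix g) (Ix g) ℂ, clC B qB ρ * Z = Z * clC B qB ρ → Z * M = M * Z := by
    intro Z hZ
    rw [hM, Matrix.mul_smul, Matrix.smul_mul, hZ]
  have hM3 : Mᵀ * cx ψ + cx ψ * M = 0 := by
    rw [hM, Matrix.transpose_smul, Matrix.smul_mul, Matrix.mul_smul, ← smul_add, hψ, smul_zero]
  rw [← hM]
  refine ⟨gl M, gl_zero M, fun s i j => dv_gl M s i j, fun s => ⟨fun j => ?_, fun Z hZ => ?_, ?_⟩⟩
  · -- compatibility with the Clifford operators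
    set S : ℂ → Matrix (Ix g) (Ix g) ℂ := fun s => ∑ i, (x s).1 i j • cx (B i) with hS
    have hMS : ∀ s, M * S s - S s * M = ∑ i, (ρ * (x s).1) i j • cx (B i) := by
      intro s
      have e : S s = ∑ i, (x s).1 i j • cx (B i) := rfl
      rw [e, Finset.mul_sum, Finset.sum_mul, ← Finset.sum_sub_distrib]
      have h2 : ∀ k, M * (x s).1 k j • cx (B k) - (x s).1 k j • cx (B k) * M =
          ∑ i, (ρ i k * (x s).1 k j) • cx (B i) := by
        intro k
        rw [Matrix.mul_smul, Matrix.smul_mul, ← smul_sub, hM1, Finset.smul_sum]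
        refine Finset.sum_congr rfl fun i _ => ?_
        rw [smul_smul, mul_comm]
      simp only [h2]
      rw [Finset.sum_comm]
      refine Finset.sum_congr rfl fun i _ => ?_
      rw [← Finset.sum_smul, Matrix.mul_apply]
    have hdS : Dv S (fun s => M * S s - S s * M) := by
      intro s a b
      change HasDerivAt (fun s => S s a b) ((M * S s - S s * M) a b) s
      rw [hMS s]
      have h1 : (fun s => S s a b) = fun s => ∑ i, (x s).1 i j * cx (B i) a b := by
        funext s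
        have e : S s = ∑ i, (x s).1 i j • cx (B i) := rfl
        rw [e, Matrix.sum_apply]
        rfl
      rw [h1]
      refine (HasDerivAt.fun_sum fun i _ => (hx s i j).mul_const (cx (B i) a b)).congr_deriv ?_
      rw [Matrix.sum_apply]
      rfl
    have h1 : Dv (fun s => exp (s • (-M)) * S s * (gl M s).1) (fun _ => 0) := by
      refine (((dv_gl_inv M).mul hdS).mul (dv_gl M)).congr fun s => ?_
      noncomm_ring
    have h2 := h1.const_of_zero s
    have h3 : S 0 = cx (B j) := by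
      have e : S 0 = ∑ i, (x 0).1 i j • cx (B i) := rfl
      rw [e, hx0, Finset.sum_eq_single j]
      · rw [Units.val_one, Matrix.one_apply_eq, one_smul]
      · intro i _ hi
        rw [Units.val_one, Matrix.one_apply_ne hi, zero_smul]
      · intro h
        exact absurd (Finset.mem_univ _) h
    rw [zero_smul, exp_zero, Matrix.one_mul, gl_zero, Units.val_one, Matrix.mul_one, h3] at h2
    change (gl M s).1 * cx (B j) = S s * (gl M s).1
    rw [← h2, ← Matrix.mul_assoc, ← Matrix.mul_assoc]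
    have h4 : (gl M s).1 * exp (s • (-M)) = 1 := exp_mul_neg M s
    rw [h4, Matrix.one_mul]
  · have h1 : Commute Z M := hM2 Z hZ
    exact ((h1.smul_right s).exp_right).symm.eq
  · have h1 : Dv (fun s => (gl M s).1ᵀ * cx ψ * (gl M s).1) (fun _ => 0) := by
      refine (((dv_gl M).transpose.mul (Dv.const (cx ψ))).mul (dv_gl M)).congr fun s => ?_
      rw [Matrix.transpose_mul, Matrix.mul_zero, add_zero]
      calc (gl M s).1ᵀ * Mᵀ * cx ψ * (gl M s).1 + (gl M s).1ᵀ * cx ψ * (M * (gl M s).1) =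
          (gl M s).1ᵀ * (Mᵀ * cx ψ + cx ψ * M) * (gl M s).1 := by noncomm_ring
        _ = 0 := by rw [hM3, Matrix.mul_zero, Matrix.zero_mul]
    have h2 := h1.const_of_zero s
    rw [h2, gl_zero, Units.val_one, Matrix.transpose_one, Matrix.one_mul, Matrix.mul_one]

end Pool.Agent.Lib.MPf11a48.K3
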