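import Pool.Agent.Lib.MP_f11a48_ag.K3.BSpec

/-!
# Module DSC: subspaces stable under derivations are spanned by algebraic vectors
-/

set_option autoImplicit false

namespace Pool.Agent.Lib.MPf11a48.K3

open Pool.Agent.Lib.MPf11a48.CM

namespace DscM

/-- an element killed by all derivations is algebraic -/
theorem mem_Qbar {z : ℂ} (h : ∀ D : Derivation Qbar ℂ ℂ, D z = 0) : z ∈ Qbar := by
  by_contra hz
  obtain ⟨D, hD⟩ := GL2.exists_derivation hz
  exact hD (h D)

variable {J : Type} [Fintype J]

open Classical in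
/-- the support -/
noncomputable def supp (u : J → ℂ) : Finset J := Finset.univ.filter (fun j => u j ≠ 0)

theorem mem_supp {u : J → ℂ} {j : J} : j ∈ supp u ↔ u j ≠ 0 := by
  classical
  simp [supp]

theorem supp_lt {u v : J → ℂ} {p : J} (h : ∀ j, v j ≠ 0 → u j ≠ 0) (hp : u p ≠ 0)
    (hv : v p = 0) : (supp v).card < (supp u).card := by
  classical
  refine Finset.card_lt_card ?_
  rw [Finset.ssubset_iff_of_subset (fun j hj => mem_supp.2 (h j (mem_supp.1 hj)))]
  exact ⟨p, mem_supp.2 hp, fun h' => mem_supp.1 h' hv⟩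

/-- the algebraic vectors of a subspace -/
def alg (U : Submodule ℂ (J → ℂ)) : Submodule Qbar (J → Qbar) where
  carrier := {w | (fun j => ((w j : Qbar) : ℂ)) ∈ U}
  add_mem' := fun {_ _} ha hb => U.add_mem ha hb
  zero_mem' := U.zero_mem
  smul_mem' := fun t _ hw => U.smul_mem (t : ℂ) hw

theorem step1 (U : Submodule ℂ (J → ℂ))
    (hU : ∀ D : Derivation Qbar ℂ ℂ, ∀ u ∈ U, (fun j => D (u j)) ∈ U) (n : ℕ) :
    ∀ u ∈ U, u ≠ 0 → (supp u).card ≤ n → ∃ w ∈ alg U, w ≠ 0 ∧ ∀ j, w j ≠ 0 → u j ≠ 0 := by
  induction n with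
  | zero =>
    intro u _ hu hc
    exfalso
    apply hu
    funext j
    by_contra hj
    have : j ∈ supp u := mem_supp.2 hj
    rw [Finset.card_eq_zero.1 (Nat.le_zero.1 hc)] at this
    simp at this
  | succ n ih =>
    intro u huU hu hc
    obtain ⟨p, hp⟩ := Function.ne_iff.1 hu
    have hp' : u p ≠ 0 := hp
    let u1 : J → ℂ := (u p)⁻¹ • u
    have h1U : u1 ∈ U := U.smul_mem _ huU
    have h1p : u1 p = 1 := by
      change (u p)⁻¹ * u p = 1
      exact inv_mul_cancel₀ hp'
    have h1s : ∀ j, u1 j ≠ 0 → u j ≠ 0 := by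
      intro j hj h0
      apply hj
      change (u p)⁻¹ * u j = 0
      rw [h0, mul_zero]
    by_cases h : ∀ D : Derivation Qbar ℂ ℂ, (fun j => D (u1 j)) = 0
    · refine ⟨fun j => ⟨u1 j, mem_Qbar fun D => congrFun (h D) j⟩, h1U, ?_, ?_⟩
      · intro h0
        have := congrArg (fun z : Qbar => (z : ℂ)) (congrFun h0 p)
        change u1 p = 0 at this
        rw [h1p] at this
        exact one_ne_zero this
      · intro j hj
        apply h1s
        intro h0
        apply hj
        exact Subtype.ext h0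
    · push Not at h
      obtain ⟨D, hD⟩ := h
      have hs : ∀ j, D (u1 j) ≠ 0 → u j ≠ 0 := by
        intro j hj
        apply h1s
        intro h0
        apply hj
        rw [h0, map_zero]
      have hDp : D (u1 p) = 0 := by rw [h1p, Derivation.map_one_eq_zero]
      have hlt := supp_lt (u := u) (v := fun j => D (u1 j)) hs hp' hDp
      obtain ⟨w, hw, hw0, hws⟩ := ih _ (hU D u1 h1U) hD (by omega)
      exact ⟨w, hw, hw0, fun j hj => hs j (hws j hj)⟩

theorem step2 (U : Submodule ℂ (J → ℂ))
    (hU : ∀ D : Derivation Qbar ℂ ℂ, ∀ u ∈ U, (fun j => D (u j)) ∈ U) (n : ℕ) :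
    ∀ u ∈ U, (supp u).card ≤ n → u ∈ spanC (alg U) := by
  induction n with
  | zero =>
    intro u _ hc
    have : u = 0 := by
      funext j
      by_contra hj
      have : j ∈ supp u := mem_supp.2 hj
      rw [Finset.card_eq_zero.1 (Nat.le_zero.1 hc)] at this
      simp at this
    rw [this]
    exact Submodule.zero_mem _
  | succ n ih =>
    intro u huU hc
    by_cases hu : u = 0
    · rw [hu]
      exact Submodule.zero_mem _
    obtain ⟨w, hw, hw0, hws⟩ := step1 U hU _ u huU hu le_rfl
    obtain ⟨p, hp⟩ := Function.ne_iff.1 hw0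
    have hp' : ((w p : Qbar) : ℂ) ≠ 0 := by
      intro h0
      apply hp
      exact Subtype.ext h0
    have hwU : (fun j => ((w j : Qbar) : ℂ)) ∈ U := hw
    have hwS : (fun j => ((w j : Qbar) : ℂ)) ∈ spanC (alg U) :=
      Submodule.subset_span ⟨w, hw, rfl⟩
    let t : ℂ := u p / ((w p : Qbar) : ℂ)
    let v : J → ℂ := u - t • fun j => ((w j : Qbar) : ℂ)
    have hvU : v ∈ U := U.sub_mem huU (U.smul_mem t hwU)
    have hvp : v p = 0 := by
      change u p - t * ((w p : Qbar) : ℂ) = 0
      rw [div_mul_cancel₀ _ hp', sub_self]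
    have hvs : ∀ j, v j ≠ 0 → u j ≠ 0 := by
      intro j hj h0
      by_cases hwj : w j = 0
      · apply hj
        change u j - t * ((w j : Qbar) : ℂ) = 0
        rw [h0, hwj]
        simp
      · exact hws j hwj h0
    have hlt := supp_lt hvs (hws p hp) hvp
    have hv := ih v hvU (by omega)
    have : u = v + t • fun j => ((w j : Qbar) : ℂ) := by
      simp [v]
    rw [this]
    exact Submodule.add_mem _ hv (Submodule.smul_mem _ t hwS)

theorem eq_span (U : Submodule ℂ (J → ℂ))
    (hU : ∀ D : Derivation Qbar ℂ ℂ, ∀ u ∈ U, (fun j => D (u j)) ∈ U) : U = spanC (alg U) := by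
  refine le_antisymm (fun u hu => step2 U hU _ u hu le_rfl) ?_
  refine Submodule.span_le.2 ?_
  rintro _ ⟨w, hw, rfl⟩
  exact hw

/-- the complex span of an algebraic subspace is stable under derivations -/
theorem spanC_der (W : Submodule Qbar (J → Qbar)) (D : Derivation Qbar ℂ ℂ) {v : J → ℂ}
    (hv : v ∈ spanC W) : (fun j => D (v j)) ∈ spanC W := by
  have key : ∀ v (_ : v ∈ Submodule.span ℂ
      {v : J → ℂ | ∃ w ∈ W, v = fun j => algebraMap Qbar ℂ (w j)}),
      (fun j => D (v j)) ∈ spanC W := by
    intro v hv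
    induction hv using Submodule.span_induction with
    | mem v hv =>
      obtain ⟨w, _, rfl⟩ := hv
      have : (fun j => D (algebraMap Qbar ℂ (w j))) = (0 : J → ℂ) := by
        funext j
        exact D.map_algebraMap _
      rw [this]
      exact Submodule.zero_mem _
    | zero =>
      have : (fun j => D ((0 : J → ℂ) j)) = (0 : J → ℂ) := by
        funext j
        exact D.map_zero
      rw [this]
      exact Submodule.zero_mem _
    | add x y _ _ hx hy =>
      have : (fun j => D ((x + y) j)) = (fun j => D (x j)) + fun j => D (y j) := by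
        funext j
        exact D.map_add _ _
      rw [this]
      exact Submodule.add_mem _ hx hy
    | smul t x hx' hx =>
      have : (fun j => D ((t • x) j)) = t • (fun j => D (x j)) + D t • x := by
        funext j
        change D (t * x j) = t * D (x j) + D t * x j
        rw [D.leibniz, smul_eq_mul, smul_eq_mul]
        ring
      rw [this]
      exact Submodule.add_mem _ (Submodule.smul_mem _ _ hx) (Submodule.smul_mem _ _ hx')
  exact key v hv

end DscM

theorem specDsc : SpecDsc :=
  ⟨fun _ _ U hU => ⟨DscM.alg U, DscM.eq_span U hU⟩, fun _ h => DscM.mem_Qbar h⟩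

end Pool.Agent.Lib.MPf11a48.K3
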