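import Pool.Agent.Lib.MP_f11a48_ag.K3.KSpec

/-! # Torsors over `Qbar` with group over `ℚ` contain `soTorsor` -/

set_option autoImplicit false
set_option linter.unusedSectionVars false

namespace Pool.Agent.Lib.MPf11a48.K3

open Matrix MvPolynomial Pool.Agent.Lib.MPf11a48.Tors
open Pool.Agent.Lib.MPf11a48.CM hiding OmegaM
open Pool.Agent.Lib.MPf11a48.GL2 (Geo lie)
open Pool.Agent.Lib.MPf11a48.U (AbData Ix)

namespace KGrpM

section stab

variable {I : Type} [Fintype I] [DecidableEq I]

/-- the stabiliser of `T` -/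
def stab (T : Set (GL I ℂ)) : Subgroup (GL I ℂ) where
  carrier := {g | ∀ f ∈ T, g * f ∈ T ∧ g⁻¹ * f ∈ T}
  mul_mem' := by
    intro a b ha hb f hf
    refine ⟨?_, ?_⟩
    · rw [mul_assoc]
      exact (ha _ (hb f hf).1).1
    · rw [_root_.mul_inv_rev, mul_assoc]
      exact (hb _ (ha f hf).2).2
  one_mem' := by
    intro f hf
    rw [inv_one, one_mul]
    exact ⟨hf, hf⟩
  inv_mem' := by
    intro a ha f hf
    rw [inv_inv]
    exact ⟨(ha f hf).2, (ha f hf).1⟩

theorem mem_stab {T : Set (GL I ℂ)} (h : Geo T) {g : GL I ℂ}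
    (hg : ∀ f ∈ T, g * f ∈ T) : g ∈ stab T := by
  intro f hf
  refine ⟨hg f hf, ?_⟩
  have h1 := h.heap f hf _ (hg f hf) f hf
  rwa [_root_.mul_inv_rev, ← mul_assoc, mul_inv_cancel, one_mul] at h1

end stab

variable {n : ℕ} {κ : Type} [Fintype κ] [DecidableEq κ] {m : κ → ℕ}

section conj

variable (P : Matrix (Fin n) ((k : κ) × Fin (m k)) ℂ) (P' : Matrix ((k : κ) × Fin (m k)) (Fin n) ℂ)

/-- conjugation by `P` -/
def cm (X : (k : κ) → Matrix (Fin (m k)) (Fin (m k)) ℂ) : Matrix (Fin n) (Fin n) ℂ :=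
  P * blockDiagonal' X * P'

variable {P P'}

theorem cm_mul (h : P' * P = 1) (X Y : (k : κ) → Matrix (Fin (m k)) (Fin (m k)) ℂ) :
    cm P P' X * cm P P' Y = cm P P' fun k => X k * Y k := by
  unfold cm
  rw [← Matrix.mul_assoc, ← Matrix.mul_assoc, Matrix.mul_assoc (P * blockDiagonal' X) P' P, h,
    Matrix.mul_one, Matrix.mul_assoc P, ← blockDiagonal'_mul]

theorem cm_one (h : P * P' = 1) : cm P P' (fun _ => 1) = 1 := by
  unfold cm
  have e : (blockDiagonal' fun k => (1 : Matrix (Fin (m k)) (Fin (m k)) ℂ)) = 1 :=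
    blockDiagonal'_one
  rw [e, Matrix.mul_one, h]

/-- conjugation by `P`, for groups -/
def cg (h : P * P' = 1) (h' : P' * P = 1) : ((k : κ) → GL (Fin (m k)) ℂ) →* GL (Fin n) ℂ where
  toFun x := ⟨cm P P' (fun k => (x k).1), cm P P' (fun k => (x k)⁻¹.1), by
    rw [cm_mul h']
    have e : (fun k => (x k).1 * (x k)⁻¹.1) = fun _ => 1 := by
      funext k
      exact (x k).mul_inv
    rw [e, cm_one h], by
    rw [cm_mul h']
    have e : (fun k => (x k)⁻¹.1 * (x k).1) = fun _ => 1 := by
      funext k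
      exact (x k).inv_mul
    rw [e, cm_one h]⟩
  map_one' := Units.ext (cm_one h)
  map_mul' x y := Units.ext (cm_mul h' _ _).symm

theorem cg_val (h : P * P' = 1) (h' : P' * P = 1) (x : (k : κ) → GL (Fin (m k)) ℂ) :
    (cg h h' x).1 = cm P P' fun k => (x k).1 := rfl

theorem hasDerivAt_cm {X : ℂ → (k : κ) → Matrix (Fin (m k)) (Fin (m k)) ℂ}
    {Y : (k : κ) → Matrix (Fin (m k)) (Fin (m k)) ℂ} {s : ℂ}
    (hX : ∀ k u v, HasDerivAt (fun s => X s k u v) (Y k u v) s) (i j : Fin n) :
    HasDerivAt (fun s => cm P P' (X s) i j) (cm P P' Y i j) s := by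
  have key : ∀ Z : (k : κ) → Matrix (Fin (m k)) (Fin (m k)) ℂ, cm P P' Z i j =
      ∑ v, (∑ u, P i u * blockDiagonal' Z u v) * P' v j := by
    intro Z
    unfold cm
    rw [Matrix.mul_apply]
    exact Finset.sum_congr rfl fun v _ => by rw [Matrix.mul_apply]
  have e : (fun s => cm P P' (X s) i j) =
      fun s => ∑ v, (∑ u, P i u * blockDiagonal' (X s) u v) * P' v j := funext fun s => key _
  rw [e, key]
  refine HasDerivAt.fun_sum fun v _ => HasDerivAt.mul_const (HasDerivAt.fun_sum fun u _ =>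
    HasDerivAt.const_mul _ ?_) _
  obtain ⟨k1, a⟩ := u
  obtain ⟨k2, b⟩ := v
  by_cases hk : k1 = k2
  · subst hk
    simp only [blockDiagonal'_apply_eq]
    exact hX k1 a b
  · simp only [blockDiagonal'_apply_ne _ _ _ hk]
    exact hasDerivAt_const s _

end conj

/-- `T` contains `soTorsor` if its Lie algebra contains the Lie algebra -/
theorem sub_of_lie (hCurve : SpecCurve) (hGen : SpecGen) {T : Set (GL (Fin n) ℂ)}
    (h : Geo T) {P : Matrix (Fin n) ((k : κ) × Fin (m k)) ℂ}
    {P' : Matrix ((k : κ) × Fin (m k)) (Fin n) ℂ} (hP : P * P' = 1) (hP' : P' * P = 1)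
    (hlie : ∀ X : (k : κ) → Matrix (Fin (m k)) (Fin (m k)) ℂ, (∀ k, (X k)ᵀ = -X k) →
      cm P P' X ∈ lie T) (x : (k : κ) → SO (m k)) :
    cg hP hP' (fun k => (x k).1) ∈ stab T := by
  have hfac : ∀ (k : κ) (u : SO (m k)), cg hP hP' (Pi.mulSingle k u.1) ∈ stab T := by
    intro k u
    have key : SO (m k) ≤ (stab T).comap ((cg hP hP').comp
        (MonoidHom.mulSingle (fun k => GL (Fin (m k)) ℂ) k)) := by
      refine hGen (m k) _ fun X hX g hg0 hd s => ?_
      change cg hP hP' (Pi.mulSingle k (g s)) ∈ stab T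
      refine mem_stab h fun f hf => ?_
      refine hCurve (Fin n) T h (cm P P' (Pi.single k X)) (hlie _ fun k' => ?_)
        (fun s => cg hP hP' (Pi.mulSingle k (g s))) ?_ ?_ f hf s
      · by_cases hk : k' = k
        · subst hk
          rw [Pi.single_eq_same, hX]
        · rw [Pi.single_eq_of_ne hk, transpose_zero, neg_zero]
      · rw [hg0, Pi.mulSingle_one, map_one]
      · intro s i j
        have e1 : cm P P' (Pi.single k X) * (cg hP hP' (Pi.mulSingle k (g s))).1 =
            cm P P' (Pi.single k (X * (g s).1)) := by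
          rw [cg_val, cm_mul hP']
          congr 1
          funext k'
          by_cases hk : k' = k
          · subst hk
            rw [Pi.single_eq_same, Pi.mulSingle_eq_same, Pi.single_eq_same]
          · rw [Pi.single_eq_of_ne hk, Pi.single_eq_of_ne hk, Matrix.zero_mul]
        rw [e1]
        change HasDerivAt (fun s => cm P P' (fun k' =>
          ((Pi.mulSingle k (g s) : (k : κ) → GL (Fin (m k)) ℂ) k').1) i j) _ s
        refine hasDerivAt_cm (fun k' a b => ?_) i j
        by_cases hk : k' = k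
        · subst hk
          simp only [Pi.mulSingle_eq_same, Pi.single_eq_same]
          exact hd s a b
        · simp only [Pi.mulSingle_eq_of_ne hk, Pi.single_eq_of_ne hk]
          exact hasDerivAt_const s _
    exact key u.2
  let Ψ : ((k : κ) → SO (m k)) →* GL (Fin n) ℂ :=
    { toFun := fun u => cg hP hP' fun k => (u k).1
      map_one' := by
        rw [← map_one (cg hP hP')]
        rfl
      map_mul' := by
        intro u v
        rw [← map_mul]
        rfl }
  have key : x ∈ (stab T).comap Ψ := by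
    refine Subgroup.pi_mem_of_mulSingle_mem x fun k => ?_
    change cg hP hP' (fun k' => ((Pi.mulSingle k (x k) : (k : κ) → SO (m k)) k').1) ∈ stab T
    have h1 := hfac k (x k)
    have e : (fun k' => ((Pi.mulSingle k (x k) : (k : κ) → SO (m k)) k').1) =
        Pi.mulSingle k (x k).1 := by
      funext k'
      by_cases hk : k' = k
      · subst hk
        rw [Pi.mulSingle_eq_same, Pi.mulSingle_eq_same]
      · rw [Pi.mulSingle_eq_of_ne hk, Pi.mulSingle_eq_of_ne hk]
        rfl
    rwa [e]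
  exact key

end KGrpM

open KGrpM in
theorem specKGrp (hFull : SpecKFull) (hCurve : SpecCurve) (hGen : SpecGen) : SpecKGrp := by
  intro g N n A c t qdR qB B E κ _ _ m P lam hK hS h3 h5 T hT htT hcl f hf
  obtain ⟨x, hx⟩ := hf
  have hP' : (Pᵀ * cx qB) * P = 1 := hS.orth
  have h1 := sub_of_lie hCurve hGen (GL2.geo_of_torsor hT) hS.onto hP'
    (fun X hX => hFull g N n A c t qdR qB B E κ m P lam hK hS h3 h5 T hT htT hcl X hX) x
  have h2 := (h1 t htT).1
  have e : f = cg hS.onto hP' (fun k => (x k).1) * t := Units.ext hx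
  rw [e]
  exact h2

end Pool.Agent.Lib.MPf11a48.K3
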