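import Pool.Agent.Lib.MP_f11a48_ag.K3.KSpec
import Pool.Agent.Lib.MP_f11a48_ag.U.Bic
import Pool.Agent.Lib.MP_f11a48_ag.U.Sim

/-! # Module KRAT: the rational Lie algebra and the logarithmic derivatives -/

set_option autoImplicit false

namespace Pool.Agent.Lib.MPf11a48.K3

open Matrix MvPolynomial Pool.Agent.Lib.MPf11a48.Tors
open Pool.Agent.Lib.MPf11a48.CM hiding OmegaM
open Pool.Agent.Lib.MPf11a48.GL2 (lie)
open Pool.Agent.Lib.MPf11a48.U (AbData Ix HD EndAlg)

namespace KRatM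

open Pool.Agent.Lib.MPf11a48.GL2T (IsAlg)
open Pool.Agent.Lib.MPf11a48.U (DerM.d_rat DerM.d_zero_of_mem DerM.inv_mul DerM.mul_inv)

/-! ### rational forms -/

/-- rational linear forms on `ℂ` -/
abbrev QForm : Type := ℂ →ₗ[ℚ] ℚ

theorem qform_mul (l : QForm) (z : ℂ) (a : ℚ) : l (z * (a : ℂ)) = l z * a := by
  have h : z * (a : ℂ) = a • z := by
    rw [Algebra.smul_def, mul_comm]
    rfl
  rw [h, map_smul, smul_eq_mul, mul_comm]

theorem qform_mul' (l : QForm) (z : ℂ) (a : ℚ) : l ((a : ℂ) * z) = a * l z := by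
  rw [mul_comm, qform_mul, mul_comm]

theorem exists_expansion {J : Type*} [Finite J] (z : J → ℂ) :
    ∃ (m : ℕ) (β : Fin m → ℂ) (l : Fin m → QForm), ∀ j, z j = ∑ i, β i * ((l i (z j) : ℚ) : ℂ) := by
  classical
  cases nonempty_fintype J
  let b := Module.Basis.ofVectorSpace ℚ ℂ
  let s : Finset (Module.Basis.ofVectorSpaceIndex ℚ ℂ) :=
    Finset.univ.biUnion fun j => (b.repr (z j)).support
  refine ⟨s.card, fun i => b (s.equivFin.symm i), fun i => b.coord (s.equivFin.symm i), fun j => ?_⟩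
  have h1 : z j = ∑ i ∈ s, b i * ((b.coord i (z j) : ℚ) : ℂ) := by
    conv_lhs => rw [← b.linearCombination_repr (z j), Finsupp.linearCombination_apply]
    rw [Finsupp.sum_of_support_subset (s := s)]
    · refine Finset.sum_congr rfl fun i _ => ?_
      rw [Algebra.smul_def, mul_comm]
      rfl
    · intro i hi
      exact Finset.mem_biUnion.2 ⟨j, Finset.mem_univ j, hi⟩
    · intro i _
      rw [zero_smul]
  rw [← Finset.sum_coe_sort s fun i => b i * ((b.coord i (z j) : ℚ) : ℂ)] at h1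
  rw [← s.equivFin.symm.sum_comp] at h1
  exact h1

/-- entrywise application of a form -/
noncomputable def ap {μ ν : Type} (l : QForm) (X : Matrix μ ν ℂ) : Matrix μ ν ℚ := fun i j => l (X i j)

theorem ap_apply {μ ν : Type} (l : QForm) (X : Matrix μ ν ℂ) (i : μ) (j : ν) :
    ap l X i j = l (X i j) := rfl

theorem mul_rat {μ ν κ : Type} [Fintype ν] (l : QForm) (X : Matrix μ ν ℂ) (A : Matrix ν κ ℚ) :
    ap l (X * cx A) = ap l X * A := by
  ext i j
  rw [ap_apply, Matrix.mul_apply, Matrix.mul_apply, map_sum]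
  exact Finset.sum_congr rfl fun k _ => qform_mul l _ _

theorem rat_mul {μ ν κ : Type} [Fintype ν] (l : QForm) (A : Matrix μ ν ℚ) (X : Matrix ν κ ℂ) :
    ap l (cx A * X) = A * ap l X := by
  ext i j
  rw [ap_apply, Matrix.mul_apply, Matrix.mul_apply, map_sum]
  exact Finset.sum_congr rfl fun k _ => qform_mul' l _ _

theorem ap_add {μ ν : Type} (l : QForm) (X Y : Matrix μ ν ℂ) : ap l (X + Y) = ap l X + ap l Y := by
  ext i j
  exact map_add l _ _

theorem ap_sub {μ ν : Type} (l : QForm) (X Y : Matrix μ ν ℂ) : ap l (X - Y) = ap l X - ap l Y := by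
  ext i j
  exact map_sub l _ _

theorem ap_zero {μ ν : Type} (l : QForm) : ap l (0 : Matrix μ ν ℂ) = 0 := by
  ext i j
  exact map_zero l

theorem ap_transpose {μ ν : Type} (l : QForm) (X : Matrix μ ν ℂ) : ap l Xᵀ = (ap l X)ᵀ := rfl

theorem ap_smul {μ ν : Type} (l : QForm) (a : ℂ) (A : Matrix μ ν ℚ) : ap l (a • cx A) = l a • A := by
  ext i j
  change l (a * (A i j : ℂ)) = l a * A i j
  exact qform_mul l _ _

theorem ap_sum {μ ν κ : Type} [Fintype κ] (l : QForm) (X : κ → Matrix μ ν ℂ) :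
    ap l (∑ k, X k) = ∑ k, ap l (X k) := by
  ext i j
  rw [ap_apply, Matrix.sum_apply, map_sum, Matrix.sum_apply]
  rfl

theorem cx_add {μ ν : Type} (A B : Matrix μ ν ℚ) : cx (A + B) = cx A + cx B := by
  ext i j
  simp [cx]

theorem cx_smul {μ ν : Type} (a : ℚ) (A : Matrix μ ν ℚ) : cx (a • A) = (a : ℂ) • cx A := by
  ext i j
  simp [cx]

theorem cx_zero {μ ν : Type} : cx (0 : Matrix μ ν ℚ) = 0 := by
  ext i j
  simp [cx]

theorem cx_mul {μ ν κ : Type} [Fintype ν] (A : Matrix μ ν ℚ) (B : Matrix ν κ ℚ) :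
    cx (A * B) = cx A * cx B := U.BicM.mC_mul A B

theorem eq_sum {μ : Type} [Finite μ] (X : Matrix μ μ ℂ) :
    ∃ (m : ℕ) (β : Fin m → ℂ) (l : Fin m → QForm), X = ∑ i, β i • cx (ap (l i) X) := by
  obtain ⟨m, β, l, h⟩ := exists_expansion (J := μ × μ) (fun x => X x.1 x.2)
  refine ⟨m, β, l, ?_⟩
  ext i j
  have := h (i, j)
  simp only at this
  rw [this, Matrix.sum_apply]
  rfl

/-! ### logarithmic derivatives -/

section

variable {ι : Type} [Fintype ι] [DecidableEq ι]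

theorem map_alg {μ ν : Type} (δ : Derivation Qbar ℂ ℂ) {A : Matrix μ ν ℂ} (hA : IsAlg A) :
    A.map δ = 0 := by
  ext i j
  exact DerM.d_zero_of_mem δ (hA i j)

theorem map_cx {μ ν : Type} (δ : Derivation Qbar ℂ ℂ) (A : Matrix μ ν ℚ) : (cx A).map δ = 0 := by
  ext i j
  exact DerM.d_rat δ (A i j)

/-- the logarithmic derivative is an infinitesimal isometry -/
theorem log_form (t : GL ι ℂ) (q : Matrix ι ι ℚ) (qdR : Matrix ι ι ℂ) (hq : IsAlg qdR)
    (h : t.1ᵀ * cx q * t.1 = qdR) (δ : Derivation Qbar ℂ ℂ) :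
    (t.1.map δ * t⁻¹.1)ᵀ * cx q + cx q * (t.1.map δ * t⁻¹.1) = 0 := by
  have h1 : (t.1.map δ)ᵀ * cx q * t.1 + t.1ᵀ * cx q * t.1.map δ = 0 := by
    have h2 := congrArg (fun M : Matrix ι ι ℂ => M.map δ) h
    rw [map_alg δ hq, U.DerM.map_mul, U.DerM.map_mul, map_cx, Matrix.mul_zero, add_zero] at h2
    exact h2
  have h3 : t⁻¹.1ᵀ * t.1ᵀ = 1 := by
    rw [← Matrix.transpose_mul, U.DerM.mul_inv, Matrix.transpose_one]
  have h4 : t⁻¹.1ᵀ * ((t.1.map δ)ᵀ * cx q * t.1 + t.1ᵀ * cx q * t.1.map δ) * t⁻¹.1 = 0 := by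
    rw [h1, Matrix.mul_zero, Matrix.zero_mul]
  rw [Matrix.mul_add, Matrix.add_mul] at h4
  rw [← h4, Matrix.transpose_mul]
  congr 1
  · calc t⁻¹.1ᵀ * (t.1.map δ)ᵀ * cx q = t⁻¹.1ᵀ * (t.1.map δ)ᵀ * cx q * (t.1 * t⁻¹.1) := by
          rw [U.DerM.mul_inv, Matrix.mul_one]
      _ = t⁻¹.1ᵀ * ((t.1.map δ)ᵀ * cx q * t.1) * t⁻¹.1 := by simp only [Matrix.mul_assoc]
  · calc cx q * (t.1.map δ * t⁻¹.1) = (t⁻¹.1ᵀ * t.1ᵀ) * (cx q * (t.1.map δ * t⁻¹.1)) := by
          rw [h3, Matrix.one_mul]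
      _ = t⁻¹.1ᵀ * (t.1ᵀ * cx q * t.1.map δ) * t⁻¹.1 := by simp only [Matrix.mul_assoc]

/-- the logarithmic derivative commutes with the endomorphisms -/
theorem log_end (t : GL ι ℂ) (e : Matrix ι ι ℚ) (e' : Matrix ι ι ℂ) (he : IsAlg e')
    (h : t.1 * e' = cx e * t.1) (δ : Derivation Qbar ℂ ℂ) :
    (t.1.map δ * t⁻¹.1) * cx e = cx e * (t.1.map δ * t⁻¹.1) := by
  have h1 : t.1.map δ * e' = cx e * t.1.map δ := by
    have h2 := congrArg (fun M : Matrix ι ι ℂ => M.map δ) h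
    rw [U.DerM.map_mul, U.DerM.map_mul, map_alg δ he, map_cx, Matrix.mul_zero, add_zero,
      Matrix.zero_mul, zero_add] at h2
    exact h2
  have h3 : t⁻¹.1 * cx e = e' * t⁻¹.1 := by
    calc t⁻¹.1 * cx e = t⁻¹.1 * (cx e * t.1) * t⁻¹.1 := by
          rw [Matrix.mul_assoc, Matrix.mul_assoc, U.DerM.mul_inv, Matrix.mul_one]
      _ = e' * t⁻¹.1 := by rw [← h, ← Matrix.mul_assoc, U.DerM.inv_mul, Matrix.one_mul]
  rw [Matrix.mul_assoc, h3, ← Matrix.mul_assoc, h1, Matrix.mul_assoc]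

/-- differentiation of a morphism -/
theorem log_mor (c : GL ι ℂ) (S B' : Matrix ι ι ℂ) (hB : IsAlg B') (h : c.1 * B' = S * c.1)
    (δ : Derivation Qbar ℂ ℂ) :
    (c.1.map δ * c⁻¹.1) * S - S * (c.1.map δ * c⁻¹.1) = S.map δ := by
  have h1 : c.1.map δ * B' = S.map δ * c.1 + S * c.1.map δ := by
    have h2 := congrArg (fun M : Matrix ι ι ℂ => M.map δ) h
    rw [U.DerM.map_mul, U.DerM.map_mul, map_alg δ hB, Matrix.mul_zero, add_zero] at h2
    exact h2
  have h3 : c⁻¹.1 * S = B' * c⁻¹.1 := by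
    calc c⁻¹.1 * S = c⁻¹.1 * (S * c.1) * c⁻¹.1 := by
          rw [Matrix.mul_assoc, Matrix.mul_assoc, U.DerM.mul_inv, Matrix.mul_one]
      _ = B' * c⁻¹.1 := by rw [← h, ← Matrix.mul_assoc, U.DerM.inv_mul, Matrix.one_mul]
  rw [Matrix.mul_assoc, h3, ← Matrix.mul_assoc, h1, Matrix.add_mul, Matrix.mul_assoc,
    U.DerM.mul_inv, Matrix.mul_one, Matrix.mul_assoc, add_sub_cancel_right]

end

/-- the action of the logarithmic derivative of `c` on the Clifford operators -/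
theorem log_cliff {ι : Type} [Fintype ι] [DecidableEq ι] {n : ℕ} (c : GL ι ℂ) (t : GL (Fin n) ℂ)
    (B : Fin n → Matrix ι ι ℚ)
    (hmor : ∀ j, ∃ B' : Matrix ι ι ℂ, IsAlg B' ∧ c.1 * B' = (∑ i, t.1 i j • cx (B i)) * c.1)
    (δ : Derivation Qbar ℂ ℂ) (k : Fin n) :
    (c.1.map δ * c⁻¹.1) * cx (B k) - cx (B k) * (c.1.map δ * c⁻¹.1) =
      ∑ i, (t.1.map δ * t⁻¹.1) i k • cx (B i) := by
  set X := c.1.map δ * c⁻¹.1 with hX
  set S : Fin n → Matrix ι ι ℂ := fun j => ∑ i, t.1 i j • cx (B i) with hS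
  have h1 : ∀ j, X * S j - S j * X = ∑ i, (t.1.map δ) i j • cx (B i) := by
    intro j
    obtain ⟨B', hB', h⟩ := hmor j
    rw [log_mor c (S j) B' hB' h δ]
    ext a b
    have e0 : S j = ∑ i, t.1 i j • cx (B i) := rfl
    rw [Matrix.map_apply, e0, Matrix.sum_apply, Matrix.sum_apply, map_sum]
    refine Finset.sum_congr rfl fun i _ => ?_
    rw [Matrix.smul_apply, Matrix.smul_apply, smul_eq_mul, smul_eq_mul, Derivation.leibniz]
    have h2 : δ (cx (B i) a b) = 0 := DerM.d_rat δ _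
    rw [h2, smul_zero, zero_add, smul_eq_mul, mul_comm, Matrix.map_apply]
  have h2 : cx (B k) = ∑ j, t⁻¹.1 j k • S j := by
    simp only [hS, Finset.smul_sum, smul_smul]
    rw [Finset.sum_comm]
    have h3 : ∀ i, ∑ j, (t⁻¹.1 j k * t.1 i j) • cx (B i) = (1 : Matrix (Fin n) (Fin n) ℂ) i k • cx (B i) := by
      intro i
      rw [← Finset.sum_smul, ← U.DerM.mul_inv t, Matrix.mul_apply]
      congr 1
      exact Finset.sum_congr rfl fun j _ => mul_comm _ _
    simp only [h3]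
    rw [Finset.sum_eq_single k]
    · rw [Matrix.one_apply_eq, one_smul]
    · intro i _ hi
      rw [Matrix.one_apply_ne hi, zero_smul]
    · intro h
      exact absurd (Finset.mem_univ k) h
  rw [h2, Finset.mul_sum, Finset.sum_mul, ← Finset.sum_sub_distrib]
  have h4 : ∀ j, X * t⁻¹.1 j k • S j - (t⁻¹.1 j k • S j) * X =
      ∑ i, (t⁻¹.1 j k * (t.1.map δ) i j) • cx (B i) := by
    intro j
    rw [Matrix.mul_smul, Matrix.smul_mul, ← smul_sub, h1, Finset.smul_sum]
    simp only [smul_smul]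
  simp only [h4]
  rw [Finset.sum_comm]
  refine Finset.sum_congr rfl fun i _ => ?_
  rw [← Finset.sum_smul, Matrix.mul_apply]
  congr 1
  exact Finset.sum_congr rfl fun j _ => mul_comm _ _

end KRatM

open KRatM in
/-- Module KRAT. -/
theorem specKRat (hLRat : SpecLRat) : SpecKRat := by
  intro g N n A c t qdR qB B E J ψ hK hHD T hT htT hcl
  have hG := GL2.geo_of_torsor hT
  let gS : Submodule ℚ (Matrix (Fin n) (Fin n) ℚ) :=
    { carrier := {ρ | cx ρ ∈ gT T qB E}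
      add_mem' := by
        rintro a b ⟨ha1, ha2, ha3⟩ ⟨hb1, hb2, hb3⟩
        refine ⟨by rw [cx_add]; exact add_mem ha1 hb1, ?_, fun e he => ?_⟩
        · rw [cx_add, Matrix.transpose_add, Matrix.add_mul, Matrix.mul_add, add_add_add_comm, ha2,
            hb2, add_zero]
        · rw [cx_add, Matrix.add_mul, Matrix.mul_add, ha3 e he, hb3 e he]
      zero_mem' := by
        refine ⟨by rw [cx_zero]; exact zero_mem _, ?_, fun e he => ?_⟩
        · rw [cx_zero, Matrix.transpose_zero, Matrix.zero_mul, Matrix.mul_zero, add_zero]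
        · rw [cx_zero, Matrix.zero_mul, Matrix.mul_zero]
      smul_mem' := by
        rintro a b ⟨hb1, hb2, hb3⟩
        refine ⟨by rw [cx_smul]; exact Submodule.smul_mem _ _ hb1, ?_, fun e he => ?_⟩
        · rw [cx_smul, Matrix.transpose_smul, Matrix.smul_mul, Matrix.mul_smul, ← smul_add, hb2,
            smul_zero]
        · rw [cx_smul, Matrix.smul_mul, Matrix.mul_smul, hb3 e he] }
  let kk : Submodule ℚ (Matrix (Ix g) (Ix g) ℚ) :=
    { carrier := kT T qB E ψ B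
      add_mem' := by
        rintro a b ⟨⟨m, hm⟩, ρ, hρ, h1⟩ ⟨⟨m', hm'⟩, ρ', hρ', h2⟩
        refine ⟨⟨m + m', ?_⟩, ρ + ρ', gS.add_mem hρ hρ', fun j => ?_⟩
        · rw [Matrix.transpose_add, Matrix.add_mul, Matrix.mul_add, add_add_add_comm, hm, hm',
            add_smul]
        · have e1 : (a + b) * B j - B j * (a + b) = (a * B j - B j * a) + (b * B j - B j * b) := by
            noncomm_ring
          rw [e1, h1 j, h2 j, ← Finset.sum_add_distrib]
          exact Finset.sum_congr rfl fun i _ => by rw [Matrix.add_apply, add_smul]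
      zero_mem' := by
        refine ⟨⟨0, by simp⟩, 0, gS.zero_mem, fun j => by simp⟩
      smul_mem' := by
        rintro r a ⟨⟨m, hm⟩, ρ, hρ, h1⟩
        refine ⟨⟨r * m, ?_⟩, r • ρ, gS.smul_mem r hρ, fun j => ?_⟩
        · rw [Matrix.transpose_smul, Matrix.smul_mul, Matrix.mul_smul, ← smul_add, hm, smul_smul]
        · rw [Matrix.smul_mul, Matrix.mul_smul, ← smul_sub, h1 j, Finset.smul_sum]
          exact Finset.sum_congr rfl fun i _ => by rw [Matrix.smul_apply, smul_eq_mul, smul_smul] }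
  refine ⟨kk, rfl, fun δ => ?_⟩
  -- the logarithmic derivatives
  obtain ⟨ψdR, hψ, hleg⟩ := hHD.leg
  have hX := U.SimM.log_deriv c ψ ψdR hψ hleg δ
  have hx1 := hG.deriv_mem htT δ
  have hx2 := log_form t qB qdR hK.alg hK.form δ
  have hx3 : ∀ e ∈ E, (t.1.map δ * t⁻¹.1) * cx e = cx e * (t.1.map δ * t⁻¹.1) := by
    intro e he
    obtain ⟨e', he', h⟩ := hK.endT e he
    exact log_end t e e' he' h δ
  have hX2 := log_cliff c t B hK.morphism δ
  set X := c.1.map δ * c⁻¹.1 with hXdef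
  set x := t.1.map δ * t⁻¹.1 with hxdef
  set m : ℂ := δ (2 * Real.pi * Complex.I) / (2 * Real.pi * Complex.I) with hm
  have key : ∀ l : QForm, ap l X ∈ kk := by
    intro l
    refine ⟨⟨l m, ?_⟩, ap l x, ⟨hLRat _ T hT hcl x hx1 l, ?_, fun e he => ?_⟩, fun j => ?_⟩
    · have h1 := congrArg (ap l) hX
      change ap l (Xᵀ * cx ψ + cx ψ * X) = ap l (m • cx ψ) at h1
      rw [ap_add, mul_rat, rat_mul, ap_smul, ap_transpose] at h1
      exact h1
    · have h1 := congrArg (ap l) hx2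
      rw [ap_add, mul_rat, rat_mul, ap_transpose, ap_zero] at h1
      have h2 := congrArg cx h1
      rw [cx_add, cx_mul, cx_mul, cx_zero] at h2
      exact h2
    · have h1 := congrArg (ap l) (hx3 e he)
      rw [mul_rat, rat_mul] at h1
      have h2 := congrArg cx h1
      rw [cx_mul, cx_mul] at h2
      exact h2
    · have h1 := congrArg (ap l) (hX2 j)
      rw [ap_sub, mul_rat, rat_mul, ap_sum] at h1
      rw [h1]
      exact Finset.sum_congr rfl fun i _ => ap_smul l _ _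
  obtain ⟨r, β, l, hXe⟩ := eq_sum X
  rw [hXe]
  exact Submodule.sum_mem _ fun i _ => Submodule.smul_mem _ _ (Submodule.subset_span
    ⟨_, key (l i), rfl⟩)

end Pool.Agent.Lib.MPf11a48.K3
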