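import Pool.Agent.Lib.MP_f11a48_ag.K3.KSpec2
import Pool.Agent.Lib.MP_f11a48_ag.K3.KGrp
import Pool.Agent.Lib.MP_f11a48_ag.K3.KRat
import Pool.Agent.Lib.MP_f11a48_ag.K3.Dsc
import Pool.Agent.Lib.MP_f11a48_ag.U.Sim

/-! # The Lie algebra of a torsor through `(t, 2 π i)` -/

set_option autoImplicit false
set_option linter.unusedSectionVars false

namespace Pool.Agent.Lib.MPf11a48.K3

open Matrix MvPolynomial Pool.Agent.Lib.MPf11a48.Tors
open Pool.Agent.Lib.MPf11a48.CM hiding OmegaM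
open Pool.Agent.Lib.MPf11a48.GL2 (lie Geo)
open Pool.Agent.Lib.MPf11a48.U (AbData Ix HD EndAlg SpecHDA)

namespace KFull2M

open KGrpM

theorem lb_apply {n : ℕ} (ρ : Matrix (Fin n) (Fin n) ℂ) (m : ℂ) :
    lb ρ m = fromBlocks ρ 0 0 (of fun _ _ => m) := rfl

theorem lb_add {n : ℕ} (ρ ρ' : Matrix (Fin n) (Fin n) ℂ) (m m' : ℂ) :
    lb ρ m + lb ρ' m' = lb (ρ + ρ') (m + m') := by
  ext i j
  rcases i with i | i <;> rcases j with j | j <;> simp [lb]

theorem lb_sub {n : ℕ} (ρ ρ' : Matrix (Fin n) (Fin n) ℂ) (m m' : ℂ) :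
    lb ρ m - lb ρ' m' = lb (ρ - ρ') (m - m') := by
  ext i j
  rcases i with i | i <;> rcases j with j | j <;> simp [lb]

theorem lb_smul {n : ℕ} (ρ : Matrix (Fin n) (Fin n) ℂ) (m a : ℂ) :
    a • lb ρ m = lb (a • ρ) (a * m) := by
  ext i j
  rcases i with i | i <;> rcases j with j | j <;> simp [lb]

theorem lb_zero {n : ℕ} : lb (0 : Matrix (Fin n) (Fin n) ℂ) 0 = 0 := by
  ext i j
  rcases i with i | i <;> rcases j with j | j <;> simp [lb]

/-- the projection of the Lie algebra -/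
noncomputable def pr {n : ℕ} (T : Set (GL (Fin n ⊕ Unit) ℂ)) :
    Submodule ℂ (Matrix (Fin n) (Fin n) ℂ) where
  carrier := {ρ | ∃ m, lb ρ m ∈ lie T}
  add_mem' := by
    rintro a b ⟨m, hm⟩ ⟨m', hm'⟩
    exact ⟨m + m', by rw [← lb_add]; exact (lie T).add_mem hm hm'⟩
  zero_mem' := ⟨0, by rw [lb_zero]; exact (lie T).zero_mem⟩
  smul_mem' := by
    rintro a b ⟨m, hm⟩
    exact ⟨a * m, by rw [← lb_smul]; exact (lie T).smul_mem a hm⟩

theorem br_mem {n : ℕ} {T : Set (GL (Fin n ⊕ Unit) ℂ)} {X Y : Matrix (Fin n) (Fin n) ℂ}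
    (hX : X ∈ pr T) (hY : Y ∈ pr T) : lb (X * Y - Y * X) 0 ∈ lie T := by
  obtain ⟨m, hm⟩ := hX
  obtain ⟨m', hm'⟩ := hY
  have h := GL2.lie_br hm hm'
  rw [lb_mul, lb_mul, lb_sub] at h
  have e : m * m' - m' * m = 0 := by ring
  rwa [e] at h

variable {n : ℕ} {κ : Type} [Fintype κ] [DecidableEq κ] {m : κ → ℕ}

section conj

variable {P : Matrix (Fin n) ((k : κ) × Fin (m k)) ℂ} {P' : Matrix ((k : κ) × Fin (m k)) (Fin n) ℂ}

theorem cm_add (X Y : (k : κ) → Matrix (Fin (m k)) (Fin (m k)) ℂ) :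
    cm P P' X + cm P P' Y = cm P P' (X + Y) := by
  unfold cm
  rw [blockDiagonal'_add, Matrix.mul_add, Matrix.add_mul]

theorem cm_sub (X Y : (k : κ) → Matrix (Fin (m k)) (Fin (m k)) ℂ) :
    cm P P' X - cm P P' Y = cm P P' (X - Y) := by
  unfold cm
  rw [blockDiagonal'_sub, Matrix.mul_sub, Matrix.sub_mul]

theorem cm_smul (a : ℂ) (X : (k : κ) → Matrix (Fin (m k)) (Fin (m k)) ℂ) :
    a • cm P P' X = cm P P' (a • X) := by
  unfold cm
  rw [blockDiagonal'_smul, Matrix.mul_smul, Matrix.smul_mul]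

theorem cm_zero : cm P P' (0 : (k : κ) → Matrix (Fin (m k)) (Fin (m k)) ℂ) = 0 := by
  unfold cm
  rw [blockDiagonal'_zero, Matrix.mul_zero, Matrix.zero_mul]

end conj

/-- an infinitesimal isometry which preserves the eigenspaces is block diagonal -/
theorem exists_fam {qB : Matrix (Fin n) (Fin n) ℚ} {E : Set (Matrix (Fin n) (Fin n) ℚ)}
    {P : Matrix (Fin n) ((k : κ) × Fin (m k)) ℂ} {lam : Matrix (Fin n) (Fin n) ℚ → κ → ℂ}
    (h : Split qB E m P lam) (hq : qBᵀ = qB) {x : Matrix (Fin n) (Fin n) ℂ}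
    (hx : xᵀ * cx qB + cx qB * x = 0) (hE : ∀ e ∈ E, x * cx e = cx e * x) :
    ∃ X : (k : κ) → Matrix (Fin (m k)) (Fin (m k)) ℂ, (∀ k, (X k)ᵀ = -X k) ∧
      x = cm P (Pᵀ * cx qB) X := by
  have h1 : P * (Pᵀ * cx qB) = 1 := h.onto
  have h2 : (Pᵀ * cx qB) * P = 1 := h.orth
  have hqc : (cx qB)ᵀ = cx qB := by
    change (qBᵀ).map (fun x => (x : ℂ)) = cx qB
    rw [hq]
    rfl
  set M : Matrix ((k : κ) × Fin (m k)) ((k : κ) × Fin (m k)) ℂ := (Pᵀ * cx qB) * x * P with hM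
  have hcomm : ∀ e ∈ E, M * diagonal (fun u : (k : κ) × Fin (m k) => lam e u.1) =
      diagonal (fun u : (k : κ) × Fin (m k) => lam e u.1) * M := by
    intro e he
    have h3 := h.eig e he
    have h4 : (Pᵀ * cx qB) * cx e =
        diagonal (fun u : (k : κ) × Fin (m k) => lam e u.1) * (Pᵀ * cx qB) := by
      calc (Pᵀ * cx qB) * cx e = (Pᵀ * cx qB) * (cx e * P) * (Pᵀ * cx qB) := by
            rw [Matrix.mul_assoc (Pᵀ * cx qB) (cx e * P), Matrix.mul_assoc (cx e) P, h1,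
              Matrix.mul_one]
        _ = ((Pᵀ * cx qB) * P) * diagonal (fun u : (k : κ) × Fin (m k) => lam e u.1) *
            (Pᵀ * cx qB) := by
            rw [h3, ← Matrix.mul_assoc (Pᵀ * cx qB) P]
        _ = _ := by rw [h2, Matrix.one_mul]
    calc M * diagonal (fun u : (k : κ) × Fin (m k) => lam e u.1)
        = (Pᵀ * cx qB) * x * (P * diagonal (fun u : (k : κ) × Fin (m k) => lam e u.1)) := by
          rw [hM, Matrix.mul_assoc _ P]
      _ = (Pᵀ * cx qB) * (x * cx e) * P := by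
          rw [← h3, Matrix.mul_assoc (Pᵀ * cx qB) x, Matrix.mul_assoc (Pᵀ * cx qB) (x * cx e),
            Matrix.mul_assoc x]
      _ = ((Pᵀ * cx qB) * cx e) * x * P := by
          rw [hE e he, ← Matrix.mul_assoc (Pᵀ * cx qB) (cx e) x]
      _ = diagonal (fun u : (k : κ) × Fin (m k) => lam e u.1) * M := by
          rw [h4, hM, Matrix.mul_assoc (diagonal _), Matrix.mul_assoc (diagonal _)]
  have hoff : ∀ u v : (k : κ) × Fin (m k), u.1 ≠ v.1 → M u v = 0 := by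
    intro u v huv
    obtain ⟨e, he, hne⟩ := h.sep u.1 v.1 huv
    have h3 := congrFun (congrFun (hcomm e he) u) v
    rw [mul_diagonal, diagonal_mul] at h3
    have h4 : (lam e u.1 - lam e v.1) * M u v = 0 := by
      rw [sub_mul, ← h3]
      ring
    exact (mul_eq_zero.1 h4).resolve_left (sub_ne_zero.2 hne)
  have hMt : Mᵀ = -M := by
    have h3 : xᵀ * cx qB = -(cx qB * x) := eq_neg_of_add_eq_zero_left hx
    calc Mᵀ = Pᵀ * (xᵀ * cx qB) * P := by
          rw [hM, transpose_mul, transpose_mul, transpose_mul, transpose_transpose, hqc,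
            Matrix.mul_assoc Pᵀ, Matrix.mul_assoc xᵀ]
      _ = -M := by
          rw [h3, Matrix.mul_neg, Matrix.neg_mul, hM, Matrix.mul_assoc Pᵀ (cx qB) x]
  refine ⟨fun k => of fun a b => M ⟨k, a⟩ ⟨k, b⟩, fun k => ?_, ?_⟩
  · ext a b
    exact congrFun (congrFun hMt ⟨k, a⟩) ⟨k, b⟩
  · have h3 : blockDiagonal' (fun k => of fun a b => M ⟨k, a⟩ ⟨k, b⟩) = M := by
      ext ⟨k1, a⟩ ⟨k2, b⟩
      by_cases hk : k1 = k2
      · subst hk
        rw [blockDiagonal'_apply_eq]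
        rfl
      · rw [blockDiagonal'_apply_ne _ _ _ hk, hoff _ _ hk]
    rw [cm, h3, hM]
    calc x = (P * (Pᵀ * cx qB)) * x * (P * (Pᵀ * cx qB)) := by
          rw [h1, Matrix.one_mul, Matrix.mul_one]
      _ = _ := by simp only [Matrix.mul_assoc]

theorem single_mem (hPerf : SpecPerf) (h3 : ∀ k, 3 ≤ m k)
    {P : Matrix (Fin n) ((k : κ) × Fin (m k)) ℂ} {P' : Matrix ((k : κ) × Fin (m k)) (Fin n) ℂ}
    (hP : P' * P = 1) {T : Set (GL (Fin n ⊕ Unit) ℂ)}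
    (h : ∀ X : (k : κ) → Matrix (Fin (m k)) (Fin (m k)) ℂ, (∀ k, (X k)ᵀ = -X k) →
      cm P P' X ∈ pr T) (k : κ) {A : Matrix (Fin (m k)) (Fin (m k)) ℂ} (hA : Aᵀ = -A) :
    lb (cm P P' (Pi.single k A)) 0 ∈ lie T := by
  have h1 := hPerf ℂ (m k) (h3 k) A hA
  refine Submodule.span_induction (p := fun A _ => lb (cm P P' (Pi.single k A)) 0 ∈ lie T)
    ?_ ?_ ?_ ?_ h1
  · rintro _ ⟨X, Y, hX, hY, rfl⟩
    have hs : ∀ Z : Matrix (Fin (m k)) (Fin (m k)) ℂ, Zᵀ = -Z →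
        cm P P' (Pi.single k Z) ∈ pr T := by
      intro Z hZ
      refine h _ fun k' => ?_
      by_cases hk : k' = k
      · subst hk
        rw [Pi.single_eq_same, hZ]
      · rw [Pi.single_eq_of_ne hk, transpose_zero, neg_zero]
    have h2 := br_mem (hs X hX) (hs Y hY)
    rw [cm_mul hP, cm_mul hP, cm_sub] at h2
    convert h2 using 3
    funext k'
    rw [Pi.sub_apply]
    by_cases hk : k' = k
    · subst hk
      simp only [Pi.single_eq_same]
    · simp only [Pi.single_eq_of_ne hk, Matrix.zero_mul, sub_zero]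
  · rw [Pi.single_zero, cm_zero, lb_zero]
    exact (lie T).zero_mem
  · intro X Y _ _ hX hY
    have h2 := (lie T).add_mem hX hY
    rw [lb_add, cm_add, add_zero, ← Pi.single_add] at h2
    exact h2
  · intro a X _ hX
    have h2 := (lie T).smul_mem a hX
    rw [lb_smul, cm_smul, mul_zero, ← Pi.single_smul] at h2
    exact h2

theorem fam_mem (hPerf : SpecPerf) (h3 : ∀ k, 3 ≤ m k)
    {P : Matrix (Fin n) ((k : κ) × Fin (m k)) ℂ} {P' : Matrix ((k : κ) × Fin (m k)) (Fin n) ℂ}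
    (hP : P' * P = 1) {T : Set (GL (Fin n ⊕ Unit) ℂ)}
    (h : ∀ X : (k : κ) → Matrix (Fin (m k)) (Fin (m k)) ℂ, (∀ k, (X k)ᵀ = -X k) →
      cm P P' X ∈ pr T) {X : (k : κ) → Matrix (Fin (m k)) (Fin (m k)) ℂ}
    (hX : ∀ k, (X k)ᵀ = -X k) : lb (cm P P' X) 0 ∈ lie T := by
  have key : ∀ s : Finset κ, lb (cm P P' (∑ k ∈ s, Pi.single k (X k))) 0 ∈ lie T := by
    intro s
    induction s using Finset.induction_on with
    | empty =>
      rw [Finset.sum_empty, cm_zero, lb_zero]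
      exact (lie T).zero_mem
    | insert k s hk ih =>
      rw [Finset.sum_insert hk, ← cm_add]
      have h2 := (lie T).add_mem (single_mem hPerf h3 hP h k (hX k)) ih
      rwa [lb_add, add_zero] at h2
  have h2 := key Finset.univ
  rwa [Finset.univ_sum_single] at h2

/-- the logarithmic derivative of a block diagonal matrix -/
theorem dlog_bd (x : GL (Fin n) ℂ × ℂˣ) (δ : Derivation Qbar ℂ ℂ) :
    (bd x).1.map δ * (bd x)⁻¹.1 = lb (x.1.1.map δ * x.1⁻¹.1) (δ (x.2 : ℂ) / x.2) := by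
  have e1 : (bd x).1.map δ = lb (x.1.1.map δ) (δ (x.2 : ℂ)) := by
    rw [bd_val]
    ext i j
    rcases i with i | i <;> rcases j with j | j <;> simp [lb]
  have e2 : (bd x)⁻¹.1 = lb x.1⁻¹.1 ((x.2⁻¹ : ℂˣ) : ℂ) := rfl
  rw [e1, e2, lb_mul, div_eq_mul_inv, Units.val_inv_eq_inv_val]

end KFull2M

open KFull2M KGrpM in
theorem specKFull2 (hRat : SpecKRat2) (hLie : SpecKLie) (hPerf : SpecPerf) (hHDA : SpecHDA) :
    SpecKFull2 := by
  intro g N n A c t qdR qB B E κ _ _ m P lam hK hS h3 h5 T hT htT hcl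
  obtain ⟨⟨J, hJ⟩, hEnd⟩ := hHDA Qbar g N A c le_rfl hK.abvar hK.per
  obtain ⟨kk, hkk, hlog⟩ := hRat g N n A c t qdR qB B E J _ hK hJ T hT htT hcl
  have hP' : (Pᵀ * cx qB) * P = 1 := hS.orth
  have hgeo := GL2.geo_of_torsor hT
  have h1 : ∀ X : (k : κ) → Matrix (Fin (m k)) (Fin (m k)) ℂ, (∀ k, (X k)ᵀ = -X k) →
      cm P (Pᵀ * cx qB) X ∈ pr T := by
    intro X hX
    refine hLie g N n A c t qdR qB B E κ m P lam J _ hK hS h3 h5 hJ hEnd (pr T) ?_ kk ?_ ?_ hlog X hX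
    · intro X hX Y hY
      exact ⟨0, br_mem hX hY⟩
    · intro Z hZ
      obtain ⟨m, ρ, h4, -⟩ := hkk Z hZ
      exact ⟨m, h4⟩
    · intro Z hZ
      obtain ⟨m, ρ, -, h5, h6, h7⟩ := hkk Z hZ
      exact ⟨ρ, h5, ⟨_, h6⟩, h7⟩
  have h2 : ∀ X : (k : κ) → Matrix (Fin (m k)) (Fin (m k)) ℂ, (∀ k, (X k)ᵀ = -X k) →
      lb (cm P (Pᵀ * cx qB) X) 0 ∈ lie T := fun X hX => fam_mem hPerf h3 hP' h1 hX
  refine ⟨h2, ?_⟩
  obtain ⟨δ, hδ⟩ : ∃ δ : Derivation Qbar ℂ ℂ, δ (2 * Real.pi * Complex.I) ≠ 0 := by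
    by_contra hne
    push Not at hne
    exact U.SimM.two_pi_I_notMem (specDsc.2 _ hne)
  have h4 := hgeo.deriv_mem htT δ
  rw [dlog_bd] at h4
  obtain ⟨X, hX, hxX⟩ := exists_fam hS hK.symm
    (KRatM.log_form t qB qdR hK.alg hK.form δ) (fun e he => by
      obtain ⟨e', he', h5⟩ := hK.endT e he
      exact KRatM.log_end t e e' he' h5 δ)
  have h5 := h2 X hX
  rw [← hxX] at h5
  have h6 := (lie T).sub_mem h4 h5
  rw [lb_sub, sub_self, sub_zero] at h6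
  have h7 := (lie T).smul_mem (δ (2 * Real.pi * Complex.I) / (2 * Real.pi * Complex.I))⁻¹ h6
  rw [lb_smul, smul_zero] at h7
  have h8 : (δ (2 * Real.pi * Complex.I) / (2 * Real.pi * Complex.I))⁻¹ *
      (δ ((t, tpi).2 : ℂ) / ((t, tpi).2 : ℂ)) = 1 := by
    have h9 : (2 * Real.pi * Complex.I : ℂ) ≠ 0 := Complex.two_pi_I_ne_zero
    exact inv_mul_cancel₀ (div_ne_zero hδ h9)
  rwa [h8] at h7

end Pool.Agent.Lib.MPf11a48.K3
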