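import Pool.Agent.Lib.MP_f11a48_ag.K3.KSpec3
import Pool.Agent.Lib.MP_f11a48_ag.K3.KFull2

/-! # The Lie algebra of a torsor through `(c, t, 2 π i)` -/

set_option autoImplicit false
set_option linter.unusedSectionVars false

namespace Pool.Agent.Lib.MPf11a48.K3

open Matrix MvPolynomial Pool.Agent.Lib.MPf11a48.Tors
open Pool.Agent.Lib.MPf11a48.CM hiding OmegaM
open Pool.Agent.Lib.MPf11a48.GL2 (lie Geo)
open Pool.Agent.Lib.MPf11a48.U (AbData Ix HD EndAlg SpecHDA)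

namespace KFull3M

open KGrpM KRatM KLieM

section quad

variable {n : ℕ} {μ : Type} [Fintype μ] [DecidableEq μ] (b : Fin n → Matrix μ μ ℂ)

/-- a quadratic expression in the Clifford operators -/
noncomputable def qd (R : Matrix (Fin n) (Fin n) ℂ) : Matrix μ μ ℂ :=
  ∑ i, ∑ j, R i j • (b i * b j)

theorem qd_add (R R' : Matrix (Fin n) (Fin n) ℂ) : qd b (R + R') = qd b R + qd b R' := by
  simp only [qd, Matrix.add_apply, add_smul, Finset.sum_add_distrib]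

theorem qd_smul (a : ℂ) (R : Matrix (Fin n) (Fin n) ℂ) : qd b (a • R) = a • qd b R := by
  simp only [qd, Matrix.smul_apply, smul_eq_mul, Finset.smul_sum, smul_smul]

theorem qd_der {X : Matrix μ μ ℂ} {ρ : Matrix (Fin n) (Fin n) ℂ}
    (h : ∀ k, X * b k - b k * X = ∑ i, ρ i k • b i) (R : Matrix (Fin n) (Fin n) ℂ) :
    X * qd b R - qd b R * X = qd b (ρ * R + R * ρᵀ) := by
  have h1 : ∀ i j, X * (b i * b j) - b i * b j * X =
      (∑ k, ρ k i • (b k * b j)) + ∑ k, ρ k j • (b i * b k) := by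
    intro i j
    have e1 : X * (b i * b j) - b i * b j * X =
        (X * b i - b i * X) * b j + b i * (X * b j - b j * X) := by noncomm_ring
    rw [e1, h, h, Finset.sum_mul, Finset.mul_sum]
    simp only [Matrix.smul_mul, Matrix.mul_smul]
  have h2 : X * qd b R - qd b R * X =
      ∑ i, ∑ j, R i j • (X * (b i * b j) - b i * b j * X) := by
    simp only [qd, Finset.mul_sum, Finset.sum_mul, ← Finset.sum_sub_distrib, Matrix.mul_smul,
      Matrix.smul_mul, smul_sub]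
  rw [h2, qd_add]
  simp only [h1, smul_add, Finset.sum_add_distrib]
  congr 1
  · simp only [qd, Matrix.mul_apply, Finset.sum_smul, Finset.smul_sum, smul_smul]
    calc ∑ i, ∑ j, ∑ k, (R i j * ρ k i) • (b k * b j)
        = ∑ i, ∑ k, ∑ j, (R i j * ρ k i) • (b k * b j) :=
          Finset.sum_congr rfl fun i _ => Finset.sum_comm
      _ = ∑ k, ∑ i, ∑ j, (R i j * ρ k i) • (b k * b j) := Finset.sum_comm
      _ = ∑ k, ∑ j, ∑ i, (R i j * ρ k i) • (b k * b j) :=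
          Finset.sum_congr rfl fun k _ => Finset.sum_comm
      _ = ∑ i, ∑ j, ∑ k, (ρ i k * R k j) • (b i * b j) := by
          refine Finset.sum_congr rfl fun k _ => Finset.sum_congr rfl fun j _ =>
            Finset.sum_congr rfl fun i _ => by rw [mul_comm]
  · simp only [qd, Matrix.mul_apply, Matrix.transpose_apply, Finset.sum_smul, Finset.smul_sum,
      smul_smul]
    exact Finset.sum_congr rfl fun i _ => Finset.sum_comm

theorem qd_comm {D : Matrix μ μ ℂ} (h : ∀ k, D * b k = b k * D) (R : Matrix (Fin n) (Fin n) ℂ) :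
    D * qd b R = qd b R * D := by
  simp only [qd, Finset.mul_sum, Finset.sum_mul, Matrix.mul_smul, Matrix.smul_mul]
  refine Finset.sum_congr rfl fun i _ => Finset.sum_congr rfl fun j _ => ?_
  rw [← Matrix.mul_assoc, h, Matrix.mul_assoc, h, Matrix.mul_assoc]

end quad

section cliff

variable {n : ℕ} {μ : Type} [Fintype μ] [DecidableEq μ] {B : Fin n → Matrix μ μ ℚ}
  {qB : Matrix (Fin n) (Fin n) ℚ}

theorem clC_eq (ρ : Matrix (Fin n) (Fin n) ℂ) :
    clC B qB ρ = qd (fun i => cx (B i)) (ρ * cx qB⁻¹) := rfl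

theorem clC_add (ρ ρ' : Matrix (Fin n) (Fin n) ℂ) :
    clC B qB (ρ + ρ') = clC B qB ρ + clC B qB ρ' := by
  rw [clC_eq, clC_eq, clC_eq, Matrix.add_mul, qd_add]

theorem clC_smul (a : ℂ) (ρ : Matrix (Fin n) (Fin n) ℂ) :
    clC B qB (a • ρ) = a • clC B qB ρ := by
  rw [clC_eq, clC_eq, Matrix.smul_mul, qd_smul]

theorem q_inv (hdet : qB.det ≠ 0) : cx qB * cx qB⁻¹ = 1 ∧ cx qB⁻¹ * cx qB = 1 := by
  rw [← cx_mul, ← cx_mul, Matrix.mul_nonsing_inv _ (isUnit_iff_ne_zero.2 hdet),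
    Matrix.nonsing_inv_mul _ (isUnit_iff_ne_zero.2 hdet), cx_one]
  exact ⟨rfl, rfl⟩

theorem q_inv_skew (hdet : qB.det ≠ 0) {ρ : Matrix (Fin n) (Fin n) ℂ}
    (hρ : ρᵀ * cx qB + cx qB * ρ = 0) : cx qB⁻¹ * ρᵀ = -(ρ * cx qB⁻¹) := by
  obtain ⟨h1, h2⟩ := q_inv hdet
  have h3 : ρᵀ * cx qB = -(cx qB * ρ) := eq_neg_of_add_eq_zero_left hρ
  calc cx qB⁻¹ * ρᵀ = cx qB⁻¹ * (ρᵀ * cx qB) * cx qB⁻¹ := by
        rw [Matrix.mul_assoc, Matrix.mul_assoc, h1, Matrix.mul_one]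
    _ = -((cx qB⁻¹ * cx qB) * ρ * cx qB⁻¹) := by
        rw [h3, Matrix.mul_neg, Matrix.neg_mul, ← Matrix.mul_assoc (cx qB⁻¹)]
    _ = -(ρ * cx qB⁻¹) := by rw [h2, Matrix.one_mul]

theorem cliff_cx (hcl : ∀ i j, B i * B j + B j * B i = (2 * qB i j) • (1 : Matrix μ μ ℚ))
    (i j : Fin n) : cx (B i) * cx (B j) + cx (B j) * cx (B i) =
      (2 * (qB i j : ℂ)) • (1 : Matrix μ μ ℂ) := by
  rw [← cx_mul, ← cx_mul, ← cx_add, hcl, cx_smul, cx_one]
  push_cast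
  rfl

/-- the image of an infinitesimal isometry acts on the Clifford operators by it -/
theorem clC_B (hsym : qBᵀ = qB) (hdet : qB.det ≠ 0)
    (hcl : ∀ i j, B i * B j + B j * B i = (2 * qB i j) • (1 : Matrix μ μ ℚ))
    {ρ : Matrix (Fin n) (Fin n) ℂ} (hρ : ρᵀ * cx qB + cx qB * ρ = 0) (k : Fin n) :
    ((4 : ℂ)⁻¹ • clC B qB ρ) * cx (B k) - cx (B k) * ((4 : ℂ)⁻¹ • clC B qB ρ) =
      ∑ i, ρ i k • cx (B i) := by
  obtain ⟨h1, h2⟩ := q_inv hdet
  set R : Matrix (Fin n) (Fin n) ℂ := ρ * cx qB⁻¹ with hR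
  have hRt : Rᵀ = -R := by
    have h3 : (cx qB⁻¹)ᵀ = cx qB⁻¹ := by
      have h4 : (qB⁻¹)ᵀ = qB⁻¹ := by rw [Matrix.transpose_nonsing_inv, hsym]
      conv_rhs => rw [← h4]
      rfl
    rw [hR, Matrix.transpose_mul, h3, q_inv_skew hdet hρ]
  have hRq : R * cx qB = ρ := by rw [hR, Matrix.mul_assoc, h2, Matrix.mul_one]
  have h3 : ∀ i j, cx (B i) * cx (B j) * cx (B k) - cx (B k) * (cx (B i) * cx (B j)) =
      (2 * (qB j k : ℂ)) • cx (B i) - (2 * (qB i k : ℂ)) • cx (B j) := by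
    intro i j
    have e1 : cx (B i) * cx (B j) * cx (B k) - cx (B k) * (cx (B i) * cx (B j)) =
        cx (B i) * (cx (B j) * cx (B k) + cx (B k) * cx (B j)) -
          (cx (B i) * cx (B k) + cx (B k) * cx (B i)) * cx (B j) := by noncomm_ring
    rw [e1, cliff_cx hcl, cliff_cx hcl, Matrix.mul_smul, Matrix.smul_mul, Matrix.mul_one,
      Matrix.one_mul]
  have h4 : clC B qB ρ * cx (B k) - cx (B k) * clC B qB ρ =
      ∑ i, ∑ j, R i j • ((2 * (qB j k : ℂ)) • cx (B i) - (2 * (qB i k : ℂ)) • cx (B j)) := by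
    simp only [← h3, clC, ← hR, Finset.mul_sum, Finset.sum_mul, ← Finset.sum_sub_distrib,
      Matrix.mul_smul, Matrix.smul_mul, smul_sub]
  have h5 : ∑ i, ∑ j, R i j • ((2 * (qB j k : ℂ)) • cx (B i) - (2 * (qB i k : ℂ)) • cx (B j)) =
      ∑ i, ((2 : ℂ) * (R * cx qB) i k) • cx (B i) - ∑ i, ((2 : ℂ) * (Rᵀ * cx qB) i k) • cx (B i) := by
    simp only [smul_sub, Finset.sum_sub_distrib, smul_smul]
    congr 1
    · refine Finset.sum_congr rfl fun i _ => ?_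
      rw [← Finset.sum_smul, Matrix.mul_apply, Finset.mul_sum]
      congr 1
      refine Finset.sum_congr rfl fun j _ => ?_
      change R i j * (2 * (qB j k : ℂ)) = 2 * (R i j * (qB j k : ℂ))
      ring
    · rw [Finset.sum_comm]
      refine Finset.sum_congr rfl fun j _ => ?_
      rw [← Finset.sum_smul, Matrix.mul_apply, Finset.mul_sum]
      congr 1
      refine Finset.sum_congr rfl fun i _ => ?_
      change R i j * (2 * (qB i k : ℂ)) = 2 * (R i j * (qB i k : ℂ))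
      ring
  rw [Matrix.smul_mul, Matrix.mul_smul, ← smul_sub, h4, h5, hRt, Matrix.neg_mul, hRq,
    ← Finset.sum_sub_distrib, Finset.smul_sum]
  refine Finset.sum_congr rfl fun i _ => ?_
  rw [← sub_smul, smul_smul, Matrix.neg_apply]
  congr 1
  ring

/-- the image of a bracket -/
theorem clC_br (hsym : qBᵀ = qB) (hdet : qB.det ≠ 0)
    (hcl : ∀ i j, B i * B j + B j * B i = (2 * qB i j) • (1 : Matrix μ μ ℚ))
    {ρ ρ' : Matrix (Fin n) (Fin n) ℂ} (hρ : ρᵀ * cx qB + cx qB * ρ = 0) :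
    ((4 : ℂ)⁻¹ • clC B qB ρ) * clC B qB ρ' - clC B qB ρ' * ((4 : ℂ)⁻¹ • clC B qB ρ) =
      clC B qB (ρ * ρ' - ρ' * ρ) := by
  rw [clC_eq ρ', qd_der (fun i => cx (B i)) (clC_B hsym hdet hcl hρ), clC_eq]
  congr 1
  rw [Matrix.mul_assoc ρ', q_inv_skew hdet hρ, Matrix.mul_neg, Matrix.sub_mul,
    Matrix.mul_assoc ρ, Matrix.mul_assoc ρ', sub_eq_add_neg]

end cliff

/-- generation by brackets -/
theorem perf_mem (hPerf : SpecPerf) {n : ℕ} {κ : Type} [Fintype κ] [DecidableEq κ] {m : κ → ℕ}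
    (h3 : ∀ k, 3 ≤ m k)
    {P : Matrix (Fin n) ((k : κ) × Fin (m k)) ℂ} {P' : Matrix ((k : κ) × Fin (m k)) (Fin n) ℂ}
    (hP : P' * P = 1) {W : Submodule ℂ (Matrix (Fin n) (Fin n) ℂ)}
    (h : ∀ X Y : (k : κ) → Matrix (Fin (m k)) (Fin (m k)) ℂ, (∀ k, (X k)ᵀ = -X k) →
      (∀ k, (Y k)ᵀ = -Y k) → cm P P' X * cm P P' Y - cm P P' Y * cm P P' X ∈ W)
    {X : (k : κ) → Matrix (Fin (m k)) (Fin (m k)) ℂ} (hX : ∀ k, (X k)ᵀ = -X k) :
    cm P P' X ∈ W := by
  have hs : ∀ (k : κ) (Z : Matrix (Fin (m k)) (Fin (m k)) ℂ), Zᵀ = -Z →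
      ∀ k', ((Pi.single k Z : (k : κ) → Matrix (Fin (m k)) (Fin (m k)) ℂ) k')ᵀ =
        -(Pi.single k Z : (k : κ) → Matrix (Fin (m k)) (Fin (m k)) ℂ) k' := by
    intro k Z hZ k'
    by_cases hk : k' = k
    · subst hk
      rw [Pi.single_eq_same, hZ]
    · rw [Pi.single_eq_of_ne hk, transpose_zero, neg_zero]
  have h1 : ∀ (k : κ) (A : Matrix (Fin (m k)) (Fin (m k)) ℂ), Aᵀ = -A →
      cm P P' (Pi.single k A) ∈ W := by
    intro k A hA
    have h2 := hPerf ℂ (m k) (h3 k) A hA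
    refine Submodule.span_induction (p := fun A _ => cm P P' (Pi.single k A) ∈ W)
      ?_ ?_ ?_ ?_ h2
    · rintro _ ⟨X, Y, hX, hY, rfl⟩
      have h4 := h _ _ (hs k X hX) (hs k Y hY)
      rw [cm_mul hP, cm_mul hP, KFull2M.cm_sub] at h4
      convert h4 using 2
      funext k'
      rw [Pi.sub_apply]
      by_cases hk : k' = k
      · subst hk
        simp only [Pi.single_eq_same]
      · simp only [Pi.single_eq_of_ne hk, Matrix.zero_mul, sub_zero]
    · rw [Pi.single_zero, KFull2M.cm_zero]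
      exact W.zero_mem
    · intro X Y _ _ hX hY
      have h2 := W.add_mem hX hY
      rw [KFull2M.cm_add, ← Pi.single_add] at h2
      exact h2
    · intro a X _ hX
      have h2 := W.smul_mem a hX
      rw [KFull2M.cm_smul, ← Pi.single_smul] at h2
      exact h2
  have key : ∀ s : Finset κ, cm P P' (∑ k ∈ s, Pi.single k (X k)) ∈ W := by
    intro s
    induction s using Finset.induction_on with
    | empty =>
      rw [Finset.sum_empty, KFull2M.cm_zero]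
      exact W.zero_mem
    | insert k s hk ih =>
      rw [Finset.sum_insert hk, ← KFull2M.cm_add]
      exact W.add_mem (h1 k _ (hX k)) ih
  have h2 := key Finset.univ
  rwa [Finset.univ_sum_single] at h2

section lb3

variable {g n : ℕ}

theorem lb3_add (Z Z' : Matrix (Ix g) (Ix g) ℂ) (ρ ρ' : Matrix (Fin n) (Fin n) ℂ) (m m' : ℂ) :
    lb3 Z ρ m + lb3 Z' ρ' m' = lb3 (Z + Z') (ρ + ρ') (m + m') := by
  unfold lb3
  rw [fromBlocks_add, KFull2M.lb_add, add_zero, add_zero]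

theorem lb3_smul (a : ℂ) (Z : Matrix (Ix g) (Ix g) ℂ) (ρ : Matrix (Fin n) (Fin n) ℂ) (m : ℂ) :
    a • lb3 Z ρ m = lb3 (a • Z) (a • ρ) (a * m) := by
  unfold lb3
  rw [fromBlocks_smul, KFull2M.lb_smul, smul_zero, smul_zero]

theorem lb3_sub (Z Z' : Matrix (Ix g) (Ix g) ℂ) (ρ ρ' : Matrix (Fin n) (Fin n) ℂ) (m m' : ℂ) :
    lb3 Z ρ m - lb3 Z' ρ' m' = lb3 (Z - Z') (ρ - ρ') (m - m') := by
  have h : lb3 Z ρ m - lb3 Z' ρ' m' = lb3 Z ρ m + (-1 : ℂ) • lb3 Z' ρ' m' := by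
    rw [neg_one_smul, sub_eq_add_neg]
  rw [h, lb3_smul, lb3_add, neg_one_smul, neg_one_smul, neg_one_mul, ← sub_eq_add_neg,
    ← sub_eq_add_neg, ← sub_eq_add_neg]

theorem lb3_zero : lb3 (0 : Matrix (Ix g) (Ix g) ℂ) (0 : Matrix (Fin n) (Fin n) ℂ) 0 = 0 := by
  have h := lb3_smul 0 (0 : Matrix (Ix g) (Ix g) ℂ) (0 : Matrix (Fin n) (Fin n) ℂ) 0
  rw [zero_smul, zero_smul, zero_smul, mul_zero] at h
  exact h.symm

/-- the logarithmic derivative of a block diagonal point -/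
theorem dlog_bd3 (y : Grp3 g n) (δ : Derivation Qbar ℂ ℂ) :
    (bd3 y).1.map δ * (bd3 y)⁻¹.1 =
      lb3 (y.1.1.map δ * y.1⁻¹.1) (y.2.1.1.map δ * y.2.1⁻¹.1) (δ (y.2.2 : ℂ) / y.2.2) := by
  have e1 : (bd3 y).1.map δ = lb3 (y.1.1.map δ) (y.2.1.1.map δ) (δ (y.2.2 : ℂ)) := by
    rw [bd3_val]
    ext i j
    rcases i with i | (i | i) <;> rcases j with j | (j | j) <;> simp [lb3, lb]
  have e2 : (bd3 y)⁻¹.1 = lb3 y.1⁻¹.1 y.2.1⁻¹.1 ((y.2.2⁻¹ : ℂˣ) : ℂ) := rfl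
  rw [e1, e2, lb3_mul, div_eq_mul_inv, Units.val_inv_eq_inv_val]

end lb3

/-- The elements of the Lie algebra with their properties -/
structure InL {g n : ℕ} (T : Set (GL (Ix g ⊕ (Fin n ⊕ Unit)) ℂ)) (c : GL (Ix g) ℂ)
    (qB : Matrix (Fin n) (Fin n) ℚ) (B : Fin n → Matrix (Ix g) (Ix g) ℚ)
    (E : Set (Matrix (Fin n) (Fin n) ℚ)) (ψ : Matrix (Ix g) (Ix g) ℚ)
    (Z : Matrix (Ix g) (Ix g) ℂ) (ρ : Matrix (Fin n) (Fin n) ℂ) (m : ℂ) : Prop where
  mem : lb3 Z ρ m ∈ lie T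
  act : ∀ j, Z * cx (B j) - cx (B j) * Z = ∑ i, ρ i j • cx (B i)
  mul : Zᵀ * cx ψ + cx ψ * Z = m • cx ψ
  endo : ∀ Z₀ ∈ EndAlg c.1, Z * cx Z₀ = cx Z₀ * Z
  skew : ρᵀ * cx qB + cx qB * ρ = 0
  comm : ∀ e ∈ E, ρ * cx e = cx e * ρ

section inL

variable {g n : ℕ} {T : Set (GL (Ix g ⊕ (Fin n ⊕ Unit)) ℂ)} {c : GL (Ix g) ℂ}
  {qB : Matrix (Fin n) (Fin n) ℚ} {B : Fin n → Matrix (Ix g) (Ix g) ℚ}
  {E : Set (Matrix (Fin n) (Fin n) ℚ)} {ψ : Matrix (Ix g) (Ix g) ℚ}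
  {Z Z' : Matrix (Ix g) (Ix g) ℂ} {ρ ρ' : Matrix (Fin n) (Fin n) ℂ} {m m' : ℂ}

theorem InL.add (h : InL T c qB B E ψ Z ρ m) (h' : InL T c qB B E ψ Z' ρ' m') :
    InL T c qB B E ψ (Z + Z') (ρ + ρ') (m + m') where
  mem := by
    rw [← lb3_add]
    exact (lie T).add_mem h.mem h'.mem
  act j := by
    have e1 : (Z + Z') * cx (B j) - cx (B j) * (Z + Z') =
        (Z * cx (B j) - cx (B j) * Z) + (Z' * cx (B j) - cx (B j) * Z') := by noncomm_ring
    rw [e1, h.act, h'.act, ← Finset.sum_add_distrib]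
    exact Finset.sum_congr rfl fun i _ => by rw [Matrix.add_apply, add_smul]
  mul := by
    rw [transpose_add, Matrix.add_mul, Matrix.mul_add, add_add_add_comm, h.mul, h'.mul, add_smul]
  endo Z₀ hZ₀ := by rw [Matrix.add_mul, Matrix.mul_add, h.endo Z₀ hZ₀, h'.endo Z₀ hZ₀]
  skew := by
    rw [transpose_add, Matrix.add_mul, Matrix.mul_add, add_add_add_comm, h.skew, h'.skew, add_zero]
  comm e he := by rw [Matrix.add_mul, Matrix.mul_add, h.comm e he, h'.comm e he]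

theorem InL.smul (a : ℂ) (h : InL T c qB B E ψ Z ρ m) :
    InL T c qB B E ψ (a • Z) (a • ρ) (a * m) where
  mem := by
    rw [← lb3_smul]
    exact (lie T).smul_mem a h.mem
  act j := by
    rw [Matrix.smul_mul, Matrix.mul_smul, ← smul_sub, h.act, Finset.smul_sum]
    exact Finset.sum_congr rfl fun i _ => by rw [Matrix.smul_apply, smul_eq_mul, smul_smul]
  mul := by
    rw [transpose_smul, Matrix.smul_mul, Matrix.mul_smul, ← smul_add, h.mul, smul_smul]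
  endo Z₀ hZ₀ := by rw [Matrix.smul_mul, Matrix.mul_smul, h.endo Z₀ hZ₀]
  skew := by rw [transpose_smul, Matrix.smul_mul, Matrix.mul_smul, ← smul_add, h.skew, smul_zero]
  comm e he := by rw [Matrix.smul_mul, Matrix.mul_smul, h.comm e he]

theorem InL.zero : InL T c qB B E ψ 0 0 0 where
  mem := by
    rw [lb3_zero]
    exact (lie T).zero_mem
  act j := by simp
  mul := by simp
  endo Z₀ _ := by simp
  skew := by simp
  comm e _ := by simp

/-- the projection -/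
noncomputable def pr3 (T : Set (GL (Ix g ⊕ (Fin n ⊕ Unit)) ℂ)) (c : GL (Ix g) ℂ)
    (qB : Matrix (Fin n) (Fin n) ℚ) (B : Fin n → Matrix (Ix g) (Ix g) ℚ)
    (E : Set (Matrix (Fin n) (Fin n) ℚ)) (ψ : Matrix (Ix g) (Ix g) ℚ) :
    Submodule ℂ (Matrix (Fin n) (Fin n) ℂ) where
  carrier := {ρ | ∃ Z m, InL T c qB B E ψ Z ρ m}
  add_mem' := by
    rintro a b ⟨Z, m, h⟩ ⟨Z', m', h'⟩
    exact ⟨_, _, h.add h'⟩
  zero_mem' := ⟨0, 0, InL.zero⟩
  smul_mem' := by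
    rintro a b ⟨Z, m, h⟩
    exact ⟨_, _, h.smul a⟩

/-- `Z - clC ρ / 4` commutes with the Clifford operators -/
theorem InL.diff (hsym : qBᵀ = qB) (hdet : qB.det ≠ 0)
    (hcl : ∀ i j, B i * B j + B j * B i = (2 * qB i j) • (1 : Matrix (Ix g) (Ix g) ℚ))
    (h : InL T c qB B E ψ Z ρ m) (j : Fin n) :
    (Z - (4 : ℂ)⁻¹ • clC B qB ρ) * cx (B j) = cx (B j) * (Z - (4 : ℂ)⁻¹ • clC B qB ρ) := by
  have h1 := h.act j
  have h2 := clC_B hsym hdet hcl h.skew j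
  have h3 : (Z * cx (B j) - cx (B j) * Z) - (((4 : ℂ)⁻¹ • clC B qB ρ) * cx (B j) -
      cx (B j) * ((4 : ℂ)⁻¹ • clC B qB ρ)) = 0 := by rw [h1, h2, sub_self]
  rw [← sub_eq_zero, ← h3]
  noncomm_ring

/-- matrices commuting with the Clifford operators are combinations of endomorphisms -/
theorem comm_of_full (hEF : EndFull c qB B E) {D : Matrix (Ix g) (Ix g) ℂ}
    (hD : ∀ j, D * cx (B j) = cx (B j) * D) {Y : Matrix (Ix g) (Ix g) ℂ}
    (hY : ∀ Z₀ ∈ EndAlg c.1, Y * cx Z₀ = cx Z₀ * Y) : Y * D = D * Y := by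
  obtain ⟨r, β, l, hDe⟩ := eq_sum D
  have h1 : ∀ l : QForm, Y * cx (ap l D) = cx (ap l D) * Y := by
    intro l
    refine hY _ (hEF _ fun ρ _ => ?_)
    have h2 : D * cx (cli qB B ρ) = cx (cli qB B ρ) * D := by
      rw [← clC_cx, clC_eq]
      exact qd_comm _ hD _
    have h3 := congrArg (ap l) h2
    rwa [mul_rat, rat_mul] at h3
  rw [hDe, Finset.mul_sum, Finset.sum_mul]
  refine Finset.sum_congr rfl fun i _ => ?_
  rw [Matrix.mul_smul, Matrix.smul_mul, h1]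

/-- brackets -/
theorem InL.br (hsym : qBᵀ = qB) (hdet : qB.det ≠ 0)
    (hcl : ∀ i j, B i * B j + B j * B i = (2 * qB i j) • (1 : Matrix (Ix g) (Ix g) ℚ))
    (hEF : EndFull c qB B E) (h : InL T c qB B E ψ Z ρ m) (h' : InL T c qB B E ψ Z' ρ' m') :
    InL T c qB B E ψ ((4 : ℂ)⁻¹ • clC B qB (ρ * ρ' - ρ' * ρ)) (ρ * ρ' - ρ' * ρ) 0 := by
  have hD := h.diff hsym hdet hcl
  have hD' := h'.diff hsym hdet hcl
  set D := Z - (4 : ℂ)⁻¹ • clC B qB ρ with hDdef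
  set D' := Z' - (4 : ℂ)⁻¹ • clC B qB ρ' with hDdef'
  have h1 : Z' * D = D * Z' := comm_of_full hEF hD h'.endo
  have h2 : D' * clC B qB ρ = clC B qB ρ * D' := by
    rw [clC_eq]
    exact qd_comm _ hD' _
  have hZ : Z = D + (4 : ℂ)⁻¹ • clC B qB ρ := by rw [hDdef, sub_add_cancel]
  have hZ' : Z' = D' + (4 : ℂ)⁻¹ • clC B qB ρ' := by rw [hDdef', sub_add_cancel]
  have h3 : Z * Z' - Z' * Z = (4 : ℂ)⁻¹ • clC B qB (ρ * ρ' - ρ' * ρ) := by
    have h4 := clC_br hsym hdet hcl (ρ' := ρ') h.skew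
    calc Z * Z' - Z' * Z = (D * Z' - Z' * D) +
          (((4 : ℂ)⁻¹ • clC B qB ρ) * Z' - Z' * ((4 : ℂ)⁻¹ • clC B qB ρ)) := by
          conv_lhs => rw [hZ]
          noncomm_ring
      _ = ((4 : ℂ)⁻¹ • clC B qB ρ) * Z' - Z' * ((4 : ℂ)⁻¹ • clC B qB ρ) := by
          rw [h1, sub_self, zero_add]
      _ = (4 : ℂ)⁻¹ • (((4 : ℂ)⁻¹ • clC B qB ρ) * clC B qB ρ' -
            clC B qB ρ' * ((4 : ℂ)⁻¹ • clC B qB ρ)) +
          (4 : ℂ)⁻¹ • (clC B qB ρ * D' - D' * clC B qB ρ) := by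
          conv_lhs => rw [hZ']
          simp only [Matrix.mul_add, Matrix.add_mul, Matrix.smul_mul, Matrix.mul_smul, smul_sub,
            smul_add]
          abel
      _ = (4 : ℂ)⁻¹ • clC B qB (ρ * ρ' - ρ' * ρ) := by
          rw [h4, h2, sub_self, smul_zero, add_zero]
  rw [← h3]
  refine ⟨?_, fun j => ?_, ?_, fun Z₀ hZ₀ => ?_, ?_, fun e he => ?_⟩
  · have h4 := GL2.lie_br h.mem h'.mem
    rw [lb3_mul, lb3_mul, lb3_sub] at h4
    have e : m * m' - m' * m = 0 := by ring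
    rwa [e] at h4
  · have e1 : (Z * Z' - Z' * Z) * cx (B j) - cx (B j) * (Z * Z' - Z' * Z) =
        (Z * (Z' * cx (B j) - cx (B j) * Z') - (Z' * cx (B j) - cx (B j) * Z') * Z) -
        (Z' * (Z * cx (B j) - cx (B j) * Z) - (Z * cx (B j) - cx (B j) * Z) * Z') := by
      noncomm_ring
    have e2 : ∀ (W : Matrix (Ix g) (Ix g) ℂ) (r : Fin n → ℂ),
        W * (∑ i, r i • cx (B i)) - (∑ i, r i • cx (B i)) * W =
          ∑ i, r i • (W * cx (B i) - cx (B i) * W) := by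
      intro W r
      rw [Finset.mul_sum, Finset.sum_mul, ← Finset.sum_sub_distrib]
      exact Finset.sum_congr rfl fun i _ => by rw [Matrix.mul_smul, Matrix.smul_mul, smul_sub]
    rw [e1, h.act, h'.act, e2, e2]
    simp only [h.act, h'.act, Finset.smul_sum, smul_smul]
    rw [Finset.sum_comm, Finset.sum_comm (f := fun i k => (ρ i j * ρ' k i) • cx (B k)),
      ← Finset.sum_sub_distrib]
    refine Finset.sum_congr rfl fun i _ => ?_
    rw [← Finset.sum_smul, ← Finset.sum_smul, ← sub_smul, Matrix.sub_apply, Matrix.mul_apply,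
      Matrix.mul_apply]
    congr 1
    congr 1
    · exact Finset.sum_congr rfl fun k _ => mul_comm _ _
    · exact Finset.sum_congr rfl fun k _ => mul_comm _ _
  · have e1 : Zᵀ * cx ψ = m • cx ψ - cx ψ * Z := eq_sub_of_add_eq h.mul
    have e2 : Z'ᵀ * cx ψ = m' • cx ψ - cx ψ * Z' := eq_sub_of_add_eq h'.mul
    rw [transpose_sub, transpose_mul, transpose_mul, Matrix.sub_mul, Matrix.mul_assoc,
      Matrix.mul_assoc, e1, e2, Matrix.mul_sub, Matrix.mul_sub, Matrix.mul_smul, Matrix.mul_smul,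
      ← Matrix.mul_assoc, ← Matrix.mul_assoc, e1, e2, zero_smul]
    simp only [Matrix.sub_mul, Matrix.mul_sub, Matrix.smul_mul, smul_sub, ← Matrix.mul_assoc]
    rw [smul_comm m m']
    abel
  · rw [Matrix.sub_mul, Matrix.mul_sub, Matrix.mul_assoc, h'.endo Z₀ hZ₀, ← Matrix.mul_assoc,
      h.endo Z₀ hZ₀, Matrix.mul_assoc Z' Z, h.endo Z₀ hZ₀, ← Matrix.mul_assoc Z', h'.endo Z₀ hZ₀,
      Matrix.mul_assoc, Matrix.mul_assoc]
  · have e1 : ρᵀ * cx qB = -(cx qB * ρ) := eq_neg_of_add_eq_zero_left h.skew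
    have e2 : ρ'ᵀ * cx qB = -(cx qB * ρ') := eq_neg_of_add_eq_zero_left h'.skew
    rw [transpose_sub, transpose_mul, transpose_mul, Matrix.sub_mul, Matrix.mul_assoc,
      Matrix.mul_assoc, e1, e2, Matrix.mul_neg, Matrix.mul_neg, ← Matrix.mul_assoc,
      ← Matrix.mul_assoc, e1, e2]
    simp only [Matrix.neg_mul, Matrix.mul_sub, Matrix.mul_assoc]
    abel
  · rw [Matrix.sub_mul, Matrix.mul_sub, Matrix.mul_assoc, h'.comm e he, ← Matrix.mul_assoc,
      h.comm e he, Matrix.mul_assoc ρ' ρ, h.comm e he, ← Matrix.mul_assoc ρ', h'.comm e he,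
      Matrix.mul_assoc, Matrix.mul_assoc]

end inL

end KFull3M

open KFull3M KGrpM KRatM KLieM in
theorem specKFull3 (hRat : SpecKRat3) (hLie : SpecKLie) (hPerf : SpecPerf) (hHDA : SpecHDA)
    (hSc : SpecKSc) : SpecKFull3 := by
  intro g N n A c t qdR qB B E κ _ _ m P lam hK hEF hS h3 h5 T hT htT hcl
  obtain ⟨⟨J, hJ⟩, hEnd⟩ := hHDA Qbar g N A c le_rfl hK.abvar hK.per
  change HD c J A.psi at hJ
  obtain ⟨kk, hkk, hlog⟩ := hRat g N n A c t qdR qB B E J _ hK hJ T hT htT hcl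
  have hP' : (Pᵀ * cx qB) * P = 1 := hS.orth
  have hgeo := GL2.geo_of_torsor hT
  have hQ := hK.symm
  have hdet := hK.det
  have hclf := hK.clifford
  -- the projection is everything
  have h1 : ∀ X : (k : κ) → Matrix (Fin (m k)) (Fin (m k)) ℂ, (∀ k, (X k)ᵀ = -X k) →
      cm P (Pᵀ * cx qB) X ∈ pr3 T c qB B E A.psi := by
    intro X hX
    refine hLie g N n A c t qdR qB B E κ m P lam J _ hK hS h3 h5 hJ hEnd
      (pr3 T c qB B E A.psi) ?_ kk ?_ ?_ hlog X hX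
    · rintro X ⟨Z, m, h⟩ Y ⟨Z', m', h'⟩
      exact ⟨_, _, h.br hQ hdet hclf hEF h'⟩
    · intro Z hZ
      obtain ⟨m, ρ, h4, -⟩ := hkk Z hZ
      exact ⟨m, h4⟩
    · intro Z hZ
      obtain ⟨m, ρ, h4, h5, h6, h7, h8⟩ := hkk Z hZ
      refine ⟨ρ, h5, ⟨cx Z, (m : ℂ), ?_⟩, h7⟩
      refine ⟨h6, fun j => ?_, ?_, fun Z₀ hZ₀ => ?_, ?_, fun e he => ?_⟩
      · rw [← cx_mul, ← cx_mul]
        have e1 := congrArg cx (h7 j)
        have e2 : cx (Z * B j - B j * Z) = cx (Z * B j) - cx (B j * Z) := by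
          ext a b
          simp [cx]
        rw [e2] at e1
        rw [e1]
        ext a b
        simp [cx, Matrix.sum_apply]
      · have e1 := congrArg cx h4
        rw [cx_add, cx_mul, cx_mul, cx_smul] at e1
        exact e1
      · rw [← cx_mul, h8 Z₀ hZ₀, cx_mul]
      · have e1 := congrArg cx h5.1
        rw [cx_add, cx_mul, cx_mul, cx_zero] at e1
        exact e1
      · rw [← cx_mul, h5.2 e he, cx_mul]
  -- brackets
  let W : Submodule ℂ (Matrix (Fin n) (Fin n) ℂ) :=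
    { carrier := {ρ | InL T c qB B E A.psi ((4 : ℂ)⁻¹ • clC B qB ρ) ρ 0}
      add_mem' := by
        intro a b ha hb
        have h := InL.add ha hb
        rw [← smul_add, ← clC_add, add_zero] at h
        exact h
      zero_mem' := by
        have h : InL T c qB B E A.psi 0 0 0 := InL.zero
        have e : (4 : ℂ)⁻¹ • clC B qB (0 : Matrix (Fin n) (Fin n) ℂ) = 0 := by
          have e1 := clC_smul (B := B) (qB := qB) 0 0
          rw [zero_smul, zero_smul] at e1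
          rw [e1, smul_zero]
        change InL T c qB B E A.psi _ _ _
        rw [e]
        exact h
      smul_mem' := by
        intro a ρ h
        have h2 := InL.smul a h
        rw [smul_comm, ← clC_smul, mul_zero] at h2
        exact h2 }
  have h2 : ∀ X : (k : κ) → Matrix (Fin (m k)) (Fin (m k)) ℂ, (∀ k, (X k)ᵀ = -X k) →
      InL T c qB B E A.psi ((4 : ℂ)⁻¹ • clC B qB (cm P (Pᵀ * cx qB) X))
        (cm P (Pᵀ * cx qB) X) 0 := by
    intro X hX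
    refine perf_mem hPerf h3 hP' (W := W) (fun X Y hX hY => ?_) hX
    obtain ⟨Z, m, h⟩ := h1 X hX
    obtain ⟨Z', m', h'⟩ := h1 Y hY
    exact h.br hQ hdet hclf hEF h'
  refine ⟨?_, ?_⟩
  · rintro X hX ρ rfl
    have h4 := h2 X hX
    change lb3 ((4 : ℂ)⁻¹ • clC B qB (cm P (Pᵀ * cx qB) X)) (cm P (Pᵀ * cx qB) X) 0 ∈ lie T ∧
      (clC B qB (cm P (Pᵀ * cx qB) X))ᵀ * cx A.psi +
        cx A.psi * clC B qB (cm P (Pᵀ * cx qB) X) = 0 ∧
      ∀ Z ∈ EndAlg c.1, clC B qB (cm P (Pᵀ * cx qB) X) * cx Z =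
        cx Z * clC B qB (cm P (Pᵀ * cx qB) X)
    have h6 : (4 : ℂ) • ((4 : ℂ)⁻¹ • clC B qB (cm P (Pᵀ * cx qB) X)) =
        clC B qB (cm P (Pᵀ * cx qB) X) := by
      rw [smul_smul, mul_inv_cancel₀ (by norm_num), one_smul]
    have h7 := h4.smul 4
    refine ⟨h4.mem, ?_, fun Z hZ => ?_⟩
    · have h8 := h7.mul
      rw [h6, mul_zero, zero_smul] at h8
      exact h8
    · have h8 := h7.endo Z hZ
      rw [h6] at h8
      exact h8
  · obtain ⟨δ, hδ⟩ : ∃ δ : Derivation Qbar ℂ ℂ, δ (2 * Real.pi * Complex.I) ≠ 0 := by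
      by_contra hne
      push Not at hne
      exact U.SimM.two_pi_I_notMem (specDsc.2 _ hne)
    obtain ⟨ψdR, hψ, hleg⟩ := hJ.leg
    have h4 := hgeo.deriv_mem htT δ
    rw [dlog_bd3] at h4
    have hx1 := KRatM.log_form t qB qdR hK.alg hK.form δ
    have hx2 : ∀ e ∈ E, (t.1.map δ * t⁻¹.1) * cx e = cx e * (t.1.map δ * t⁻¹.1) := by
      intro e he
      obtain ⟨e', he', h5⟩ := hK.endT e he
      exact KRatM.log_end t e e' he' h5 δ
    have h5 : InL T c qB B E A.psi (c.1.map δ * c⁻¹.1) (t.1.map δ * t⁻¹.1)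
        (δ (2 * Real.pi * Complex.I) / (2 * Real.pi * Complex.I)) := by
      refine ⟨h4, KRatM.log_cliff c t B hK.morphism δ, U.SimM.log_deriv c A.psi ψdR hψ hleg δ,
        fun Z₀ hZ₀ => ?_, hx1, hx2⟩
      obtain ⟨B', hB', hcB⟩ := hZ₀
      exact KRatM.log_end c Z₀ B' hB' hcB δ
    obtain ⟨X, hX, hxX⟩ := KFull2M.exists_fam hS hQ hx1 hx2
    have h6 := h2 X hX
    rw [← hxX] at h6
    have h7 := h5.add (h6.smul (-1))
    rw [mul_zero, add_zero, neg_one_smul, neg_one_smul, add_neg_cancel, ← sub_eq_add_neg] at h7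
    set D : Matrix (Ix g) (Ix g) ℂ := c.1.map δ * c⁻¹.1 -
      (4 : ℂ)⁻¹ • clC B qB (t.1.map δ * t⁻¹.1) with hD
    set M : ℂ := δ (2 * Real.pi * Complex.I) / (2 * Real.pi * Complex.I) with hM
    have hM0 : M ≠ 0 := div_ne_zero hδ Complex.two_pi_I_ne_zero
    obtain ⟨s, hs⟩ := hSc g N n A c t qdR qB B E κ m P lam hK hS D (fun j => by
      have h8 := h7.act j
      rw [sub_eq_iff_eq_add] at h8
      rw [h8]
      simp) (fun Z hZ => h7.endo Z (hEF Z hZ))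
    have h8 := h7.mul
    rw [hs] at h8
    have hψ0 : cx A.psi ≠ 0 := by
      intro h0
      have h9 : A.psi = 0 := by
        ext i j
        have h10 := congrFun (congrFun h0 i) j
        change ((A.psi i j : ℚ) : ℂ) = 0 at h10
        exact_mod_cast h10
      have : Nonempty (Ix g) := ⟨Sum.inl ⟨0, hK.pos⟩⟩
      apply hJ.det
      rw [h9]
      exact Matrix.det_zero
    have h9 : (2 * s - M) • cx A.psi = 0 := by
      rw [sub_smul, ← h8, transpose_smul, transpose_one, Matrix.smul_mul, Matrix.one_mul,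
        Matrix.mul_smul, Matrix.mul_one, two_mul, add_smul, sub_self]
    have h10 : 2 * s = M := sub_eq_zero.1 ((smul_eq_zero.1 h9).resolve_right hψ0)
    have h11 := (h7.smul M⁻¹).mem
    rw [hs, smul_smul, smul_zero, inv_mul_cancel₀ hM0] at h11
    have h12 : M⁻¹ * s = (2 : ℂ)⁻¹ := by
      have hs0 : s ≠ 0 := by
        rintro rfl
        rw [mul_zero] at h10
        exact hM0 h10.symm
      rw [← h10, mul_inv, mul_assoc, inv_mul_cancel₀ hs0, mul_one]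
    rwa [h12] at h11

end Pool.Agent.Lib.MPf11a48.K3
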