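import Pool.Agent.Lib.MP_f11a48_ag.K3.KSpec2
import Pool.Agent.Lib.MP_f11a48_ag.K3.KRat

/-! # Module KLIE: the Lie algebra part -/

set_option autoImplicit false

namespace Pool.Agent.Lib.MPf11a48.K3

open Matrix MvPolynomial Pool.Agent.Lib.MPf11a48.Tors
open Pool.Agent.Lib.MPf11a48.CM hiding OmegaM
open Pool.Agent.Lib.MPf11a48.GL2 (lie)
open Pool.Agent.Lib.MPf11a48.U (AbData Ix HD EndAlg)

namespace KLieM

open KRatM

variable {n : ℕ} {μ : Type} [Fintype μ] [DecidableEq μ] {B : Fin n → Matrix μ μ ℚ}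
  {qB : Matrix (Fin n) (Fin n) ℚ}

/-- the Clifford operator of a complex vector -/
noncomputable def bl (B : Fin n → Matrix μ μ ℚ) (w : Fin n → ℂ) : Matrix μ μ ℂ :=
  ∑ a, w a • cx (B a)

omit [Fintype μ] [DecidableEq μ] in
theorem bl_sum {I : Type} [Fintype I] (x : I → ℂ) (w : I → Fin n → ℂ) :
    bl B (fun a => ∑ i, x i * w i a) = ∑ i, x i • bl B (w i) := by
  simp only [bl, Finset.sum_smul, Finset.smul_sum, smul_smul]
  rw [Finset.sum_comm]

omit [Fintype μ] in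
theorem cx_one : cx (1 : Matrix μ μ ℚ) = 1 := by
  ext i j
  by_cases h : i = j
  · subst h; simp [cx]
  · simp [cx, Matrix.one_apply_ne h]

theorem bl_anti (hcl : ∀ i j, B i * B j + B j * B i = (2 * qB i j) • (1 : Matrix μ μ ℚ))
    (w w' : Fin n → ℂ) : bl B w * bl B w' + bl B w' * bl B w =
      (2 * (w ⬝ᵥ (cx qB *ᵥ w'))) • (1 : Matrix μ μ ℂ) := by
  have h1 : ∀ i j, cx (B i) * cx (B j) + cx (B j) * cx (B i) =
      (2 * (qB i j : ℂ)) • (1 : Matrix μ μ ℂ) := by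
    intro i j
    rw [← cx_mul, ← cx_mul, ← cx_add, hcl, cx_smul, cx_one]
    push_cast
    rfl
  have h2 : bl B w * bl B w' = ∑ i, ∑ j, (w i * w' j) • (cx (B i) * cx (B j)) := by
    rw [bl, bl, Finset.sum_mul]
    refine Finset.sum_congr rfl fun i _ => ?_
    rw [Finset.mul_sum]
    refine Finset.sum_congr rfl fun j _ => ?_
    rw [Matrix.smul_mul, Matrix.mul_smul, smul_smul]
  have h3 : bl B w' * bl B w = ∑ i, ∑ j, (w i * w' j) • (cx (B j) * cx (B i)) := by
    rw [bl, bl, Finset.sum_mul]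
    simp only [Finset.mul_sum]
    rw [Finset.sum_comm]
    refine Finset.sum_congr rfl fun i _ => Finset.sum_congr rfl fun j _ => ?_
    rw [Matrix.smul_mul, Matrix.mul_smul, smul_smul, mul_comm (w' j)]
  rw [h2, h3, ← Finset.sum_add_distrib]
  have h4 : ∀ i, (∑ j, (w i * w' j) • (cx (B i) * cx (B j)) +
      ∑ j, (w i * w' j) • (cx (B j) * cx (B i))) =
      ∑ j, (w i * w' j * (2 * (qB i j : ℂ))) • (1 : Matrix μ μ ℂ) := by
    intro i
    rw [← Finset.sum_add_distrib]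
    refine Finset.sum_congr rfl fun j _ => ?_
    rw [← smul_add, h1, smul_smul]
  simp only [h4, ← Finset.sum_smul]
  congr 1
  simp only [dotProduct, mulVec, Finset.mul_sum]
  refine Finset.sum_congr rfl fun i _ => Finset.sum_congr rfl fun j _ => ?_
  simp only [cx, Matrix.map_apply]
  ring

omit [DecidableEq μ] in
theorem bl_comm {Z : Matrix μ μ ℚ} {ρ : Matrix (Fin n) (Fin n) ℚ}
    (h : ∀ j, Z * B j - B j * Z = ∑ i, ρ i j • B i) (w : Fin n → ℂ) :
    cx Z * bl B w - bl B w * cx Z = bl B (cx ρ *ᵥ w) := by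
  have h1 : ∀ j, cx Z * cx (B j) - cx (B j) * cx Z = ∑ i, (ρ i j : ℂ) • cx (B i) := by
    intro j
    have h2 := congrArg cx (h j)
    have h3 : cx (Z * B j - B j * Z) = cx Z * cx (B j) - cx (B j) * cx Z := by
      rw [← cx_mul, ← cx_mul]
      ext a b
      simp [cx]
    rw [h3] at h2
    rw [h2]
    ext a b
    simp [cx, Matrix.sum_apply]
  rw [bl, Finset.mul_sum, Finset.sum_mul, ← Finset.sum_sub_distrib]
  have h2 : ∀ j, cx Z * w j • cx (B j) - w j • cx (B j) * cx Z =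
      ∑ i, (w j * (ρ i j : ℂ)) • cx (B i) := by
    intro j
    rw [Matrix.mul_smul, Matrix.smul_mul, ← smul_sub, h1, Finset.smul_sum]
    simp only [smul_smul]
  simp only [h2]
  rw [Finset.sum_comm, bl]
  refine Finset.sum_congr rfl fun i _ => ?_
  rw [← Finset.sum_smul]
  congr 1
  simp only [mulVec, dotProduct, cx, Matrix.map_apply]
  exact Finset.sum_congr rfl fun j _ => mul_comm _ _

variable {U : Type} [Fintype U] [DecidableEq U] {P : Matrix (Fin n) U ℂ} {s : ℂ}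

/-- the Clifford operators of the columns of `P` -/
noncomputable def gam (B : Fin n → Matrix μ μ ℚ) (P : Matrix (Fin n) U ℂ) (s : ℂ) (u : U) :
    Matrix μ μ ℂ := s • bl B fun a => P a u

omit [Fintype U] in
theorem gam_anti (hcl : ∀ i j, B i * B j + B j * B i = (2 * qB i j) • (1 : Matrix μ μ ℚ))
    (hP : Pᵀ * cx qB * P = 1) (hs : 2 * (s * s) = 1) (u v : U) :
    gam B P s u * gam B P s v + gam B P s v * gam B P s u = if u = v then 1 else 0 := by
  have h1 : ((fun a => P a u) ⬝ᵥ (cx qB *ᵥ fun a => P a v)) = (1 : Matrix U U ℂ) u v := by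
    rw [← hP, Matrix.mul_assoc]
    simp only [Matrix.mul_apply, dotProduct, mulVec, Matrix.transpose_apply]
  simp only [gam, Matrix.smul_mul, Matrix.mul_smul, smul_smul]
  rw [← smul_add, bl_anti hcl, h1, smul_smul, Matrix.one_apply]
  split_ifs with h
  · rw [show s * s * (2 * 1) = 2 * (s * s) by ring, hs, one_smul]
  · rw [mul_zero, mul_zero, zero_smul]

omit [DecidableEq μ] [DecidableEq U] in
theorem gam_comm {Z : Matrix μ μ ℚ} {ρ : Matrix (Fin n) (Fin n) ℚ}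
    (h : ∀ j, Z * B j - B j * Z = ∑ i, ρ i j • B i) {R : Matrix U U ℂ} (hR : cx ρ * P = P * R)
    (v : U) : cx Z * gam B P s v - gam B P s v * cx Z = ∑ u, R u v • gam B P s u := by
  have h1 : (cx ρ *ᵥ fun a => P a v) = fun a => ∑ u, R u v * P a u := by
    funext a
    have h2 := congrFun (congrFun hR a) v
    rw [Matrix.mul_apply, Matrix.mul_apply] at h2
    simp only [mulVec, dotProduct]
    rw [h2]
    exact Finset.sum_congr rfl fun u _ => mul_comm _ _
  have h2 : bl B (fun a => ∑ u, R u v * P a u) = ∑ u, R u v • bl B (fun a => P a u) :=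
    bl_sum (fun u => R u v) fun u a => P a u
  rw [gam, Matrix.mul_smul, Matrix.smul_mul, ← smul_sub, bl_comm h, h1, h2, Finset.smul_sum]
  refine Finset.sum_congr rfl fun u _ => ?_
  rw [gam, smul_smul, smul_smul, mul_comm]

/-! ### The even Clifford algebra -/

/-- `cli` for complex matrices -/
noncomputable def clC (B : Fin n → Matrix μ μ ℚ) (qB : Matrix (Fin n) (Fin n) ℚ)
    (ρ : Matrix (Fin n) (Fin n) ℂ) : Matrix μ μ ℂ :=
  ∑ i, ∑ j, (ρ * cx qB⁻¹) i j • (cx (B i) * cx (B j))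

omit [DecidableEq μ] in
theorem clC_cx (ρ : Matrix (Fin n) (Fin n) ℚ) : clC B qB (cx ρ) = cx (cli qB B ρ) := by
  have h1 : cx ρ * cx qB⁻¹ = cx (ρ * qB⁻¹) := (cx_mul _ _).symm
  have h2 : ∀ i j, cx (B i) * cx (B j) = cx (B i * B j) := fun i j => (cx_mul _ _).symm
  simp only [clC, cli, h1, h2]
  ext a b
  simp [cx, Matrix.sum_apply]

omit [DecidableEq μ] in
theorem clC_sum {I : Type} [Fintype I] (x : I → ℂ) (ρ : I → Matrix (Fin n) (Fin n) ℂ) :
    clC B qB (∑ i, x i • ρ i) = ∑ i, x i • clC B qB (ρ i) := by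
  have h1 : ∀ i j, ((∑ k, x k • ρ k) * cx qB⁻¹) i j = ∑ k, x k * (ρ k * cx qB⁻¹) i j := by
    intro i j
    rw [Finset.sum_mul, Matrix.sum_apply]
    refine Finset.sum_congr rfl fun k _ => ?_
    rw [Matrix.smul_mul]
    rfl
  simp only [clC, h1, Finset.sum_smul, Finset.smul_sum, smul_smul]
  have h2 : ∀ i : Fin n, (∑ j, ∑ k, (x k * (ρ k * cx qB⁻¹) i j) • (cx (B i) * cx (B j))) =
      ∑ k, ∑ j, (x k * (ρ k * cx qB⁻¹) i j) • (cx (B i) * cx (B j)) :=
    fun i => Finset.sum_comm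
  simp only [h2]
  rw [Finset.sum_comm]

theorem adjoin_cx {kk : Submodule ℚ (Matrix μ μ ℚ)} {x : Matrix μ μ ℚ}
    (hx : x ∈ Algebra.adjoin ℚ (kk : Set (Matrix μ μ ℚ))) :
    cx x ∈ Algebra.adjoin ℂ {Y : Matrix μ μ ℂ | ∃ Z ∈ kk, Y = cx Z} := by
  induction hx using Algebra.adjoin_induction with
  | mem x hx => exact Algebra.subset_adjoin ⟨x, hx, rfl⟩
  | algebraMap r =>
    have h : cx (algebraMap ℚ (Matrix μ μ ℚ) r) = algebraMap ℂ (Matrix μ μ ℂ) (r : ℂ) := by
      ext i j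
      by_cases hij : i = j
      · subst hij; simp [cx, Matrix.algebraMap_eq_diagonal]
      · simp [cx, Matrix.algebraMap_eq_diagonal, Matrix.diagonal_apply_ne _ hij]
    rw [h]
    exact Subalgebra.algebraMap_mem _ _
  | add x y _ _ hx hy =>
    rw [cx_add]
    exact Subalgebra.add_mem _ hx hy
  | mul x y _ _ hx hy =>
    rw [cx_mul]
    exact Subalgebra.mul_mem _ hx hy

/-- the images of complex infinitesimal isometries which commute with `E` -/
theorem clC_mem {kk : Submodule ℚ (Matrix μ μ ℚ)} {E : Set (Matrix (Fin n) (Fin n) ℚ)}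
    (h : ∀ ρ ∈ soE qB E, cli qB B ρ ∈ Algebra.adjoin ℚ (kk : Set (Matrix μ μ ℚ)))
    {ρ : Matrix (Fin n) (Fin n) ℂ} (h1 : ρᵀ * cx qB + cx qB * ρ = 0)
    (h2 : ∀ e ∈ E, ρ * cx e = cx e * ρ) :
    clC B qB ρ ∈ Algebra.adjoin ℂ {Y : Matrix μ μ ℂ | ∃ Z ∈ kk, Y = cx Z} := by
  obtain ⟨m, β, l, hρ⟩ := eq_sum ρ
  have h3 : ∀ l : QForm, ap l ρ ∈ soE qB E := by
    intro l
    refine ⟨?_, fun e he => ?_⟩
    · rw [← ap_transpose, ← mul_rat, ← rat_mul, ← ap_add, h1, ap_zero]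
    · rw [← mul_rat, ← rat_mul, h2 e he]
  rw [hρ, clC_sum]
  refine Subalgebra.sum_mem _ fun i _ => Subalgebra.smul_mem _ ?_ _
  rw [clC_cx]
  exact adjoin_cx (h _ (h3 (l i)))

omit [DecidableEq μ] [DecidableEq U] in
/-- `clC` of a matrix given in the basis `P` -/
theorem clC_conj (hdet : qB.det ≠ 0) (A : Matrix U U ℂ) :
    clC B qB (P * A * (Pᵀ * cx qB)) =
      ∑ u, ∑ v, A u v • (bl B (fun a => P a u) * bl B (fun a => P a v)) := by
  have h1 : cx qB * cx qB⁻¹ = 1 := by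
    rw [← cx_mul, Matrix.mul_nonsing_inv _ (isUnit_iff_ne_zero.2 hdet), cx_one]
  have h2 : P * A * (Pᵀ * cx qB) * cx qB⁻¹ = P * A * Pᵀ := by
    rw [Matrix.mul_assoc (P * A), Matrix.mul_assoc Pᵀ, h1, Matrix.mul_one]
  have h3 : ∀ i j, (P * A * Pᵀ) i j = ∑ u, ∑ v, A u v * (P i u * P j v) := by
    intro i j
    simp only [Matrix.mul_apply, Matrix.transpose_apply, Finset.sum_mul]
    rw [Finset.sum_comm]
    refine Finset.sum_congr rfl fun u _ => Finset.sum_congr rfl fun v _ => ?_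
    ring
  have h4 : ∀ u v, bl B (fun a => P a u) * bl B (fun a => P a v) =
      ∑ i, ∑ j, (P i u * P j v) • (cx (B i) * cx (B j)) := by
    intro u v
    rw [bl, bl, Finset.sum_mul]
    refine Finset.sum_congr rfl fun i _ => ?_
    rw [Finset.mul_sum]
    refine Finset.sum_congr rfl fun j _ => ?_
    rw [Matrix.smul_mul, Matrix.mul_smul, smul_smul]
  simp only [clC, h2, h3, h4, Finset.sum_smul, Finset.smul_sum, smul_smul]
  -- reorder the sums
  calc ∑ i, ∑ j, ∑ u, ∑ v, (A u v * (P i u * P j v)) • (cx (B i) * cx (B j))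
      = ∑ i, ∑ u, ∑ j, ∑ v, (A u v * (P i u * P j v)) • (cx (B i) * cx (B j)) :=
        Finset.sum_congr rfl fun i _ => Finset.sum_comm
    _ = ∑ u, ∑ i, ∑ j, ∑ v, (A u v * (P i u * P j v)) • (cx (B i) * cx (B j)) :=
        Finset.sum_comm
    _ = ∑ u, ∑ i, ∑ v, ∑ j, (A u v * (P i u * P j v)) • (cx (B i) * cx (B j)) :=
        Finset.sum_congr rfl fun u _ => Finset.sum_congr rfl fun i _ => Finset.sum_comm
    _ = ∑ u, ∑ v, ∑ i, ∑ j, (A u v * (P i u * P j v)) • (cx (B i) * cx (B j)) :=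
        Finset.sum_congr rfl fun u _ => Finset.sum_comm

/-- products of two Clifford operators with the same eigenvalues -/
theorem gam_mem {kk : Submodule ℚ (Matrix μ μ ℚ)} {E : Set (Matrix (Fin n) (Fin n) ℚ)}
    (hcl : ∀ i j, B i * B j + B j * B i = (2 * qB i j) • (1 : Matrix μ μ ℚ))
    (hsym : qBᵀ = qB) (hdet : qB.det ≠ 0) (hP : Pᵀ * cx qB * P = 1)
    (hP' : P * (Pᵀ * cx qB) = 1) (hs : 2 * (s * s) = 1)
    (h : ∀ ρ ∈ soE qB E, cli qB B ρ ∈ Algebra.adjoin ℚ (kk : Set (Matrix μ μ ℚ)))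
    {d : Matrix (Fin n) (Fin n) ℚ → U → ℂ} (hd : ∀ e ∈ E, cx e * P = P * Matrix.diagonal (d e))
    {u v : U} (huv : ∀ e ∈ E, d e u = d e v) :
    gam B P s u * gam B P s v ∈ Algebra.adjoin ℂ {Y : Matrix μ μ ℂ | ∃ Z ∈ kk, Y = cx Z} := by
  set A : Matrix U U ℂ := Matrix.single u v 1 - Matrix.single v u 1 with hA
  have hAt : Aᵀ = -A := by
    rw [hA, Matrix.transpose_sub, Matrix.transpose_single, Matrix.transpose_single, neg_sub]
  have hqt : (cx qB)ᵀ = cx qB := by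
    conv_rhs => rw [← hsym]
    rfl
  set Q := Pᵀ * cx qB with hQ
  have hQt : Qᵀ = cx qB * P := by
    rw [hQ, Matrix.transpose_mul, Matrix.transpose_transpose, hqt]
  have h1 : clC B qB (P * A * Q) ∈ Algebra.adjoin ℂ {Y : Matrix μ μ ℂ | ∃ Z ∈ kk, Y = cx Z} := by
    refine clC_mem h ?_ fun e he => ?_
    · have h2 : (P * A * Q)ᵀ * cx qB = -(cx qB * (P * A * Q)) := by
        rw [Matrix.transpose_mul (P * A) Q, hQt, Matrix.transpose_mul P A, hAt]
        rw [hQ]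
        simp only [Matrix.mul_assoc, Matrix.neg_mul, Matrix.mul_neg]
      rw [h2, neg_add_cancel]
    · have h2 : Q * cx e = Matrix.diagonal (d e) * Q := by
        have h3 : Q * cx e * (P * Q) = Q * P * Matrix.diagonal (d e) * Q := by
          rw [← Matrix.mul_assoc, Matrix.mul_assoc Q, hd e he]
          simp only [Matrix.mul_assoc]
        rw [hP', Matrix.mul_one] at h3
        rw [h3, show Q * P = 1 from hP, Matrix.one_mul]
      have h4 : A * Matrix.diagonal (d e) = Matrix.diagonal (d e) * A := by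
        ext x y
        rw [Matrix.mul_diagonal, Matrix.diagonal_mul, hA, Matrix.sub_apply,
          Matrix.single_apply, Matrix.single_apply]
        have h5 := huv e he
        split_ifs with h6 h7 h7
        · obtain ⟨rfl, rfl⟩ := h6
          rw [h5]; ring
        · obtain ⟨rfl, rfl⟩ := h6
          rw [h5]; ring
        · obtain ⟨rfl, rfl⟩ := h7
          rw [h5]; ring
        · ring
      rw [Matrix.mul_assoc (P * A), h2, ← Matrix.mul_assoc, Matrix.mul_assoc P, h4,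
        ← Matrix.mul_assoc P, ← hd e he]
      simp only [Matrix.mul_assoc]
  have h2 : clC B qB (P * A * Q) = bl B (fun a => P a u) * bl B (fun a => P a v) -
      bl B (fun a => P a v) * bl B (fun a => P a u) := by
    rw [clC_conj hdet]
    simp only [hA, Matrix.sub_apply, sub_smul, Finset.sum_sub_distrib, Matrix.single_apply,
      ite_smul, one_smul, zero_smul]
    congr 1
    · rw [Finset.sum_eq_single u, Finset.sum_eq_single v]
      · simp
      · intro b _ hb; simp [hb.symm]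
      · intro hb; exact absurd (Finset.mem_univ _) hb
      · intro b _ hb
        refine Finset.sum_eq_zero fun x _ => ?_
        simp [hb.symm]
      · intro hb; exact absurd (Finset.mem_univ _) hb
    · rw [Finset.sum_eq_single v, Finset.sum_eq_single u]
      · simp
      · intro b _ hb; simp [hb.symm]
      · intro hb; exact absurd (Finset.mem_univ _) hb
      · intro b _ hb
        refine Finset.sum_eq_zero fun x _ => ?_
        simp [hb.symm]
      · intro hb; exact absurd (Finset.mem_univ _) hb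
  have h3 := gam_anti (U := U) (P := P) hcl hP hs u v
  have h4 : gam B P s u * gam B P s v = (1 / 4 : ℂ) • clC B qB (P * A * Q) +
      (if u = v then (1 / 2 : ℂ) else 0) • (1 : Matrix μ μ ℂ) := by
    have h5 : gam B P s v * gam B P s u = (if u = v then (1 : Matrix μ μ ℂ) else 0) -
        gam B P s u * gam B P s v := by
      rw [← h3]
      abel
    have h6 : (1 / 2 : ℂ) • clC B qB (P * A * Q) =
        gam B P s u * gam B P s v - gam B P s v * gam B P s u := by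
      have h7 : (1 / 2 : ℂ) = s * s := by linear_combination (-1 / 2 : ℂ) * hs
      rw [h2, h7, smul_sub]
      simp only [gam, Matrix.smul_mul, Matrix.mul_smul, smul_smul]
    rw [h5] at h6
    have h7 : (1 / 4 : ℂ) • clC B qB (P * A * Q) =
        (1 / 2 : ℂ) • ((1 / 2 : ℂ) • clC B qB (P * A * Q)) := by
      rw [smul_smul]
      norm_num
    rw [h7, h6]
    have h8 : ((if u = v then (1 / 2 : ℂ) else 0) • (1 : Matrix μ μ ℂ)) =
        (1 / 2 : ℂ) • (if u = v then (1 : Matrix μ μ ℂ) else 0) := by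
      split_ifs <;> simp
    rw [h8, ← smul_add]
    have h9 : gam B P s u * gam B P s v -
        ((if u = v then (1 : Matrix μ μ ℂ) else 0) - gam B P s u * gam B P s v) +
        (if u = v then (1 : Matrix μ μ ℂ) else 0) = (2 : ℂ) • (gam B P s u * gam B P s v) := by
      rw [two_smul]
      abel
    rw [h9, smul_smul]
    norm_num
  rw [h4]
  exact Subalgebra.add_mem _ (Subalgebra.smul_mem _ h1 _)
    (Subalgebra.smul_mem _ (Subalgebra.one_mem _) _)


/-! ### Block decomposition -/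

variable {κ : Type} [Fintype κ] [DecidableEq κ] {m : κ → ℕ}
  {Ps : Matrix (Fin n) ((k : κ) × Fin (m k)) ℂ} {E : Set (Matrix (Fin n) (Fin n) ℚ)}
  {lam : Matrix (Fin n) (Fin n) ℚ → κ → ℂ}

/-- the blocks of the matrix of `ρ` in the basis given by the columns of `Ps` -/
noncomputable def bkk (qB : Matrix (Fin n) (Fin n) ℚ) (Ps : Matrix (Fin n) ((k : κ) × Fin (m k)) ℂ)
    (ρ : Matrix (Fin n) (Fin n) ℚ) (k : κ) : Matrix (Fin (m k)) (Fin (m k)) ℂ :=
  Matrix.blockDiag' (Psᵀ * cx qB * cx ρ * Ps) k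

theorem blk_spec (hS : Split qB E m Ps lam) {ρ : Matrix (Fin n) (Fin n) ℚ} (hρ : ρ ∈ soE qB E) :
    cx ρ * Ps = Ps * blockDiagonal' (bkk qB Ps ρ) ∧
      Ps * blockDiagonal' (bkk qB Ps ρ) * (Psᵀ * cx qB) = cx ρ := by
  set R := Psᵀ * cx qB * cx ρ * Ps with hR
  have hR1 : Ps * R = cx ρ * Ps := by
    rw [hR, ← Matrix.mul_assoc, ← Matrix.mul_assoc, hS.onto, Matrix.one_mul]
  have hblk : blockDiagonal' (bkk qB Ps ρ) = R := by
    ext u v
    rw [Matrix.blockDiagonal'_apply]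
    split_ifs with h
    · obtain ⟨k, i⟩ := u
      obtain ⟨l, j⟩ := v
      obtain rfl : k = l := h
      rfl
    · obtain ⟨e, he, hne⟩ := hS.sep u.1 v.1 h
      set D := Matrix.diagonal fun u : (k : κ) × Fin (m k) => lam e u.1 with hD
      have h1 : cx ρ * cx e = cx e * cx ρ := by
        rw [← cx_mul, ← cx_mul, hρ.2 e he]
      have h2 : R * D = D * R := by
        have heig : cx e * Ps = Ps * D := hS.eig e he
        have h3 : Ps * (R * D) = Ps * (D * R) := by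
          rw [← Matrix.mul_assoc, hR1, Matrix.mul_assoc, ← heig, ← Matrix.mul_assoc, h1,
            Matrix.mul_assoc, ← hR1, ← Matrix.mul_assoc, heig, Matrix.mul_assoc]
        have h4 : Psᵀ * cx qB * (Ps * (R * D)) = Psᵀ * cx qB * (Ps * (D * R)) := by rw [h3]
        rw [← Matrix.mul_assoc, hS.orth, Matrix.one_mul] at h4
        rw [h4, ← Matrix.mul_assoc, hS.orth, Matrix.one_mul]
      have h3 := congrFun (congrFun h2 u) v
      rw [hD, Matrix.mul_diagonal, Matrix.diagonal_mul] at h3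
      have h4 : (lam e u.1 - lam e v.1) * R u v = 0 := by linear_combination -h3
      exact ((mul_eq_zero.1 h4).resolve_left (sub_ne_zero.2 hne)).symm
  refine ⟨by rw [hblk, hR1], ?_⟩
  rw [hblk, hR1, Matrix.mul_assoc, hS.onto, Matrix.mul_one]

omit [Fintype κ] [DecidableEq κ] in
theorem blk_skew (hsym : qBᵀ = qB) {ρ : Matrix (Fin n) (Fin n) ℚ} (hρ : ρ ∈ soE qB E) (k : κ) :
    (bkk qB Ps ρ k)ᵀ = -bkk qB Ps ρ k := by
  have hqt : (cx qB)ᵀ = cx qB := by
    conv_rhs => rw [← hsym]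
    rfl
  have h1 : (cx ρ)ᵀ * cx qB = -(cx qB * cx ρ) := by
    have h2 := congrArg cx hρ.1
    rw [cx_add, cx_mul, cx_mul, cx_zero] at h2
    exact eq_neg_of_add_eq_zero_left h2
  have h2 : (Psᵀ * cx qB * cx ρ * Ps)ᵀ = -(Psᵀ * cx qB * cx ρ * Ps) := by
    rw [Matrix.transpose_mul, Matrix.transpose_mul, Matrix.transpose_mul,
      Matrix.transpose_transpose, hqt, ← Matrix.mul_assoc (cx ρ)ᵀ, h1]
    simp only [Matrix.mul_assoc, Matrix.neg_mul, Matrix.mul_neg]
  ext i j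
  exact congrFun (congrFun h2 ⟨k, i⟩) ⟨k, j⟩

omit [DecidableEq μ] in
/-- the commutator with the Clifford operators of one block -/
theorem blk_comm {s : ℂ} {Z : Matrix μ μ ℚ} {ρ : Matrix (Fin n) (Fin n) ℚ}
    (hS : Split qB E m Ps lam) (hρ : ρ ∈ soE qB E)
    (h : ∀ j, Z * B j - B j * Z = ∑ i, ρ i j • B i) (k : κ) (j : Fin (m k)) :
    cx Z * gam B Ps s ⟨k, j⟩ - gam B Ps s ⟨k, j⟩ * cx Z =
      ∑ i, bkk qB Ps ρ k i j • gam B Ps s ⟨k, i⟩ := by
  rw [gam_comm h (blk_spec hS hρ).1, Fintype.sum_sigma, Finset.sum_eq_single k]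
  · refine Finset.sum_congr rfl fun i _ => ?_
    rw [Matrix.blockDiagonal'_apply_eq]
  · intro l _ hl
    refine Finset.sum_eq_zero fun i _ => ?_
    rw [Matrix.blockDiagonal'_apply_ne _ _ _ hl, zero_smul]
  · intro hk
    exact absurd (Finset.mem_univ _) hk

theorem noInv_mono {d : ℕ} {S T : Set (Matrix (Fin d) (Fin d) ℂ)} (h : S ⊆ T) (hS : NoInv S) :
    NoInv T := fun j h1 h2 w hw hT => hS j h1 h2 w hw fun X hX => hT X (h hX)

theorem nl_mono {d d' : ℕ} {S T : Set (Matrix (Fin d) (Fin d) ℂ × Matrix (Fin d') (Fin d') ℂ)}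
    (h : S ⊆ T) (hS : NL S) : NL T := fun φ h1 h2 h3 => hS φ h1 h2 fun X hX => h3 X (h hX)

end KLieM

open KLieM KRatM in
theorem specKLie (hBic : SpecBic2) (hNI : SpecKNI) (hIso : SpecKIso) (hIrr : SpecKIrr)
    (hLnk : SpecKLnk) (hRep : SpecRep) (hGour : SpecGour) : SpecKLie := by
  intro g N n A c t qdR qB B E κ _ _ m P lam J ψ KS hS h3 h5 hHD hEnd L hL kk hsim hact hder X hX
  classical
  obtain ⟨s, hs⟩ : ∃ s : ℂ, 2 * (s * s) = 1 := by
    obtain ⟨s, hs⟩ := IsAlgClosed.exists_pow_nat_eq (1 / 2 : ℂ) (show 0 < 2 by norm_num)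
    exact ⟨s, by rw [← pow_two, hs]; norm_num⟩
  have hne : Nonempty (Ix g) := ⟨Sum.inl ⟨0, KS.pos⟩⟩
  have hQP : Pᵀ * cx qB * P = 1 := hS.orth
  -- the algebra generated by `kk`
  have hcli : ∀ ρ ∈ soE qB E, cli qB B ρ ∈
      Algebra.adjoin ℚ (kk : Set (Matrix (Ix g) (Ix g) ℚ)) := by
    intro ρ hρ
    refine hBic c J ψ hHD kk hsim hder _ fun Z hZ => ?_
    exact (KS.endA Z (hEnd Z hZ) ρ hρ).symm
  choose! rr hrr hrL hrB using hact
  -- the pairs
  let KK : Set (Matrix (Ix g) (Ix g) ℂ × ((k : κ) → Matrix (Fin (m k)) (Fin (m k)) ℂ)) :=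
    {p | ∃ Z ∈ kk, p = (cx Z, bkk qB P (rr Z))}
  let γ : (k : κ) → Fin (m k) → Matrix (Ix g) (Ix g) ℂ := fun k i => gam B P s ⟨k, i⟩
  have hfst : ∀ (T : Type) (F : ((k : κ) → Matrix (Fin (m k)) (Fin (m k)) ℂ) → T),
      Prod.fst '' ((fun p : Matrix (Ix g) (Ix g) ℂ × ((k : κ) →
        Matrix (Fin (m k)) (Fin (m k)) ℂ) => (p.1, F p.2)) '' KK) =
      {Y : Matrix (Ix g) (Ix g) ℂ | ∃ Z ∈ kk, Y = cx Z} := by
    intro T F
    ext Y
    constructor
    · rintro ⟨_, ⟨_, ⟨Z, hZ, rfl⟩, rfl⟩, rfl⟩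
      exact ⟨Z, hZ, rfl⟩
    · rintro ⟨Z, hZ, rfl⟩
      exact ⟨_, ⟨_, ⟨Z, hZ, rfl⟩, rfl⟩, rfl⟩
  have hCF : ∀ k, CF (γ k) ((fun p => (p.1, p.2 k)) '' KK) := by
    intro k
    refine ⟨fun i j => ?_, ?_, ?_, fun i j => ?_⟩
    · have h1 := gam_anti (P := P) KS.clifford hQP hs ⟨k, i⟩ ⟨k, j⟩
      rw [h1]
      by_cases hij : i = j
      · subst hij; simp
      · have : (⟨k, i⟩ : (k : κ) × Fin (m k)) ≠ ⟨k, j⟩ := fun h => hij (by simpa using h)
        rw [if_neg this, if_neg hij]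
    · rintro _ ⟨_, ⟨Z, hZ, rfl⟩, rfl⟩
      exact blk_skew KS.symm (hrr Z hZ) k
    · rintro _ ⟨_, ⟨Z, hZ, rfl⟩, rfl⟩ j
      exact blk_comm hS (hrr Z hZ) (hrB Z hZ) k j
    · rw [hfst _ fun p => p k]
      exact gam_mem KS.clifford KS.symm KS.det hQP hS.onto hs hcli
        (d := fun e u => lam e u.1) hS.eig (fun e _ => rfl)
  -- the Lie algebra of families
  let h : Submodule ℂ ((k : κ) → Matrix (Fin (m k)) (Fin (m k)) ℂ) :=
    { carrier := {X | (∀ k, (X k)ᵀ = -X k) ∧ P * blockDiagonal' X * (Pᵀ * cx qB) ∈ L}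
      add_mem' := by
        rintro X Y ⟨h1, h2⟩ ⟨h3, h4⟩
        refine ⟨fun k => ?_, ?_⟩
        · rw [Pi.add_apply, Matrix.transpose_add, h1, h3, neg_add]
        · rw [Matrix.blockDiagonal'_add, Matrix.mul_add, Matrix.add_mul]
          exact L.add_mem h2 h4
      zero_mem' := by
        refine ⟨fun k => ?_, ?_⟩
        · simp
        · rw [Matrix.blockDiagonal'_zero, Matrix.mul_zero, Matrix.zero_mul]
          exact L.zero_mem
      smul_mem' := by
        rintro a X ⟨h1, h2⟩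
        refine ⟨fun k => ?_, ?_⟩
        · rw [Pi.smul_apply, Matrix.transpose_smul, h1, smul_neg]
        · rw [Matrix.blockDiagonal'_smul, Matrix.mul_smul, Matrix.smul_mul]
          exact L.smul_mem _ h2 }
  have hbr : ∀ X ∈ h, ∀ Y ∈ h, (fun k => X k * Y k - Y k * X k) ∈ h := by
    rintro X ⟨h1, h2⟩ Y ⟨h3, h4⟩
    refine ⟨fun k => ?_, ?_⟩
    · rw [Matrix.transpose_sub, Matrix.transpose_mul, Matrix.transpose_mul, h1, h3,
        neg_mul_neg, neg_mul_neg, neg_sub]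
    · have h5 : (fun k => X k * Y k - Y k * X k) = (fun k => X k * Y k) - fun k => Y k * X k := rfl
      have h6 : ∀ M M' : Matrix ((k : κ) × Fin (m k)) ((k : κ) × Fin (m k)) ℂ,
          P * (M * M') * (Pᵀ * cx qB) = P * M * (Pᵀ * cx qB) * (P * M' * (Pᵀ * cx qB)) := by
        intro M M'
        have h7 : P * M * (Pᵀ * cx qB) * (P * M' * (Pᵀ * cx qB)) =
            P * M * (Pᵀ * cx qB * P) * M' * (Pᵀ * cx qB) := by
          simp only [Matrix.mul_assoc]
        rw [h7, hQP, Matrix.mul_one]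
        simp only [Matrix.mul_assoc]
      rw [h5, Matrix.blockDiagonal'_sub, Matrix.blockDiagonal'_mul, Matrix.blockDiagonal'_mul,
        Matrix.mul_sub, Matrix.sub_mul, h6, h6]
      exact hL _ h2 _ h4
  have hKh : ∀ p ∈ KK, p.2 ∈ h := by
    rintro _ ⟨Z, hZ, rfl⟩
    refine ⟨fun k => blk_skew KS.symm (hrr Z hZ) k, ?_⟩
    rw [(blk_spec hS (hrr Z hZ)).2]
    exact hrL Z hZ
  refine (hGour ℂ κ m h3 h (fun X hX => hX.1) hbr ?_ ?_ X hX).2
  · intro k Y hY
    have hsub : Prod.snd '' ((fun p : Matrix (Ix g) (Ix g) ℂ × ((k : κ) →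
        Matrix (Fin (m k)) (Fin (m k)) ℂ) => (p.1, p.2 k)) '' KK) ⊆
        (h.map (LinearMap.proj k) : Submodule ℂ (Matrix (Fin (m k)) (Fin (m k)) ℂ)) := by
      rintro _ ⟨_, ⟨p, hp, rfl⟩, rfl⟩
      exact ⟨p.2, hKh p hp, rfl⟩
    have hno := hNI (Ix g) (m k) (γ k) _ (hCF k)
    have hmem := hRep ℂ (m k) (h3 k) (h5 k) (h.map (LinearMap.proj k)) ?_ ?_ ?_
      (noInv_mono hsub hno) Y hY
    · obtain ⟨X, hXh, hXk⟩ := hmem
      exact ⟨X, hXh, hXk⟩
    · rintro _ ⟨X, hX, rfl⟩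
      exact hX.1 k
    · rintro _ ⟨X, hX, rfl⟩ _ ⟨X', hX', rfl⟩
      exact ⟨_, hbr X hX X' hX', rfl⟩
    · intro W hW
      refine hIrr (m k) _ ?_ hno ?_ W fun X hX v hv => hW X (hsub hX) v hv
      · rintro _ ⟨p, hp, rfl⟩
        exact (hCF k).skew p hp
      · intro W hW hiso
        exact hIso (Ix g) (m k) (γ k) _ (h3 k) (hCF k) W
          (fun p hp v hv => hW p.2 ⟨p, hp, rfl⟩ v hv) hiso
  · intro k l hkl
    have h1 := hLnk (Ix g) (m k) (m l) (γ k) (γ l) ((fun p => (p.1, (p.2 k, p.2 l))) '' KK)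
      (h3 k) (fun i j => ?_) ?_ (hCF l).cl ?_ ?_
    · refine nl_mono ?_ h1
      rintro _ ⟨_, ⟨p, hp, rfl⟩, rfl⟩
      exact ⟨p.2, hKh p hp, rfl⟩
    · have h2 := gam_anti (P := P) KS.clifford hQP hs ⟨k, i⟩ ⟨l, j⟩
      have h4 : (⟨k, i⟩ : (k : κ) × Fin (m k)) ≠ ⟨l, j⟩ := fun h => hkl (congrArg Sigma.fst h)
      rw [if_neg h4] at h2
      exact h2
    · have h2 : ((fun X : Matrix (Ix g) (Ix g) ℂ × (Matrix (Fin (m k)) (Fin (m k)) ℂ ×
          Matrix (Fin (m l)) (Fin (m l)) ℂ) => (X.1, X.2.1)) ''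
          ((fun p : Matrix (Ix g) (Ix g) ℂ × ((k : κ) → Matrix (Fin (m k)) (Fin (m k)) ℂ) =>
            (p.1, (p.2 k, p.2 l))) '' KK)) = ((fun p => (p.1, p.2 k)) '' KK) := by
        rw [Set.image_image]
      rw [h2]
      exact hCF k
    · rintro _ ⟨p, hp, rfl⟩
      exact (hCF l).skew _ ⟨p, hp, rfl⟩
    · rintro _ ⟨p, hp, rfl⟩ j
      exact (hCF l).act _ ⟨p, hp, rfl⟩ j

end Pool.Agent.Lib.MPf11a48.K3
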