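import Pool.Agent.Lib.MP_f11a48_ag.K3.KStmt2
import Pool.Agent.Lib.MP_f11a48_ag.K3.KSpec

/-!
# Orthogonal de Rham-Betti objects with a Kuga-Satake variety: specifications, with Tate twists
-/

set_option autoImplicit false

namespace Pool.Agent.Lib.MPf11a48.K3

open Matrix MvPolynomial Pool.Agent.Lib.MPf11a48.Tors
open Pool.Agent.Lib.MPf11a48.CM hiding OmegaM
open Pool.Agent.Lib.MPf11a48.GL2 (lie)
open Pool.Agent.Lib.MPf11a48.U (AbData Ix HD EndAlg)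

/-- the block diagonal matrix with blocks `ρ` and `m` -/
def lb {n : ℕ} (ρ : Matrix (Fin n) (Fin n) ℂ) (m : ℂ) : Matrix (Fin n ⊕ Unit) (Fin n ⊕ Unit) ℂ :=
  fromBlocks ρ 0 0 (of fun _ _ => m)

theorem lb_mul {n : ℕ} (ρ ρ' : Matrix (Fin n) (Fin n) ℂ) (m m' : ℂ) :
    lb ρ m * lb ρ' m' = lb (ρ * ρ') (m * m') := by
  unfold lb
  rw [fromBlocks_multiply]
  simp only [Matrix.mul_zero, Matrix.zero_mul, add_zero, zero_add]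
  congr 1
  ext i j
  simp [Matrix.mul_apply]

theorem lb_one {n : ℕ} : lb (1 : Matrix (Fin n) (Fin n) ℂ) 1 = 1 := by
  ext i j
  rcases i with i | i <;> rcases j with j | j <;> simp [lb, Matrix.one_apply]

/-- the point `(f, z)` of `GL_n × G_m` as a block diagonal matrix -/
noncomputable def bd {n : ℕ} : GL (Fin n) ℂ × ℂˣ →* GL (Fin n ⊕ Unit) ℂ where
  toFun x := ⟨lb x.1.1 x.2, lb x.1⁻¹.1 ((x.2⁻¹ : ℂˣ) : ℂ), by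
    rw [lb_mul, x.1.mul_inv, x.2.mul_inv, lb_one], by
    rw [lb_mul, x.1.inv_mul, x.2.inv_mul, lb_one]⟩
  map_one' := Units.ext lb_one
  map_mul' x y := Units.ext (by
    change lb (x.1.1 * y.1.1) ((x.2 : ℂ) * (y.2 : ℂ)) = lb x.1.1 x.2 * lb y.1.1 y.2
    rw [lb_mul])

theorem bd_val {n : ℕ} (x : GL (Fin n) ℂ × ℂˣ) : (bd x).1 = lb x.1.1 x.2 := rfl

/-- KRAT2: rational Lie algebra elements (instead of KRAT) -/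
def SpecKRat2 : Prop :=
  ∀ (g N n : ℕ) (A : AbData g N) (c : GL (Ix g) ℂ) (t : GL (Fin n) ℂ)
    (qdR : Matrix (Fin n) (Fin n) ℂ) (qB : Matrix (Fin n) (Fin n) ℚ)
    (B : Fin n → Matrix (Ix g) (Ix g) ℚ) (E : Set (Matrix (Fin n) (Fin n) ℚ))
    (J : Matrix (Ix g) (Ix g) ℝ) (ψ : Matrix (Ix g) (Ix g) ℚ),
    KugaSatake A c t qdR qB B E → HD c J ψ → ∀ T : Set (GL (Fin n ⊕ Unit) ℂ), IsTorsor Qbar T →
    bd (t, tpi) ∈ T → ClosedOver ⊥ (grp T) →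
    ∃ kk : Submodule ℚ (Matrix (Ix g) (Ix g) ℚ),
      (∀ Z ∈ kk, ∃ (m : ℚ) (ρ : Matrix (Fin n) (Fin n) ℚ), Zᵀ * ψ + ψ * Z = m • ψ ∧
        ρ ∈ soE qB E ∧ lb (cx ρ) m ∈ lie T ∧ ∀ j, Z * B j - B j * Z = ∑ i, ρ i j • B i) ∧
      ∀ δ : Derivation Qbar ℂ ℂ, c.1.map δ * c⁻¹.1 ∈
        Submodule.span ℂ {Y : Matrix (Ix g) (Ix g) ℂ | ∃ Z ∈ kk, Y = cx Z}

/-- KLIE: the Lie algebra part (instead of KFULL) -/
def SpecKLie : Prop :=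
  ∀ (g N n : ℕ) (A : AbData g N) (c : GL (Ix g) ℂ) (t : GL (Fin n) ℂ)
    (qdR : Matrix (Fin n) (Fin n) ℂ) (qB : Matrix (Fin n) (Fin n) ℚ)
    (B : Fin n → Matrix (Ix g) (Ix g) ℚ) (E : Set (Matrix (Fin n) (Fin n) ℚ))
    (κ : Type) [Fintype κ] [DecidableEq κ] (m : κ → ℕ)
    (P : Matrix (Fin n) ((k : κ) × Fin (m k)) ℂ) (lam : Matrix (Fin n) (Fin n) ℚ → κ → ℂ)
    (J : Matrix (Ix g) (Ix g) ℝ) (ψ : Matrix (Ix g) (Ix g) ℚ),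
    KugaSatake A c t qdR qB B E → Split qB E m P lam → (∀ k, 3 ≤ m k) → (∀ k, m k ≠ 5) →
    HD c J ψ → (∀ Z ∈ EndAlg c.1, A.IsEndo Z) →
    ∀ L : Submodule ℂ (Matrix (Fin n) (Fin n) ℂ), (∀ X ∈ L, ∀ Y ∈ L, X * Y - Y * X ∈ L) →
    ∀ kk : Submodule ℚ (Matrix (Ix g) (Ix g) ℚ), (∀ Z ∈ kk, ∃ m : ℚ, Zᵀ * ψ + ψ * Z = m • ψ) →
    (∀ Z ∈ kk, ∃ ρ ∈ soE qB E, cx ρ ∈ L ∧ ∀ j, Z * B j - B j * Z = ∑ i, ρ i j • B i) →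
    (∀ δ : Derivation Qbar ℂ ℂ, c.1.map δ * c⁻¹.1 ∈
      Submodule.span ℂ {Y : Matrix (Ix g) (Ix g) ℂ | ∃ Z ∈ kk, Y = cx Z}) →
    ∀ X : (k : κ) → Matrix (Fin (m k)) (Fin (m k)) ℂ, (∀ k, (X k)ᵀ = -X k) →
      P * blockDiagonal' X * (Pᵀ * cx qB) ∈ L

/-- KFULL2 -/
def SpecKFull2 : Prop :=
  ∀ (g N n : ℕ) (A : AbData g N) (c : GL (Ix g) ℂ) (t : GL (Fin n) ℂ)
    (qdR : Matrix (Fin n) (Fin n) ℂ) (qB : Matrix (Fin n) (Fin n) ℚ)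
    (B : Fin n → Matrix (Ix g) (Ix g) ℚ) (E : Set (Matrix (Fin n) (Fin n) ℚ))
    (κ : Type) [Fintype κ] [DecidableEq κ] (m : κ → ℕ)
    (P : Matrix (Fin n) ((k : κ) × Fin (m k)) ℂ) (lam : Matrix (Fin n) (Fin n) ℚ → κ → ℂ),
    KugaSatake A c t qdR qB B E → Split qB E m P lam → (∀ k, 3 ≤ m k) → (∀ k, m k ≠ 5) →
    ∀ T : Set (GL (Fin n ⊕ Unit) ℂ), IsTorsor Qbar T → bd (t, tpi) ∈ T → ClosedOver ⊥ (grp T) →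
    (∀ X : (k : κ) → Matrix (Fin (m k)) (Fin (m k)) ℂ, (∀ k, (X k)ᵀ = -X k) →
      lb (P * blockDiagonal' X * (Pᵀ * cx qB)) 0 ∈ lie T) ∧ lb 0 1 ∈ lie T

/-- KGRP2: every torsor with group over `ℚ` contains `soTorsor × G_m` -/
def SpecKGrp2 : Prop :=
  ∀ (g N n : ℕ) (A : AbData g N) (c : GL (Ix g) ℂ) (t : GL (Fin n) ℂ)
    (qdR : Matrix (Fin n) (Fin n) ℂ) (qB : Matrix (Fin n) (Fin n) ℚ)
    (B : Fin n → Matrix (Ix g) (Ix g) ℚ) (E : Set (Matrix (Fin n) (Fin n) ℚ))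
    (κ : Type) [Fintype κ] [DecidableEq κ] (m : κ → ℕ)
    (P : Matrix (Fin n) ((k : κ) × Fin (m k)) ℂ) (lam : Matrix (Fin n) (Fin n) ℚ → κ → ℂ),
    KugaSatake A c t qdR qB B E → Split qB E m P lam → (∀ k, 3 ≤ m k) → (∀ k, m k ≠ 5) →
    ∀ T : Set (GL (Fin n ⊕ Unit) ℂ), IsTorsor Qbar T → bd (t, tpi) ∈ T → ClosedOver ⊥ (grp T) →
    ∀ x ∈ soTorsor t qB m P, ∀ z : ℂˣ, bd (x, z) ∈ T

/-- KTEN2: the general theorem, with Tate twists -/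
def SpecKTen2 : Prop :=
  ∀ (g N n : ℕ) (A : AbData g N) (c : GL (Ix g) ℂ) (t : GL (Fin n) ℂ)
    (qdR : Matrix (Fin n) (Fin n) ℂ) (qB : Matrix (Fin n) (Fin n) ℚ)
    (B : Fin n → Matrix (Ix g) (Ix g) ℚ) (E : Set (Matrix (Fin n) (Fin n) ℚ))
    (κ : Type) [Fintype κ] [DecidableEq κ] (m : κ → ℕ)
    (P : Matrix (Fin n) ((k : κ) × Fin (m k)) ℂ) (lam : Matrix (Fin n) (Fin n) ℚ → κ → ℂ),
    KugaSatake A c t qdR qB B E → Split qB E m P lam → (∀ k, 3 ≤ m k) → (∀ k, m k ≠ 5) →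
    ∀ (K : IntermediateField ℚ ℂ) (ι : Type) [Fintype ι] [DecidableEq ι]
      (Φ : GL (Fin n) ℂ × ℂˣ → GL ι ℂ), K ≤ Qbar → IsTens Φ →
      (∀ x ∈ soTorsor t qB m P, ∀ z f, Conj K (Φ (x, z)) f → f ∈ OmegaDRB K (Φ (t, tpi))) ∧
      ∀ S : Set (TPair K ι), (∀ α ∈ S, Fixes (Φ (t, tpi)) α) →
        (∀ f ∈ OmegaS S, ∃ x ∈ soTorsor t qB m P, ∃ z, Conj K (Φ (x, z)) f) →
        OmegaDRB K (Φ (t, tpi)) = OmegaS S ∧ (K = ⊥ → OmegaM K (Φ (t, tpi)) = OmegaS S)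

end Pool.Agent.Lib.MPf11a48.K3
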