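import Pool.Agent.Lib.MP_f11a48_ag.K3.KStmt3
import Pool.Agent.Lib.MP_f11a48_ag.K3.KSpec2
import Pool.Agent.Lib.MP_f11a48_ag.K3.KLie

/-!
# Kuga-Satake varieties: specifications for the objects built from `h^1(A)`, `T`, `ℚ(-1)`
-/

set_option autoImplicit false

namespace Pool.Agent.Lib.MPf11a48.K3

open Matrix MvPolynomial Pool.Agent.Lib.MPf11a48.Tors
open Pool.Agent.Lib.MPf11a48.CM hiding OmegaM
open Pool.Agent.Lib.MPf11a48.GL2 (lie)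
open Pool.Agent.Lib.MPf11a48.U (AbData Ix HD EndAlg)
open KLieM (clC)

/-- the block diagonal matrix with blocks `Z`, `ρ` and `m` -/
def lb3 {g n : ℕ} (Z : Matrix (Ix g) (Ix g) ℂ) (ρ : Matrix (Fin n) (Fin n) ℂ) (m : ℂ) :
    Matrix (Ix g ⊕ (Fin n ⊕ Unit)) (Ix g ⊕ (Fin n ⊕ Unit)) ℂ :=
  fromBlocks Z 0 0 (lb ρ m)

theorem lb3_mul {g n : ℕ} (Z Z' : Matrix (Ix g) (Ix g) ℂ) (ρ ρ' : Matrix (Fin n) (Fin n) ℂ)
    (m m' : ℂ) : lb3 Z ρ m * lb3 Z' ρ' m' = lb3 (Z * Z') (ρ * ρ') (m * m') := by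
  unfold lb3
  rw [fromBlocks_multiply, lb_mul]
  simp only [Matrix.mul_zero, Matrix.zero_mul, add_zero, zero_add]

theorem lb3_one {g n : ℕ} : lb3 (1 : Matrix (Ix g) (Ix g) ℂ) (1 : Matrix (Fin n) (Fin n) ℂ) 1 = 1 := by
  unfold lb3
  rw [lb_one, fromBlocks_one]

/-- the point `(a, f, z)` of `GL_{2g} × GL_n × G_m` as a block diagonal matrix -/
noncomputable def bd3 {g n : ℕ} : Grp3 g n →* GL (Ix g ⊕ (Fin n ⊕ Unit)) ℂ where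
  toFun y := ⟨lb3 y.1.1 y.2.1.1 y.2.2, lb3 y.1⁻¹.1 y.2.1⁻¹.1 ((y.2.2⁻¹ : ℂˣ) : ℂ), by
    rw [lb3_mul, y.1.mul_inv, y.2.1.mul_inv, y.2.2.mul_inv, lb3_one], by
    rw [lb3_mul, y.1.inv_mul, y.2.1.inv_mul, y.2.2.inv_mul, lb3_one]⟩
  map_one' := Units.ext lb3_one
  map_mul' x y := Units.ext (by
    change lb3 (x.1.1 * y.1.1) (x.2.1.1 * y.2.1.1) ((x.2.2 : ℂ) * (y.2.2 : ℂ)) =
      lb3 x.1.1 x.2.1.1 x.2.2 * lb3 y.1.1 y.2.1.1 y.2.2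
    rw [lb3_mul])

theorem bd3_val {g n : ℕ} (y : Grp3 g n) : (bd3 y).1 = lb3 y.1.1 y.2.1.1 y.2.2 := rfl

/-- KRAT3: rational Lie algebra elements (as KRAT2, with `h^1(A)`) -/
def SpecKRat3 : Prop :=
  ∀ (g N n : ℕ) (A : AbData g N) (c : GL (Ix g) ℂ) (t : GL (Fin n) ℂ)
    (qdR : Matrix (Fin n) (Fin n) ℂ) (qB : Matrix (Fin n) (Fin n) ℚ)
    (B : Fin n → Matrix (Ix g) (Ix g) ℚ) (E : Set (Matrix (Fin n) (Fin n) ℚ))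
    (J : Matrix (Ix g) (Ix g) ℝ) (ψ : Matrix (Ix g) (Ix g) ℚ),
    KugaSatake A c t qdR qB B E → HD c J ψ →
    ∀ T : Set (GL (Ix g ⊕ (Fin n ⊕ Unit)) ℂ), IsTorsor Qbar T →
    bd3 (c, t, tpi) ∈ T → ClosedOver ⊥ (grp T) →
    ∃ kk : Submodule ℚ (Matrix (Ix g) (Ix g) ℚ),
      (∀ Z ∈ kk, ∃ (m : ℚ) (ρ : Matrix (Fin n) (Fin n) ℚ), Zᵀ * ψ + ψ * Z = m • ψ ∧
        ρ ∈ soE qB E ∧ lb3 (cx Z) (cx ρ) m ∈ lie T ∧ (∀ j, Z * B j - B j * Z = ∑ i, ρ i j • B i) ∧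
        ∀ Z₀ ∈ EndAlg c.1, Z * Z₀ = Z₀ * Z) ∧
      ∀ δ : Derivation Qbar ℂ ℂ, c.1.map δ * c⁻¹.1 ∈
        Submodule.span ℂ {Y : Matrix (Ix g) (Ix g) ℂ | ∃ Z ∈ kk, Y = cx Z}

/-- KSCL: a matrix which commutes with all Clifford operators, and with everything which commutes
with the products of two Clifford operators in the same block, is a scalar. -/
def SpecKScl : Prop :=
  ∀ (ι : Type) [Fintype ι] [DecidableEq ι] (κ : Type) [Fintype κ] [DecidableEq κ] (m : κ → ℕ)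
    (γ : (k : κ) × Fin (m k) → Matrix ι ι ℂ),
    (∀ u v, γ u * γ v + γ v * γ u = if u = v then 1 else 0) → ∀ X : Matrix ι ι ℂ,
    (∀ u, X * γ u = γ u * X) →
    (∀ Y : Matrix ι ι ℂ, (∀ k a b, Y * (γ ⟨k, a⟩ * γ ⟨k, b⟩) = γ ⟨k, a⟩ * γ ⟨k, b⟩ * Y) →
      X * Y = Y * X) → ∃ s : ℂ, X = s • (1 : Matrix ι ι ℂ)

/-- KSC: the same for the operators `B` and rational `Z` (from KSCL) -/
def SpecKSc : Prop :=
  ∀ (g N n : ℕ) (A : AbData g N) (c : GL (Ix g) ℂ) (t : GL (Fin n) ℂ)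
    (qdR : Matrix (Fin n) (Fin n) ℂ) (qB : Matrix (Fin n) (Fin n) ℚ)
    (B : Fin n → Matrix (Ix g) (Ix g) ℚ) (E : Set (Matrix (Fin n) (Fin n) ℚ))
    (κ : Type) [Fintype κ] [DecidableEq κ] (m : κ → ℕ)
    (P : Matrix (Fin n) ((k : κ) × Fin (m k)) ℂ) (lam : Matrix (Fin n) (Fin n) ℚ → κ → ℂ),
    KugaSatake A c t qdR qB B E → Split qB E m P lam → ∀ b : Matrix (Ix g) (Ix g) ℂ,
    (∀ j, b * cx (B j) = cx (B j) * b) →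
    (∀ Z : Matrix (Ix g) (Ix g) ℚ, (∀ ρ ∈ soE qB E, Z * cli qB B ρ = cli qB B ρ * Z) →
      b * cx Z = cx Z * b) → ∃ s : ℂ, b = s • (1 : Matrix (Ix g) (Ix g) ℂ)

/-- KFULL3: the Lie algebra of a torsor through `(c, t, 2 π i)` -/
def SpecKFull3 : Prop :=
  ∀ (g N n : ℕ) (A : AbData g N) (c : GL (Ix g) ℂ) (t : GL (Fin n) ℂ)
    (qdR : Matrix (Fin n) (Fin n) ℂ) (qB : Matrix (Fin n) (Fin n) ℚ)
    (B : Fin n → Matrix (Ix g) (Ix g) ℚ) (E : Set (Matrix (Fin n) (Fin n) ℚ))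
    (κ : Type) [Fintype κ] [DecidableEq κ] (m : κ → ℕ)
    (P : Matrix (Fin n) ((k : κ) × Fin (m k)) ℂ) (lam : Matrix (Fin n) (Fin n) ℚ → κ → ℂ),
    KugaSatake A c t qdR qB B E → EndFull c qB B E → Split qB E m P lam → (∀ k, 3 ≤ m k) →
    (∀ k, m k ≠ 5) →
    ∀ T : Set (GL (Ix g ⊕ (Fin n ⊕ Unit)) ℂ), IsTorsor Qbar T → bd3 (c, t, tpi) ∈ T →
    ClosedOver ⊥ (grp T) →
    (∀ X : (k : κ) → Matrix (Fin (m k)) (Fin (m k)) ℂ, (∀ k, (X k)ᵀ = -X k) →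
      ∀ ρ, ρ = P * blockDiagonal' X * (Pᵀ * cx qB) →
        lb3 ((4 : ℂ)⁻¹ • clC B qB ρ) ρ 0 ∈ lie T ∧
        (clC B qB ρ)ᵀ * cx A.psi + cx A.psi * clC B qB ρ = 0 ∧
        ∀ Z ∈ EndAlg c.1, clC B qB ρ * cx Z = cx Z * clC B qB ρ) ∧
    lb3 ((2 : ℂ)⁻¹ • 1) 0 1 ∈ lie T

/-- KCUR: lifting integral curves to the spin group -/
def SpecKCur : Prop :=
  ∀ (g n : ℕ) (qB : Matrix (Fin n) (Fin n) ℚ) (B : Fin n → Matrix (Ix g) (Ix g) ℚ)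
    (ψ : Matrix (Ix g) (Ix g) ℚ) (ρ : Matrix (Fin n) (Fin n) ℂ), qBᵀ = qB → qB.det ≠ 0 →
    (∀ i j, B i * B j + B j * B i = (2 * qB i j) • (1 : Matrix (Ix g) (Ix g) ℚ)) →
    ρᵀ * cx qB + cx qB * ρ = 0 → (clC B qB ρ)ᵀ * cx ψ + cx ψ * clC B qB ρ = 0 →
    ∀ x : ℂ → GL (Fin n) ℂ, x 0 = 1 →
    (∀ s i j, HasDerivAt (fun s => (x s).1 i j) ((ρ * (x s).1) i j) s) →
    ∃ a : ℂ → GL (Ix g) ℂ, a 0 = 1 ∧
      (∀ s i j, HasDerivAt (fun s => (a s).1 i j)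
        ((((4 : ℂ)⁻¹ • clC B qB ρ) * (a s).1) i j) s) ∧
      ∀ s, (∀ j, (a s).1 * cx (B j) = (∑ i, (x s).1 i j • cx (B i)) * (a s).1) ∧
        (∀ Z : Matrix (Ix g) (Ix g) ℂ, clC B qB ρ * Z = Z * clC B qB ρ →
          (a s).1 * Z = Z * (a s).1) ∧
        (a s).1ᵀ * cx ψ * (a s).1 = cx ψ

/-- KGRP3: every torsor with group over `ℚ` through `(c, t, 2 π i)` contains
`gspin (c, t, 2 π i)` -/
def SpecKGrp3 : Prop :=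
  ∀ (g N n : ℕ) (A : AbData g N) (c : GL (Ix g) ℂ) (t : GL (Fin n) ℂ)
    (qdR : Matrix (Fin n) (Fin n) ℂ) (qB : Matrix (Fin n) (Fin n) ℚ)
    (B : Fin n → Matrix (Ix g) (Ix g) ℚ) (E : Set (Matrix (Fin n) (Fin n) ℚ))
    (κ : Type) [Fintype κ] [DecidableEq κ] (m : κ → ℕ)
    (P : Matrix (Fin n) ((k : κ) × Fin (m k)) ℂ) (lam : Matrix (Fin n) (Fin n) ℚ → κ → ℂ),
    KugaSatake A c t qdR qB B E → EndFull c qB B E → Split qB E m P lam → (∀ k, 3 ≤ m k) →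
    (∀ k, m k ≠ 5) →
    ∀ T : Set (GL (Ix g ⊕ (Fin n ⊕ Unit)) ℂ), IsTorsor Qbar T → bd3 (c, t, tpi) ∈ T →
    ClosedOver ⊥ (grp T) → ∀ y ∈ gspin A c qB B m P, bd3 (y * (c, t, tpi)) ∈ T

/-- KTEN3: the general theorem -/
def SpecKTen3 : Prop :=
  ∀ (g N n : ℕ) (A : AbData g N) (c : GL (Ix g) ℂ) (t : GL (Fin n) ℂ)
    (qdR : Matrix (Fin n) (Fin n) ℂ) (qB : Matrix (Fin n) (Fin n) ℚ)
    (B : Fin n → Matrix (Ix g) (Ix g) ℚ) (E : Set (Matrix (Fin n) (Fin n) ℚ))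
    (κ : Type) [Fintype κ] [DecidableEq κ] (m : κ → ℕ)
    (P : Matrix (Fin n) ((k : κ) × Fin (m k)) ℂ) (lam : Matrix (Fin n) (Fin n) ℚ → κ → ℂ),
    KugaSatake A c t qdR qB B E → EndFull c qB B E → Split qB E m P lam → (∀ k, 3 ≤ m k) →
    (∀ k, m k ≠ 5) →
    ∀ (K : IntermediateField ℚ ℂ) (ι : Type) [Fintype ι] [DecidableEq ι]
      (Φ : Grp3 g n → GL ι ℂ), K ≤ Qbar → IsTens3 Φ →
      (∀ y ∈ gspin A c qB B m P, ∀ f, Conj K (Φ (y * (c, t, tpi))) f →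
        f ∈ OmegaDRB K (Φ (c, t, tpi))) ∧
      ∀ S : Set (TPair K ι), (∀ α ∈ S, Fixes (Φ (c, t, tpi)) α) →
        (∀ f ∈ OmegaS S, ∃ y ∈ gspin A c qB B m P, Conj K (Φ (y * (c, t, tpi))) f) →
        OmegaDRB K (Φ (c, t, tpi)) = OmegaS S ∧
          (K = ⊥ → OmegaM K (Φ (c, t, tpi)) = OmegaS S)

/-- KEX2: the case of `T(-w)` over `K`, `E = ∅` -/
def SpecKEx2 : Prop :=
  ∀ (g N n : ℕ) (A : AbData g N) (c : GL (Ix g) ℂ) (t : GL (Fin n) ℂ)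
    (K : IntermediateField ℚ ℂ) (qdR : Matrix (Fin n) (Fin n) K) (qB : Matrix (Fin n) (Fin n) ℚ)
    (B : Fin n → Matrix (Ix g) (Ix g) ℚ), K ≤ Qbar →
    KugaSatake A c t (qdR.map fun x => (x : ℂ)) qB B ∅ → 3 ≤ n → n ≠ 5 →
    ∀ (w : ℤ) (M : GL (Fin n) ℂ), M.1 = ((2 * Real.pi * Complex.I) ^ w : ℂ) • t.1 →
    OmegaDRB K M = {f | ∃ z : ℂˣ,
      f.1ᵀ * cx qB * f.1 = ((z : ℂ) ^ (2 * w)) • qdR.map (fun x => (x : ℂ)) ∧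
      (t.1.det ∈ K → f.1.det = (z : ℂ) ^ (n * w) * t.1.det)} ∧
    (K = ⊥ → OmegaM K M = OmegaDRB K M) ∧
    (w = 0 → ∀ S : Set (TPair K (Fin n)), (∀ α ∈ S, Fixes M α) → formPair qdR qB ∈ S →
      (∀ δ : K, t.1.det = δ → detPair δ ∈ S) → OmegaDRB K M = OmegaS S)

end Pool.Agent.Lib.MPf11a48.K3
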