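import Pool.Agent.Lib.MP_f11a48_ag.K3.KStmt2
import Pool.Agent.Lib.MP_f11a48_ag.U.StatementL

/-!
# Objects built from a Kuga-Satake variety, its orthogonal object and the Tate object
-/

set_option autoImplicit false

namespace Pool.Agent.Lib.MPf11a48.K3

open Matrix MvPolynomial Pool.Agent.Lib.MPf11a48.CM Pool.Agent.Lib.MPf11a48.GL2T
open Pool.Agent.Lib.MPf11a48.U (AbData Ix EndAlg)

/-- The group `GL_{2g} × GL_n × G_m`. -/
abbrev Grp3 (g n : ℕ) : Type := GL (Ix g) ℂ × GL (Fin n) ℂ × ℂˣ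

/-- Indices for the coordinates of `GL_{2g} × GL_n × G_m`. -/
abbrev Var3 (g n : ℕ) : Type := (Ix g × Ix g ⊕ Ix g × Ix g) ⊕ Var2 n

/-- The coordinates of the point `(a, f, z)` of `GL_{2g} × GL_n × G_m`: the entries of `a`, `a⁻¹`,
`f` and `f⁻¹`, and `z`, `1 / z`. -/
noncomputable def crd3 {g n : ℕ} (y : Grp3 g n) : Var3 g n → ℂ :=
  Sum.elim (Sum.elim (fun e => y.1.1 e.1 e.2) fun e => y.1⁻¹.1 e.1 e.2) (crd y.2)

/-- `Φ : GL_{2g} × GL_n × G_m → GL_ι` is a morphism of torsors over `Qbar`, and the corresponding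
homomorphism of groups `y ↦ Φ(y) Φ(1)⁻¹` is defined over `ℚ`. (If `c`, `t` are the period matrices
of `h^1(A)` and `T` this means that `Φ(c, t, 2 π i)` is the period matrix of an object obtained from
`h^1(A)`, `T` and the Tate object `ℚ(-1)` by tensor operations.) -/
structure IsTens3 {g n : ℕ} {ι : Type} [Fintype ι] [DecidableEq ι] (Φ : Grp3 g n → GL ι ℂ) :
    Prop where
  regular : ∀ i j, ∃ p : MvPolynomial (Var3 g n) Qbar, ∀ y, (Φ y).1 i j = aeval (crd3 y) p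
  heap : ∀ x y z, Φ (x * y⁻¹ * z) = Φ x * (Φ y)⁻¹ * Φ z
  rational : ∀ i j, ∃ p : MvPolynomial (Var3 g n) ℚ, ∀ y,
    (Φ y * (Φ 1)⁻¹).1 i j = aeval (crd3 y) p

/-- Every endomorphism of `H^1(A, ℚ)` which commutes with the infinitesimal isometries of `T`
commuting with `E` is an endomorphism of `h^1(A)`. -/
def EndFull {g n : ℕ} (c : GL (Ix g) ℂ) (qB : Matrix (Fin n) (Fin n) ℚ)
    (B : Fin n → Matrix (Ix g) (Ix g) ℚ) (E : Set (Matrix (Fin n) (Fin n) ℚ)) : Prop :=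
  ∀ Z : Matrix (Ix g) (Ix g) ℚ, (∀ ρ ∈ soE qB E, Z * cli qB B ρ = cli qB B ρ * Z) → Z ∈ EndAlg c.1

/-- The complex points of the group of all `(a, x, z)`, where `x` is an isometry of `T_B ⊗ ℂ` which
preserves the eigenspaces of `E` and has determinant `1` on each of them, and `a` is an automorphism
of `H^1(A, ℂ)` which is compatible with `x` and the Clifford multiplication, commutes with the
endomorphisms of `h^1(A)`, and multiplies the polarisation by `z`. -/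
def gspin {g N n : ℕ} (A : AbData g N) (c : GL (Ix g) ℂ) (qB : Matrix (Fin n) (Fin n) ℚ)
    (B : Fin n → Matrix (Ix g) (Ix g) ℚ) {κ : Type} [Fintype κ] [DecidableEq κ] (m : κ → ℕ)
    (P : Matrix (Fin n) ((k : κ) × Fin (m k)) ℂ) : Set (Grp3 g n) :=
  {y | (∃ x : (k : κ) → SO (m k),
      y.2.1.1 = P * Matrix.blockDiagonal' (fun k => (x k).1.1) * (Pᵀ * cx qB)) ∧
    (∀ j, y.1.1 * cx (B j) = (∑ i, y.2.1.1 i j • cx (B i)) * y.1.1) ∧
    (∀ Z ∈ EndAlg c.1, y.1.1 * cx Z = cx Z * y.1.1) ∧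
    y.1.1ᵀ * cx A.psi * y.1.1 = (y.2.2 : ℂ) • cx A.psi}

end Pool.Agent.Lib.MPf11a48.K3
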