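import Pool.Agent.Lib.MP_f11a48_ag.K3.KSpec3
import Pool.Agent.Lib.MP_f11a48_ag.K3.KTen
import Pool.Agent.Lib.MP_f11a48_ag.helper92.Bridge

/-! # Objects obtained from `h^1(A)`, `T` and the Tate object by tensor operations -/

set_option autoImplicit false
set_option linter.unusedSectionVars false

namespace Pool.Agent.Lib.MPf11a48.K3

open Matrix MvPolynomial Pool.Agent.Lib.MPf11a48.Tors
open Pool.Agent.Lib.MPf11a48.CM hiding OmegaM
open Pool.Agent.Lib.MPf11a48.U (AbData Ix)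

namespace KTen3M

open KTenM

variable {g n : ℕ} {ι : Type} [Fintype ι] [DecidableEq ι]

/-- the index set of the block diagonal matrices -/
abbrev I3 (g n : ℕ) : Type := Ix g ⊕ (Fin n ⊕ Unit)

/-- the entries of `h` and `h⁻¹` which are the coordinates of a block diagonal matrix -/
noncomputable def sb3 {k : IntermediateField ℚ ℂ} : Var3 g n →
    MvPolynomial ((I3 g n × I3 g n) ⊕ (I3 g n × I3 g n)) k :=
  Sum.elim (Sum.elim (fun e => X (Sum.inl (Sum.inl e.1, Sum.inl e.2)))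
    fun e => X (Sum.inr (Sum.inl e.1, Sum.inl e.2)))
    (Sum.elim (Sum.elim (fun e => X (Sum.inl (Sum.inr (Sum.inl e.1), Sum.inr (Sum.inl e.2))))
      fun e => X (Sum.inr (Sum.inr (Sum.inl e.1), Sum.inr (Sum.inl e.2))))
      (Sum.elim (fun _ => X (Sum.inl (Sum.inr (Sum.inr ()), Sum.inr (Sum.inr ()))))
        fun _ => X (Sum.inr (Sum.inr (Sum.inr ()), Sum.inr (Sum.inr ())))))

theorem sb3_eval {k : IntermediateField ℚ ℂ} (y : Grp3 g n) :
    (fun e => aeval (Sum.elim (ent (bd3 y)) (ent (bd3 y)⁻¹)) (sb3 (k := k) e)) = crd3 y := by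
  funext e
  rcases e with (e | e) | ((e | e) | (e | e))
  · exact aeval_X _ _
  · exact aeval_X _ _
  · exact aeval_X _ _
  · exact aeval_X _ _
  · exact aeval_X _ _
  · refine (aeval_X _ _).trans ?_
    change ((y.2.2⁻¹ : ℂˣ) : ℂ) = (y.2.2 : ℂ)⁻¹
    exact Units.val_inv_eq_inv_val _

theorem bd3_injective : Function.Injective (bd3 (g := g) (n := n)) := by
  intro x y hxy
  have h1 : lb3 x.1.1 x.2.1.1 x.2.2 = lb3 y.1.1 y.2.1.1 y.2.2 := congrArg Units.val hxy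
  refine Prod.ext (Units.ext ?_) (Prod.ext (Units.ext ?_) (Units.ext ?_))
  · ext i j
    exact congrFun (congrFun h1 (Sum.inl i)) (Sum.inl j)
  · ext i j
    exact congrFun (congrFun h1 (Sum.inr (Sum.inl i))) (Sum.inr (Sum.inl j))
  · exact congrFun (congrFun h1 (Sum.inr (Sum.inr ()))) (Sum.inr (Sum.inr ()))

/-- two indices in the same block -/
def same : I3 g n → I3 g n → Prop
  | Sum.inl _, Sum.inl _ => True
  | Sum.inr (Sum.inl _), Sum.inr (Sum.inl _) => True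
  | Sum.inr (Sum.inr _), Sum.inr (Sum.inr _) => True
  | _, _ => False

/-- the three blocks of a matrix -/
def b1 {R : Type} (M : Matrix (I3 g n) (I3 g n) R) : Matrix (Ix g) (Ix g) R :=
  of fun i j => M (Sum.inl i) (Sum.inl j)

/-- the second block -/
def b2 {R : Type} (M : Matrix (I3 g n) (I3 g n) R) : Matrix (Fin n) (Fin n) R :=
  of fun i j => M (Sum.inr (Sum.inl i)) (Sum.inr (Sum.inl j))

theorem sum3 (F : I3 g n → ℂ) : ∑ i, F i = (∑ i : Ix g, F (Sum.inl i)) +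
    ((∑ i : Fin n, F (Sum.inr (Sum.inl i))) + F (Sum.inr (Sum.inr ()))) := by
  rw [Fintype.sum_sum_type (α₁ := Ix g) (α₂ := Fin n ⊕ Unit),
    Fintype.sum_sum_type (α₁ := Fin n) (α₂ := Unit)]
  simp

theorem eq_lb3 {M : Matrix (I3 g n) (I3 g n) ℂ} (h : ∀ i j, ¬ same i j → M i j = 0) :
    M = lb3 (b1 M) (b2 M) (M (Sum.inr (Sum.inr ())) (Sum.inr (Sum.inr ()))) := by
  ext i j
  rcases i with i | (i | i) <;> rcases j with j | (j | j)
  · rfl
  · exact h _ _ (fun hh => hh)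
  · exact h _ _ (fun hh => hh)
  · exact h _ _ (fun hh => hh)
  · rfl
  · exact h _ _ (fun hh => hh)
  · exact h _ _ (fun hh => hh)
  · exact h _ _ (fun hh => hh)
  · rfl

/-- matrices without off-diagonal blocks -/
theorem exists_bd3 {f : GL (I3 g n) ℂ} (h : ∀ i j, ¬ same i j → f.1 i j = 0) :
    ∃ y, bd3 y = f := by
  have ha : f.1 * f⁻¹.1 = 1 := f.mul_inv
  have h1 : b1 f.1 * b1 f⁻¹.1 = 1 := by
    ext i j
    have h3 := congrFun (congrFun ha (Sum.inl i)) (Sum.inl j)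
    rw [Matrix.mul_apply, sum3] at h3
    have e1 : ∀ u : Fin n, f.1 (Sum.inl i) (Sum.inr (Sum.inl u)) = 0 := fun u =>
      h _ _ (fun hh => hh)
    have e2 : f.1 (Sum.inl i) (Sum.inr (Sum.inr ())) = 0 := h _ _ (fun hh => hh)
    simp only [e1, e2, zero_mul, Finset.sum_const_zero, add_zero] at h3
    rw [Matrix.mul_apply]
    refine h3.trans ?_
    by_cases hij : i = j
    · rw [hij, Matrix.one_apply_eq, Matrix.one_apply_eq]
    · rw [Matrix.one_apply_ne hij, Matrix.one_apply_ne fun hh => hij (Sum.inl.inj hh)]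
  have h2 : b2 f.1 * b2 f⁻¹.1 = 1 := by
    ext i j
    have h3 := congrFun (congrFun ha (Sum.inr (Sum.inl i))) (Sum.inr (Sum.inl j))
    rw [Matrix.mul_apply, sum3] at h3
    have e1 : ∀ u : Ix g, f.1 (Sum.inr (Sum.inl i)) (Sum.inl u) = 0 := fun u =>
      h _ _ (fun hh => hh)
    have e2 : f.1 (Sum.inr (Sum.inl i)) (Sum.inr (Sum.inr ())) = 0 := h _ _ (fun hh => hh)
    simp only [e1, e2, zero_mul, Finset.sum_const_zero, add_zero, zero_add] at h3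
    rw [Matrix.mul_apply]
    refine h3.trans ?_
    by_cases hij : i = j
    · rw [hij, Matrix.one_apply_eq, Matrix.one_apply_eq]
    · rw [Matrix.one_apply_ne hij,
        Matrix.one_apply_ne fun hh => hij (Sum.inl.inj (Sum.inr.inj hh))]
  have h4 : f.1 (Sum.inr (Sum.inr ())) (Sum.inr (Sum.inr ())) *
      f⁻¹.1 (Sum.inr (Sum.inr ())) (Sum.inr (Sum.inr ())) = 1 := by
    have h3 := congrFun (congrFun ha (Sum.inr (Sum.inr ()))) (Sum.inr (Sum.inr ()))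
    rw [Matrix.mul_apply, sum3] at h3
    have e1 : ∀ u : Ix g, f.1 (Sum.inr (Sum.inr ())) (Sum.inl u) = 0 := fun u =>
      h _ _ (fun hh => hh)
    have e2 : ∀ u : Fin n, f.1 (Sum.inr (Sum.inr ())) (Sum.inr (Sum.inl u)) = 0 := fun u =>
      h _ _ (fun hh => hh)
    simp only [e1, e2, zero_mul, Finset.sum_const_zero, zero_add] at h3
    exact h3.trans (Matrix.one_apply_eq _)
  refine ⟨(⟨b1 f.1, b1 f⁻¹.1, h1, mul_eq_one_comm.1 h1⟩,
    ⟨b2 f.1, b2 f⁻¹.1, h2, mul_eq_one_comm.1 h2⟩,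
    ⟨f.1 (Sum.inr (Sum.inr ())) (Sum.inr (Sum.inr ())),
      f⁻¹.1 (Sum.inr (Sum.inr ())) (Sum.inr (Sum.inr ())), h4, by rw [mul_comm]; exact h4⟩), ?_⟩
  exact Units.ext (eq_lb3 h).symm

theorem bd3_off (y : Grp3 g n) {i j : I3 g n} (h : ¬ same i j) : (bd3 y).1 i j = 0 := by
  rcases i with i | (i | i) <;> rcases j with j | (j | j)
  · exact absurd trivial h
  · rfl
  · rfl
  · rfl
  · exact absurd trivial h
  · rfl
  · rfl
  · rfl
  · exact absurd trivial h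

/-- preimages of closed sets under polynomial maps -/
theorem closedOver_pull3 {k : IntermediateField ℚ ℂ} {Ψ : Grp3 g n → GL ι ℂ}
    (hΨ : ∀ i j, ∃ p : MvPolynomial (Var3 g n) k, ∀ y, (Ψ y).1 i j = aeval (crd3 y) p)
    {T₀ : Set (GL ι ℂ)} (h : ClosedOver k T₀) :
    ClosedOver k {f : GL (I3 g n) ℂ | ∃ y, bd3 y = f ∧ Ψ y ∈ T₀} := by
  obtain ⟨S, hS⟩ := h
  choose P hP using hΨ
  choose M q hq using fun p : MvPolynomial (ι × ι) k =>
    clear_inverse (ι := I3 g n)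
      (aeval (fun ij : ι × ι => aeval (sb3 (k := k) (g := g) (n := n)) (P ij.1 ij.2)) p)
  have key : ∀ (p : MvPolynomial (ι × ι) k) (y : Grp3 g n),
      aeval (ent (bd3 y)) (q p) = (bd3 y).1.det ^ M p *
        aeval (fun ij : ι × ι => (Ψ y).1 ij.1 ij.2) p := by
    intro p y
    rw [hq, comp_aeval_apply]
    congr 3
    funext ij
    rw [comp_aeval_apply, sb3_eval]
    exact (hP ij.1 ij.2 y).symm
  refine ⟨{r | (∃ i j, ¬ same i j ∧ r = X (i, j)) ∨ ∃ p ∈ S, r = q p}, ?_⟩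
  ext f
  constructor
  · rintro ⟨y, rfl, hy⟩ r (⟨i, j, hij, rfl⟩ | ⟨p, hp, rfl⟩)
    · rw [aeval_X]
      exact bd3_off y hij
    · have h1 := key p y
      rw [hS] at hy
      rw [hy p hp, mul_zero] at h1
      exact h1
  · intro hf
    have hf1 : ∀ i j, ¬ same i j → f.1 i j = 0 := by
      intro i j hij
      have h1 := hf (X (i, j)) (Or.inl ⟨i, j, hij, rfl⟩)
      rw [aeval_X] at h1
      exact h1
    obtain ⟨y, rfl⟩ := exists_bd3 hf1
    refine ⟨y, rfl, ?_⟩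
    rw [hS]
    intro p hp
    have h1 := (key p y).symm.trans (hf _ (Or.inr ⟨p, hp, rfl⟩))
    exact (mul_eq_zero.1 h1).resolve_left (pow_ne_zero _ (det_ne (bd3 y)))

variable {Φ : Grp3 g n → GL ι ℂ}

theorem isTorsor_pull3 (hΦ : IsTens3 Φ) {T₀ : Set (GL ι ℂ)}
    (hT₀ : IsTorsor Qbar T₀) {t : Grp3 g n} (ht : Φ t ∈ T₀) :
    IsTorsor Qbar {f : GL (I3 g n) ℂ | ∃ y, bd3 y = f ∧ Φ y ∈ T₀} where
  closed := closedOver_pull3 hΦ.regular hT₀.closed
  nonempty := ⟨bd3 t, t, rfl, ht⟩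
  heap := by
    rintro _ ⟨x, rfl, hx⟩ _ ⟨y, rfl, hy⟩ _ ⟨z, rfl, hz⟩
    refine ⟨x * y⁻¹ * z, by rw [map_mul, map_mul, map_inv], ?_⟩
    rw [hΦ.heap]
    exact hT₀.heap _ hx _ hy _ hz

theorem mul_eq3 (hΦ : IsTens3 Φ) (x t : Grp3 g n) : Φ (x * t) = Φ x * (Φ 1)⁻¹ * Φ t := by
  rw [← hΦ.heap, inv_one, mul_one]

theorem grp_pull3 (hΦ : IsTens3 Φ) {T₀ : Set (GL ι ℂ)}
    (hT₀ : IsTorsor Qbar T₀) (hcl : ClosedOver ⊥ (grp T₀)) {t : Grp3 g n}
    (ht : Φ t ∈ T₀) :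
    ClosedOver ⊥ (grp {f : GL (I3 g n) ℂ | ∃ y, bd3 y = f ∧ Φ y ∈ T₀}) := by
  have e : grp {f : GL (I3 g n) ℂ | ∃ y, bd3 y = f ∧ Φ y ∈ T₀} =
      {f | ∃ y, bd3 y = f ∧ Φ y * (Φ 1)⁻¹ ∈ grp T₀} := by
    ext f
    rw [mem_grp_iff (isTorsor_pull3 hΦ hT₀ ht) (c := bd3 t) ⟨t, rfl, ht⟩]
    constructor
    · rintro ⟨x, hx, hx'⟩
      refine ⟨x * t⁻¹, by rw [map_mul, map_inv, hx, mul_inv_cancel_right], ?_⟩
      rw [mem_grp_iff hT₀ ht, ← mul_eq3 hΦ, inv_mul_cancel_right]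
      exact hx'
    · rintro ⟨x, rfl, hx⟩
      refine ⟨x * t, map_mul _ _ _, ?_⟩
      rw [mul_eq3 hΦ, ← mem_grp_iff hT₀ ht]
      exact hx
  rw [e]
  refine closedOver_pull3 (Ψ := fun x => Φ x * (Φ 1)⁻¹) (fun i j => ?_) hcl
  obtain ⟨p, hp⟩ := hΦ.rational i j
  obtain ⟨q, hq⟩ := exists_bot p
  exact ⟨q, fun x => (hp x).trans (hq _).symm⟩

end KTen3M

open KTenM KTen3M in
theorem specKTen3 (hGrp : SpecKGrp3) : SpecKTen3 := by
  intro g N n A c t qdR qB B E κ _ _ m P lam hKS hEF hSp h3 h5 K ι _ _ Φ hK hΦ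
  have hT₀ : IsTorsor Qbar (OmegaDRB K (Φ (c, t, tpi))) := by
    have h := isTorsor_OmegaDRB K (Φ (c, t, tpi))
    exact ⟨GL2.closedOver_mono hK h.closed, h.nonempty, h.heap⟩
  have ht : Φ (c, t, tpi) ∈ OmegaDRB K (Φ (c, t, tpi)) := mem_OmegaDRB_self K _
  have hcl : ClosedOver ⊥ (grp (OmegaDRB K (Φ (c, t, tpi)))) := by
    rw [grp_OmegaDRB]
    exact closedOver_GdRB K _
  have h0 : ∀ y ∈ gspin A c qB B m P, Φ (y * (c, t, tpi)) ∈ OmegaDRB K (Φ (c, t, tpi)) := by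
    intro y hy
    obtain ⟨x, hx, hx'⟩ := hGrp g N n A c t qdR qB B E κ m P lam hKS hEF hSp h3 h5 _
      (isTorsor_pull3 hΦ hT₀ ht) ⟨_, rfl, ht⟩ (grp_pull3 hΦ hT₀ hcl ht) y hy
    rwa [bd3_injective hx] at hx'
  have h1 : ∀ y ∈ gspin A c qB B m P, ∀ f, Conj K (Φ (y * (c, t, tpi))) f →
      f ∈ OmegaDRB K (Φ (c, t, tpi)) := by
    intro y hy f hf
    obtain ⟨τ, hτ, hf⟩ := hf
    have hf' : f = tw τ (Φ (y * (c, t, tpi))) := by
      apply Units.ext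
      exact Matrix.ext hf
    rw [hf']
    exact OmegaDRB_tw hτ (h0 y hy)
  refine ⟨h1, fun S hS hsub => ?_⟩
  have h3 : OmegaDRB K (Φ (c, t, tpi)) = OmegaS S := by
    refine (drb_subset hS).antisymm fun f hf => ?_
    obtain ⟨y, hy, hyf⟩ := hsub f hf
    exact h1 y hy f hyf
  refine ⟨h3, ?_⟩
  rintro rfl
  rw [← h3]
  exact OmegaM_eq_OmegaDRB _

end Pool.Agent.Lib.MPf11a48.K3
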