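import Pool.Agent.Lib.MP_f11a48_ag.K3.KSpec
import Pool.Agent.Lib.MP_f11a48_ag.U.Bic
import Pool.Agent.Lib.MP_f11a48_ag.U.Der

/-! # Module BIC2: the bicommutant theorem for a rational Lie algebra of similitudes -/

set_option autoImplicit false

namespace Pool.Agent.Lib.MPf11a48.K3

open Matrix MvPolynomial
open Pool.Agent.Lib.MPf11a48.CM hiding OmegaM
open Pool.Agent.Lib.MPf11a48.U (AbData Ix HD EndAlg)

namespace Bic2M

open Pool.Agent.Lib.MPf11a48.U (DefQbar mC mR)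
open Pool.Agent.Lib.MPf11a48.U.BicM hiding toBilin_apply

variable {ι : Type} [Fintype ι] [DecidableEq ι]

omit [DecidableEq ι] in
/-- complex combinations of matrices which preserve a rational subspace preserve its
complexification -/
theorem span_stable {kk : Submodule ℚ (Matrix ι ι ℚ)} {W : Submodule ℚ (ι → ℚ)}
    (hW : ∀ Z ∈ kk, ∀ w ∈ W, Z *ᵥ w ∈ W) {X : Matrix ι ι ℂ}
    (hX : X ∈ Submodule.span ℂ {Y : Matrix ι ι ℂ | ∃ Z ∈ kk, Y = cx Z}) {w : ι → ℂ}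
    (hw : w ∈ spanC W) : X *ᵥ w ∈ spanC W := by
  induction hX using Submodule.span_induction with
  | mem Y hY =>
    obtain ⟨Z, hZ, rfl⟩ := hY
    exact mC_mulVec_mem (hW Z hZ) hw
  | zero =>
    rw [Matrix.zero_mulVec]
    exact zero_mem _
  | add Y Y' _ _ h h' =>
    rw [Matrix.add_mulVec]
    exact add_mem h h'
  | smul a Y _ h =>
    rw [Matrix.smul_mulVec]
    exact Submodule.smul_mem _ _ h

/-- Stable subspaces have stable complements. -/
theorem exists_compl2 {c : GL ι ℂ} {J : Matrix ι ι ℝ} {ψ : Matrix ι ι ℚ} (h : HD c J ψ)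
    {kk : Submodule ℚ (Matrix ι ι ℚ)} (hsim : ∀ Z ∈ kk, ∃ m : ℚ, Zᵀ * ψ + ψ * Z = m • ψ)
    (hlog : ∀ δ : Derivation Qbar ℂ ℂ, c.1.map δ * c⁻¹.1 ∈
      Submodule.span ℂ {Y : Matrix ι ι ℂ | ∃ Z ∈ kk, Y = cx Z})
    (W : Submodule ℚ (ι → ℚ)) (hW : ∀ Z ∈ kk, ∀ w ∈ W, Z *ᵥ w ∈ W) :
    ∃ W' : Submodule ℚ (ι → ℚ), (∀ Z ∈ kk, ∀ w ∈ W', Z *ᵥ w ∈ W') ∧ IsCompl W W' := by
  have hdef : DefQbar ((spanC W).comap c.1.mulVecLin) :=
    (U.specDER c).2.1 W fun δ w hw => span_stable hW (hlog δ) hw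
  have hJ := h.sub W hdef
  have hzero : ∀ w ∈ W, (∀ u ∈ W, u ⬝ᵥ (ψ *ᵥ w) = 0) → w = 0 := by
    intro w hw hu
    by_contra hne
    have hne' : (fun i => (w i : ℝ)) ≠ 0 := by
      intro h0
      apply hne
      ext i
      have := congrFun h0 i
      simpa using this
    have h1 := h.pos _ hne'
    have h2 := dot_span_zero hu (hJ w hw)
    have h3 : (fun i => (w i : ℝ)) ⬝ᵥ ((mR ψ * J) *ᵥ fun i => (w i : ℝ)) =
        -((J *ᵥ fun i => (w i : ℝ)) ⬝ᵥ (mR ψ *ᵥ fun i => (w i : ℝ))) := by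
      rw [← Matrix.mulVec_mulVec, Matrix.dotProduct_mulVec, ← Matrix.mulVec_transpose]
      have h4 : (mR ψ)ᵀ = -mR ψ := by
        have := congrArg (fun M : Matrix ι ι ℚ => mR M) h.skew
        ext i j
        have h5 := congrFun (congrFun this i) j
        simpa using h5
      rw [h4, Matrix.neg_mulVec, neg_dotProduct, dotProduct_comm]
    rw [h3, h2, neg_zero] at h1
    exact lt_irrefl _ h1
  set b := Matrix.toBilin' ψ with hb
  have hnd : (b.restrict W).Nondegenerate := by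
    constructor
    · intro w hw
      refine Subtype.ext (hzero w.1 w.2 fun u hu => ?_)
      have h1 := hw ⟨u, hu⟩
      have h2 : b w.1 u = 0 := h1
      have h3 := isRefl h.skew _ _ h2
      rwa [U.BicM.toBilin_apply] at h3
    · intro w hw
      refine Subtype.ext (hzero w.1 w.2 fun u hu => ?_)
      have h1 := hw ⟨u, hu⟩
      have h2 : b u w.1 = 0 := h1
      rwa [hb, U.BicM.toBilin_apply] at h2
  refine ⟨b.orthogonal W, ?_,
    LinearMap.BilinForm.isCompl_orthogonal_of_restrict_nondegenerate (isRefl h.skew) hnd⟩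
  intro Z hZ v hv
  rw [LinearMap.BilinForm.mem_orthogonal_iff] at hv ⊢
  intro w hw
  have hv' : ∀ w ∈ W, w ⬝ᵥ (ψ *ᵥ v) = 0 := fun w hw => by
    have := hv w hw
    rwa [hb, U.BicM.toBilin_apply] at this
  change b w (Z *ᵥ v) = 0
  rw [hb, U.BicM.toBilin_apply]
  obtain ⟨m, hm⟩ := hsim Z hZ
  have h2 : ψ * Z = m • ψ - Zᵀ * ψ := by
    rw [← hm]
    abel
  have h4 : w ⬝ᵥ ((Zᵀ * ψ) *ᵥ v) = (Z *ᵥ w) ⬝ᵥ (ψ *ᵥ v) := by
    rw [← Matrix.mulVec_mulVec, Matrix.dotProduct_mulVec w, ← Matrix.mulVec_transpose,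
      Matrix.transpose_transpose]
  rw [Matrix.mulVec_mulVec, h2, Matrix.sub_mulVec, dotProduct_sub, Matrix.smul_mulVec,
    dotProduct_smul, h4, hv' w hw, hv' _ (hW Z hZ w hw), smul_zero, sub_zero]

/-- The matrices which commute with `kk` are endomorphisms. -/
theorem commutant_mem2 {c : GL ι ℂ} {kk : Submodule ℚ (Matrix ι ι ℚ)}
    (hlog : ∀ δ : Derivation Qbar ℂ ℂ, c.1.map δ * c⁻¹.1 ∈
      Submodule.span ℂ {Y : Matrix ι ι ℂ | ∃ Z ∈ kk, Y = cx Z}) {B : Matrix ι ι ℚ}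
    (hB : ∀ Z ∈ kk, B * Z = Z * B) : B ∈ EndAlg c.1 := by
  refine (U.specDER c).2.2 B fun δ => ?_
  have h1 := hlog δ
  generalize c.1.map δ * c⁻¹.1 = X at h1
  induction h1 using Submodule.span_induction with
  | mem Y hY =>
    obtain ⟨Z, hZ, rfl⟩ := hY
    change mC Z * mC B = mC B * mC Z
    rw [← mC_mul, ← mC_mul, hB Z hZ]
  | zero => rw [Matrix.zero_mul, Matrix.mul_zero]
  | add Y Y' _ _ h h' => rw [Matrix.add_mul, Matrix.mul_add, h, h']
  | smul a Y _ h => rw [Matrix.smul_mul, Matrix.mul_smul, h]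

end Bic2M

/-- Module BIC2. -/
theorem specBic2 : SpecBic2 := by
  intro ι _ _ c J ψ h kk hsim hlog x hx
  refine U.BicM.bicommutant _ ?_ x ?_
  · intro W hW
    obtain ⟨W', h1, h2⟩ := Bic2M.exists_compl2 h hsim hlog W fun Z hZ w hw =>
      hW Z (Algebra.subset_adjoin hZ) w hw
    refine ⟨W', fun Z hZ w hw => ?_, h2⟩
    have h3 : Algebra.adjoin ℚ (kk : Set (Matrix ι ι ℚ)) ≤ U.BicM.stab W' :=
      Algebra.adjoin_le fun Z hZ => h1 Z hZ
    exact h3 hZ w hw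
  · intro B hB
    exact hx B (Bic2M.commutant_mem2 hlog fun Z hZ => hB Z (Algebra.subset_adjoin hZ))

end Pool.Agent.Lib.MPf11a48.K3
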