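import Pool.Agent.Lib.MP_f11a48_ag.helper4.Defs

/-!
# Orthogonal de Rham-Betti objects over `Qbar` in coordinates

An orthogonal object of rank `n` over `Qbar` (with both spaces over `Qbar`) is given, in orthonormal
bases, by its period matrix `c ∈ SO_n(ℂ)`.
-/

set_option autoImplicit false

namespace Pool.Agent.Lib.MPf11a48.K3

open Matrix MvPolynomial Pool.Agent.Lib.MPf11a48.CM

/-- `SO_n(ℂ)`: complex matrices `g` with `gᵀ g = 1` and determinant `1` -/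
def SO (n : ℕ) : Subgroup (GL (Fin n) ℂ) where
  carrier := {g | g.1ᵀ * g.1 = 1 ∧ g.1.det = 1}
  mul_mem' := by
    rintro a b ⟨ha, ha'⟩ ⟨hb, hb'⟩
    refine ⟨?_, ?_⟩
    · change (a.1 * b.1)ᵀ * (a.1 * b.1) = 1
      rw [transpose_mul, Matrix.mul_assoc, ← Matrix.mul_assoc _ a.1, ha, one_mul, hb]
    · change (a.1 * b.1).det = 1
      rw [det_mul, ha', hb', one_mul]
  one_mem' := by
    refine ⟨?_, ?_⟩
    · change (1 : Matrix (Fin n) (Fin n) ℂ)ᵀ * 1 = 1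
      rw [transpose_one, one_mul]
    · exact det_one
  inv_mem' := by
    rintro a ⟨ha, ha'⟩
    have h1 : a.1 * a⁻¹.1 = 1 := a.mul_inv
    have h2 : a⁻¹.1 = a.1ᵀ := by
      calc a⁻¹.1 = (a.1ᵀ * a.1) * a⁻¹.1 := by rw [ha, one_mul]
        _ = a.1ᵀ := by rw [Matrix.mul_assoc, h1, mul_one]
    refine ⟨?_, ?_⟩
    · change (a⁻¹.1)ᵀ * a⁻¹.1 = 1
      rw [h2, transpose_transpose, ← h2, h1]
    · change (a⁻¹.1).det = 1
      rw [h2, det_transpose, ha']

/-- The object over `Qbar` with period matrix `c` has no sub-object except `0` and itself. -/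
def Irr {n : ℕ} (c : GL (Fin n) ℂ) : Prop :=
  ∀ W' W : Submodule Qbar (Fin n → Qbar), (spanC W').map c.1.mulVecLin = spanC W → W = ⊥ ∨ W = ⊤

/-- `w` is an alternating tensor -/
def Alt {n j : ℕ} {R : Type} [Ring R] (w : (Fin j → Fin n) → R) : Prop :=
  ∀ (σ : Equiv.Perm (Fin j)) (I : Fin j → Fin n), w (I ∘ σ) = ((Equiv.Perm.sign σ : ℤ) : R) * w I

/-- There is no non-zero de Rham-Betti class (over `Qbar`) in the exterior powers `Λ^j V`,
`0 < j < n`, of the object `V` with period matrix `c`: if `c` maps the algebraic tensor `w'` to the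
alternating algebraic tensor `w`, then `w = 0`. -/
def NoExt {n : ℕ} (c : GL (Fin n) ℂ) : Prop :=
  ∀ j, 0 < j → j < n → ∀ w' w : (Fin j → Fin n) → ℂ, (∀ I, w' I ∈ Qbar) → (∀ I, w I ∈ Qbar) →
    Alt w → (∀ I, ∑ J, (∏ a, c.1 (I a) (J a)) * w' J = w I) → w = 0

/-- There is no non-zero de Rham-Betti class (over `Qbar`) in `Λ² V ⊗ Λ² V'`, where `V`, `V'` have
the period matrices `c`, `d`. -/
def NonLink {n m : ℕ} (c : GL (Fin n) ℂ) (d : GL (Fin m) ℂ) : Prop :=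
  ∀ w' w : Fin n → Fin n → Fin m → Fin m → ℂ, (∀ i j k l, w' i j k l ∈ Qbar) →
    (∀ i j k l, w i j k l ∈ Qbar) → (∀ i j k l, w j i k l = -w i j k l) →
    (∀ i j k l, w i j l k = -w i j k l) →
    (∀ i j k l, ∑ i', ∑ j', ∑ k', ∑ l', c.1 i i' * c.1 j j' * d.1 k k' * d.1 l l' * w' i' j' k' l' =
      w i j k l) → w = 0

variable {κ : Type}

/-- The complex points of `∏ SO_{n k} × G_m^J`; such a point is also the tuple of the period
matrices of a family of orthogonal objects (indexed by `κ`) and of objects of rank one (indexed by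
`J`). -/
abbrev Pt (n : κ → ℕ) (J : Type) : Type := ((k : κ) → SO (n k)) × (J → ℂˣ)

/-- Indices for the coordinates on `∏ SO_{n k} × G_m^J`. -/
abbrev Var (n : κ → ℕ) (J : Type) : Type := ((k : κ) × Fin (n k) × Fin (n k)) ⊕ J ⊕ J

/-- The coordinates of a point: the entries of each matrix `x_k`, and `y_j`, `1 / y_j`. -/
noncomputable def coord {n : κ → ℕ} {J : Type} (x : Pt n J) : Var n J → ℂ :=
  Sum.elim (fun e => (x.1 e.1).1.1 e.2.1 e.2.2) (Sum.elim (fun j => (x.2 j : ℂ)) fun j => (x.2 j : ℂ)⁻¹)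

/-- Regular functions over `Qbar` on `∏ SO_{n k} × G_m^J`. -/
def Regular {n : κ → ℕ} {J : Type} (F : Pt n J → ℂ) : Prop :=
  ∃ p : MvPolynomial (Var n J) ℂ, (∀ m, p.coeff m ∈ Qbar) ∧ ∀ x, F x = eval (coord x) p

/-- `x` satisfies all multiplicative relations with values in `Qbar` which hold between the
periods of rank one of `c`. -/
def SameRel {n : κ → ℕ} {J : Type} [Fintype J] (c x : Pt n J) : Prop :=
  ∀ χ : J → ℤ, (∏ j, (c.2 j : ℂ) ^ χ j) ∈ Qbar → ∏ j, (x.2 j : ℂ) ^ χ j = ∏ j, (c.2 j : ℂ) ^ χ j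

variable {K : IntermediateField ℚ ℂ} {J ι : Type} [Fintype ι] [DecidableEq ι]

/-- Regular functions over `Qbar` on `GL_ι`. -/
def RegularGL (F : GL ι ℂ → ℂ) : Prop :=
  ∃ p : MvPolynomial (ι × ι ⊕ ι × ι) ℂ, (∀ m, p.coeff m ∈ Qbar) ∧
    ∀ g, F g = eval (Sum.elim (fun e => g.1 e.1 e.2) fun e => g⁻¹.1 e.1 e.2) p

/-- `Φ : ∏ SO_{n k} × G_m^J → GL_ι` is a morphism of torsors over `Qbar`. -/
structure IsMor {n : κ → ℕ} (Φ : Pt n J → GL ι ℂ) : Prop where
  regular : ∀ i j, Regular fun x => (Φ x).1 i j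
  heap : ∀ x y z, Φ (x * y⁻¹ * z) = Φ x * (Φ y)⁻¹ * Φ z

/-- `Φ : ∏ SO_{n k} × G_m^J → GL_ι` is a closed immersion: the coordinates of `x` are regular
functions of `Φ x`. -/
def IsImm {n : κ → ℕ} (Φ : Pt n J → GL ι ℂ) : Prop :=
  ∀ e : Var n J, ∃ F : GL ι ℂ → ℂ, RegularGL F ∧ ∀ x, coord x e = F (Φ x)

/-- `f'` is the conjugate of `f` by an automorphism of `ℂ` over `K`. -/
def Conj (K : IntermediateField ℚ ℂ) (f f' : GL ι ℂ) : Prop :=
  ∃ τ : ℂ ≃+* ℂ, (∀ a ∈ K, τ a = a) ∧ ∀ i j, f'.1 i j = τ (f.1 i j)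

end Pool.Agent.Lib.MPf11a48.K3
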