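import Pool.Agent.Lib.MP_f11a48_ag.K3.LieDefs
import Pool.Agent.Lib.MP_f11a48_ag.K3.Stmt

/-!
# Orthogonal representations, hyperbolic weight bases, spin representations
-/

set_option autoImplicit false
set_option linter.unusedSectionVars false

namespace Pool.Agent.Lib.MPf11a48.K3

open Module LieAlgebra LieAlgebra.IsKilling Matrix

/-- a representation of `L` by skew-symmetric matrices -/
structure OR (F L : Type) [Field F] [LieRing L] [LieAlgebra F L] (n : ℕ) where
  /-- the action -/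
  t : L →ₗ[F] Matrix (Fin n) (Fin n) F
  lie : ∀ x y, t ⁅x, y⁆ = t x * t y - t y * t x
  skew : ∀ x, (t x)ᵀ = -t x

/-- the underlying representation on `F^n` -/
noncomputable def OR.rp {F L : Type} [Field F] [LieRing L] [LieAlgebra F L] {n : ℕ}
    (θ : OR F L n) : Rp F L (Fin n → F) where
  r :=
    { toFun := fun x => (θ.t x).mulVecLin
      map_add' := by
        intro x y
        rw [map_add, Matrix.mulVecLin_add]
      map_smul' := by
        intro a x
        refine LinearMap.ext fun v => ?_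
        change (θ.t (a • x)).mulVec v = a • (θ.t x).mulVec v
        rw [map_smul, Matrix.smul_mulVec] }
  lie := by
    intro x y v
    change (θ.t ⁅x, y⁆).mulVec v = (θ.t x).mulVec ((θ.t y).mulVec v) -
      (θ.t y).mulVec ((θ.t x).mulVec v)
    rw [θ.lie, Matrix.sub_mulVec, Matrix.mulVec_mulVec, Matrix.mulVec_mulVec]

/-- the action of a matrix `X` (as an element of the Lie algebra) on tensors of degree `j` -/
def actT {n j : ℕ} {F : Type} [Ring F] (X : Matrix (Fin n) (Fin n) F) (w : (Fin j → Fin n) → F) :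
    (Fin j → Fin n) → F :=
  fun I => ∑ a, ∑ k, X (I a) k * w (Function.update I a k)

/-- no invariants in the exterior powers `Λ^j`, `0 < j < n` -/
def NoInv {n : ℕ} {F : Type} [Ring F] (g : Set (Matrix (Fin n) (Fin n) F)) : Prop :=
  ∀ j, 0 < j → j < n → ∀ w : (Fin j → Fin n) → F, Alt w → (∀ X ∈ g, actT X w = 0) → w = 0

/-- a hyperbolic family of weight vectors -/
structure HB {F L : Type} [Field F] [LieRing L] [LieAlgebra F L] {n : ℕ} (θ : OR F L n)
    (H : LieSubalgebra F L) (m : ℕ) where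
  /-- isotropic vectors -/
  v : Fin m → Fin n → F
  /-- dual isotropic vectors -/
  v' : Fin m → Fin n → F
  /-- weights -/
  a : Fin m → Dual F H
  wv : ∀ i (h : H), (θ.t h.1).mulVec (v i) = a i h • v i
  wv' : ∀ i (h : H), (θ.t h.1).mulVec (v' i) = -(a i h) • v' i
  vv : ∀ i j, v i ⬝ᵥ v j = 0
  vv' : ∀ i j, v' i ⬝ᵥ v' j = 0
  dual : ∀ i j, v i ⬝ᵥ v' j = if i = j then 1 else 0

/-- a hyperbolic family of weight vectors, and an orthogonal vector of weight `0` -/
structure HBo {F L : Type} [Field F] [LieRing L] [LieAlgebra F L] {n : ℕ} (θ : OR F L n)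
    (H : LieSubalgebra F L) (m : ℕ) extends HB θ H m where
  /-- vector of weight zero -/
  u : Fin n → F
  wu : ∀ h : H, (θ.t h.1).mulVec u = 0
  uu : u ⬝ᵥ u = 2
  uv : ∀ i, u ⬝ᵥ v i = 0
  uv' : ∀ i, u ⬝ᵥ v' i = 0

/-- HYP: existence of hyperbolic weight bases -/
def SpecHyp : Prop :=
  ∀ (F L : Type) [Field F] [CharZero F] [IsAlgClosed F] [LieRing L] [LieAlgebra F L]
    [Module.Finite F L] (H : LieSubalgebra F L) (n : ℕ) (θ : OR F L n), Diag H θ.rp →
    (∃ m, n = 2 * m ∧ Nonempty (HB θ H m)) ∨ ∃ m, n = 2 * m + 1 ∧ Nonempty (HBo θ H m)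

/-- MULT: multiplicities from a basis of weight vectors -/
def SpecMult : Prop :=
  ∀ (F L : Type) [Field F] [LieRing L] [LieAlgebra F L] (H : LieSubalgebra F L)
    (M : Type) [AddCommGroup M] [Module F M] (ρ : Rp F L M) (ι : Type) [Fintype ι]
    (b : Basis ι F M) (lam : ι → Dual F H), (∀ i (h : H), ρ.r h.1 (b i) = lam i h • b i) →
    Diag H ρ ∧ ∀ μ, finrank F (wtsp H ρ μ) = Nat.card {i // lam i = μ}

/-- the space of the spin representation -/
abbrev SM (m : ℕ) (F : Type) : Type := (Fin m → Bool) → F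

/-- the basis vectors -/
def es {m : ℕ} {F : Type} [Zero F] [One F] (ε : Fin m → Bool) : SM m F :=
  fun δ => if δ = ε then 1 else 0

/-- the chirality operator -/
noncomputable def chi (m : ℕ) (F : Type) [Field F] [CharZero F] : Module.End F (SM m F) where
  toFun f := fun ε => ((∏ i, sg (ε i) : ℚ) : F) * f ε
  map_add' f g := funext fun ε => mul_add _ _ _
  map_smul' t f := by
    funext ε
    simp only [Pi.smul_apply, smul_eq_mul, RingHom.id_apply]
    ring

/-- CAR: creation and annihilation operators -/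
def SpecCAR : Prop :=
  ∀ (F : Type) [Field F] [CharZero F] (m : ℕ), ∃ c c' : Fin m → Module.End F (SM m F),
    (∀ i j, c i * c j + c j * c i = 0) ∧ (∀ i j, c' i * c' j + c' j * c' i = 0) ∧
    (∀ i j, c i * c' j + c' j * c i = if i = j then 1 else 0) ∧
    (∀ i ε, (c i * c' i) (es ε) = if ε i = true then es ε else 0) ∧
    (∀ i, chi m F * c i = -(c i * chi m F)) ∧ (∀ i, chi m F * c' i = -(c' i * chi m F)) ∧
    chi m F * chi m F = 1 ∧ Algebra.adjoin F (Set.range c ∪ Set.range c') = ⊤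

/-- `σ x = 1/2 Σ X_{ij} γ_i γ_j` -/
noncomputable def spn {F S : Type} [Field F] [AddCommGroup S] [Module F S] {n : ℕ}
    (γ : Fin n → Module.End F S) (X : Matrix (Fin n) (Fin n) F) : Module.End F S :=
  (1 / 2 : F) • ∑ i, ∑ j, X i j • (γ i * γ j)

/-- SPL: `spn` is a homomorphism and `[spn X, γ_k] = Σ_i X_{ik} γ_i` -/
def SpecSpl : Prop :=
  ∀ (F S : Type) [Field F] [CharZero F] [AddCommGroup S] [Module F S] (n : ℕ)
    (γ : Fin n → Module.End F S), (∀ i j, γ i * γ j + γ j * γ i = if i = j then 1 else 0) →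
    (∀ X : Matrix (Fin n) (Fin n) F, Xᵀ = -X → ∀ k,
      spn γ X * γ k - γ k * spn γ X = ∑ i, X i k • γ i) ∧
    ∀ X Y : Matrix (Fin n) (Fin n) F, Xᵀ = -X → Yᵀ = -Y →
      spn γ (X * Y - Y * X) = spn γ X * spn γ Y - spn γ Y * spn γ X

/-- CLE: Clifford operators from a hyperbolic weight basis, `n = 2m` -/
def SpecCle : Prop :=
  ∀ (F L : Type) [Field F] [CharZero F] [LieRing L] [LieAlgebra F L] (H : LieSubalgebra F L)
    (m : ℕ) (θ : OR F L (2 * m)) (b : HB θ H m), ∃ γ : Fin (2 * m) → Module.End F (SM m F),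
    (∀ i j, γ i * γ j + γ j * γ i = if i = j then 1 else 0) ∧
    (∀ i, chi m F * γ i = -(γ i * chi m F)) ∧ Algebra.adjoin F (Set.range γ) = ⊤ ∧
    ∀ (h : H) (ε : Fin m → Bool), spn γ (θ.t h.1) (es ε) = (wS b.a ε) h • (es ε : SM m F)

/-- CLO: Clifford operators from a hyperbolic weight basis, `n = 2m + 1` -/
def SpecClo : Prop :=
  ∀ (F L : Type) [Field F] [CharZero F] [LieRing L] [LieAlgebra F L] (H : LieSubalgebra F L)
    (m : ℕ) (θ : OR F L (2 * m + 1)) (b : HBo θ H m),
    ∃ γ : Fin (2 * m + 1) → Module.End F (SM m F),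
    (∀ i j, γ i * γ j + γ j * γ i = if i = j then 1 else 0) ∧
    Algebra.adjoin F (Set.range γ) = ⊤ ∧
    ∀ (h : H) (ε : Fin m → Bool), spn γ (θ.t h.1) (es ε) = (wS b.a ε) h • (es ε : SM m F)

/-- CEN: operators with `tr (T γ_{i_1} ⋯ γ_{i_j}) = 0` for distinct indices, `0 < j < n` -/
def SpecCen : Prop :=
  ∀ (F S : Type) [Field F] [CharZero F] [AddCommGroup S] [Module F S] [Module.Finite F S] (n : ℕ)
    (γ : Fin n → Module.End F S), (∀ i j, γ i * γ j + γ j * γ i = if i = j then 1 else 0) →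
    Algebra.adjoin F (Set.range γ) = ⊤ → ∀ T : Module.End F S,
    (∀ j, 0 < j → j < n → ∀ I : Fin j → Fin n, Function.Injective I →
      LinearMap.trace F S (T * (List.ofFn fun a => γ (I a)).prod) = 0) →
    (Odd n → ∃ t : F, T = t • 1) ∧
    ∀ χ : Module.End F S, χ * χ = 1 → (∀ i, χ * γ i = -(γ i * χ)) → ∃ t s : F, T = t • 1 + s • χ

/-- INV: operators commuting with the spin representation of `g` -/
def SpecInv : Prop :=
  ∀ (F S : Type) [Field F] [CharZero F] [AddCommGroup S] [Module F S] [Module.Finite F S] (n : ℕ)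
    (γ : Fin n → Module.End F S), (∀ i j, γ i * γ j + γ j * γ i = if i = j then 1 else 0) →
    ∀ g : Set (Matrix (Fin n) (Fin n) F), (∀ X ∈ g, Xᵀ = -X) → NoInv g → ∀ T : Module.End F S,
    (∀ X ∈ g, T * spn γ X = spn γ X * T) →
    ∀ j, 0 < j → j < n → ∀ I : Fin j → Fin n, Function.Injective I →
      LinearMap.trace F S (T * (List.ofFn fun a => γ (I a)).prod) = 0

/-- REP: the Lie algebra theorem. A Lie algebra of skew-symmetric matrices which is irreducible
on `F^n` and has no invariants in the exterior powers consists of all skew-symmetric matrices,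
if `n ≥ 3`, `n ≠ 5`. -/
def SpecRep : Prop :=
  ∀ (F : Type) [Field F] [CharZero F] [IsAlgClosed F] (n : ℕ), 3 ≤ n → n ≠ 5 →
    ∀ g : Submodule F (Matrix (Fin n) (Fin n) F), (∀ X ∈ g, Xᵀ = -X) →
    (∀ X ∈ g, ∀ Y ∈ g, X * Y - Y * X ∈ g) →
    (∀ W : Submodule F (Fin n → F), (∀ X ∈ g, ∀ v ∈ W, X.mulVec v ∈ W) → W = ⊥ ∨ W = ⊤) →
    NoInv (g : Set (Matrix (Fin n) (Fin n) F)) → ∀ X : Matrix (Fin n) (Fin n) F, Xᵀ = -X → X ∈ g

end Pool.Agent.Lib.MPf11a48.K3
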