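import Pool.Agent.Lib.MP_f11a48_ag.K3.AlgSpec

/-!
# CAR: creation and annihilation operators
-/

set_option autoImplicit false
set_option linter.unusedSectionVars false

namespace Pool.Agent.Lib.MPf11a48.K3

open Module Matrix

namespace CarM

theorem sg_not (b : Bool) : sg (!b) = -sg b := by cases b <;> simp [sg]

theorem sg_sq (b : Bool) : sg b * sg b = 1 := by cases b <;> simp [sg]

variable {F : Type} [Field F] [CharZero F] {m : ℕ}

variable (F) in
/-- the product of the signs of the bits before `i` -/
noncomputable def s (i : Fin m) (ε : Fin m → Bool) : F :=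
  ∏ j ∈ Finset.Iio i, ((sg (ε j) : ℚ) : F)

theorem s_sq (i : Fin m) (ε : Fin m → Bool) : s F i ε * s F i ε = 1 := by
  rw [s, ← Finset.prod_mul_distrib]
  refine Finset.prod_eq_one fun j _ => ?_
  exact_mod_cast sg_sq (ε j)

theorem s_ge {i j : Fin m} (h : i ≤ j) (ε : Fin m → Bool) (b : Bool) :
    s F i (Function.update ε j b) = s F i ε := by
  refine Finset.prod_congr rfl fun k hk => ?_
  rw [Finset.mem_Iio] at hk
  rw [Function.update_of_ne (hk.trans_le h).ne]

theorem s_lt {i j : Fin m} (h : j < i) {ε : Fin m → Bool} {b : Bool} (hb : ε j = b) :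
    s F i (Function.update ε j (!b)) = -s F i ε := by
  have hj : j ∈ Finset.Iio i := Finset.mem_Iio.2 h
  rw [s, s, ← Finset.mul_prod_erase _ _ hj, ← Finset.mul_prod_erase _ _ hj,
    Function.update_self, sg_not, ← hb, ← neg_mul]
  congr 1
  · push_cast
    rfl
  · refine Finset.prod_congr rfl fun k hk => ?_
    rw [Function.update_of_ne (Finset.ne_of_mem_erase hk)]

/-- creation (`b = true`) and annihilation (`b = false`) operators -/
noncomputable def op (b : Bool) (i : Fin m) : Module.End F (SM m F) where
  toFun f := fun ε => if ε i = b then s F i ε * f (Function.update ε i (!b)) else 0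
  map_add' f g := by
    funext ε
    simp only [Pi.add_apply]
    split_ifs
    · ring
    · ring
  map_smul' t f := by
    funext ε
    simp only [Pi.smul_apply, smul_eq_mul, RingHom.id_apply]
    split_ifs
    · ring
    · ring

theorem op_apply (b : Bool) (i : Fin m) (f : SM m F) (ε : Fin m → Bool) :
    op b i f ε = if ε i = b then s F i ε * f (Function.update ε i (!b)) else 0 := rfl

theorem op_self (b : Bool) (i : Fin m) : (op b i : Module.End F (SM m F)) * op b i = 0 := by
  refine LinearMap.ext fun f => funext fun ε => ?_
  rw [Module.End.mul_apply, op_apply]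
  split_ifs with h
  · rw [op_apply, if_neg, mul_zero]
    · rfl
    · rw [Function.update_self]
      cases b <;> simp
  · rfl

theorem op_not_apply (b : Bool) (i : Fin m) (f : SM m F) (ε : Fin m → Bool) :
    (op b i * op (!b) i : Module.End F (SM m F)) f ε = if ε i = b then f ε else 0 := by
  rw [Module.End.mul_apply, op_apply]
  split_ifs with h
  · rw [op_apply, Function.update_self, if_pos rfl, s_ge le_rfl, ← mul_assoc, s_sq, one_mul,
      Function.update_idem, Bool.not_not, ← h, Function.update_eq_self]
  · rfl

theorem op_anti {i j : Fin m} (hij : i ≠ j) (b b' : Bool) :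
    (op b i : Module.End F (SM m F)) * op b' j + op b' j * op b i = 0 := by
  refine LinearMap.ext fun f => funext fun ε => ?_
  have e1 : Function.update (Function.update ε i (!b)) j (!b') =
      Function.update (Function.update ε j (!b')) i (!b) := Function.update_comm hij _ _ _
  change (op b i (op b' j f)) ε + (op b' j (op b i f)) ε = 0
  rw [op_apply, op_apply, op_apply, op_apply, Function.update_of_ne hij.symm,
    Function.update_of_ne hij, e1]
  by_cases h1 : ε i = b
  · by_cases h2 : ε j = b'
    · rw [if_pos h1, if_pos h2, if_pos h2, if_pos h1]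
      rcases lt_or_gt_of_ne hij with h | h
      · rw [s_lt h h1, s_ge h.le]
        ring
      · rw [s_lt h h2, s_ge h.le]
        ring
    · rw [if_pos h1, if_neg h2, if_neg h2, mul_zero, add_zero]
  · rw [if_neg h1, if_neg h1, mul_zero, zero_add, ite_self]

theorem op_same (b : Bool) (i j : Fin m) :
    (op b i : Module.End F (SM m F)) * op b j + op b j * op b i = 0 := by
  by_cases h : i = j
  · subst h
    rw [op_self, add_zero]
  · exact op_anti h b b

theorem op_diff (i j : Fin m) :
    (op true i : Module.End F (SM m F)) * op false j + op false j * op true i =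
      if i = j then 1 else 0 := by
  split_ifs with h
  · subst h
    refine LinearMap.ext fun f => funext fun ε => ?_
    have h1 := op_not_apply true i f ε
    have h2 := op_not_apply false i f ε
    rw [Bool.not_true] at h1
    rw [Bool.not_false] at h2
    change (op true i * op false i : Module.End F (SM m F)) f ε +
      (op false i * op true i : Module.End F (SM m F)) f ε = f ε
    rw [h1, h2]
    cases hε : ε i <;> simp
  · exact op_anti h true false

theorem prod_update (ε : Fin m → Bool) {i : Fin m} {b : Bool} (h : ε i = b) :
    (((∏ j, sg (Function.update ε i (!b) j) : ℚ)) : F) = -((∏ j, sg (ε j) : ℚ) : F) := by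
  have : (∏ j, sg (Function.update ε i (!b) j)) = -∏ j, sg (ε j) := by
    rw [← Finset.mul_prod_erase _ _ (Finset.mem_univ i),
      ← Finset.mul_prod_erase _ (fun j => sg (ε j)) (Finset.mem_univ i),
      Function.update_self, sg_not, ← h, ← neg_mul]
    congr 1
    refine Finset.prod_congr rfl fun k hk => ?_
    rw [Function.update_of_ne (Finset.ne_of_mem_erase hk)]
  rw [this]
  push_cast
  rfl

theorem chi_op (b : Bool) (i : Fin m) :
    chi m F * op b i = -((op b i : Module.End F (SM m F)) * chi m F) := by
  refine LinearMap.ext fun f => funext fun ε => ?_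
  change ((∏ j, sg (ε j) : ℚ) : F) * (op b i f) ε = -((op b i (chi m F f)) ε)
  rw [op_apply, op_apply]
  by_cases h : ε i = b
  · rw [if_pos h, if_pos h]
    change _ = -(s F i ε * (((∏ j, sg (Function.update ε i (!b) j) : ℚ) : F) *
      f (Function.update ε i (!b))))
    rw [prod_update ε h]
    ring
  · rw [if_neg h, if_neg h, mul_zero, neg_zero]

theorem chi_sq : chi m F * chi m F = 1 := by
  refine LinearMap.ext fun f => funext fun ε => ?_
  change ((∏ j, sg (ε j) : ℚ) : F) * (((∏ j, sg (ε j) : ℚ) : F) * f ε) = f ε
  have : (∏ j, sg (ε j)) * ∏ j, sg (ε j) = 1 := by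
    rw [← Finset.prod_mul_distrib]
    exact Finset.prod_eq_one fun j _ => sg_sq (ε j)
  rw [← mul_assoc, ← Rat.cast_mul, this, Rat.cast_one, one_mul]

/-- matrix units -/
noncomputable def mu1 (δ ε : Fin m → Bool) : Module.End F (SM m F) where
  toFun f := f ε • (es δ : SM m F)
  map_add' f g := by rw [Pi.add_apply, add_smul]
  map_smul' t f := by rw [Pi.smul_apply, smul_eq_mul, mul_smul, RingHom.id_apply]

theorem mu1_apply (δ ε : Fin m → Bool) (f : SM m F) (η : Fin m → Bool) :
    mu1 δ ε f η = if η = δ then f ε else 0 := by
  change f ε * (if η = δ then (1 : F) else 0) = _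
  rw [mul_ite, mul_one, mul_zero]

theorem mu1_mul (δ ε η : Fin m → Bool) :
    (mu1 δ ε : Module.End F (SM m F)) * mu1 ε η = mu1 δ η := by
  refine LinearMap.ext fun f => funext fun x => ?_
  rw [Module.End.mul_apply, mu1_apply, mu1_apply, mu1_apply, if_pos rfl]

variable {A : Subalgebra F (Module.End F (SM m F))}

theorem proj_mem (hA : ∀ b i, op b i ∈ A) (ε : Fin m → Bool) : mu1 ε ε ∈ A := by
  classical
  have key : ∀ l : List (Fin m), ∀ (f : SM m F) (η : Fin m → Bool),
      ((l.map fun i => (op (ε i) i * op (!(ε i)) i : Module.End F (SM m F))).prod) f η =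
        if ∀ i ∈ l, η i = ε i then f η else 0 := by
    intro l
    induction l with
    | nil =>
        intro f η
        simp
    | cons i l ih =>
        intro f η
        rw [List.map_cons, List.prod_cons, Module.End.mul_apply, op_not_apply, ih]
        by_cases h1 : η i = ε i
        · rw [if_pos h1]
          by_cases h2 : ∀ j ∈ l, η j = ε j
          · rw [if_pos h2, if_pos]
            intro j hj
            rcases List.mem_cons.1 hj with rfl | hj
            · exact h1
            · exact h2 j hj
          · rw [if_neg h2, if_neg]
            intro h3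
            exact h2 fun j hj => h3 j (List.mem_cons_of_mem _ hj)
        · rw [if_neg h1, if_neg]
          intro h3
          exact h1 (h3 i List.mem_cons_self)
  have h1 : (mu1 ε ε : Module.End F (SM m F)) = ((List.finRange m).map fun i =>
      (op (ε i) i * op (!(ε i)) i : Module.End F (SM m F))).prod := by
    refine LinearMap.ext fun f => funext fun η => ?_
    rw [key, mu1_apply]
    have : (∀ i ∈ List.finRange m, η i = ε i) ↔ η = ε := by
      constructor
      · intro h
        funext i
        exact h i (List.mem_finRange i)
      · rintro rfl i _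
        rfl
    by_cases h : η = ε
    · rw [if_pos h, if_pos (this.2 h), h]
    · rw [if_neg h, if_neg fun h' => h (this.1 h')]
  rw [h1]
  refine Subalgebra.list_prod_mem _ fun x hx => ?_
  obtain ⟨i, _, rfl⟩ := List.mem_map.1 hx
  exact A.mul_mem (hA _ _) (hA _ _)

theorem step_mem (hA : ∀ b i, op b i ∈ A) (ε : Fin m → Bool) (i : Fin m) (b : Bool) :
    mu1 (Function.update ε i b) ε ∈ A := by
  by_cases h : b = ε i
  · rw [h, Function.update_eq_self]
    exact proj_mem hA ε
  · have hb : (!b) = ε i := by
      cases b <;> cases h' : ε i <;> simp_all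
    have h1 : (mu1 (Function.update ε i b) ε : Module.End F (SM m F)) =
        s F i ε • (op b i * mu1 ε ε) := by
      refine LinearMap.ext fun f => funext fun η => ?_
      change mu1 (Function.update ε i b) ε f η = s F i ε * (op b i (mu1 ε ε f)) η
      rw [mu1_apply, op_apply, mu1_apply]
      by_cases h2 : η = Function.update ε i b
      · subst h2
        rw [if_pos rfl, Function.update_self, if_pos rfl, s_ge le_rfl, Function.update_idem,
          hb, Function.update_eq_self, if_pos rfl, ← mul_assoc, s_sq, one_mul]
      · rw [if_neg h2]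
        by_cases h3 : η i = b
        · rw [if_pos h3, if_neg, mul_zero, mul_zero]
          intro h4
          apply h2
          rw [← h4, Function.update_idem, ← h3, Function.update_eq_self]
        · rw [if_neg h3, mul_zero]
    rw [h1]
    exact A.smul_mem (A.mul_mem (hA _ _) (proj_mem hA ε)) _

theorem unit_mem (hA : ∀ b i, op b i ∈ A) (δ ε : Fin m → Bool) : mu1 δ ε ∈ A := by
  classical
  have key : ∀ t : Finset (Fin m), mu1 (fun i => if i ∈ t then δ i else ε i) ε ∈ A := by
    intro t
    induction t using Finset.induction_on with
    | empty =>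
        have : (fun i => if i ∈ (∅ : Finset (Fin m)) then δ i else ε i) = ε := by
          funext i
          simp
        rw [this]
        exact proj_mem hA ε
    | insert i t hi ih =>
        have : (fun j => if j ∈ insert i t then δ j else ε j) =
            Function.update (fun j => if j ∈ t then δ j else ε j) i (δ i) := by
          funext j
          by_cases hj : j = i
          · subst hj
            simp
          · rw [Function.update_of_ne hj]
            simp [hj]
        rw [this, ← mu1_mul _ (fun j => if j ∈ t then δ j else ε j)]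
        exact A.mul_mem (step_mem hA _ _ _) ih
  have := key Finset.univ
  simpa using this

theorem all_mem (hA : ∀ b i, op b i ∈ A) (T : Module.End F (SM m F)) : T ∈ A := by
  classical
  have h1 : T = ∑ ε : Fin m → Bool, ∑ δ : Fin m → Bool,
      (T (es ε) δ) • (mu1 δ ε : Module.End F (SM m F)) := by
    have h2 : ∀ f : SM m F, f = ∑ ε, f ε • (es ε : SM m F) := by
      intro f
      funext η
      rw [Finset.sum_apply, Finset.sum_eq_single η]
      · change f η = f η * (if η = η then (1 : F) else 0)
        rw [if_pos rfl, mul_one]
      · intro ε _ hε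
        change f ε * (if η = ε then (1 : F) else 0) = 0
        rw [if_neg (Ne.symm hε), mul_zero]
      · intro h
        exact absurd (Finset.mem_univ _) h
    refine LinearMap.ext fun f => funext fun η => ?_
    conv_lhs => rw [h2 f, map_sum]
    rw [Finset.sum_apply, LinearMap.sum_apply, Finset.sum_apply]
    refine Finset.sum_congr rfl fun ε _ => ?_
    rw [map_smul, LinearMap.sum_apply, Finset.sum_apply, Finset.sum_eq_single η]
    · change f ε * T (es ε) η = T (es ε) η * mu1 η ε f η
      rw [mu1_apply, if_pos rfl, mul_comm]
    · intro δ _ hδ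
      change T (es ε) δ * mu1 δ ε f η = 0
      rw [mu1_apply, if_neg (Ne.symm hδ), mul_zero]
    · intro h
      exact absurd (Finset.mem_univ _) h
  rw [h1]
  exact A.sum_mem fun ε _ => A.sum_mem fun δ _ => A.smul_mem (unit_mem hA δ ε) _

end CarM

theorem specCAR : SpecCAR := by
  intro F _ _ m
  refine ⟨CarM.op true, CarM.op false, CarM.op_same true, CarM.op_same false, CarM.op_diff, ?_,
    CarM.chi_op true, CarM.chi_op false, CarM.chi_sq, ?_⟩
  · intro i ε
    funext η
    have h := CarM.op_not_apply (F := F) true i (es ε) η
    rw [Bool.not_true] at h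
    rw [h]
    by_cases h1 : η = ε
    · subst h1
      split_ifs <;> rfl
    · have h2 : (es ε : SM m F) η = 0 := if_neg h1
      rw [h2, ite_self]
      split_ifs
      · exact h2.symm
      · rfl
  · rw [eq_top_iff]
    intro T _
    refine CarM.all_mem (fun b i => ?_) T
    refine Algebra.subset_adjoin ?_
    cases b
    · exact Or.inr ⟨i, rfl⟩
    · exact Or.inl ⟨i, rfl⟩

end Pool.Agent.Lib.MPf11a48.K3
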