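import Pool.Agent.Lib.MP_f11a48_ag.K3.AlgSpec

/-! # CEN: operators orthogonal to the intermediate Clifford monomials -/

set_option autoImplicit false
set_option linter.unusedSectionVars false

namespace Pool.Agent.Lib.MPf11a48.K3

open Module

namespace CenM

variable {F S : Type} [Field F] [CharZero F] [AddCommGroup S] [Module F S] {n : ℕ}
  {γ : Fin n → Module.End F S}

/-- the Clifford relations -/
abbrev Cl (γ : Fin n → Module.End F S) : Prop :=
  ∀ i j, γ i * γ j + γ j * γ i = if i = j then 1 else 0

theorem sq (hγ : Cl γ) (i : Fin n) : (2 : F) • (γ i * γ i) = 1 := by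
  have h := hγ i i
  rw [if_pos rfl] at h
  rw [two_smul, h]

theorem anti (hγ : Cl γ) {i j : Fin n} (h : i ≠ j) : γ i * γ j = -(γ j * γ i) := by
  have h1 := hγ i j
  rw [if_neg h] at h1
  exact eq_neg_of_add_eq_zero_left h1

/-- the product over a list -/
def P (γ : Fin n → Module.End F S) (l : List (Fin n)) : Module.End F S := (l.map γ).prod

theorem P_nil : P γ [] = 1 := rfl

theorem P_cons (a : Fin n) (l : List (Fin n)) : P γ (a :: l) = γ a * P γ l := by
  rw [P, List.map_cons, List.prod_cons]
  rfl

/-- commuting a generator through a product -/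
theorem comm_P (hγ : Cl γ) (k : Fin n) (l : List (Fin n)) (hl : l.Nodup) :
    γ k * P γ l = (((-1 : ℤ) ^ l.length * if k ∈ l then -1 else 1 : ℤ) : ℤ) • (P γ l * γ k) := by
  induction l with
  | nil => simp [P_nil]
  | cons a l ih =>
    have h1 := List.nodup_cons.1 hl
    have ih' := ih h1.2
    rw [P_cons]
    by_cases hk : k = a
    · subst hk
      have h2 : k ∉ l := h1.1
      rw [if_neg h2, mul_one] at ih'
      have h3 : k ∈ k :: l := List.mem_cons_self
      rw [if_pos h3, List.length_cons, pow_succ, mul_assoc (γ k) (P γ l) (γ k)]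
      have h5 : P γ l * γ k = ((-1) ^ l.length : ℤ) • (γ k * P γ l) := by
        rw [ih', smul_smul, ← pow_add, Even.neg_one_pow ⟨_, rfl⟩, one_smul]
      rw [h5, mul_smul_comm, smul_smul]
      have h6 : ((-1) ^ l.length * -1 * -1 * (-1) ^ l.length : ℤ) = 1 := by
        rw [mul_assoc, mul_assoc, neg_one_mul, neg_one_mul, neg_neg, ← pow_add,
          Even.neg_one_pow ⟨_, rfl⟩]
      rw [h6, one_smul]
    · have h2 : (k ∈ a :: l) ↔ k ∈ l := by
        rw [List.mem_cons]
        exact ⟨fun h => h.resolve_left hk, Or.inr⟩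
      have h3 : (if k ∈ a :: l then (-1 : ℤ) else 1) = if k ∈ l then -1 else 1 := by
        by_cases hkl : k ∈ l
        · rw [if_pos hkl, if_pos (h2.2 hkl)]
        · rw [if_neg hkl, if_neg (fun h => hkl (h2.1 h))]
      rw [h3, ← mul_assoc, anti hγ hk, neg_mul, mul_assoc, ih', List.length_cons, pow_succ,
        mul_smul_comm, mul_assoc (γ a) (P γ l) (γ k)]
      rw [← neg_smul]
      congr 1
      ring

/-- moving a generator to the front -/
theorem front (hγ : Cl γ) (i : Fin n) (l : List (Fin n)) (hl : l.Nodup) (hi : i ∈ l) :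
    ∃ s : ℤ, (s = 1 ∨ s = -1) ∧ P γ l = s • (γ i * P γ (l.erase i)) := by
  induction l with
  | nil => exact absurd hi (List.not_mem_nil)
  | cons a l ih =>
    have h1 := List.nodup_cons.1 hl
    by_cases ha : a = i
    · subst ha
      refine ⟨1, Or.inl rfl, ?_⟩
      rw [List.erase_cons_head, one_smul, P_cons]
    · have h2 : i ∈ l := (List.mem_cons.1 hi).resolve_left (Ne.symm ha)
      obtain ⟨s, hs, h3⟩ := ih h1.2 h2
      refine ⟨-s, ?_, ?_⟩
      · rcases hs with rfl | rfl
        · right
          rfl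
        · left
          rfl
      · rw [List.erase_cons_tail (by simpa using ha), P_cons, P_cons, h3, mul_smul_comm,
          ← mul_assoc, anti hγ ha, neg_mul, smul_neg, neg_smul, mul_assoc]

theorem span_top (hγ : Cl γ) (hA : Algebra.adjoin F (Set.range γ) = ⊤) :
    Submodule.span F {A | ∃ l : List (Fin n), l.Nodup ∧ A = P γ l} = ⊤ := by
  set W := Submodule.span F {A | ∃ l : List (Fin n), l.Nodup ∧ A = P γ l} with hW
  have h1 : ∀ i, ∀ w ∈ W, γ i * w ∈ W := by
    intro i w hw
    induction hw using Submodule.span_induction with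
    | mem x hx =>
      obtain ⟨l, hl, rfl⟩ := hx
      by_cases hi : i ∈ l
      · obtain ⟨s, -, h2⟩ := front hγ i l hl hi
        have h3 : γ i * P γ l = (s • (1 / 2 : F)) • P γ (l.erase i) := by
          rw [h2, mul_smul_comm, ← mul_assoc, smul_assoc]
          congr 1
          have h4 : γ i * γ i = (1 / 2 : F) • (1 : Module.End F S) := by
            rw [← sq hγ i, smul_smul]
            norm_num
          rw [h4, smul_mul_assoc, one_mul]
        rw [h3]
        exact Submodule.smul_mem _ _ (Submodule.subset_span ⟨_, hl.erase i, rfl⟩)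
      · rw [← P_cons]
        exact Submodule.subset_span ⟨_, List.nodup_cons.2 ⟨hi, hl⟩, rfl⟩
    | zero => rw [mul_zero]; exact zero_mem _
    | add x y _ _ hx hy => rw [mul_add]; exact add_mem hx hy
    | smul t x _ hx => rw [mul_smul_comm]; exact Submodule.smul_mem _ _ hx
  have h2 : ∀ A : Module.End F S, ∀ w ∈ W, A * w ∈ W := by
    intro A
    have hA' : A ∈ Algebra.adjoin F (Set.range γ) := by rw [hA]; trivial
    induction hA' using Algebra.adjoin_induction with
    | mem x hx =>
      obtain ⟨i, rfl⟩ := hx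
      exact h1 i
    | algebraMap r =>
      intro w hw
      rw [Algebra.algebraMap_eq_smul_one, smul_mul_assoc, one_mul]
      exact Submodule.smul_mem _ _ hw
    | add x y _ _ hx hy =>
      intro w hw
      rw [add_mul]
      exact add_mem (hx w hw) (hy w hw)
    | mul x y _ _ hx hy =>
      intro w hw
      rw [mul_assoc]
      exact hx _ (hy w hw)
  rw [eq_top_iff]
  intro A _
  have h3 := h2 A (P γ []) (Submodule.subset_span ⟨[], List.nodup_nil, rfl⟩)
  rwa [P_nil, mul_one] at h3

/-- nondegeneracy of the trace form -/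
theorem nondeg [Module.Finite F S] {A : Module.End F S}
    (h : ∀ B : Module.End F S, LinearMap.trace F S (A * B) = 0) : A = 0 := by
  refine LinearMap.ext fun v => ?_
  rw [LinearMap.zero_apply, ← Module.forall_dual_apply_eq_zero_iff F]
  intro φ
  have h1 := h (φ.smulRight v)
  have h2 : A * φ.smulRight v = φ.smulRight (A v) := by
    refine LinearMap.ext fun x => ?_
    rw [Module.End.mul_apply, LinearMap.smulRight_apply, LinearMap.smulRight_apply, map_smul]
  rw [h2, LinearMap.trace_smulRight] at h1
  exact h1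

/-- an operator commuting with all operators is a scalar -/
theorem scalar {A : Module.End F S} (h : ∀ B : Module.End F S, B * A = A * B) :
    ∃ t : F, A = t • 1 := by
  have h1 : A ∈ Subalgebra.center F (Module.End F S) := Subalgebra.mem_center_iff.2 h
  rw [Algebra.IsCentral.center_eq_bot] at h1
  obtain ⟨t, ht⟩ := Algebra.mem_bot.1 h1
  exact ⟨t, by rw [← ht, Algebra.algebraMap_eq_smul_one]⟩

theorem scalar' (hA : Algebra.adjoin F (Set.range γ) = ⊤) {A : Module.End F S}
    (h : ∀ i, γ i * A = A * γ i) : ∃ t : F, A = t • 1 := by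
  refine scalar fun B => ?_
  have hB : B ∈ Algebra.adjoin F (Set.range γ) := by rw [hA]; trivial
  induction hB using Algebra.adjoin_induction with
  | mem x hx =>
    obtain ⟨i, rfl⟩ := hx
    exact h i
  | algebraMap r => rw [Algebra.commutes]
  | add x y _ _ hx hy => rw [add_mul, mul_add, hx, hy]
  | mul x y _ _ hx hy => rw [mul_assoc, hy, ← mul_assoc, hx, mul_assoc]

/-- the pairs commute or anticommute with the monomials -/
theorem pair_P (hγ : Cl γ) {i k : Fin n} (l : List (Fin n)) (hl : l.Nodup) :
    γ i * γ k * P γ l =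
      ((if k ∈ l then -1 else 1) * (if i ∈ l then -1 else 1) : ℤ) • (P γ l * (γ i * γ k)) := by
  rw [mul_assoc, comm_P hγ k l hl, mul_smul_comm, ← mul_assoc, comm_P hγ i l hl, smul_mul_assoc,
    smul_smul, mul_assoc (P γ l)]
  congr 1
  have h6 : ((-1) ^ l.length * (-1) ^ l.length : ℤ) = 1 := by
    rw [← pow_add, Even.neg_one_pow ⟨_, rfl⟩]
  calc _ = ((-1) ^ l.length * (-1) ^ l.length : ℤ) *
        ((if k ∈ l then -1 else 1) * (if i ∈ l then -1 else 1)) := by ring
    _ = _ := by rw [h6, one_mul]

/-- if exactly one of `i, k` is in `l`: the product is orthogonal to `T` -/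
theorem orth (hγ : Cl γ) {T : Module.End F S}
    (hT : ∀ l : List (Fin n), l.Nodup → 0 < l.length → l.length < n →
      LinearMap.trace F S (T * P γ l) = 0) {i k : Fin n} (hik : i ≠ k) (l : List (Fin n))
    (hl : l.Nodup) (hi : i ∈ l) (hk : k ∉ l) :
    LinearMap.trace F S (T * (γ i * γ k * P γ l)) = 0 := by
  obtain ⟨s, -, h1⟩ := front hγ i l hl hi
  have h2 : (k :: l.erase i).Nodup :=
    List.nodup_cons.2 ⟨fun h => hk (List.mem_of_mem_erase h), hl.erase i⟩
  have h3 : (k :: l.erase i).length = l.length := by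
    rw [List.length_cons, List.length_erase_of_mem hi]
    have := List.length_pos_of_mem hi
    omega
  have h4 : l.length < n := by
    have h5 := List.Nodup.length_le_card (List.nodup_cons.2 ⟨hk, hl⟩)
    rw [List.length_cons, Fintype.card_fin] at h5
    omega
  have h5 := hT _ h2 (by rw [h3]; exact List.length_pos_of_mem hi) (by rw [h3]; exact h4)
  have h6 : γ i * γ k * P γ l = (-s • (1 / 2 : F)) • P γ (k :: l.erase i) := by
    have h4 : γ i * γ i = (1 / 2 : F) • (1 : Module.End F S) := by
      rw [← sq hγ i, smul_smul]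
      norm_num
    rw [h1, mul_smul_comm, ← mul_assoc, mul_assoc (γ i) (γ k) (γ i), anti hγ (Ne.symm hik), mul_neg,
      ← mul_assoc, h4, smul_mul_assoc, one_mul, P_cons, neg_mul, smul_mul_assoc, smul_neg,
      smul_assoc, neg_smul]
  rw [h6, mul_smul_comm, map_smul, h5, smul_zero]

theorem comm_pair [Module.Finite F S] (hγ : Cl γ) (hA : Algebra.adjoin F (Set.range γ) = ⊤)
    {T : Module.End F S}
    (hT : ∀ l : List (Fin n), l.Nodup → 0 < l.length → l.length < n →
      LinearMap.trace F S (T * P γ l) = 0) {i k : Fin n} (hik : i ≠ k) :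
    T * (γ i * γ k) = γ i * γ k * T := by
  rw [← sub_eq_zero]
  refine nondeg fun B => ?_
  have hB : B ∈ Submodule.span F {A | ∃ l : List (Fin n), l.Nodup ∧ A = P γ l} := by
    rw [span_top hγ hA]
    trivial
  induction hB using Submodule.span_induction with
  | mem x hx =>
    obtain ⟨l, hl, rfl⟩ := hx
    have h1 : LinearMap.trace F S ((T * (γ i * γ k) - γ i * γ k * T) * P γ l) =
        LinearMap.trace F S (T * (γ i * γ k * P γ l)) -
        LinearMap.trace F S (T * (P γ l * (γ i * γ k))) := by
      rw [sub_mul, map_sub, mul_assoc, mul_assoc (γ i * γ k), LinearMap.trace_mul_comm F (γ i * γ k),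
        mul_assoc T (P γ l)]
    have h2 := pair_P hγ (i := i) (k := k) l hl
    have h3 : LinearMap.trace F S (T * (P γ l * (γ i * γ k))) = 
        ((if k ∈ l then -1 else 1) * (if i ∈ l then -1 else 1) : ℤ) •
        LinearMap.trace F S (T * (γ i * γ k * P γ l)) := by
      rw [h2, mul_smul_comm, map_zsmul, smul_smul]
      split_ifs <;> norm_num
    rw [h1, h3]
    by_cases hi : i ∈ l <;> by_cases hk : k ∈ l
    · rw [if_pos hi, if_pos hk]
      norm_num
    · rw [orth hγ hT hik l hl hi hk, smul_zero, sub_zero]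
    · have h4 : γ i * γ k * P γ l = -(γ k * γ i * P γ l) := by
        rw [anti hγ hik, neg_mul]
      rw [h4, mul_neg, map_neg, orth hγ hT (Ne.symm hik) l hl hk hi, neg_zero, smul_zero, sub_zero]
    · rw [if_neg hi, if_neg hk]
      norm_num
  | zero => rw [mul_zero, map_zero]
  | add x y _ _ hx hy => rw [mul_add, map_add, hx, hy, add_zero]
  | smul t x _ hx => rw [mul_smul_comm, map_smul, hx, smul_zero]

end CenM

open CenM in
theorem specCen : SpecCen := by
  intro F S _ _ _ _ _ n γ hγ hA T hT0
  have hT : ∀ l : List (Fin n), l.Nodup → 0 < l.length → l.length < n →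
      LinearMap.trace F S (T * P γ l) = 0 := by
    intro l hl h0 h1
    have h2 := hT0 l.length h0 h1 l.get (List.nodup_iff_injective_get.1 hl)
    have h3 : (List.ofFn fun a => γ (l.get a)) = l.map γ := by
      have h4 : List.map γ (List.ofFn l.get) = List.ofFn (γ ∘ l.get) := List.map_ofFn
      rw [List.ofFn_get] at h4
      exact h4.symm
    rw [h3] at h2
    exact h2
  rcases Nat.eq_zero_or_pos n with hn | hn
  · subst hn
    obtain ⟨t, ht⟩ := scalar' hA (A := T) (fun i => i.elim0)
    exact ⟨fun _ => ⟨t, ht⟩, fun χ _ _ => ⟨t, 0, by rw [zero_smul, add_zero]; exact ht⟩⟩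
  set g : Module.End F S := γ ⟨0, hn⟩ with hg
  have hgg : (2 : F) • (g * g) = 1 := sq hγ _
  set R : Module.End F S := (2 : F) • (g * T * g) with hR
  set T0 : Module.End F S := (1 / 2 : F) • (T + R) with hT0'
  set T1 : Module.End F S := (1 / 2 : F) • (T - R) with hT1'
  have hsum : T = T0 + T1 := by
    rw [hT0', hT1', ← smul_add, add_add_sub_cancel, ← two_smul F, smul_smul]
    norm_num
  have hgR : g * R = T * g := by
    rw [hR, mul_smul_comm, ← mul_assoc, ← mul_assoc, ← smul_mul_assoc, ← smul_mul_assoc, hgg,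
      one_mul]
  have hRg : R * g = g * T := by
    rw [hR, smul_mul_assoc, mul_assoc, ← mul_smul_comm, hgg, mul_one]
  have e0 : g * T0 = T0 * g := by
    rw [hT0', mul_smul_comm, smul_mul_assoc, mul_add, add_mul, hgR, hRg, add_comm]
  have e1 : g * T1 = -(T1 * g) := by
    rw [hT1', mul_smul_comm, smul_mul_assoc, mul_sub, sub_mul, hgR, hRg, ← smul_neg, neg_sub]
  have hR' : ∀ k, (⟨0, hn⟩ : Fin n) ≠ k → R * (g * γ k) = g * γ k * R := by
    intro k hk
    have h1 := comm_pair hγ hA hT hk
    have h2 : g * (g * γ k) = -(g * γ k * g) := by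
      have h3 : γ k * g = -(g * γ k) := anti hγ (Ne.symm hk)
      rw [mul_assoc g (γ k) g, h3, mul_neg, neg_neg]
    rw [hR, smul_mul_assoc, mul_smul_comm]
    congr 1
    calc g * T * g * (g * γ k) = g * T * (g * (g * γ k)) := mul_assoc _ _ _
      _ = -(g * (T * (g * γ k)) * g) := by rw [h2, mul_neg]; simp only [mul_assoc]
      _ = -(g * (g * γ k * T) * g) := by rw [h1]
      _ = -(g * (g * γ k)) * (T * g) := by simp only [mul_assoc, neg_mul]
      _ = g * γ k * (g * T * g) := by rw [h2, neg_neg]; simp only [mul_assoc]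
  have hc0 : ∀ k, (⟨0, hn⟩ : Fin n) ≠ k → T0 * (g * γ k) = g * γ k * T0 := by
    intro k hk
    rw [hT0', smul_mul_assoc, mul_smul_comm, add_mul, mul_add, hR' k hk, comm_pair hγ hA hT hk]
  have hc1 : ∀ k, (⟨0, hn⟩ : Fin n) ≠ k → T1 * (g * γ k) = g * γ k * T1 := by
    intro k hk
    rw [hT1', smul_mul_assoc, mul_smul_comm, sub_mul, mul_sub, hR' k hk, comm_pair hγ hA hT hk]
  have hk2 : ∀ k, γ k = (2 : F) • (g * (g * γ k)) := by
    intro k
    rw [← mul_assoc, ← smul_mul_assoc, hgg, one_mul]
  clear_value T0 T1 R g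
  have f0 : ∀ k, γ k * T0 = T0 * γ k := by
    intro k
    by_cases hk : (⟨0, hn⟩ : Fin n) = k
    · rw [← hk, ← hg]
      exact e0
    · rw [hk2 k, smul_mul_assoc, mul_smul_comm]
      congr 1
      rw [mul_assoc, ← hc0 k hk, ← mul_assoc, e0, mul_assoc]
  have f1 : ∀ k, γ k * T1 = -(T1 * γ k) := by
    intro k
    by_cases hk : (⟨0, hn⟩ : Fin n) = k
    · rw [← hk, ← hg]
      exact e1
    · rw [hk2 k, smul_mul_assoc, mul_smul_comm, ← smul_neg]
      congr 1
      rw [mul_assoc, ← hc1 k hk, ← mul_assoc, e1, neg_mul, mul_assoc]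
  obtain ⟨t, ht⟩ := scalar' hA f0
  refine ⟨fun hodd => ⟨t, ?_⟩, fun χ hχ hχγ => ?_⟩
  · rcases subsingleton_or_nontrivial S with hS | hS
    · exact LinearMap.ext fun v => Subsingleton.elim _ _
    have hω : ∀ i, γ i * P γ (List.finRange n) = P γ (List.finRange n) * γ i := by
      intro i
      rw [comm_P hγ i _ (List.nodup_finRange n), if_pos (List.mem_finRange i),
        List.length_finRange, hodd.neg_one_pow]
      norm_num
    obtain ⟨s, hs⟩ := scalar' hA hω
    have hs0 : s ≠ 0 := by
      have h1 : ∀ l : List (Fin n), IsUnit (P γ l) := by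
        intro l
        induction l with
        | nil => exact isUnit_one
        | cons a l ih =>
          rw [P_cons]
          refine IsUnit.mul ?_ ih
          refine isUnit_iff_exists.2 ⟨(2 : F) • γ a, ?_, ?_⟩
          · rw [mul_smul_comm]
            exact sq hγ a
          · rw [smul_mul_assoc]
            exact sq hγ a
      rintro rfl
      have h2 := h1 (List.finRange n)
      rw [hs, zero_smul] at h2
      exact not_isUnit_zero h2
    have h1 : ∀ l : List (Fin n), P γ l * T1 = ((-1 : ℤ) ^ l.length) • (T1 * P γ l) := by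
      intro l
      induction l with
      | nil => simp [P_nil]
      | cons a l ih =>
        rw [P_cons, mul_assoc, ih, mul_smul_comm, ← mul_assoc, f1, List.length_cons, pow_succ,
          neg_mul, mul_assoc, smul_neg, ← neg_smul]
        congr 1
        ring
    have h2 := h1 (List.finRange n)
    rw [List.length_finRange, hodd.neg_one_pow, hs, smul_mul_assoc, one_mul, mul_smul_comm,
      mul_one, neg_smul, one_smul, eq_neg_iff_add_eq_zero, ← two_smul F, smul_smul] at h2
    have h3 : T1 = 0 := (smul_eq_zero.1 h2).resolve_left (mul_ne_zero two_ne_zero hs0)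
    rw [hsum, h3, add_zero]
    exact ht
  · have h1 : ∀ i, γ i * (T1 * χ) = T1 * χ * γ i := by
      intro i
      rw [← mul_assoc, f1, mul_assoc T1 χ, hχγ, neg_mul, mul_neg, mul_assoc]
    obtain ⟨s, hs⟩ := scalar' hA h1
    refine ⟨t, s, ?_⟩
    have h2 : T1 = s • χ := by
      calc T1 = T1 * χ * χ := by rw [mul_assoc, hχ, mul_one]
        _ = s • χ := by rw [hs, smul_mul_assoc, one_mul]
    conv_lhs => rw [hsum]
    rw [h2, ht]

end Pool.Agent.Lib.MPf11a48.K3
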