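import Pool.Agent.Lib.MP_f11a48_ag.K3.CliffCore

/-!
# CLE: Clifford operators from a hyperbolic weight basis, `n = 2m`
-/

set_option autoImplicit false
set_option linter.unusedSectionVars false

namespace Pool.Agent.Lib.MPf11a48.K3

open Module LieAlgebra Matrix

namespace CleM

/-- completeness of a hyperbolic basis -/
theorem complete {F : Type} [Field F] {m : ℕ} (v v' : Fin m → Fin (2 * m) → F)
    (hvv : ∀ i j, v i ⬝ᵥ v j = 0) (hvv' : ∀ i j, v' i ⬝ᵥ v' j = 0)
    (hdual : ∀ i j, v i ⬝ᵥ v' j = if i = j then 1 else 0) (k l : Fin (2 * m)) :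
    ∑ i, (v i k * v' i l + v' i k * v i l) = if k = l then 1 else 0 := by
  let P : Matrix (Fin (2 * m)) (Fin m ⊕ Fin m) F :=
    Matrix.of fun k s => Sum.elim (fun i => v i k) (fun i => v' i k) s
  let Q : Matrix (Fin m ⊕ Fin m) (Fin (2 * m)) F :=
    Matrix.of fun s k => Sum.elim (fun i => v' i k) (fun i => v i k) s
  have hQP : Q * P = 1 := by
    ext s t
    rw [Matrix.mul_apply, Matrix.one_apply]
    rcases s with i | i <;> rcases t with j | j
    · have e : ∑ x, Q (Sum.inl i) x * P x (Sum.inl j) = v' i ⬝ᵥ v j := rfl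
      rw [e, dotProduct_comm, hdual]
      simp only [Sum.inl.injEq, eq_comm]
    · have e : ∑ x, Q (Sum.inl i) x * P x (Sum.inr j) = v' i ⬝ᵥ v' j := rfl
      rw [e, hvv', if_neg (by simp)]
    · have e : ∑ x, Q (Sum.inr i) x * P x (Sum.inl j) = v i ⬝ᵥ v j := rfl
      rw [e, hvv, if_neg (by simp)]
    · have e : ∑ x, Q (Sum.inr i) x * P x (Sum.inr j) = v i ⬝ᵥ v' j := rfl
      rw [e, hdual]
      simp only [Sum.inr.injEq]
  have hPQ : P * Q = 1 := by
    refine (Matrix.mul_eq_one_comm_of_card_eq _ _ _ ?_).1 hQP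
    simp only [Fintype.card_sum, Fintype.card_fin]
    omega
  have h := congrFun (congrFun hPQ k) l
  rw [Matrix.mul_apply, Matrix.one_apply, Fintype.sum_sum_type] at h
  rw [← h, ← Finset.sum_add_distrib]
  rfl

end CleM

/-- CLE -/
theorem specCle (hCAR : SpecCAR) : SpecCle := by
  intro F L _ _ _ _ H m θ b
  obtain ⟨γ, h1, h2, h3, h4⟩ := CliffCoreM.main hCAR H θ b 0
    (fun h => Matrix.mulVec_zero _) (fun i => zero_dotProduct _) (fun i => zero_dotProduct _)
    (fun k l => by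
      rw [Pi.zero_apply, zero_mul, mul_zero, add_zero]
      exact CleM.complete b.v b.v' b.vv b.vv' b.dual k l)
  exact ⟨γ, h1, h2 rfl, h3, h4⟩

end Pool.Agent.Lib.MPf11a48.K3
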