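import Pool.Agent.Lib.MP_f11a48_ag.K3.CliffCore

/-!
# CLO: Clifford operators from a hyperbolic weight basis, `n = 2m + 1`
-/

set_option autoImplicit false
set_option linter.unusedSectionVars false

namespace Pool.Agent.Lib.MPf11a48.K3

open Module LieAlgebra Matrix

namespace CloM

/-- completeness of a hyperbolic basis -/
theorem complete {F : Type} [Field F] [CharZero F] {m : ℕ} (v v' : Fin m → Fin (2 * m + 1) → F)
    (u : Fin (2 * m + 1) → F)
    (hvv : ∀ i j, v i ⬝ᵥ v j = 0) (hvv' : ∀ i j, v' i ⬝ᵥ v' j = 0)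
    (hdual : ∀ i j, v i ⬝ᵥ v' j = if i = j then 1 else 0) (huu : u ⬝ᵥ u = 2)
    (huv : ∀ i, u ⬝ᵥ v i = 0) (huv' : ∀ i, u ⬝ᵥ v' i = 0) (k l : Fin (2 * m + 1)) :
    ∑ i, (v i k * v' i l + v' i k * v i l) + (1 / 2 : F) * (u k * u l) =
      if k = l then 1 else 0 := by
  let P : Matrix (Fin (2 * m + 1)) ((Fin m ⊕ Fin m) ⊕ Unit) F :=
    Matrix.of fun k s => Sum.elim (Sum.elim (fun i => v i k) (fun i => v' i k)) (fun _ => u k) s
  let Q : Matrix ((Fin m ⊕ Fin m) ⊕ Unit) (Fin (2 * m + 1)) F :=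
    Matrix.of fun s k => Sum.elim (Sum.elim (fun i => v' i k) (fun i => v i k))
      (fun _ => (1 / 2 : F) * u k) s
  have hQP : Q * P = 1 := by
    ext s t
    rw [Matrix.mul_apply, Matrix.one_apply]
    rcases s with (i | i) | i <;> rcases t with (j | j) | j
    · have e : ∑ x, Q (Sum.inl (Sum.inl i)) x * P x (Sum.inl (Sum.inl j)) = v' i ⬝ᵥ v j := rfl
      rw [e, dotProduct_comm, hdual]
      simp only [Sum.inl.injEq, eq_comm]
    · have e : ∑ x, Q (Sum.inl (Sum.inl i)) x * P x (Sum.inl (Sum.inr j)) = v' i ⬝ᵥ v' j := rfl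
      rw [e, hvv', if_neg (by simp)]
    · have e : ∑ x, Q (Sum.inl (Sum.inl i)) x * P x (Sum.inr j) = v' i ⬝ᵥ u := rfl
      rw [e, dotProduct_comm, huv', if_neg (by simp)]
    · have e : ∑ x, Q (Sum.inl (Sum.inr i)) x * P x (Sum.inl (Sum.inl j)) = v i ⬝ᵥ v j := rfl
      rw [e, hvv, if_neg (by simp)]
    · have e : ∑ x, Q (Sum.inl (Sum.inr i)) x * P x (Sum.inl (Sum.inr j)) = v i ⬝ᵥ v' j := rfl
      rw [e, hdual]
      simp only [Sum.inl.injEq, Sum.inr.injEq]
    · have e : ∑ x, Q (Sum.inl (Sum.inr i)) x * P x (Sum.inr j) = v i ⬝ᵥ u := rfl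
      rw [e, dotProduct_comm, huv, if_neg (by simp)]
    · have e : ∑ x, Q (Sum.inr i) x * P x (Sum.inl (Sum.inl j)) = (1 / 2 : F) * (u ⬝ᵥ v j) := by
        rw [dotProduct, Finset.mul_sum]
        exact Finset.sum_congr rfl fun x _ => mul_assoc _ _ _
      rw [e, huv, if_neg (by simp), mul_zero]
    · have e : ∑ x, Q (Sum.inr i) x * P x (Sum.inl (Sum.inr j)) = (1 / 2 : F) * (u ⬝ᵥ v' j) := by
        rw [dotProduct, Finset.mul_sum]
        exact Finset.sum_congr rfl fun x _ => mul_assoc _ _ _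
      rw [e, huv', if_neg (by simp), mul_zero]
    · have e : ∑ x, Q (Sum.inr i) x * P x (Sum.inr j) = (1 / 2 : F) * (u ⬝ᵥ u) := by
        rw [dotProduct, Finset.mul_sum]
        exact Finset.sum_congr rfl fun x _ => mul_assoc _ _ _
      rw [e, huu, if_pos rfl]
      norm_num
  have hPQ : P * Q = 1 := by
    refine (Matrix.mul_eq_one_comm_of_card_eq _ _ _ ?_).1 hQP
    simp only [Fintype.card_sum, Fintype.card_fin, Fintype.card_unit]
    omega
  have h := congrFun (congrFun hPQ k) l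
  rw [Matrix.mul_apply, Matrix.one_apply, Fintype.sum_sum_type, Fintype.sum_sum_type] at h
  rw [← h, ← Finset.sum_add_distrib]
  have e : ∑ x : Unit, P k (Sum.inr x) * Q (Sum.inr x) l = u k * ((1 / 2 : F) * u l) := by
    rw [Finset.univ_unique, Finset.sum_singleton]
    rfl
  rw [e]
  have e2 : (1 / 2 : F) * (u k * u l) = u k * ((1 / 2 : F) * u l) := by ring
  rw [e2]
  rfl

end CloM

/-- CLO -/
theorem specClo (hCAR : SpecCAR) : SpecClo := by
  intro F L _ _ _ _ H m θ b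
  obtain ⟨γ, h1, -, h3, h4⟩ := CliffCoreM.main hCAR H θ b.toHB b.u b.wu b.uv b.uv'
    (fun k l => CloM.complete b.v b.v' b.u b.vv b.vv' b.dual b.uu b.uv b.uv' k l)
  exact ⟨γ, h1, h3, h4⟩

end Pool.Agent.Lib.MPf11a48.K3
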