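import Pool.Agent.Lib.MP_f11a48_ag.K3.BSpec

/-! # Torsors containing a sum of orthogonal objects -/

set_option autoImplicit false
set_option linter.unusedSectionVars false

namespace Pool.Agent.Lib.MPf11a48.K3

open Matrix MvPolynomial Pool.Agent.Lib.MPf11a48.Tors
open Pool.Agent.Lib.MPf11a48.CM hiding OmegaM
open Pool.Agent.Lib.MPf11a48.GL2 (Geo lie Form app1)

namespace CorN

/-- families of matrices -/
abbrev Fam {κ : Type} (n : κ → ℕ) (R : Type) : Type := (k : κ) → Matrix (Fin (n k)) (Fin (n k)) R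

theorem map_mul_D {I : Type} [Fintype I] (D : Derivation Qbar ℂ ℂ) (A B : Matrix I I ℂ) :
    (A * B).map D = A.map D * B + A * B.map D := by
  ext i j
  rw [Matrix.map_apply, Matrix.mul_apply, map_sum, Matrix.add_apply, Matrix.mul_apply,
    Matrix.mul_apply, ← Finset.sum_add_distrib]
  refine Finset.sum_congr rfl fun k _ => ?_
  rw [D.leibniz, Matrix.map_apply, Matrix.map_apply, smul_eq_mul, smul_eq_mul]
  ring

theorem map_one_D {I : Type} [Fintype I] [DecidableEq I] (D : Derivation Qbar ℂ ℂ) :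
    (1 : Matrix I I ℂ).map D = 0 := by
  ext i j
  rw [Matrix.map_apply, Matrix.one_apply]
  split_ifs
  · exact D.map_one_eq_zero
  · exact D.map_zero

theorem so_inv {m : ℕ} (c : SO m) : c.1⁻¹.1 = c.1.1ᵀ := by
  have h1 : c.1.1 * c.1⁻¹.1 = 1 := c.1.mul_inv
  have h2 : c.1.1ᵀ * c.1.1 = 1 := c.2.1
  calc c.1⁻¹.1 = (c.1.1ᵀ * c.1.1) * c.1⁻¹.1 := by rw [h2, one_mul]
    _ = c.1.1ᵀ := by rw [Matrix.mul_assoc, h1, mul_one]

/-- the logarithmic derivative of an orthogonal matrix is skew-symmetric -/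
theorem dlog_skew {m : ℕ} (D : Derivation Qbar ℂ ℂ) (c : SO m) :
    (dlog D c.1)ᵀ = -dlog D c.1 := by
  have h1 : c.1.1 * c.1.1ᵀ = 1 := by
    rw [← so_inv]
    exact c.1.mul_inv
  have h2 : c.1.1.map D * c.1.1ᵀ + c.1.1 * (c.1.1ᵀ).map D = 0 := by
    rw [← map_mul_D, h1, map_one_D]
  rw [transpose_map] at h2
  rw [dlog, so_inv, transpose_mul, transpose_transpose]
  exact eq_neg_of_add_eq_zero_right h2

theorem app1_skew {m : ℕ} (l : Form) {A : Matrix (Fin m) (Fin m) ℂ} (h : Aᵀ = -A) :
    (app1 l A)ᵀ = -app1 l A := by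
  ext i j
  have h1 := congrFun (congrFun h i) j
  rw [transpose_apply, Matrix.neg_apply] at h1
  rw [transpose_apply, Matrix.neg_apply]
  have h2 : l (A j i) = -l (A i j) := by rw [h1, map_neg]
  exact congrArg Subtype.val h2

theorem toC_skew {m : ℕ} {A : Matrix (Fin m) (Fin m) Qbar} (h : Aᵀ = -A) :
    (toC A)ᵀ = -toC A := by
  rw [← transpose_map, h]
  ext i j
  exact map_neg (algebraMap Qbar ℂ) (A i j)

theorem toC_add {m : ℕ} (A B : Matrix (Fin m) (Fin m) Qbar) : toC (A + B) = toC A + toC B := by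
  ext i j
  exact map_add (algebraMap Qbar ℂ) (A i j) (B i j)

theorem toC_sub {m : ℕ} (A B : Matrix (Fin m) (Fin m) Qbar) : toC (A - B) = toC A - toC B := by
  ext i j
  exact map_sub (algebraMap Qbar ℂ) (A i j) (B i j)

theorem toC_smul {m : ℕ} (t : Qbar) (A : Matrix (Fin m) (Fin m) Qbar) :
    toC (t • A) = (t : ℂ) • toC A := by
  ext i j
  exact map_mul (algebraMap Qbar ℂ) t (A i j)

theorem pair_mem {n m : ℕ} {N : Submodule ℂ (Matrix (Fin n) (Fin n) ℂ × Matrix (Fin m) (Fin m) ℂ)}
    {X : Matrix (Fin n) (Fin n) ℂ} {Y : Matrix (Fin m) (Fin m) ℂ}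
    (h : ∀ l : Form, (toC (app1 l X), toC (app1 l Y)) ∈ N) : (X, Y) ∈ N := by
  obtain ⟨r, β, l, hX⟩ := GL2.exists_expansion (J := (Fin n × Fin n) ⊕ (Fin m × Fin m))
    (Sum.elim (fun x => X x.1 x.2) fun x => Y x.1 x.2)
  have h1 : (X, Y) = ∑ i, β i • (toC (app1 (l i) X), toC (app1 (l i) Y)) := by
    refine Prod.ext ?_ ?_
    · rw [Prod.fst_sum]
      refine Matrix.ext fun i j => ?_
      have := hX (Sum.inl (i, j))
      simp only [Sum.elim_inl] at this
      refine this.trans ?_
      rw [Matrix.sum_apply]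
      rfl
    · rw [Prod.snd_sum]
      refine Matrix.ext fun i j => ?_
      have := hX (Sum.inr (i, j))
      simp only [Sum.elim_inr] at this
      refine this.trans ?_
      rw [Matrix.sum_apply]
      rfl
  rw [h1]
  exact N.sum_mem fun i _ => N.smul_mem _ (h _)

variable {κ J : Type} [Fintype κ] [Fintype J] [DecidableEq κ] [DecidableEq J] {n : κ → ℕ}

theorem blk_zero {R : Type} [CommRing R] : blk (0 : Fam n R) (0 : J → R) = 0 := by
  have h := blk_smul (0 : R) (0 : Fam n R) (0 : J → R)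
  rw [zero_smul] at h
  rw [h]
  congr 1
  · funext k
    exact (zero_smul R _).symm
  · funext j
    exact (zero_mul _).symm

theorem br_blk {T : Set (GL (BI n J) ℂ)} {A B : Fam n ℂ} {y z : J → ℂ} (hA : blk A y ∈ lie T)
    (hB : blk B z ∈ lie T) :
    blk (fun k => A k * B k - B k * A k) (fun _ : J => (0 : ℂ)) ∈ lie T := by
  have h := GL2.lie_br hA hB
  rw [blk_mul, blk_mul, blk_sub] at h
  have e : (fun j => y j * z j - z j * y j) = fun _ : J => (0 : ℂ) := by
    funext j
    ring
  rwa [e] at h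

/-- the algebraic points of the orthogonal part of the Lie algebra -/
noncomputable def NQ (T : Set (GL (BI n J) ℂ)) : Submodule Qbar (Fam n Qbar) where
  carrier := {A | (∀ k, (A k)ᵀ = -A k) ∧ ∃ y : J → ℂ, blk (fun k => toC (A k)) y ∈ lie T}
  add_mem' := by
    rintro A B ⟨hA, y, hy⟩ ⟨hB, z, hz⟩
    refine ⟨fun k => ?_, fun j => y j + z j, ?_⟩
    · rw [Pi.add_apply, transpose_add, hA, hB, neg_add]
    · have h1 := (lie T).add_mem hy hz
      rw [blk_add] at h1
      have e : (fun k => toC ((A + B) k)) = fun k => toC (A k) + toC (B k) := by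
        funext k
        exact toC_add _ _
      rw [e]
      exact h1
  zero_mem' := by
    refine ⟨fun k => ?_, 0, ?_⟩
    · rw [Pi.zero_apply, transpose_zero, neg_zero]
    · have e : (fun k => toC ((0 : Fam n Qbar) k)) = 0 := by
        funext k
        ext i j
        exact map_zero (algebraMap Qbar ℂ)
      rw [e, blk_zero]
      exact (lie T).zero_mem
  smul_mem' := by
    rintro t A ⟨hA, y, hy⟩
    refine ⟨fun k => ?_, fun j => (t : ℂ) * y j, ?_⟩
    · rw [Pi.smul_apply, transpose_smul, hA, smul_neg]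
    · have h1 := (lie T).smul_mem (t : ℂ) hy
      rw [blk_smul] at h1
      have e : (fun k => toC ((t • A) k)) = fun k => (t : ℂ) • toC (A k) := by
        funext k
        exact toC_smul _ _
      rw [e]
      exact h1

theorem NQ_br {T : Set (GL (BI n J) ℂ)} {A B : Fam n Qbar} (hA : A ∈ NQ T) (hB : B ∈ NQ T) :
    (fun k => A k * B k - B k * A k) ∈ NQ T := by
  obtain ⟨hA, y, hy⟩ := hA
  obtain ⟨hB, z, hz⟩ := hB
  refine ⟨fun k => ?_, fun _ => 0, ?_⟩
  · rw [transpose_sub, transpose_mul, transpose_mul, hA, hB]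
    noncomm_ring
  · have h1 := br_blk hy hz
    have e : (fun k => toC (A k * B k - B k * A k)) =
        fun k => toC (A k) * toC (B k) - toC (B k) * toC (A k) := by
      funext k
      rw [toC_sub, toC_mul, toC_mul]
    rw [e]
    exact h1

/-- logarithmic derivatives, by linear forms -/
theorem log_mem {T : Set (GL (BI n J) ℂ)} (h : Geo T) {c : Pt n J} (hc : blkP c ∈ T)
    (D : Derivation Qbar ℂ ℂ) (l : Form) : (fun k => app1 l (dlog D (c.1 k).1)) ∈ NQ T := by
  have h1 := h.deriv_mem hc D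
  rw [← blkP_inv, blkP_val, blkP_val, blk_map D D.map_zero, blk_mul] at h1
  have h2 := h.lie_rat l h1
  have e1 : app1 l (blk (fun k => (c.1 k).1.1.map D * ((c⁻¹ : Pt n J).1 k).1.1)
      (fun j => D (c.2 j : ℂ) * ((c⁻¹ : Pt n J).2 j : ℂ))) =
      blk (fun k => app1 l (dlog D (c.1 k).1)) (fun j => l (D (c.2 j : ℂ) * ((c⁻¹ : Pt n J).2 j : ℂ))) :=
    blk_map (fun z => l z) (LinearMap.map_zero l) _ _
  rw [e1] at h2
  have e2 : toC (blk (fun k => app1 l (dlog D (c.1 k).1))
      (fun j => l (D (c.2 j : ℂ) * ((c⁻¹ : Pt n J).2 j : ℂ)))) =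
      blk (fun k => toC (app1 l (dlog D (c.1 k).1)))
        (fun j => ((l (D (c.2 j : ℂ) * ((c⁻¹ : Pt n J).2 j : ℂ)) : Qbar) : ℂ)) :=
    blk_map (fun z : Qbar => (z : ℂ)) rfl _ _
  rw [e2] at h2
  exact ⟨fun k => app1_skew l (dlog_skew D (c.1 k)), _, h2⟩

section full

variable (hRep : SpecRep) (hIrr : SpecIrr) (hExt : SpecExt) (hLnk : SpecLnk) (hGour : SpecGour)

include hRep hIrr hExt hLnk hGour

theorem NQ_full {T : Set (GL (BI n J) ℂ)} (h : Geo T) {c : Pt n J} (hc : blkP c ∈ T)
    (hg : Good c) {A : Fam n Qbar} (hA : ∀ k, (A k)ᵀ = -A k) : A ∈ NQ T := by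
  refine hGour Qbar κ n hg.three (NQ T) (fun X hX => hX.1) (fun X hX Y hY => NQ_br hX hY) ?_ ?_ A hA
  · -- projections
    intro k A hA
    let g : Submodule Qbar (Matrix (Fin (n k)) (Fin (n k)) Qbar) :=
      (NQ T).map (LinearMap.proj k : Fam n Qbar →ₗ[Qbar] Matrix (Fin (n k)) (Fin (n k)) Qbar)
    have hlog : HasLog (c.1 k).1 (g : Set (Matrix (Fin (n k)) (Fin (n k)) Qbar)) := by
      intro D
      refine GL2.mem_of_app1 fun l => Submodule.subset_span ⟨_, ?_, rfl⟩
      exact ⟨_, log_mem h hc D l, rfl⟩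
    have h1 := hRep Qbar (n k) (hg.three k) (hg.five k) g (by
      rintro _ ⟨X, hX, rfl⟩
      exact hX.1 k) (by
      rintro _ ⟨X, hX, rfl⟩ _ ⟨Y, hY, rfl⟩
      exact ⟨_, NQ_br hX hY, rfl⟩) (hIrr _ _ _ (hg.irr k) hlog) (hExt _ _ _ (hg.ext k) hlog) A hA
    obtain ⟨X, hX, hXA⟩ := h1
    exact ⟨X, hX, hXA⟩
  · intro k l hkl
    refine hLnk _ _ (c.1 k).1 (c.1 l).1 _ ?_ (hg.lnk k l hkl) ?_
    · rintro _ ⟨X, hX, rfl⟩
      exact ⟨hX.1 k, hX.1 l⟩
    · intro D
      refine pair_mem fun f => Submodule.subset_span ⟨_, ⟨_, log_mem h hc D f, rfl⟩, rfl⟩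

theorem single_mem (hPerf : SpecPerf) {T : Set (GL (BI n J) ℂ)} (h : Geo T) {c : Pt n J}
    (hc : blkP c ∈ T) (hg : Good c) (k : κ) {A : Matrix (Fin (n k)) (Fin (n k)) ℂ}
    (hA : Aᵀ = -A) : blk (Pi.single k A : Fam n ℂ) (0 : J → ℂ) ∈ lie T := by
  -- over `Qbar`
  have key : ∀ B : Matrix (Fin (n k)) (Fin (n k)) Qbar, Bᵀ = -B →
      blk (Pi.single k (toC B) : Fam n ℂ) (0 : J → ℂ) ∈ lie T := by
    intro B hB
    have h1 := hPerf Qbar (n k) (hg.three k) B hB
    refine Submodule.span_induction (p := fun B _ =>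
      blk (Pi.single k (toC B) : Fam n ℂ) (0 : J → ℂ) ∈ lie T) ?_ ?_ ?_ ?_ h1
    · rintro _ ⟨X, Y, hX, hY, rfl⟩
      have hs : ∀ Z : Matrix (Fin (n k)) (Fin (n k)) Qbar, Zᵀ = -Z →
          (Pi.single k Z : Fam n Qbar) ∈ NQ T := by
        intro Z hZ
        refine NQ_full hRep hIrr hExt hLnk hGour h hc hg fun k' => ?_
        by_cases hk : k' = k
        · subst hk
          rw [Pi.single_eq_same, hZ]
        · rw [Pi.single_eq_of_ne hk, transpose_zero, neg_zero]
      obtain ⟨_, y, hy⟩ := hs X hX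
      obtain ⟨_, z, hz⟩ := hs Y hY
      have h2 := br_blk hy hz
      convert h2 using 2
      · funext k'
        by_cases hk : k' = k
        · subst hk
          rw [Pi.single_eq_same, Pi.single_eq_same, Pi.single_eq_same, toC_sub, toC_mul, toC_mul]
        · rw [Pi.single_eq_of_ne hk, Pi.single_eq_of_ne hk, Pi.single_eq_of_ne hk]
          ext i j
          simp [Matrix.mul_apply]
      · rfl
    · have e : (Pi.single k (toC (0 : Matrix (Fin (n k)) (Fin (n k)) Qbar)) : Fam n ℂ) = 0 := by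
        have : toC (0 : Matrix (Fin (n k)) (Fin (n k)) Qbar) = 0 := by
          ext i j
          exact map_zero (algebraMap Qbar ℂ)
        rw [this, Pi.single_zero]
      rw [e, blk_zero]
      exact (lie T).zero_mem
    · intro X Y _ _ hX hY
      have h2 := (lie T).add_mem hX hY
      rw [blk_add] at h2
      convert h2 using 2
      · rw [toC_add, Pi.single_add]
        rfl
      · funext j
        exact (add_zero _).symm
    · intro t X _ hX
      have h2 := (lie T).smul_mem (t : ℂ) hX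
      rw [blk_smul] at h2
      convert h2 using 2
      · rw [toC_smul, Pi.single_smul]
        rfl
      · funext j
        exact (mul_zero _).symm
  let N : Submodule ℂ (Matrix (Fin (n k)) (Fin (n k)) ℂ) :=
    { carrier := {B | blk (Pi.single k B : Fam n ℂ) (0 : J → ℂ) ∈ lie T}
      add_mem' := by
        intro X Y hX hY
        have h2 := (lie T).add_mem hX hY
        rw [blk_add] at h2
        change blk (Pi.single k (X + Y) : Fam n ℂ) (0 : J → ℂ) ∈ lie T
        convert h2 using 2
        · rw [Pi.single_add]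
          rfl
        · funext j
          exact (add_zero _).symm
      zero_mem' := by
        change blk (Pi.single k 0 : Fam n ℂ) (0 : J → ℂ) ∈ lie T
        rw [Pi.single_zero, blk_zero]
        exact (lie T).zero_mem
      smul_mem' := by
        intro t X hX
        have h2 := (lie T).smul_mem t hX
        rw [blk_smul] at h2
        change blk (Pi.single k (t • X) : Fam n ℂ) (0 : J → ℂ) ∈ lie T
        convert h2 using 2
        · rw [Pi.single_smul]
          rfl
        · funext j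
          exact (mul_zero _).symm }
  exact GL2.mem_of_app1 (N := N) fun l => key _ (app1_skew l hA)

end full

/-! ### the group -/

/-- the stabiliser of `T` -/
def stab (T : Set (GL (BI n J) ℂ)) : Subgroup (GL (BI n J) ℂ) where
  carrier := {g | ∀ f ∈ T, g * f ∈ T ∧ g⁻¹ * f ∈ T}
  mul_mem' := by
    intro a b ha hb f hf
    refine ⟨?_, ?_⟩
    · rw [mul_assoc]
      exact (ha _ (hb f hf).1).1
    · rw [_root_.mul_inv_rev, mul_assoc]
      exact (hb _ (ha f hf).2).2
  one_mem' := by
    intro f hf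
    rw [inv_one, one_mul]
    exact ⟨hf, hf⟩
  inv_mem' := by
    intro a ha f hf
    rw [inv_inv]
    exact ⟨(ha f hf).2, (ha f hf).1⟩

theorem mem_stab {T : Set (GL (BI n J) ℂ)} (h : Geo T) {g : GL (BI n J) ℂ}
    (hg : ∀ f ∈ T, g * f ∈ T) : g ∈ stab T := by
  intro f hf
  refine ⟨hg f hf, ?_⟩
  have h1 := h.heap f hf _ (hg f hf) f hf
  rwa [_root_.mul_inv_rev, ← mul_assoc, mul_inv_cancel, one_mul] at h1

/-- the `k`-th factor -/
def fac (k : κ) : GL (Fin (n k)) ℂ →* GL (BI n J) ℂ :=
  (blkGL (n := n) (J := J) (R := ℂ)).comp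
    (MonoidHom.prod (MonoidHom.mulSingle (fun k => GL (Fin (n k)) ℂ) k) 1)

theorem fac_val (k : κ) (g : GL (Fin (n k)) ℂ) : (fac (J := J) k g).1 =
    blk (fun k' => ((Pi.mulSingle k g : (k : κ) → GL (Fin (n k)) ℂ) k').1) (fun _ => 1) := rfl

section group

variable (hRep : SpecRep) (hIrr : SpecIrr) (hExt : SpecExt) (hLnk : SpecLnk) (hGour : SpecGour)
  (hPerf : SpecPerf) (hCurve : SpecCurve) (hGen : SpecGen)

include hRep hIrr hExt hLnk hGour hPerf hCurve hGen

theorem fac_mem {T : Set (GL (BI n J) ℂ)} (h : Geo T) {c : Pt n J} (hc : blkP c ∈ T)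
    (hg : Good c) (k : κ) (u : SO (n k)) : fac (J := J) k u.1 ∈ stab T := by
  have key : SO (n k) ≤ (stab T).comap (fac (J := J) k) := by
    refine hGen (n k) _ fun X hX g hg0 hd s => ?_
    change fac k (g s) ∈ stab T
    refine mem_stab h fun f hf => ?_
    refine hCurve (BI n J) T h _ (single_mem hRep hIrr hExt hLnk hGour hPerf h hc hg k hX)
      (fun s => fac k (g s)) ?_ ?_ f hf s
    · rw [hg0, map_one]
    · intro s u v
      have e1 : (blk (Pi.single k X : Fam n ℂ) (0 : J → ℂ) * (fac (J := J) k (g s)).1) =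
          blk (Pi.single k (X * (g s).1) : Fam n ℂ) (0 : J → ℂ) := by
        rw [fac_val, blk_mul]
        congr 1
        · funext k'
          by_cases hk : k' = k
          · subst hk
            rw [Pi.single_eq_same, Pi.mulSingle_eq_same, Pi.single_eq_same]
          · rw [Pi.single_eq_of_ne hk, Pi.single_eq_of_ne hk, Matrix.zero_mul]
        · funext j
          exact zero_mul _
      rw [e1]
      by_cases huv : inB u v
      · rcases u with ⟨k1, i⟩ | j <;> rcases v with ⟨k2, i'⟩ | j'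
        · have hkl : k1 = k2 := huv
          subst hkl
          simp only [fac_val, blk_ll]
          by_cases hk : k1 = k
          · subst hk
            simp only [Pi.mulSingle_eq_same, Pi.single_eq_same]
            exact hd s i i'
          · simp only [Pi.mulSingle_eq_of_ne hk, Pi.single_eq_of_ne hk]
            exact hasDerivAt_const s _
        · exact huv.elim
        · exact huv.elim
        · have hj : j = j' := huv
          subst hj
          simp only [fac_val, blk_rr]
          exact hasDerivAt_const s _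
      · have e2 : (fun s => (fac (J := J) k (g s)).1 u v) = fun _ => 0 := by
          funext s
          rw [fac_val, blk_off huv]
        rw [e2, blk_off huv]
        exact hasDerivAt_const s _
  exact key u.2

theorem so_mem {T : Set (GL (BI n J) ℂ)} (h : Geo T) {c : Pt n J} (hc : blkP c ∈ T)
    (hg : Good c) (u : (k : κ) → SO (n k)) : blkP ((u, 1) : Pt n J) ∈ stab T := by
  let Ψ : ((k : κ) → SO (n k)) →* GL (BI n J) ℂ :=
    { toFun := fun u => blkP ((u, 1) : Pt n J)
      map_one' := by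
        have : ((1, 1) : Pt n J) = 1 := rfl
        apply Units.ext
        exact blk_one
      map_mul' := by
        intro u v
        rw [← blkP_mul, Prod.mk_mul_mk, one_mul] }
  have key : u ∈ (stab T).comap Ψ := by
    refine Subgroup.pi_mem_of_mulSingle_mem u fun k => ?_
    change blkP ((Pi.mulSingle k (u k), 1) : Pt n J) ∈ stab T
    have h1 := fac_mem hRep hIrr hExt hLnk hGour hPerf hCurve hGen h hc hg k (u k)
    have e : fac (J := J) k (u k).1 = blkP ((Pi.mulSingle k (u k), 1) : Pt n J) := by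
      apply Units.ext
      rw [fac_val, blkP_val]
      congr 1
      funext k'
      change _ = ((Pi.mulSingle k (u k) : (k : κ) → SO (n k)) k').1.1
      by_cases hk : k' = k
      · subst hk
        rw [Pi.mulSingle_eq_same, Pi.mulSingle_eq_same]
      · rw [Pi.mulSingle_eq_of_ne hk, Pi.mulSingle_eq_of_ne hk]
        rfl
    rwa [e] at h1
  exact key

end group

/-! ### the torus part -/

/-- the torus part of a torsor -/
noncomputable def torSit {T : Set (GL (BI n J) ℂ)} (S : Set (MvPolynomial (BI n J × BI n J) Qbar))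
    (hS : T = {g | ∀ p ∈ S, aeval (fun ij : BI n J × BI n J => g.1 ij.1 ij.2) p = 0})
    (hheap : ∀ a ∈ T, ∀ b ∈ T, ∀ d ∈ T, a * b⁻¹ * d ∈ T) (s : J → ℂˣ)
    (hs : blkP ((1, s) : Pt n J) ∈ T) : GL2.TorSit J where
  T := {s | blkP ((1, s) : Pt n J) ∈ T}
  P := {q | ∃ p ∈ S, q = aeval (GL2.en (blk (fun k => (1 : Matrix (Fin (n k)) (Fin (n k))
    (MvPolynomial J Qbar))) (fun j => (X j : MvPolynomial J Qbar)))) p}
  hT s := by
    have key : ∀ p : MvPolynomial (BI n J × BI n J) Qbar,
        aeval (fun i => (s i : ℂ)) (aeval (GL2.en (blk (fun k => (1 : Matrix (Fin (n k)) (Fin (n k))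
          (MvPolynomial J Qbar))) (fun j => (X j : MvPolynomial J Qbar)))) p) =
        aeval (fun ij : BI n J × BI n J => (blkP ((1, s) : Pt n J)).1 ij.1 ij.2) p := by
      intro p
      rw [comp_aeval_apply]
      congr 2
      funext ij
      have h1 := congrFun (congrFun (blk_map (fun z : MvPolynomial J Qbar =>
        aeval (fun i => (s i : ℂ)) z) (map_zero _)
        (fun k => (1 : Matrix (Fin (n k)) (Fin (n k)) (MvPolynomial J Qbar)))
        (fun j => (X j : MvPolynomial J Qbar))) ij.1) ij.2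
      rw [Matrix.map_apply] at h1
      refine h1.trans ?_
      rw [blkP_val]
      congr 2
      · funext k
        exact Matrix.map_one _ (map_zero _) (map_one _)
      · funext j
        exact aeval_X _ _
    constructor
    · rintro h _ ⟨p, hp, rfl⟩
      rw [key]
      change blkP ((1, s) : Pt n J) ∈ T at h
      rw [hS] at h
      exact h p hp
    · intro h
      change blkP ((1, s) : Pt n J) ∈ T
      rw [hS]
      intro p hp
      have := h _ ⟨p, hp, rfl⟩
      rwa [key] at this
  heap a ha b hb d hd := by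
    change blkP ((1, a * b⁻¹ * d) : Pt n J) ∈ T
    have e : ((1, a * b⁻¹ * d) : Pt n J) = (1, a) * (1, b)⁻¹ * (1, d) := by
      rw [Prod.inv_mk, Prod.mk_mul_mk, Prod.mk_mul_mk, inv_one, one_mul, one_mul]
    rw [e, blkP_mul, blkP_mul, blkP_inv]
    exact hheap _ ha _ hb _ hd
  s := s
  mem := hs

end CorN

open Pool.Agent.Lib.MPf11a48.K3.CorN in
theorem specCore (hRep : SpecRep) (hIrr : SpecIrr) (hExt : SpecExt) (hLnk : SpecLnk)
    (hGour : SpecGour) (hPerf : SpecPerf) (hCurve : SpecCurve) (hGen : SpecGen) : SpecCore := by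
  intro κ J _ _ _ _ n T hT c hg hc x hx
  have hgeo := GL2.geo_of_torsor hT
  obtain ⟨S, hS⟩ := hT.closed
  have hso := fun u => so_mem hRep hIrr hExt hLnk hGour hPerf hCurve hGen hgeo hc hg u
  have h1 : blkP ((1, c.2) : Pt n J) ∈ T := by
    have e : ((1, c.2) : Pt n J) = (c.1⁻¹, 1) * c := by
      refine Prod.ext ?_ ?_
      · exact (inv_mul_cancel c.1).symm
      · exact (one_mul c.2).symm
    rw [e, blkP_mul]
    exact (hso _ _ hc).1
  have h2 := (torSit S hS hT.heap c.2 h1).mem_of_relations x.2 hx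
  have h3 : blkP ((1, x.2) : Pt n J) ∈ T := h2
  have e : x = (x.1, 1) * (1, x.2) := by
    refine Prod.ext ?_ ?_
    · exact (mul_one x.1).symm
    · exact (one_mul x.2).symm
  rw [e, blkP_mul]
  exact (hso _ _ h3).1

end Pool.Agent.Lib.MPf11a48.K3
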