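import Pool.Agent.Lib.MP_f11a48_ag.K3.Wt

/-!
# A Cartan subalgebra acts diagonalisably on irreducible representations
-/

set_option autoImplicit false
set_option linter.unusedSectionVars false

namespace Pool.Agent.Lib.MPf11a48.K3

open Module LieAlgebra LieAlgebra.IsKilling LieModule

namespace DiagM

open WtM

variable {F L : Type} [Field F] [CharZero F] [IsAlgClosed F] [LieRing L] [LieAlgebra F L]
  [Module.Finite F L] [IsKilling F L] {H : LieSubalgebra F L} [H.IsCartanSubalgebra]
  {M : Type} [AddCommGroup M] [Module F M]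

theorem lm (ρ : Rp F L M) : @LieModule F L M _ _ _ _ _ (lrm ρ) := by
  let _ := lrm ρ
  exact
    { smul_lie := fun t x v => by
        change ρ.r (t • x) v = t • ρ.r x v
        rw [map_smul, LinearMap.smul_apply]
      lie_smul := fun t x v => (ρ.r x).map_smul t v }

/-- a non-zero representation has a weight -/
theorem exists_wtsp [Module.Finite F M] [Nontrivial M] (ρ : Rp F L M) :
    ∃ μ : Dual F H, wtsp H ρ μ ≠ ⊥ := by
  let _ : LieRingModule L M := lrm ρ
  have : LieModule F L M := lm ρ
  obtain ⟨χ, hχ⟩ := exists_nontrivial_weightSpace_of_isSolvable F H M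
  obtain ⟨v, hv⟩ := exists_ne (0 : weightSpace M χ)
  refine ⟨χ, fun h => hv ?_⟩
  have h1 := v.2
  rw [mem_weightSpace] at h1
  have h2 : v.1 ∈ wtsp H ρ χ := h1
  rw [h, Submodule.mem_bot] at h2
  exact Subtype.ext h2

/-- the root spaces (with the Cartan subalgebra) span -/
theorem root_span (P : Submodule F L) (hP : ∀ α : Weight F H L, ∀ x ∈ rootSpace H α, x ∈ P) :
    P = ⊤ := by
  have h1 := iSup_genWeightSpace_eq_top' F H L
  have h2 : (⨆ χ : Weight F H L, (genWeightSpace L (χ : H → F)).toSubmodule) = ⊤ := by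
    rw [← LieSubmodule.iSup_toSubmodule, h1]
    rfl
  rw [eq_top_iff, ← h2]
  exact iSup_le fun χ x hx => hP χ x hx

theorem sup_stable (ρ : Rp F L M) (x : L) {v : M} (hv : v ∈ ⨆ μ : Dual F H, wtsp H ρ μ) :
    ρ.r x v ∈ ⨆ μ : Dual F H, wtsp H ρ μ := by
  let W : Submodule F M := ⨆ μ : Dual F H, wtsp H ρ μ
  let P : Submodule F L :=
    { carrier := {x | ∀ v ∈ W, ρ.r x v ∈ W}
      add_mem' := fun {x y} hx hy v hv => by
        rw [map_add, LinearMap.add_apply]
        exact W.add_mem (hx v hv) (hy v hv)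
      zero_mem' := fun v _ => by
        rw [map_zero, LinearMap.zero_apply]
        exact W.zero_mem
      smul_mem' := fun t x hx v hv => by
        rw [map_smul, LinearMap.smul_apply]
        exact W.smul_mem t (hx v hv) }
  have h1 : P = ⊤ := by
    refine root_span (H := H) P fun α x hx v hv => ?_
    refine Submodule.iSup_induction _ (motive := fun v => ρ.r x v ∈ W) hv (fun μ v hv => ?_) ?_ ?_
    · exact Submodule.mem_iSup_of_mem _ (root_mem hx hv)
    · rw [map_zero]
      exact W.zero_mem
    · intro a b ha hb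
      rw [map_add]
      exact W.add_mem ha hb
  have h2 : x ∈ P := by
    rw [h1]
    trivial
  exact h2 v hv

end DiagM

/-- DIAG -/
theorem specDiag : SpecDiag := by
  intro F L _ _ _ _ _ _ _ H _ M _ _ _ ρ hirr
  obtain ⟨hnt, hirr⟩ := hirr
  rcases hirr _ (fun x v hv => DiagM.sup_stable (H := H) ρ x hv) with h | h
  · exfalso
    obtain ⟨μ, hμ⟩ := DiagM.exists_wtsp (H := H) ρ
    refine hμ (eq_bot_iff.2 ?_)
    rw [← h]
    exact le_iSup (fun μ : Dual F H => wtsp H ρ μ) μ
  · exact h

end Pool.Agent.Lib.MPf11a48.K3
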