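import Pool.Agent.Lib.MP_f11a48_ag.K3.EvDefs

/-!
# Module EVENA: the even case, steps E0 - E4
-/

set_option autoImplicit false
set_option linter.unusedSectionVars false

namespace Pool.Agent.Lib.MPf11a48.K3

open Finset CBasM

namespace EvenAM

variable {E : Type} [AddCommGroup E] [Module ℚ E] {D : RDat E} {m : ℕ} {a : Fin m → E}

/-- the finite set on which the functionals are generic -/
def AA (D : RDat E) (a : Fin m → E) : Set E :=
  D.R ∪ Phi a ∪ {v | ∃ μ ∈ Phi a, ∃ ν ∈ Phi a, v = μ - ν}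

theorem AA_finite (hD : D.Ok) : (AA D a).Finite := by
  refine (hD.fin.union (Phi_finite a)).union ?_
  refine (((Phi_finite a).prod (Phi_finite a)).image fun p => p.1 - p.2).subset ?_
  rintro v ⟨μ, hμ, ν, hν, rfl⟩
  exact ⟨(μ, ν), ⟨hμ, hν⟩, rfl⟩

theorem AA_root {α : E} (h : α ∈ D.R) : α ∈ AA D a := Or.inl (Or.inl h)
theorem AA_phi {μ : E} (h : μ ∈ Phi a) : μ ∈ AA D a := Or.inl (Or.inr h)
theorem AA_sub {μ ν : E} (hμ : μ ∈ Phi a) (hν : ν ∈ Phi a) : μ - ν ∈ AA D a :=
  Or.inr ⟨μ, hμ, ν, hν, rfl⟩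

/-- E0 -/
theorem e0 (hD : D.Ok) (hN : NonIso D (dH a 1) (dH a (-1))) (i : Fin m) : a i ≠ 0 := by
  intro hi
  obtain ⟨x, -, hx⟩ := specFun E ⊥ D.R hD.fin
  have hreg : Reg D x := fun α hα => hx α hα (by simpa using ne_zero hD hα)
  have hnn : ∀ j, 0 ≤ x (bx a x j) := by
    intro j
    unfold bx
    split_ifs with h
    · exact h.le
    · rw [map_neg]; linarith
  have hsum : ∀ T : Finset (Fin m), 0 ≤ x (∑ i ∈ T, bx a x i) := by
    intro T
    rw [map_sum]
    exact Finset.sum_nonneg fun i _ => hnn i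
  have hbi : bx a x i = 0 := by
    unfold bx
    rw [hi, map_zero, if_neg (lt_irrefl _), neg_zero]
  have h1 : IsTop D (dH a (s0 a x)) x (lam a x) := by
    constructor
    · have := (dH_top_ne a x (μ := 0)).2 ⟨∅, by simp, by simp⟩
      rwa [sub_zero] at this
    · intro α hα hxα
      by_contra hne
      have h2 : lam a x + α = lam a x - (-α) := by abel
      rw [h2] at hne
      obtain ⟨T, -, hT⟩ := (dH_top_ne a x).1 hne
      have h3 := hsum T
      rw [hT, map_neg] at h3
      linarith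
  have h2 : IsTop D (dH a (-s0 a x)) x (lam a x) := by
    constructor
    · have := (dH_bot_ne a x (μ := 0)).2 ⟨{i}, by simp, by simpa using hbi⟩
      rwa [sub_zero] at this
    · intro α hα hxα
      by_contra hne
      have h2 : lam a x + α = lam a x - (-α) := by abel
      rw [h2] at hne
      obtain ⟨T, -, hT⟩ := (dH_bot_ne a x).1 hne
      have h3 := hsum T
      rw [hT, map_neg] at h3
      linarith
  rcases s0_eq a x with h | h
  · rw [h] at h1 h2
    exact hN x hreg _ h1 h2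
  · rw [h] at h1 h2
    rw [neg_neg] at h2
    exact hN x hreg _ h2 h1

/-- E1, multiplicity one -/
theorem e1 (hH : IWt D (dH a 1)) (hH' : IWt D (dH a (-1))) {x : E →ₗ[ℚ] ℚ} (hx : Reg D x)
    (hxa : ∀ i, x (a i) ≠ 0) {b : E}
    (hmin : ∀ μ ∈ Phi a, 0 < x μ → μ = b ∨ x b < x μ) (i j : Fin m) (hi : bx a x i = b)
    (hj : bx a x j = b) : i = j := by
  have ha0 : ∀ i, a i ≠ 0 := fun i h => hxa i (by rw [h, map_zero])
  obtain ⟨hT, hB⟩ := iwt_top (x := x) hH hH'
  have h1 : IsTop D (dH a (-s0 a x)) x (lam a x - b) := by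
    constructor
    · exact (dH_bot_ne a x).2 ⟨{i}, by simp, by simpa using hi⟩
    · intro α hα hxα
      by_contra hne
      have h2 : lam a x - b + α = lam a x - (b - α) := by abel
      rw [h2] at hne
      obtain ⟨T, hTo, hT⟩ := (dH_bot_ne a x).1 hne
      obtain ⟨k, hk⟩ : T.Nonempty := by
        rw [Finset.nonempty_iff_ne_empty]
        rintro rfl
        simp at hTo
      have h3 := le_sum hxa T hk
      rw [hT, map_sub] at h3
      have h4 := hmin _ (bx_mem a x (ha0 k)) (bx_pos a x (hxa k))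
      rcases h4 with h4 | h4
      · rw [h4] at h3
        linarith
      · linarith
  have h2 := (hB.top x hx _ h1).1
  rw [dH_bot] at h2
  have h3 := eq_of_card_le_one (i := ({i} : Finset (Fin m))) (j := {j}) h2.le
    ⟨by simp, by simpa using hi⟩ ⟨by simp, by simpa using hj⟩
  simpa using h3

/-- E1 -/
theorem e1' (hH : IWt D (dH a 1)) (hH' : IWt D (dH a (-1))) {x : E →ₗ[ℚ] ℚ} (hx : Reg D x)
    (hxa : ∀ i, x (a i) ≠ 0) {b c : E} (hb : b ∈ Phi a) (hxb : 0 < x b) (hc : c ∈ Phi a)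
    (hbc : x b < x c) (hmin : ∀ μ ∈ Phi a, 0 < x μ → μ = b ∨ μ = c ∨ x c < x μ) :
    c - b ∈ D.R ∧ c + b ∈ D.R := by
  have ha0 : ∀ i, a i ≠ 0 := fun i h => hxa i (by rw [h, map_zero])
  obtain ⟨hT, hB⟩ := iwt_top (x := x) hH hH'
  have hmin' : ∀ μ ∈ Phi a, 0 < x μ → μ = b ∨ x b < x μ := by
    intro μ hμ h0
    rcases hmin μ hμ h0 with h | rfl | h
    · exact Or.inl h
    · exact Or.inr hbc
    · exact Or.inr (hbc.trans h)
  have huniq := e1 hH hH' hx hxa hmin'
  obtain ⟨i, hi⟩ := exists_bx a x hb hxb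
  obtain ⟨j, hj⟩ := exists_bx a x hc (hxb.trans hbc)
  have hij : i ≠ j := by
    rintro rfl
    rw [hi] at hj
    rw [hj] at hbc
    exact lt_irrefl _ hbc
  constructor
  · -- `c - b`
    have hν : dH a (-s0 a x) (lam a x - c) ≠ 0 := (dH_bot_ne a x).2 ⟨{j}, by simp, by simpa using hj⟩
    have hν' : dH a (-s0 a x) (lam a x - b) ≠ 0 :=
      (dH_bot_ne a x).2 ⟨{i}, by simp, by simpa using hi⟩
    obtain ⟨α, hα, hxα, h1⟩ := exists_up' hB hx hν hν'
      (by
        intro h
        rw [sub_right_inj] at h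
        rw [h] at hbc
        exact lt_irrefl _ hbc)
      (by rw [map_sub, map_sub]; linarith)
    have h2 : lam a x - c + α = lam a x - (c - α) := by abel
    rw [h2] at h1
    obtain ⟨T, hTo, hT⟩ := (dH_bot_ne a x).1 h1
    have hall : ∀ k ∈ T, k = i := by
      intro k hk
      have h3 := le_sum hxa T hk
      rw [hT, map_sub] at h3
      rcases hmin _ (bx_mem a x (ha0 k)) (bx_pos a x (hxa k)) with h4 | h4 | h4
      · exact huniq k i h4 hi
      · rw [h4] at h3
        linarith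
      · linarith
    have hTi : T = {i} := by
      obtain ⟨k, hk⟩ : T.Nonempty := by
        rw [Finset.nonempty_iff_ne_empty]
        rintro rfl
        simp at hTo
      ext l
      rw [Finset.mem_singleton]
      refine ⟨hall l, ?_⟩
      rintro rfl
      rwa [← hall k hk]
    rw [hTi, Finset.sum_singleton, hi] at hT
    have h5 : c - b = α := by rw [hT]; abel
    rwa [h5]
  · -- `c + b`
    have hν : dH a (s0 a x) (lam a x - (b + c)) ≠ 0 := by
      refine (dH_top_ne a x).2 ⟨{i, j}, ?_, ?_⟩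
      · rw [Finset.card_pair hij]
        exact even_two
      · rw [Finset.sum_pair hij, hi, hj]
    have hν' : dH a (s0 a x) (lam a x) ≠ 0 := by
      have := (dH_top_ne a x (μ := 0)).2 ⟨∅, by simp, by simp⟩
      rwa [sub_zero] at this
    obtain ⟨α, hα, hxα, h1⟩ := exists_up' hT hx hν hν'
      (by
        intro h
        have h3 := congrArg x h
        rw [map_sub, map_add] at h3
        linarith)
      (by rw [map_sub, map_add]; linarith)
    have h2 : lam a x - (b + c) + α = lam a x - (b + c - α) := by abel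
    rw [h2] at h1
    obtain ⟨T, hTe, hT⟩ := (dH_top_ne a x).1 h1
    have hT0 : T = ∅ := by
      by_contra hne
      have h3 : 1 < T.card := by
        have h4 : T.card ≠ 0 := by simpa using hne
        obtain ⟨r, hr⟩ := hTe
        omega
      obtain ⟨k, hk, l, hl, hkl⟩ := Finset.one_lt_card.1 h3
      have h4 := add_le_sum hxa T hk hl hkl
      rw [hT, map_sub, map_add] at h4
      have h5 : ∀ k, x b ≤ x (bx a x k) := by
        intro k
        rcases hmin' _ (bx_mem a x (ha0 k)) (bx_pos a x (hxa k)) with h | h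
        · rw [h]
        · exact h.le
      have h6 : ∀ k, bx a x k ≠ b → x c ≤ x (bx a x k) := by
        intro k hk
        rcases hmin _ (bx_mem a x (ha0 k)) (bx_pos a x (hxa k)) with h | h | h
        · exact absurd h hk
        · rw [h]
        · exact h.le
      by_cases h7 : bx a x k = b
      · have h8 : bx a x l ≠ b := fun h => hkl (huniq k l h7 h)
        have h9 := h6 l h8
        have h10 := h5 k
        linarith
      · have h9 := h6 k h7
        have h10 := h5 l
        linarith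
    rw [hT0, Finset.sum_empty] at hT
    have h5 : c + b = α := by
      have h6 : α = b + c := by
        rw [eq_comm, sub_eq_zero] at hT
        exact hT.symm
      rw [h6, add_comm]
    rwa [h5]

/-- functional with value `1` on `b` -/
theorem exists_one {b : E} (hb : b ≠ 0) : ∃ y : E →ₗ[ℚ] ℚ, y b = 1 := by
  obtain ⟨y, -, hy⟩ := specFun E ⊥ {b} (Set.finite_singleton b)
  have h1 : y b ≠ 0 := hy b rfl (by simpa using hb)
  exact ⟨(y b)⁻¹ • y, by simp [h1]⟩

theorem mem_span1 {b v : E} : v ∈ Submodule.span ℚ {b} ↔ ∃ t : ℚ, v = t • b := by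
  rw [Submodule.mem_span_singleton]
  exact ⟨fun ⟨t, ht⟩ => ⟨t, ht.symm⟩, fun ⟨t, ht⟩ => ⟨t, ht.symm⟩⟩

/-- functional for E2 -/
theorem exists_f2 (hD : D.Ok) (ha0 : ∀ i, a i ≠ 0) {b : E} (hb : b ≠ 0) {C : ℚ} (hC : 0 ≤ C) :
    ∃ x : E →ₗ[ℚ] ℚ, Reg D x ∧ (∀ i, x (a i) ≠ 0) ∧ x b = 1 ∧
      ∀ v ∈ AA D a, (∀ t : ℚ, v ≠ t • b) → C < |x v| := by
  obtain ⟨x1, hx1, hx1'⟩ := specFun E (Submodule.span ℚ {b}) (AA D a) (AA_finite hD)
  obtain ⟨y, hy⟩ := exists_one hb
  obtain ⟨x, hx, hx'⟩ := specComb E x1 y (AA D a) (AA_finite hD) C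
  have h1 : ∀ t : ℚ, x (t • b) = t := by
    intro t
    rw [hx _ (hx1 _ (mem_span1.2 ⟨t, rfl⟩)), map_smul, hy, smul_eq_mul, mul_one]
  have h2 : ∀ v ∈ AA D a, (∀ t : ℚ, v ≠ t • b) → C < |x v| := by
    intro v hv hne
    have h3 : x1 v ≠ 0 := hx1' v hv fun h => by
      obtain ⟨t, ht⟩ := mem_span1.1 h
      exact hne t ht
    rcases lt_or_gt_of_ne h3 with h4 | h4
    · have := (hx' v hv).2 h4
      rw [lt_abs]
      right
      linarith
    · exact lt_abs.2 (Or.inl ((hx' v hv).1 h4))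
  have h3 : ∀ v ∈ AA D a, v ≠ 0 → x v ≠ 0 := by
    intro v hv hv0
    by_cases h4 : ∀ t : ℚ, v ≠ t • b
    · have h5 := h2 v hv h4
      intro h6
      rw [h6, abs_zero] at h5
      linarith
    · push Not at h4
      obtain ⟨t, rfl⟩ := h4
      rw [h1]
      rintro rfl
      exact hv0 (zero_smul _ _)
  refine ⟨x, fun α hα => h3 α (AA_root hα) (ne_zero hD hα),
    fun i => h3 _ (AA_phi (mem_Phi (ha0 i))) (ha0 i), ?_, h2⟩
  have := h1 1
  rwa [one_smul] at this

/-- E2 for positive factors and minimal elements -/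
theorem e2min (hD : D.Ok) (ha0 : ∀ i, a i ≠ 0) (hH : IWt D (dH a 1)) (hH' : IWt D (dH a (-1)))
    {b : E} (hb : b ∈ Phi a) (hmin : ∀ t : ℚ, 0 < t → t • b ∈ Phi a → 1 ≤ t) :
    ∀ t : ℚ, 0 < t → t • b ∈ Phi a → t = 1 := by
  intro t0 ht0 htb0
  by_contra hne
  have hfin : {t : ℚ | 1 < t ∧ t • b ∈ Phi a}.Finite := by
    refine Set.Finite.of_finite_image ((Phi_finite a).subset ?_) (f := fun t : ℚ => t • b) ?_
    · rintro _ ⟨t, ht, rfl⟩
      exact ht.2
    · intro s _ t _ hst
      exact smul_left_injective ℚ hb.1 hst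
  obtain ⟨t, ⟨ht1, htb⟩, htmin⟩ := Set.exists_min_image _ (fun t : ℚ => t) hfin
    ⟨t0, lt_of_le_of_ne (hmin t0 ht0 htb0) (Ne.symm hne), htb0⟩
  obtain ⟨x, hreg, hxa, hxb, hxC⟩ := exists_f2 hD ha0 hb.1 (C := t) (by linarith)
  have hxs : ∀ s : ℚ, x (s • b) = s := fun s => by rw [map_smul, hxb, smul_eq_mul, mul_one]
  obtain ⟨h1, h2⟩ := e1' hH hH' hreg hxa (b := b) (c := t • b) hb (by rw [hxb]; norm_num) htb
    (by rw [hxs, hxb]; exact ht1) (by
      intro μ hμ hμ0
      by_cases h3 : ∀ s : ℚ, μ ≠ s • b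
      · right; right
        have h4 := hxC μ (AA_phi hμ) h3
        rw [abs_of_pos hμ0] at h4
        rwa [hxs]
      · push Not at h3
        obtain ⟨s, rfl⟩ := h3
        rw [hxs] at hμ0
        have h5 := hmin s hμ0 hμ
        rcases h5.eq_or_lt with h6 | h6
        · left
          rw [← h6, one_smul]
        · right
          have h7 : t ≤ s := htmin s ⟨h6, hμ⟩
          rcases h7.eq_or_lt with h8 | h8
          · left
            rw [h8]
          · right
            rwa [hxs, hxs])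
  have h3 : ((t + 1) / (t - 1)) • (t • b - b) = t • b + b := by
    have h4 : t • b - b = (t - 1) • b := by module
    have h5 : t - 1 ≠ 0 := by linarith
    rw [h4, smul_smul, div_mul_cancel₀ _ h5]
    module
  have h4 := hD.red _ h1 ((t + 1) / (t - 1)) (by rwa [h3])
  have h5 : t - 1 ≠ 0 := by linarith
  rcases h4 with h4 | h4
  · rw [div_eq_iff h5] at h4
    linarith
  · rw [div_eq_iff h5] at h4
    linarith

/-- E2 (line) -/
theorem e2line (hD : D.Ok) (ha0 : ∀ i, a i ≠ 0) (hH : IWt D (dH a 1)) (hH' : IWt D (dH a (-1)))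
    {b : E} (hb : b ∈ Phi a) (t : ℚ) (ht : t • b ∈ Phi a) : t = 1 ∨ t = -1 := by
  -- positive factors
  have key : ∀ t : ℚ, 0 < t → t • b ∈ Phi a → t = 1 := by
    have hfin : {t : ℚ | 0 < t ∧ t • b ∈ Phi a}.Finite := by
      refine Set.Finite.of_finite_image ((Phi_finite a).subset ?_) (f := fun t : ℚ => t • b) ?_
      · rintro _ ⟨t, ht, rfl⟩
        exact ht.2
      · intro s _ t _ hst
        exact smul_left_injective ℚ hb.1 hst
    obtain ⟨t0, ⟨ht0, htb⟩, hmin⟩ := Set.exists_min_image _ (fun t : ℚ => t) hfin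
      ⟨1, one_pos, by rwa [one_smul]⟩
    have h1 := e2min hD ha0 hH hH' htb (by
      intro s hs hsb
      rw [smul_smul] at hsb
      have h2 : t0 ≤ s * t0 := hmin _ ⟨by positivity, hsb⟩
      by_contra h3
      push Not at h3
      nlinarith)
    have h2 : t0⁻¹ = 1 := by
      refine h1 t0⁻¹ (by positivity) ?_
      rwa [smul_smul, inv_mul_cancel₀ ht0.ne', one_smul]
    have h3 : t0 = 1 := inv_eq_one.1 h2
    intro t ht htb'
    refine h1 t ht ?_
    rwa [h3, one_smul]
  rcases lt_trichotomy t 0 with h | h | h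
  · right
    have h1 := key (-t) (by linarith) (by rw [neg_smul]; exact Phi_neg ht)
    linarith
  · rw [h, zero_smul] at ht
    exact absurd rfl ht.1
  · exact Or.inl (key t h ht)

/-- for a functional with `x b = 1` and large on everything outside the line of `b`: small subsets -/
theorem small (hD : D.Ok) (ha0 : ∀ i, a i ≠ 0) (hH : IWt D (dH a 1)) (hH' : IWt D (dH a (-1)))
    {b : E} (hb : b ∈ Phi a) {C : ℚ} (hC : 1 ≤ C) {x : E →ₗ[ℚ] ℚ} (hreg : Reg D x)
    (hxa : ∀ i, x (a i) ≠ 0) (hxb : x b = 1)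
    (hxC : ∀ v ∈ AA D a, (∀ t : ℚ, v ≠ t • b) → C < |x v|) :
    ∃ i, bx a x i = b ∧ ∀ T : Finset (Fin m), x (∑ i ∈ T, bx a x i) ≤ C → ∀ k ∈ T, k = i := by
  have hxs : ∀ s : ℚ, x (s • b) = s := fun s => by rw [map_smul, hxb, smul_eq_mul, mul_one]
  have h0 : ∀ μ ∈ Phi a, 0 < x μ → μ = b ∨ C < x μ := by
    intro μ hμ hμ0
    by_cases h3 : ∀ s : ℚ, μ ≠ s • b
    · right
      have h4 := hxC μ (AA_phi hμ) h3
      rwa [abs_of_pos hμ0] at h4
    · push Not at h3
      obtain ⟨s, rfl⟩ := h3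
      rw [hxs] at hμ0
      rcases e2line hD ha0 hH hH' hb s hμ with h | h
      · left
        rw [h, one_smul]
      · linarith
  obtain ⟨i, hi⟩ := exists_bx a x hb (by rw [hxb]; exact one_pos)
  have huniq := e1 hH hH' hreg hxa (b := b) (by
    intro μ hμ hμ0
    rcases h0 μ hμ hμ0 with h | h
    · exact Or.inl h
    · right
      rw [hxb]
      linarith)
  refine ⟨i, hi, fun T hT k hk => ?_⟩
  have h3 := (le_sum hxa T hk).trans hT
  rcases h0 _ (bx_mem a x (ha0 k)) (bx_pos a x (hxa k)) with h4 | h4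
  · exact huniq k i h4 hi
  · linarith

/-- E2 (multiplicity one) -/
theorem e2one (hD : D.Ok) (ha0 : ∀ i, a i ≠ 0) (hH : IWt D (dH a 1)) (hH' : IWt D (dH a (-1)))
    (i j : Fin m) (h : a j = a i ∨ a j = -a i) : j = i := by
  obtain ⟨x, hreg, hxa, hxb, hxC⟩ := exists_f2 hD ha0 (ha0 i) (C := 1) one_pos.le
  obtain ⟨k, hk, hT⟩ := small hD ha0 hH hH' (mem_Phi (ha0 i)) le_rfl hreg hxa hxb hxC
  have h1 : bx a x i = a i := bx_of_pos a x (Or.inl rfl) (by rw [hxb]; exact one_pos)
  have h2 : bx a x j = a i := by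
    refine bx_of_pos a x ?_ (by rw [hxb]; exact one_pos)
    rcases h with h | h
    · exact Or.inl h
    · right
      rw [h, neg_neg]
  have h3 := hT {i} (by rw [Finset.sum_singleton, h1, hxb]) i (by simp)
  have h4 := hT {j} (by rw [Finset.sum_singleton, h2, hxb]) j (by simp)
  rw [h3, h4]

/-- E2 (no roots) -/
theorem e2nr (hD : D.Ok) (ha0 : ∀ i, a i ≠ 0) (hH : IWt D (dH a 1)) (hH' : IWt D (dH a (-1)))
    {b : E} (hb : b ∈ Phi a) (t : ℚ) : t • b ∉ D.R := by
  -- positive factors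
  have key : ∀ t : ℚ, 0 < t → t • b ∉ D.R := by
    intro t ht hα
    obtain ⟨x, hreg, hxa, hxb, hxC⟩ := exists_f2 hD ha0 hb.1 (C := 1 + t) (by linarith)
    obtain ⟨i, hi, hT⟩ := small hD ha0 hH hH' hb (by linarith) hreg hxa hxb hxC
    have hxs : ∀ s : ℚ, x (s • b) = s := fun s => by rw [map_smul, hxb, smul_eq_mul, mul_one]
    obtain ⟨hTop, hBot⟩ := iwt_top (x := x) hH hH'
    -- even subsets
    have hev : ∀ s : ℚ, s ≤ 1 + t → s ≠ 0 → dH a (s0 a x) (lam a x - s • b) = 0 := by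
      intro s hs hs0
      by_contra hne
      obtain ⟨T, hTe, hTs⟩ := (dH_top_ne a x).1 hne
      have h1 := hT T (by rw [hTs, hxs]; exact hs)
      have h2 : T = ∅ := by
        by_contra h3
        have h4 : 1 < T.card := by
          have h4 : T.card ≠ 0 := by simpa using h3
          obtain ⟨r, hr⟩ := hTe
          omega
        obtain ⟨k, hk, l, hl, hkl⟩ := Finset.one_lt_card.1 h4
        exact hkl ((h1 k hk).trans (h1 l hl).symm)
      rw [h2, Finset.sum_empty] at hTs
      have h3 := congrArg x hTs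
      rw [map_zero, hxs] at h3
      exact hs0 h3.symm
    have hodd : ∀ s : ℚ, s ≤ 1 + t → s ≠ 1 → dH a (-s0 a x) (lam a x - s • b) = 0 := by
      intro s hs hs0
      by_contra hne
      obtain ⟨T, hTo, hTs⟩ := (dH_bot_ne a x).1 hne
      have h1 := hT T (by rw [hTs, hxs]; exact hs)
      have h2 : T = {i} := by
        obtain ⟨k, hk⟩ : T.Nonempty := by
          rw [Finset.nonempty_iff_ne_empty]
          rintro rfl
          simp at hTo
        ext l
        rw [Finset.mem_singleton]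
        refine ⟨h1 l, ?_⟩
        rintro rfl
        rwa [← h1 k hk]
      rw [h2, Finset.sum_singleton, hi] at hTs
      have h3 := congrArg x hTs
      rw [hxb, hxs] at h3
      exact hs0 h3.symm
    have h1 : D.pr (t • b) (lam a x) = 0 := by
      refine hTop.a3 _ ?_ _ hα ?_ ?_
      · have := (dH_top_ne a x (μ := 0)).2 ⟨∅, by simp, by simp⟩
        rwa [sub_zero] at this
      · have h2 : lam a x + t • b = lam a x - (-t) • b := by rw [neg_smul]; abel
        rw [h2]
        exact hev (-t) (by linarith) (by linarith)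
      · exact hev t (by linarith) ht.ne'
    have h2 : D.pr (t • b) (lam a x - b) = 0 := by
      refine hBot.a3 _ ?_ _ hα ?_ ?_
      · exact (dH_bot_ne a x).2 ⟨{i}, by simp, by simpa using hi⟩
      · have h2 : lam a x - b + t • b = lam a x - (1 - t) • b := by module
        rw [h2]
        exact hodd (1 - t) (by linarith) (by linarith)
      · have h2 : lam a x - b - t • b = lam a x - (1 + t) • b := by module
        rw [h2]
        exact hodd (1 + t) le_rfl (by linarith)
    rw [map_sub, h1, zero_sub, neg_eq_zero] at h2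
    have h3 := hD.two _ hα
    rw [map_smul, h2, smul_zero] at h3
    norm_num at h3
  intro h
  rcases lt_trichotomy t 0 with h1 | h1 | h1
  · refine key (-t) (by linarith) ?_
    rw [neg_smul]
    exact neg_mem hD h
  · rw [h1, zero_smul] at h
    exact zero_notMem hD h
  · exact key t h1 h


/-- hypotheses of the even case, with the results of E0 and E2 -/
structure Hyp (D : RDat E) (a : Fin m → E) : Prop where
  ok : D.Ok
  hV : Wt D (dVe a)
  hH : IWt D (dH a 1)
  hH' : IWt D (dH a (-1))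
  ne0 : ∀ i, a i ≠ 0
  line : ∀ b ∈ Phi a, ∀ t : ℚ, t • b ∈ Phi a → t = 1 ∨ t = -1
  one : ∀ i j, (a j = a i ∨ a j = -a i) → j = i
  nr : ∀ b ∈ Phi a, ∀ t : ℚ, t • b ∉ D.R

/-- functionals which vanish exactly on the line of `b` -/
structure Fn (D : RDat E) (a : Fin m → E) (b : E) (x : E →ₗ[ℚ] ℚ) : Prop where
  zero : x b = 0
  ne : ∀ v ∈ AA D a, (∀ t : ℚ, v ≠ t • b) → x v ≠ 0

theorem Fn.neg {b : E} {x : E →ₗ[ℚ] ℚ} (h : Fn D a b x) : Fn D a (-b) x where
  zero := by rw [map_neg, h.zero, neg_zero]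
  ne := fun v hv hne => h.ne v hv fun t ht => hne (-t) (by rw [ht, smul_neg, neg_smul, neg_neg])

/-- integrality of the weights of `V` -/
theorem Hyp.int (h : Hyp D a) {μ α : E} (hμ : μ ∈ Phi a) (hα : α ∈ D.R) :
    ∃ z : ℤ, D.pr α μ = z := h.hV.int μ ((dVe_ne_iff h.ne0).2 hμ) α hα

/-- the half of E3 -/
theorem e3half (h : Hyp D a) {b c : E} {x1 y : E →ₗ[ℚ] ℚ} (hb : b ∈ Phi a) (hx1 : Fn D a b x1)
    (hy : y b = 1) (hc : c ∈ Phi a) (hc0 : 0 < x1 c) (hc1 : ∀ μ ∈ Phi a, 0 < x1 μ → x1 c ≤ x1 μ)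
    (hc2 : ∀ μ ∈ Phi a, x1 μ = x1 c → y c ≤ y μ) : c - b ∈ D.R ∧ c + b ∈ D.R := by
  obtain ⟨z, hz, hz'⟩ := specComb E x1 y (AA D a) (AA_finite h.ok) 1
  have hzb : z b = 1 := by rw [hz b hx1.zero, hy]
  have hzs : ∀ s : ℚ, z (s • b) = s := fun s => by rw [map_smul, hzb, smul_eq_mul, mul_one]
  have hne : ∀ v ∈ AA D a, v ≠ 0 → z v ≠ 0 := by
    intro v hv hv0
    rcases lt_trichotomy (x1 v) 0 with h1 | h1 | h1
    · have := (hz' v hv).2 h1
      linarith
    · by_cases h2 : ∀ t : ℚ, v ≠ t • b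
      · exact absurd h1 (hx1.ne v hv h2)
      · push Not at h2
        obtain ⟨t, rfl⟩ := h2
        rw [hzs]
        rintro rfl
        exact hv0 (zero_smul _ _)
    · have := (hz' v hv).1 h1
      linarith
  refine e1' h.hH h.hH' (fun α hα => hne α (AA_root hα) (ne_zero h.ok hα))
    (fun i => hne _ (AA_phi (mem_Phi (h.ne0 i))) (h.ne0 i)) hb (by rw [hzb]; exact one_pos) hc
    (by rw [hzb]; exact (hz' c (AA_phi hc)).1 hc0) ?_
  intro μ hμ hμ0
  rcases lt_trichotomy (x1 μ) 0 with h1 | h1 | h1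
  · have := (hz' μ (AA_phi hμ)).2 h1
    linarith
  · left
    by_cases h2 : ∀ t : ℚ, μ ≠ t • b
    · exact absurd h1 (hx1.ne μ (AA_phi hμ) h2)
    · push Not at h2
      obtain ⟨t, rfl⟩ := h2
      rw [hzs] at hμ0
      rcases h.line b hb t hμ with h3 | h3
      · rw [h3, one_smul]
      · linarith
  · right
    rcases (hc1 μ hμ h1).eq_or_lt with h2 | h2
    · by_cases h3 : μ = c
      · exact Or.inl h3
      · right
        have h4 : x1 (μ - c) = 0 := by rw [map_sub, ← h2, sub_self]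
        have h5 : ∃ t : ℚ, μ - c = t • b := by
          by_contra h6
          push Not at h6
          exact hx1.ne _ (AA_sub hμ hc) h6 h4
        obtain ⟨t, ht⟩ := h5
        have h6 : z (μ - c) = t := by rw [ht, hzs]
        have h7 : y (μ - c) = t := by rw [ht, map_smul, hy, smul_eq_mul, mul_one]
        have h8 := hc2 μ hμ h2.symm
        rw [map_sub] at h6 h7
        have h9 : t ≠ 0 := by
          rintro rfl
          rw [zero_smul, sub_eq_zero] at ht
          exact h3 ht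
        have h10 : 0 ≤ t := by linarith
        have h11 : 0 < t := lt_of_le_of_ne h10 h9.symm
        linarith
    · right
      have h4 := (hz' (μ - c) (AA_sub hμ hc)).1 (by rw [map_sub]; linarith)
      rw [map_sub] at h4
      linarith

/-- (REL) from the two roots -/
theorem relOf (h : Hyp D a) {b e : E} (hb : b ∈ Phi a) (hne : ∀ t : ℚ, e ≠ t • b)
    (h1 : e - b ∈ D.R) (h2 : e + b ∈ D.R) : Rel D e b := by
  have hnp : ∀ t : ℚ, e + b ≠ t • (e - b) := by
    intro t ht
    by_cases h3 : t = 1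
    · rw [h3, one_smul] at ht
      have h4 : (2 : ℚ) • b = 0 := by
        have h5 : (2 : ℚ) • b = (e + b) - (e - b) := by module
        rw [h5, ht, sub_self]
      rw [smul_eq_zero] at h4
      rcases h4 with h4 | h4
      · norm_num at h4
      · exact hb.1 h4
    · refine hne (-(1 + t) / (1 - t)) ?_
      have h4 : 1 - t ≠ 0 := sub_ne_zero.2 (Ne.symm h3)
      have h5 : (1 - t) • e = (-(1 + t)) • b := by
        have h6 : (1 - t) • e - (-(1 + t)) • b = (e + b) - t • (e - b) := by module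
        rw [← sub_eq_zero, h6, ht, sub_self]
      rw [div_eq_inv_mul, mul_smul, ← h5, smul_smul, inv_mul_cancel₀ h4, one_smul]
  obtain ⟨p, hp⟩ := h.int hb h1
  obtain ⟨q, hq⟩ := h.int hb h2
  have hP : D.pr (e - b) (e + b) = 2 + 2 * p := by
    have h3 : e + b = (e - b) + (2 : ℚ) • b := by module
    rw [h3, map_add, map_smul, h.ok.two _ h1, hp, smul_eq_mul]
  have hQ : D.pr (e + b) (e - b) = 2 - 2 * q := by
    have h3 : e - b = (e + b) - (2 : ℚ) • b := by module
    rw [h3, map_sub, map_smul, h.ok.two _ h2, hq, smul_eq_mul]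
  have h3 := h.ok.nonneg _ h1 _ h2
  have h4 := h.ok.prod _ h1 _ h2 hnp
  have h5 := h.ok.zero _ h1 _ h2
  have h6 := h.ok.zero _ h2 _ h1
  rw [hP, hQ] at h3 h4 h5 h6
  have h3' : (0 : ℤ) ≤ (2 + 2 * p) * (2 - 2 * q) := by exact_mod_cast h3
  have h4' : (2 + 2 * p) * (2 - 2 * q) < 4 := by exact_mod_cast h4
  have h7 : (1 + p) * (1 - q) = 0 := by
    have h8 : (2 + 2 * p) * (2 - 2 * q) = 4 * ((1 + p) * (1 - q)) := by ring
    rw [h8] at h3' h4'
    omega
  have h8 : p = -1 ∧ q = 1 := by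
    rcases mul_eq_zero.1 h7 with h9 | h9
    · have h10 : p = -1 := by omega
      have h11 := h5 (by rw [h10]; norm_num)
      have h12 : (q : ℚ) = 1 := by linarith
      exact ⟨h10, by exact_mod_cast h12⟩
    · have h10 : q = 1 := by omega
      have h11 := h6 (by rw [h10]; norm_num)
      have h12 : (p : ℚ) = -1 := by linarith
      exact ⟨by exact_mod_cast h12, h10⟩
  obtain ⟨hp1, hq1⟩ := h8
  rw [hp1] at hp
  rw [hq1] at hq
  push_cast at hp hq
  refine ⟨h1, h2, ?_, hp, ?_, hq⟩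
  · have h9 : e = (e - b) + b := by abel
    have h10 : D.pr (e - b) e = D.pr (e - b) ((e - b) + b) := by rw [← h9]
    rw [h10, map_add, h.ok.two _ h1, hp]
    norm_num
  · have h9 : e = (e + b) - b := by abel
    have h10 : D.pr (e + b) e = D.pr (e + b) ((e + b) - b) := by rw [← h9]
    rw [h10, map_sub, h.ok.two _ h2, hq]
    norm_num

/-- E3 -/
theorem e3 (h : Hyp D a) {b : E} {x1 : E →ₗ[ℚ] ℚ} (hb : b ∈ Phi a) (hx1 : Fn D a b x1)
    (hex : ∃ d ∈ Phi a, 0 < x1 d) :
    ∃ c ∈ Phi a, 0 < x1 c ∧ Rel D c b ∧ (∀ t : ℚ, c ≠ t • b) ∧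
      ∀ μ ∈ Phi a, 0 < x1 μ → μ = c ∨ x1 c < x1 μ := by
  obtain ⟨y, hy⟩ := exists_one hb.1
  -- least level
  obtain ⟨c0, ⟨hc0, hc0'⟩, hc0min⟩ := Set.exists_min_image {μ | μ ∈ Phi a ∧ 0 < x1 μ}
    (fun μ => x1 μ) ((Phi_finite a).subset fun μ hμ => hμ.1) hex
  have hfin : {μ | μ ∈ Phi a ∧ x1 μ = x1 c0}.Finite := (Phi_finite a).subset fun μ hμ => hμ.1
  obtain ⟨c, ⟨hc, hcx⟩, hcmin⟩ := Set.exists_min_image _ (fun μ => y μ) hfin ⟨c0, hc0, rfl⟩
  obtain ⟨c', ⟨hc', hcx'⟩, hcmax⟩ := Set.exists_max_image _ (fun μ => y μ) hfin ⟨c0, hc0, rfl⟩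
  have hpos : 0 < x1 c := by rw [hcx]; exact hc0'
  have hpos' : 0 < x1 c' := by rw [hcx']; exact hc0'
  have hnb : ∀ t : ℚ, c ≠ t • b := by
    intro t ht
    rw [ht, map_smul, hx1.zero, smul_zero] at hpos
    exact lt_irrefl _ hpos
  have hnb' : ∀ t : ℚ, c' ≠ t • b := by
    intro t ht
    rw [ht, map_smul, hx1.zero, smul_zero] at hpos'
    exact lt_irrefl _ hpos'
  obtain ⟨h1, h2⟩ := e3half h hb hx1 hy hc hpos
    (fun μ hμ hμ0 => by rw [hcx]; exact hc0min μ ⟨hμ, hμ0⟩)
    (fun μ hμ hμ0 => hcmin μ ⟨hμ, hμ0.trans hcx⟩)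
  obtain ⟨h3, h4⟩ := e3half h (Phi_neg hb) hx1.neg (y := -y) (by simp [hy]) hc' hpos'
    (fun μ hμ hμ0 => by rw [hcx']; exact hc0min μ ⟨hμ, hμ0⟩)
    (fun μ hμ hμ0 => by
      rw [LinearMap.neg_apply, LinearMap.neg_apply, neg_le_neg_iff]
      exact hcmax μ ⟨hμ, hμ0.trans hcx'⟩)
  rw [sub_neg_eq_add] at h3
  rw [← sub_eq_add_neg] at h4
  have hr := relOf h hb hnb h1 h2
  have hr' := relOf h hb hnb' h4 h3
  -- the two elements agree
  have hsub : x1 (c' - c) = 0 := by rw [map_sub, hcx, hcx', sub_self]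
  obtain ⟨t, ht⟩ : ∃ t : ℚ, c' - c = t • b := by
    by_contra h6
    push Not at h6
    exact hx1.ne _ (AA_sub hc' hc) h6 hsub
  have hyt : y c' - y c = t := by
    rw [← map_sub, ht, map_smul, hy, smul_eq_mul, mul_one]
  have ht0 : 0 ≤ t := by
    have := hcmin c' ⟨hc', hcx'⟩
    linarith
  have hc'e : c' = c + t • b := by rw [← ht]; abel
  have hteq : t = 0 := by
    by_contra hne
    have htpos : 0 < t := lt_of_le_of_ne ht0 (Ne.symm hne)
    have h5 : D.pr (c - b) (c' + b) = -t := by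
      have h6 : c' + b = c + (t + 1) • b := by rw [hc'e]; module
      rw [h6, map_add, map_smul, hr.s1, hr.s2, smul_eq_mul]
      ring
    have h7 : D.pr (c' + b) (c - b) = -t := by
      have h6 : c - b = c' - (t + 1) • b := by rw [hc'e]; module
      rw [h6, map_sub, map_smul, hr'.a1, hr'.a2, smul_eq_mul]
      ring
    have h8 : ∀ s : ℚ, c' + b ≠ s • (c - b) := by
      intro s hs
      have h9 := congrArg x1 hs
      rw [map_add, map_smul, map_sub, hx1.zero, add_zero, sub_zero, hcx, hcx', smul_eq_mul] at h9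
      have h10 : s = 1 := by
        have h11 : (s - 1) * x1 c0 = 0 := by linarith
        rcases mul_eq_zero.1 h11 with h12 | h12
        · linarith
        · linarith
      rw [h10, one_smul] at hs
      have h11 := congrArg y hs
      rw [map_add, map_sub] at h11
      linarith
    have h9 := h.ok.prod _ hr.sub _ hr'.add h8
    rw [h5, h7] at h9
    obtain ⟨z, hz⟩ := h.ok.int _ hr.sub _ hr'.add
    rw [h5] at hz
    have h10 : t = ((-z : ℤ) : ℚ) := by push_cast; linarith
    have h11 : 0 < -z := by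
      rw [h10] at htpos
      exact_mod_cast htpos
    have h12 : -z < 2 := by
      by_contra h13
      push Not at h13
      have h14 : (2 : ℚ) ≤ t := by
        rw [h10]
        exact_mod_cast h13
      nlinarith
    have h13 : -z = 1 := by omega
    rw [h13, Int.cast_one] at h10
    rw [h10, one_smul] at hc'e
    refine h.nr c' hc' 1 ?_
    rw [one_smul, hc'e]
    exact h2
  have hcc : c' = c := by rw [hc'e, hteq, zero_smul, add_zero]
  refine ⟨c, hc, hpos, hr, hnb, fun μ hμ hμ0 => ?_⟩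
  have h5 := hc0min μ ⟨hμ, hμ0⟩
  rcases h5.eq_or_lt with h6 | h6
  · left
    have h7 := hcmin μ ⟨hμ, h6.symm⟩
    have h8 := hcmax μ ⟨hμ, h6.symm⟩
    have h8' : y μ ≤ y c' := h8
    have h7' : y c ≤ y μ := h7
    rw [hcc] at h8'
    have h9 : x1 (μ - c) = 0 := by rw [map_sub, hcx, h6, sub_self]
    obtain ⟨s, hs⟩ : ∃ t : ℚ, μ - c = t • b := by
      by_contra h6
      push Not at h6
      exact hx1.ne _ (AA_sub hμ hc) h6 h9
    have h10 : y μ - y c = s := by
      rw [← map_sub, hs, map_smul, hy, smul_eq_mul, mul_one]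
    have h11 : s = 0 := by linarith
    rw [h11, zero_smul, sub_eq_zero] at hs
    exact hs
  · right
    rw [hcx]
    exact h6

/-- functionals for E4 -/
theorem exists_fn (hD : D.Ok) {b d : E} (hd : d ∈ Phi a) (hne : ∀ t : ℚ, d ≠ t • b) :
    ∃ x : E →ₗ[ℚ] ℚ, Fn D a b x ∧ 0 < x d ∧
      ∀ μ ∈ Phi a, (∀ s t : ℚ, μ ≠ s • d + t • b) → x d < |x μ| := by
  obtain ⟨z, hz, hz'⟩ := specFun E (Submodule.span ℚ {d, b}) (AA D a) (AA_finite hD)
  obtain ⟨y, hy, hy'⟩ : ∃ y : E →ₗ[ℚ] ℚ, Fn D a b y ∧ 0 < y d := by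
    obtain ⟨y, hy, hy'⟩ := specFun E (Submodule.span ℚ {b}) (AA D a) (AA_finite hD)
    have h1 : Fn D a b y := ⟨hy b (mem_span1.2 ⟨1, (one_smul _ _).symm⟩), fun v hv hne =>
      hy' v hv fun h => by
        obtain ⟨t, ht⟩ := mem_span1.1 h
        exact hne t ht⟩
    rcases lt_or_gt_of_ne (h1.ne d (AA_phi hd) hne) with h2 | h2
    · refine ⟨-y, ⟨by simp [h1.zero], fun v hv hne => ?_⟩, by simpa using h2⟩
      have := h1.ne v hv hne
      simpa using this
    · exact ⟨y, h1, h2⟩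
  obtain ⟨x, hx, hx'⟩ := specComb E z y (AA D a) (AA_finite hD) (y d)
  have hmem : ∀ v, v ∈ Submodule.span ℚ {d, b} ↔ ∃ s t : ℚ, v = s • d + t • b := by
    intro v
    rw [Submodule.mem_span_pair]
    exact ⟨fun ⟨s, t, h⟩ => ⟨s, t, h.symm⟩, fun ⟨s, t, h⟩ => ⟨s, t, h.symm⟩⟩
  have hxd : x d = y d := hx d (hz d ((hmem d).2 ⟨1, 0, by simp⟩))
  refine ⟨x, ⟨?_, ?_⟩, by rw [hxd]; exact hy', ?_⟩
  · rw [hx b (hz b ((hmem b).2 ⟨0, 1, by simp⟩)), hy.zero]
  · intro v hv hvne
    rcases lt_trichotomy (z v) 0 with h1 | h1 | h1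
    · have := (hx' v hv).2 h1
      linarith
    · rw [hx v h1]
      exact hy.ne v hv hvne
    · have := (hx' v hv).1 h1
      linarith
  · intro μ hμ hμne
    have h1 : z μ ≠ 0 := hz' μ (AA_phi hμ) fun h => by
      obtain ⟨s, t, hst⟩ := (hmem μ).1 h
      exact hμne s t hst
    rw [hxd]
    rcases lt_or_gt_of_ne h1 with h2 | h2
    · have := (hx' μ (AA_phi hμ)).2 h2
      rw [lt_abs]
      right
      linarith
    · exact lt_abs.2 (Or.inl ((hx' μ (AA_phi hμ)).1 h2))

/-- E3 in the plane of `b`, `d` -/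
theorem e3plane (h : Hyp D a) {b d : E} (hb : b ∈ Phi a) (hd : d ∈ Phi a)
    (hne : ∀ t : ℚ, d ≠ t • b) :
    ∃ x : E →ₗ[ℚ] ℚ, Fn D a b x ∧ 0 < x d ∧ ∃ c ∈ Phi a, 0 < x c ∧ Rel D c b ∧
      (∀ t : ℚ, c ≠ t • b) ∧ (∀ μ ∈ Phi a, 0 < x μ → μ = c ∨ x c < x μ) ∧
      ∃ s t : ℚ, c = s • d + t • b := by
  obtain ⟨x, hx, hxd, hxP⟩ := exists_fn (a := a) h.ok hd hne
  obtain ⟨c, hc, hc0, hr, hnb, hcmin⟩ := e3 h hb hx ⟨d, hd, hxd⟩
  refine ⟨x, hx, hxd, c, hc, hc0, hr, hnb, hcmin, ?_⟩
  by_contra hcon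
  push Not at hcon
  have h1 := hxP c hc hcon
  rw [abs_of_pos hc0] at h1
  rcases hcmin d hd hxd with h2 | h2
  · rw [h2] at h1
    exact lt_irrefl _ h1
  · linarith


/-! ### E4 -/

/-- `|⟨β, α^∨⟩| ≤ ⟨β, α^∨⟩ ⟨α, β^∨⟩` for roots -/
theorem abs_le_prod (hD : D.Ok) {α β : E} (hα : α ∈ D.R) (hβ : β ∈ D.R) :
    |D.pr α β| ≤ D.pr α β * D.pr β α := by
  obtain ⟨p, hp⟩ := hD.int α hα β hβ
  obtain ⟨q, hq⟩ := hD.int β hβ α hα
  have h1 := hD.nonneg α hα β hβ
  have h3 := hD.zero α hα β hβ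
  have h4 := hD.zero β hβ α hα
  rw [hp, hq] at h1 h3 h4 ⊢
  have h1' : 0 ≤ p * q := by exact_mod_cast h1
  have h4' : q = 0 → p = 0 := by exact_mod_cast h4
  have h5 : |p| ≤ p * q := by
    by_cases hq0 : q = 0
    · rw [hq0, h4' hq0]
      simp
    · have h6 : 1 ≤ |q| := Int.one_le_abs hq0
      have h7 : p * q = |p| * |q| := by rw [← abs_mul, abs_of_nonneg h1']
      rw [h7]
      nlinarith [abs_nonneg p]
  exact_mod_cast h5

/-- all pairings of roots are at most `3` -/
theorem abs_le_three (hD : D.Ok) {α β : E} (hα : α ∈ D.R) (hβ : β ∈ D.R) : |D.pr α β| ≤ 3 := by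
  by_cases h : ∀ t : ℚ, β ≠ t • α
  · exact pr_le hD hα hβ h
  · push Not at h
    obtain ⟨t, rfl⟩ := h
    rw [map_smul, hD.two α hα, smul_eq_mul]
    rcases hD.red α hα t hβ with h1 | h1 <;> rw [h1] <;> norm_num

/-- pairing with `c - b` -/
theorem pr_u {b c : E} (hr : Rel D c b) (s t : ℚ) : D.pr (c - b) (s • c + t • b) = s - t := by
  rw [map_add, map_smul, map_smul, hr.s1, hr.s2, smul_eq_mul, smul_eq_mul]
  ring

/-- pairing with `c + b` -/
theorem pr_v {b c : E} (hr : Rel D c b) (s t : ℚ) : D.pr (c + b) (s • c + t • b) = s + t := by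
  rw [map_add, map_smul, map_smul, hr.a1, hr.a2, smul_eq_mul, smul_eq_mul]
  ring

/-- (*) -/
theorem star4 (hD : D.Ok) {b c : E} (hr : Rel D c b) {s t : ℚ} (h : s • c + t • b ∈ D.R) :
    |s - t| + |s + t| ≤ 4 := by
  set ρ := s • c + t • b with hρ
  have h1 := abs_le_prod hD hr.sub h
  have h2 := abs_le_prod hD hr.add h
  rw [hρ, pr_u hr, ← hρ] at h1
  rw [hρ, pr_v hr, ← hρ] at h2
  have h3 : ρ = ((s - t) / 2) • (c - b) + ((s + t) / 2) • (c + b) := by
    rw [hρ]
    module
  have h4 := hD.two ρ h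
  have h5 : D.pr ρ ρ = (s - t) / 2 * D.pr ρ (c - b) + (s + t) / 2 * D.pr ρ (c + b) := by
    conv_lhs => rw [h3]
    rw [map_add, map_smul, map_smul, smul_eq_mul, smul_eq_mul, ← h3]
  rw [h5] at h4
  linarith

/-- the coordinates of a weight in the plane -/
theorem nz (h : Hyp D a) {b c : E} (hr : Rel D c b) {s t : ℚ} (he : s • c + t • b ∈ Phi a) :
    ∃ p q : ℤ, s - t = p ∧ s + t = q ∧ p ≠ 0 ∧ q ≠ 0 := by
  obtain ⟨p, hp⟩ := h.int he hr.sub
  obtain ⟨q, hq⟩ := h.int he hr.add
  rw [pr_u hr] at hp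
  rw [pr_v hr] at hq
  refine ⟨p, q, hp, hq, ?_, ?_⟩
  · intro h0
    rw [h0, Int.cast_zero] at hp
    have h1 : s = t := by linarith
    have h2 : s ≠ 0 := by
      rintro h2
      apply he.1
      rw [← h1, h2]
      simp
    refine h.nr _ he s⁻¹ ?_
    have h3 : s⁻¹ • (s • c + t • b) = c + b := by
      rw [← h1, ← smul_add, smul_smul, inv_mul_cancel₀ h2, one_smul]
    rw [h3]
    exact hr.add
  · intro h0
    rw [h0, Int.cast_zero] at hq
    have h1 : t = -s := by linarith
    have h2 : s ≠ 0 := by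
      rintro h2
      apply he.1
      rw [h1, h2]
      simp
    refine h.nr _ he s⁻¹ ?_
    have h3 : s⁻¹ • (s • c + t • b) = c - b := by
      rw [h1, neg_smul, ← sub_eq_add_neg, ← smul_sub, smul_smul, inv_mul_cancel₀ h2, one_smul]
    rw [h3]
    exact hr.sub

/-- levels of weights in the plane -/
theorem level {b c : E} {x : E →ₗ[ℚ] ℚ} (hxb : x b = 0) (hc0 : 0 < x c)
    (hmin : ∀ μ ∈ Phi a, 0 < x μ → μ = c ∨ x c < x μ) {w : E} (hw : w ∈ Phi a) {s t : ℚ}
    (hws : w = s • c + t • b) (hs : s ≠ 0) : w = c ∨ w = -c ∨ 1 < |s| := by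
  have hxw : x w = s * x c := by
    rw [hws, map_add, map_smul, map_smul, hxb, smul_zero, add_zero, smul_eq_mul]
  rcases lt_or_gt_of_ne hs with h1 | h1
  · have h2 : 0 < x (-w) := by
      rw [map_neg, hxw]
      nlinarith
    rcases hmin _ (Phi_neg hw) h2 with h3 | h3
    · right; left
      rw [← h3, neg_neg]
    · right; right
      rw [map_neg, hxw] at h3
      rw [abs_of_neg h1]
      by_contra h4
      push Not at h4
      nlinarith
  · have h2 : 0 < x w := by
      rw [hxw]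
      positivity
    rcases hmin _ hw h2 with h3 | h3
    · exact Or.inl h3
    · right; right
      rw [hxw] at h3
      rw [abs_of_pos h1]
      by_contra h4
      push Not at h4
      nlinarith

/-- E4 -/
theorem e4 (h : Hyp D a) {b d : E} (hb : b ∈ Phi a) (hd : d ∈ Phi a)
    (hne : ∀ t : ℚ, d ≠ t • b) :
    Rel D d b ∧ ∀ w ∈ Phi a, ∀ s t : ℚ, w = s • d + t • b → w = b ∨ w = -b ∨ w = d ∨ w = -d := by
  obtain ⟨x, hx, hxd, c, hc, hc0, hr, hnb, hcmin, s0, t0, hcP⟩ := e3plane h hb hd hne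
  have hs0 : s0 ≠ 0 := by
    rintro rfl
    rw [zero_smul, zero_add] at hcP
    exact hnb t0 hcP
  -- `span (d, b) = span (c, b)`
  have hP : ∀ s t : ℚ, s • d + t • b = (s / s0) • c + (t - s / s0 * t0) • b := by
    intro s t
    rw [hcP]
    have h1 : (s / s0) • (s0 • d + t0 • b) = s • d + (s / s0 * t0) • b := by
      rw [smul_add, smul_smul, smul_smul, div_mul_cancel₀ _ hs0]
    rw [h1]
    module
  -- independence
  have hind : ∀ s t : ℚ, s • c + t • b = 0 → s = 0 ∧ t = 0 := by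
    intro s t hst
    have h1 := congrArg x hst
    rw [map_add, map_smul, map_smul, hx.zero, smul_zero, add_zero, map_zero, smul_eq_mul] at h1
    have h2 : s = 0 := (mul_eq_zero.1 h1).resolve_right hc0.ne'
    rw [h2, zero_smul, zero_add, smul_eq_zero] at hst
    exact ⟨h2, hst.resolve_right hb.1⟩
  have hnc : ∀ t : ℚ, b ≠ t • c := by
    intro t ht
    have h1 : (-t) • c + (1 : ℚ) • b = 0 := by
      rw [one_smul, neg_smul, ← ht]
      exact neg_add_cancel b
    have := (hind _ _ h1).2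
    norm_num at this
  -- the second functional
  obtain ⟨x', hx', hxb', b', hb', hb0', hr', hnb', hbmin', s1, t1, hbP'⟩ :=
    e3plane h hc hb hnc
  have hbb : b = b' := by
    rcases hbmin' b hb hxb' with h1 | h1
    · exact h1
    · exfalso
      have h2 : x' b' = s1 * x' b := by
        rw [hbP', map_add, map_smul, map_smul, hx'.zero, smul_zero, add_zero, smul_eq_mul]
      have h3 : 0 < s1 := by
        rw [h2] at hb0'
        exact (mul_pos_iff_of_pos_right hxb').1 hb0'
      have h4 : s1 < 1 := by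
        rw [h2] at h1
        by_contra h5
        push Not at h5
        nlinarith
      have hb'' : b' = t1 • c + s1 • b := by rw [hbP']; abel
      rw [hb''] at hb'
      obtain ⟨p, q, hp, hq, hp0, hq0⟩ := nz h hr hb'
      have h5 : (t1 + 1) • c + s1 • b ∈ D.R := by
        have h6 : (t1 + 1) • c + s1 • b = b' + c := by rw [hb'']; module
        rw [h6]
        exact hr'.add
      have h6 : (t1 - 1) • c + s1 • b ∈ D.R := by
        have h6 : (t1 - 1) • c + s1 • b = b' - c := by rw [hb'']; module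
        rw [h6]
        exact hr'.sub
      have h7 := star4 h.ok hr h5
      have h8 := star4 h.ok hr h6
      have h9 : (q : ℚ) - p = 2 * s1 := by rw [← hp, ← hq]; ring
      have h10 : q - p = 1 := by
        have h11 : 0 < q - p := by
          have : (0 : ℚ) < ((q - p : ℤ) : ℚ) := by push_cast; linarith
          exact_mod_cast this
        have h12 : q - p < 2 := by
          have : ((q - p : ℤ) : ℚ) < 2 := by push_cast; linarith
          exact_mod_cast this
        omega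
      have h11 : t1 + 1 - s1 = ((p + 1 : ℤ) : ℚ) := by push_cast; linarith
      have h12 : t1 + 1 + s1 = ((q + 1 : ℤ) : ℚ) := by push_cast; linarith
      have h13 : t1 - 1 - s1 = ((p - 1 : ℤ) : ℚ) := by push_cast; linarith
      have h14 : t1 - 1 + s1 = ((q - 1 : ℤ) : ℚ) := by push_cast; linarith
      rw [h11, h12] at h7
      rw [h13, h14] at h8
      have h7' : |p + 1| + |q + 1| ≤ 4 := by exact_mod_cast h7
      have h8' : |p - 1| + |q - 1| ≤ 4 := by exact_mod_cast h8
      have h15 := le_abs_self (p + 1)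
      have h16 := le_abs_self (q + 1)
      have h17 := neg_le_abs (p - 1)
      have h18 := neg_le_abs (q - 1)
      omega
  subst hbb
  -- everything in the plane
  have hall : ∀ w ∈ Phi a, ∀ s t : ℚ, w = s • c + t • b → w = b ∨ w = -b ∨ w = c ∨ w = -c := by
    intro w hw s t hws
    by_contra hcon
    push Not at hcon
    obtain ⟨hwb, hwb', hwc, hwc'⟩ := hcon
    have hs : s ≠ 0 := by
      rintro rfl
      rw [zero_smul, zero_add] at hws
      rw [hws] at hw
      rcases h.line b hb t hw with h1 | h1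
      · exact hwb (by rw [hws, h1, one_smul])
      · exact hwb' (by rw [hws, h1, neg_smul, one_smul])
    have ht : t ≠ 0 := by
      rintro rfl
      rw [zero_smul, add_zero] at hws
      rw [hws] at hw
      rcases h.line c hc s hw with h1 | h1
      · exact hwc (by rw [hws, h1, one_smul])
      · exact hwc' (by rw [hws, h1, neg_smul, one_smul])
    have hs1 : 1 < |s| := ((level hx.zero hc0 hcmin hw hws hs).resolve_left hwc).resolve_left hwc'
    have ht1 : 1 < |t| := ((level hx'.zero hb0' hbmin' hw (hws.trans (add_comm _ _)) ht).resolve_left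
      hwb).resolve_left hwb'
    have hnw : ∀ r : ℚ, b ≠ r • w := by
      intro r hr0
      have h1 : (r * s) • c + (r * t - 1) • b = 0 := by
        have h2 : (r * s) • c + (r * t - 1) • b = r • w - b := by rw [hws]; module
        rw [h2, ← hr0, sub_self]
      obtain ⟨h2, h3⟩ := hind _ _ h1
      have h4 : r = 0 := (mul_eq_zero.1 h2).resolve_right hs
      rw [h4] at h3
      norm_num at h3
    obtain ⟨-, -, -, e, he, -, hre, -, -, s2, t2, heP⟩ := e3plane h hw hb hnw
    have heP' : e = (t2 * s) • c + (s2 + t2 * t) • b := by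
      rw [heP, hws]
      module
    set s' := t2 * s with hs'
    set t' := s2 + t2 * t with ht'
    have he2 := he
    rw [heP'] at he2
    obtain ⟨p, q, hp, hq, hp0, hq0⟩ := nz h hr he2
    have hadd : e + w = (s' + s) • c + (t' + t) • b := by
      rw [heP', hws]
      module
    have hsub : e - w = (s' - s) • c + (t' - t) • b := by
      rw [heP', hws]
      module
    have h1 := abs_le_three h.ok hr.sub hre.add
    have h2 := abs_le_three h.ok hr.sub hre.sub
    have h3 := abs_le_three h.ok hr.add hre.add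
    have h4 := abs_le_three h.ok hr.add hre.sub
    rw [hadd, pr_u hr] at h1
    rw [hsub, pr_u hr] at h2
    rw [hadd, pr_v hr] at h3
    rw [hsub, pr_v hr] at h4
    have h5 : 1 ≤ |s' - t'| := by
      rw [hp]
      exact_mod_cast Int.one_le_abs hp0
    have h6 : 1 ≤ |s' + t'| := by
      rw [hq]
      exact_mod_cast Int.one_le_abs hq0
    -- `|U_w| ≤ 2`, `|V_w| ≤ 2`
    have key : ∀ x y : ℚ, 1 ≤ |x| → |x + y| ≤ 3 → |x - y| ≤ 3 → |y| ≤ 2 := by
      intro x y hx hxy hxy'
      rw [abs_le] at hxy hxy' ⊢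
      rcases le_abs.1 hx with h7 | h7
      · constructor <;> linarith
      · constructor <;> linarith
    have h7 : |s - t| ≤ 2 := by
      refine key (s' - t') (s - t) h5 ?_ ?_
      · have : s' - t' + (s - t) = s' + s - (t' + t) := by ring
        rwa [this]
      · have : s' - t' - (s - t) = s' - s - (t' - t) := by ring
        rwa [this]
    have h8 : |s + t| ≤ 2 := by
      refine key (s' + t') (s + t) h6 ?_ ?_
      · have : s' + t' + (s + t) = s' + s + (t' + t) := by ring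
        rwa [this]
      · have : s' + t' - (s + t) = s' - s + (t' - t) := by ring
        rwa [this]
    rw [abs_le] at h7 h8
    rcases lt_abs.1 hs1 with h9 | h9 <;> rcases lt_abs.1 ht1 with h10 | h10 <;> linarith
  -- conclusion
  have hdc : d = c := by
    have h1 : d = (1 / s0) • c + (0 - 1 / s0 * t0) • b := by
      rw [← hP 1 0]
      simp
    rcases hall d hd _ _ h1 with h2 | h2 | h2 | h2
    · exact absurd (h2.trans (one_smul ℚ b).symm) (hne 1)
    · exact absurd (h2.trans (by rw [neg_smul, one_smul])) (hne (-1))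
    · exact h2
    · rw [h2, map_neg] at hxd
      linarith
  subst hdc
  exact ⟨hr, hall⟩

end EvenAM

open EvenAM in
/-- Module EVENA. -/
theorem specEvA : SpecEvA := by
  intro E _ _ D hD m a _ hV hH hH' hN
  have ha0 : ∀ i, a i ≠ 0 := e0 hD hN
  have h : Hyp D a := ⟨hD, hV, hH, hH', ha0, fun b hb t ht => e2line hD ha0 hH hH' hb t ht,
    fun i j hij => e2one hD ha0 hH hH' i j hij, fun b hb t => e2nr hD ha0 hH hH' hb t⟩
  exact ⟨ha0, h.line, h.one, h.nr, fun b hb d hd hne => (e4 h hb hd hne).1,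
    fun b hb d hd hne => (e4 h hb hd hne).2⟩

end Pool.Agent.Lib.MPf11a48.K3
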