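import Pool.Agent.Lib.MP_f11a48_ag.K3.EvenA

/-!
# Module EVENB: the even case, steps E5, E6 and SpecEven
-/

set_option autoImplicit false
set_option linter.unusedSectionVars false

namespace Pool.Agent.Lib.MPf11a48.K3

open Finset CBasM EvenAM

namespace EvenBM

variable {E : Type} [AddCommGroup E] [Module ℚ E] {D : RDat E} {m : ℕ} {a : Fin m → E}

/-- reflections of weights -/
theorem refl_phi (h : Hyp D a) {μ ρ : E} (hμ : μ ∈ Phi a) (hρ : ρ ∈ D.R) :
    μ - D.pr ρ μ • ρ ∈ Phi a :=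
  (dVe_ne_iff h.ne0).1 (refl_ne h.hV hρ ((dVe_ne_iff h.ne0).2 hμ))

/-- E5 -/
theorem e5 (h : Hyp D a) (hA : EvA D a) {μ ρ : E} (hμ : μ ∈ Phi a) (hρ : ρ ∈ D.R) :
    D.pr ρ μ = 0 ∨ D.pr ρ μ = 1 ∨ D.pr ρ μ = -1 := by
  by_cases hk : D.pr ρ μ = 0
  · exact Or.inl hk
  · right
    set k := D.pr ρ μ with hkdef
    have h1 := refl_phi h hμ hρ
    rw [← hkdef] at h1
    have h2 : ∀ t : ℚ, μ ≠ t • (μ - k • ρ) := by
      intro t ht
      by_cases ht0 : t = 0
      · rw [ht0, zero_smul] at ht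
        exact hμ.1 ht
      · refine h.nr μ hμ ((t - 1) / (t * k)) ?_
        have h3 : (t * k) • ρ = (t - 1) • μ := by
          have h4 : (t * k) • ρ - (t - 1) • μ = μ - t • (μ - k • ρ) := by module
          rw [← sub_eq_zero, h4, ← ht, sub_self]
        have h5 : ((t - 1) / (t * k)) • μ = ρ := by
          rw [div_eq_inv_mul, mul_smul, ← h3, smul_smul, inv_mul_cancel₀ (mul_ne_zero ht0 hk),
            one_smul]
        rwa [h5]
    have h3 := (hA.rel _ h1 _ hμ h2).sub
    have h4 : μ - (μ - k • ρ) = k • ρ := by abel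
    rw [h4] at h3
    exact h.ok.red ρ hρ k h3

/-- the roots in the plane of `b`, `c` -/
theorem e5R (h : Hyp D a) (hA : EvA D a) {b c : E} (hb : b ∈ Phi a) (hc : c ∈ Phi a)
    (hne : ∀ t : ℚ, c ≠ t • b) {ρ : E} (hρ : ρ ∈ D.R) {s t : ℚ} (hst : ρ = s • c + t • b) :
    ρ = c - b ∨ ρ = -(c - b) ∨ ρ = c + b ∨ ρ = -(c + b) := by
  have key : ∀ μ ∈ Phi a, ∀ (_ : D.pr ρ μ ≠ 0), ∃ w ∈ Phi a, w ≠ μ ∧ w ≠ -μ ∧
      (ρ = μ - w ∨ ρ = -(μ - w)) ∧ w = μ - D.pr ρ μ • ρ := by
    intro μ hμ hk
    refine ⟨μ - D.pr ρ μ • ρ, refl_phi h hμ hρ, ?_, ?_, ?_, rfl⟩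
    · intro h1
      have h2 : D.pr ρ μ • ρ = 0 := by
        rw [sub_eq_self] at h1
        exact h1
      rw [smul_eq_zero] at h2
      exact h2.elim hk (ne_zero h.ok hρ)
    · intro h1
      refine h.nr μ hμ (2 / D.pr ρ μ) ?_
      have h2 : D.pr ρ μ • ρ = (2 : ℚ) • μ := by
        have h3 : D.pr ρ μ • ρ = μ - (μ - D.pr ρ μ • ρ) := by abel
        rw [h3, h1]
        module
      rw [div_eq_inv_mul, mul_smul, ← h2, smul_smul, inv_mul_cancel₀ hk, one_smul]
      exact hρ
    · rcases e5 h hA hμ hρ with h1 | h1 | h1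
      · exact absurd h1 hk
      · left
        rw [h1, one_smul]
        abel
      · right
        rw [h1, neg_smul, one_smul]
        abel
  by_cases hkb : D.pr ρ b = 0
  · by_cases hkc : D.pr ρ c = 0
    · have h1 := h.ok.two ρ hρ
      have h2 : D.pr ρ ρ = s * D.pr ρ c + t * D.pr ρ b := by
        conv_lhs => rw [hst]
        rw [map_add, map_smul, map_smul, smul_eq_mul, smul_eq_mul, ← hst]
      rw [h2, hkb, hkc] at h1
      norm_num at h1
    · obtain ⟨w, hw, hw1, hw2, h1, h2⟩ := key c hc hkc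
      have h3 : w = (1 - D.pr ρ c * s) • c + (-(D.pr ρ c * t)) • b := by
        rw [h2]
        nth_rewrite 2 [hst]
        module
      rcases hA.plane b hb c hc hne w hw _ _ h3 with h4 | h4 | h4 | h4
      · rw [h4] at h1
        rcases h1 with h1 | h1
        · exact Or.inl h1
        · exact Or.inr (Or.inl h1)
      · rw [h4] at h1
        rcases h1 with h1 | h1
        · right; right; left
          rw [h1, sub_neg_eq_add]
        · right; right; right
          rw [h1, sub_neg_eq_add]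
      · exact absurd h4 hw1
      · exact absurd h4 hw2
  · obtain ⟨w, hw, hw1, hw2, h1, h2⟩ := key b hb hkb
    have h3 : w = (-(D.pr ρ b * s)) • c + (1 - D.pr ρ b * t) • b := by
      rw [h2]
      nth_rewrite 2 [hst]
      module
    rcases hA.plane b hb c hc hne w hw _ _ h3 with h4 | h4 | h4 | h4
    · exact absurd h4 hw1
    · exact absurd h4 hw2
    · rw [h4] at h1
      rcases h1 with h1 | h1
      · right; left
        rw [h1]; abel
      · left
        rw [h1]; abel
    · rw [h4] at h1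
      rcases h1 with h1 | h1
      · right; right; left
        rw [h1]; abel
      · right; right; right
        rw [h1]; abel

/-- functionals which vanish exactly on `P` -/
structure FnS (D : RDat E) (a : Fin m → E) (P : Submodule ℚ E) (x : E →ₗ[ℚ] ℚ) : Prop where
  zero : ∀ p ∈ P, x p = 0
  ne : ∀ v ∈ AA D a, v ∉ P → x v ≠ 0

theorem exists_fnS (hD : D.Ok) (P : Submodule ℚ E) {e : E} (he : e ∈ Phi a) (hne : e ∉ P) :
    ∃ x : E →ₗ[ℚ] ℚ, FnS D a P x ∧ 0 < x e ∧
      ∀ μ ∈ Phi a, μ ∉ P ⊔ Submodule.span ℚ {e} → x e < |x μ| := by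
  obtain ⟨z, hz, hz'⟩ := specFun E (P ⊔ Submodule.span ℚ {e}) (AA D a) (AA_finite hD)
  obtain ⟨y, hy, hy'⟩ : ∃ y : E →ₗ[ℚ] ℚ, FnS D a P y ∧ 0 < y e := by
    obtain ⟨y, hy, hy'⟩ := specFun E P (AA D a) (AA_finite hD)
    rcases lt_or_gt_of_ne (hy' e (AA_phi he) hne) with h2 | h2
    · refine ⟨-y, ⟨fun p hp => by simp [hy p hp], fun v hv hne => ?_⟩, by simpa using h2⟩
      have := hy' v hv hne
      simpa using this
    · exact ⟨y, ⟨hy, hy'⟩, h2⟩
  obtain ⟨x, hx, hx'⟩ := specComb E z y (AA D a) (AA_finite hD) (y e)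
  have hxe : x e = y e :=
    hx e (hz e (Submodule.mem_sup_right (Submodule.mem_span_singleton_self e)))
  refine ⟨x, ⟨?_, ?_⟩, by rw [hxe]; exact hy', ?_⟩
  · intro p hp
    rw [hx p (hz p (Submodule.mem_sup_left hp)), hy.zero p hp]
  · intro v hv hvne
    rcases lt_trichotomy (z v) 0 with h1 | h1 | h1
    · have := (hx' v hv).2 h1
      linarith
    · rw [hx v h1]
      exact hy.ne v hv hvne
    · have := (hx' v hv).1 h1
      linarith
  · intro μ hμ hμne
    have h1 : z μ ≠ 0 := hz' μ (AA_phi hμ) hμne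
    rw [hxe]
    rcases lt_or_gt_of_ne h1 with h2 | h2
    · have := (hx' μ (AA_phi hμ)).2 h2
      rw [lt_abs]
      right
      linarith
    · exact lt_abs.2 (Or.inl ((hx' μ (AA_phi hμ)).1 h2))

theorem mem_span2 {b c v : E} : v ∈ Submodule.span ℚ {c, b} ↔ ∃ s t : ℚ, v = s • c + t • b := by
  rw [Submodule.mem_span_pair]
  exact ⟨fun ⟨s, t, h⟩ => ⟨s, t, h.symm⟩, fun ⟨s, t, h⟩ => ⟨s, t, h.symm⟩⟩

/-- differences in a level set -/
theorem diff_level (h : Hyp D a) (hA : EvA D a) {b c : E} (hb : b ∈ Phi a) (hc : c ∈ Phi a)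
    (hne : ∀ t : ℚ, c ≠ t • b) {x3 : E →ₗ[ℚ] ℚ} (hx3 : FnS D a (Submodule.span ℚ {c, b}) x3)
    {μ ν : E} (hμ : μ ∈ Phi a) (hν : ν ∈ Phi a) (hμν : x3 μ = x3 ν) (h0 : 0 < x3 μ) :
    μ = ν ∨ μ - ν = c - b ∨ μ - ν = -(c - b) ∨ μ - ν = c + b ∨ μ - ν = -(c + b) := by
  by_cases heq : μ = ν
  · exact Or.inl heq
  · right
    have h1 : μ - ν ∈ Submodule.span ℚ {c, b} := by
      by_contra h2
      refine hx3.ne _ (AA_sub hμ hν) h2 ?_
      rw [map_sub, hμν, sub_self]
    have h2 : ∀ t : ℚ, μ ≠ t • ν := by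
      intro t ht
      have h3 : x3 μ = t * x3 ν := by
        conv_lhs => rw [ht]
        rw [map_smul, smul_eq_mul]
      rw [hμν] at h3 h0
      have h4 : t = 1 := by
        have h5 : (t - 1) * x3 ν = 0 := by linarith
        rcases mul_eq_zero.1 h5 with h6 | h6
        · linarith
        · linarith
      rw [h4, one_smul] at ht
      exact heq ht
    have h3 := (hA.rel ν hν μ hμ h2).sub
    obtain ⟨s, t, hst⟩ := mem_span2.1 h1
    exact e5R h hA hb hc hne h3 hst

/-- the core of E6 -/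
theorem e6core (h : Hyp D a) (hA : EvA D a) {b c : E} (hb : b ∈ Phi a) (hc : c ∈ Phi a)
    (hne : ∀ t : ℚ, c ≠ t • b) {x3 : E →ₗ[ℚ] ℚ} (hx3 : FnS D a (Submodule.span ℚ {c, b}) x3)
    {d : E} (hd : d ∈ Phi a) (hd0 : 0 < x3 d) (hmin : ∀ μ ∈ Phi a, 0 < x3 μ → x3 d ≤ x3 μ)
    (hdu : d + (c - b) ∈ Phi a) : False := by
  have hbP : x3 b = 0 := hx3.zero b (mem_span2.2 ⟨0, 1, by simp⟩)
  have hcP : x3 c = 0 := hx3.zero c (mem_span2.2 ⟨1, 0, by simp⟩)
  have hneb : ∀ t : ℚ, b ≠ t • c := nonprop_symm hb.1 hne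
  -- the functional on the plane
  obtain ⟨x', hx'b, hx'c⟩ : ∃ x' : E →ₗ[ℚ] ℚ, x' b = 1 ∧ x' c = 2 := by
    obtain ⟨f, hf, hf'⟩ := specFun E (Submodule.span ℚ {b}) {c} (Set.finite_singleton c)
    obtain ⟨g, hg, hg'⟩ := specFun E (Submodule.span ℚ {c}) {b} (Set.finite_singleton b)
    have h1 : f b = 0 := hf b (Submodule.mem_span_singleton_self b)
    have h2 : g c = 0 := hg c (Submodule.mem_span_singleton_self c)
    have h3 : f c ≠ 0 := hf' c rfl fun h4 => by
      obtain ⟨t, ht⟩ := mem_span1.1 h4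
      exact hne t ht
    have h4 : g b ≠ 0 := hg' b rfl fun h4 => by
      obtain ⟨t, ht⟩ := mem_span1.1 h4
      exact hneb t ht
    refine ⟨(g b)⁻¹ • g + (2 * (f c)⁻¹) • f, ?_, ?_⟩
    · simp [h1, h4]
    · simp [h2, h3]
  have hx'u : x' (c - b) = 1 := by rw [map_sub, hx'b, hx'c]; norm_num
  have hx'v : x' (c + b) = 3 := by rw [map_add, hx'b, hx'c]; norm_num
  obtain ⟨x, hx, hxC⟩ := specComb E x3 x' (AA D a) (AA_finite h.ok) 0
  -- `x` on the plane
  have hroot0 : ∀ α ∈ D.R, x3 α = 0 → α = c - b ∨ α = -(c - b) ∨ α = c + b ∨ α = -(c + b) := by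
    intro α hα hα0
    have h1 : α ∈ Submodule.span ℚ {c, b} := by
      by_contra h2
      exact hx3.ne α (AA_root hα) h2 hα0
    obtain ⟨s, t, hst⟩ := mem_span2.1 h1
    exact e5R h hA hb hc hne hα hst
  have hphi0 : ∀ μ ∈ Phi a, x3 μ = 0 → μ = b ∨ μ = -b ∨ μ = c ∨ μ = -c := by
    intro α hα hα0
    have h1 : α ∈ Submodule.span ℚ {c, b} := by
      by_contra h2
      exact hx3.ne α (AA_phi hα) h2 hα0
    obtain ⟨s, t, hst⟩ := mem_span2.1 h1
    exact hA.plane b hb c hc hne α hα s t hst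
  have hreg : Reg D x := by
    intro α hα
    rcases lt_trichotomy (x3 α) 0 with h1 | h1 | h1
    · have := (hxC α (AA_root hα)).2 h1
      linarith
    · rw [hx α h1]
      rcases hroot0 α hα h1 with h2 | h2 | h2 | h2 <;> rw [h2] <;>
        simp only [map_neg, hx'u, hx'v] <;> norm_num
    · have := (hxC α (AA_root hα)).1 h1
      linarith
  have hxphi : ∀ μ ∈ Phi a, x μ ≠ 0 := by
    intro α hα
    rcases lt_trichotomy (x3 α) 0 with h1 | h1 | h1
    · have := (hxC α (AA_phi hα)).2 h1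
      linarith
    · rw [hx α h1]
      rcases hphi0 α hα h1 with h2 | h2 | h2 | h2 <;> rw [h2] <;>
        simp only [map_neg, hx'b, hx'c] <;> norm_num
    · have := (hxC α (AA_phi hα)).1 h1
      linarith
  have hxa : ∀ i, x (a i) ≠ 0 := fun i => hxphi _ (mem_Phi (h.ne0 i))
  have hxb : x b = 1 := by rw [hx b hbP, hx'b]
  have hxc : x c = 2 := by rw [hx c hcP, hx'c]
  -- the elements `b_i`
  have hinj : ∀ i j, bx a x i = bx a x j → i = j := by
    intro i j hij
    refine (h.one i j ?_).symm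
    rcases bx_eq a x i with h1 | h1 <;> rcases bx_eq a x j with h2 | h2 <;> rw [h1, h2] at hij
    · exact Or.inl hij.symm
    · right
      rw [hij, neg_neg]
    · right
      rw [← hij]
    · left
      exact (neg_inj.1 hij).symm
  obtain ⟨ib, hib⟩ := exists_bx a x hb (by rw [hxb]; norm_num)
  obtain ⟨ic, hic⟩ := exists_bx a x hc (by rw [hxc]; norm_num)
  have hibc : ib ≠ ic := by
    rintro h1
    rw [h1, hic] at hib
    exact hne 1 (by rw [one_smul]; exact hib)
  have hnn : ∀ i, 0 ≤ x3 (bx a x i) := by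
    intro i
    by_contra h1
    push Not at h1
    have h2 := (hxC _ (AA_phi (bx_mem a x (h.ne0 i)))).2 h1
    have h3 := bx_pos a x (hxa i)
    linarith
  have hlev0 : ∀ i, x3 (bx a x i) = 0 → i = ib ∨ i = ic := by
    intro i hi
    have h2 := bx_pos a x (hxa i)
    rcases hphi0 _ (bx_mem a x (h.ne0 i)) hi with h1 | h1 | h1 | h1
    · exact Or.inl (hinj _ _ (h1.trans hib.symm))
    · rw [h1, map_neg, hxb] at h2
      linarith
    · exact Or.inr (hinj _ _ (h1.trans hic.symm))
    · rw [h1, map_neg, hxc] at h2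
      linarith
  have hlev : ∀ i, x3 (bx a x i) ≠ 0 → x3 d ≤ x3 (bx a x i) := fun i hi =>
    hmin _ (bx_mem a x (h.ne0 i)) (lt_of_le_of_ne (hnn i) (Ne.symm hi))
  have hlow : ∀ T : Finset (Fin m), x3 (∑ i ∈ T, bx a x i) < x3 d → T ⊆ {ib, ic} := by
    intro T hT k hk
    rw [map_sum] at hT
    have h1 : x3 (bx a x k) ≤ ∑ i ∈ T, x3 (bx a x i) :=
      Finset.single_le_sum (f := fun i => x3 (bx a x i)) (fun i _ => hnn i) hk
    have h2 : x3 (bx a x k) = 0 := by
      by_contra h3
      have := hlev k h3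
      linarith
    rw [Finset.mem_insert, Finset.mem_singleton]
    exact hlev0 k h2
  have hone : ∀ T : Finset (Fin m), Even T.card → x3 (∑ i ∈ T, bx a x i) = x3 d →
      ∃ k, x3 (bx a x k) = x3 d ∧ k ≠ ib ∧ k ≠ ic ∧ (T = {k, ib} ∨ T = {k, ic}) := by
    intro T hTe hT
    obtain ⟨k, hk, hk0⟩ : ∃ k ∈ T, x3 (bx a x k) ≠ 0 := by
      by_contra hcon
      push Not at hcon
      rw [map_sum, Finset.sum_eq_zero hcon] at hT
      linarith
    have h1 := hlev k hk0
    have h2 : x3 (bx a x k) + x3 (∑ i ∈ T.erase k, bx a x i) = x3 d := by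
      rw [← hT, ← Finset.add_sum_erase T _ hk, map_add]
    have h3 : 0 ≤ x3 (∑ i ∈ T.erase k, bx a x i) := by
      rw [map_sum]
      exact Finset.sum_nonneg fun i _ => hnn i
    have h4 : x3 (bx a x k) = x3 d := by linarith
    have h5 := hlow (T.erase k) (by linarith)
    have hkb : k ≠ ib := by
      rintro rfl
      rw [hib, hbP] at hk0
      exact hk0 rfl
    have hkc : k ≠ ic := by
      rintro rfl
      rw [hic, hcP] at hk0
      exact hk0 rfl
    have h6 : (T.erase k).card = 1 := by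
      have h7 := Finset.card_le_card h5
      rw [Finset.card_pair hibc] at h7
      have h8 := Finset.card_erase_of_mem hk
      have h9 : 0 < T.card := Finset.card_pos.2 ⟨k, hk⟩
      obtain ⟨r, hr⟩ := hTe
      omega
    obtain ⟨l, hl⟩ := Finset.card_eq_one.1 h6
    have hTk : T = {k, l} := by
      rw [← Finset.insert_erase hk, hl]
    refine ⟨k, h4, hkb, hkc, ?_⟩
    have h7 : l ∈ ({ib, ic} : Finset (Fin m)) := h5 (by rw [hl]; exact Finset.mem_singleton_self l)
    rw [Finset.mem_insert, Finset.mem_singleton] at h7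
    rcases h7 with h7 | h7
    · exact Or.inl (by rw [hTk, h7])
    · exact Or.inr (by rw [hTk, h7])
  -- differences in the level set
  have hdiff : ∀ μ ∈ Phi a, ∀ ν ∈ Phi a, x3 μ = x3 d → x3 ν = x3 d →
      x' (μ - ν) = 0 ∨ x' (μ - ν) = 1 ∨ x' (μ - ν) = -1 ∨ x' (μ - ν) = 3 ∨ x' (μ - ν) = -3 := by
    intro μ hμ ν hν h1 h2
    rcases diff_level h hA hb hc hne hx3 hμ hν (h1.trans h2.symm) (by rw [h1]; exact hd0) with
      h3 | h3 | h3 | h3 | h3
    · left
      rw [h3, sub_self, map_zero]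
    · right; left
      rw [h3, hx'u]
    · right; right; left
      rw [h3, map_neg, hx'u]
    · right; right; right; left
      rw [h3, hx'v]
    · right; right; right; right
      rw [h3, map_neg, hx'v]
  have hx3u : x3 (d + (c - b)) = x3 d := by
    rw [map_add, map_sub, hbP, hcP, sub_self, add_zero]
  have hxd : 0 < x d := (hxC d (AA_phi hd)).1 hd0
  have hxdu : 0 < x (d + (c - b)) := (hxC _ (AA_phi hdu)).1 (by rw [hx3u]; exact hd0)
  obtain ⟨id, hid⟩ := exists_bx a x hd hxd
  obtain ⟨iu, hiu⟩ := exists_bx a x hdu hxdu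
  have hidc : ic ≠ id := by
    intro h1
    rw [← h1, hic] at hid
    rw [← hid, hcP] at hd0
    exact lt_irrefl _ hd0
  have hidb : ib ≠ id := by
    intro h1
    rw [← h1, hib] at hid
    rw [← hid, hbP] at hd0
    exact lt_irrefl _ hd0
  have hiub : ib ≠ iu := by
    intro h1
    rw [← h1, hib] at hiu
    rw [← hiu, hbP] at hx3u
    linarith
  have hiuc : ic ≠ iu := by
    intro h1
    rw [← h1, hic] at hiu
    rw [← hiu, hcP] at hx3u
    linarith
  obtain ⟨hTop, -⟩ := iwt_top (x := x) h.hH h.hH'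
  -- multiplicity of `lam - (c + d)`
  have hT1 : ∑ i ∈ {ic, id}, bx a x i = c + d := by rw [Finset.sum_pair hidc, hic, hid]
  have hT2 : ∑ i ∈ {ib, iu}, bx a x i = c + d := by
    rw [Finset.sum_pair hiub, hib, hiu]
    abel
  have hmult : 2 ≤ dH a (s0 a x) (lam a x - (c + d)) := by
    rw [dH_top]
    refine two_le_card (i := ({ic, id} : Finset (Fin m))) (j := {ib, iu})
      ⟨by rw [Finset.card_pair hidc]; exact even_two, hT1⟩
      ⟨by rw [Finset.card_pair hiub]; exact even_two, hT2⟩ ?_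
    intro h1
    have h2 : ic ∈ ({ib, iu} : Finset (Fin m)) := by rw [← h1]; simp
    rw [Finset.mem_insert, Finset.mem_singleton] at h2
    exact h2.elim hibc.symm hiuc
  have hu : c - b ∈ D.R := (hA.rel b hb c hc hne).sub
  have hxu : x (c - b) = 1 := by rw [map_sub, hxb, hxc]; norm_num
  have hxv : x (c + b) = 3 := by rw [map_add, hxb, hxc]; norm_num
  have hsb := hTop.sb x hreg (lam a x - (c + d)) ⟨lam a x, ?_, ?_⟩ (c - b) hu
    (by rw [hxu]; exact one_pos) ?_
  · -- count
    have h1 : lam a x - (c + d) + (c - b) = lam a x - (d + b) := by abel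
    rw [h1, dH_top a x (d + b)] at hsb
    have h2 : Nat.card {T : Finset (Fin m) // Even T.card ∧ ∑ i ∈ T, bx a x i = d + b} ≤ 1 := by
      have h3 : ∀ T : Finset (Fin m), (Even T.card ∧ ∑ i ∈ T, bx a x i = d + b) →
          T = {id, ib} := by
        rintro T ⟨hTe, hTs⟩
        obtain ⟨k, hk, hkb, hkc, hT⟩ := hone T hTe (by rw [hTs, map_add, hbP, add_zero])
        rcases hT with hT | hT
        · rw [hT, Finset.sum_pair hkb, hib] at hTs
          have h4 : bx a x k = d := add_right_cancel hTs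
          rw [hT, hinj k id (h4.trans hid.symm)]
        · exfalso
          rw [hT, Finset.sum_pair hkc, hic] at hTs
          have h4 : d + (c - b) - bx a x k = (2 : ℚ) • (c - b) := by
            have h5 : bx a x k = d + b - c := by rw [← hTs]; abel
            rw [h5]
            module
          have h5 := hdiff _ hdu _ (bx_mem a x (h.ne0 k)) hx3u hk
          rw [h4, map_smul, hx'u, smul_eq_mul] at h5
          norm_num at h5
      exact card_le_one fun T T' hT hT' => (h3 T hT).trans (h3 T' hT').symm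
    omega
  · have := (dH_top_ne a x (μ := 0)).2 ⟨∅, by simp, by simp⟩
    rwa [sub_zero] at this
  · rw [map_sub, map_add, hxc]
    linarith
  · -- the ways up
    intro α hα hxα hαne hαd
    have h1 : lam a x - (c + d) + α = lam a x - (c + d - α) := by abel
    rw [h1] at hαd
    obtain ⟨T, hTe, hT⟩ := (dH_top_ne a x).1 hαd
    rcases lt_trichotomy (x3 α) 0 with h2 | h2 | h2
    · have := (hxC α (AA_root hα)).2 h2
      linarith
    · exfalso
      rcases hroot0 α hα h2 with h3 | h3 | h3 | h3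
      · exact hαne h3
      · rw [h3, map_neg, hxu] at hxα
        linarith
      · rw [h3] at hT
        have h4 : c + d - (c + b) = d - b := by abel
        rw [h4] at hT
        obtain ⟨k, hk, hkb, hkc, hT'⟩ := hone T hTe (by rw [hT, map_sub, hbP, sub_zero])
        rcases hT' with hT' | hT'
        · rw [hT', Finset.sum_pair hkb, hib] at hT
          have h5 : d - bx a x k = (2 : ℚ) • b := by
            have h6 : bx a x k = d - b - b := by rw [← hT]; abel
            rw [h6]
            module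
          have h6 := hdiff _ hd _ (bx_mem a x (h.ne0 k)) rfl hk
          rw [h5, map_smul, hx'b, smul_eq_mul] at h6
          norm_num at h6
        · rw [hT', Finset.sum_pair hkc, hic] at hT
          have h5 : d + (c - b) - bx a x k = (2 : ℚ) • c := by
            have h6 : bx a x k = d - b - c := by rw [← hT]; abel
            rw [h6]
            module
          have h6 := hdiff _ hdu _ (bx_mem a x (h.ne0 k)) hx3u hk
          rw [h5, map_smul, hx'c, smul_eq_mul] at h6
          norm_num at h6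
      · rw [h3, map_neg, hxv] at hxα
        linarith
    · have h3 := hlow T (by rw [hT, map_sub, map_add, hcP]; linarith)
      have h4 : T = ∅ ∨ T = {ib, ic} := by
        have h5 : T.card = 0 ∨ T.card = 2 := by
          have h7 := Finset.card_le_card h3
          rw [Finset.card_pair hibc] at h7
          obtain ⟨r, hr⟩ := hTe
          omega
        rcases h5 with h5 | h5
        · exact Or.inl (Finset.card_eq_zero.1 h5)
        · right
          exact Finset.eq_of_subset_of_card_le h3 (by rw [h5, Finset.card_pair hibc])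
      have hdb : ∀ t : ℚ, d ≠ t • b := by
        intro t ht
        rw [ht, map_smul, hbP, smul_zero] at hd0
        exact lt_irrefl _ hd0
      have hdc : ∀ t : ℚ, d ≠ t • c := by
        intro t ht
        rw [ht, map_smul, hcP, smul_zero] at hd0
        exact lt_irrefl _ hd0
      rcases h4 with h4 | h4
      · rw [h4, Finset.sum_empty] at hT
        have h5 : α - (c - b) = d + b := by
          have h6 : α = c + d := by
            rw [eq_comm, sub_eq_zero] at hT
            exact hT.symm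
          rw [h6]
          abel
        have h6 := (hA.rel b hb d hd hdb).add
        rw [h5]
        exact ⟨h6, Or.inl ((hxC _ (AA_root h6)).1 (by rw [map_add, hbP]; linarith))⟩
      · rw [h4, Finset.sum_pair hibc, hib, hic] at hT
        have h5 : α - (c - b) = d - c := by
          have h6 : α = c + d - (b + c) := by rw [hT]; abel
          rw [h6]
          abel
        have h6 := (hA.rel c hc d hd hdc).sub
        rw [h5]
        exact ⟨h6, Or.inl ((hxC _ (AA_root h6)).1 (by rw [map_sub, hcP]; linarith))⟩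


/-- E6 -/
theorem e6 (h : Hyp D a) (hA : EvA D a) {b c e : E} (hb : b ∈ Phi a) (hc : c ∈ Phi a)
    (he : e ∈ Phi a) (hbc : ∀ t : ℚ, c ≠ t • b) (hbe : ∀ t : ℚ, e ≠ t • b)
    (hce : ∀ t : ℚ, e ≠ t • c) : D.pr (c - b) e = 0 ∧ D.pr (c + b) e = 0 := by
  have heP : e ∉ Submodule.span ℚ {c, b} := by
    intro h1
    obtain ⟨s, t, hst⟩ := mem_span2.1 h1
    rcases hA.plane b hb c hc hbc e he s t hst with h2 | h2 | h2 | h2
    · exact hbe 1 (by rw [one_smul]; exact h2)
    · exact hbe (-1) (by rw [neg_smul, one_smul]; exact h2)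
    · exact hce 1 (by rw [one_smul]; exact h2)
    · exact hce (-1) (by rw [neg_smul, one_smul]; exact h2)
  obtain ⟨x3, hx3, hx3e, hx3P⟩ := exists_fnS (a := a) h.ok (Submodule.span ℚ {c, b}) he heP
  have hbP : x3 b = 0 := hx3.zero b (mem_span2.2 ⟨0, 1, by simp⟩)
  have hcP : x3 c = 0 := hx3.zero c (mem_span2.2 ⟨1, 0, by simp⟩)
  -- the least level
  obtain ⟨d, ⟨hd, hd0⟩, hdmin⟩ := Set.exists_min_image {μ | μ ∈ Phi a ∧ 0 < x3 μ}
    (fun μ => x3 μ) ((Phi_finite a).subset fun μ hμ => hμ.1) ⟨e, he, hx3e⟩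
  have hmin : ∀ μ ∈ Phi a, 0 < x3 μ → x3 d ≤ x3 μ := fun μ hμ h0 => hdmin μ ⟨hμ, h0⟩
  -- the functional for `-b`
  have hspan : Submodule.span ℚ {c, -b} = Submodule.span ℚ {c, b} := by
    ext v
    rw [mem_span2, mem_span2]
    exact ⟨fun ⟨s, t, h⟩ => ⟨s, -t, by rw [h]; module⟩, fun ⟨s, t, h⟩ => ⟨s, -t, by rw [h]; module⟩⟩
  have hx3' : FnS D a (Submodule.span ℚ {c, -b}) x3 := by rw [hspan]; exact hx3
  have hbc' : ∀ t : ℚ, c ≠ t • (-b) := fun t ht => hbc (-t) (by rw [ht]; module)
  have hno : ∀ d' ∈ Phi a, x3 d' = x3 d → d' + (c - b) ∉ Phi a ∧ d' + (c + b) ∉ Phi a := by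
    intro d' hd' hdd
    have hmin' : ∀ μ ∈ Phi a, 0 < x3 μ → x3 d' ≤ x3 μ := by rw [hdd]; exact hmin
    constructor
    · intro h1
      exact e6core h hA hb hc hbc hx3 hd' (by rw [hdd]; exact hd0) hmin' h1
    · intro h1
      refine e6core h hA (Phi_neg hb) hc hbc' hx3' hd' (by rw [hdd]; exact hd0) hmin' ?_
      rwa [sub_neg_eq_add]
  have huniq : ∀ d' ∈ Phi a, x3 d' = x3 d → d' = d := by
    intro d' hd' hdd
    rcases diff_level h hA hb hc hbc hx3 hd' hd hdd (by rw [hdd]; exact hd0) with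
      h3 | h3 | h3 | h3 | h3
    · exact h3
    · exfalso
      refine (hno d hd rfl).1 ?_
      rw [← h3]
      have : d + (d' - d) = d' := by abel
      rwa [this]
    · exfalso
      refine (hno d' hd' hdd).1 ?_
      have h4 : c - b = d - d' := by rw [← neg_sub d' d, h3, neg_neg]
      rw [h4]
      have : d' + (d - d') = d := by abel
      rwa [this]
    · exfalso
      refine (hno d hd rfl).2 ?_
      rw [← h3]
      have : d + (d' - d) = d' := by abel
      rwa [this]
    · exfalso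
      refine (hno d' hd' hdd).2 ?_
      have h4 : c + b = d - d' := by rw [← neg_sub d' d, h3, neg_neg]
      rw [h4]
      have : d' + (d - d') = d := by abel
      rwa [this]
  have hrbc := hA.rel b hb c hc hbc
  -- `u` and `v` fix `d`
  have hud : D.pr (c - b) d = 0 := by
    by_contra hne
    have h1 := refl_phi h hd hrbc.sub
    have h2 := huniq _ h1 (by rw [map_sub, map_smul, map_sub, hbP, hcP]; simp)
    rw [sub_eq_self, smul_eq_zero] at h2
    exact h2.elim hne (ne_zero h.ok hrbc.sub)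
  have hvd : D.pr (c + b) d = 0 := by
    by_contra hne
    have h1 := refl_phi h hd hrbc.add
    have h2 := huniq _ h1 (by rw [map_sub, map_smul, map_add, hbP, hcP]; simp)
    rw [sub_eq_self, smul_eq_zero] at h2
    exact h2.elim hne (ne_zero h.ok hrbc.add)
  -- `d` in the three-dimensional space
  have hdb : ∀ t : ℚ, d ≠ t • b := by
    intro t ht
    rw [ht, map_smul, hbP, smul_zero] at hd0
    exact lt_irrefl _ hd0
  have hdc : ∀ t : ℚ, d ≠ t • c := by
    intro t ht
    rw [ht, map_smul, hcP, smul_zero] at hd0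
    exact lt_irrefl _ hd0
  have hrdb := hA.rel b hb d hd hdb
  have hrdc := hA.rel c hc d hd hdc
  -- integrality
  have hint : ∀ ρ ∈ D.R, ∀ μ ∈ Phi a, -1 < D.pr ρ μ → D.pr ρ μ < 1 → D.pr ρ μ = 0 := by
    intro ρ hρ μ hμ h1 h2
    rcases e5 h hA hμ hρ with h3 | h3 | h3
    · exact h3
    · linarith
    · linarith
  -- signs
  have k1 : D.pr (d - b) c = 0 := by
    have e1 : 0 < D.pr (c - b) (d - b) := by rw [map_sub, hud, hrbc.s2]; norm_num
    have e2 : D.pr (c + b) (d - b) < 0 := by rw [map_sub, hvd, hrbc.a2]; norm_num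
    have e3 := pr_pos_symm h.ok hrbc.sub hrdb.sub e1
    have e4 := pr_neg_symm h.ok hrbc.add hrdb.sub e2
    rw [map_sub, hrdb.s2] at e3
    rw [map_add, hrdb.s2] at e4
    exact hint _ hrdb.sub c hc (by linarith) (by linarith)
  have k2 : D.pr (d + b) c = 0 := by
    have e1 : D.pr (c - b) (d + b) < 0 := by rw [map_add, hud, hrbc.s2]; norm_num
    have e2 : 0 < D.pr (c + b) (d + b) := by rw [map_add, hvd, hrbc.a2]; norm_num
    have e3 := pr_neg_symm h.ok hrbc.sub hrdb.add e1
    have e4 := pr_pos_symm h.ok hrbc.add hrdb.add e2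
    rw [map_sub, hrdb.a2] at e3
    rw [map_add, hrdb.a2] at e4
    exact hint _ hrdb.add c hc (by linarith) (by linarith)
  have k3 : D.pr (d - c) b = 0 := by
    have e1 : D.pr (c - b) (d - c) < 0 := by rw [map_sub, hud, hrbc.s1]; norm_num
    have e2 : D.pr (c + b) (d - c) < 0 := by rw [map_sub, hvd, hrbc.a1]; norm_num
    have e3 := pr_neg_symm h.ok hrbc.sub hrdc.sub e1
    have e4 := pr_neg_symm h.ok hrbc.add hrdc.sub e2
    rw [map_sub, hrdc.s2] at e3
    rw [map_add, hrdc.s2] at e4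
    exact hint _ hrdc.sub b hb (by linarith) (by linarith)
  have k4 : D.pr (d + c) b = 0 := by
    have e1 : 0 < D.pr (c - b) (d + c) := by rw [map_add, hud, hrbc.s1]; norm_num
    have e2 : 0 < D.pr (c + b) (d + c) := by rw [map_add, hvd, hrbc.a1]; norm_num
    have e3 := pr_pos_symm h.ok hrbc.sub hrdc.add e1
    have e4 := pr_pos_symm h.ok hrbc.add hrdc.add e2
    rw [map_sub, hrdc.a2] at e3
    rw [map_add, hrdc.a2] at e4
    exact hint _ hrdc.add b hb (by linarith) (by linarith)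
  -- coordinates of `e`
  have hdin : d ∈ Submodule.span ℚ {c, b} ⊔ Submodule.span ℚ {e} := by
    by_contra hcon
    have h1 := hx3P d hd hcon
    rw [abs_of_pos hd0] at h1
    have h2 := hmin e he hx3e
    linarith
  obtain ⟨w, hw, y, hy, hwy⟩ := Submodule.mem_sup.1 hdin
  obtain ⟨s1, t1, hst⟩ := mem_span2.1 hw
  obtain ⟨r1, hr1⟩ := Submodule.mem_span_singleton.1 hy
  have hd' : d = s1 • c + t1 • b + r1 • e := by rw [← hwy, hst, hr1]
  have hr10 : r1 ≠ 0 := by
    rintro rfl
    rw [zero_smul, add_zero] at hd'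
    rw [hd', map_add, map_smul, map_smul, hbP, hcP] at hd0
    simp at hd0
  obtain ⟨p, q, r, hpqr⟩ : ∃ p q r : ℚ, e = p • d + q • b + r • c := by
    refine ⟨r1⁻¹, -(r1⁻¹ * t1), -(r1⁻¹ * s1), ?_⟩
    rw [hd', smul_add, smul_add, smul_smul, smul_smul, smul_smul, inv_mul_cancel₀ hr10, one_smul]
    module
  have hx3e' : x3 e = p * x3 d := by
    rw [hpqr, map_add, map_add, map_smul, map_smul, map_smul, hbP, hcP]
    simp
  have hp0 : 0 < p := by
    rw [hx3e'] at hx3e
    exact (mul_pos_iff_of_pos_right hd0).1 hx3e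
  have hp1 : 1 ≤ p := by
    have h1 := hmin e he hx3e
    rw [hx3e'] at h1
    by_contra h2
    push Not at h2
    nlinarith
  have f1 : D.pr (d - b) e = p - q := by
    rw [hpqr, map_add, map_add, map_smul, map_smul, map_smul, hrdb.s1, hrdb.s2, k1]
    simp only [smul_eq_mul]
    ring
  have f2 : D.pr (d + b) e = p + q := by
    rw [hpqr, map_add, map_add, map_smul, map_smul, map_smul, hrdb.a1, hrdb.a2, k2]
    simp only [smul_eq_mul]
    ring
  have f3 : D.pr (d - c) e = p - r := by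
    rw [hpqr, map_add, map_add, map_smul, map_smul, map_smul, hrdc.s1, hrdc.s2, k3]
    simp only [smul_eq_mul]
    ring
  have f4 : D.pr (d + c) e = p + r := by
    rw [hpqr, map_add, map_add, map_smul, map_smul, map_smul, hrdc.a1, hrdc.a2, k4]
    simp only [smul_eq_mul]
    ring
  have hle : ∀ ρ ∈ D.R, D.pr ρ e ≤ 1 := by
    intro ρ hρ
    rcases e5 h hA he hρ with h1 | h1 | h1 <;> rw [h1] <;> norm_num
  have g1 := hle _ hrdb.sub
  have g2 := hle _ hrdb.add
  have g3 := hle _ hrdc.sub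
  have g4 := hle _ hrdc.add
  rw [f1] at g1
  rw [f2] at g2
  rw [f3] at g3
  rw [f4] at g4
  have hq : q = 0 := by linarith
  have hr : r = 0 := by linarith
  have he' : e = p • d := by rw [hpqr, hq, hr]; simp
  rw [he', map_smul, map_smul, hud, hvd]
  simp

end EvenBM

open EvenBM in
/-- Module EVENB. -/
theorem specEven (hEA : SpecEvA) : SpecEven := by
  intro E _ _ D hD m a hm hV hH hH' hN
  have hA := hEA E D hD m a hm hV hH hH' hN
  have h : Hyp D a := ⟨hD, hV, hH, hH', hA.ne0, hA.line, hA.one, hA.nr⟩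
  have hnp : ∀ i j, i ≠ j → ∀ t : ℚ, a i ≠ t • a j := by
    intro i j hij t ht
    have h1 : t • a j ∈ Phi a := by rw [← ht]; exact mem_Phi (hA.ne0 i)
    rcases hA.line _ (mem_Phi (hA.ne0 j)) t h1 with h2 | h2
    · refine hij (hA.one j i (Or.inl ?_))
      rw [ht, h2, one_smul]
    · refine hij (hA.one j i (Or.inr ?_))
      rw [ht, h2, neg_smul, one_smul]
  have hrel : ∀ i j, i ≠ j → Rel D (a i) (a j) := fun i j hij =>
    hA.rel _ (mem_Phi (hA.ne0 j)) _ (mem_Phi (hA.ne0 i)) (hnp i j hij)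
  have h6 : ∀ i j k, i ≠ j → k ≠ i → k ≠ j →
      D.pr (a i - a j) (a k) = 0 ∧ D.pr (a i + a j) (a k) = 0 := fun i j k hij hki hkj =>
    e6 h hA (mem_Phi (hA.ne0 j)) (mem_Phi (hA.ne0 i)) (mem_Phi (hA.ne0 k)) (hnp i j hij)
      (hnp k j hkj) (hnp k i hki)
  refine ⟨fun i j hij => ⟨(hrel i j hij).add, (hrel i j hij).sub⟩, fun i j hij k => ?_,
    fun i j hij k => ?_⟩
  · by_cases hki : k = i
    · subst hki
      rw [(hrel k j hij).s1, if_pos rfl, if_neg hij]
      norm_num
    · by_cases hkj : k = j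
      · subst hkj
        rw [(hrel i k hij).s2, if_neg hki, if_pos rfl]
        norm_num
      · rw [(h6 i j k hij hki hkj).1, if_neg hki, if_neg hkj]
        norm_num
  · by_cases hki : k = i
    · subst hki
      rw [(hrel k j hij).a1, if_pos rfl, if_neg hij]
      norm_num
    · by_cases hkj : k = j
      · subst hkj
        rw [(hrel i k hij).a2, if_neg hki, if_pos rfl]
        norm_num
      · rw [(h6 i j k hij hki hkj).2, if_neg hki, if_neg hkj]
        norm_num

end Pool.Agent.Lib.MPf11a48.K3
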