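import Pool.Agent.Lib.MP_f11a48_ag.K3.BSpec

/-!
# EXT: no invariants in the exterior powers
-/

set_option autoImplicit false
set_option linter.unusedSectionVars false

namespace Pool.Agent.Lib.MPf11a48.K3

open Matrix MvPolynomial Pool.Agent.Lib.MPf11a48.Tors
open Pool.Agent.Lib.MPf11a48.CM hiding OmegaM
open Pool.Agent.Lib.MPf11a48.GL2 (Geo lie)

namespace ExtM

theorem mem_of_forall {z : ℂ} (h : ∀ D : Derivation Qbar ℂ ℂ, D z = 0) : z ∈ Qbar := by
  by_contra hz
  obtain ⟨D, hD⟩ := GL2.exists_derivation hz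
  exact hD (h D)

theorem D_alg (D : Derivation Qbar ℂ ℂ) {z : ℂ} (hz : z ∈ Qbar) : D z = 0 :=
  D.map_algebraMap ⟨z, hz⟩

/-- an algebraic vector `w = P v` with `D(P) v = 0` for all derivations comes from an algebraic
vector `v` -/
theorem key {I : Type} [Fintype I] [DecidableEq I] (P Q : Matrix I I ℂ) (hPQ : P * Q = 1)
    (w : I → ℂ) (hw : ∀ i, w i ∈ Qbar)
    (h : ∀ D : Derivation Qbar ℂ ℂ, (P.map D).mulVec (Q.mulVec w) = 0) :
    P.mulVec (Q.mulVec w) = w ∧ ∀ i, Q.mulVec w i ∈ Qbar := by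
  have hPv : P.mulVec (Q.mulVec w) = w := by rw [mulVec_mulVec, hPQ, one_mulVec]
  refine ⟨hPv, ?_⟩
  intro i
  refine mem_of_forall fun D => ?_
  obtain ⟨v, hv⟩ : ∃ v, v = Q.mulVec w := ⟨_, rfl⟩
  have hD := h D
  rw [← hv] at hPv hD ⊢
  have h1 : ∀ a, D (P.mulVec v a) = (P.map D).mulVec v a + P.mulVec (fun b => D (v b)) a := by
    intro a
    simp only [mulVec, dotProduct, map_sum, Derivation.leibniz, smul_eq_mul, Matrix.map_apply]
    rw [← Finset.sum_add_distrib]
    refine Finset.sum_congr rfl fun b _ => ?_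
    ring
  have h2 : P.mulVec (fun b => D (v b)) = 0 := by
    funext a
    have h3 := h1 a
    rw [hPv, D_alg D (hw a), hD, Pi.zero_apply, zero_add] at h3
    exact h3.symm
  have hQP : Q * P = 1 := mul_eq_one_comm.1 hPQ
  have h4 : (fun b => D (v b)) = 0 := by
    have h5 : Q.mulVec (P.mulVec fun b => D (v b)) = 0 := by rw [h2, mulVec_zero]
    rwa [mulVec_mulVec, hQP, one_mulVec] at h5
  exact congrFun h4 i

/-- Leibniz rule for a product -/
theorem leib {ι : Type} [DecidableEq ι] (D : Derivation Qbar ℂ ℂ) (s : Finset ι) (f : ι → ℂ) :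
    D (∏ a ∈ s, f a) = ∑ a ∈ s, D (f a) * ∏ b ∈ s.erase a, f b := by
  induction s using Finset.induction_on with
  | empty => simp
  | insert a s ha ih =>
    rw [Finset.prod_insert ha, Derivation.leibniz, ih, Finset.sum_insert ha, smul_eq_mul,
      smul_eq_mul, Finset.erase_insert ha, Finset.mul_sum, add_comm]
    congr 1
    · ring
    · refine Finset.sum_congr rfl fun b hb => ?_
      have hab : a ≠ b := fun h => ha (h ▸ hb)
      rw [Finset.erase_insert_of_ne hab, Finset.prod_insert fun h => ha (Finset.mem_of_mem_erase h)]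
      ring

/-- the derivative of a matrix -/
theorem D_entry {n : ℕ} (D : Derivation Qbar ℂ ℂ) (c : GL (Fin n) ℂ) (i j : Fin n) :
    D (c.1 i j) = ∑ k, dlog D c i k * c.1 k j := by
  have h1 : dlog D c * c.1 = c.1.map D := by
    unfold dlog
    have h2 : c⁻¹.1 * c.1 = 1 := c.inv_mul
    rw [Matrix.mul_assoc, h2, Matrix.mul_one]
  have h3 := congrFun (congrFun h1 i) j
  rw [Matrix.mul_apply] at h3
  exact h3.symm

/-- the tensor power of a matrix -/
noncomputable def tp {n : ℕ} (j : ℕ) (A : Matrix (Fin n) (Fin n) ℂ) :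
    Matrix (Fin j → Fin n) (Fin j → Fin n) ℂ := fun I J => ∏ a, A (I a) (J a)

theorem tp_mul {n j : ℕ} (A B : Matrix (Fin n) (Fin n) ℂ) (h : A * B = 1) :
    tp j A * tp j B = 1 := by
  ext I K
  rw [Matrix.mul_apply]
  have h1 : ∑ J : Fin j → Fin n, tp j A I J * tp j B J K
      = ∏ a, ∑ k, A (I a) k * B k (K a) := by
    rw [Finset.prod_univ_sum, Fintype.piFinset_univ]
    refine Finset.sum_congr rfl fun J _ => ?_
    rw [Finset.prod_mul_distrib]
    rfl
  have h2 : ∀ a, ∑ k, A (I a) k * B k (K a) = if I a = K a then 1 else 0 := by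
    intro a
    rw [← Matrix.mul_apply, h, Matrix.one_apply]
  rw [h1]
  simp_rw [h2]
  rw [Matrix.one_apply]
  by_cases hIK : I = K
  · rw [if_pos hIK, hIK]
    simp
  · rw [if_neg hIK]
    obtain ⟨a, ha⟩ := Function.ne_iff.1 hIK
    exact Finset.prod_eq_zero (Finset.mem_univ a) (if_neg ha)

/-- the derivative of the tensor power -/
theorem D_tp {n j : ℕ} (D : Derivation Qbar ℂ ℂ) (c : GL (Fin n) ℂ) (v : (Fin j → Fin n) → ℂ) :
    ((tp j c.1).map D).mulVec v = actT (dlog D c) ((tp j c.1).mulVec v) := by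
  funext I
  unfold actT
  have h1 : ∀ J : Fin j → Fin n, D (tp j c.1 I J)
      = ∑ a, ∑ k, dlog D c (I a) k * tp j c.1 (Function.update I a k) J := by
    intro J
    unfold tp
    rw [leib]
    refine Finset.sum_congr rfl fun a _ => ?_
    rw [D_entry, Finset.sum_mul]
    refine Finset.sum_congr rfl fun k _ => ?_
    rw [mul_assoc, ← Finset.mul_prod_erase Finset.univ _ (Finset.mem_univ a),
      Function.update_self]
    congr 2
    refine Finset.prod_congr rfl fun b hb => ?_
    rw [Function.update_of_ne (Finset.ne_of_mem_erase hb)]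
  simp only [mulVec, dotProduct, Matrix.map_apply, h1, Finset.sum_mul, Finset.mul_sum]
  rw [Finset.sum_comm]
  refine Finset.sum_congr rfl fun a _ => ?_
  rw [Finset.sum_comm]
  refine Finset.sum_congr rfl fun k _ => Finset.sum_congr rfl fun J _ => ?_
  ring

/-- the action on tensors is linear in the matrix -/
theorem actT_span {n j : ℕ} (g : Set (Matrix (Fin n) (Fin n) Qbar)) (w : (Fin j → Fin n) → Qbar)
    (hw : ∀ X ∈ g, actT X w = 0) (M : Matrix (Fin n) (Fin n) ℂ)
    (hM : M ∈ Submodule.span ℂ {M | ∃ X ∈ g, M = toC X}) :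
    actT M (fun I => ((w I : Qbar) : ℂ)) = 0 := by
  induction hM using Submodule.span_induction with
  | mem M h =>
    obtain ⟨X, hX, rfl⟩ := h
    funext I
    have h1 := congrFun (hw X hX) I
    have h2 := congrArg (algebraMap Qbar ℂ) h1
    simp only [actT, map_sum, map_mul, Pi.zero_apply, map_zero] at h2
    exact h2
  | zero => funext I; simp [actT]
  | add M N _ _ h1 h2 =>
    funext I
    have e1 := congrFun h1 I
    have e2 := congrFun h2 I
    simp only [actT, Pi.zero_apply] at e1 e2 ⊢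
    simp only [Matrix.add_apply, add_mul, Finset.sum_add_distrib, e1, e2, add_zero]
  | smul t M _ h1 =>
    funext I
    have e1 := congrFun h1 I
    simp only [actT, Pi.zero_apply] at e1 ⊢
    simp only [Matrix.smul_apply, smul_eq_mul, mul_assoc, ← Finset.mul_sum, e1, mul_zero]

end ExtM

open ExtM

theorem specExt : SpecExt := by
  intro n c g hc hg j hj hjn w hw hinv
  have hcc : c.1 * c⁻¹.1 = 1 := c.mul_inv
  have hPQ := tp_mul (j := j) c.1 c⁻¹.1 hcc
  obtain ⟨h1, h2⟩ := key (tp j c.1) (tp j c⁻¹.1) hPQ (fun I => ((w I : Qbar) : ℂ))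
    (fun I => (w I).2) (fun D => by
      rw [D_tp, mulVec_mulVec, hPQ, one_mulVec]
      exact actT_span g w hinv _ (hg D))
  have h3 := hc j hj hjn ((tp j c⁻¹.1).mulVec fun I => ((w I : Qbar) : ℂ))
    (fun I => ((w I : Qbar) : ℂ)) h2 (fun I => (w I).2) (by
      intro σ I
      have := congrArg (algebraMap Qbar ℂ) (hw σ I)
      rw [map_mul] at this
      simpa using this) (fun I => congrFun h1 I)
  funext I
  exact Subtype.ext (congrFun h3 I)

end Pool.Agent.Lib.MPf11a48.K3
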