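import Pool.Agent.Lib.MP_f11a48_ag.K3.BSpec
import Pool.Agent.Lib.MP_f11a48_ag.helper92.Bridge

/-! # Objects built from orthogonal objects and objects of rank one -/

set_option autoImplicit false
set_option linter.unusedSectionVars false

namespace Pool.Agent.Lib.MPf11a48.K3

open Matrix MvPolynomial Pool.Agent.Lib.MPf11a48.Tors
open Pool.Agent.Lib.MPf11a48.CM hiding OmegaM

namespace FinalM

variable {κ J ι : Type} [Fintype κ] [DecidableEq κ] [Fintype J] [DecidableEq J] [Fintype ι]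
  [DecidableEq ι] {n : κ → ℕ}

/-- polynomial functions in the entries of the block diagonal matrix and its inverse -/
def PolyFn (F : Pt n J → ℂ) : Prop :=
  ∃ q : MvPolynomial ((BI n J × BI n J) ⊕ (BI n J × BI n J)) Qbar, ∀ x,
    F x = aeval (Sum.elim (ent (blkP x)) (ent (blkP x)⁻¹)) q

theorem polyFn_coord (e : Var n J) : PolyFn (fun x : Pt n J => coord x e) := by
  rcases e with ⟨k, a, b⟩ | j | j
  · refine ⟨X (Sum.inl (Sum.inl ⟨k, a⟩, Sum.inl ⟨k, b⟩)), fun x => ?_⟩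
    rw [aeval_X, Sum.elim_inl]
    exact (blk_ll (fun k => (x.1 k).1.1) (fun j => (x.2 j : ℂ)) k a b).symm
  · refine ⟨X (Sum.inl (Sum.inr j, Sum.inr j)), fun x => ?_⟩
    rw [aeval_X, Sum.elim_inl]
    exact (blk_rr (fun k => (x.1 k).1.1) (fun j => (x.2 j : ℂ)) j).symm
  · refine ⟨X (Sum.inr (Sum.inr j, Sum.inr j)), fun x => ?_⟩
    rw [aeval_X, Sum.elim_inr]
    have e1 : ent (blkP x)⁻¹ (Sum.inr j, Sum.inr j) = (((x.2 j)⁻¹ : ℂˣ) : ℂ) := by
      rw [← blkP_inv]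
      exact blk_rr (fun k => ((x⁻¹).1 k).1.1) (fun j => ((x⁻¹).2 j : ℂ)) j
    rw [e1, Units.val_inv_eq_inv_val]
    rfl

theorem polyFn_of_regular {F : Pt n J → ℂ} (h : Regular F) : PolyFn F := by
  obtain ⟨p, hp, hF⟩ := h
  obtain ⟨q, hq⟩ := GL2T.polyQ hp
  choose r hr using fun e : Var n J => polyFn_coord e
  refine ⟨aeval r q, fun x => ?_⟩
  rw [hF, ← hq, comp_aeval_apply]
  congr 2
  funext e
  exact hr e x

/-! ### the equations of the block diagonal matrices -/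

/-- the generic block -/
noncomputable def gb (k : κ) : Matrix (Fin (n k)) (Fin (n k)) (MvPolynomial (BI n J × BI n J) Qbar) :=
  Matrix.of fun a b => X (Sum.inl ⟨k, a⟩, Sum.inl ⟨k, b⟩)

/-- a block of a matrix -/
def bk (g : GL (BI n J) ℂ) (k : κ) : Matrix (Fin (n k)) (Fin (n k)) ℂ :=
  Matrix.of fun a b => g.1 (Sum.inl ⟨k, a⟩) (Sum.inl ⟨k, b⟩)

theorem bk_blkP (x : Pt n J) (k : κ) : bk (blkP x) k = (x.1 k).1.1 := by
  ext a b
  exact blk_ll (fun k => (x.1 k).1.1) (fun j => (x.2 j : ℂ)) k a b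

theorem gb_map (g : GL (BI n J) ℂ) (k : κ) :
    (gb (J := J) k).map (aeval (ent g)) = bk g k := by
  ext a b
  exact aeval_X _ _

theorem aeval_gb_orth (g : GL (BI n J) ℂ) (k : κ) (a b : Fin (n k)) :
    aeval (ent g) (((gb (J := J) k)ᵀ * gb k - 1 :
      Matrix (Fin (n k)) (Fin (n k)) (MvPolynomial (BI n J × BI n J) Qbar)) a b) =
      ((bk g k)ᵀ * bk g k - 1 : Matrix (Fin (n k)) (Fin (n k)) ℂ) a b := by
  rw [← gb_map g k, ← transpose_map, ← Matrix.map_mul]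
  have h1 : (1 : Matrix (Fin (n k)) (Fin (n k)) ℂ) =
      (1 : Matrix (Fin (n k)) (Fin (n k)) (MvPolynomial (BI n J × BI n J) Qbar)).map
        (aeval (ent g)) := (Matrix.map_one _ (map_zero _) (map_one _)).symm
  rw [h1, Matrix.sub_apply, Matrix.sub_apply, map_sub]
  rfl

theorem aeval_gb_det (g : GL (BI n J) ℂ) (k : κ) :
    aeval (ent g) (gb (J := J) k).det = (bk g k).det := by
  rw [AlgHom.map_det, ← gb_map g k]
  rfl

/-- the equations -/
def eqs : Set (MvPolynomial (BI n J × BI n J) Qbar) :=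
  {p | (∃ u v, ¬inB u v ∧ p = X (u, v)) ∨
    (∃ k a b, p = ((gb (J := J) k)ᵀ * gb k - 1 :
      Matrix (Fin (n k)) (Fin (n k)) (MvPolynomial (BI n J × BI n J) Qbar)) a b) ∨
    ∃ k, p = (gb (J := J) k).det - 1}

theorem eqs_blkP (x : Pt n J) {p : MvPolynomial (BI n J × BI n J) Qbar} (hp : p ∈ eqs) :
    aeval (ent (blkP x)) p = 0 := by
  rcases hp with ⟨u, v, huv, rfl⟩ | ⟨k, a, b, rfl⟩ | ⟨k, rfl⟩
  · rw [aeval_X]
    exact blk_off huv
  · rw [aeval_gb_orth, bk_blkP, (x.1 k).2.1, sub_self]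
    rfl
  · rw [map_sub, map_one, aeval_gb_det, bk_blkP, (x.1 k).2.2, sub_self]

theorem exists_blkP {g : GL (BI n J) ℂ} (hg : ∀ p ∈ eqs, aeval (ent g) p = 0) :
    ∃ x : Pt n J, blkP x = g := by
  have h1 : ∀ k, (bk g k)ᵀ * bk g k = 1 := by
    intro k
    rw [← sub_eq_zero]
    ext a b
    rw [← aeval_gb_orth]
    exact hg _ (Or.inr (Or.inl ⟨k, a, b, rfl⟩))
  have h2 : ∀ k, (bk g k).det = 1 := by
    intro k
    have h := hg _ (Or.inr (Or.inr ⟨k, rfl⟩))
    rw [map_sub, map_one, aeval_gb_det, sub_eq_zero] at h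
    exact h
  have h3 : g.1 = blk (fun k => bk g k) (fun j => g.1 (Sum.inr j) (Sum.inr j)) :=
    eq_blk fun u v huv => by
      have := hg _ (Or.inl ⟨u, v, huv, rfl⟩)
      rwa [aeval_X] at this
  have hdet : g.1.det ≠ 0 := by
    intro h0
    have h2 : g.1 * g⁻¹.1 = 1 := g.mul_inv
    have h3 := congrArg Matrix.det h2
    rw [det_mul, h0, zero_mul, det_one] at h3
    exact zero_ne_one h3
  have h4 : ∀ j, g.1 (Sum.inr j) (Sum.inr j) ≠ 0 := by
    intro j h0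
    apply hdet
    refine Matrix.det_eq_zero_of_row_eq_zero (Sum.inr j) fun v => ?_
    rw [h3]
    by_cases hv : inB (Sum.inr j) v
    · rcases v with ⟨k, a⟩ | j'
      · exact hv.elim
      · have hj : j = j' := hv
        subst hj
        rw [blk_rr, h0]
    · exact blk_off hv
  refine ⟨(fun k => ⟨⟨bk g k, (bk g k)ᵀ, mul_eq_one_comm.1 (h1 k), h1 k⟩, h1 k, h2 k⟩,
    fun j => Units.mk0 _ (h4 j)), ?_⟩
  exact Units.ext h3.symm

theorem isTorsor_pull {Φ : Pt n J → GL ι ℂ} (hΦ : IsMor Φ) {T₀ : Set (GL ι ℂ)}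
    (hT₀ : IsTorsor Qbar T₀) {c : Pt n J} (hc : Φ c ∈ T₀) :
    IsTorsor Qbar {g : GL (BI n J) ℂ | ∃ x, blkP x = g ∧ Φ x ∈ T₀} where
  closed := by
    obtain ⟨S₀, hS₀⟩ := hT₀.closed
    choose F hF using fun i j => polyFn_of_regular (hΦ.regular i j)
    have hcl := fun p : MvPolynomial (ι × ι) Qbar =>
      clear_inverse (ι := BI n J) (aeval (fun ij : ι × ι => F ij.1 ij.2) p)
    choose M q hq using hcl
    have key : ∀ (p : MvPolynomial (ι × ι) Qbar) (x : Pt n J),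
        aeval (ent (blkP x)) (q p) = (blkP x).1.det ^ M p *
          aeval (fun ij : ι × ι => (Φ x).1 ij.1 ij.2) p := by
      intro p x
      rw [hq, comp_aeval_apply]
      congr 3
      funext ij
      exact (hF ij.1 ij.2 x).symm
    have hdet : ∀ g : GL (BI n J) ℂ, g.1.det ≠ 0 := by
      intro g h0
      have h2 : g.1 * g⁻¹.1 = 1 := g.mul_inv
      have h3 := congrArg Matrix.det h2
      rw [det_mul, h0, zero_mul, det_one] at h3
      exact zero_ne_one h3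
    refine ⟨eqs ∪ {r | ∃ p ∈ S₀, r = q p}, ?_⟩
    ext g
    constructor
    · rintro ⟨x, rfl, hx⟩ r (hr | ⟨p, hp, rfl⟩)
      · exact eqs_blkP x hr
      · have h1 := key p x
        rw [hS₀] at hx
        rw [hx p hp, mul_zero] at h1
        exact h1
    · intro hg
      obtain ⟨x, hx⟩ := exists_blkP (g := g) (fun p hp => hg _ (Or.inl hp))
      refine ⟨x, hx, ?_⟩
      rw [hS₀]
      intro p hp
      have h1 := hg _ (Or.inr ⟨p, hp, rfl⟩)
      have h2 := key p x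
      rw [hx] at h2
      have h3 := h2.symm.trans h1
      exact (mul_eq_zero.1 h3).resolve_left (pow_ne_zero _ (hdet g))
  nonempty := ⟨blkP c, c, rfl, hc⟩
  heap := by
    rintro _ ⟨x, rfl, hx⟩ _ ⟨y, rfl, hy⟩ _ ⟨z, rfl, hz⟩
    refine ⟨x * y⁻¹ * z, ?_, ?_⟩
    · rw [blkP_mul, blkP_mul, blkP_inv]
    · rw [hΦ.heap]
      exact hT₀.heap _ hx _ hy _ hz

/-! ### the set of points with the same relations -/

theorem sameRel_heap {c x y z : Pt n J} (hx : SameRel c x) (hy : SameRel c y)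
    (hz : SameRel c z) : SameRel c (x * y⁻¹ * z) := by
  intro χ hχ
  have h1 : (∏ j, (((x * y⁻¹ * z).2 j : ℂˣ) : ℂ) ^ χ j) =
      (∏ j, (x.2 j : ℂ) ^ χ j) * (∏ j, (y.2 j : ℂ) ^ χ j)⁻¹ * ∏ j, (z.2 j : ℂ) ^ χ j := by
    rw [← Finset.prod_inv_distrib, ← Finset.prod_mul_distrib, ← Finset.prod_mul_distrib]
    refine Finset.prod_congr rfl fun j _ => ?_
    have e : (((x * y⁻¹ * z).2 j : ℂˣ) : ℂ) = (x.2 j : ℂ) * (y.2 j : ℂ)⁻¹ * (z.2 j : ℂ) := by
      change ((x.2 j * (y.2 j)⁻¹ * z.2 j : ℂˣ) : ℂ) = _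
      rw [Units.val_mul, Units.val_mul, Units.val_inv_eq_inv_val]
    rw [e, mul_zpow, mul_zpow, _root_.inv_zpow]
  have h2 : (∏ j, (c.2 j : ℂ) ^ χ j) ≠ 0 :=
    Finset.prod_ne_zero_iff.2 fun j _ => zpow_ne_zero _ (c.2 j).ne_zero
  rw [h1, hx χ hχ, hy χ hχ, hz χ hχ, mul_inv_cancel₀ h2, one_mul]

/-- the equations of the set of all `x` with `SameRel c x` -/
theorem exists_relVar (c : Pt n J) : ∃ R : Set (MvPolynomial (Var n J) Qbar), ∀ x : Pt n J,
    SameRel c x ↔ ∀ p ∈ R, aeval (coord x) p = 0 := by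
  refine ⟨{p | ∃ (χ : J → ℤ) (α : Qbar), (∏ j, (c.2 j : ℂ) ^ χ j) = (α : ℂ) ∧
    p = ∏ j, (X (Sum.inr (Sum.inl j)) : MvPolynomial (Var n J) Qbar) ^ (χ j).toNat -
      C α * ∏ j, (X (Sum.inr (Sum.inl j)) : MvPolynomial (Var n J) Qbar) ^ (-χ j).toNat},
    fun x => ?_⟩
  have hne : ∀ j, (x.2 j : ℂ) ≠ 0 := fun j => (x.2 j).ne_zero
  have key : ∀ (χ : J → ℤ) (α : Qbar),
      aeval (coord x) (∏ j, (X (Sum.inr (Sum.inl j)) : MvPolynomial (Var n J) Qbar) ^ (χ j).toNat -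
        C α * ∏ j, (X (Sum.inr (Sum.inl j)) : MvPolynomial (Var n J) Qbar) ^ (-χ j).toNat) = 0 ↔
      ∏ j, (x.2 j : ℂ) ^ χ j = (α : ℂ) := by
    intro χ α
    have h1 : (∏ j, (x.2 j : ℂ) ^ χ j) = (∏ j, (x.2 j : ℂ) ^ (χ j).toNat) *
        (∏ j, (x.2 j : ℂ) ^ (-χ j).toNat)⁻¹ := by
      rw [← Finset.prod_inv_distrib, ← Finset.prod_mul_distrib]
      refine Finset.prod_congr rfl fun j _ => ?_
      rw [← inv_pow]
      exact (GL2.TorSit.zpow_toNat' _ _).symm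
    have h2 : (∏ j, (x.2 j : ℂ) ^ (-χ j).toNat) ≠ 0 :=
      Finset.prod_ne_zero_iff.2 fun j _ => pow_ne_zero _ (hne j)
    rw [map_sub, map_mul, map_prod, map_prod, algHom_C]
    simp only [map_pow, aeval_X]
    change (∏ j, (x.2 j : ℂ) ^ (χ j).toNat) - (α : ℂ) * (∏ j, (x.2 j : ℂ) ^ (-χ j).toNat) = 0 ↔ _
    rw [h1, sub_eq_zero, ← div_eq_mul_inv, div_eq_iff h2]
  constructor
  · rintro h _ ⟨χ, α, hα, rfl⟩
    rw [key, ← hα]
    exact h χ (by rw [hα]; exact α.2)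
  · intro h χ hχ
    exact (key χ ⟨_, hχ⟩).1 (h _ ⟨χ, ⟨_, hχ⟩, rfl, rfl⟩)

/-! ### closed immersions -/

/-- the generic block in terms of the coordinates -/
noncomputable def vb (k : κ) : Matrix (Fin (n k)) (Fin (n k)) (MvPolynomial (Var n J) Qbar) :=
  Matrix.of fun a b => X (Sum.inl ⟨k, a, b⟩)

/-- a block in terms of the coordinates -/
def zb (z : Var n J → ℂ) (k : κ) : Matrix (Fin (n k)) (Fin (n k)) ℂ :=
  Matrix.of fun a b => z (Sum.inl ⟨k, a, b⟩)

theorem vb_map (z : Var n J → ℂ) (k : κ) : (vb (J := J) k).map (aeval z) = zb z k := by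
  ext a b
  exact aeval_X _ _

theorem aeval_vb_orth (z : Var n J → ℂ) (k : κ) (a b : Fin (n k)) :
    aeval z (((vb (J := J) k)ᵀ * vb k - 1 :
      Matrix (Fin (n k)) (Fin (n k)) (MvPolynomial (Var n J) Qbar)) a b) =
      ((zb z k)ᵀ * zb z k - 1 : Matrix (Fin (n k)) (Fin (n k)) ℂ) a b := by
  rw [← vb_map z k, ← transpose_map, ← Matrix.map_mul]
  have h1 : (1 : Matrix (Fin (n k)) (Fin (n k)) ℂ) =
      (1 : Matrix (Fin (n k)) (Fin (n k)) (MvPolynomial (Var n J) Qbar)).map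
        (aeval z) := (Matrix.map_one _ (map_zero _) (map_one _)).symm
  rw [h1, Matrix.sub_apply, Matrix.sub_apply, map_sub]
  rfl

theorem aeval_vb_det (z : Var n J → ℂ) (k : κ) :
    aeval z (vb (J := J) k).det = (zb z k).det := by
  rw [AlgHom.map_det, ← vb_map z k]
  rfl

/-- the equations of `∏ SO_{n k} × G_m^J` in its coordinates -/
theorem exists_pt {z : Var n J → ℂ} (h1 : ∀ k, (zb z k)ᵀ * zb z k = 1) (h2 : ∀ k, (zb z k).det = 1)
    (h3 : ∀ j, z (Sum.inr (Sum.inl j)) * z (Sum.inr (Sum.inr j)) = 1) :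
    ∃ x : Pt n J, coord x = z := by
  refine ⟨(fun k => ⟨⟨zb z k, (zb z k)ᵀ, mul_eq_one_comm.1 (h1 k), h1 k⟩, h1 k, h2 k⟩,
    fun j => ⟨_, _, h3 j, ?_⟩), ?_⟩
  · rw [mul_comm]
    exact h3 j
  funext e
  rcases e with ⟨k, a, b⟩ | j | j
  · rfl
  · rfl
  · exact (eq_inv_of_mul_eq_one_right (h3 j)).symm

theorem isTorsor_image {Φ : Pt n J → GL ι ℂ} (hΦ : IsMor Φ) (hI : IsImm Φ) (c : Pt n J) :
    IsTorsor Qbar {f | ∃ x, SameRel c x ∧ f = Φ x} where
  closed := by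
    have hI' : ∀ e : Var n J, ∃ q : MvPolynomial ((ι × ι) ⊕ (ι × ι)) Qbar, ∀ x : Pt n J,
        coord x e = aeval (Sum.elim (ent (Φ x)) (ent (Φ x)⁻¹)) q := by
      intro e
      obtain ⟨F, ⟨p, hp, hF⟩, hFx⟩ := hI e
      obtain ⟨q, hq⟩ := GL2T.polyQ hp
      refine ⟨q, fun x => ?_⟩
      rw [hFx, hF, ← hq]
      rfl
    choose q hq using hI'
    have hΦ' : ∀ i j, ∃ p : MvPolynomial (Var n J) Qbar, ∀ x : Pt n J,
        (Φ x).1 i j = aeval (coord x) p := by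
      intro i j
      obtain ⟨p, hp, hF⟩ := hΦ.regular i j
      obtain ⟨r, hr⟩ := GL2T.polyQ hp
      exact ⟨r, fun x => by rw [hr, ← hF]⟩
    choose P hP using hΦ'
    obtain ⟨R, hR⟩ := exists_relVar c
    let S : Set (MvPolynomial ((ι × ι) ⊕ (ι × ι)) Qbar) :=
      {p | (∃ k a b, p = aeval q (((vb (J := J) k)ᵀ * vb k - 1 :
        Matrix (Fin (n k)) (Fin (n k)) (MvPolynomial (Var n J) Qbar)) a b)) ∨
        (∃ k : κ, p = aeval q ((vb (J := J) (n := n) k).det - 1)) ∨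
        (∃ j, p = aeval q (X (Sum.inr (Sum.inl j)) *
          X (Sum.inr (Sum.inr j)) - 1 : MvPolynomial (Var n J) Qbar)) ∨
        (∃ i j, p = X (Sum.inl (i, j)) - aeval q (P i j)) ∨ ∃ r ∈ R, p = aeval q r}
    have hS : {f | ∃ x, SameRel c x ∧ f = Φ x} =
        {g : GL ι ℂ | ∀ p ∈ S, aeval (Sum.elim (ent g) (ent g⁻¹)) p = 0} := by
      ext g
      constructor
      · rintro ⟨x, hx, rfl⟩
        have hz : (fun e => aeval (Sum.elim (ent (Φ x)) (ent (Φ x)⁻¹)) (q e)) = coord x :=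
          funext fun e => (hq e x).symm
        rintro p (⟨k, a, b, rfl⟩ | ⟨k, rfl⟩ | ⟨j, rfl⟩ | ⟨i, j, rfl⟩ | ⟨r, hr, rfl⟩)
        · rw [comp_aeval_apply, hz, aeval_vb_orth]
          have h1 : zb (coord x) k = (x.1 k).1.1 := rfl
          rw [h1, (x.1 k).2.1, sub_self]
          rfl
        · rw [comp_aeval_apply, hz, map_sub, map_one, aeval_vb_det]
          have h1 : zb (coord x) k = (x.1 k).1.1 := rfl
          rw [h1, (x.1 k).2.2, sub_self]
        · rw [comp_aeval_apply, hz]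
          rw [map_sub, map_one, map_mul, aeval_X, aeval_X, sub_eq_zero]
          exact mul_inv_cancel₀ (x.2 j).ne_zero
        · rw [map_sub, aeval_X, Sum.elim_inl, comp_aeval_apply, hz, ← hP, sub_eq_zero]
          rfl
        · rw [comp_aeval_apply, hz]
          exact (hR x).1 hx r hr
      · intro h
        set z : Var n J → ℂ := fun e => aeval (Sum.elim (ent g) (ent g⁻¹)) (q e) with hz
        obtain ⟨x, hx⟩ := exists_pt (z := z) (fun k => by
          rw [← sub_eq_zero]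
          ext a b
          have h1 := h _ (Or.inl ⟨k, a, b, rfl⟩)
          rw [comp_aeval_apply, aeval_vb_orth] at h1
          exact h1) (fun k => by
          have h1 := h _ (Or.inr (Or.inl ⟨k, rfl⟩))
          rw [comp_aeval_apply, map_sub, map_one, aeval_vb_det, sub_eq_zero] at h1
          exact h1) (fun j => by
          have h1 := h _ (Or.inr (Or.inr (Or.inl ⟨j, rfl⟩)))
          rw [comp_aeval_apply] at h1
          rw [map_sub, map_one, map_mul, aeval_X, aeval_X, sub_eq_zero] at h1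
          exact h1)
        refine ⟨x, (hR x).2 fun r hr => ?_, ?_⟩
        · have h1 := h _ (Or.inr (Or.inr (Or.inr (Or.inr ⟨r, hr, rfl⟩))))
          rw [comp_aeval_apply] at h1
          rw [hx]
          exact h1
        · apply Units.ext
          refine Matrix.ext fun i j => ?_
          have h1 := h _ (Or.inr (Or.inr (Or.inr (Or.inl ⟨i, j, rfl⟩))))
          rw [map_sub, aeval_X, Sum.elim_inl, comp_aeval_apply, sub_eq_zero] at h1
          rw [hP, hx]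
          exact h1
    rw [hS]
    exact GL2T.closedOver_inv S
  nonempty := ⟨Φ c, c, fun _ _ => rfl, rfl⟩
  heap := by
    rintro _ ⟨x, hx, rfl⟩ _ ⟨y, hy, rfl⟩ _ ⟨z, hz, rfl⟩
    exact ⟨x * y⁻¹ * z, sameRel_heap hx hy hz, (hΦ.heap x y z).symm⟩

end FinalM

open Pool.Agent.Lib.MPf11a48.K3.FinalM in
theorem specFinal (hCore : SpecCore) : SpecFinal := by
  intro K κ J ι _ _ _ _ _ _ n Φ c hK hΦ h3 h5 hirr hext hlnk
  have hg : Good c := ⟨h3, h5, hirr, hext, hlnk⟩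
  have h1 : ∀ x, SameRel c x → ∀ f, Conj K (Φ x) f → f ∈ OmegaM K (Φ c) := by
    intro x hx f hf T hT hcT
    obtain ⟨τ, hτ, hf⟩ := hf
    have hf' : f = tw τ (Φ x) := by
      apply Units.ext
      exact Matrix.ext hf
    rw [hf']
    have hT' : IsTorsor Qbar T := ⟨GL2.closedOver_mono hK hT.closed, hT.nonempty, hT.heap⟩
    have h2 := hCore κ J n _ (isTorsor_pull hΦ hT' hcT) c hg ⟨c, rfl, hcT⟩ x hx
    obtain ⟨x', hx', hx''⟩ := h2
    rw [blkP_injective hx'] at hx''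
    exact hT.closed.tw_mem hτ hx''
  refine ⟨h1, ?_, ?_⟩
  · rintro rfl hI
    apply Set.Subset.antisymm
    · intro f hf
      exact hf _ (isTorsor_image hΦ hI c) ⟨c, fun _ _ => rfl, rfl⟩
    · rintro _ ⟨x, hx, rfl⟩
      exact h1 x hx _ ⟨RingEquiv.refl ℂ, fun _ _ => rfl, fun _ _ => rfl⟩
  · intro S hS hsub
    have h2 := OmegaM_subset_OmegaDRB K (Φ c)
    have h3 : OmegaDRB K (Φ c) ⊆ OmegaS S := drb_subset hS
    have h4 : OmegaS S ⊆ OmegaM K (Φ c) := by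
      intro f hf
      obtain ⟨x, hx, hxf⟩ := hsub f hf
      exact h1 x hx f hxf
    exact ⟨(h2.trans h3).antisymm h4, h3.antisymm (h4.trans h2)⟩

end Pool.Agent.Lib.MPf11a48.K3
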