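import Pool.Agent.Lib.MP_f11a48_ag.K3.BSpec

/-!
# GEN: generation of `SO_n(ℂ)` by one-parameter groups
-/

set_option autoImplicit false
set_option linter.unusedSectionVars false

namespace Pool.Agent.Lib.MPf11a48.K3

open Matrix

namespace GenM

variable {n : ℕ}

/-- the hypothesis on the subgroup -/
def HG (G : Subgroup (GL (Fin n) ℂ)) : Prop :=
  ∀ X : Matrix (Fin n) (Fin n) ℂ, Xᵀ = -X → ∀ g : ℂ → GL (Fin n) ℂ, g 0 = 1 →
    (∀ s i j, HasDerivAt (fun s => (g s).1 i j) ((X * (g s).1) i j) s) → ∀ s, g s ∈ G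

/-- one-parameter groups -/
theorem onepar {G : Subgroup (GL (Fin n) ℂ)} (hG : HG G) (X : Matrix (Fin n) (Fin n) ℂ)
    (hX : Xᵀ = -X) (γ : ℂ → Matrix (Fin n) (Fin n) ℂ) (h0 : γ 0 = 1)
    (hadd : ∀ s t, γ (s + t) = γ s * γ t) (ht : ∀ s, (γ s)ᵀ = γ (-s))
    (hd : ∀ s i j, HasDerivAt (fun s => γ s i j) ((X * γ s) i j) s) (s : ℂ) :
    ∃ h ∈ G, h ∈ SO n ∧ h.1 = γ s := by
  have hinv : ∀ s, γ s * γ (-s) = 1 := fun s => by rw [← hadd, add_neg_cancel, h0]
  have hinv' : ∀ s, γ (-s) * γ s = 1 := fun s => by rw [← hadd, neg_add_cancel, h0]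
  refine ⟨⟨γ s, γ (-s), hinv s, hinv' s⟩, ?_, ?_, rfl⟩
  · exact hG X hX (fun s => ⟨γ s, γ (-s), hinv s, hinv' s⟩) (Units.ext h0) hd s
  · refine ⟨?_, ?_⟩
    · show (γ s)ᵀ * γ s = 1
      rw [ht, hinv']
    · show (γ s).det = 1
      have h1 : γ s = γ (s / 2) * γ (s / 2) := by rw [← hadd, add_halves]
      have h2 : (γ (s / 2)).det * (γ (s / 2)).det = 1 := by
        have h3 := congrArg Matrix.det (hinv' (s / 2))
        rw [← ht, det_mul, det_transpose, det_one] at h3
        exact h3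
      rw [h1, det_mul, h2]

/-! ### rotations -/

/-- rotation -/
noncomputable def rot (J : Matrix (Fin n) (Fin n) ℂ) (s : ℂ) : Matrix (Fin n) (Fin n) ℂ :=
  1 + Complex.sin s • J + (1 - Complex.cos s) • (J * J)

theorem rot_add {J : Matrix (Fin n) (Fin n) ℂ} (hJ : J * J * J = -J) (s t : ℂ) :
    rot J (s + t) = rot J s * rot J t := by
  have h4 : J * J * (J * J) = -(J * J) := by
    rw [← mul_assoc, hJ, neg_mul]
  have h3 : J * (J * J) = -J := by rw [← mul_assoc, hJ]
  unfold rot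
  simp only [add_mul, mul_add, one_mul, mul_one, smul_mul_smul_comm, h3, h4, hJ, smul_neg]
  rw [Complex.sin_add, Complex.cos_add]
  module

theorem rot_spec {G : Subgroup (GL (Fin n) ℂ)} (hG : HG G) {J : Matrix (Fin n) (Fin n) ℂ}
    (hJt : Jᵀ = -J) (hJ : J * J * J = -J) (s : ℂ) : ∃ h ∈ G, h ∈ SO n ∧ h.1 = rot J s := by
  refine onepar hG J hJt (rot J) ?_ (rot_add hJ) ?_ ?_ s
  · unfold rot
    rw [Complex.sin_zero, Complex.cos_zero, zero_smul, sub_self, zero_smul, add_zero, add_zero]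
  · intro s
    unfold rot
    rw [transpose_add, transpose_add, transpose_one, transpose_smul, transpose_smul,
      transpose_mul, hJt, Complex.sin_neg, Complex.cos_neg, neg_mul_neg, smul_neg, neg_smul]
  · intro s i j
    have h3 : J * (J * J) = -J := by rw [← mul_assoc, hJ]
    have h1 : HasDerivAt (fun s : ℂ => (1 : Matrix (Fin n) (Fin n) ℂ) i j + Complex.sin s * J i j +
        (1 - Complex.cos s) * (J * J) i j)
        (Complex.cos s * J i j + Complex.sin s * (J * J) i j) s := by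
      have h5 := (((Complex.hasDerivAt_sin s).mul_const (J i j)).const_add
        ((1 : Matrix (Fin n) (Fin n) ℂ) i j)).add
        (((Complex.hasDerivAt_cos s).const_sub 1).mul_const ((J * J) i j))
      rw [neg_neg] at h5
      exact h5
    have h2 : (J * rot J s) i j = Complex.cos s * J i j + Complex.sin s * (J * J) i j := by
      unfold rot
      rw [mul_add, mul_add, mul_one, mul_smul_comm, mul_smul_comm, h3]
      simp only [Matrix.add_apply, Matrix.smul_apply, Matrix.neg_apply, smul_eq_mul]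
      ring
    rw [h2]
    exact h1

/-! ### unipotent elements -/

/-- unipotent one-parameter group -/
noncomputable def uni (N : Matrix (Fin n) (Fin n) ℂ) (s : ℂ) : Matrix (Fin n) (Fin n) ℂ :=
  1 + s • N + (s ^ 2 / 2) • (N * N)

theorem uni_add {N : Matrix (Fin n) (Fin n) ℂ} (hN : N * N * N = 0) (s t : ℂ) :
    uni N (s + t) = uni N s * uni N t := by
  have h4 : N * N * (N * N) = 0 := by
    rw [← mul_assoc, hN, zero_mul]
  have h3 : N * (N * N) = 0 := by rw [← mul_assoc, hN]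
  unfold uni
  simp only [add_mul, mul_add, one_mul, mul_one, smul_mul_smul_comm, h3, h4, hN, smul_zero]
  module

theorem uni_spec {G : Subgroup (GL (Fin n) ℂ)} (hG : HG G) {N : Matrix (Fin n) (Fin n) ℂ}
    (hNt : Nᵀ = -N) (hN : N * N * N = 0) (s : ℂ) : ∃ h ∈ G, h ∈ SO n ∧ h.1 = uni N s := by
  refine onepar hG N hNt (uni N) ?_ (uni_add hN) ?_ ?_ s
  · unfold uni
    rw [zero_smul, zero_pow (by norm_num), zero_div, zero_smul, add_zero, add_zero]
  · intro s
    unfold uni
    rw [transpose_add, transpose_add, transpose_one, transpose_smul, transpose_smul,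
      transpose_mul, hNt, neg_mul_neg, smul_neg, neg_smul, neg_sq]
  · intro s i j
    have h3 : N * (N * N) = 0 := by rw [← mul_assoc, hN]
    have h1 : HasDerivAt (fun s : ℂ => (1 : Matrix (Fin n) (Fin n) ℂ) i j + s * N i j +
        (s ^ 2 / 2) * (N * N) i j) (1 * N i j + (((2 : ℕ) : ℂ) * s ^ (2 - 1) * 1 / 2) * (N * N) i j)
        s := by
      exact (((hasDerivAt_id s).mul_const (N i j)).const_add
        ((1 : Matrix (Fin n) (Fin n) ℂ) i j)).add
        ((((hasDerivAt_id s).pow 2).div_const 2).mul_const ((N * N) i j))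
    have h2 : (N * uni N s) i j = 1 * N i j + (((2 : ℕ) : ℂ) * s ^ (2 - 1) * 1 / 2) * (N * N) i j := by
      unfold uni
      rw [mul_add, mul_add, mul_one, mul_smul_comm, mul_smul_comm, h3]
      simp only [Matrix.add_apply, Matrix.smul_apply, smul_eq_mul, Matrix.zero_apply]
      push_cast
      ring
    rw [h2]
    exact h1

/-! ### transitivity -/

theorem vmv (u v w : Fin n → ℂ) : (vecMulVec u v).mulVec w = (v ⬝ᵥ w) • u := by
  rw [vecMulVec_mulVec]
  funext i
  simp [mul_comm]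

/-- rotation in the plane of `a, e` -/
theorem plane {G : Subgroup (GL (Fin n) ℂ)} (hG : HG G) {a e : Fin n → ℂ} (haa : a ⬝ᵥ a = 1)
    (hee : e ⬝ᵥ e = 1) (hea : e ⬝ᵥ a = 0) (θ : ℂ) :
    ∃ h ∈ G, h ∈ SO n ∧ h.1.mulVec a = Complex.cos θ • a + Complex.sin θ • e := by
  have hae : a ⬝ᵥ e = 0 := by rw [dotProduct_comm, hea]
  set J := vecMulVec e a - vecMulVec a e with hJ
  have hJt : Jᵀ = -J := by
    rw [hJ, transpose_sub, transpose_vecMulVec, transpose_vecMulVec, neg_sub]
  have h2 : J * J = -(vecMulVec a a) - vecMulVec e e := by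
    rw [hJ, sub_mul, mul_sub, mul_sub, vecMulVec_mul_vecMulVec, vecMulVec_mul_vecMulVec,
      vecMulVec_mul_vecMulVec, vecMulVec_mul_vecMulVec, hae, haa, hee, hea, zero_smul, zero_smul,
      one_smul, one_smul, vecMulVec_zero, vecMulVec_zero]
    abel
  have h3 : J * J * J = -J := by
    rw [h2, hJ, sub_mul, mul_sub, mul_sub, neg_mul, neg_mul, vecMulVec_mul_vecMulVec,
      vecMulVec_mul_vecMulVec, vecMulVec_mul_vecMulVec, vecMulVec_mul_vecMulVec, hae, haa, hee,
      hea, zero_smul, zero_smul, one_smul, one_smul, vecMulVec_zero, vecMulVec_zero]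
    abel
  obtain ⟨h, hg, hs, he⟩ := rot_spec hG hJt h3 θ
  refine ⟨h, hg, hs, ?_⟩
  rw [he]
  unfold rot
  rw [h2, hJ, add_mulVec, add_mulVec, one_mulVec, smul_mulVec, smul_mulVec, sub_mulVec, sub_mulVec,
    neg_mulVec, vmv, vmv, vmv, vmv, haa, hea]
  module

/-- translation along an isotropic vector -/
theorem isot {G : Subgroup (GL (Fin n) ℂ)} (hG : HG G) {a u : Fin n → ℂ} (haa : a ⬝ᵥ a = 1)
    (huu : u ⬝ᵥ u = 0) (hua : u ⬝ᵥ a = 0) :
    ∃ h ∈ G, h ∈ SO n ∧ h.1.mulVec a = a + u := by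
  have hau : a ⬝ᵥ u = 0 := by rw [dotProduct_comm, hua]
  set N := vecMulVec u a - vecMulVec a u with hN
  have hNt : Nᵀ = -N := by
    rw [hN, transpose_sub, transpose_vecMulVec, transpose_vecMulVec, neg_sub]
  have h2 : N * N = -(vecMulVec u u) := by
    rw [hN, sub_mul, mul_sub, mul_sub, vecMulVec_mul_vecMulVec, vecMulVec_mul_vecMulVec,
      vecMulVec_mul_vecMulVec, vecMulVec_mul_vecMulVec, hau, haa, huu, hua]
    simp only [zero_smul, one_smul, vecMulVec_zero]
    abel
  have h3 : N * N * N = 0 := by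
    rw [h2, hN, neg_mul, mul_sub, vecMulVec_mul_vecMulVec,
      vecMulVec_mul_vecMulVec, huu, hua]
    simp only [zero_smul, vecMulVec_zero, sub_zero, neg_zero]
  obtain ⟨h, hg, hs, he⟩ := uni_spec hG hNt h3 1
  refine ⟨h, hg, hs, ?_⟩
  rw [he]
  unfold uni
  rw [h2, hN, add_mulVec, add_mulVec, one_mulVec, smul_mulVec, smul_mulVec, sub_mulVec,
    neg_mulVec, vmv, vmv, vmv, haa, hua]
  module

/-- a unit vector orthogonal to a unit vector -/
theorem perp (hn : 2 ≤ n) {a : Fin n → ℂ} (haa : a ⬝ᵥ a = 1) :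
    ∃ e : Fin n → ℂ, e ⬝ᵥ e = 1 ∧ e ⬝ᵥ a = 0 := by
  have h1 : ∃ i, a i ^ 2 ≠ 1 := by
    by_contra hcon
    push Not at hcon
    have h2 : a ⬝ᵥ a = n := by
      unfold dotProduct
      rw [Finset.sum_congr rfl fun i _ => show a i * a i = 1 by rw [← hcon i]; ring]
      simp
    rw [haa] at h2
    have h3 : (1 : ℕ) = n := by exact_mod_cast h2
    omega
  obtain ⟨i, hi⟩ := h1
  have hi' : 1 - a i ^ 2 ≠ 0 := fun h => hi (by linear_combination -h)
  obtain ⟨r, hr⟩ := IsAlgClosed.exists_pow_nat_eq (1 - a i ^ 2) (n := 2) (by norm_num)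
  have hr0 : r ≠ 0 := by
    rintro rfl
    rw [zero_pow (by norm_num)] at hr
    exact hi' hr.symm
  have e1 : (Pi.single i 1 : Fin n → ℂ) ⬝ᵥ a = a i := by simp
  have e2 : (Pi.single i 1 : Fin n → ℂ) ⬝ᵥ Pi.single i 1 = 1 := by simp
  have e3 : a ⬝ᵥ (Pi.single i 1 : Fin n → ℂ) = a i := by simp
  refine ⟨r⁻¹ • (Pi.single i 1 - a i • a), ?_, ?_⟩
  · rw [smul_dotProduct, dotProduct_smul, sub_dotProduct, dotProduct_sub, dotProduct_sub,
      smul_dotProduct, smul_dotProduct, dotProduct_smul, dotProduct_smul, e1, e2, e3, haa]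
    simp only [smul_eq_mul]
    have : r⁻¹ * (r⁻¹ * (1 - a i * a i - (a i * a i - a i * (a i * 1)))) =
        r⁻¹ * r⁻¹ * (1 - a i ^ 2) := by ring
    rw [this, ← hr]
    field_simp
  · rw [smul_dotProduct, sub_dotProduct, smul_dotProduct, e1, haa]
    simp

/-- transitivity on the unit vectors -/
theorem trans {G : Subgroup (GL (Fin n) ℂ)} (hG : HG G) (hn : 2 ≤ n) {a b : Fin n → ℂ}
    (haa : a ⬝ᵥ a = 1) (hbb : b ⬝ᵥ b = 1) : ∃ h ∈ G, h ∈ SO n ∧ h.1.mulVec a = b := by
  -- the case `a · b = 1`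
  have key : ∀ a : Fin n → ℂ, a ⬝ᵥ a = 1 → a ⬝ᵥ b = 1 →
      ∃ h ∈ G, h ∈ SO n ∧ h.1.mulVec a = b := by
    intro a haa hab
    have hba : b ⬝ᵥ a = 1 := by rw [dotProduct_comm, hab]
    obtain ⟨h, hg, hs, he⟩ := isot hG (a := a) (u := b - a) haa
      (by rw [sub_dotProduct, dotProduct_sub, dotProduct_sub, haa, hbb, hab, hba]; ring)
      (by rw [sub_dotProduct, haa, hba, sub_self])
    exact ⟨h, hg, hs, by rw [he, add_sub_cancel]⟩
  obtain ⟨θ, hθ⟩ := Complex.cos_surjective (a ⬝ᵥ b)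
  by_cases hs : Complex.sin θ = 0
  · have hc : Complex.cos θ ^ 2 = 1 := by
      have := Complex.sin_sq_add_cos_sq θ
      rw [hs] at this
      linear_combination this
    rw [hθ] at hc
    have hc' : a ⬝ᵥ b = 1 ∨ a ⬝ᵥ b = -1 := by
      rcases mul_eq_zero.1 (show (a ⬝ᵥ b - 1) * (a ⬝ᵥ b + 1) = 0 by linear_combination hc) with h | h
      · exact Or.inl (sub_eq_zero.1 h)
      · exact Or.inr (eq_neg_of_add_eq_zero_left h)
    rcases hc' with h | h
    · exact key a haa h
    · obtain ⟨e, hee, hea⟩ := perp hn haa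
      obtain ⟨g, hg, hgs, hge⟩ := plane hG haa hee hea Real.pi
      rw [Complex.cos_pi, Complex.sin_pi, zero_smul, add_zero, neg_smul, one_smul] at hge
      obtain ⟨g', hg', hgs', hge'⟩ := key (-a) (by rw [neg_dotProduct_neg, haa])
        (by rw [neg_dotProduct, h, neg_neg])
      refine ⟨g' * g, mul_mem hg' hg, mul_mem hgs' hgs, ?_⟩
      show (g'.1 * g.1).mulVec a = b
      rw [← mulVec_mulVec, hge, hge']
  · have hba : b ⬝ᵥ a = Complex.cos θ := by rw [dotProduct_comm, hθ]
    have hab : a ⬝ᵥ b = Complex.cos θ := hθ.symm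
    have hsc := Complex.sin_sq_add_cos_sq θ
    obtain ⟨g, hg, hgs, hge⟩ := plane hG (a := a) (e := (Complex.sin θ)⁻¹ • (b - Complex.cos θ • a))
      haa (by
        rw [smul_dotProduct, dotProduct_smul, sub_dotProduct, dotProduct_sub, dotProduct_sub,
          smul_dotProduct, smul_dotProduct, dotProduct_smul, dotProduct_smul, haa, hbb, hba, hab]
        simp only [smul_eq_mul]
        field_simp
        linear_combination -hsc) (by
        rw [smul_dotProduct, sub_dotProduct, smul_dotProduct, hba, haa]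
        simp) θ
    refine ⟨g, hg, hgs, ?_⟩
    rw [hge, smul_smul, mul_inv_cancel₀ hs, one_smul, add_sub_cancel]

/-! ### the block embedding -/

/-- the block diagonal matrix `(t, A)` -/
def emb (t : ℂ) (A : Matrix (Fin n) (Fin n) ℂ) : Matrix (Fin (n + 1)) (Fin (n + 1)) ℂ :=
  Matrix.of fun i j => Fin.cases (Fin.cases t (fun _ => 0) j)
    (fun i' => Fin.cases 0 (fun j' => A i' j') j) i

@[simp] theorem emb_00 (t : ℂ) (A : Matrix (Fin n) (Fin n) ℂ) : emb t A 0 0 = t := rfl

@[simp] theorem emb_0s (t : ℂ) (A : Matrix (Fin n) (Fin n) ℂ) (j : Fin n) :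
    emb t A 0 j.succ = 0 := rfl

@[simp] theorem emb_s0 (t : ℂ) (A : Matrix (Fin n) (Fin n) ℂ) (i : Fin n) :
    emb t A i.succ 0 = 0 := rfl

@[simp] theorem emb_ss (t : ℂ) (A : Matrix (Fin n) (Fin n) ℂ) (i j : Fin n) :
    emb t A i.succ j.succ = A i j := rfl

theorem emb_mul (t r : ℂ) (A B : Matrix (Fin n) (Fin n) ℂ) :
    emb t A * emb r B = emb (t * r) (A * B) := by
  ext i j
  rw [Matrix.mul_apply, Fin.sum_univ_succ]
  refine Fin.cases ?_ (fun i => ?_) i <;> refine Fin.cases ?_ (fun j => ?_) j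
  · simp
  · simp
  · simp
  · simp [Matrix.mul_apply]

theorem emb_one : emb 1 (1 : Matrix (Fin n) (Fin n) ℂ) = 1 := by
  ext i j
  refine Fin.cases ?_ (fun i => ?_) i <;> refine Fin.cases ?_ (fun j => ?_) j
  · simp
  · simp [(Fin.succ_ne_zero j).symm]
  · simp
  · simp [Matrix.one_apply]

theorem emb_tr (t : ℂ) (A : Matrix (Fin n) (Fin n) ℂ) : (emb t A)ᵀ = emb t Aᵀ := by
  ext i j
  refine Fin.cases ?_ (fun i => ?_) i <;> refine Fin.cases ?_ (fun j => ?_) j <;> rfl

theorem emb_inj {t : ℂ} {A B : Matrix (Fin n) (Fin n) ℂ} (h : emb t A = emb t B) : A = B := by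
  ext i j
  exact congrFun (congrFun h i.succ) j.succ

theorem emb_det (A : Matrix (Fin n) (Fin n) ℂ) : (emb 1 A).det = A.det := by
  rw [Matrix.det_succ_row_zero, Fin.sum_univ_succ]
  have h1 : ∑ i : Fin n, (-1 : ℂ) ^ (i.succ : ℕ) * emb 1 A 0 i.succ *
      ((emb 1 A).submatrix Fin.succ i.succ.succAbove).det = 0 :=
    Finset.sum_eq_zero fun i _ => by rw [emb_0s, mul_zero, zero_mul]
  rw [h1, add_zero, emb_00]
  have h2 : (emb 1 A).submatrix Fin.succ (Fin.succAbove 0) = A := by
    ext i j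
    rw [Matrix.submatrix_apply, Fin.succAbove_zero, emb_ss]
  rw [h2]
  simp

/-- the block embedding of the groups -/
def embGL : GL (Fin n) ℂ →* GL (Fin (n + 1)) ℂ where
  toFun A :=
    { val := emb 1 A.1
      inv := emb 1 A⁻¹.1
      val_inv := by
        rw [emb_mul, one_mul, ← emb_one]
        exact congrArg _ A.mul_inv
      inv_val := by
        rw [emb_mul, one_mul, ← emb_one]
        exact congrArg _ A.inv_mul }
  map_one' := Units.ext emb_one
  map_mul' A B := by
    refine Units.ext ?_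
    show emb 1 (A.1 * B.1) = emb 1 A.1 * emb 1 B.1
    rw [emb_mul, one_mul]

theorem hg_comap {G : Subgroup (GL (Fin (n + 1)) ℂ)} (hG : HG G) : HG (G.comap embGL) := by
  intro X hX g h0 hd s
  refine hG (emb 0 X) ?_ (fun s => embGL (g s)) ?_ ?_ s
  · rw [emb_tr, hX]
    ext i j
    refine Fin.cases ?_ (fun i => ?_) i <;> refine Fin.cases ?_ (fun j => ?_) j <;> simp
  · rw [h0, map_one]
  · intro s i j
    show HasDerivAt (fun s => emb 1 (g s).1 i j) ((emb 0 X * emb 1 (g s).1) i j) s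
    rw [emb_mul, zero_mul]
    refine Fin.cases ?_ (fun i => ?_) i <;> refine Fin.cases ?_ (fun j => ?_) j
    · exact hasDerivAt_const s (1 : ℂ)
    · exact hasDerivAt_const s (0 : ℂ)
    · exact hasDerivAt_const s (0 : ℂ)
    · exact hd s i j

theorem main : ∀ (n : ℕ) (G : Subgroup (GL (Fin n) ℂ)), HG G → SO n ≤ G
  | 0, G, _ => by
    intro g _
    have : g = 1 := Units.ext (Subsingleton.elim _ _)
    rw [this]
    exact G.one_mem
  | 1, G, _ => by
    intro g hg
    have h1 : g.1.det = 1 := hg.2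
    have h2 : g = 1 := by
      refine Units.ext ?_
      ext i j
      rw [Matrix.det_unique] at h1
      have hi : i = default := Subsingleton.elim _ _
      have hj : j = default := Subsingleton.elim _ _
      rw [hi, hj]
      exact h1
    rw [h2]
    exact G.one_mem
  | n + 2, G, hG => by
    intro g hg
    · set a : Fin (n + 2) → ℂ := Pi.single 0 1 with ha
      have haa : a ⬝ᵥ a = 1 := by simp [ha]
      have hbb : g.1.mulVec a ⬝ᵥ g.1.mulVec a = 1 := by
        rw [dotProduct_mulVec, ← mulVec_transpose, mulVec_mulVec, hg.1, one_mulVec, haa]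
      obtain ⟨h, hh, hs, he⟩ := trans hG (by omega) haa hbb
      have hM : h⁻¹ * g ∈ SO (n + 2) := mul_mem (inv_mem hs) hg
      set M := h⁻¹ * g with hMdef
      have hMa : M.1.mulVec a = a := by
        show (h⁻¹.1 * g.1).mulVec a = a
        rw [← mulVec_mulVec, ← he, mulVec_mulVec]
        have : h⁻¹.1 * h.1 = 1 := h.inv_mul
        rw [this, one_mulVec]
      have hMa' : M.1ᵀ.mulVec a = a := by
        conv_lhs => rw [← hMa]
        rw [mulVec_mulVec, hM.1, one_mulVec]
      set A : Matrix (Fin (n + 1)) (Fin (n + 1)) ℂ := M.1.submatrix Fin.succ Fin.succ with hA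
      have hc : ∀ i, M.1 i 0 = a i := by
        intro i
        have := congrFun hMa i
        rw [ha, mulVec_single_one] at this
        exact this
      have hr : ∀ j, M.1 0 j = a j := by
        intro j
        have := congrFun hMa' j
        rw [ha, mulVec_single_one] at this
        exact this
      have hMA : M.1 = emb 1 A := by
        ext i j
        refine Fin.cases ?_ (fun i => ?_) i <;> refine Fin.cases ?_ (fun j => ?_) j
        · rw [hc, emb_00, ha, Pi.single_eq_same]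
        · rw [hr, emb_0s, ha, Pi.single_eq_of_ne (Fin.succ_ne_zero j)]
        · rw [hc, emb_s0, ha, Pi.single_eq_of_ne (Fin.succ_ne_zero i)]
        · rfl
      have hAA : Aᵀ * A = 1 := by
        have h1 := hM.1
        rw [hMA, emb_tr, emb_mul, one_mul, ← emb_one] at h1
        exact emb_inj h1
      have hAd : A.det = 1 := by
        rw [← emb_det, ← hMA]
        exact hM.2
      have hAA' : A * Aᵀ = 1 := mul_eq_one_comm.1 hAA
      have h3 := main (n + 1) (G.comap embGL) (hg_comap hG)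
        (show (⟨A, Aᵀ, hAA', hAA⟩ : GL (Fin (n + 1)) ℂ) ∈ SO (n + 1) from ⟨hAA, hAd⟩)
      have h4 : embGL ⟨A, Aᵀ, hAA', hAA⟩ = M := Units.ext hMA.symm
      have h5 : M ∈ G := by
        rw [← h4]
        exact h3
      have h6 : g = h * M := by rw [hMdef, mul_inv_cancel_left]
      rw [h6]
      exact mul_mem hh h5

end GenM

/-- GEN -/
theorem specGen : SpecGen := fun n G hG => GenM.main n G hG

end Pool.Agent.Lib.MPf11a48.K3
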