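import Pool.Agent.Lib.MP_f11a48_ag.K3.BSpec

/-!
# Goursat's lemma for orthogonal Lie algebras (GOUR)
-/

set_option autoImplicit false

namespace Pool.Agent.Lib.MPf11a48.K3

open Matrix

namespace GourM

/-! ### the orthogonal Lie algebra is a Killing Lie algebra -/

section killing

attribute [local instance 100] LieRing.ofAssociativeRing

variable (F : Type) [Field F] (n : ℕ)

/-- the Lie algebra of skew-symmetric matrices -/
abbrev Sk : LieSubalgebra F (Matrix (Fin n) (Fin n) F) := LieAlgebra.Orthogonal.so (Fin n) F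

/-- the standard module -/
local instance instLRM : LieRingModule (Sk F n) (Fin n → F) where
  bracket X v := X.1.mulVec v
  add_lie X Y v := Matrix.add_mulVec X.1 Y.1 v
  lie_add X v w := Matrix.mulVec_add X.1 v w
  leibniz_lie X Y v := by
    change X.1.mulVec (Y.1.mulVec v) = (⁅X, Y⁆ : Sk F n).1.mulVec v + Y.1.mulVec (X.1.mulVec v)
    rw [LieSubalgebra.coe_bracket, Ring.lie_def, Matrix.sub_mulVec, Matrix.mulVec_mulVec,
      Matrix.mulVec_mulVec, sub_add_cancel]

theorem lie_def (X : Sk F n) (v : Fin n → F) : ⁅X, v⁆ = X.1.mulVec v := rfl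

local instance instLM : LieModule F (Sk F n) (Fin n → F) where
  smul_lie t X v := by
    rw [lie_def, lie_def]
    exact Matrix.smul_mulVec t X.1 v
  lie_smul t X v := by
    rw [lie_def, lie_def]
    exact Matrix.mulVec_smul X.1 t v

variable {F n}

/-- elementary skew-symmetric matrix -/
def el (i j : Fin n) : Sk F n :=
  ⟨Matrix.single i j 1 - Matrix.single j i 1, by
    rw [LieAlgebra.Orthogonal.mem_so]
    simp [Matrix.transpose_sub, Matrix.transpose_single]⟩

theorem el_mulVec (i j : Fin n) (v : Fin n → F) :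
    ⁅(el i j : Sk F n), v⁆ = v j • Pi.single i 1 - v i • (Pi.single j 1 : Fin n → F) := by
  rw [lie_def]
  change (Matrix.single i j (1 : F) - Matrix.single j i 1).mulVec v = _
  rw [Matrix.sub_mulVec, Matrix.single_mulVec, Matrix.single_mulVec]
  simp [Pi.single_apply, Function.update_apply, funext_iff]

theorem irr (hn : 3 ≤ n) : LieModule.IsIrreducible F (Sk F n) (Fin n → F) := by
  have : Nontrivial (Fin n → F) := by
    have : Nonempty (Fin n) := ⟨⟨0, by omega⟩⟩
    infer_instance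
  refine LieModule.IsIrreducible.mk fun N hN => ?_
  obtain ⟨v, hv, hv0⟩ := (Submodule.ne_bot_iff N.toSubmodule).1
    fun h => hN (LieSubmodule.toSubmodule_injective h)
  obtain ⟨i, hi⟩ := Function.ne_iff.1 hv0
  have hi' : v i ≠ 0 := hi
  have third : ∀ a b : Fin n, ∃ c, c ≠ a ∧ c ≠ b := by
    intro a b
    by_contra hc
    push Not at hc
    have : (Finset.univ : Finset (Fin n)) ⊆ {a, b} := by
      intro c _
      by_cases h : c = a
      · simp [h]
      · simp [hc c h]
    have := Finset.card_le_card this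
    have h2 : ({a, b} : Finset (Fin n)).card ≤ 2 := Finset.card_le_two
    simp at this
    omega
  have hk : ∀ k, k ≠ i → (Pi.single k 1 : Fin n → F) ∈ N := by
    intro k hk
    obtain ⟨j, hjk, hji⟩ := third k i
    have h1 : ⁅el j i, v⁆ ∈ N := N.lie_mem hv
    have h2 : ⁅el k j, ⁅el j i, v⁆⁆ ∈ N := N.lie_mem h1
    rw [el_mulVec, el_mulVec] at h2
    have h3 : (v i)⁻¹ • ((v i • (Pi.single j 1 : Fin n → F) -
        v j • (Pi.single i 1 : Fin n → F)) j • (Pi.single k 1 : Fin n → F) -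
        (v i • (Pi.single j 1 : Fin n → F) - v j • (Pi.single i 1 : Fin n → F)) k •
          (Pi.single j 1 : Fin n → F)) = Pi.single k 1 := by
      simp [hji, hk, hjk.symm, smul_smul, hi']
    rw [← h3]
    exact N.smul_mem _ h2
  have hall : ∀ k, (Pi.single k 1 : Fin n → F) ∈ N := by
    intro k
    by_cases h : k = i
    · subst h
      obtain ⟨j, hjk, -⟩ := third k k
      have h1 : ⁅el k j, (Pi.single j 1 : Fin n → F)⁆ ∈ N := N.lie_mem (hk j hjk)
      rw [el_mulVec] at h1
      simpa [Pi.single_apply, hjk, hjk.symm] using h1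
    · exact hk k h
  rw [eq_top_iff]
  intro w _
  have hw : w = ∑ k, w k • (Pi.single k 1 : Fin n → F) := by
    funext j
    simp [Finset.sum_apply, Pi.single_apply]
  rw [hw]
  exact Submodule.sum_mem N.toSubmodule fun k _ => N.smul_mem _ (hall k)

theorem faithful : LieModule.IsFaithful F (Sk F n) (Fin n → F) := by
  refine ⟨fun X Y h => ?_⟩
  apply Subtype.ext
  apply Matrix.mulVec_injective
  funext v
  exact LinearMap.congr_fun h v

theorem tr (X : Sk F n) [CharZero F] :
    LinearMap.trace F _ (LieModule.toEnd F (Sk F n) (Fin n → F) X) = 0 := by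
  have h1 : LieModule.toEnd F (Sk F n) (Fin n → F) X = Matrix.toLin' X.1 := by
    apply LinearMap.ext
    intro v
    rw [Matrix.toLin'_apply]
    rfl
  rw [h1, Matrix.trace_toLin'_eq]
  have h2 := (LieAlgebra.Orthogonal.mem_so _ _ _).1 X.2
  have h3 : X.1.trace = -X.1.trace := by
    rw [← Matrix.trace_neg, ← h2, Matrix.trace_transpose]
  have h4 : (2 : F) * X.1.trace = 0 := by linear_combination h3
  exact (mul_eq_zero.1 h4).resolve_left two_ne_zero

theorem killing [CharZero F] [IsAlgClosed F] (hn : 3 ≤ n) : LieAlgebra.IsKilling F (Sk F n) := by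
  have := irr (F := F) hn
  have := faithful (F := F) (n := n)
  have : LieAlgebra.HasTrivialRadical F (Sk F n) :=
    LieAlgebra.hasTrivialRadical_of_isIrreducible_of_isFaithful F (Sk F n) (Fin n → F)
      fun X => tr X
  infer_instance

/-- ideals in the orthogonal Lie algebra are kernels of equivariant projections -/
theorem compl_aux [CharZero F] [IsAlgClosed F] (hn : 3 ≤ n) (N : LieIdeal F (Sk F n)) :
    ∃ p : Sk F n →ₗ[F] Sk F n, (∀ x y : Sk F n, p ⁅x, y⁆ = ⁅x, p y⁆) ∧
      ∀ x : Sk F n, p x = 0 ↔ x ∈ N := by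
  have := killing (F := F) hn
  have hc : IsCompl N.killingCompl.toSubmodule N.toSubmodule :=
    (LieSubmodule.isCompl_toSubmodule.2 (LieIdeal.isCompl_killingCompl N)).symm
  refine ⟨Submodule.projection _ _ hc, ?_, fun x => Submodule.projection_apply_eq_zero_iff hc⟩
  intro x y
  have h1 := Submodule.projection_apply_mem hc y
  have h2 := Submodule.sub_projection_mem hc y
  set b := Submodule.projection _ _ hc y with hb
  have h3 : ⁅x, y⁆ = ⁅x, b⁆ + ⁅x, y - b⁆ := by rw [← lie_add, add_sub_cancel]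
  have h4 : ⁅x, b⁆ ∈ N.killingCompl := LieSubmodule.lie_mem _ h1
  have h5 : ⁅x, y - b⁆ ∈ N := LieSubmodule.lie_mem _ h2
  rw [h3, map_add, (Submodule.projection_apply_eq_zero_iff hc).2 h5, add_zero]
  exact (Submodule.projection_eq_self_iff hc _).2 h4

/-- the same in terms of matrices -/
theorem compl [CharZero F] [IsAlgClosed F] (hn : 3 ≤ n)
    (N : Submodule F (Matrix (Fin n) (Fin n) F))
    (h2 : ∀ Z, Zᵀ = -Z → ∀ X ∈ N, Xᵀ = -X → Z * X - X * Z ∈ N) :
    ∃ p : Matrix (Fin n) (Fin n) F →ₗ[F] Matrix (Fin n) (Fin n) F,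
      (∀ Y, (p Y)ᵀ = -p Y) ∧
      (∀ Z, Zᵀ = -Z → ∀ Y, Yᵀ = -Y → p (Z * Y - Y * Z) = Z * p Y - p Y * Z) ∧
      ∀ A, Aᵀ = -A → (p A = 0 ↔ A ∈ N) := by
  let N' : LieIdeal F (Sk F n) :=
    { carrier := {x | x.1 ∈ N}
      add_mem' := fun {a b} ha hb => N.add_mem ha hb
      zero_mem' := N.zero_mem
      smul_mem' := fun t a ha => N.smul_mem t ha
      lie_mem := by
        intro x m hm
        exact h2 x.1 ((LieAlgebra.Orthogonal.mem_so _ _ _).1 x.2) m.1 hm
          ((LieAlgebra.Orthogonal.mem_so _ _ _).1 m.2) }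
  obtain ⟨p, hp1, hp2⟩ := compl_aux hn N'
  let q : Matrix (Fin n) (Fin n) F →ₗ[F] Sk F n :=
    { toFun := fun Y => ⟨(1 / 2 : F) • (Y - Yᵀ), by
        rw [LieAlgebra.Orthogonal.mem_so, Matrix.transpose_smul, Matrix.transpose_sub,
          Matrix.transpose_transpose, ← smul_neg, neg_sub]⟩
      map_add' := by
        intro A B
        apply Subtype.ext
        change (1 / 2 : F) • ((A + B) - (A + B)ᵀ) = (1 / 2 : F) • (A - Aᵀ) + (1 / 2 : F) • (B - Bᵀ)
        rw [Matrix.transpose_add, ← smul_add]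
        congr 1
        abel
      map_smul' := by
        intro t A
        apply Subtype.ext
        change (1 / 2 : F) • ((t • A) - (t • A)ᵀ) = t • (1 / 2 : F) • (A - Aᵀ)
        rw [Matrix.transpose_smul, ← smul_sub, smul_comm] }
  have hq : ∀ A : Sk F n, q A.1 = A := by
    intro A
    apply Subtype.ext
    change (1 / 2 : F) • (A.1 - A.1ᵀ) = A.1
    rw [(LieAlgebra.Orthogonal.mem_so _ _ _).1 A.2, sub_neg_eq_add, ← two_smul F, smul_smul]
    norm_num
  refine ⟨(Sk F n).subtype.comp (p.comp q), ?_, ?_, ?_⟩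
  · intro Y
    exact (LieAlgebra.Orthogonal.mem_so _ _ _).1 (p (q Y)).2
  · intro Z hZ Y hY
    change (p (q (Z * Y - Y * Z))).1 = Z * (p (q Y)).1 - (p (q Y)).1 * Z
    have e1 := hq ⟨Z, (LieAlgebra.Orthogonal.mem_so _ _ _).2 hZ⟩
    have e2 := hq ⟨Y, (LieAlgebra.Orthogonal.mem_so _ _ _).2 hY⟩
    have e3 := hq ⁅(⟨Z, (LieAlgebra.Orthogonal.mem_so _ _ _).2 hZ⟩ : Sk F n),
      (⟨Y, (LieAlgebra.Orthogonal.mem_so _ _ _).2 hY⟩ : Sk F n)⁆
    have e4 := hp1 ⟨Z, (LieAlgebra.Orthogonal.mem_so _ _ _).2 hZ⟩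
      ⟨Y, (LieAlgebra.Orthogonal.mem_so _ _ _).2 hY⟩
    rw [← e3] at e4
    have e2' : q Y = ⟨Y, (LieAlgebra.Orthogonal.mem_so _ _ _).2 hY⟩ := e2
    rw [e2']
    exact congrArg Subtype.val e4
  · intro A hA
    change (p (q A)).1 = 0 ↔ _
    have e2 := hq ⟨A, (LieAlgebra.Orthogonal.mem_so _ _ _).2 hA⟩
    have e3 := hp2 ⟨A, (LieAlgebra.Orthogonal.mem_so _ _ _).2 hA⟩
    rw [← e2] at e3
    constructor
    · intro h
      have := e3.1 (Subtype.ext h)
      rw [e2] at this
      exact this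
    · intro h
      have : p (q A) = 0 := e3.2 (by rw [e2]; exact h)
      rw [this]
      rfl

end killing

section main

variable {F : Type} [Field F] [CharZero F] [IsAlgClosed F] {κ : Type} [DecidableEq κ] {n : κ → ℕ}
  {h : Submodule F ((k : κ) → Matrix (Fin (n k)) (Fin (n k)) F)}

/-- elements of `h` realise all families of skew-symmetric matrices on `S` -/
def P (h : Submodule F ((k : κ) → Matrix (Fin (n k)) (Fin (n k)) F)) (S : Finset κ) : Prop :=
  ∀ X : (k : κ) → Matrix (Fin (n k)) (Fin (n k)) F, (∀ k, (X k)ᵀ = -X k) →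
    ∃ Y ∈ h, ∀ k ∈ S, Y k = X k

theorem step (hn : ∀ k, 3 ≤ n k) (h1 : ∀ X ∈ h, ∀ k, (X k)ᵀ = -X k)
    (h2 : ∀ X ∈ h, ∀ Y ∈ h, (fun k => X k * Y k - Y k * X k) ∈ h)
    (h3 : ∀ k, ∀ A : Matrix (Fin (n k)) (Fin (n k)) F, Aᵀ = -A → ∃ X ∈ h, X k = A)
    (h4 : ∀ k l, k ≠ l → NL {p | ∃ X ∈ h, p = (X k, X l)}) (S : Finset κ) (l : κ) (hl : l ∉ S)
    (hS : P h S) : P h (insert l S) := by
  -- the ideal of the last components of the elements which vanish on `S`
  let N : Submodule F (Matrix (Fin (n l)) (Fin (n l)) F) :=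
    { carrier := {Z | ∃ Y ∈ h, (∀ k ∈ S, Y k = 0) ∧ Y l = Z}
      add_mem' := by
        rintro a b ⟨Y, hY, hY0, rfl⟩ ⟨Y', hY', hY0', rfl⟩
        exact ⟨Y + Y', h.add_mem hY hY', fun k hk => by
          rw [Pi.add_apply, hY0 k hk, hY0' k hk, add_zero], rfl⟩
      zero_mem' := ⟨0, h.zero_mem, fun k _ => rfl, rfl⟩
      smul_mem' := by
        rintro t a ⟨Y, hY, hY0, rfl⟩
        exact ⟨t • Y, h.smul_mem t hY, fun k hk => by
          rw [Pi.smul_apply, hY0 k hk, smul_zero], rfl⟩ }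
  obtain ⟨p, hp1, hp2, hp3⟩ := compl (hn l) N (by
    rintro Z hZ X ⟨Y, hY, hY0, rfl⟩ -
    obtain ⟨W, hW, rfl⟩ := h3 l Z hZ
    refine ⟨_, h2 W hW Y hY, fun k hk => ?_, rfl⟩
    change W k * Y k - Y k * W k = 0
    rw [hY0 k hk, mul_zero, zero_mul, sub_zero])
  -- well-definedness
  have wd : ∀ Y ∈ h, ∀ Y' ∈ h, (∀ k ∈ S, Y k = Y' k) → p (Y l) = p (Y' l) := by
    intro Y hY Y' hY' hYY
    rw [← sub_eq_zero, ← map_sub]
    have h5 : Y l - Y' l ∈ N := ⟨Y - Y', h.sub_mem hY hY', fun k hk => by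
      rw [Pi.sub_apply, hYY k hk, sub_self], rfl⟩
    exact (hp3 _ (h1 _ (h.sub_mem hY hY') l)).2 h5
  -- enough: the projection vanishes
  suffices hz : ∀ Y ∈ h, p (Y l) = 0 by
    intro X hX
    obtain ⟨Y, hY, hYX⟩ := hS X hX
    obtain ⟨W, hW, hWl⟩ := h3 l (X l - Y l) (by
      rw [Matrix.transpose_sub, hX l, h1 Y hY l, neg_sub_neg, neg_sub])
    obtain ⟨Y', hY', hY0', hYl'⟩ : W l ∈ N := (hp3 _ (h1 W hW l)).1 (hz W hW)
    refine ⟨Y + Y', h.add_mem hY hY', fun k hk => ?_⟩
    rw [Pi.add_apply]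
    rcases Finset.mem_insert.1 hk with rfl | hk
    · rw [hYl', hWl, add_sub_cancel]
    · rw [hYX k hk, hY0' k hk, add_zero]
  -- the maps `φ_k`
  have as : ∀ k (A : Matrix (Fin (n k)) (Fin (n k)) F) (j : κ),
      (Pi.single (M := fun k => Matrix (Fin (n k)) (Fin (n k)) F) k ((1 / 2 : F) • (A - Aᵀ)) j)ᵀ =
      -Pi.single (M := fun k => Matrix (Fin (n k)) (Fin (n k)) F) k ((1 / 2 : F) • (A - Aᵀ)) j := by
    intro k A j
    by_cases hj : j = k
    · subst hj
      rw [Pi.single_eq_same, Matrix.transpose_smul, Matrix.transpose_sub,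
        Matrix.transpose_transpose, ← smul_neg, neg_sub]
    · rw [Pi.single_eq_of_ne hj, Matrix.transpose_zero, neg_zero]
  choose g hg hgS using fun k (A : Matrix (Fin (n k)) (Fin (n k)) F) =>
    hS (Pi.single k ((1 / 2 : F) • (A - Aᵀ))) (as k A)
  have key : ∀ k ∈ S, ∀ A : Matrix (Fin (n k)) (Fin (n k)) F, p (g k A l) = 0 := by
    intro k hk A
    let φ : Matrix (Fin (n k)) (Fin (n k)) F →ₗ[F] Matrix (Fin (n l)) (Fin (n l)) F :=
      { toFun := fun A => p (g k A l)
        map_add' := by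
          intro A B
          rw [← map_add]
          refine wd _ (hg _ _) (g k A + g k B) (h.add_mem (hg _ _) (hg _ _)) fun j hj => ?_
          rw [Pi.add_apply, hgS _ _ j hj, hgS _ _ j hj, hgS _ _ j hj, ← Pi.add_apply,
            ← Pi.single_add, Matrix.transpose_add, ← smul_add]
          congr 2
          abel_nf
        map_smul' := by
          intro t A
          rw [RingHom.id_apply, ← map_smul]
          refine wd _ (hg _ _) (t • g k A) (h.smul_mem t (hg _ _)) fun j hj => ?_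
          rw [Pi.smul_apply, hgS _ _ j hj, hgS _ _ j hj]
          by_cases hjk : j = k
          · subst hjk
            rw [Pi.single_eq_same, Pi.single_eq_same, Matrix.transpose_smul, ← smul_sub, smul_comm]
          · rw [Pi.single_eq_of_ne hjk, Pi.single_eq_of_ne hjk, smul_zero] }
    have hφ : φ = 0 := by
      refine h4 k l (fun h => hl (h ▸ hk)) φ ?_ (fun Y => hp1 _) ?_
      · intro Y
        change p (g k Yᵀ l) = -p (g k Y l)
        rw [← map_neg]
        refine wd _ (hg _ _) (-g k Y) (h.neg_mem (hg _ _)) fun j hj => ?_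
        rw [Pi.neg_apply, hgS _ _ j hj, hgS _ _ j hj, ← Pi.neg_apply, ← Pi.single_neg,
          Matrix.transpose_transpose, ← smul_neg, neg_sub]
      · rintro _ ⟨X, hX, rfl⟩ Y
        change p (g k (X k * Y - Y * X k) l) = X l * p (g k Y l) - p (g k Y l) * X l
        rw [← hp2 _ (h1 X hX l) _ (h1 _ (hg k Y) l)]
        refine wd _ (hg _ _) _ (h2 X hX _ (hg k Y)) fun j hj => ?_
        change _ = X j * g k Y j - g k Y j * X j
        rw [hgS _ _ j hj, hgS _ _ j hj]
        by_cases hjk : j = k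
        · subst hjk
          rw [Pi.single_eq_same, Pi.single_eq_same, Matrix.transpose_sub, Matrix.transpose_mul,
            Matrix.transpose_mul, h1 X hX j, Matrix.mul_smul, Matrix.smul_mul, ← smul_sub]
          congr 1
          noncomm_ring
        · rw [Pi.single_eq_of_ne hjk, Pi.single_eq_of_ne hjk, mul_zero, zero_mul, sub_zero]
    exact LinearMap.congr_fun hφ A
  intro Y hY
  have h6 : p (Y l) = p ((∑ k ∈ S, g k (Y k)) l) := by
    refine wd _ hY _ (h.sum_mem fun k _ => hg _ _) fun j hj => ?_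
    rw [Finset.sum_apply, Finset.sum_eq_single_of_mem j hj]
    · rw [hgS _ _ j hj, Pi.single_eq_same, h1 Y hY j, sub_neg_eq_add, ← two_smul F, smul_smul]
      norm_num
    · intro k _ hkj
      rw [hgS _ _ j hj, Pi.single_eq_of_ne hkj.symm]
  rw [h6, Finset.sum_apply, map_sum]
  exact Finset.sum_eq_zero fun k hk => key k hk _

end main

end GourM

theorem specGour : SpecGour := by
  intro F _ _ _ κ _ _ n hn h h1 h2 h3 h4 X hX
  have hall : ∀ S : Finset κ, GourM.P h S := by
    intro S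
    induction S using Finset.induction_on with
    | empty => exact fun X _ => ⟨0, h.zero_mem, fun k hk => absurd hk (Finset.notMem_empty k)⟩
    | insert l S hl ih => exact GourM.step hn h1 h2 h3 h4 S l hl ih
  obtain ⟨Y, hY, hYX⟩ := hall Finset.univ X hX
  have : Y = X := funext fun k => hYX k (Finset.mem_univ k)
  exact this ▸ hY

end Pool.Agent.Lib.MPf11a48.K3
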