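import Pool.Agent.Lib.MP_f11a48_ag.K3.AlgSpec

/-! # HYP: hyperbolic weight bases -/

set_option autoImplicit false
set_option linter.unusedSectionVars false

namespace Pool.Agent.Lib.MPf11a48.K3

open Module Matrix

namespace HypM

variable {F L : Type} [Field F] [LieRing L] [LieAlgebra F L] {n : ℕ} {θ : OR F L n}
  {H : LieSubalgebra F L} {m : ℕ}

theorem skew_dot {X : Matrix (Fin n) (Fin n) F} (hX : Xᵀ = -X) (v w : Fin n → F) :
    X.mulVec v ⬝ᵥ w = -(v ⬝ᵥ X.mulVec w) := by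
  rw [Matrix.dotProduct_mulVec, ← Matrix.mulVec_transpose, hX, Matrix.neg_mulVec, neg_dotProduct,
    neg_neg]

/-- the functional `w ↦ w ⬝ x` -/
def dl (x : Fin n → F) : (Fin n → F) →ₗ[F] F where
  toFun w := w ⬝ᵥ x
  map_add' v w := add_dotProduct v w x
  map_smul' c w := smul_dotProduct c w x

theorem dl_apply (x w : Fin n → F) : dl x w = w ⬝ᵥ x := rfl

/-- projection to the orthogonal of the hyperbolic family -/
def pj (b : HB θ H m) : (Fin n → F) →ₗ[F] (Fin n → F) :=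
  LinearMap.id - ∑ i, ((dl (b.v' i)).smulRight (b.v i) + (dl (b.v i)).smulRight (b.v' i))

theorem pj_apply (b : HB θ H m) (w : Fin n → F) :
    pj b w = w - ∑ i, ((w ⬝ᵥ b.v' i) • b.v i + (w ⬝ᵥ b.v i) • b.v' i) := by
  rw [pj, LinearMap.sub_apply, LinearMap.id_apply, LinearMap.sum_apply]
  rfl

theorem sum_dot {ι : Type} (s : Finset ι) (f : ι → Fin n → F) (x : Fin n → F) :
    (∑ i ∈ s, f i) ⬝ᵥ x = ∑ i ∈ s, f i ⬝ᵥ x := by
  rw [← dl_apply, map_sum]
  rfl

theorem dual' (b : HB θ H m) (i j : Fin m) : b.v' i ⬝ᵥ b.v j = if i = j then 1 else 0 := by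
  rw [dotProduct_comm, b.dual]
  by_cases h : i = j
  · rw [if_pos h, if_pos h.symm]
  · rw [if_neg h, if_neg (Ne.symm h)]

theorem pj_v (b : HB θ H m) (w : Fin n → F) (j : Fin m) : pj b w ⬝ᵥ b.v j = 0 := by
  rw [pj_apply, sub_dotProduct, sum_dot, Finset.sum_eq_single j]
  · rw [add_dotProduct, smul_dotProduct, smul_dotProduct, b.vv, dual', if_pos rfl, smul_eq_mul,
      smul_eq_mul, mul_zero, mul_one, zero_add, sub_self]
  · intro i _ hi
    rw [add_dotProduct, smul_dotProduct, smul_dotProduct, b.vv, dual', if_neg hi, smul_zero,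
      smul_zero, add_zero]
  · intro h
    exact absurd (Finset.mem_univ j) h

theorem pj_v' (b : HB θ H m) (w : Fin n → F) (j : Fin m) : pj b w ⬝ᵥ b.v' j = 0 := by
  rw [pj_apply, sub_dotProduct, sum_dot, Finset.sum_eq_single j]
  · rw [add_dotProduct, smul_dotProduct, smul_dotProduct, b.vv', b.dual, if_pos rfl, smul_eq_mul,
      smul_eq_mul, mul_zero, mul_one, add_zero, sub_self]
  · intro i _ hi
    rw [add_dotProduct, smul_dotProduct, smul_dotProduct, b.vv', b.dual, if_neg hi, smul_zero,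
      smul_zero, add_zero]
  · intro h
    exact absurd (Finset.mem_univ j) h

theorem dot_pj (b : HB θ H m) {x : Fin n → F} (hx : ∀ j, x ⬝ᵥ b.v j = 0)
    (hx' : ∀ j, x ⬝ᵥ b.v' j = 0) (w : Fin n → F) : x ⬝ᵥ pj b w = x ⬝ᵥ w := by
  rw [pj_apply, dotProduct_sub, sub_eq_self, dotProduct_comm, sum_dot]
  refine Finset.sum_eq_zero fun i _ => ?_
  rw [add_dotProduct, smul_dotProduct, smul_dotProduct, dotProduct_comm _ x, dotProduct_comm _ x,
    hx, hx', smul_zero, smul_zero, add_zero]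

theorem pj_self (b : HB θ H m) {x : Fin n → F} (hx : ∀ j, x ⬝ᵥ b.v j = 0)
    (hx' : ∀ j, x ⬝ᵥ b.v' j = 0) : pj b x = x := by
  rw [pj_apply, sub_eq_self]
  refine Finset.sum_eq_zero fun i _ => ?_
  rw [hx, hx', zero_smul, zero_smul, add_zero]

theorem pj_wt (b : HB θ H m) {μ : Dual F H} {w : Fin n → F}
    (hw : ∀ h : H, (θ.t h.1).mulVec w = μ h • w) (h : H) :
    (θ.t h.1).mulVec (pj b w) = μ h • pj b w := by
  have h1 : ∀ i, (w ⬝ᵥ b.v' i) * b.a i h = μ h * (w ⬝ᵥ b.v' i) := by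
    intro i
    have h2 := skew_dot (θ.skew h.1) w (b.v' i)
    rw [hw, b.wv', smul_dotProduct, dotProduct_smul, smul_eq_mul, smul_eq_mul, neg_mul,
      neg_neg] at h2
    rw [h2, mul_comm]
  have h1' : ∀ i, (w ⬝ᵥ b.v i) * -(b.a i h) = μ h * (w ⬝ᵥ b.v i) := by
    intro i
    have h2 := skew_dot (θ.skew h.1) w (b.v i)
    rw [hw, b.wv, smul_dotProduct, dotProduct_smul, smul_eq_mul, smul_eq_mul] at h2
    rw [h2]
    ring
  rw [pj_apply, Matrix.mulVec_sub, hw, smul_sub, Matrix.mulVec_sum, Finset.smul_sum]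
  congr 1
  refine Finset.sum_congr rfl fun i _ => ?_
  rw [Matrix.mulVec_add, Matrix.mulVec_smul, Matrix.mulVec_smul, b.wv, b.wv', smul_smul, smul_smul,
    h1, h1', smul_add, smul_smul, smul_smul]

/-- adding a hyperbolic pair -/
def ext (b : HB θ H m) (v v' : Fin n → F) (μ : Dual F H)
    (hv : ∀ h : H, (θ.t h.1).mulVec v = μ h • v) (hv' : ∀ h : H, (θ.t h.1).mulVec v' = -(μ h) • v')
    (h1 : v ⬝ᵥ v = 0) (h2 : v' ⬝ᵥ v' = 0) (h3 : v ⬝ᵥ v' = 1)
    (o1 : ∀ j, v ⬝ᵥ b.v j = 0) (o2 : ∀ j, v ⬝ᵥ b.v' j = 0) (o3 : ∀ j, v' ⬝ᵥ b.v j = 0)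
    (o4 : ∀ j, v' ⬝ᵥ b.v' j = 0) : HB θ H (m + 1) where
  v := Fin.cons v b.v
  v' := Fin.cons v' b.v'
  a := Fin.cons μ b.a
  wv := by
    intro i h
    refine Fin.cases ?_ (fun i => ?_) i
    · exact hv h
    · exact b.wv i h
  wv' := by
    intro i h
    refine Fin.cases ?_ (fun i => ?_) i
    · exact hv' h
    · exact b.wv' i h
  vv := by
    intro i j
    refine Fin.cases ?_ (fun i => ?_) i
    · refine Fin.cases ?_ (fun j => ?_) j
      · exact h1
      · exact o1 j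
    · refine Fin.cases ?_ (fun j => ?_) j
      · exact (dotProduct_comm _ _).trans (o1 i)
      · exact b.vv i j
  vv' := by
    intro i j
    refine Fin.cases ?_ (fun i => ?_) i
    · refine Fin.cases ?_ (fun j => ?_) j
      · exact h2
      · exact o4 j
    · refine Fin.cases ?_ (fun j => ?_) j
      · exact (dotProduct_comm _ _).trans (o4 i)
      · exact b.vv' i j
  dual := by
    intro i j
    refine Fin.cases ?_ (fun i => ?_) i
    · refine Fin.cases ?_ (fun j => ?_) j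
      · rw [if_pos rfl]
        exact h3
      · rw [if_neg (Fin.succ_ne_zero j).symm]
        exact o2 j
    · refine Fin.cases ?_ (fun j => ?_) j
      · rw [if_neg (Fin.succ_ne_zero i)]
        exact (dotProduct_comm _ _).trans (o3 i)
      · have h4 := b.dual i j
        simp only [Fin.succ_inj]
        exact h4

/-- the empty family -/
def emp (θ : OR F L n) (H : LieSubalgebra F L) : HB θ H 0 where
  v := fun i => i.elim0
  v' := fun i => i.elim0
  a := fun i => i.elim0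
  wv := fun i => i.elim0
  wv' := fun i => i.elim0
  vv := fun i => i.elim0
  vv' := fun i => i.elim0
  dual := fun i => i.elim0

/-- coordinates -/
def Ph (b : HB θ H m) : (Fin n → F) →ₗ[F] (Fin m → F) × (Fin m → F) :=
  LinearMap.prod (LinearMap.pi fun i => dl (b.v i)) (LinearMap.pi fun i => dl (b.v' i))

theorem Ph_surj (b : HB θ H m) : Function.Surjective (Ph b) := by
  intro y
  refine ⟨∑ i, (y.1 i • b.v' i + y.2 i • b.v i), Prod.ext (funext fun j => ?_)
    (funext fun j => ?_)⟩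
  · change (∑ i, (y.1 i • b.v' i + y.2 i • b.v i)) ⬝ᵥ b.v j = y.1 j
    rw [sum_dot, Finset.sum_eq_single j]
    · rw [add_dotProduct, smul_dotProduct, smul_dotProduct, dual', b.vv, if_pos rfl, smul_eq_mul,
        smul_eq_mul, mul_one, mul_zero, add_zero]
    · intro i _ hi
      rw [add_dotProduct, smul_dotProduct, smul_dotProduct, dual', b.vv, if_neg hi, smul_zero,
        smul_zero, add_zero]
    · intro h
      exact absurd (Finset.mem_univ j) h
  · change (∑ i, (y.1 i • b.v' i + y.2 i • b.v i)) ⬝ᵥ b.v' j = y.2 j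
    rw [sum_dot, Finset.sum_eq_single j]
    · rw [add_dotProduct, smul_dotProduct, smul_dotProduct, b.dual, b.vv', if_pos rfl, smul_eq_mul,
        smul_eq_mul, mul_one, mul_zero, zero_add]
    · intro i _ hi
      rw [add_dotProduct, smul_dotProduct, smul_dotProduct, b.dual, b.vv', if_neg hi, smul_zero,
        smul_zero, add_zero]
    · intro h
      exact absurd (Finset.mem_univ j) h

theorem dim_ker (b : HB θ H m) : finrank F (LinearMap.ker (Ph b)) + 2 * m = n := by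
  have h1 := LinearMap.finrank_range_add_finrank_ker (Ph b)
  rw [LinearMap.range_eq_top.2 (Ph_surj b), finrank_top, Module.finrank_prod,
    Module.finrank_fin_fun, Module.finrank_fin_fun] at h1
  omega

theorem mem_ker {b : HB θ H m} {x : Fin n → F} :
    x ∈ LinearMap.ker (Ph b) ↔ (∀ j, x ⬝ᵥ b.v j = 0) ∧ ∀ j, x ⬝ᵥ b.v' j = 0 := by
  rw [LinearMap.mem_ker]
  constructor
  · intro h
    exact ⟨fun j => congrFun (congrArg Prod.fst h) j, fun j => congrFun (congrArg Prod.snd h) j⟩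
  · intro h
    exact Prod.ext (funext h.1) (funext h.2)

theorem mem_wtsp {μ : Dual F H} {x : Fin n → F} :
    x ∈ wtsp H θ.rp μ ↔ ∀ h : H, (θ.t h.1).mulVec x = μ h • x := Iff.rfl

/-- a non-zero vector pairs with a weight vector -/
theorem exists_pair (hD : Diag H θ.rp) {v : Fin n → F} (hv : v ≠ 0) :
    ∃ (ν : Dual F H) (z : Fin n → F), (∀ h : H, (θ.t h.1).mulVec z = ν h • z) ∧ v ⬝ᵥ z ≠ 0 := by
  by_contra hcon
  push Not at hcon
  apply hv
  refine dotProduct_eq_zero v fun w => ?_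
  have hw : w ∈ ⨆ μ : Dual F H, wtsp H θ.rp μ := by
    rw [Diag] at hD
    rw [hD]
    trivial
  refine Submodule.iSup_induction (fun μ : Dual F H => wtsp H θ.rp μ)
    (motive := fun w => v ⬝ᵥ w = 0) hw ?_ ?_ ?_
  · intro ν z hz
    exact hcon ν z hz
  · exact dotProduct_zero v
  · intro x y hx hy
    rw [dotProduct_add, hx, hy, add_zero]

variable [CharZero F]

/-- the weight non-zero case -/
theorem ext_ne (hD : Diag H θ.rp) (b : HB θ H m) {μ : Dual F H} (hμ : μ ≠ 0) {v : Fin n → F}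
    (hv : ∀ h : H, (θ.t h.1).mulVec v = μ h • v) (hv0 : v ≠ 0) (o1 : ∀ j, v ⬝ᵥ b.v j = 0)
    (o2 : ∀ j, v ⬝ᵥ b.v' j = 0) : Nonempty (HB θ H (m + 1)) := by
  obtain ⟨h0, hh0⟩ : ∃ h, μ h ≠ 0 := by
    by_contra hcon
    push Not at hcon
    exact hμ (LinearMap.ext hcon)
  obtain ⟨ν, z, hz, hvz⟩ := exists_pair hD hv0
  have iso : ∀ {κ : Dual F H} {x : Fin n → F}, κ h0 ≠ 0 →
      (∀ h : H, (θ.t h.1).mulVec x = κ h • x) → x ⬝ᵥ x = 0 := by
    intro κ x hκ hx
    have h1 := skew_dot (θ.skew h0.1) x x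
    rw [hx, smul_dotProduct, dotProduct_smul, smul_eq_mul, eq_neg_iff_add_eq_zero, ← two_mul,
      ← mul_assoc] at h1
    exact (mul_eq_zero.1 h1).resolve_left (mul_ne_zero two_ne_zero hκ)
  have hν : ∀ h : H, ν h = -(μ h) := by
    intro h
    have h1 := skew_dot (θ.skew h.1) v z
    rw [hv, hz, smul_dotProduct, dotProduct_smul, smul_eq_mul, smul_eq_mul, ← neg_mul] at h1
    have h2 := mul_right_cancel₀ hvz h1
    rw [h2, neg_neg]
  have hz' : ∀ h : H, (θ.t h.1).mulVec (pj b z) = -(μ h) • pj b z := by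
    intro h
    rw [pj_wt b hz, hν]
  have hv'v' : pj b z ⬝ᵥ pj b z = 0 := by
    refine iso (κ := -μ) ?_ ?_
    · rw [LinearMap.neg_apply]
      exact neg_ne_zero.2 hh0
    · intro h
      rw [hz', LinearMap.neg_apply]
  refine ⟨ext b v ((v ⬝ᵥ z)⁻¹ • pj b z) μ hv ?_ (iso hh0 hv) ?_ ?_ o1 o2 ?_ ?_⟩
  · intro h
    rw [Matrix.mulVec_smul, hz', smul_comm]
  · rw [smul_dotProduct, dotProduct_smul, hv'v', smul_zero, smul_zero]
  · rw [dotProduct_smul, dot_pj b o1 o2, smul_eq_mul, inv_mul_cancel₀ hvz]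
  · intro j
    rw [smul_dotProduct, pj_v, smul_zero]
  · intro j
    rw [smul_dotProduct, pj_v', smul_zero]

/-- the weight zero case -/
theorem ext_zero (b : HB θ H m) (hU : ∀ w, ∀ h : H, (θ.t h.1).mulVec (pj b w) = 0)
    {v : Fin n → F} (hvv : v ⬝ᵥ v = 0) (hv0 : v ≠ 0) (o1 : ∀ j, v ⬝ᵥ b.v j = 0)
    (o2 : ∀ j, v ⬝ᵥ b.v' j = 0) : Nonempty (HB θ H (m + 1)) := by
  have hvp := pj_self b o1 o2
  have hv : ∀ h : H, (θ.t h.1).mulVec v = 0 := by
    intro h
    rw [← hvp]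
    exact hU v h
  obtain ⟨z, hvz⟩ : ∃ z, v ⬝ᵥ z ≠ 0 := by
    by_contra hcon
    push Not at hcon
    exact hv0 (dotProduct_eq_zero v hcon)
  set v1 : Fin n → F := (v ⬝ᵥ z)⁻¹ • pj b z with hv1
  have a1 : ∀ h : H, (θ.t h.1).mulVec v1 = 0 := by
    intro h
    rw [hv1, Matrix.mulVec_smul, hU, smul_zero]
  have a2 : v ⬝ᵥ v1 = 1 := by
    rw [hv1, dotProduct_smul, dot_pj b o1 o2, smul_eq_mul, inv_mul_cancel₀ hvz]
  have a3 : ∀ j, v1 ⬝ᵥ b.v j = 0 := by
    intro j
    rw [hv1, smul_dotProduct, pj_v, smul_zero]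
  have a4 : ∀ j, v1 ⬝ᵥ b.v' j = 0 := by
    intro j
    rw [hv1, smul_dotProduct, pj_v', smul_zero]
  clear_value v1
  set t : F := (1 / 2) * (v1 ⬝ᵥ v1) with ht
  have a5 : v1 ⬝ᵥ v = 1 := (dotProduct_comm _ _).trans a2
  refine ⟨ext b v (v1 - t • v) 0 ?_ ?_ hvv ?_ ?_ o1 o2 ?_ ?_⟩
  · intro h
    rw [hv, LinearMap.zero_apply, zero_smul]
  · intro h
    rw [Matrix.mulVec_sub, Matrix.mulVec_smul, hv, a1, LinearMap.zero_apply, neg_zero, zero_smul,
      smul_zero, sub_zero]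
  · rw [sub_dotProduct, dotProduct_sub, dotProduct_sub, smul_dotProduct, smul_dotProduct,
      dotProduct_smul, dotProduct_smul, hvv, a2, a5]
    simp only [smul_eq_mul]
    rw [ht]
    ring
  · rw [dotProduct_sub, dotProduct_smul, hvv, a2, smul_zero, sub_zero]
  · intro j
    rw [sub_dotProduct, smul_dotProduct, a3, o1, smul_zero, sub_zero]
  · intro j
    rw [sub_dotProduct, smul_dotProduct, a4, o2, smul_zero, sub_zero]

end HypM

open HypM in
theorem specHyp : SpecHyp := by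
  intro F L _ _ _ _ _ _ H n θ hD
  obtain ⟨m, ⟨b⟩, hmax⟩ : ∃ m, Nonempty (HB θ H m) ∧ ¬ Nonempty (HB θ H (m + 1)) := by
    by_contra hcon
    push Not at hcon
    have h1 : ∀ m, Nonempty (HB θ H m) := by
      intro m
      induction m with
      | zero => exact ⟨emp θ H⟩
      | succ m ih => exact hcon m ih
    obtain ⟨b⟩ := h1 (n + 1)
    have h2 := dim_ker b
    omega
  have hdim := dim_ker b
  have hpj : ∀ w, pj b w ∈ LinearMap.ker (Ph b) := fun w =>
    mem_ker.2 ⟨pj_v b w, pj_v' b w⟩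
  have hne : ∀ μ : Dual F H, μ ≠ 0 → ∀ w : Fin n → F,
      (∀ h : H, (θ.t h.1).mulVec w = μ h • w) → pj b w = 0 := by
    intro μ hμ w hw
    by_contra h1
    exact hmax (ext_ne hD b hμ (pj_wt b hw) h1 (pj_v b w) (pj_v' b w))
  have hU : ∀ w, ∀ h : H, (θ.t h.1).mulVec (pj b w) = 0 := by
    intro w
    have hw : w ∈ ⨆ μ : Dual F H, wtsp H θ.rp μ := by
      rw [Diag] at hD
      rw [hD]
      trivial
    refine Submodule.iSup_induction (fun μ : Dual F H => wtsp H θ.rp μ)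
      (motive := fun w => ∀ h : H, (θ.t h.1).mulVec (pj b w) = 0) hw ?_ ?_ ?_
    · intro μ z hz h
      by_cases hμ : μ = 0
      · rw [pj_wt b (mem_wtsp.1 hz), hμ, LinearMap.zero_apply, zero_smul]
      · rw [hne μ hμ z (mem_wtsp.1 hz), Matrix.mulVec_zero]
    · intro h
      rw [map_zero, Matrix.mulVec_zero]
    · intro x y hx hy h
      rw [map_add, Matrix.mulVec_add, hx, hy, add_zero]
  have hiso : ∀ v ∈ LinearMap.ker (Ph b), v ⬝ᵥ v = 0 → v = 0 := by
    intro v hv hvv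
    by_contra hv0
    exact hmax (ext_zero b hU hvv hv0 (mem_ker.1 hv).1 (mem_ker.1 hv).2)
  rcases Nat.lt_trichotomy (finrank F (LinearMap.ker (Ph b))) 1 with h0 | h1 | h2
  · left
    exact ⟨m, by omega, ⟨b⟩⟩
  · right
    refine ⟨m, by omega, ?_⟩
    obtain ⟨x, hx0⟩ : ∃ x : LinearMap.ker (Ph b), x ≠ 0 := by
      have : Nontrivial (LinearMap.ker (Ph b)) := by
        apply Module.nontrivial_of_finrank_pos (R := F)
        omega
      exact exists_ne 0
    have hx1 : x.1 ≠ 0 := fun h => hx0 (Subtype.ext h)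
    have hxx : x.1 ⬝ᵥ x.1 ≠ 0 := fun h => hx1 (hiso _ x.2 h)
    obtain ⟨s, hs⟩ := IsAlgClosed.exists_pow_nat_eq (2 / (x.1 ⬝ᵥ x.1)) (n := 2) (by norm_num)
    have hx2 := mem_ker.1 x.2
    exact ⟨{ b with
      u := s • x.1
      wu := by
        intro h
        rw [Matrix.mulVec_smul, ← pj_self b hx2.1 hx2.2, hU, smul_zero]
      uu := by
        rw [smul_dotProduct, dotProduct_smul, smul_eq_mul, smul_eq_mul, ← mul_assoc, ← pow_two, hs,
          div_mul_cancel₀ _ hxx]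
      uv := by
        intro i
        rw [smul_dotProduct, hx2.1, smul_zero]
      uv' := by
        intro i
        rw [smul_dotProduct, hx2.2, smul_zero] }⟩
  · exfalso
    obtain ⟨x, hx0⟩ : ∃ x : LinearMap.ker (Ph b), x ≠ 0 := by
      have : Nontrivial (LinearMap.ker (Ph b)) := by
        apply Module.nontrivial_of_finrank_pos (R := F)
        omega
      exact exists_ne 0
    have hx1 : x.1 ≠ 0 := fun h => hx0 (Subtype.ext h)
    have hxx : x.1 ⬝ᵥ x.1 ≠ 0 := fun h => hx1 (hiso _ x.2 h)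
    obtain ⟨y, hy⟩ : ∃ y : LinearMap.ker (Ph b), ∀ c : F, c • x ≠ y := by
      by_contra hcon
      push Not at hcon
      have := finrank_le_one x hcon
      omega
    set A := x.1 ⬝ᵥ x.1 with hA
    set B := x.1 ⬝ᵥ y.1 with hB
    set C := y.1 ⬝ᵥ y.1 with hC
    obtain ⟨s, hs⟩ := IsAlgClosed.exists_pow_nat_eq (B ^ 2 - A * C) (n := 2) (by norm_num)
    set t := (-B + s) / A with ht
    have h1 : (t • x + y).1 = 0 := by
      refine hiso _ (t • x + y).2 ?_
      have e1 : (t • x + y).1 = t • x.1 + y.1 := rfl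
      have e2 : y.1 ⬝ᵥ x.1 = B := dotProduct_comm _ _
      rw [e1, add_dotProduct, dotProduct_add, dotProduct_add, smul_dotProduct, smul_dotProduct,
        dotProduct_smul, dotProduct_smul, e2, ← hA, ← hB, ← hC]
      simp only [smul_eq_mul]
      rw [ht]
      field_simp
      linear_combination hs
    have h2 : t • x + y = 0 := Subtype.ext h1
    refine hy (-t) ?_
    rw [eq_neg_of_add_eq_zero_right h2]
    exact neg_smul t x

end Pool.Agent.Lib.MPf11a48.K3
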