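import Pool.Agent.Lib.MP_f11a48_ag.K3.LieDefs

/-!
# Module IWT: highest weights of irreducible representations
-/

set_option autoImplicit false
set_option linter.unusedSectionVars false

namespace Pool.Agent.Lib.MPf11a48.K3

open Module LieAlgebra LieAlgebra.IsKilling

namespace IWTM

attribute [-instance] AddSubgroupClass.sub NegMemClass.neg

section Lie

variable {F L : Type} [Field F] [CharZero F] [IsAlgClosed F] [LieRing L] [LieAlgebra F L]
  [Module.Finite F L] [IsKilling F L] {H : LieSubalgebra F L} [H.IsCartanSubalgebra]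

/-! ### Roots -/

/-- a root as a rational weight -/
theorem root_mem (α : H.root) : (α.1.toLinear : Dual F H) ∈ PW H := by
  intro β
  refine ⟨(LieModule.chainBotCoeff β.1 α.1 - LieModule.chainTopCoeff β.1 α.1 : ℤ), ?_⟩
  have h := apply_coroot_eq_cast β.1 α.1
  simpa using h

/-- the root as an element of `PW H` -/
noncomputable def rt (α : H.root) : PW H := ⟨α.1.toLinear, root_mem α⟩

theorem rt_mem (α : H.root) : rt α ∈ (rdat H).R := ⟨α, rfl⟩

theorem mem_R {a : PW H} (ha : a ∈ (rdat H).R) : ∃ α : H.root, a = rt α := by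
  obtain ⟨α, hα⟩ := ha
  exact ⟨α, Subtype.ext hα.symm⟩

theorem rt_inj {α β : H.root} (h : rt α = rt β) : α = β := by
  have h1 : (α.1.toLinear : Dual F H) = β.1.toLinear := congrArg Subtype.val h
  refine Subtype.ext (DFunLike.ext _ _ fun x => ?_)
  exact congrArg (fun l : Dual F H => l x) h1

theorem rt_ne_zero (α : H.root) : rt α ≠ 0 := by
  intro h
  have h1 : (α.1.toLinear : Dual F H) = 0 := congrArg Subtype.val h
  have h2 := root_apply_coroot (LieSubalgebra.isNonZero_coe_root α)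
  have h3 : (α.1.toLinear : Dual F H) (coroot α.1) = 0 := by rw [h1]; rfl
  have h4 : α.1 (coroot α.1) = 0 := h3
  rw [h4] at h2
  exact two_ne_zero h2.symm

/-- the negative of a root -/
theorem exists_neg (α : H.root) : ∃ β : H.root, rt β = -rt α := by
  have h := (LieSubalgebra.isNonZero_coe_root α).neg
  refine ⟨⟨-α.1, by simpa using h⟩, Subtype.ext ?_⟩
  change ((-α.1 : LieModule.Weight F H L).toLinear : Dual F H) = -(α.1.toLinear)
  exact LieModule.Weight.toLinear_neg

/-- the Lie algebra is spanned by the Cartan subalgebra and the root spaces -/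
theorem top_of {W : Submodule F L} (hH : ∀ h : H, (h : L) ∈ W)
    (hW : ∀ α : H.root, ∀ y ∈ rootSpace H α.1, y ∈ W) (x : L) : x ∈ W := by
  have h1 : (⨆ χ : LieModule.Weight F H L, (LieModule.genWeightSpace L χ).toSubmodule) = ⊤ := by
    have := LieModule.iSup_genWeightSpace_eq_top' F H L
    rw [← LieSubmodule.toSubmodule_inj, LieSubmodule.iSup_toSubmodule,
      LieSubmodule.top_toSubmodule] at this
    exact this
  have h2 : (⨆ χ : LieModule.Weight F H L, (LieModule.genWeightSpace L χ).toSubmodule) ≤ W := by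
    refine iSup_le fun χ => ?_
    by_cases hχ : χ.IsZero
    · intro y hy
      have hy' : y ∈ rootSpace H (0 : H → F) := by
        have e : (χ : H → F) = 0 := hχ
        have : y ∈ LieModule.genWeightSpace L (χ : H → F) := hy
        rwa [e] at this
      have hz : y ∈ H := by
        have := LieAlgebra.rootSpace_zero_eq F L H
        rw [this] at hy'
        exact hy'
      exact hH ⟨y, hz⟩
    · intro y hy
      exact hW ⟨χ, by simpa using hχ⟩ y hy
  rw [h1] at h2
  exact h2 Submodule.mem_top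

/-- a root space is spanned by any non-zero vector -/
theorem span_root (α : H.root) {y z : L} (hy : y ∈ rootSpace H α.1) (hz : z ∈ rootSpace H α.1)
    (hy0 : y ≠ 0) : ∃ c : F, z = c • y := by
  have h1 := finrank_rootSpace_eq_one α.1 (LieSubalgebra.isNonZero_coe_root α)
  have h2 := (finrank_eq_one_iff_of_nonzero' (⟨y, hy⟩ : rootSpace H α.1)
    (fun h => hy0 (congrArg Subtype.val h))).1 h1 ⟨z, hz⟩
  obtain ⟨c, hc⟩ := h2
  exact ⟨c, (congrArg Subtype.val hc).symm⟩

theorem lie_root (α : H.root) {y : L} (hy : y ∈ rootSpace H α.1) (h : H) :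
    ⁅(h : L), y⁆ = α.1 h • y := lie_eq_smul_of_mem_rootSpace hy h

/-- brackets of root vectors are not zero if the sum is a root -/
theorem lie_ne_zero {α β γ : H.root} (h : rt α = rt β + rt γ) {y z : L}
    (hy : y ∈ rootSpace H β.1) (hz : z ∈ rootSpace H γ.1) (hy0 : y ≠ 0) (hz0 : z ≠ 0) :
    ⁅y, z⁆ ≠ 0 := by
  intro hyz
  have hval : ∀ x : H, α.1 x = β.1 x + γ.1 x := fun x =>
    congrArg (fun l : PW H => l.1 x) h
  have hβ0 := LieSubalgebra.isNonZero_coe_root β
  obtain ⟨h0, e, f, ht, he, hf⟩ := exists_isSl2Triple_of_weight_isNonZero hβ0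
  have hcor := ht.h_eq_coroot hβ0 he hf
  -- `e` is proportional to `y`
  have hez : ⁅e, z⁆ = 0 := by
    obtain ⟨c, hc⟩ := span_root β hy he hy0
    rw [hc, smul_lie, hyz, smul_zero]
  have P : ht.HasPrimitiveVectorWith z (γ.1 (coroot β.1)) :=
    { ne_zero := hz0
      lie_h := by rw [hcor]; exact lie_root γ hz (coroot β.1)
      lie_e := hez }
  obtain ⟨n, hn⟩ := P.exists_nat
  obtain ⟨w, hw, hw0⟩ := α.1.exists_ne_zero
  have hw : w ∈ rootSpace H α.1 := hw
  -- `[f, w]` is proportional to `z`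
  have hfw : ⁅e, ⁅f, w⁆⁆ = 0 := by
    have h1 : ⁅f, w⁆ ∈ rootSpace H γ.1 := by
      have h2 : ⁅f, w⁆ ∈ rootSpace H (-(β.1 : H → F) + (α.1 : H → F)) :=
        LieAlgebra.lie_mem_genWeightSpace_of_mem_genWeightSpace hf hw
      have h3 : (-(β.1 : H → F) + (α.1 : H → F)) = (γ.1 : H → F) := by
        funext x
        simp only [Pi.add_apply, Pi.neg_apply]
        rw [hval x]
        ring
      rwa [h3] at h2
    obtain ⟨c, hc⟩ := span_root γ hz h1 hz0
    rw [hc, lie_smul, hez, smul_zero]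
  have hhw : ⁅h0, w⁆ = ((n : F) + 2) • w := by
    rw [hcor]
    have h1 := lie_root α hw (coroot β.1)
    rw [h1, hval, root_apply_coroot hβ0, hn, add_comm]
  obtain ⟨E, hE⟩ : ∃ E : Module.End F L, E = ad F L e := ⟨_, rfl⟩
  have hEx : ∀ v, E v = ⁅e, v⁆ := fun v => by rw [hE]; rfl
  -- weights of `E^k w`
  have hh : ∀ k : ℕ, ⁅h0, (E ^ k) w⁆ = ((n : F) + 2 + 2 * k) • (E ^ k) w := by
    intro k
    induction k with
    | zero => simpa using hhw
    | succ k ih =>
      rw [pow_succ', Module.End.mul_apply, hEx, leibniz_lie h0, ht.lie_h_e_smul F, ih, lie_smul,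
        smul_lie, ← add_smul]
      congr 1
      push_cast
      ring
  have hkey : ∀ k : ℕ, ⁅f, (E ^ (k + 1)) w⁆ =
      (-((k : F) + 1) * ((n : F) + 2 + k)) • (E ^ k) w := by
    intro k
    induction k with
    | zero =>
      rw [zero_add, pow_one, pow_zero, hEx, leibniz_lie f, ← lie_skew f e, ht.lie_e_f, hfw, neg_lie, hhw,
        add_zero, Module.End.one_apply, ← neg_smul]
      congr 1
      push_cast
      ring
    | succ k ih =>
      have h1 := hh (k + 1)
      rw [pow_succ' E (k + 1), Module.End.mul_apply, hEx, leibniz_lie f, ← lie_skew f e, ht.lie_e_f,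
        neg_lie, h1, ih, lie_smul, ← hEx, ← Module.End.mul_apply, ← pow_succ', ← neg_smul,
        ← add_smul]
      congr 1
      push_cast
      ring
  have hnil : ∃ k, (E ^ k) w = 0 := by
    obtain ⟨k, hk⟩ := LieAlgebra.isNilpotent_ad_of_mem_rootSpace H (by
      intro h1
      exact hβ0 h1) he
    refine ⟨k, ?_⟩
    rw [hE, hk]
    rfl
  classical
  have hmin := Nat.find_spec hnil
  rcases Nat.eq_zero_or_eq_succ_pred (Nat.find hnil) with hk | hk
  · rw [hk, pow_zero] at hmin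
    exact hw0 hmin
  · rw [hk] at hmin
    have h1 := hkey (Nat.find hnil).pred
    rw [hmin, lie_zero] at h1
    rcases smul_eq_zero.1 h1.symm with h2 | h2
    · have h3 : (-(((Nat.find hnil).pred : F) + 1) * ((n : F) + 2 + ((Nat.find hnil).pred : F))) =
          -((((Nat.find hnil).pred + 1) * (n + 2 + (Nat.find hnil).pred) : ℕ) : F) := by
        push_cast
        ring
      rw [h3, neg_eq_zero, Nat.cast_eq_zero] at h2
      have : 0 < ((Nat.find hnil).pred + 1) * (n + 2 + (Nat.find hnil).pred) := by positivity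
      omega
    · exact Nat.find_min hnil (by
        have := hk
        omega) h2

end Lie

/-! ### Weight spaces of a representation -/

section Rep

variable {F L : Type} [Field F] [CharZero F] [IsAlgClosed F] [LieRing L] [LieAlgebra F L]
  [Module.Finite F L] [IsKilling F L] {H : LieSubalgebra F L} [H.IsCartanSubalgebra]
  {M : Type} [AddCommGroup M] [Module F M] (ρ : Rp F L M)

theorem act_wt (α : H.root) {y : L} (hy : y ∈ rootSpace H α.1) {μ : Dual F H} {v : M}
    (hv : v ∈ wtsp H ρ μ) : ρ.r y v ∈ wtsp H ρ (μ + α.1.toLinear) := by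
  intro h
  have h1 := ρ.lie (h : L) y v
  rw [lie_root α hy h, map_smul, LinearMap.smul_apply, hv h, map_smul] at h1
  have h2 : ρ.r h.1 (ρ.r y v) = α.1 h • ρ.r y v + μ h • ρ.r y v := (sub_eq_iff_eq_add.1 h1.symm)
  rw [h2, LinearMap.add_apply, add_smul, add_comm]
  rfl

/-- the same, for elements of `PW H` -/
theorem act_wt' (α : H.root) {y : L} (hy : y ∈ rootSpace H α.1) {μ ν : PW H}
    (h : ν = μ + rt α) {v : M} (hv : v ∈ wtsp H ρ μ.1) : ρ.r y v ∈ wtsp H ρ ν.1 := by
  rw [h]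
  exact act_wt ρ α hy hv

theorem commute_cartan (h h' : H) : Commute (ρ.r h.1 : Module.End F M) (ρ.r h'.1) := by
  refine LinearMap.ext fun v => ?_
  have h1 := ρ.lie (h : L) h' v
  have h2 : ⁅(h : L), (h' : L)⁆ = 0 := by
    rw [← LieSubalgebra.coe_bracket, trivial_lie_zero]
    rfl
  rw [h2, map_zero, LinearMap.zero_apply] at h1
  exact sub_eq_zero.1 h1.symm

theorem indep (H : LieSubalgebra F L) [H.IsCartanSubalgebra] :
    iSupIndep (fun μ : Dual F H => wtsp H ρ μ) := by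
  have h1 := Module.End.independent_iInf_maxGenEigenspace_of_forall_mapsTo
    (fun h : H => (ρ.r h.1 : Module.End F M))
    (fun i j φ => Module.End.mapsTo_maxGenEigenspace_of_comm (commute_cartan ρ j i) φ)
  have h2 := h1.comp (f := fun μ : Dual F H => (fun h => μ h)) (fun μ ν h =>
    LinearMap.ext fun x => congrFun h x)
  refine h2.mono fun μ => ?_
  refine le_iInf fun h v hv => ?_
  rw [Module.End.mem_maxGenEigenspace]
  refine ⟨1, ?_⟩
  rw [pow_one, LinearMap.sub_apply, hv h]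
  simp

theorem isCompl (hd : Diag H ρ) (ν : Dual F H) :
    IsCompl (wtsp H ρ ν) (⨆ μ, ⨆ (_ : μ ≠ ν), wtsp H ρ μ) := by
  refine ⟨indep ρ H ν, codisjoint_iff_le_sup.2 ?_⟩
  rw [← hd]
  refine iSup_le fun μ => ?_
  by_cases h : μ = ν
  · rw [h]
    exact le_sup_left
  · exact le_sup_of_le_right (le_iSup₂_of_le μ h le_rfl)

/-- projection to a weight space -/
noncomputable def pj (hd : Diag H ρ) (ν : Dual F H) : M →ₗ[F] M :=
  (wtsp H ρ ν).projection _ (isCompl ρ hd ν)

variable {ρ}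

theorem pj_same (hd : Diag H ρ) {ν : Dual F H} {v : M} (hv : v ∈ wtsp H ρ ν) :
    pj ρ hd ν v = v := Submodule.projection_apply_of_mem_left _ hv

theorem pj_ne (hd : Diag H ρ) {μ ν : Dual F H} (h : μ ≠ ν) {v : M} (hv : v ∈ wtsp H ρ μ) :
    pj ρ hd ν v = 0 :=
  Submodule.projection_apply_of_mem_right _
    ((le_iSup₂_of_le (f := fun μ (_ : μ ≠ ν) => wtsp H ρ μ) μ h le_rfl) hv)

theorem pj_mem (hd : Diag H ρ) (ν : Dual F H) (v : M) : pj ρ hd ν v ∈ wtsp H ρ ν :=
  Submodule.projection_apply_mem _ _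

theorem ext_of {N : Type} [AddCommGroup N] [Module F N] (hd : Diag H ρ) {f g : M →ₗ[F] N}
    (h : ∀ μ, ∀ v ∈ wtsp H ρ μ, f v = g v) : f = g := by
  have h1 : (⨆ μ, wtsp H ρ μ) ≤ LinearMap.eqLocus f g := iSup_le fun μ v hv => h μ v hv
  have h2 : (⊤ : Submodule F M) ≤ LinearMap.eqLocus f g := by rwa [hd] at h1
  exact LinearMap.ext fun v => h2 Submodule.mem_top

theorem pj_act (hd : Diag H ρ) (α : H.root) {y : L} (hy : y ∈ rootSpace H α.1)
    (μ : Dual F H) (v : M) : pj ρ hd (μ + α.1.toLinear) (ρ.r y v) = ρ.r y (pj ρ hd μ v) := by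
  have : pj ρ hd (μ + α.1.toLinear) ∘ₗ ρ.r y = ρ.r y ∘ₗ pj ρ hd μ := by
    refine ext_of hd fun κ w hw => ?_
    rw [LinearMap.comp_apply, LinearMap.comp_apply]
    have h1 := act_wt ρ α hy hw
    by_cases h : κ = μ
    · subst h
      rw [pj_same hd h1, pj_same hd hw]
    · rw [pj_ne hd (fun h2 => h (add_right_cancel h2)) h1, pj_ne hd h hw, map_zero]
  exact congrArg (fun l => l v) this

/-! ### Highest weight vectors -/

/-- `S` is stable under the root vectors of the roots which are negative for `x` -/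
def NSt (ρ : Rp F L M) (x : PW H →ₗ[ℚ] ℚ) (S : Submodule F M) : Prop :=
  ∀ α : H.root, x (rt α) < 0 → ∀ y ∈ rootSpace H α.1, ∀ w ∈ S, ρ.r y w ∈ S

/-- a subspace which contains a highest weight vector and is stable under the negative root
vectors is everything -/
theorem gen (hirr : IrrRep ρ) {x : PW H →ₗ[ℚ] ℚ} (hx : Reg (rdat H) x) {ν : PW H} {u : M}
    (hu : u ∈ wtsp H ρ ν.1) (hu0 : u ≠ 0)
    (htop : ∀ α : H.root, 0 < x (rt α) → ∀ y ∈ rootSpace H α.1, ρ.r y u = 0)
    {S : Submodule F M} (huS : u ∈ S) (hS : NSt ρ x S) : S = ⊤ := by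
  obtain ⟨N, hN⟩ : ∃ N : Submodule F M, N = sInf {S | u ∈ S ∧ NSt ρ x S} := ⟨_, rfl⟩
  have hmin : ∀ T : Submodule F M, u ∈ T → NSt ρ x T → N ≤ T := fun T h1 h2 => by
    rw [hN]
    exact sInf_le ⟨h1, h2⟩
  have huN : u ∈ N := by
    rw [hN, Submodule.mem_sInf]
    exact fun T hT => hT.1
  have hNs : NSt ρ x N := by
    intro α hα y hy w hw
    rw [hN, Submodule.mem_sInf] at hw ⊢
    exact fun T hT => hT.2 α hα y hy w (hw T hT)
  -- stable under the Cartan subalgebra
  have hNH : ∀ w ∈ N, ∀ h : H, ρ.r h.1 w ∈ N := by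
    obtain ⟨T, hT⟩ : ∃ T : Submodule F M, ∀ w, w ∈ T ↔ w ∈ N ∧ ∀ h : H, ρ.r h.1 w ∈ N :=
      ⟨{ carrier := {w | w ∈ N ∧ ∀ h : H, ρ.r h.1 w ∈ N}
         add_mem' := fun ha hb => ⟨N.add_mem ha.1 hb.1, fun h => by
           rw [map_add]; exact N.add_mem (ha.2 h) (hb.2 h)⟩
         zero_mem' := ⟨N.zero_mem, fun h => by rw [map_zero]; exact N.zero_mem⟩
         smul_mem' := fun c a ha => ⟨N.smul_mem c ha.1, fun h => by
           rw [map_smul]; exact N.smul_mem c (ha.2 h)⟩ }, fun w => Iff.rfl⟩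
    have h1 : N ≤ T := by
      refine hmin T ((hT u).2 ⟨huN, fun h => ?_⟩) fun α hα y hy w hw => ?_
      · rw [hu h]
        exact N.smul_mem _ huN
      · obtain ⟨hw1, hw2⟩ := (hT w).1 hw
        refine (hT _).2 ⟨hNs α hα y hy w hw1, fun h => ?_⟩
        have h1 := ρ.lie (h : L) y w
        rw [lie_root α hy h, map_smul, LinearMap.smul_apply] at h1
        rw [sub_eq_iff_eq_add.1 h1.symm]
        exact N.add_mem (N.smul_mem _ (hNs α hα y hy w hw1)) (hNs α hα y hy _ (hw2 h))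
    exact fun w hw => ((hT w).1 (h1 hw)).2
  -- stable under the positive root vectors
  have hNP : ∀ w ∈ N, ∀ α : H.root, 0 < x (rt α) → ∀ y ∈ rootSpace H α.1, ρ.r y w ∈ N := by
    obtain ⟨T, hT⟩ : ∃ T : Submodule F M, ∀ w, w ∈ T ↔ w ∈ N ∧
        ∀ α : H.root, 0 < x (rt α) → ∀ y ∈ rootSpace H α.1, ρ.r y w ∈ N :=
      ⟨{ carrier := {w | w ∈ N ∧
            ∀ α : H.root, 0 < x (rt α) → ∀ y ∈ rootSpace H α.1, ρ.r y w ∈ N}
         add_mem' := fun ha hb => ⟨N.add_mem ha.1 hb.1, fun α hα y hy => by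
           rw [map_add]; exact N.add_mem (ha.2 α hα y hy) (hb.2 α hα y hy)⟩
         zero_mem' := ⟨N.zero_mem, fun α hα y hy => by rw [map_zero]; exact N.zero_mem⟩
         smul_mem' := fun c a ha => ⟨N.smul_mem c ha.1, fun α hα y hy => by
           rw [map_smul]; exact N.smul_mem c (ha.2 α hα y hy)⟩ }, fun w => Iff.rfl⟩
    have h1 : N ≤ T := by
      refine hmin T ((hT u).2 ⟨huN, fun α hα y hy => ?_⟩) fun α hα y hy w hw => ?_
      · rw [htop α hα y hy]
        exact N.zero_mem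
      · obtain ⟨hw1, hw2⟩ := (hT w).1 hw
        have hall : ∀ z : L, ρ.r z w ∈ N := by
          intro z
          refine top_of (H := H) (W := N.comap (ρ.r.flip w)) (fun h => ?_) (fun γ y' hy' => ?_) z
          · exact hNH w hw1 h
          · rcases lt_trichotomy (x (rt γ)) 0 with h | h | h
            · exact hNs γ h y' hy' w hw1
            · exact absurd h (hx _ (rt_mem γ))
            · exact hw2 γ h y' hy'
        refine (hT _).2 ⟨hNs α hα y hy w hw1, fun β hβ e he => ?_⟩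
        have h1 := ρ.lie e y w
        rw [sub_eq_iff_eq_add.1 h1.symm]
        exact N.add_mem (hall _) (hNs α hα y hy _ (hw2 β hβ e he))
    exact fun w hw => ((hT w).1 (h1 hw)).2
  have hNL : ∀ z, ∀ w ∈ N, ρ.r z w ∈ N := by
    intro z w hw
    refine top_of (H := H) (W := N.comap (ρ.r.flip w)) (fun h => ?_) (fun γ y' hy' => ?_) z
    · exact hNH w hw h
    · rcases lt_trichotomy (x (rt γ)) 0 with h | h | h
      · exact hNs γ h y' hy' w hw
      · exact absurd h (hx _ (rt_mem γ))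
      · exact hNP w hw γ h y' hy'
  rcases hirr.2 N hNL with h | h
  · rw [h, Submodule.mem_bot] at huN
    exact absurd huN hu0
  · have := hmin S huS hS
    rw [h] at this
    exact top_le_iff.1 this

/-- the highest weight space is a line and all other weights are lower -/
theorem top_line (hirr : IrrRep ρ) (hd : Diag H ρ) {x : PW H →ₗ[ℚ] ℚ} (hx : Reg (rdat H) x)
    {ν : PW H} {u : M} (hu : u ∈ wtsp H ρ ν.1) (hu0 : u ≠ 0)
    (htop : ∀ α : H.root, 0 < x (rt α) → ∀ y ∈ rootSpace H α.1, ρ.r y u = 0) :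
    wtsp H ρ ν.1 = Submodule.span F {u} ∧
      ∀ μ : PW H, wtsp H ρ μ.1 ≠ ⊥ → μ ≠ ν → x μ < x ν := by
  obtain ⟨S, hS⟩ : ∃ S : Submodule F M, S = Submodule.span F {u} ⊔
      ⨆ (μ : PW H), ⨆ (_ : x μ < x ν), wtsp H ρ μ.1 := ⟨_, rfl⟩
  have huS : u ∈ S := by
    rw [hS]
    exact Submodule.mem_sup_left (Submodule.mem_span_singleton_self u)
  have hmS : ∀ μ : PW H, x μ < x ν → ∀ v ∈ wtsp H ρ μ.1, v ∈ S := by
    intro μ hμ v hv
    rw [hS]
    exact Submodule.mem_sup_right
      ((le_iSup₂_of_le (f := fun (μ : PW H) (_ : x μ < x ν) => wtsp H ρ μ.1) μ hμ le_rfl) hv)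
  have hst : NSt ρ x S := by
    intro α hα y hy
    have h1 : S ≤ S.comap (ρ.r y) := by
      conv_lhs => rw [hS]
      refine sup_le ?_ (iSup₂_le fun μ hμ v hv => ?_)
      · rw [Submodule.span_singleton_le_iff_mem]
        refine hmS (ν + rt α) ?_ _ (act_wt' ρ α hy rfl hu)
        rw [map_add]
        linarith
      · refine hmS (μ + rt α) ?_ _ (act_wt' ρ α hy rfl hv)
        rw [map_add]
        linarith
    exact fun w hw => h1 hw
  have htopS : S = ⊤ := gen hirr hx hu hu0 htop huS hst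
  constructor
  · refine le_antisymm (fun v hv => ?_) ?_
    · have h1 : S ≤ (Submodule.span F {u}).comap (pj ρ hd ν.1) := by
        conv_lhs => rw [hS]
        refine sup_le ?_ (iSup₂_le fun μ hμ w hw => ?_)
        · rw [Submodule.span_singleton_le_iff_mem, Submodule.mem_comap, pj_same hd hu]
          exact Submodule.mem_span_singleton_self u
        · rw [Submodule.mem_comap, pj_ne hd (fun h => ?_) hw]
          · exact Submodule.zero_mem _
          · have : μ = ν := Subtype.ext h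
            rw [this] at hμ
            exact lt_irrefl _ hμ
      rw [htopS] at h1
      have h2 := h1 (Submodule.mem_top (x := v))
      rwa [Submodule.mem_comap, pj_same hd hv] at h2
    · rw [Submodule.span_singleton_le_iff_mem]
      exact hu
  · intro κ hκ hκν
    by_contra hcon
    refine hκ ((Submodule.eq_bot_iff _).2 fun v hv => ?_)
    have h1 : S ≤ LinearMap.ker (pj ρ hd κ.1) := by
      conv_lhs => rw [hS]
      refine sup_le ?_ (iSup₂_le fun μ hμ w hw => ?_)
      · rw [Submodule.span_singleton_le_iff_mem, LinearMap.mem_ker]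
        exact pj_ne hd (fun h => hκν (Subtype.ext h).symm) hu
      · rw [LinearMap.mem_ker]
        refine pj_ne hd (fun h => ?_) hw
        have : μ = κ := Subtype.ext h
        rw [this] at hμ
        exact hcon hμ
    rw [htopS] at h1
    have h2 := h1 (Submodule.mem_top (x := v))
    rwa [LinearMap.mem_ker, pj_same hd hv] at h2

/-- `g_α M_μ` -/
noncomputable def G (ρ : Rp F L M) (α : H.root) (μ : PW H) : Submodule F M :=
  ⨆ y : rootSpace H α.1, (wtsp H ρ μ.1).map (ρ.r y.1)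

theorem mem_G {α : H.root} {μ : PW H} {y : L} (hy : y ∈ rootSpace H α.1) {w : M}
    (hw : w ∈ wtsp H ρ μ.1) : ρ.r y w ∈ G ρ α μ :=
  (le_iSup (fun y : rootSpace H α.1 => (wtsp H ρ μ.1).map (ρ.r y.1)) ⟨y, hy⟩)
    (Submodule.mem_map_of_mem hw)

theorem G_le {α : H.root} {μ : PW H} {S : Submodule F M}
    (h : ∀ y ∈ rootSpace H α.1, ∀ w ∈ wtsp H ρ μ.1, ρ.r y w ∈ S) : G ρ α μ ≤ S := by
  refine iSup_le fun y => ?_
  rw [Submodule.map_le_iff_le_comap]
  exact fun w hw => h y.1 y.2 w hw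

/-- a weight space which is not the highest one is generated from above -/
theorem wt_le (hirr : IrrRep ρ) (hd : Diag H ρ) {x : PW H →ₗ[ℚ] ℚ} (hx : Reg (rdat H) x)
    {ν : PW H} {u : M} (hu : u ∈ wtsp H ρ ν.1) (hu0 : u ≠ 0)
    (htop : ∀ α : H.root, 0 < x (rt α) → ∀ y ∈ rootSpace H α.1, ρ.r y u = 0)
    {κ : PW H} (hκ : κ ≠ ν) :
    wtsp H ρ κ.1 ≤ ⨆ (α : H.root), ⨆ (_ : x (rt α) < 0), G ρ α (κ - rt α) := by
  obtain ⟨T, hT⟩ : ∃ T : Submodule F M,
    T = ⨆ (α : H.root), ⨆ (_ : x (rt α) < 0), G ρ α (κ - rt α) := ⟨_, rfl⟩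
  obtain ⟨S, hS⟩ : ∃ S : Submodule F M, S = Submodule.span F {u} ⊔
      ⨆ (α : H.root), ⨆ (_ : x (rt α) < 0), ⨆ (y : rootSpace H α.1),
        LinearMap.range (ρ.r y.1) := ⟨_, rfl⟩
  rw [← hT]
  have huS : u ∈ S := by
    rw [hS]
    exact Submodule.mem_sup_left (Submodule.mem_span_singleton_self u)
  have hst : NSt ρ x S := by
    intro α hα y hy w _
    rw [hS]
    refine Submodule.mem_sup_right ?_
    have h1 : LinearMap.range (ρ.r y) ≤ ⨆ (α : H.root), ⨆ (_ : x (rt α) < 0),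
        ⨆ (y : rootSpace H α.1), LinearMap.range (ρ.r y.1) :=
      le_iSup₂_of_le α hα (le_iSup (fun y : rootSpace H α.1 => LinearMap.range (ρ.r y.1)) ⟨y, hy⟩)
    exact h1 ⟨w, rfl⟩
  have htopS : S = ⊤ := gen hirr hx hu hu0 htop huS hst
  have h1 : S ≤ T.comap (pj ρ hd κ.1) := by
    conv_lhs => rw [hS]
    refine sup_le ?_ (iSup₂_le fun α hα => iSup_le fun y => ?_)
    · rw [Submodule.span_singleton_le_iff_mem, Submodule.mem_comap,
        pj_ne hd (fun h => hκ (Subtype.ext h).symm) hu]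
      exact Submodule.zero_mem _
    · rintro _ ⟨w, rfl⟩
      rw [Submodule.mem_comap]
      have h2 := pj_act hd α y.2 (κ - rt α).1 w
      have h3 : (κ - rt α).1 + α.1.toLinear = κ.1 := by
        have h4 : (κ - rt α).1 = κ.1 - α.1.toLinear := rfl
        rw [h4, sub_add_cancel]
      rw [h3] at h2
      rw [h2, hT]
      exact (le_iSup₂_of_le (f := fun (α : H.root) (_ : x (rt α) < 0) => G ρ α (κ - rt α))
        α hα le_rfl) (mem_G y.2 (pj_mem hd _ w))
  rw [htopS] at h1
  intro v hv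
  have h2 := h1 (Submodule.mem_top (x := v))
  rwa [Submodule.mem_comap, pj_same hd hv] at h2

variable [Module.Finite F M]

theorem mu_eq_zero {μ : PW H} : mu H ρ μ = 0 ↔ wtsp H ρ μ.1 = ⊥ := Submodule.finrank_eq_zero

theorem pr_rt (α : H.root) (μ : PW H) : (rdat H).pr (rt α) μ = val α μ := by
  classical
  have h : ∃ β : H.root, (β.1.toLinear : Dual F H) = (rt α).1 := ⟨α, rfl⟩
  have h1 : (rdat H).pr (rt α) = val h.choose := dif_pos h
  have h2 : h.choose = α := by
    refine rt_inj (Subtype.ext ?_)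
    exact h.choose_spec
  rw [h1, h2]

/-- a highest weight exists -/
theorem exists_top (hW : Wt (rdat H) (mu H ρ)) (x : PW H →ₗ[ℚ] ℚ) {μ : PW H} (hμ : mu H ρ μ ≠ 0) :
    ∃ ν : PW H, mu H ρ ν ≠ 0 ∧ x μ ≤ x ν ∧
      ∀ α : H.root, 0 < x (rt α) → mu H ρ (ν + rt α) = 0 := by
  obtain ⟨ν, hν, h1⟩ := Set.exists_max_image {μ | mu H ρ μ ≠ 0} x hW.fin ⟨μ, hμ⟩
  refine ⟨ν, hν, h1 μ hμ, fun α hα => ?_⟩
  by_contra h
  have h2 := h1 _ h
  rw [map_add] at h2
  linarith

/-- `sb` -/
theorem sb_aux (hirr : IrrRep ρ) (hd : Diag H ρ) (hW : Wt (rdat H) (mu H ρ))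
    {x : PW H →ₗ[ℚ] ℚ} (hx : Reg (rdat H) x) {κ : PW H}
    (hκ : ∃ ν', mu H ρ ν' ≠ 0 ∧ x κ < x ν') (β : H.root) (hβ : 0 < x (rt β))
    (hyp : ∀ α ∈ (rdat H).R, 0 < x α → α ≠ rt β → mu H ρ (κ + α) ≠ 0 →
      α - rt β ∈ (rdat H).R ∧ (0 < x (α - rt β) ∨ mu H ρ (κ + α - rt β) = 0)) :
    mu H ρ κ ≤ mu H ρ (κ + rt β) := by
  obtain ⟨ν', hν', hlt⟩ := hκ
  obtain ⟨ν, hν, hle, htop⟩ := exists_top hW x hν'
  have hκν : κ ≠ ν := by
    intro h
    rw [h] at hlt
    exact absurd hlt (not_lt.2 hle)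
  have hne : wtsp H ρ ν.1 ≠ ⊥ := fun h => hν (mu_eq_zero.2 h)
  obtain ⟨u, hu, hu0⟩ := Submodule.exists_mem_ne_zero_of_ne_bot hne
  have htop' : ∀ α : H.root, 0 < x (rt α) → ∀ y ∈ rootSpace H α.1, ρ.r y u = 0 := by
    intro α hα y hy
    have h1 := act_wt' ρ α hy (rfl : ν + rt α = ν + rt α) hu
    rw [mu_eq_zero.1 (htop α hα)] at h1
    exact (Submodule.mem_bot F).1 h1
  have h1 := wt_le hirr hd hx hu hu0 htop' hκν
  obtain ⟨b, hb⟩ := exists_neg β
  -- all the ways are deformed to `β`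
  have key : ∀ δ : H.root, x (rt δ) < 0 → G ρ δ (κ - rt δ) ≤ G ρ b (κ - rt b) := by
    by_contra hcon
    push Not at hcon
    obtain ⟨δ, hδ, hmax⟩ := Set.exists_max_image
      {δ : H.root | x (rt δ) < 0 ∧ ¬ G ρ δ (κ - rt δ) ≤ G ρ b (κ - rt b)}
      (fun δ => x (rt δ)) (Set.toFinite _) hcon
    obtain ⟨hδ1, hδ2⟩ := hδ
    obtain ⟨a, ha⟩ := exists_neg δ
    have hxa : 0 < x (rt a) := by
      rw [ha, map_neg]
      linarith
    have haβ : rt a ≠ rt β := by
      intro h
      apply hδ2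
      have : rt δ = rt b := by
        rw [hb, ← h, ha]
        abel
      rw [rt_inj this]
    have hda : mu H ρ (κ + rt a) ≠ 0 := by
      intro h
      apply hδ2
      refine G_le fun y hy w hw => ?_
      have h2 : κ - rt δ = κ + rt a := by
        rw [ha, sub_eq_add_neg]
      rw [h2, mu_eq_zero.1 h] at hw
      rw [(Submodule.mem_bot F).1 hw, map_zero]
      exact Submodule.zero_mem _
    obtain ⟨hR, hor⟩ := hyp (rt a) (rt_mem a) hxa haβ hda
    obtain ⟨g', hg'⟩ := mem_R hR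
    obtain ⟨g, hg⟩ := exists_neg g'
    have hsum : rt δ = rt b + rt g := by
      rw [hb, hg, ← hg', ha]
      abel
    obtain ⟨eb, heb, heb0⟩ := b.1.exists_ne_zero
    obtain ⟨eg, heg, heg0⟩ := g.1.exists_ne_zero
    have heb : eb ∈ rootSpace H b.1 := heb
    have heg : eg ∈ rootSpace H g.1 := heg
    have hbr := lie_ne_zero hsum heb heg heb0 heg0
    have hbrm : ⁅eb, eg⁆ ∈ rootSpace H δ.1 := by
      have h2 : ⁅eb, eg⁆ ∈ rootSpace H ((b.1 : H → F) + (g.1 : H → F)) :=
        LieAlgebra.lie_mem_genWeightSpace_of_mem_genWeightSpace heb heg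
      have h3 : ((b.1 : H → F) + (g.1 : H → F)) = (δ.1 : H → F) := by
        funext t
        exact (congrArg (fun l : PW H => l.1 t) hsum).symm
      rwa [h3] at h2
    apply hδ2
    refine G_le fun y hy w hw => ?_
    obtain ⟨c, hc⟩ := span_root δ hbrm hy hbr
    rw [hc, map_smul, LinearMap.smul_apply, ρ.lie]
    refine Submodule.smul_mem _ _ (Submodule.sub_mem _ ?_ ?_)
    · refine mem_G heb ?_
      refine act_wt' ρ g heg ?_ hw
      rw [hsum]
      abel
    · have hm : ρ.r eb w ∈ wtsp H ρ (κ - rt g).1 := by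
        refine act_wt' ρ b heb ?_ hw
        rw [hsum]
        abel
      rcases hor with h2 | h2
      · have hgx : x (rt g) < 0 := by
          rw [hg, ← hg', map_neg]
          linarith
        have hgd : x (rt δ) < x (rt g) := by
          rw [hg, ← hg', map_neg, map_sub, ha, map_neg]
          linarith
        have h3 : G ρ g (κ - rt g) ≤ G ρ b (κ - rt b) := by
          by_contra h4
          exact absurd (hmax g ⟨hgx, h4⟩) (not_le.2 hgd)
        exact h3 (mem_G heg hm)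
      · have h3 : κ - rt g = κ + rt a - rt β := by
          rw [hg, ← hg']
          abel
        rw [h3, mu_eq_zero.1 h2] at hm
        rw [(Submodule.mem_bot F).1 hm, map_zero]
        exact Submodule.zero_mem _
  have h2 : wtsp H ρ κ.1 ≤ G ρ b (κ - rt b) := h1.trans (iSup₂_le fun δ hδ => key δ hδ)
  obtain ⟨eb, heb, heb0⟩ := b.1.exists_ne_zero
  have heb : eb ∈ rootSpace H b.1 := heb
  have h3 : G ρ b (κ - rt b) ≤ (wtsp H ρ (κ - rt b).1).map (ρ.r eb) := by
    refine G_le fun y hy w hw => ?_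
    obtain ⟨c, hc⟩ := span_root b heb hy heb0
    rw [hc, map_smul, LinearMap.smul_apply]
    exact Submodule.smul_mem _ _ (Submodule.mem_map_of_mem hw)
  have h4 : κ - rt b = κ + rt β := by
    rw [hb, sub_neg_eq_add]
  have h5 := Submodule.finrank_mono (h2.trans h3)
  have h6 := Submodule.finrank_map_le (ρ.r eb) (wtsp H ρ (κ - rt b).1)
  rw [h4] at h5 h6
  exact h5.trans h6

/-- `a3` -/
theorem a3_aux {ν : PW H} (hν : mu H ρ ν ≠ 0) (α : H.root) (h1 : mu H ρ (ν + rt α) = 0)
    (h2 : mu H ρ (ν - rt α) = 0) : (rdat H).pr (rt α) ν = 0 := by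
  have hne : wtsp H ρ ν.1 ≠ ⊥ := fun h => hν (mu_eq_zero.2 h)
  obtain ⟨u, hu, hu0⟩ := Submodule.exists_mem_ne_zero_of_ne_bot hne
  have hα0 := LieSubalgebra.isNonZero_coe_root α
  obtain ⟨h0, e, f, ht, he, hf⟩ := exists_isSl2Triple_of_weight_isNonZero hα0
  have hcor := ht.h_eq_coroot hα0 he hf
  obtain ⟨b, hb⟩ := exists_neg α
  have hf' : f ∈ rootSpace H b.1 := by
    have h3 : (-(α.1 : H → F)) = (b.1 : H → F) := by
      funext t
      exact (congrArg (fun l : PW H => l.1 t) hb).symm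
    rwa [h3] at hf
  have heu : ρ.r e u = 0 := by
    have h3 := act_wt' ρ α he (rfl : ν + rt α = ν + rt α) hu
    rw [mu_eq_zero.1 h1] at h3
    exact (Submodule.mem_bot F).1 h3
  have hfu : ρ.r f u = 0 := by
    have h3 := act_wt' ρ b hf' (show ν - rt α = ν + rt b by rw [hb]; abel) hu
    rw [mu_eq_zero.1 h2] at h3
    exact (Submodule.mem_bot F).1 h3
  have h3 := ρ.lie e f u
  rw [heu, hfu, map_zero, map_zero, sub_zero, ht.lie_e_f, hcor, hu (coroot α.1)] at h3
  have h4 : ν.1 (coroot α.1) = 0 := (smul_eq_zero.1 h3).resolve_right hu0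
  rw [pr_rt]
  have h5 := val_spec α ν
  rw [h4] at h5
  exact_mod_cast h5.symm

end Rep

end IWTM

open IWTM in
theorem specIWt (hWt : SpecWt) : SpecIWt := by
  intro F L _ _ _ _ _ _ _ H _ M _ _ _ ρ hirr hd
  have hW := hWt F L H M ρ
  refine { toWt := hW, top := ?_, sb := ?_, a3 := ?_ }
  · intro x hx ν hν
    obtain ⟨hν0, htop⟩ := hν
    have hne : wtsp H ρ ν.1 ≠ ⊥ := fun h => hν0 (mu_eq_zero.2 h)
    obtain ⟨u, hu, hu0⟩ := Submodule.exists_mem_ne_zero_of_ne_bot hne
    have htop' : ∀ α : H.root, 0 < x (rt α) → ∀ y ∈ rootSpace H α.1, ρ.r y u = 0 := by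
      intro α hα y hy
      have h1 := act_wt' ρ α hy (rfl : ν + rt α = ν + rt α) hu
      rw [mu_eq_zero.1 (htop (rt α) (rt_mem α) hα)] at h1
      exact (Submodule.mem_bot F).1 h1
    obtain ⟨h1, h2⟩ := top_line hirr hd hx hu hu0 htop'
    refine ⟨?_, fun ν' h3 h4 => h2 ν' (fun h => h3 (mu_eq_zero.2 h)) h4⟩
    unfold mu
    rw [h1]
    exact finrank_span_singleton hu0
  · intro x hx κ hκ β hβ hxβ hyp
    obtain ⟨b, rfl⟩ := mem_R hβ
    exact sb_aux hirr hd hW hx hκ b hxβ hyp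
  · intro ν hν α hα h1 h2
    obtain ⟨a, rfl⟩ := mem_R hα
    exact a3_aux hν a h1 h2

end Pool.Agent.Lib.MPf11a48.K3
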