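import Pool.Agent.Lib.MP_f11a48_ag.K3.AlgSpec

/-! # INV: operators commuting with the spin representation -/

set_option autoImplicit false
set_option linter.unusedSectionVars false

namespace Pool.Agent.Lib.MPf11a48.K3

open Module

namespace InvM

section ring

variable {A : Type} [Ring A]

/-- the product of a family -/
def G {j : ℕ} (f : Fin j → A) : A := (List.ofFn f).prod

theorem G_zero (f : Fin 0 → A) : G f = 1 := by
  rw [G, List.ofFn_zero, List.prod_nil]

theorem G_succ {j : ℕ} (f : Fin (j + 1) → A) : G f = f 0 * G (fun a => f a.succ) := by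
  rw [G, List.ofFn_succ, List.prod_cons]
  rfl

theorem leib (D : A) : ∀ {j : ℕ} (f : Fin j → A),
    D * G f - G f * D = ∑ a, G (Function.update f a (D * f a - f a * D))
  | 0, f => by
    rw [G_zero, mul_one, one_mul, sub_self, Finset.univ_eq_empty, Finset.sum_empty]
  | j + 1, f => by
    rw [Fin.sum_univ_succ, G_succ f]
    have h1 : G (Function.update f 0 (D * f 0 - f 0 * D)) =
        (D * f 0 - f 0 * D) * G (fun a => f a.succ) := by
      rw [G_succ, Function.update_self]
      congr 2
    have h2 : ∀ a : Fin j, G (Function.update f a.succ (D * f a.succ - f a.succ * D)) =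
        f 0 * G (Function.update (fun a => f a.succ) a
          (D * (fun a => f a.succ) a - (fun a => f a.succ) a * D)) := by
      intro a
      rw [G_succ, Function.update_of_ne (Fin.succ_ne_zero a).symm]
      congr 2
      funext b
      by_cases hb : b = a
      · subst hb
        rw [Function.update_self, Function.update_self]
      · rw [Function.update_of_ne hb, Function.update_of_ne (fun h => hb (Fin.succ_injective _ h))]
    rw [h1, Finset.sum_congr rfl fun a _ => h2 a, ← Finset.mul_sum, ← leib D (fun a => f a.succ)]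
    noncomm_ring

theorem adj : ∀ {j : ℕ} (f : Fin (j + 1) → A) (i : Fin j),
    f i.castSucc * f i.succ = -(f i.succ * f i.castSucc) →
    G (fun a => f (Equiv.swap i.castSucc i.succ a)) = -G f
  | 0, _, i => i.elim0
  | j + 1, f, i => by
    refine Fin.cases ?_ (fun i' => ?_) i
    · intro h
      rw [G_succ, G_succ (fun a : Fin (j + 1) => f (Equiv.swap (0 : Fin (j + 1)).castSucc
        (0 : Fin (j + 1)).succ a.succ)), G_succ f, G_succ (fun a => f (Fin.succ a))]
      have e0 : (0 : Fin (j + 1)).castSucc = (0 : Fin (j + 2)) := rfl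
      have h0 : Equiv.swap (0 : Fin (j + 1)).castSucc (0 : Fin (j + 1)).succ 0 =
          (0 : Fin (j + 1)).succ := by
        rw [e0, Equiv.swap_apply_left]
      have h1 : Equiv.swap (0 : Fin (j + 1)).castSucc (0 : Fin (j + 1)).succ
          (0 : Fin (j + 1)).succ = (0 : Fin (j + 1)).castSucc := Equiv.swap_apply_right _ _
      have h2 : ∀ a : Fin j, Equiv.swap (0 : Fin (j + 1)).castSucc (0 : Fin (j + 1)).succ
          a.succ.succ = a.succ.succ := by
        intro a
        refine Equiv.swap_apply_of_ne_of_ne ?_ ?_
        · exact Fin.succ_ne_zero _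
        · intro h3
          exact Fin.succ_ne_zero _ (Fin.succ_injective _ h3)
      rw [h0, h1]
      simp only [h2]
      rw [← mul_assoc, ← mul_assoc, ← neg_mul]
      congr 1
      rw [e0] at h
      rw [e0, h, neg_neg]
    · intro h
      have e1 : i'.succ.castSucc = i'.castSucc.succ := rfl
      rw [G_succ, G_succ f]
      have h0 : Equiv.swap i'.succ.castSucc i'.succ.succ 0 = 0 := by
        refine Equiv.swap_apply_of_ne_of_ne ?_ ?_
        · rw [e1]
          exact (Fin.succ_ne_zero _).symm
        · exact (Fin.succ_ne_zero _).symm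
      have h1 : ∀ a : Fin (j + 1), Equiv.swap i'.succ.castSucc i'.succ.succ a.succ =
          (Equiv.swap i'.castSucc i'.succ a).succ := by
        intro a
        rw [e1, Equiv.swap_apply_def, Equiv.swap_apply_def]
        simp only [Fin.succ_inj]
        split_ifs <;> rfl
      rw [h0]
      simp only [h1]
      have h2 := adj (fun a => f a.succ) i' h
      rw [h2, mul_neg]

theorem sgnG {ι : Type} {γ : ι → A} (hγ : ∀ i j, i ≠ j → γ i * γ j = -(γ j * γ i)) {j : ℕ}
    (σ : Equiv.Perm (Fin j)) (I : Fin j → ι) (hI : Function.Injective I) :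
    G (fun a => γ (I (σ a))) = (Equiv.Perm.sign σ : ℤ) • G (fun a => γ (I a)) := by
  rcases j with _ | j
  · rw [G_zero, G_zero, Subsingleton.elim σ 1, map_one, Units.val_one, one_smul]
  · have hσ : σ ∈ Submonoid.closure
        (Set.range fun i : Fin j ↦ Equiv.swap i.castSucc i.succ) := by
      rw [Equiv.Perm.mclosure_swap_castSucc_succ]
      trivial
    induction hσ using Submonoid.closure_induction generalizing I with
    | mem x hx =>
      obtain ⟨i, rfl⟩ := hx
      have h1 := adj (fun a => γ (I a)) i (hγ _ _ fun h => by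
        have h2 := hI h
        exact (Fin.castSucc_lt_succ (i := i)).ne h2)
      have h2 : (Equiv.Perm.sign (Equiv.swap i.castSucc i.succ) : ℤ) = -1 := by
        rw [Equiv.Perm.sign_swap (Fin.castSucc_lt_succ (i := i)).ne]
        rfl
      rw [h2, neg_smul, one_smul]
      exact h1
    | one => rw [map_one, Units.val_one, one_smul]; rfl
    | mul x y _ _ hx hy =>
      have h1 := hy (fun a => I (x a)) (hI.comp x.injective)
      have h2 := hx I hI
      rw [map_mul, Units.val_mul, mul_comm, mul_smul, ← h2, ← h1]
      rfl

end ring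

end InvM

open InvM in
theorem specInv (hS : SpecSpl) : SpecInv := by
  intro F S _ _ _ _ _ n γ hγ g hg hN T hT j hj0 hjn I hI
  classical
  have hanti : ∀ i k, i ≠ k → γ i * γ k = -(γ k * γ i) := by
    intro i k h
    have h1 := hγ i k
    rw [if_neg h] at h1
    exact eq_neg_of_add_eq_zero_left h1
  -- the function `u`
  set u : (Fin j → Fin n) → F := fun I => LinearMap.trace F S (T * G (fun a => γ (I a))) with hu
  set w : (Fin j → Fin n) → F := fun I => ∑ π : Equiv.Perm (Fin j),
    ((Equiv.Perm.sign π : ℤ) : F) * u (I ∘ π) with hw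
  have hAlt : Alt w := by
    intro σ I
    rw [hw]
    simp only
    rw [Finset.mul_sum, ← Equiv.sum_comp (Equiv.mulLeft σ) (fun π : Equiv.Perm (Fin j) =>
      ((Equiv.Perm.sign σ : ℤ) : F) * (((Equiv.Perm.sign π : ℤ) : F) * u (I ∘ π)))]
    refine Finset.sum_congr rfl fun π _ => ?_
    rw [Equiv.coe_mulLeft, map_mul, Units.val_mul, Int.cast_mul, ← mul_assoc, ← mul_assoc]
    have h1 : ((Equiv.Perm.sign σ : ℤ) : F) * ((Equiv.Perm.sign σ : ℤ) : F) = 1 := by
      rcases Int.units_eq_one_or (Equiv.Perm.sign σ) with h | h <;> rw [h] <;> norm_num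
    rw [h1, one_mul]
    rfl
  have hinv : ∀ X ∈ g, ∀ I, actT X u I = 0 := by
    intro X hX I
    obtain ⟨h1, -⟩ := hS F S n γ hγ
    have h2 := h1 X (hg X hX)
    have h3 : ∀ a, G (Function.update (fun a => γ (I a)) a
        (spn γ X * γ (I a) - γ (I a) * spn γ X)) =
        -∑ k, X (I a) k • G (fun b => γ (Function.update I a k b)) := by
      intro a
      have e1 : spn γ X * γ (I a) - γ (I a) * spn γ X = ∑ k, (-X (I a) k) • γ k := by
        rw [h2]
        refine Finset.sum_congr rfl fun k _ => ?_
        have h4 := congrFun (congrFun (hg X hX) (I a)) k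
        rw [Matrix.transpose_apply, Matrix.neg_apply] at h4
        rw [h4]
      have e2 : ∀ f : Fin j → Module.End F S, G f =
          MultilinearMap.mkPiAlgebraFin F j (Module.End F S) f := fun f =>
        (MultilinearMap.mkPiAlgebraFin_apply f).symm
      rw [e1, e2, MultilinearMap.map_update_sum, ← Finset.sum_neg_distrib]
      refine Finset.sum_congr rfl fun k _ => ?_
      rw [MultilinearMap.map_update_smul, ← e2, neg_smul]
      congr 3
      funext b
      by_cases hb : b = a
      · subst hb
        rw [Function.update_self, Function.update_self]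
      · rw [Function.update_of_ne hb, Function.update_of_ne hb]
    have h4 := leib (spn γ X) (fun a => γ (I a))
    rw [Finset.sum_congr rfl fun a _ => h3 a, Finset.sum_neg_distrib] at h4
    have h5 : actT X u I = LinearMap.trace F S (T * ∑ a, ∑ k, X (I a) k •
        G (fun b => γ (Function.update I a k b))) := by
      rw [actT, Finset.mul_sum, map_sum]
      refine Finset.sum_congr rfl fun a _ => ?_
      rw [Finset.mul_sum, map_sum]
      refine Finset.sum_congr rfl fun k _ => ?_
      rw [mul_smul_comm, map_smul, smul_eq_mul]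
    have h6 : ∑ a, ∑ k, X (I a) k • G (fun b => γ (Function.update I a k b)) =
        G (fun a => γ (I a)) * spn γ X - spn γ X * G (fun a => γ (I a)) := by
      rw [← neg_inj, ← h4, neg_sub]
    rw [h5, h6, mul_sub, map_sub, sub_eq_zero, ← mul_assoc, ← mul_assoc, hT X hX,
      LinearMap.trace_mul_comm F, ← mul_assoc]
  have hinvw : ∀ X ∈ g, actT X w = 0 := by
    intro X hX
    funext I
    have h1 : actT X w I = ∑ π : Equiv.Perm (Fin j), ((Equiv.Perm.sign π : ℤ) : F) *
        actT X u (I ∘ π) := by
      rw [actT]
      have h2 : ∀ (π : Equiv.Perm (Fin j)), actT X u (I ∘ π) =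
          ∑ a, ∑ k, X (I a) k * u (Function.update I a k ∘ π) := by
        intro π
        rw [actT, ← Equiv.sum_comp π (fun a => ∑ k, X (I a) k * u (Function.update I a k ∘ π))]
        refine Finset.sum_congr rfl fun a _ => Finset.sum_congr rfl fun k _ => ?_
        congr 2
        funext b
        by_cases hb : b = a
        · subst hb
          rw [Function.update_self, Function.comp_apply, Function.update_self]
        · rw [Function.update_of_ne hb, Function.comp_apply, Function.comp_apply,
            Function.update_of_ne (fun h => hb (π.injective h))]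
      simp only [h2, hw, Finset.mul_sum]
      have h3 : ∀ a, ∑ k, ∑ π : Equiv.Perm (Fin j), X (I a) k *
          (((Equiv.Perm.sign π : ℤ) : F) * u (Function.update I a k ∘ π)) =
          ∑ π : Equiv.Perm (Fin j), ∑ k, X (I a) k *
          (((Equiv.Perm.sign π : ℤ) : F) * u (Function.update I a k ∘ π)) := fun a =>
        Finset.sum_comm
      rw [Finset.sum_congr rfl fun a _ => h3 a, Finset.sum_comm]
      refine Finset.sum_congr rfl fun π _ => Finset.sum_congr rfl fun a _ =>
        Finset.sum_congr rfl fun k _ => ?_
      ring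
    rw [h1, Pi.zero_apply]
    refine Finset.sum_eq_zero fun π _ => ?_
    rw [hinv X hX, mul_zero]
  have hw0 := hN j hj0 hjn w hAlt hinvw
  have h1 : w I = (Fintype.card (Equiv.Perm (Fin j)) : F) * u I := by
    rw [hw]
    simp only
    have h2 : ∀ π : Equiv.Perm (Fin j), ((Equiv.Perm.sign π : ℤ) : F) * u (I ∘ π) = u I := by
      intro π
      have h3 := sgnG hanti π I hI
      have h4 : u (I ∘ π) = ((Equiv.Perm.sign π : ℤ) : F) * u I := by
        rw [hu]
        simp only [Function.comp_apply]
        rw [h3, mul_smul_comm, map_zsmul, zsmul_eq_mul]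
      rw [h4, ← mul_assoc]
      have h1 : ((Equiv.Perm.sign π : ℤ) : F) * ((Equiv.Perm.sign π : ℤ) : F) = 1 := by
        rcases Int.units_eq_one_or (Equiv.Perm.sign π) with h | h <;> rw [h] <;> norm_num
      rw [h1, one_mul]
    rw [Finset.sum_congr rfl fun π _ => h2 π, Finset.sum_const, Finset.card_univ, nsmul_eq_mul]
  rw [hw0, Pi.zero_apply] at h1
  have h2 : u I = 0 := by
    refine (mul_eq_zero.1 h1.symm).resolve_left ?_
    exact Nat.cast_ne_zero.2 Fintype.card_ne_zero
  exact h2

end Pool.Agent.Lib.MPf11a48.K3
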