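import Pool.Agent.Lib.MP_f11a48_ag.K3.Dsc

/-!
# Module IRR: irreducible objects and the Lie algebra of logarithmic derivatives
-/

set_option autoImplicit false

namespace Pool.Agent.Lib.MPf11a48.K3

open Matrix Pool.Agent.Lib.MPf11a48.CM

namespace IrrM

variable {n : ℕ}

/-- the complex span of a stable subspace is stable -/
theorem toC_stable (W : Submodule Qbar (Fin n → Qbar)) (X : Matrix (Fin n) (Fin n) Qbar)
    (hX : ∀ v ∈ W, X.mulVec v ∈ W) {v : Fin n → ℂ} (hv : v ∈ spanC W) :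
    (toC X).mulVec v ∈ spanC W := by
  have hle : spanC W ≤ (spanC W).comap (toC X).mulVecLin := by
    refine Submodule.span_le.2 ?_
    rintro _ ⟨w, hw, rfl⟩
    refine Submodule.subset_span ⟨X.mulVec w, hX w hw, ?_⟩
    funext i
    simp only [mulVecLin_apply, mulVec, dotProduct, map_sum, map_mul]
    rfl
  exact hle hv

/-- elements of the complex span of `g` preserve the complex span of `W` -/
theorem span_stable (W : Submodule Qbar (Fin n → Qbar))
    (g : Set (Matrix (Fin n) (Fin n) Qbar)) (hg : ∀ X ∈ g, ∀ v ∈ W, X.mulVec v ∈ W)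
    {M : Matrix (Fin n) (Fin n) ℂ}
    (hM : M ∈ Submodule.span ℂ {M : Matrix (Fin n) (Fin n) ℂ | ∃ X ∈ g, M = toC X})
    {v : Fin n → ℂ} (hv : v ∈ spanC W) : M.mulVec v ∈ spanC W := by
  induction hM using Submodule.span_induction with
  | mem M hM =>
    obtain ⟨X, hX, rfl⟩ := hM
    exact toC_stable W X (hg X hX) hv
  | zero =>
    rw [zero_mulVec]
    exact Submodule.zero_mem _
  | add x y _ _ hx hy =>
    rw [add_mulVec]
    exact Submodule.add_mem _ hx hy
  | smul t x _ hx =>
    rw [smul_mulVec]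
    exact Submodule.smul_mem _ t hx

theorem der_mulVec (D : Derivation Qbar ℂ ℂ) (c : Matrix (Fin n) (Fin n) ℂ) (u : Fin n → ℂ) :
    (fun j => D (c.mulVec u j)) = (c.map D).mulVec u + c.mulVec fun j => D (u j) := by
  funext i
  simp only [mulVec, dotProduct, map_sum, Pi.add_apply, Matrix.map_apply,
    ← Finset.sum_add_distrib, D.leibniz, smul_eq_mul]
  exact Finset.sum_congr rfl fun j _ => by ring

theorem dlog_mulVec (D : Derivation Qbar ℂ ℂ) (c : GL (Fin n) ℂ) (u : Fin n → ℂ) :
    (dlog D c).mulVec (c.1.mulVec u) = (c.1.map D).mulVec u := by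
  have h : c⁻¹.1 * c.1 = 1 := c.inv_mul
  rw [mulVec_mulVec, dlog, Matrix.mul_assoc, h, Matrix.mul_one]

end IrrM

open IrrM DscM in
theorem specIrr : SpecIrr := by
  intro n c g hirr hlog W hW
  let U : Submodule ℂ (Fin n → ℂ) := (spanC W).comap c.1.mulVecLin
  have hU : ∀ D : Derivation Qbar ℂ ℂ, ∀ u ∈ U, (fun j => D (u j)) ∈ U := by
    intro D u hu
    have hu' : c.1.mulVec u ∈ spanC W := hu
    change c.1.mulVec (fun j => D (u j)) ∈ spanC W
    have h1 := spanC_der W D hu'
    rw [der_mulVec, ← dlog_mulVec D c u] at h1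
    have h2 := span_stable W g hW (hlog D) hu'
    have h3 := Submodule.sub_mem _ h1 h2
    rwa [add_sub_cancel_left] at h3
  obtain ⟨W', hW'⟩ := specDsc.1 (Fin n) U hU
  refine hirr W' W ?_
  rw [← hW']
  refine Submodule.map_comap_eq_of_surjective ?_ _
  intro v
  refine ⟨c⁻¹.1.mulVec v, ?_⟩
  have h : c.1 * c⁻¹.1 = 1 := c.mul_inv
  rw [mulVecLin_apply, mulVec_mulVec, h, one_mulVec]

end Pool.Agent.Lib.MPf11a48.K3
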