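import Pool.Agent.Lib.MP_f11a48_ag.K3.OddLine

/-!
# ODD and ODD1 (helper7)
-/

set_option autoImplicit false
set_option linter.unusedSectionVars false
set_option linter.unusedVariables false

namespace Pool.Agent.Lib.MPf11a48.K3

open Finset

variable {E : Type} [AddCommGroup E] [Module ℚ E]

namespace OddM

section Main

variable {m : ℕ} {D : RDat E} {a : Fin m → E}

theorem no_two (hF : SpecFun) (hC : SpecComb) (hD : D.Ok) (hV : Wt D (dVo a))
    (hSt : Star D (dVo a)) (hS : IWt D (dS a)) (hm : 3 ≤ m) {c : E}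
    (hc : c ∈ Phi a) (hmin : ∀ t : ℚ, 0 < t → t < 1 → t • c ∉ Phi a) :
    (2 : ℚ) • c ∉ Phi a := by
  obtain ⟨x1, h0, hx⟩ := exists_fun (a := a) hF hD c
  exact (level hF hC hD hV hSt hS hm hc hmin x1 h0 hx).1

theorem allmin (hF : SpecFun) (hC : SpecComb) (hD : D.Ok) (hV : Wt D (dVo a))
    (hSt : Star D (dVo a)) (hS : IWt D (dS a)) (hm : 3 ≤ m) {c : E}
    (hc : c ∈ Phi a) : ∀ t : ℚ, 0 < t → t < 1 → t • c ∉ Phi a := by
  intro t ht0 ht1 htc
  have hne := ne_zero hF hD hS
  have hc0 := phi_ne hne hc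
  have hfin : {s : ℚ | 0 < s ∧ s • c ∈ Phi a}.Finite := by
    have h1 : ((fun s : ℚ => s • c) ⁻¹' (Phi a)).Finite :=
      Set.Finite.preimage (fun s _ s' _ h => by
        have h2 : (s - s') • c = 0 := by rw [sub_smul]; exact sub_eq_zero.2 h
        rcases smul_eq_zero.1 h2 with h3 | h3
        · linarith
        · exact absurd h3 hc0) phi_finite
    exact h1.subset fun s hs => hs.2
  obtain ⟨s0, ⟨hs0, hs0c⟩, hs0min⟩ := Set.exists_min_image _ id hfin ⟨t, ht0, htc⟩
  have hdmin : ∀ u : ℚ, 0 < u → u < 1 → u • (s0 • c) ∉ Phi a := by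
    intro u hu0 hu1 h
    rw [smul_smul] at h
    have h1 := hs0min (u * s0) ⟨mul_pos hu0 hs0, h⟩
    simp only [id] at h1
    nlinarith
  have hcd : (1 / s0) • (s0 • c) = c := by
    rw [smul_smul, one_div, inv_mul_cancel₀ hs0.ne', one_smul]
  have hle : s0 ≤ t := hs0min t ⟨ht0, htc⟩
  rcases line_two hF hC hD hV hS hs0c hdmin (1 / s0) (by positivity) (by rw [hcd]; exact hc)
    with h | h
  · have : s0 = 1 := by field_simp at h; linarith
    linarith
  · have h2 := no_two hF hC hD hV hSt hS hm hs0c hdmin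
    apply h2
    rw [← h, hcd]
    exact hc

theorem prop_one (hF : SpecFun) (hC : SpecComb) (hD : D.Ok) (hV : Wt D (dVo a))
    (hSt : Star D (dVo a)) (hS : IWt D (dS a)) (hm : 3 ≤ m) {c : E}
    (hc : c ∈ Phi a) (t : ℚ) (ht : t • c ∈ Phi a) : t = 1 ∨ t = -1 := by
  have hne := ne_zero hF hD hS
  have hmin := allmin hF hC hD hV hSt hS hm hc
  rcases lt_trichotomy t 0 with h | h | h
  · right
    have h1 : (-t) • c ∈ Phi a := by rw [neg_smul]; exact phi_neg ht
    rcases line_two hF hC hD hV hS hc hmin (-t) (by linarith) h1 with h2 | h2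
    · linarith
    · rw [h2] at h1
      exact absurd h1 (no_two hF hC hD hV hSt hS hm hc hmin)
  · rw [h, zero_smul] at ht
    exact absurd rfl (phi_ne hne ht)
  · left
    rcases line_two hF hC hD hV hS hc hmin t h ht with h2 | h2
    · exact h2
    · rw [h2] at ht
      exact absurd ht (no_two hF hC hD hV hSt hS hm hc hmin)

theorem plane (hF : SpecFun) (hC : SpecComb) (hD : D.Ok) (hV : Wt D (dVo a))
    (hSt : Star D (dVo a)) (hS : IWt D (dS a)) (hm : 3 ≤ m) {c d : E}
    (hc : c ∈ Phi a) (hd : d ∈ Phi a) (hn : ∀ t : ℚ, d ≠ t • c) :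
    ∃ (x1 : E →ₗ[ℚ] ℚ) (e : E) (s t : ℚ), e ∈ Phi a ∧ x1 c = 0 ∧ x1 d ≠ 0 ∧ 0 < x1 e ∧
      (∀ v ∈ Phi a, 0 < x1 v → x1 e ≤ x1 v) ∧ (∀ v ∈ Phi a, x1 v = x1 e → v = e) ∧
      D.pr c e = 0 ∧ e + c ∈ D.R ∧ e - c ∈ D.R ∧ e = s • c + t • d := by
  have hmin := allmin hF hC hD hV hSt hS hm hc
  obtain ⟨z0, hz0, hz0'⟩ := hF E (Submodule.span ℚ {c, d}) (AA D a) (aa_finite hD)
  obtain ⟨y1, hy1, hy1'⟩ := exists_fun (a := a) hF hD c
  obtain ⟨x1, hx1, hx1'⟩ := hC E z0 y1 (AA D a) (aa_finite hD) |y1 d|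
  have hzc : z0 c = 0 := hz0 c (Submodule.subset_span (by simp))
  have hzd : z0 d = 0 := hz0 d (Submodule.subset_span (by simp))
  have hxc : x1 c = 0 := by rw [hx1 c hzc, hy1]
  have hxd : x1 d = y1 d := hx1 d hzd
  have hyd : y1 d ≠ 0 := hy1' d (aa_phi hd) hn
  have hx : ∀ v ∈ AA D a, (∀ t : ℚ, v ≠ t • c) → x1 v ≠ 0 := by
    intro v hv hvn
    rcases lt_trichotomy (z0 v) 0 with h | h | h
    · have h1 := (hx1' v hv).2 h
      have h2 := abs_nonneg (y1 d)
      intro h3; linarith
    · rw [hx1 v h]; exact hy1' v hv hvn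
    · have h1 := (hx1' v hv).1 h
      have h2 := abs_nonneg (y1 d)
      intro h3; linarith
  obtain ⟨-, e, he, hep, hlev, huniq, hpr, hadd, hsub, -, -⟩ :=
    level hF hC hD hV hSt hS hm hc hmin x1 hxc hx
  have hle : x1 e ≤ |y1 d| := by
    rcases lt_or_gt_of_ne hyd with h | h
    · have h1 := hlev (-d) (phi_neg hd) (by rw [map_neg, hxd]; linarith)
      rw [map_neg, hxd] at h1
      rwa [abs_of_neg h]
    · have h1 := hlev d hd (by rw [hxd]; exact h)
      rw [hxd] at h1
      rwa [abs_of_pos h]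
  have hze : z0 e = 0 := by
    rcases lt_trichotomy (z0 e) 0 with h | h | h
    · have h1 := (hx1' e (aa_phi he)).2 h
      have h2 := abs_nonneg (y1 d)
      linarith
    · exact h
    · have h1 := (hx1' e (aa_phi he)).1 h
      linarith
  have hemem : e ∈ Submodule.span ℚ {c, d} := by
    by_contra h
    exact hz0' e (aa_phi he) h hze
  obtain ⟨s, t, hst⟩ := Submodule.mem_span_pair.1 hemem
  exact ⟨x1, e, s, t, he, hxc, by rw [hxd]; exact hyd, hep, hlev, huniq, hpr, hadd, hsub, hst.symm⟩

theorem o3_aux (hF : SpecFun) (hC : SpecComb) (hD : D.Ok) (hV : Wt D (dVo a))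
    (hSt : Star D (dVo a)) (hS : IWt D (dS a)) (hm : 3 ≤ m) {c e d : E}
    (hc : c ∈ Phi a) (he : e ∈ Phi a) (hd : d ∈ Phi a) (hec : ∀ t : ℚ, e ≠ t • c)
    (hpr : D.pr c e = 0) (s t : ℚ) (hs : 1 < s) (hdst : d = s • e + t • c) : False := by
  have hne := ne_zero hF hD hS
  have hroot : ∀ v ∈ Phi a, v ∈ D.R := fun v hv =>
    (line_min hF hC hD hS hv (allmin hF hC hD hV hSt hS hm hv)).1
  have hcR := hroot c hc
  have heR := hroot e he
  have hdR := hroot d hd
  have hc0 := phi_ne hne hc
  have he0 := phi_ne hne he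
  have hce : ∀ u : ℚ, c ≠ u • e := np_symm he0 hec hc0
  have hpr' : D.pr e c = 0 := hD.zero c hcR e heR hpr
  have hpcd : D.pr c d = 2 * t := by
    rw [hdst, map_add, map_smul, map_smul, hpr, hD.two c hcR]; simp [mul_comm]
  have hped : D.pr e d = 2 * s := by
    rw [hdst, map_add, map_smul, map_smul, hpr', hD.two e heR]; simp [mul_comm]
  by_cases ht : t = 0
  · rw [ht, zero_smul, add_zero] at hdst
    rcases hD.red e heR s (hdst ▸ hdR) with h | h <;> linarith
  · -- `|t| ≥ 1`
    have habs : 1 ≤ |t| := by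
      obtain ⟨x2, e2, s2, t2, he2, hx2e, hx2c, hx2p, hlev, huniq, hpr2, -, -, he2eq⟩ :=
        plane hF hC hD hV hSt hS hm he hc hce
      have h1 : 2 * s2 = 0 := by
        have := hpr2
        rw [he2eq, map_add, map_smul, map_smul, hpr', hD.two e heR] at this
        simp only [smul_eq_mul, mul_zero, add_zero] at this
        linarith
      have hs2 : s2 = 0 := by linarith
      rw [hs2, zero_smul, zero_add] at he2eq
      have ht2 := prop_one hF hC hD hV hSt hS hm hc t2 (he2eq ▸ he2)
      have hxe2 : x2 e2 = |x2 c| := by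
        rw [he2eq, map_smul, smul_eq_mul] at hx2p ⊢
        rcases ht2 with h | h
        · rw [h, one_mul] at hx2p ⊢
          exact (abs_of_pos hx2p).symm
        · rw [h] at hx2p ⊢
          rw [abs_of_neg (by linarith)]; ring
      have hxd : x2 d = t * x2 c := by
        rw [hdst, map_add, map_smul, map_smul, hx2e]; simp
      have hxd0 : x2 d ≠ 0 := by rw [hxd]; exact mul_ne_zero ht hx2c
      have hle : |x2 c| ≤ |x2 d| := by
        rw [← hxe2]
        rcases lt_or_gt_of_ne hxd0 with h | h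
        · have := hlev (-d) (phi_neg hd) (by rw [map_neg]; linarith)
          rw [map_neg] at this
          rwa [abs_of_neg h]
        · have := hlev d hd h
          rwa [abs_of_pos h]
      rw [hxd, abs_mul] at hle
      have hpos : 0 < |x2 c| := abs_pos.2 hx2c
      by_contra h
      push Not at h
      nlinarith
    have hde : ∀ u : ℚ, d ≠ u • e := by
      intro u hu
      apply hce ((u - s) / t)
      have h1 : t • c = (u - s) • e := by
        rw [sub_smul, ← hu, hdst]; abel
      rw [div_eq_inv_mul, mul_smul, ← h1, smul_smul, inv_mul_cancel₀ ht, one_smul]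
    have hdc : ∀ u : ℚ, d ≠ u • c := by
      intro u hu
      have hs0 : s ≠ 0 := by linarith
      apply hec ((u - t) / s)
      have h1 : s • e = (u - t) • c := by
        rw [sub_smul, ← hu, hdst]; abel
      rw [div_eq_inv_mul, mul_smul, ← h1, smul_smul, inv_mul_cancel₀ hs0, one_smul]
    obtain ⟨p, q, hp, hq, hpq⟩ := root_pair hD heR hdR hde
    obtain ⟨p', q', hp', hq', hpq'⟩ := root_pair hD hcR hdR hdc
    have h2s : 2 * s = p := by rw [← hp, hped]
    have h2t : 2 * t = p' := by rw [← hp', hpcd]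
    have hp3 : 3 ≤ p := by
      have : (2 : ℚ) < p := by linarith
      have : 2 < p := by exact_mod_cast this
      omega
    have hq1 : q = 1 := by
      rcases hpq with h | h | h
      · omega
      · obtain ⟨h1, h2, h3⟩ := h
        have : q < 2 := by
          by_contra hh
          push Not at hh
          nlinarith
        omega
      · omega
    have hdd : s * q + t * q' = 2 := by
      have h1 := hD.two d hdR
      have h2 : D.pr d d = s * D.pr d e + t * D.pr d c := by
        conv_lhs => rw [hdst]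
        rw [map_add, map_smul, map_smul, ← hdst]; simp
      rw [h2, hq, hq'] at h1
      exact h1
    have hq1' : (q' = 1 ∧ 0 < t) ∨ (q' = -1 ∧ t < 0) := by
      rcases hpq' with h | h | h
      · exfalso
        rw [h.1] at h2t
        apply ht
        have : 2 * t = 0 := by rw [h2t]; simp
        linarith
      · obtain ⟨h1, h2, h3⟩ := h
        have ht0 : 0 < t := by
          have : (0 : ℚ) < p' := by exact_mod_cast h1
          linarith
        rw [abs_of_pos ht0] at habs
        have h4 : 2 ≤ p' := by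
          have : (2 : ℚ) ≤ p' := by linarith
          exact_mod_cast this
        left
        refine ⟨?_, ht0⟩
        have : q' < 2 := by
          by_contra hh
          push Not at hh
          nlinarith
        omega
      · obtain ⟨h1, h2, h3⟩ := h
        have ht0 : t < 0 := by
          have : (p' : ℚ) < 0 := by exact_mod_cast h1
          linarith
        rw [abs_of_neg ht0] at habs
        have h4 : p' ≤ -2 := by
          have : (p' : ℚ) ≤ -2 := by linarith
          exact_mod_cast this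
        right
        refine ⟨?_, ht0⟩
        have : -2 < q' := by
          by_contra hh
          push Not at hh
          nlinarith
        omega
    rw [hq1] at hdd
    push_cast at hdd
    rcases hq1' with ⟨h1, h2⟩ | ⟨h1, h2⟩
    · rw [h1] at hdd
      push_cast at hdd
      rw [abs_of_pos h2] at habs
      linarith
    · rw [h1] at hdd
      push_cast at hdd
      rw [abs_of_neg h2] at habs
      linarith

theorem o3 (hF : SpecFun) (hC : SpecComb) (hD : D.Ok) (hV : Wt D (dVo a))
    (hSt : Star D (dVo a)) (hS : IWt D (dS a)) (hm : 3 ≤ m) {c d : E}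
    (hc : c ∈ Phi a) (hd : d ∈ Phi a) (hn : ∀ t : ℚ, d ≠ t • c) :
    D.pr c d = 0 ∧ d + c ∈ D.R ∧ d - c ∈ D.R := by
  obtain ⟨x1, e, s0, t0, he, hxc, hxd, hep, hlev, huniq, hpr, hadd, hsub, heq⟩ :=
    plane hF hC hD hV hSt hS hm hc hd hn
  have key : ∀ d' ∈ Phi a, 0 < x1 d' → (∃ s t : ℚ, d' = s • e + t • c) → d' = e := by
    rintro d' hd' hp ⟨s, t, hst⟩
    have hec : ∀ u : ℚ, e ≠ u • c := by
      intro u hu
      rw [hu, map_smul, hxc, smul_zero] at hep
      exact lt_irrefl _ hep
    have hxs : x1 d' = s * x1 e := by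
      rw [hst, map_add, map_smul, map_smul, hxc]; simp
    have hs1 : 1 ≤ s := by
      have := hlev d' hd' hp
      rw [hxs] at this
      by_contra h
      push Not at h
      nlinarith
    rcases hs1.eq_or_lt with h | h
    · exact huniq d' hd' (by rw [hxs, ← h, one_mul])
    · exact (o3_aux hF hC hD hV hSt hS hm hc he hd' hec hpr s t h hst).elim
  have ht0 : t0 ≠ 0 := by
    intro h
    rw [heq, h, zero_smul, add_zero, map_smul, hxc, smul_zero] at hep
    exact lt_irrefl _ hep
  have hdeq : d = (1 / t0) • e + (-(s0 / t0)) • c := by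
    rw [heq, smul_add, smul_smul, smul_smul, add_right_comm, ← add_smul]
    have h1 : 1 / t0 * s0 + -(s0 / t0) = 0 := by ring
    have h2 : 1 / t0 * t0 = 1 := by field_simp
    rw [h1, h2, zero_smul, one_smul, zero_add]
  rcases lt_or_gt_of_ne hxd with h | h
  · have h1 := key (-d) (phi_neg hd) (by rw [map_neg]; linarith)
      ⟨-(1 / t0), s0 / t0, by rw [neg_smul]; nth_rewrite 1 [hdeq]; rw [neg_smul]; abel⟩
    have h2 : d = -e := by rw [← h1, neg_neg]
    refine ⟨by rw [h2, map_neg, hpr, neg_zero], ?_, ?_⟩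
    · rw [h2]
      have := root_neg hD hsub
      rwa [neg_sub, sub_eq_add_neg, add_comm] at this
    · rw [h2]
      have := root_neg hD hadd
      rwa [neg_add, ← sub_eq_add_neg] at this
  · have h1 := key d hd h ⟨1 / t0, -(s0 / t0), hdeq⟩
    rw [h1]
    exact ⟨hpr, hadd, hsub⟩

end Main

end OddM

open OddM

/-- ODD -/
theorem specOdd (hF : SpecFun) (hC : SpecComb) : SpecOdd := by
  intro E _ _ D hD m a hm hV hSt hS
  have hne := ne_zero hF hD hS
  have hphi : ∀ i, a i ∈ Phi a := fun i => ⟨i, Or.inl rfl⟩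
  have hroot : ∀ i, a i ∈ D.R := fun i =>
    (line_min hF hC hD hS (hphi i) (allmin hF hC hD hV hSt hS hm (hphi i))).1
  have huni : ∀ i, ∀ j k, (a j = a i ∨ a j = -a i) → (a k = a i ∨ a k = -a i) → j = k := fun i =>
    (line_min hF hC hD hS (hphi i) (allmin hF hC hD hV hSt hS hm (hphi i))).2
  have hnp : ∀ i j, i ≠ j → ∀ t : ℚ, a j ≠ t • a i := by
    intro i j hij t ht
    apply hij
    have := prop_one hF hC hD hV hSt hS hm (hphi i) t (ht ▸ hphi j)
    refine huni i i j (Or.inl rfl) ?_
    rcases this with h | h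
    · left; rw [ht, h, one_smul]
    · right; rw [ht, h, neg_smul, one_smul]
  refine ⟨hroot, fun i j hij => ?_, fun i j => ?_⟩
  · exact (o3 hF hC hD hV hSt hS hm (hphi j) (hphi i) (hnp j i hij.symm)).2
  · by_cases hij : i = j
    · rw [if_pos hij, hij, hD.two _ (hroot j)]
    · rw [if_neg hij]
      exact (o3 hF hC hD hV hSt hS hm (hphi i) (hphi j) (hnp i j hij)).1

/-- ODD1 -/
theorem specOdd1 (hF : SpecFun) : SpecOdd1 := by
  intro E _ _ D hD a hS
  have hne := ne_zero hF hD hS
  obtain ⟨x, -, hx⟩ := hF E ⊥ (AA D a) (aa_finite hD)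
  have hx' : ∀ v ∈ AA D a, v ≠ 0 → x v ≠ 0 := fun v hv h0 =>
    hx v hv (by rw [Submodule.mem_bot]; exact h0)
  have hreg : Reg D x := fun α hα => hx' α (aa_root hα) (root_ne_zero hD hα)
  have hphi : ∀ i, a i ∈ Phi a := fun i => ⟨i, Or.inl rfl⟩
  obtain ⟨σ, hσ⟩ := exists_sign a x fun i => hx' _ (aa_phi (hphi i)) (hne i)
  obtain ⟨α, hα, hαp, T, hT⟩ := not_top (z := x) (σ := σ) (μ := sg (σ 0) • a 0) hS hreg (hσ 0)
    ⟨{0}, by rw [Finset.sum_singleton]⟩
  by_cases h0 : (0 : Fin 1) ∈ T
  · have hTe : T = {0} := by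
      ext i
      rw [Finset.mem_singleton]
      exact ⟨fun _ => Subsingleton.elim _ _, fun h => h ▸ h0⟩
    rw [hTe, Finset.sum_singleton] at hT
    have : α = 0 := by
      have h1 : sg (σ 0) • a 0 - (sg (σ 0) • a 0 - α) = 0 := by rw [← hT, sub_self]
      rwa [sub_sub_cancel] at h1
    exact absurd this (root_ne_zero hD hα)
  · have hTe : T = ∅ := by
      rw [Finset.eq_empty_iff_forall_notMem]
      intro i hi
      exact h0 ((Subsingleton.elim i 0) ▸ hi)
    rw [hTe, Finset.sum_empty] at hT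
    have h1 : α = sg (σ 0) • a 0 := (sub_eq_zero.1 hT.symm).symm
    rw [h1] at hα
    cases h : σ 0
    · rw [h] at hα
      have h2 : sg false • a 0 = -a 0 := by simp [sg]
      rw [h2] at hα
      simpa using root_neg hD hα
    · rw [h] at hα
      have h2 : sg true • a 0 = a 0 := by simp [sg]
      rwa [h2] at hα

end Pool.Agent.Lib.MPf11a48.K3
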