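import Pool.Agent.Lib.MP_f11a48_ag.K3.BSpec

/-! # PERF: skew-symmetric matrices are sums of commutators -/

set_option autoImplicit false

namespace Pool.Agent.Lib.MPf11a48.K3

namespace PerfM

open Matrix

variable {F : Type} [Field F] {n : ℕ}

/-- `E_ij - E_ji` -/
def sk (F : Type) [Field F] {n : ℕ} (i j : Fin n) : Matrix (Fin n) (Fin n) F :=
  single i j 1 - single j i 1

theorem sk_skew (i j : Fin n) : (sk F i j)ᵀ = -sk F i j := by
  rw [sk, transpose_sub, transpose_single, transpose_single, neg_sub]

theorem sk_comm {i j k : Fin n} (hij : i ≠ j) (hik : i ≠ k) (hjk : j ≠ k) :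
    sk F i j = sk F i k * sk F k j - sk F k j * sk F i k := by
  simp only [sk, sub_mul, mul_sub, single_mul_single_same, mul_one,
    single_mul_single_of_ne _ _ _ _ hjk.symm, single_mul_single_of_ne _ _ _ _ hik,
    single_mul_single_of_ne _ _ _ _ hij, single_mul_single_of_ne _ _ _ _ hij.symm,
    single_mul_single_of_ne _ _ _ _ hjk, single_mul_single_of_ne _ _ _ _ hik.symm]
  abel

theorem exists_third (hn : 3 ≤ n) (i j : Fin n) : ∃ k : Fin n, i ≠ k ∧ j ≠ k := by
  classical
  by_contra hcon
  push Not at hcon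
  have h1 : (Finset.univ : Finset (Fin n)) ⊆ {i, j} := by
    intro k _
    rw [Finset.mem_insert, Finset.mem_singleton]
    by_cases hk : i = k
    · exact Or.inl hk.symm
    · exact Or.inr (hcon k hk).symm
  have h2 := Finset.card_le_card h1
  have h3 : ({i, j} : Finset (Fin n)).card ≤ 2 := Finset.card_le_two
  rw [Finset.card_univ, Fintype.card_fin] at h2
  omega

end PerfM

open PerfM Matrix in
theorem specPerf : SpecPerf := by
  intro F _ _ n hn A hA
  have h0 : A = ∑ i, ∑ j, single i j (A i j) := matrix_eq_sum_single A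
  have h0t : Aᵀ = ∑ i, ∑ j, single j i (A i j) := by
    conv_lhs => rw [h0]
    rw [transpose_sum]
    refine Finset.sum_congr rfl fun i _ => ?_
    rw [transpose_sum]
    refine Finset.sum_congr rfl fun j _ => ?_
    rw [transpose_single]
  have h1 : A - Aᵀ = ∑ i, ∑ j, A i j • sk F i j := by
    conv_lhs => rw [h0t, h0]
    rw [← Finset.sum_sub_distrib]
    refine Finset.sum_congr rfl fun i _ => ?_
    rw [← Finset.sum_sub_distrib]
    refine Finset.sum_congr rfl fun j _ => ?_
    rw [sk, smul_sub, smul_single, smul_single, smul_eq_mul, mul_one, ← h0]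
  have h2 : A = (1 / 2 : F) • (A - Aᵀ) := by
    rw [hA, sub_neg_eq_add, ← two_smul F A, smul_smul]
    norm_num
  rw [h2, h1]
  refine Submodule.smul_mem _ _ (Submodule.sum_mem _ fun i _ => Submodule.sum_mem _ fun j _ =>
    Submodule.smul_mem _ _ ?_)
  by_cases hij : i = j
  · rw [hij]
    have : sk F j j = 0 := by rw [sk, sub_self]
    rw [this]
    exact Submodule.zero_mem _
  · obtain ⟨k, hik, hjk⟩ := exists_third hn i j
    refine Submodule.subset_span ⟨sk F i k, sk F k j, sk_skew _ _, sk_skew _ _, ?_⟩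
    exact sk_comm hij hik hjk

end Pool.Agent.Lib.MPf11a48.K3
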