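import Pool.Agent.Lib.MP_f11a48_ag.K3.Wt

/-!
# The roots of a semisimple Lie algebra satisfy the axioms
-/

set_option autoImplicit false
set_option linter.unusedSectionVars false

namespace Pool.Agent.Lib.MPf11a48.K3

open Module LieAlgebra LieAlgebra.IsKilling LieModule

namespace RootM

variable {F L : Type} [Field F] [CharZero F] [IsAlgClosed F] [LieRing L] [LieAlgebra F L]
  [Module.Finite F L] [IsKilling F L] {H : LieSubalgebra F L} [H.IsCartanSubalgebra]

/-- pairings of roots are the integers of Mathlib -/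
theorem val_root {α β : H.root} {b : PW H} (hb : (β.1.toLinear : Dual F H) = b.1) :
    val α b = (((rootSystem H).pairingIn ℤ β α : ℤ) : ℚ) := by
  refine pw_unique (val_spec α b) ?_
  rw [← hb]
  have h1 := (rootSystem H).algebraMap_pairingIn ℤ β α
  rw [rootSystem_pairing_apply] at h1
  change β.1 (coroot α.1) = _
  rw [← h1]
  simp

end RootM

open RootM WtM in
/-- ROOT -/
theorem specRoot : SpecRoot := by
  intro F L _ _ _ _ _ _ _ H _
  refine ⟨?_, ?_, ?_, ?_, ?_, ?_, ?_, ?_⟩
  · refine Set.Finite.of_finite_image (f := fun μ : PW H => (μ : Dual F H)) ?_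
      (fun _ _ _ _ h => Subtype.ext h)
    refine (Set.finite_range fun α : H.root => (α.1.toLinear : Dual F H)).subset ?_
    rintro _ ⟨μ, ⟨α, hα⟩, rfl⟩
    exact ⟨α, hα⟩
  · rintro a ⟨α, hα⟩
    rw [pr_eq hα]
    refine pw_unique (val_spec α a) ?_
    rw [← hα, root_two]
    norm_num
  · rintro a ⟨α, hα⟩ b ⟨β, hβ⟩
    rw [pr_eq hα]
    exact ⟨_, val_root hβ⟩
  · rintro a ⟨α, hα⟩ b ⟨β, hβ⟩
    refine ⟨(rootSystem H).reflectionPerm α β, ?_⟩
    rw [coe_refl hα, ← hβ]
    exact ((rootSystem H).reflectionPerm_root α β).symm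
  · rintro a ⟨α, hα⟩ t ⟨β, hβ⟩
    rw [coe_smul_PW, ← hα] at hβ
    have h1 : (2 : F) ≠ 0 := two_ne_zero
    rcases eq_neg_or_eq_of_eq_smul α.1 β.1 (LieSubalgebra.isNonZero_coe_root β) (t : F)
      (funext fun x => DFunLike.congr_fun hβ x) with h | h
    · right
      rw [h, Weight.toLinear_neg] at hβ
      have h2 := DFunLike.congr_fun hβ (coroot α.1)
      rw [LinearMap.neg_apply, LinearMap.smul_apply, root_two, smul_eq_mul] at h2
      have h3 : (t : F) = -1 := by
        refine mul_right_cancel₀ h1 ?_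
        rw [← h2]
        ring
      exact_mod_cast h3
    · left
      rw [h] at hβ
      have h2 := DFunLike.congr_fun hβ (coroot α.1)
      rw [LinearMap.smul_apply, root_two, smul_eq_mul] at h2
      have h3 : (t : F) = 1 := by
        refine mul_right_cancel₀ h1 ?_
        rw [← h2]
        ring
      exact_mod_cast h3
  · rintro a ⟨α, hα⟩ b ⟨β, hβ⟩
    rw [pr_eq hα, pr_eq hβ, val_root hβ, val_root hα]
    have h1 := (rootSystem H).coxeterWeightIn_mem_set_of_isCrystallographic β α
    have h2 : 0 ≤ (rootSystem H).pairingIn ℤ β α * (rootSystem H).pairingIn ℤ α β := by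
      change 0 ≤ (rootSystem H).coxeterWeightIn ℤ β α
      simp only [Set.mem_insert_iff, Set.mem_singleton_iff] at h1
      omega
    exact_mod_cast h2
  · rintro a ⟨α, hα⟩ b ⟨β, hβ⟩ hne
    rw [pr_eq hα, pr_eq hβ, val_root hβ, val_root hα]
    have h1 := (rootSystem H).coxeterWeightIn_mem_set_of_isCrystallographic β α
    have h3 : (rootSystem H).coxeterWeightIn ℤ β α ≠ 4 := by
      refine (rootSystem H).coxeterWeightIn_ne_four ℤ ?_ ?_
      · rintro rfl
        exact hne 1 (Subtype.ext (by rw [one_smul, ← hα, ← hβ]))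
      · intro h
        refine hne (-1) (Subtype.ext ?_)
        have h5 : (β.1.toLinear : Dual F H) = -α.1.toLinear := h
        rw [coe_smul_PW, ← hα, ← hβ, h5]
        push_cast
        module
    have h2 : (rootSystem H).pairingIn ℤ β α * (rootSystem H).pairingIn ℤ α β < 4 := by
      change (rootSystem H).coxeterWeightIn ℤ β α < 4
      simp only [Set.mem_insert_iff, Set.mem_singleton_iff] at h1
      omega
    exact_mod_cast h2
  · rintro a ⟨α, hα⟩ b ⟨β, hβ⟩ h0
    rw [pr_eq hα, val_root hβ] at h0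
    rw [pr_eq hβ, val_root hα]
    have h1 : (rootSystem H).pairingIn ℤ β α = 0 := by exact_mod_cast h0
    have h2 : (rootSystem H).pairing β α = 0 := by
      rw [← (rootSystem H).algebraMap_pairingIn ℤ, h1, map_zero]
    have h3 := (rootSystem H).pairing_eq_zero_iff'.1 h2
    rw [← (rootSystem H).algebraMap_pairingIn ℤ] at h3
    have h4 : (((rootSystem H).pairingIn ℤ α β : ℤ) : F) = 0 := by simpa using h3
    exact_mod_cast h4

end Pool.Agent.Lib.MPf11a48.K3
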