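import Pool.Agent.Lib.MP_f11a48_ag.K3.AlgSpec

/-!
# SPL: `spn` is a homomorphism of Lie algebras
-/

set_option autoImplicit false
set_option linter.unusedSectionVars false

namespace Pool.Agent.Lib.MPf11a48.K3

open Module Matrix

namespace SplM

variable {F S : Type} [Field F] [CharZero F] [AddCommGroup S] [Module F S] {n : ℕ}

theorem comm_one {γ : Fin n → Module.End F S}
    (h : ∀ i j, γ i * γ j + γ j * γ i = if i = j then 1 else 0) (i j k : Fin n) :
    γ i * γ j * γ k - γ k * (γ i * γ j) =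
      (if j = k then γ i else 0) - (if i = k then γ j else 0) := by
  have e : γ i * γ j * γ k - γ k * (γ i * γ j) =
      γ i * (γ j * γ k + γ k * γ j) - (γ i * γ k + γ k * γ i) * γ j := by noncomm_ring
  rw [e, h j k, h i k]
  split_ifs <;> simp

/-- the commutator of a sum of products with `γ k`, no symmetry of `X` -/
theorem comm_sum {γ : Fin n → Module.End F S}
    (h : ∀ i j, γ i * γ j + γ j * γ i = if i = j then 1 else 0)
    (X : Matrix (Fin n) (Fin n) F) (k : Fin n) :
    (∑ i, ∑ j, X i j • (γ i * γ j)) * γ k - γ k * (∑ i, ∑ j, X i j • (γ i * γ j)) =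
      (∑ i, X i k • γ i) - ∑ j, X k j • γ j := by
  calc (∑ i, ∑ j, X i j • (γ i * γ j)) * γ k - γ k * (∑ i, ∑ j, X i j • (γ i * γ j))
      = ∑ i, ∑ j, X i j • (γ i * γ j * γ k - γ k * (γ i * γ j)) := by
        simp only [Finset.sum_mul, Finset.mul_sum, smul_mul_assoc, mul_smul_comm,
          ← Finset.sum_sub_distrib, smul_sub]
    _ = ∑ i, ∑ j, ((if j = k then X i j • γ i else 0) - (if i = k then X i j • γ j else 0)) := by
        refine Finset.sum_congr rfl fun i _ => Finset.sum_congr rfl fun j _ => ?_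
        rw [comm_one h, smul_sub]
        congr 1 <;> split_ifs <;> simp
    _ = (∑ i, X i k • γ i) - ∑ j, X k j • γ j := by
        simp only [Finset.sum_sub_distrib]
        congr 1
        · refine Finset.sum_congr rfl fun i _ => ?_
          rw [Finset.sum_ite_eq' Finset.univ k fun j => X i j • γ i]
          simp
        · rw [Finset.sum_comm]
          refine Finset.sum_congr rfl fun j _ => ?_
          rw [Finset.sum_ite_eq' Finset.univ k fun i => X i j • γ j]
          simp

theorem comm_gamma {γ : Fin n → Module.End F S}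
    (h : ∀ i j, γ i * γ j + γ j * γ i = if i = j then 1 else 0)
    {X : Matrix (Fin n) (Fin n) F} (hX : Xᵀ = -X) (k : Fin n) :
    spn γ X * γ k - γ k * spn γ X = ∑ i, X i k • γ i := by
  have h1 : ∀ j, X k j = -X j k := by
    intro j
    have := congrFun (congrFun hX j) k
    rw [Matrix.transpose_apply, Matrix.neg_apply] at this
    exact this
  rw [spn, smul_mul_assoc, mul_smul_comm, ← smul_sub, comm_sum h]
  have h2 : (∑ j, X k j • γ j) = -∑ j, X j k • γ j := by
    rw [← Finset.sum_neg_distrib]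
    refine Finset.sum_congr rfl fun j _ => ?_
    rw [h1 j, neg_smul]
  rw [h2, sub_neg_eq_add, ← two_smul F, smul_smul]
  norm_num

theorem comm_spn {γ : Fin n → Module.End F S}
    (h : ∀ i j, γ i * γ j + γ j * γ i = if i = j then 1 else 0)
    {X Y : Matrix (Fin n) (Fin n) F} (hX : Xᵀ = -X) (_hY : Yᵀ = -Y) :
    spn γ (X * Y - Y * X) = spn γ X * spn γ Y - spn γ Y * spn γ X := by
  have key : ∀ k l, spn γ X * (γ k * γ l) - γ k * γ l * spn γ X =
      (∑ i, X i k • (γ i * γ l)) + ∑ i, X i l • (γ k * γ i) := by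
    intro k l
    have e : spn γ X * (γ k * γ l) - γ k * γ l * spn γ X =
        (spn γ X * γ k - γ k * spn γ X) * γ l + γ k * (spn γ X * γ l - γ l * spn γ X) := by
      noncomm_ring
    rw [e, comm_gamma h hX, comm_gamma h hX, Finset.sum_mul, Finset.mul_sum]
    simp only [smul_mul_assoc, mul_smul_comm]
  have h1 : ∀ i l, -X i l = X l i := by
    intro i l
    have := congrFun (congrFun hX i) l
    rw [Matrix.transpose_apply, Matrix.neg_apply] at this
    exact this.symm
  have e1 : spn γ X * spn γ Y - spn γ Y * spn γ X =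
      (1 / 2 : F) • ∑ k, ∑ l, Y k l • (spn γ X * (γ k * γ l) - γ k * γ l * spn γ X) := by
    conv_lhs => rw [show spn γ Y = (1 / 2 : F) • ∑ i, ∑ j, Y i j • (γ i * γ j) from rfl]
    simp only [Finset.sum_mul, Finset.mul_sum, smul_mul_assoc, mul_smul_comm,
      Finset.sum_sub_distrib, smul_sub]
  rw [e1, spn]
  congr 1
  have e2 : ∑ k, ∑ l, Y k l • (spn γ X * (γ k * γ l) - γ k * γ l * spn γ X) =
      (∑ k, ∑ l, ∑ i, (X i k * Y k l) • (γ i * γ l)) +
        ∑ k, ∑ l, ∑ i, (Y k l * X i l) • (γ k * γ i) := by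
    rw [← Finset.sum_add_distrib]
    refine Finset.sum_congr rfl fun k _ => ?_
    rw [← Finset.sum_add_distrib]
    refine Finset.sum_congr rfl fun l _ => ?_
    rw [key, smul_add, Finset.smul_sum, Finset.smul_sum]
    congr 1
    · refine Finset.sum_congr rfl fun i _ => ?_
      rw [smul_smul, mul_comm]
    · refine Finset.sum_congr rfl fun i _ => ?_
      rw [smul_smul]
  rw [e2]
  have e3 : (∑ k, ∑ l, ∑ i, (X i k * Y k l) • (γ i * γ l)) =
      ∑ i, ∑ l, (X * Y) i l • (γ i * γ l) := by
    calc (∑ k, ∑ l, ∑ i, (X i k * Y k l) • (γ i * γ l))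
        = ∑ k, ∑ i, ∑ l, (X i k * Y k l) • (γ i * γ l) :=
          Finset.sum_congr rfl fun k _ => Finset.sum_comm
      _ = ∑ i, ∑ k, ∑ l, (X i k * Y k l) • (γ i * γ l) := Finset.sum_comm
      _ = ∑ i, ∑ l, ∑ k, (X i k * Y k l) • (γ i * γ l) :=
          Finset.sum_congr rfl fun i _ => Finset.sum_comm
      _ = _ := by
          refine Finset.sum_congr rfl fun i _ => Finset.sum_congr rfl fun l _ => ?_
          rw [Matrix.mul_apply, Finset.sum_smul]
  have e4 : (∑ k, ∑ l, ∑ i, (Y k l * X i l) • (γ k * γ i)) =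
      -∑ k, ∑ i, (Y * X) k i • (γ k * γ i) := by
    rw [← Finset.sum_neg_distrib]
    refine Finset.sum_congr rfl fun k _ => ?_
    rw [Finset.sum_comm, ← Finset.sum_neg_distrib]
    refine Finset.sum_congr rfl fun i _ => ?_
    rw [Matrix.mul_apply, Finset.sum_smul, ← Finset.sum_neg_distrib]
    refine Finset.sum_congr rfl fun l _ => ?_
    rw [← neg_smul, ← h1 l i, mul_neg]
  rw [e3, e4, ← sub_eq_add_neg, ← Finset.sum_sub_distrib]
  refine Finset.sum_congr rfl fun i _ => ?_
  rw [← Finset.sum_sub_distrib]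
  refine Finset.sum_congr rfl fun l _ => ?_
  rw [← sub_smul, Matrix.sub_apply]

end SplM

theorem specSpl : SpecSpl := by
  intro F S _ _ _ _ n γ h
  exact ⟨fun X hX k => SplM.comm_gamma h hX k, fun X Y hX hY => SplM.comm_spn h hX hY⟩

end Pool.Agent.Lib.MPf11a48.K3
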