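import Pool.Agent.Lib.MP_f11a48_ag.K3.Root

/-!
# Modules with a one-dimensional zero weight space
-/

set_option autoImplicit false
set_option linter.unusedSectionVars false

namespace Pool.Agent.Lib.MPf11a48.K3

open Module LieAlgebra LieAlgebra.IsKilling LieModule

namespace StarM

open WtM Sl2M RootM

section sl2

variable {F : Type} [Field F] [CharZero F] {M : Type} [AddCommGroup M] [Module F M]
  [Module.Finite F M] {e f h : M →ₗ[F] M}

/-- if `f w = c v₀` with `h w = 2 w` and `h v₀ = 0`, `f (e v₀) = x v₀`, then `x = r (r + 1)` -/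
theorem xval (T : Tri e f h) {w v₀ : M} {c x : F} (hw : h w = (2 : F) • w) (hw0 : w ≠ 0)
    (h0 : h v₀ = (0 : F) • v₀) (hf : f w = c • v₀) (hx : f (e v₀) = x • v₀) :
    ∃ r : ℕ, 1 ≤ r ∧ x = (r : F) * (r + 1) := by
  obtain ⟨N, hN, hN'⟩ := T.last hw hw0
  have h1 := T.e_pow_f hw N
  rw [hN', map_zero, zero_add, hf, map_smul] at h1
  have h2 : ((N : F) + 1) * (2 + N) ≠ 0 := by
    have h3 : ((N : F) + 1) * (2 + N) = (((N + 1) * (2 + N) : ℕ) : F) := by push_cast; ring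
    rw [h3]
    have h4 : (N + 1) * (2 + N) ≠ 0 := by positivity
    exact_mod_cast h4
  have h3 : c • (e ^ (N + 1)) v₀ ≠ 0 := by
    rw [h1]
    exact smul_ne_zero h2 hN
  have hc : c ≠ 0 := fun h => h3 (by rw [h, zero_smul])
  have h4 : (e ^ (N + 1)) v₀ ≠ 0 := fun h => h3 (by rw [h, smul_zero])
  have h5 : (e ^ (N + 2)) v₀ = 0 := by
    have h6 : c • (e ^ (N + 2)) v₀ = 0 := by
      rw [pow_succ' e (N + 1), Module.End.mul_apply, ← map_smul, h1, map_smul,
        ← Module.End.mul_apply, ← pow_succ', hN', smul_zero]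
    exact (smul_eq_zero.1 h6).resolve_left hc
  refine ⟨N + 1, Nat.le_add_left _ _, ?_⟩
  have h6 : h (e v₀) = (2 : F) • e v₀ := by
    have h7 := T.h_e_pow h0 1
    rw [pow_one] at h7
    rw [h7]
    congr 1
    push_cast
    ring
  have h7 := T.e_pow_f h6 N
  have h8 : (e ^ (N + 1)) (e v₀) = (e ^ (N + 2)) v₀ := by
    rw [← Module.End.mul_apply, ← pow_succ]
  have h9 : (e ^ N) (e v₀) = (e ^ (N + 1)) v₀ := by
    rw [← Module.End.mul_apply, ← pow_succ]
  rw [h8, h5, map_zero, zero_add, h9, hx, map_smul] at h7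
  have h10 : x - ((N : F) + 1) * (2 + N) = 0 := by
    have h11 : (x - ((N : F) + 1) * (2 + N)) • (e ^ (N + 1)) v₀ = 0 := by
      rw [sub_smul, h7, sub_self]
    exact (smul_eq_zero.1 h11).resolve_right h4
  push_cast
  linear_combination h10

end sl2

variable {F L : Type} [Field F] [CharZero F] [IsAlgClosed F] [LieRing L] [LieAlgebra F L]
  [Module.Finite F L] [IsKilling F L] {H : LieSubalgebra F L} [H.IsCartanSubalgebra]
  {M : Type} [AddCommGroup M] [Module F M]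

theorem neg_mem_R {a : PW H} (h : a ∈ (rdat H).R) : -a ∈ (rdat H).R := by
  have hok := specRoot F L H
  have h1 := hok.refl a h a h
  rw [hok.two a h] at h1
  have h2 : a - (2 : ℚ) • a = -a := by module
  rwa [h2] at h1

/-- the difference of two roots with non-zero bracket -/
theorem lie_zero {α β : H.root} {a b : PW H} (hα : (α.1.toLinear : Dual F H) = a.1)
    (hβ : (β.1.toLinear : Dual F H) = b.1) (hab : a ≠ b) (hR : a - b ∉ (rdat H).R) {e f : L}
    (he : e ∈ rootSpace H α.1) (hf : f ∈ rootSpace H (-β.1 : Weight F H L)) : ⁅e, f⁆ = 0 := by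
  by_contra h0
  have h1 := lie_mem_genWeightSpace_of_mem_genWeightSpace he hf
  have h2 : genWeightSpace L ((α.1 : H → F) + ((-β.1 : Weight F H L) : H → F)) ≠ ⊥ := by
    intro h
    rw [h] at h1
    exact h0 h1
  let γ : Weight F H L := ⟨(α.1 : H → F) + ((-β.1 : Weight F H L) : H → F), h2⟩
  have h3 : (γ.toLinear : Dual F H) = (a - b : PW H).1 := by
    rw [Submodule.coe_sub, ← hα, ← hβ, sub_eq_add_neg]
    rfl
  have h4 : γ.IsNonZero := by
    intro hz
    refine hab (Subtype.ext ?_)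
    have h5 : (γ.toLinear : Dual F H) = 0 := by
      refine LinearMap.ext fun x => ?_
      have : γ x = 0 := by rw [hz.eq]; rfl
      exact this
    rw [h3, Submodule.coe_sub, sub_eq_zero] at h5
    exact h5
  exact hR ⟨⟨γ, by simpa using h4⟩, h3⟩

theorem wtsp_of_zero [Module.Finite F M] {ρ : Rp F L M} {μ : Dual F H}
    (h : finrank F (wtsp H ρ μ) = 0) {v : M} (hv : v ∈ wtsp H ρ μ) : v = 0 := by
  have h1 : wtsp H ρ μ = ⊥ := Submodule.finrank_eq_zero.1 h
  rw [h1] at hv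
  exact hv

/-- `f e v₀ = r (r + 1) v₀` with `r ≥ 1` -/
theorem exists_r [Module.Finite F M] {ρ : Rp F L M} {α : H.root} {e f : L}
    (hf : f ∈ rootSpace H (-α.1 : Weight F H L)) (he : e ∈ rootSpace H α.1)
    (T : Tri (ρ.r e) (ρ.r f) (ρ.r ((coroot α.1 : H) : L))) {v₀ : M}
    (hv₀ : v₀ ∈ wtsp H ρ 0) (hspan : ∀ v ∈ wtsp H ρ 0, ∃ c : F, v = c • v₀)
    (hα : finrank F (wtsp H ρ α.1.toLinear) ≠ 0) :
    ∃ r : ℕ, 1 ≤ r ∧ ρ.r f (ρ.r e v₀) = ((r : F) * (r + 1)) • v₀ := by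
  obtain ⟨w, hw, hw0⟩ := Submodule.exists_mem_ne_zero_of_ne_bot
    (p := wtsp H ρ α.1.toLinear) (fun h => hα (by rw [h, finrank_bot]))
  have h1 : ρ.r ((coroot α.1 : H) : L) w = (2 : F) • w := by
    rw [hw (coroot α.1), root_two]
  have h2 : ρ.r ((coroot α.1 : H) : L) v₀ = (0 : F) • v₀ := hv₀ (coroot α.1)
  obtain ⟨c, hc⟩ := hspan (ρ.r f w) (by
    have := root_mem_neg hf hw
    rwa [sub_self] at this)
  obtain ⟨x, hx⟩ := hspan (ρ.r f (ρ.r e v₀)) (by
    have := root_mem_neg hf (root_mem he hv₀)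
    rwa [zero_add, sub_self] at this)
  obtain ⟨r, hr, h3⟩ := xval T h1 hw0 h2 hc hx
  exact ⟨r, hr, by rw [hx, h3]⟩

end StarM

open StarM WtM Sl2M in
/-- STAR -/
theorem specStar : SpecStar := by
  intro F L _ _ _ _ _ _ _ H _ M _ _ _ ρ hd0 a ha b hb hne hda hdb hdba hdab' hbaR hdab
  obtain ⟨α, hα⟩ := ha
  obtain ⟨β, hβ⟩ := hb
  have hab : a ≠ b := fun h => hne 1 (by rw [h, one_smul])
  have hba : b - a = -(a - b) := by abel
  have habR : a - b ∉ (rdat H).R := fun h => hbaR (by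
    rw [hba]
    exact neg_mem_R h)
  obtain ⟨e, f, he, hf, -, T⟩ := exists_tri ρ α
  obtain ⟨e', f', he', hf', -, T'⟩ := exists_tri ρ β
  have c1 : ⁅e, f'⁆ = 0 := lie_zero hα hβ hab habR he hf'
  have c2 : ⁅e', f⁆ = 0 := lie_zero hβ hα hab.symm hbaR he' hf
  have c1' : ∀ v, ρ.r f' (ρ.r e v) = ρ.r e (ρ.r f' v) := by
    intro v
    have := ρ.lie e f' v
    rw [c1, map_zero, LinearMap.zero_apply] at this
    exact (sub_eq_zero.1 this.symm).symm
  have c2' : ∀ v, ρ.r f (ρ.r e' v) = ρ.r e' (ρ.r f v) := by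
    intro v
    have := ρ.lie e' f v
    rw [c2, map_zero, LinearMap.zero_apply] at this
    exact (sub_eq_zero.1 this.symm).symm
  -- the zero weight space
  obtain ⟨⟨v₀, hv₀⟩, hv₀0, hgen⟩ := finrank_eq_one_iff'.1 hd0
  have hv₀' : v₀ ∈ wtsp H ρ 0 := hv₀
  have hspan : ∀ v ∈ wtsp H ρ 0, ∃ c : F, v = c • v₀ := by
    intro v hv
    obtain ⟨c, hc⟩ := hgen ⟨v, hv⟩
    exact ⟨c, (congrArg Subtype.val hc).symm⟩
  have hv0 : v₀ ≠ 0 := fun h => hv₀0 (Subtype.ext h)
  obtain ⟨r, hr, hxa⟩ := exists_r hf he T hv₀' hspan (by rw [hα]; exact hda)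
  obtain ⟨s, hs, hxb⟩ := exists_r hf' he' T' hv₀' hspan (by rw [hβ]; exact hdb)
  have hr0 : ((r : F) * (r + 1)) ≠ 0 := by
    have h1 : ((r : F) * (r + 1)) = ((r * (r + 1) : ℕ) : F) := by push_cast; ring
    rw [h1]
    have h2 : r * (r + 1) ≠ 0 := by positivity
    exact_mod_cast h2
  have hs0 : ((s : F) * (s + 1)) ≠ 0 := by
    have h1 : ((s : F) * (s + 1)) = ((s * (s + 1) : ℕ) : F) := by push_cast; ring
    rw [h1]
    have h2 : s * (s + 1) ≠ 0 := by positivity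
    exact_mod_cast h2
  have hea0 : ρ.r e v₀ ≠ 0 := by
    intro h
    rw [h, map_zero] at hxa
    exact smul_ne_zero hr0 hv0 hxa.symm
  have heb0 : ρ.r e' v₀ ≠ 0 := by
    intro h
    rw [h, map_zero] at hxb
    exact smul_ne_zero hs0 hv0 hxb.symm
  have hea : ρ.r e v₀ ∈ wtsp H ρ α.1.toLinear := by
    have := root_mem he hv₀'
    rwa [zero_add] at this
  have heb : ρ.r e' v₀ ∈ wtsp H ρ β.1.toLinear := by
    have := root_mem he' hv₀'
    rwa [zero_add] at this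
  have z1 : ρ.r f (ρ.r e' v₀) = 0 := by
    refine wtsp_of_zero (μ := (b - a : PW H).1) hdba ?_
    have := root_mem_neg hf heb
    rwa [hα, hβ, ← Submodule.coe_sub] at this
  have z2 : ρ.r f' (ρ.r e v₀) = 0 := by
    refine wtsp_of_zero (μ := (a - b : PW H).1) hdab' ?_
    have := root_mem_neg hf' hea
    rwa [hα, hβ, ← Submodule.coe_sub] at this
  -- the two vectors in the weight space of `α + β`
  have hA : ρ.r e (ρ.r e' v₀) ∈ wtsp H ρ (a + b : PW H).1 := by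
    have := root_mem he heb
    rwa [hα, hβ, add_comm, ← Submodule.coe_add] at this
  have hB : ρ.r e' (ρ.r e v₀) ∈ wtsp H ρ (a + b : PW H).1 := by
    have := root_mem he' hea
    rwa [hα, hβ, ← Submodule.coe_add] at this
  have fA : ρ.r f (ρ.r e (ρ.r e' v₀)) = -((β.1.toLinear : Dual F H) (coroot α.1) • ρ.r e' v₀) := by
    have h1 := T.ef (ρ.r e' v₀)
    rw [z1, map_zero, heb (coroot α.1)] at h1
    exact eq_neg_of_add_eq_zero_left h1.symm
  have fB : ρ.r f (ρ.r e' (ρ.r e v₀)) = ((r : F) * (r + 1)) • ρ.r e' v₀ := by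
    rw [c2', hxa, map_smul]
  have f'B : ρ.r f' (ρ.r e' (ρ.r e v₀)) = -((α.1.toLinear : Dual F H) (coroot β.1) • ρ.r e v₀) := by
    have h1 := T'.ef (ρ.r e v₀)
    rw [z2, map_zero, hea (coroot β.1)] at h1
    exact eq_neg_of_add_eq_zero_left h1.symm
  have f'A : ρ.r f' (ρ.r e (ρ.r e' v₀)) = ((s : F) * (s + 1)) • ρ.r e v₀ := by
    rw [c1', hxb, map_smul]
  have hB0 : ρ.r e' (ρ.r e v₀) ≠ 0 := by
    intro h
    rw [h, map_zero] at fB
    exact smul_ne_zero hr0 heb0 fB.symm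
  obtain ⟨t, ht⟩ : ∃ t : F, ρ.r e (ρ.r e' v₀) = t • ρ.r e' (ρ.r e v₀) := by
    have h1 := finrank_le_one_iff.1 hdab
    obtain ⟨w, hw⟩ := h1
    obtain ⟨p, hp⟩ := hw ⟨_, hA⟩
    obtain ⟨q, hq⟩ := hw ⟨_, hB⟩
    have hp' : p • w.1 = ρ.r e (ρ.r e' v₀) := congrArg Subtype.val hp
    have hq' : q • w.1 = ρ.r e' (ρ.r e v₀) := congrArg Subtype.val hq
    have hq0 : q ≠ 0 := by
      rintro rfl
      rw [zero_smul] at hq'
      exact hB0 hq'.symm
    refine ⟨p * q⁻¹, ?_⟩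
    rw [← hp', ← hq', smul_smul, mul_assoc, inv_mul_cancel₀ hq0, mul_one]
  have k1 : -((β.1.toLinear : Dual F H) (coroot α.1)) = t * ((r : F) * (r + 1)) := by
    have h1 : (-((β.1.toLinear : Dual F H) (coroot α.1)) - t * ((r : F) * (r + 1))) • ρ.r e' v₀ = 0 := by
      rw [sub_smul, neg_smul, ← fA, ht, map_smul, fB, smul_smul, sub_self]
    exact sub_eq_zero.1 ((smul_eq_zero.1 h1).resolve_right heb0)
  have k2 : (s : F) * (s + 1) = t * -((α.1.toLinear : Dual F H) (coroot β.1)) := by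
    have h1 : ((s : F) * (s + 1) - t * -((α.1.toLinear : Dual F H) (coroot β.1))) • ρ.r e v₀ = 0 := by
      rw [sub_smul, ← f'A, ht, map_smul, f'B, mul_neg, neg_smul, ← smul_smul, smul_neg, sub_self]
    exact sub_eq_zero.1 ((smul_eq_zero.1 h1).resolve_right hea0)
  have k3 : (β.1.toLinear : Dual F H) (coroot α.1) * (α.1.toLinear : Dual F H) (coroot β.1) =
      ((r : F) * (r + 1)) * ((s : F) * (s + 1)) := by
    rw [k2]
    linear_combination ((α.1.toLinear : Dual F H) (coroot β.1)) * k1 * (-1)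
  have hok := specRoot F L H
  have h4 := hok.prod a ⟨α, hα⟩ b ⟨β, hβ⟩ hne
  rw [pr_eq hα, pr_eq hβ] at h4
  have h5 : ((val α b * val β a : ℚ) : F) = ((r * (r + 1) * (s * (s + 1)) : ℕ) : F) := by
    push_cast
    rw [← val_spec, ← val_spec, ← hα, ← hβ, k3]
  have h6 : (val α b * val β a : ℚ) = ((r * (r + 1) * (s * (s + 1)) : ℕ) : ℚ) := by
    exact_mod_cast h5
  rw [h6] at h4
  have h7 : r * (r + 1) * (s * (s + 1)) < 4 := by exact_mod_cast h4
  have h8 : 2 ≤ r * (r + 1) := by nlinarith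
  have h9 : 2 ≤ s * (s + 1) := by nlinarith
  have h10 : 2 * 2 ≤ r * (r + 1) * (s * (s + 1)) := Nat.mul_le_mul h8 h9
  omega

end Pool.Agent.Lib.MPf11a48.K3
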