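import Pool.Agent.Lib.MP_f11a48_ag.K3.LieDefs

/-!
# Weyl's theorem on complete reducibility
-/

set_option autoImplicit false
set_option linter.unusedSectionVars false

namespace Pool.Agent.Lib.MPf11a48.K3

open Module LieAlgebra LieAlgebra.IsKilling LieModule

namespace WeylM

section basic

variable {F L : Type} [Field F] [CharZero F] [LieRing L] [LieAlgebra F L] [Module.Finite F L]
  [IsKilling F L] {M : Type} [AddCommGroup M] [Module F M] [Module.Finite F M]
  [LieRingModule L M] [LieModule F L M]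

/-- an ideal `D` which acts nilpotently on `M`, `N` a minimal submodule containing `L M`:
`⁅D, D⁆` acts trivially -/
theorem ideal_zero (N : LieSubmodule F L M) (hN : N ≠ ⊥)
    (hmin : ∀ N' : LieSubmodule F L M, N' ≤ N → N' = ⊥ ∨ N' = N)
    (D : LieIdeal F L) (hD : ∀ x ∈ D, IsNilpotent (toEnd F L M x)) :
    ∀ x ∈ D, ∀ n ∈ N, ⁅x, n⁆ = 0 := by
  -- the submodule of vectors of `N` killed by `D`
  let W : LieSubmodule F L M :=
    { carrier := {m | m ∈ N ∧ ∀ x ∈ D, ⁅x, m⁆ = 0}
      add_mem' := by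
        rintro a b ⟨ha, ha'⟩ ⟨hb, hb'⟩
        refine ⟨N.add_mem ha hb, fun x hx => ?_⟩
        rw [lie_add, ha' x hx, hb' x hx, add_zero]
      zero_mem' := ⟨N.zero_mem, fun x _ => lie_zero x⟩
      smul_mem' := by
        rintro t a ⟨ha, ha'⟩
        refine ⟨N.smul_mem t ha, fun x hx => ?_⟩
        rw [lie_smul, ha' x hx, smul_zero]
      lie_mem := by
        rintro y a ⟨ha, ha'⟩
        refine ⟨N.lie_mem ha, fun x hx => ?_⟩
        rw [leibniz_lie, ha' x hx, lie_zero, add_zero]
        exact ha' _ (lie_mem_left F L D x y hx) }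
  have hWN : W ≤ N := fun m hm => hm.1
  rcases hmin W hWN with h | h
  · exfalso
    -- Engel
    have hnt : Nontrivial N := (LieSubmodule.nontrivial_iff_ne_bot F L M).2 hN
    have hnil : LieModule.IsNilpotent D N := by
      rw [LieModule.isNilpotent_iff_forall' (R := F)]
      rintro ⟨x, hx⟩
      obtain ⟨k, hk⟩ := hD x hx
      refine ⟨k, ?_⟩
      have h1 : ∀ (j : ℕ) (n : N), (((toEnd F D N ⟨x, hx⟩) ^ j) n : M) =
          ((toEnd F L M x) ^ j) (n : M) := by
        intro j
        induction j with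
        | zero => intro n; simp
        | succ j ih =>
          intro n
          rw [pow_succ', pow_succ', Module.End.mul_apply, Module.End.mul_apply, ← ih n]
          rfl
      ext n
      rw [h1, hk]
      rfl
    have hmt := LieModule.nontrivial_max_triv_of_isNilpotent F D N
    obtain ⟨m, hm⟩ := exists_ne (0 : maxTrivSubmodule F D N)
    have hmem := (LieModule.mem_maxTrivSubmodule (R := F) (L := D) (M := N) m.1).1 m.2
    have h2 : (m.1 : M) ∈ W := by
      refine ⟨m.1.2, fun x hx => ?_⟩
      have := hmem ⟨x, hx⟩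
      exact congrArg Subtype.val this
    rw [h] at h2
    apply hm
    have h3 : (m.1 : M) = 0 := (LieSubmodule.mem_bot _).1 h2
    exact Subtype.ext (Subtype.ext h3)
  · intro x hx n hn
    rw [← h] at hn
    exact hn.2 x hx

/-- the radical of the trace form acts trivially -/
theorem rad_le_ker (N : LieSubmodule F L M) (hLM : ∀ (x : L) (m : M), ⁅x, m⁆ ∈ N) (hN : N ≠ ⊥)
    (hmin : ∀ N' : LieSubmodule F L M, N' ≤ N → N' = ⊥ ∨ N' = N)
    (x : L) (hx : ∀ y, traceForm F L M y x = 0) : toEnd F L M x = 0 := by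
  let K : LieIdeal F L := LieModule.ker F L M
  let I : LieIdeal F L :=
    InvariantForm.orthogonal (traceForm F L M) (traceForm_lieInvariant F L M) ⊤
  have hI : ∀ z, z ∈ I ↔ ∀ y, traceForm F L M y z = 0 := by
    intro z
    exact ⟨fun h y => h y (LieSubmodule.mem_top y), fun h y _ => h y⟩
  have hK : ∀ z, z ∈ K ↔ ∀ m : M, ⁅z, m⁆ = 0 := fun z => LieModule.mem_ker F L M z
  have hKI : K ≤ I := by
    intro z hz
    rw [hI]
    intro y
    have : toEnd F L M z = 0 := LinearMap.ext fun m => (hK z).1 hz m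
    rw [traceForm_apply_apply, this, LinearMap.comp_zero, map_zero]
  -- the part of `I` orthogonal to `K`
  let I' : LieIdeal F L := I ⊓ K.killingCompl
  have hI' : I' = ⊥ := by
    let D : LieIdeal F L := ⁅I', I'⁆
    have hDI : D ≤ I' := LieSubmodule.lie_le_left I' I'
    have tf : traceForm F I' M = 0 := by
      ext ⟨a, ha⟩ ⟨b, hb⟩
      exact (hI b).1 hb.1 a
    have nil : LieModule.IsNilpotent (derivedSeries F I' 1) M :=
      isNilpotent_derivedSeries_of_traceForm_eq_zero tf
    have hnil : ∀ z ∈ D, IsNilpotent (toEnd F L M z) := by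
      intro z hz
      have h1 : (⟨z, hDI hz⟩ : I') ∈ derivedSeries F I' 1 := by
        rw [LieIdeal.derivedSeries_eq_derivedSeriesOfIdeal_comap, LieIdeal.mem_comap]
        exact hz
      exact (LieModule.isNilpotent_iff_forall' (R := F)).1 nil ⟨_, h1⟩
    have hDN := ideal_zero N hN hmin D hnil
    have hDD : ⁅D, D⁆ = ⊥ := by
      rw [LieSubmodule.lie_eq_bot_iff]
      intro a ha b hb
      have h1 : ⁅a, b⁆ ∈ K := by
        rw [hK]
        intro m
        rw [lie_lie, hDN a ha _ (hLM b m), hDN b hb _ (hLM a m), sub_zero]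
      have h2 : ⁅a, b⁆ ∈ K.killingCompl := (hDI (lie_mem_left F L D a b ha)).2
      have h3 := (LieIdeal.isCompl_killingCompl K).disjoint
      rw [disjoint_iff] at h3
      have h4 : ⁅a, b⁆ ∈ K ⊓ K.killingCompl := ⟨h1, h2⟩
      rw [h3] at h4
      exact (LieSubmodule.mem_bot _).1 h4
    have hDab : IsLieAbelian D := (LieSubmodule.lie_abelian_iff_lie_self_eq_bot D).2 hDD
    have hD0 : D = ⊥ := ideal_eq_bot_of_isLieAbelian D
    have hI'ab : IsLieAbelian I' := (LieSubmodule.lie_abelian_iff_lie_self_eq_bot I').2 hD0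
    exact ideal_eq_bot_of_isLieAbelian I'
  have hxI : x ∈ I := (hI x).2 hx
  have htop := (LieIdeal.isCompl_killingCompl K).codisjoint
  rw [codisjoint_iff] at htop
  have hxt : x ∈ (K ⊔ K.killingCompl : LieIdeal F L) := by
    rw [htop]
    exact LieSubmodule.mem_top x
  obtain ⟨a, ha, b, hb, hab⟩ := (LieSubmodule.mem_sup _ _ _).1 hxt
  have hbI : b ∈ I' := by
    refine ⟨?_, hb⟩
    have : b = x - a := by rw [← hab]; abel
    rw [this]
    exact I.sub_mem hxI (hKI ha)
  rw [hI'] at hbI
  have hb0 : b = 0 := (LieSubmodule.mem_bot _).1 hbI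
  rw [hb0, add_zero] at hab
  rw [← hab]
  exact LinearMap.ext fun m => (hK a).1 ha m

/-- the Casimir operator of a nondegenerate Lie algebra of endomorphisms -/
theorem casimir (hnd : ∀ x : L, (∀ y, traceForm F L M y x = 0) → toEnd F L M x = 0)
    (hne : ∃ x : L, toEnd F L M x ≠ 0) :
    ∃ C : Module.End F M, (∀ (x : L) (m : M), C ⁅x, m⁆ = ⁅x, C m⁆) ∧
      (∀ N : LieSubmodule F L M, (∀ (x : L) (m : M), ⁅x, m⁆ ∈ N) → ∀ m, C m ∈ N) ∧
      LinearMap.trace F M C ≠ 0 := by
  classical
  let g : Submodule F (Module.End F M) := LinearMap.range (toEnd F L M : L →ₗ[F] Module.End F M)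
  have hg : ∀ X : g, ∃ x : L, toEnd F L M x = X.1 := fun X => X.2
  -- the trace form on `g`
  let T : LinearMap.BilinForm F (Module.End F M) :=
    (LinearMap.mul F (Module.End F M)).compr₂ (LinearMap.trace F M)
  have hT : ∀ X Y, T X Y = LinearMap.trace F M (X * Y) := fun X Y => rfl
  let B : LinearMap.BilinForm F g := T.restrict g
  have hB : ∀ X Y : g, B X Y = LinearMap.trace F M (X.1 * Y.1) := fun X Y => rfl
  have hsymm : ∀ X Y : g, B X Y = B Y X := by
    intro X Y
    rw [hB, hB, LinearMap.trace_mul_comm]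
  have hsep : ∀ X : g, (∀ Y : g, B Y X = 0) → X = 0 := by
    intro X hX
    obtain ⟨x, hx⟩ := hg X
    have h1 := hnd x fun y => by
      have h2 := hX ⟨toEnd F L M y, ⟨y, rfl⟩⟩
      rw [hB, ← hx] at h2
      exact h2
    rw [hx] at h1
    exact Subtype.ext h1
  have hBn : B.Nondegenerate := by
    refine ⟨?_, ?_⟩
    · intro X hX
      exact hsep X fun Y => by rw [hsymm]; exact hX Y
    · intro X hX
      exact hsep X hX
  let b := Module.finBasis F g
  let d := B.dualBasis hBn b
  have hbd : ∀ i j, B (d i) (b j) = if j = i then 1 else 0 := fun i j =>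
    LinearMap.BilinForm.apply_dualBasis_left hBn b i j
  have e1 : ∀ X : g, X = ∑ j, B (d j) X • b j := by
    intro X
    have h1 : X = ∑ j, b.repr X j • b j := (b.sum_repr X).symm
    have h2 : ∀ j, B (d j) X = b.repr X j := by
      intro j
      conv_lhs => rw [h1]
      rw [map_sum]
      simp_rw [map_smul, hbd]
      simp
    simp_rw [h2]
    exact h1
  have e2 : ∀ X : g, X = ∑ j, B (b j) X • d j := by
    intro X
    have h1 : X = ∑ j, d.repr X j • d j := (d.sum_repr X).symm
    have h2 : ∀ j, B (b j) X = d.repr X j := by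
      intro j
      conv_lhs => rw [h1]
      rw [map_sum]
      simp_rw [map_smul, hsymm (b j) (d _), hbd]
      simp
    simp_rw [h2]
    exact h1
  let C : Module.End F M := ∑ i, (b i).1 * (d i).1
  refine ⟨C, ?_, ?_, ?_⟩
  · -- invariance
    intro x m
    have hbr : ∀ X : g, toEnd F L M x * X.1 - X.1 * toEnd F L M x ∈ g := by
      intro X
      obtain ⟨y, hy⟩ := hg X
      refine ⟨⁅x, y⁆, ?_⟩
      rw [← hy]
      refine LinearMap.ext fun m => ?_
      change ⁅⁅x, y⁆, m⁆ = ⁅x, ⁅y, m⁆⁆ - ⁅y, ⁅x, m⁆⁆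
      exact lie_lie x y m
    let br : g → g := fun X => ⟨toEnd F L M x * X.1 - X.1 * toEnd F L M x, hbr X⟩
    have inv : ∀ i j, B (d j) (br (b i)) = -B (b i) (br (d j)) := by
      intro i j
      rw [hB, hB]
      change LinearMap.trace F M ((d j).1 * (toEnd F L M x * (b i).1 - (b i).1 * toEnd F L M x)) =
        -LinearMap.trace F M ((b i).1 * (toEnd F L M x * (d j).1 - (d j).1 * toEnd F L M x))
      have t1 : LinearMap.trace F M ((d j).1 * (toEnd F L M x * (b i).1)) =
          LinearMap.trace F M ((b i).1 * ((d j).1 * toEnd F L M x)) := by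
        rw [← mul_assoc, LinearMap.trace_mul_comm]
      have t2 : LinearMap.trace F M ((b i).1 * (toEnd F L M x * (d j).1)) =
          LinearMap.trace F M ((d j).1 * ((b i).1 * toEnd F L M x)) := by
        rw [← mul_assoc, LinearMap.trace_mul_comm]
      rw [mul_sub, mul_sub, map_sub, map_sub, t1, t2]
      ring
    have hcomm : toEnd F L M x * C - C * toEnd F L M x = 0 := by
      have h1 : toEnd F L M x * C - C * toEnd F L M x =
          ∑ i, (br (b i)).1 * (d i).1 + ∑ i, (b i).1 * (br (d i)).1 := by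
        rw [Finset.mul_sum, Finset.sum_mul, ← Finset.sum_sub_distrib, ← Finset.sum_add_distrib]
        refine Finset.sum_congr rfl fun i _ => ?_
        change _ = (toEnd F L M x * (b i).1 - (b i).1 * toEnd F L M x) * (d i).1 +
          (b i).1 * (toEnd F L M x * (d i).1 - (d i).1 * toEnd F L M x)
        rw [sub_mul, mul_sub, mul_assoc, mul_assoc, mul_assoc]
        abel
      have h2 : ∀ i, (br (b i)).1 = ∑ j, B (d j) (br (b i)) • (b j).1 := by
        intro i
        have := congrArg Subtype.val (e1 (br (b i)))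
        rw [this]
        simp
      have h3 : ∀ i, (br (d i)).1 = ∑ j, B (b j) (br (d i)) • (d j).1 := by
        intro i
        have := congrArg Subtype.val (e2 (br (d i)))
        rw [this]
        simp
      rw [h1]
      simp_rw [h2, h3, Finset.sum_mul, Finset.mul_sum]
      rw [Finset.sum_comm (f := fun i j => (b i).1 * B (b j) (br (d i)) • (d j).1),
        ← Finset.sum_add_distrib]
      refine Finset.sum_eq_zero fun i _ => ?_
      rw [← Finset.sum_add_distrib]
      refine Finset.sum_eq_zero fun j _ => ?_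
      rw [inv i j, smul_mul_assoc, mul_smul_comm, neg_smul, neg_add_cancel]
    have := LinearMap.congr_fun hcomm m
    change ⁅x, C m⁆ - C ⁅x, m⁆ = 0 at this
    exact (sub_eq_zero.1 this).symm
  · intro N hN m
    change (∑ i, (b i).1 * (d i).1) m ∈ N
    rw [LinearMap.sum_apply]
    refine N.toSubmodule.sum_mem fun i _ => ?_
    obtain ⟨y, hy⟩ := hg (b i)
    rw [Module.End.mul_apply, ← hy]
    exact hN y _
  · have h1 : LinearMap.trace F M C = (finrank F g : F) := by
      change LinearMap.trace F M (∑ i, (b i).1 * (d i).1) = _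
      rw [map_sum]
      have h2 : ∀ i, LinearMap.trace F M ((b i).1 * (d i).1) = 1 := by
        intro i
        have := hbd i i
        rw [hsymm, hB, if_pos rfl] at this
        exact this
      simp_rw [h2]
      simp
    rw [h1]
    have h3 : g ≠ ⊥ := by
      obtain ⟨x, hx⟩ := hne
      intro h
      have : toEnd F L M x ∈ g := ⟨x, rfl⟩
      rw [h] at this
      exact hx ((Submodule.mem_bot F).1 this)
    have h4 : 0 < finrank F g := by
      rw [Module.finrank_pos_iff]
      exact Submodule.nontrivial_iff_ne_bot.2 h3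
    exact_mod_cast h4.ne'

/-- the case of a minimal submodule of codimension one -/
theorem min_case (ℓ : M →ₗ[F] F) (hℓ : ∀ (x : L) (m : M), ℓ ⁅x, m⁆ = 0) (hne : ℓ ≠ 0)
    (N : LieSubmodule F L M) (hNdef : ∀ m, m ∈ N ↔ ℓ m = 0)
    (hmin : ∀ N' : LieSubmodule F L M, N' ≤ N → N' = ⊥ ∨ N' = N) :
    ∃ v : M, (∀ x : L, ⁅x, v⁆ = 0) ∧ ℓ v ≠ 0 := by
  have hLM : ∀ (x : L) (m : M), ⁅x, m⁆ ∈ N := fun x m => (hNdef _).2 (hℓ x m)
  obtain ⟨v, hv⟩ : ∃ v, ℓ v ≠ 0 := by
    by_contra h
    push Not at h
    exact hne (LinearMap.ext h)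
  by_cases hN : N = ⊥
  · refine ⟨v, fun x => ?_, hv⟩
    have := hLM x v
    rw [hN] at this
    exact (LieSubmodule.mem_bot _).1 this
  by_cases h0 : ∃ x : L, toEnd F L M x ≠ 0
  · obtain ⟨C, hC1, hC2, hC3⟩ := casimir (fun x hx => rad_le_ker N hLM hN hmin x hx) h0
    -- the kernel of `C` on `N`
    let Z : LieSubmodule F L M :=
      { carrier := {m | m ∈ N ∧ C m = 0}
        add_mem' := by
          rintro a b ⟨ha, ha'⟩ ⟨hb, hb'⟩
          exact ⟨N.add_mem ha hb, by rw [map_add, ha', hb', add_zero]⟩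
        zero_mem' := ⟨N.zero_mem, map_zero C⟩
        smul_mem' := by
          rintro t a ⟨ha, ha'⟩
          exact ⟨N.smul_mem t ha, by rw [map_smul, ha', smul_zero]⟩
        lie_mem := by
          rintro y a ⟨ha, ha'⟩
          exact ⟨N.lie_mem ha, by rw [hC1, ha', lie_zero]⟩ }
    have hCN : ∀ m, C m ∈ N := fun m => hC2 N hLM m
    rcases hmin Z (fun m hm => hm.1) with h | h
    · -- `C` is bijective on `N`
      let C' : N.toSubmodule →ₗ[F] N.toSubmodule :=
        C.restrict (p := N.toSubmodule) (q := N.toSubmodule) fun m _ => hCN m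
      have hinj : Function.Injective C' := by
        rw [← LinearMap.ker_eq_bot, LinearMap.ker_eq_bot']
        rintro ⟨m, hm⟩ h1
        have h2 : C m = 0 := congrArg Subtype.val h1
        have h3 : m ∈ Z := ⟨hm, h2⟩
        rw [h] at h3
        exact Subtype.ext ((LieSubmodule.mem_bot _).1 h3)
      have hsurj : Function.Surjective C' := LinearMap.injective_iff_surjective.1 hinj
      obtain ⟨⟨n, hn⟩, hn'⟩ := hsurj ⟨C v, hCN v⟩
      have hn2 : C n = C v := congrArg Subtype.val hn'
      have hn3 : ℓ n = 0 := (hNdef n).1 hn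
      refine ⟨v - n, fun x => ?_, ?_⟩
      · have h1 : ⁅x, v - n⁆ ∈ Z := by
          refine ⟨hLM x _, ?_⟩
          rw [hC1, map_sub, hn2, sub_self, lie_zero]
        rw [h] at h1
        exact (LieSubmodule.mem_bot _).1 h1
      · rw [map_sub, hn3, sub_zero]
        exact hv
    · exfalso
      apply hC3
      have h1 : C * C = 0 := by
        refine LinearMap.ext fun m => ?_
        have h2 : C m ∈ Z := by
          rw [h]
          exact hCN m
        exact h2.2
      have h2 : IsNilpotent C := ⟨2, by rw [pow_two, h1]⟩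
      exact (LinearMap.isNilpotent_trace_of_isNilpotent h2).eq_zero
  · push Not at h0
    refine ⟨v, fun x => ?_, hv⟩
    have := LinearMap.congr_fun (h0 x) v
    exact this

end basic

/-- a module with a trivial quotient of dimension one has an invariant vector over it -/
theorem exists_inv {F L : Type} [Field F] [CharZero F] [LieRing L] [LieAlgebra F L]
    [Module.Finite F L] [IsKilling F L] : ∀ (n : ℕ) (M : Type) [AddCommGroup M] [Module F M]
    [Module.Finite F M] [LieRingModule L M] [LieModule F L M] (ℓ : M →ₗ[F] F),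
    finrank F M = n → (∀ (x : L) (m : M), ℓ ⁅x, m⁆ = 0) → ℓ ≠ 0 →
    ∃ v : M, (∀ x : L, ⁅x, v⁆ = 0) ∧ ℓ v ≠ 0 := by
  intro n
  induction n using Nat.strong_induction_on with
  | _ n ih =>
    intro M _ _ _ _ _ ℓ hn hℓ hne
    let N : LieSubmodule F L M :=
      { LinearMap.ker ℓ with
        lie_mem := fun {x m} _ => hℓ x m }
    have hN : ∀ m, m ∈ N ↔ ℓ m = 0 := fun m => Iff.rfl
    have hNlt : finrank F N.toSubmodule < finrank F M := by
      refine Submodule.finrank_lt ?_
      intro h
      apply hne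
      refine LinearMap.ext fun m => ?_
      have : m ∈ N.toSubmodule := by
        rw [h]
        exact Submodule.mem_top
      exact this
    by_cases hmin : ∀ N' : LieSubmodule F L M, N' ≤ N → N' = ⊥ ∨ N' = N
    · exact min_case ℓ hℓ hne N hN hmin
    · push Not at hmin
      obtain ⟨N', hle, hbot, hneN⟩ := hmin
      have hbot' : N'.toSubmodule ≠ ⊥ := by
        intro h
        exact hbot ((LieSubmodule.toSubmodule_eq_bot N').1 h)
      -- the quotient by `N'`
      let ℓ' : (M ⧸ N') →ₗ[F] F := N'.toSubmodule.liftQ ℓ hle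
      have hℓ' : ∀ m : M, ℓ' (LieSubmodule.Quotient.mk m) = ℓ m := fun m => rfl
      have hlt : finrank F (M ⧸ N') < n := by
        have h1 := Submodule.finrank_quotient_add_finrank N'.toSubmodule
        have h2 : 0 < finrank F N'.toSubmodule := by
          rw [Module.finrank_pos_iff]
          exact Submodule.nontrivial_iff_ne_bot.2 hbot'
        change finrank F (M ⧸ N'.toSubmodule) < n
        omega
      obtain ⟨w, hw, hw'⟩ := ih _ hlt (M ⧸ N') ℓ' rfl (by
        intro x m
        obtain ⟨m, rfl⟩ := LieSubmodule.Quotient.surjective_mk' N' m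
        exact hℓ x m) (by
        intro h
        apply hne
        refine LinearMap.ext fun m => ?_
        exact LinearMap.congr_fun h (LieSubmodule.Quotient.mk m))
      obtain ⟨v, rfl⟩ := LieSubmodule.Quotient.surjective_mk' N' w
      have hv : ∀ x : L, ⁅x, v⁆ ∈ N' := by
        intro x
        have := hw x
        exact (LieSubmodule.Quotient.mk_eq_zero (N := N')).1 this
      let M' : LieSubmodule F L M :=
        { N'.toSubmodule ⊔ Submodule.span F {v} with
          lie_mem := by
            intro x m hm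
            change ⁅x, m⁆ ∈ N'.toSubmodule ⊔ Submodule.span F {v}
            obtain ⟨a, ha, b, hb, rfl⟩ := Submodule.mem_sup.1 hm
            obtain ⟨t, rfl⟩ := Submodule.mem_span_singleton.1 hb
            rw [lie_add, lie_smul]
            exact Submodule.mem_sup_left (N'.toSubmodule.add_mem (N'.lie_mem ha)
              (N'.toSubmodule.smul_mem t (hv x))) }
      have hvM : v ∈ M' := Submodule.mem_sup_right (Submodule.mem_span_singleton_self v)
      have hlt' : finrank F M' < n := by
        have h1 : finrank F M'.toSubmodule ≤ finrank F N'.toSubmodule +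
            finrank F (Submodule.span F {v}) := Submodule.finrank_add_le_finrank_add_finrank _ _
        have h2 : finrank F (Submodule.span F {v}) ≤ 1 :=
          (finrank_span_le_card ({v} : Set M)).trans (by simp)
        have h3 : finrank F N'.toSubmodule < finrank F N.toSubmodule := by
          refine Submodule.finrank_lt_finrank_of_lt ?_
          exact lt_of_le_of_ne hle fun h => hneN (LieSubmodule.toSubmodule_injective h)
        change finrank F M'.toSubmodule < n
        omega
      obtain ⟨u, hu, hu'⟩ := ih _ hlt' M' (ℓ.domRestrict M'.toSubmodule) rfl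
        (fun x m => hℓ x m.1) (by
          intro h
          apply hw'
          exact LinearMap.congr_fun h ⟨v, hvM⟩)
      exact ⟨u.1, fun x => congrArg Subtype.val (hu x), hu'⟩

end WeylM

open WeylM

theorem specWeyl : SpecWeyl := by
  intro F L _ _ _ _ _ _ _ M _ _ _ ρ N hN
  by_cases hbot : N = ⊥
  · refine ⟨0, fun x v => by simp, fun v => ?_, fun v hv => ?_⟩
    · rw [LinearMap.zero_apply]
      exact N.zero_mem
    · rw [hbot] at hv
      rw [(Submodule.mem_bot F).1 hv, map_zero]
  obtain ⟨v₀, hv₀, hne⟩ := Submodule.exists_mem_ne_zero_of_ne_bot hbot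
  obtain ⟨g, hg⟩ := Module.Projective.exists_dual_eq_one F hne
  have hlie : ∀ x y, ρ.r ⁅x, y⁆ = ρ.r x * ρ.r y - ρ.r y * ρ.r x := fun x y =>
    LinearMap.ext fun v => ρ.lie x y v
  -- endomorphisms with image in `N` which are scalar on `N`
  let V : Submodule F (Module.End F M) :=
    { carrier := {φ | (∀ v, φ v ∈ N) ∧ ∃ c : F, ∀ v ∈ N, φ v = c • v}
      add_mem' := by
        rintro φ ψ ⟨h1, c, hc⟩ ⟨h2, d, hd⟩
        refine ⟨fun v => N.add_mem (h1 v) (h2 v), c + d, fun v hv => ?_⟩
        rw [LinearMap.add_apply, hc v hv, hd v hv, add_smul]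
      zero_mem' := ⟨fun v => N.zero_mem, 0, fun v _ => by simp⟩
      smul_mem' := by
        rintro t φ ⟨h1, c, hc⟩
        refine ⟨fun v => N.smul_mem t (h1 v), t * c, fun v hv => ?_⟩
        rw [LinearMap.smul_apply, hc v hv, mul_smul] }
  have hV : ∀ (x : L) (φ : V), ρ.r x * φ.1 - φ.1 * ρ.r x ∈ V := by
    rintro x ⟨φ, h1, c, hc⟩
    refine ⟨fun v => N.sub_mem (hN x _ (h1 v)) (h1 _), 0, fun v hv => ?_⟩
    change ρ.r x (φ v) - φ (ρ.r x v) = _
    rw [hc v hv, hc _ (hN x v hv), map_smul, sub_self, zero_smul]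
  let i1 : LieRingModule L V :=
    { bracket := fun x φ => ⟨ρ.r x * φ.1 - φ.1 * ρ.r x, hV x φ⟩
      add_lie := by
        intro x y φ
        apply Subtype.ext
        change ρ.r (x + y) * φ.1 - φ.1 * ρ.r (x + y) =
          (ρ.r x * φ.1 - φ.1 * ρ.r x) + (ρ.r y * φ.1 - φ.1 * ρ.r y)
        rw [map_add, add_mul, mul_add]
        abel
      lie_add := by
        intro x φ ψ
        apply Subtype.ext
        change ρ.r x * (φ.1 + ψ.1) - (φ.1 + ψ.1) * ρ.r x =
          (ρ.r x * φ.1 - φ.1 * ρ.r x) + (ρ.r x * ψ.1 - ψ.1 * ρ.r x)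
        rw [add_mul, mul_add]
        abel
      leibniz_lie := by
        intro x y φ
        apply Subtype.ext
        change ρ.r x * (ρ.r y * φ.1 - φ.1 * ρ.r y) - (ρ.r y * φ.1 - φ.1 * ρ.r y) * ρ.r x =
          (ρ.r ⁅x, y⁆ * φ.1 - φ.1 * ρ.r ⁅x, y⁆) +
            (ρ.r y * (ρ.r x * φ.1 - φ.1 * ρ.r x) - (ρ.r x * φ.1 - φ.1 * ρ.r x) * ρ.r y)
        rw [hlie]
        noncomm_ring }
  let i2 : LieModule F L V :=
    { smul_lie := by
        intro t x φ
        apply Subtype.ext
        change ρ.r (t • x) * φ.1 - φ.1 * ρ.r (t • x) = t • (ρ.r x * φ.1 - φ.1 * ρ.r x)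
        rw [map_smul, smul_mul_assoc, mul_smul_comm, smul_sub]
      lie_smul := by
        intro t x φ
        apply Subtype.ext
        change ρ.r x * (t • φ.1) - (t • φ.1) * ρ.r x = t • (ρ.r x * φ.1 - φ.1 * ρ.r x)
        rw [smul_mul_assoc, mul_smul_comm, smul_sub] }
  let ℓ : V →ₗ[F] F :=
    { toFun := fun φ => g (φ.1 v₀)
      map_add' := fun φ ψ => map_add g _ _
      map_smul' := fun t φ => map_smul g _ _ }
  have hsc : ∀ (φ : V) (v : M), v ∈ N → φ.1 v = ℓ φ • v := by
    rintro ⟨φ, h1, c, hc⟩ v hv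
    change φ v = g (φ v₀) • v
    rw [hc v hv, hc v₀ hv₀, map_smul, hg, smul_eq_mul, mul_one]
  obtain ⟨φ, hφ, hφ'⟩ := exists_inv (finrank F V) V ℓ rfl (by
    intro x φ
    change g (ρ.r x (φ.1 v₀) - φ.1 (ρ.r x v₀)) = 0
    rw [hsc φ v₀ hv₀, hsc φ _ (hN x v₀ hv₀), map_smul, sub_self, map_zero]) (by
    intro h
    obtain ⟨q, hq⟩ := Submodule.exists_isCompl N
    let π : Module.End F M := N.subtype ∘ₗ N.projectionOnto q hq
    have hπ : π ∈ V := by
      refine ⟨fun v => (N.projectionOnto q hq v).2, 1, fun v hv => ?_⟩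
      rw [one_smul]
      exact congrArg Subtype.val (Submodule.projectionOnto_apply_left hq ⟨v, hv⟩)
    have h1 : ℓ ⟨π, hπ⟩ = 1 := by
      change g (π v₀) = 1
      have h2 : π v₀ = v₀ := congrArg Subtype.val
        (Submodule.projectionOnto_apply_left hq ⟨v₀, hv₀⟩)
      rw [h2, hg]
    rw [h] at h1
    exact zero_ne_one h1)
  refine ⟨(ℓ φ)⁻¹ • φ.1, fun x v => ?_, fun v => ?_, fun v hv => ?_⟩
  · have h1 : ρ.r x * φ.1 - φ.1 * ρ.r x = 0 := congrArg Subtype.val (hφ x)
    have h2 := LinearMap.congr_fun h1 v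
    change ρ.r x (φ.1 v) - φ.1 (ρ.r x v) = 0 at h2
    rw [LinearMap.smul_apply, LinearMap.smul_apply, map_smul, sub_eq_zero.1 h2]
  · exact N.smul_mem _ (φ.2.1 v)
  · rw [LinearMap.smul_apply, hsc φ v hv, smul_smul, inv_mul_cancel₀ hφ', one_smul]

end Pool.Agent.Lib.MPf11a48.K3
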