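import Pool.Agent.Lib.MP_f11a48_ag.K3.LieDefs

/-!
# Operators of an `sl₂`-triple; weight spaces and root vectors
-/

set_option autoImplicit false
set_option linter.unusedSectionVars false

namespace Pool.Agent.Lib.MPf11a48.K3

open Module LieAlgebra LieAlgebra.IsKilling LieModule

namespace Sl2M

variable {F : Type} [Field F] [CharZero F] {M : Type} [AddCommGroup M] [Module F M]

/-- operators of an `sl₂`-triple -/
structure Tri (e f h : M →ₗ[F] M) : Prop where
  ef : ∀ v, e (f v) = f (e v) + h v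
  he : ∀ v, h (e v) = e (h v) + (2 : F) • e v
  hf : ∀ v, h (f v) = f (h v) - (2 : F) • f v

theorem Tri.symm {e f h : M →ₗ[F] M} (T : Tri e f h) : Tri f e (-h) where
  ef v := by
    rw [T.ef, LinearMap.neg_apply]
    abel
  he v := by
    rw [LinearMap.neg_apply, T.hf, LinearMap.neg_apply, map_neg]
    abel
  hf v := by
    rw [LinearMap.neg_apply, T.he, LinearMap.neg_apply, map_neg]
    abel

variable {e f h : M →ₗ[F] M}

theorem Tri.h_e_pow (T : Tri e f h) {v : M} {q : F} (hv : h v = q • v) (k : ℕ) :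
    h ((e ^ k) v) = (q + 2 * k) • (e ^ k) v := by
  induction k with
  | zero => simpa using hv
  | succ k ih =>
    rw [pow_succ', Module.End.mul_apply, T.he, ih, map_smul, ← add_smul]
    congr 1
    push_cast
    ring

theorem Tri.h_f_pow (T : Tri e f h) {v : M} {q : F} (hv : h v = q • v) (k : ℕ) :
    h ((f ^ k) v) = (q - 2 * k) • (f ^ k) v := by
  induction k with
  | zero => simpa using hv
  | succ k ih =>
    rw [pow_succ', Module.End.mul_apply, T.hf, ih, map_smul, ← sub_smul]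
    congr 1
    push_cast
    ring

theorem Tri.e_pow_f (T : Tri e f h) {w : M} {q : F} (hw : h w = q • w) (k : ℕ) :
    (e ^ (k + 1)) (f w) = f ((e ^ (k + 1)) w) + ((k + 1) * (q + k) : F) • (e ^ k) w := by
  induction k with
  | zero => simp [T.ef, hw]
  | succ k ih =>
    rw [pow_succ' e (k + 1), Module.End.mul_apply, ih, map_add, map_smul, T.ef, T.h_e_pow hw,
      add_assoc]
    congr 1
    rw [← Module.End.mul_apply, ← pow_succ', ← add_smul]
    congr 1
    push_cast
    ring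

/-- some power of `e` kills an eigenvector of `h` -/
theorem Tri.nilp [Module.Finite F M] (T : Tri e f h) {v : M} {q : F} (hv : h v = q • v) :
    ∃ k : ℕ, (e ^ k) v = 0 := by
  by_contra hcon
  push Not at hcon
  have hfin := Module.End.finite_hasEigenvalue h
  have hinj : Function.Injective fun k : ℕ => q + 2 * (k : F) := by
    intro a b hab
    have h1 : (2 : F) * a = 2 * b := add_left_cancel hab
    have h2 : (a : F) = b := mul_left_cancel₀ two_ne_zero h1
    exact_mod_cast h2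
  refine Set.infinite_range_of_injective hinj (hfin.subset ?_)
  rintro _ ⟨k, rfl⟩
  exact Module.End.hasEigenvalue_of_hasEigenvector
    (x := (e ^ k) v) ⟨Module.End.mem_eigenspace_iff.2 (T.h_e_pow hv k), hcon k⟩

/-- the last non-zero power -/
theorem Tri.last [Module.Finite F M] (T : Tri e f h) {v : M} {q : F} (hv : h v = q • v)
    (h0 : v ≠ 0) : ∃ N : ℕ, (e ^ N) v ≠ 0 ∧ (e ^ (N + 1)) v = 0 := by
  classical
  have hex := T.nilp hv
  have h1 := Nat.find_spec hex
  have h2 : Nat.find hex ≠ 0 := by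
    intro h3
    rw [h3] at h1
    exact h0 h1
  obtain ⟨N, hN⟩ := Nat.exists_eq_succ_of_ne_zero h2
  refine ⟨N, ?_, ?_⟩
  · exact Nat.find_min hex (by rw [hN]; exact Nat.lt_succ_self N)
  · rw [hN] at h1
    exact h1

/-- a vector killed by `e` has an eigenvalue in `ℕ` -/
theorem Tri.prim [Module.Finite F M] (T : Tri e f h) {v : M} {q : F} (hv : h v = q • v)
    (h0 : v ≠ 0) (he : e v = 0) : ∃ n : ℕ, q = n := by
  have hv' : (-h) v = (-q) • v := by rw [LinearMap.neg_apply, hv, neg_smul]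
  obtain ⟨N, hN, hN'⟩ := T.symm.last hv' h0
  have h1 := T.symm.e_pow_f hv' N
  rw [he, map_zero, hN', map_zero, zero_add] at h1
  have h2 := (smul_eq_zero.1 h1.symm).resolve_right hN
  have h3 : ((N : F) + 1) ≠ 0 := Nat.cast_add_one_ne_zero N
  refine ⟨N, ?_⟩
  have h4 := (mul_eq_zero.1 h2).resolve_left h3
  linear_combination -h4

/-- eigenvalues of `h` are integers -/
theorem Tri.int [Module.Finite F M] (T : Tri e f h) {v : M} {q : F} (hv : h v = q • v)
    (h0 : v ≠ 0) : ∃ z : ℤ, q = z := by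
  obtain ⟨N, hN, hN'⟩ := T.last hv h0
  obtain ⟨n, hn⟩ := T.prim (T.h_e_pow hv N) hN (by
    rw [← Module.End.mul_apply, ← pow_succ']
    exact hN')
  refine ⟨(n : ℤ) - 2 * N, ?_⟩
  push_cast
  linear_combination hn

/-- `e^{N+j} f^j v` is a non-zero multiple of `e^N v` for `j ≤ p` -/
theorem Tri.refl_aux (T : Tri e f h) {v : M} {p N : ℕ} (hv : h v = (p : F) • v)
    (hN : (e ^ (N + 1)) v = 0) (j : ℕ) (hj : j ≤ p) :
    ∃ c : F, c ≠ 0 ∧ (e ^ (N + j)) ((f ^ j) v) = c • (e ^ N) v := by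
  induction j with
  | zero => exact ⟨1, one_ne_zero, by simp⟩
  | succ j ih =>
    obtain ⟨c, hc, h1⟩ := ih (Nat.le_of_succ_le hj)
    have h2 := T.e_pow_f (T.h_f_pow hv j) (N + j)
    have h3 : (e ^ (N + j + 1)) ((f ^ j) v) = 0 := by
      rw [pow_succ', Module.End.mul_apply, h1, map_smul, ← Module.End.mul_apply, ← pow_succ', hN,
        smul_zero]
    rw [h3, map_zero, zero_add, h1, smul_smul] at h2
    refine ⟨((((N + j : ℕ) : F) + 1) * ((p : F) - 2 * j + ((N + j : ℕ) : F)) * c), ?_, ?_⟩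
    rotate_left
    · rw [pow_succ' f j, Module.End.mul_apply]
      exact h2
    · refine mul_ne_zero (mul_ne_zero ?_ ?_) hc
      · exact_mod_cast Nat.succ_ne_zero (N + j)
      · have h4 : ((p : F) - 2 * j + ((N + j : ℕ) : F)) = ((p - j + N : ℕ) : F) := by
          push_cast [Nat.le_of_succ_le hj]
          ring
        rw [h4]
        have h5 : p - j + N ≠ 0 := by omega
        exact_mod_cast h5

/-- `f^j v ≠ 0` for `j ≤ p` -/
theorem Tri.f_pow_ne [Module.Finite F M] (T : Tri e f h) {v : M} {p : ℕ}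
    (hv : h v = (p : F) • v) (h0 : v ≠ 0) {j : ℕ} (hj : j ≤ p) : (f ^ j) v ≠ 0 := by
  obtain ⟨N, hN, hN'⟩ := T.last hv h0
  obtain ⟨c, hc, h1⟩ := T.refl_aux hv hN' j hj
  intro h2
  rw [h2, map_zero] at h1
  exact (smul_ne_zero hc hN) h1.symm

end Sl2M

namespace WtM

open Sl2M

variable {F L : Type} [Field F] [CharZero F] [IsAlgClosed F] [LieRing L] [LieAlgebra F L]
  [Module.Finite F L] [IsKilling F L] {H : LieSubalgebra F L} [H.IsCartanSubalgebra]
  {M : Type} [AddCommGroup M] [Module F M]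

theorem tri_of (ρ : Rp F L M) {h e f : L} (t : IsSl2Triple h e f) :
    Tri (ρ.r e) (ρ.r f) (ρ.r h) where
  ef v := by
    have h1 := ρ.lie e f v
    rw [t.lie_e_f] at h1
    rw [h1]
    abel
  he v := by
    have h1 := ρ.lie h e v
    rw [t.lie_h_e_nsmul, map_nsmul] at h1
    rw [ofNat_smul_eq_nsmul]
    rw [LinearMap.smul_apply] at h1
    rw [h1]
    abel
  hf v := by
    have h1 := ρ.lie h f v
    rw [t.lie_h_f_nsmul, map_neg, map_nsmul] at h1
    rw [ofNat_smul_eq_nsmul]
    rw [LinearMap.neg_apply, LinearMap.smul_apply] at h1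
    rw [← sub_eq_iff_eq_add'.2 (sub_eq_iff_eq_add.1 h1.symm)]
    abel

theorem mem_wtsp {ρ : Rp F L M} {μ : Dual F H} {v : M} :
    v ∈ wtsp H ρ μ ↔ ∀ h : H, ρ.r h.1 v = μ h • v := Iff.rfl

/-- root vectors move weight spaces -/
theorem root_mem {ρ : Rp F L M} {α : Weight F H L} {x : L} (hx : x ∈ rootSpace H α)
    {μ : Dual F H} {v : M} (hv : v ∈ wtsp H ρ μ) : ρ.r x v ∈ wtsp H ρ (μ + α.toLinear) := by
  intro h
  have hb : ⁅h.1, x⁆ = α h • x := lie_eq_smul_of_mem_rootSpace hx h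
  have h1 := ρ.lie h.1 x v
  rw [hb, map_smul, LinearMap.smul_apply, hv h, map_smul] at h1
  rw [LinearMap.add_apply, add_smul]
  have h2 : (α.toLinear : Dual F H) h = α h := rfl
  rw [h2, h1]
  abel

/-- the root vectors of an `sl₂`-triple -/
theorem exists_tri (ρ : Rp F L M) (α : H.root) : ∃ e f : L, e ∈ rootSpace H α.1 ∧
    f ∈ rootSpace H (-α.1 : Weight F H L) ∧ ⁅e, f⁆ = ((coroot α.1 : H) : L) ∧
    Tri (ρ.r e) (ρ.r f) (ρ.r ((coroot α.1 : H) : L)) := by
  have hα : (α.1 : Weight F H L).IsNonZero := LieSubalgebra.isNonZero_coe_root α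
  obtain ⟨h, e, f, t, he, hf⟩ := exists_isSl2Triple_of_weight_isNonZero hα
  obtain rfl := t.h_eq_coroot hα he hf
  exact ⟨e, f, he, hf, t.lie_e_f, tri_of ρ t⟩

theorem root_mem_neg {ρ : Rp F L M} {α : Weight F H L} {x : L}
    (hx : x ∈ rootSpace H (-α : Weight F H L)) {μ : Dual F H} {v : M} (hv : v ∈ wtsp H ρ μ) :
    ρ.r x v ∈ wtsp H ρ (μ - α.toLinear) := by
  have h1 := root_mem hx hv
  rwa [Weight.toLinear_neg, ← sub_eq_add_neg] at h1

theorem pow_mem_neg {ρ : Rp F L M} {α : Weight F H L} {x : L}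
    (hx : x ∈ rootSpace H (-α : Weight F H L)) {μ : Dual F H} {v : M} (hv : v ∈ wtsp H ρ μ)
    (k : ℕ) : (ρ.r x ^ k) v ∈ wtsp H ρ (μ - (k : F) • α.toLinear) := by
  induction k with
  | zero => simpa using hv
  | succ k ih =>
    rw [pow_succ', Module.End.mul_apply]
    have h1 := root_mem_neg hx ih
    have h2 : μ - (k : F) • (α.toLinear : Dual F H) - α.toLinear =
        μ - ((k + 1 : ℕ) : F) • α.toLinear := by
      push_cast
      module
    rwa [h2] at h1

theorem pow_mem {ρ : Rp F L M} {α : Weight F H L} {x : L}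
    (hx : x ∈ rootSpace H α) {μ : Dual F H} {v : M} (hv : v ∈ wtsp H ρ μ)
    (k : ℕ) : (ρ.r x ^ k) v ∈ wtsp H ρ (μ + (k : F) • α.toLinear) := by
  induction k with
  | zero => simpa using hv
  | succ k ih =>
    rw [pow_succ', Module.End.mul_apply]
    have h1 := root_mem hx ih
    have h2 : μ + (k : F) • (α.toLinear : Dual F H) + α.toLinear =
        μ + ((k + 1 : ℕ) : F) • α.toLinear := by
      push_cast
      module
    rwa [h2] at h1

/-- the module structure given by a representation -/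
@[reducible] def lrm (ρ : Rp F L M) : LieRingModule L M where
  bracket x v := ρ.r x v
  add_lie x y v := by
    rw [map_add, LinearMap.add_apply]
  lie_add x v w := (ρ.r x).map_add v w
  leibniz_lie x y v := by
    change ρ.r x (ρ.r y v) = ρ.r ⁅x, y⁆ v + ρ.r y (ρ.r x v)
    rw [ρ.lie]
    abel

theorem fin_wtsp [Module.Finite F M] (ρ : Rp F L M) :
    {μ : Dual F H | wtsp H ρ μ ≠ ⊥}.Finite := by
  let _ : LieRingModule L M := lrm ρ
  have : LieModule F L M :=
    { smul_lie := fun t x v => by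
        change ρ.r (t • x) v = t • ρ.r x v
        rw [map_smul, LinearMap.smul_apply]
      lie_smul := fun t x v => (ρ.r x).map_smul t v }
  have h1 := LieModule.finite_genWeightSpace_ne_bot F H M
  refine Set.Finite.of_finite_image (f := fun μ : Dual F H => (μ : H → F)) (h1.subset ?_)
    (fun _ _ _ _ h => DFunLike.coe_injective h)
  rintro _ ⟨μ, hμ, rfl⟩
  intro h2
  refine hμ ((Submodule.eq_bot_iff _).2 fun v hv => ?_)
  have h3 : v ∈ weightSpace M (μ : H → F) := by
    rw [mem_weightSpace]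
    exact fun h => hv h
  have h4 := weightSpace_le_genWeightSpace M (μ : H → F) h3
  rw [h2] at h4
  exact h4

theorem int_wt [Module.Finite F M] {ρ : Rp F L M} {μ : Dual F H} (hμ : wtsp H ρ μ ≠ ⊥)
    (α : H.root) : ∃ z : ℤ, μ (coroot α.1) = (z : F) := by
  obtain ⟨v, hv, h0⟩ := Submodule.exists_mem_ne_zero_of_ne_bot hμ
  obtain ⟨e, f, he, hf, -, T⟩ := exists_tri ρ α
  exact T.int (hv (coroot α.1)) h0

/-- the injection of weight spaces given by a power of a root vector -/
theorem finrank_le_sub [Module.Finite F M] (ρ : Rp F L M) (μ : Dual F H) (α : H.root) {p k : ℕ}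
    (hp : μ (coroot α.1) = (p : F)) (hk : k ≤ p) :
    finrank F (wtsp H ρ μ) ≤ finrank F (wtsp H ρ (μ - (k : F) • α.1.toLinear)) := by
  obtain ⟨e, f, he, hf, -, T⟩ := exists_tri ρ α
  refine LinearMap.finrank_le_finrank_of_injective
    (f := ((ρ.r f ^ k).restrict (p := wtsp H ρ μ)
      (q := wtsp H ρ (μ - (k : F) • α.1.toLinear)) fun v hv => pow_mem_neg hf hv k)) ?_
  rw [← LinearMap.ker_eq_bot, LinearMap.ker_eq_bot']
  rintro ⟨v, hv⟩ h1
  by_contra h2
  have h0 : v ≠ 0 := fun h => h2 (Subtype.ext h)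
  refine T.f_pow_ne (p := p) ?_ h0 hk (congrArg Subtype.val h1)
  rw [hv (coroot α.1), hp]

theorem finrank_le_add [Module.Finite F M] (ρ : Rp F L M) (μ : Dual F H) (α : H.root) {p k : ℕ}
    (hp : μ (coroot α.1) = -(p : F)) (hk : k ≤ p) :
    finrank F (wtsp H ρ μ) ≤ finrank F (wtsp H ρ (μ + (k : F) • α.1.toLinear)) := by
  obtain ⟨e, f, he, hf, -, T⟩ := exists_tri ρ α
  refine LinearMap.finrank_le_finrank_of_injective
    (f := ((ρ.r e ^ k).restrict (p := wtsp H ρ μ)
      (q := wtsp H ρ (μ + (k : F) • α.1.toLinear)) fun v hv => pow_mem he hv k)) ?_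
  rw [← LinearMap.ker_eq_bot, LinearMap.ker_eq_bot']
  rintro ⟨v, hv⟩ h1
  by_contra h2
  have h0 : v ≠ 0 := fun h => h2 (Subtype.ext h)
  refine T.symm.f_pow_ne (p := p) ?_ h0 hk (congrArg Subtype.val h1)
  rw [LinearMap.neg_apply, hv (coroot α.1), hp, neg_smul, neg_neg]

theorem finrank_le_refl [Module.Finite F M] (ρ : Rp F L M) (μ : Dual F H) (α : H.root) :
    finrank F (wtsp H ρ μ) ≤
      finrank F (wtsp H ρ (μ - μ (coroot α.1) • α.1.toLinear)) := by
  by_cases hμ : wtsp H ρ μ = ⊥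
  · rw [hμ, finrank_bot]
    exact Nat.zero_le _
  obtain ⟨z, hz⟩ := int_wt hμ α
  rcases Int.eq_nat_or_neg z with ⟨p, rfl | rfl⟩
  · have h1 : μ (coroot α.1) = (p : F) := by rw [hz]; push_cast; rfl
    rw [h1]
    exact finrank_le_sub ρ μ α h1 le_rfl
  · have h1 : μ (coroot α.1) = -(p : F) := by rw [hz]; push_cast; rfl
    have h2 : μ - (-(p : F)) • (α.1.toLinear : Dual F H) = μ + (p : F) • α.1.toLinear := by module
    rw [h1, h2]
    exact finrank_le_add ρ μ α h1 le_rfl

theorem root_two (α : H.root) : (α.1.toLinear : Dual F H) (coroot α.1) = 2 :=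
  root_apply_coroot (LieSubalgebra.isNonZero_coe_root α)

theorem finrank_refl [Module.Finite F M] (ρ : Rp F L M) (μ : Dual F H) (α : H.root) :
    finrank F (wtsp H ρ (μ - μ (coroot α.1) • α.1.toLinear)) = finrank F (wtsp H ρ μ) := by
  refine le_antisymm ?_ (finrank_le_refl ρ μ α)
  have h1 := finrank_le_refl ρ (μ - μ (coroot α.1) • α.1.toLinear) α
  have h2 : μ - μ (coroot α.1) • (α.1.toLinear : Dual F H) -
      (μ - μ (coroot α.1) • (α.1.toLinear : Dual F H)) (coroot α.1) • α.1.toLinear = μ := by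
    rw [LinearMap.sub_apply, LinearMap.smul_apply, root_two, smul_eq_mul]
    module
  rwa [h2] at h1

/-! ### the root data -/

theorem toLinear_inj {α β : H.root} (h : (α.1.toLinear : Dual F H) = β.1.toLinear) : α = β := by
  refine Subtype.ext (Weight.ext fun x => ?_)
  exact DFunLike.congr_fun h x

theorem pr_eq {μ : PW H} {α : H.root} (h : (α.1.toLinear : Dual F H) = μ.1) :
    (rdat H).pr μ = val α := by
  have hex : ∃ α : H.root, (α.1.toLinear : Dual F H) = μ.1 := ⟨α, h⟩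
  have h1 : (rdat H).pr μ = val hex.choose := dif_pos hex
  rw [h1]
  congr 1
  exact toLinear_inj (hex.choose_spec.trans h.symm)

theorem mem_R {μ : PW H} : μ ∈ (rdat H).R ↔ ∃ α : H.root, (α.1.toLinear : Dual F H) = μ.1 :=
  Iff.rfl

theorem coe_smul_PW (q : ℚ) (μ : PW H) : ((q • μ : PW H) : Dual F H) = (q : F) • (μ : Dual F H) := by
  rw [Submodule.coe_smul, Rat.cast_smul_eq_qsmul]

theorem coe_refl {μ : PW H} {α : H.root} {a : PW H} (h : (α.1.toLinear : Dual F H) = a.1) :
    ((μ - (rdat H).pr a μ • a : PW H) : Dual F H) =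
      μ.1 - μ.1 (coroot α.1) • (α.1.toLinear : Dual F H) := by
  rw [Submodule.coe_sub, coe_smul_PW, pr_eq h, ← val_spec, h]

end WtM

/-- INT -/
theorem specInt : SpecInt := by
  intro F L _ _ _ _ _ _ _ H _ M _ _ _ ρ μ hμ α
  exact WtM.int_wt hμ α

/-- WT -/
theorem specWt : SpecWt := by
  intro F L _ _ _ _ _ _ _ H _ M _ _ _ ρ
  have hne : ∀ μ : PW H, mu H ρ μ ≠ 0 → wtsp H ρ μ.1 ≠ ⊥ := by
    intro μ hμ h
    refine hμ ?_
    change finrank F (wtsp H ρ μ.1) = 0
    rw [h, finrank_bot]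
  refine ⟨?_, ?_, ?_, ?_⟩
  · refine Set.Finite.of_finite_image (f := fun μ : PW H => (μ : Dual F H))
      ((WtM.fin_wtsp (H := H) ρ).subset ?_) (fun _ _ _ _ h => Subtype.ext h)
    rintro _ ⟨μ, hμ, rfl⟩
    exact hne μ hμ
  · rintro μ hμ a ⟨α, hα⟩
    obtain ⟨z, hz⟩ := WtM.int_wt (hne μ hμ) α
    refine ⟨z, ?_⟩
    rw [WtM.pr_eq hα]
    refine pw_unique (val_spec α μ) ?_
    rw [hz]
    push_cast
    rfl
  · rintro μ a ⟨α, hα⟩
    change finrank F (wtsp H ρ _) = finrank F (wtsp H ρ μ.1)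
    rw [WtM.coe_refl hα]
    exact WtM.finrank_refl ρ μ.1 α
  · rintro μ a ⟨α, hα⟩ hpos
    by_cases h0 : mu H ρ μ = 0
    · rw [h0]
      exact Nat.zero_le _
    obtain ⟨z, hz⟩ := WtM.int_wt (hne μ h0) α
    rw [WtM.pr_eq hα] at hpos
    have h1 : val α μ = z := by
      refine pw_unique (val_spec α μ) ?_
      rw [hz]
      push_cast
      rfl
    rw [h1] at hpos
    have hz0 : 0 < z := by exact_mod_cast hpos
    obtain ⟨p, rfl⟩ := Int.eq_ofNat_of_zero_le hz0.le
    have h2 : μ.1 (coroot α.1) = (p : F) := by rw [hz]; push_cast; rfl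
    have h3 := WtM.finrank_le_sub ρ μ.1 α (k := 1) h2 (by
      have : (0 : ℤ) < p := hz0
      omega)
    rw [Nat.cast_one, one_smul, hα, ← Submodule.coe_sub] at h3
    exact h3

end Pool.Agent.Lib.MPf11a48.K3
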