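import Pool.Agent.Lib.MP_f11a48_ag.K3.Rep
import Pool.Agent.Lib.MP_f11a48_ag.K3.Core
import Pool.Agent.Lib.MP_f11a48_ag.K3.Final
import Pool.Agent.Lib.MP_f11a48_ag.K3.Root
import Pool.Agent.Lib.MP_f11a48_ag.K3.Wt
import Pool.Agent.Lib.MP_f11a48_ag.K3.IWT
import Pool.Agent.Lib.MP_f11a48_ag.K3.Star
import Pool.Agent.Lib.MP_f11a48_ag.K3.Diag
import Pool.Agent.Lib.MP_f11a48_ag.K3.Weyl
import Pool.Agent.Lib.MP_f11a48_ag.K3.Hyp
import Pool.Agent.Lib.MP_f11a48_ag.K3.Mult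
import Pool.Agent.Lib.MP_f11a48_ag.K3.Car
import Pool.Agent.Lib.MP_f11a48_ag.K3.Spl
import Pool.Agent.Lib.MP_f11a48_ag.K3.Cle
import Pool.Agent.Lib.MP_f11a48_ag.K3.Clo
import Pool.Agent.Lib.MP_f11a48_ag.K3.Cen
import Pool.Agent.Lib.MP_f11a48_ag.K3.Inv
import Pool.Agent.Lib.MP_f11a48_ag.K3.Odd
import Pool.Agent.Lib.MP_f11a48_ag.K3.EvenA
import Pool.Agent.Lib.MP_f11a48_ag.K3.EvenB
import Pool.Agent.Lib.MP_f11a48_ag.K3.Irr
import Pool.Agent.Lib.MP_f11a48_ag.K3.Ext
import Pool.Agent.Lib.MP_f11a48_ag.K3.Lnk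
import Pool.Agent.Lib.MP_f11a48_ag.K3.Gour
import Pool.Agent.Lib.MP_f11a48_ag.K3.Gen
import Pool.Agent.Lib.MP_f11a48_ag.K3.Curve
import Pool.Agent.Lib.MP_f11a48_ag.K3.Perf

/-! # Assembly -/

set_option autoImplicit false

namespace Pool.Agent.Lib.MPf11a48.K3

/-- the Lie algebra theorem -/
theorem rep : SpecRep :=
  specRep specRoot specInt specWt (specIWt specWt) specStar specDiag specWeyl specHyp specMult
    specSpl (specCle specCAR) (specClo specCAR) specCen (specInv specSpl) (specOdd specFun specComb)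
    (specOdd1 specFun) (specEven specEvA)

/-- objects built from orthogonal objects and objects of rank one -/
theorem final : SpecFinal :=
  specFinal (specCore rep specIrr specExt specLnk specGour specPerf specCurve specGen)

end Pool.Agent.Lib.MPf11a48.K3
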