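import Pool.Agent.Lib.MP_f11a48_ag.K3.Comb

/-!
# Basic facts on abstract root data (modules CBAS, FUN, COMB)
-/

set_option autoImplicit false
set_option linter.unusedSectionVars false

namespace Pool.Agent.Lib.MPf11a48.K3

open Finset

namespace CBasM

variable {E : Type} [AddCommGroup E] [Module ℚ E] {D : RDat E}

/-! ### Roots -/

theorem zero_notMem (hD : D.Ok) : (0 : E) ∉ D.R := by
  intro h
  have h1 := hD.two 0 h
  rw [map_zero] at h1
  norm_num at h1

theorem ne_zero (hD : D.Ok) {α : E} (hα : α ∈ D.R) : α ≠ 0 := by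
  rintro rfl
  exact zero_notMem hD hα

theorem neg_mem (hD : D.Ok) {α : E} (hα : α ∈ D.R) : -α ∈ D.R := by
  have h1 := hD.refl α hα α hα
  rw [hD.two α hα] at h1
  have h2 : α - (2 : ℚ) • α = -α := by module
  rwa [h2] at h1

theorem neg_mem_iff (hD : D.Ok) {α : E} : -α ∈ D.R ↔ α ∈ D.R :=
  ⟨fun h => by simpa using neg_mem hD h, neg_mem hD⟩

/-- symmetry of non-proportionality -/
theorem nonprop_symm {α β : E} (hα : α ≠ 0) (h : ∀ t : ℚ, β ≠ t • α) : ∀ t : ℚ, α ≠ t • β := by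
  intro t ht
  have ht0 : t ≠ 0 := by
    rintro rfl
    rw [zero_smul] at ht
    exact hα ht
  refine h t⁻¹ ?_
  rw [ht, smul_smul, inv_mul_cancel₀ ht0, one_smul]

/-- (R3) the pairings of two non-proportional roots -/
theorem pair (hD : D.Ok) {α β : E} (hα : α ∈ D.R) (hβ : β ∈ D.R) (hne : ∀ t : ℚ, β ≠ t • α) :
    ∃ p q : ℤ, D.pr α β = p ∧ D.pr β α = q ∧
      ((p = 0 ∧ q = 0) ∨ (1 ≤ p ∧ p ≤ 3 ∧ 1 ≤ q ∧ q ≤ 3 ∧ (p = 1 ∨ q = 1)) ∨
        (-3 ≤ p ∧ p ≤ -1 ∧ -3 ≤ q ∧ q ≤ -1 ∧ (p = -1 ∨ q = -1))) := by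
  obtain ⟨p, hp⟩ := hD.int α hα β hβ
  obtain ⟨q, hq⟩ := hD.int β hβ α hα
  have h1 := hD.nonneg α hα β hβ
  have h2 := hD.prod α hα β hβ hne
  have h3 := hD.zero α hα β hβ
  have h4 := hD.zero β hβ α hα
  rw [hp, hq] at h1 h2 h3 h4
  refine ⟨p, q, hp, hq, ?_⟩
  have h1' : 0 ≤ p * q := by exact_mod_cast h1
  have h2' : p * q < 4 := by exact_mod_cast h2
  have h3' : p = 0 → q = 0 := by exact_mod_cast h3
  have h4' : q = 0 → p = 0 := by exact_mod_cast h4
  rcases lt_trichotomy p 0 with hp0 | hp0 | hp0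
  · have hq0 : q < 0 := by
      rcases lt_trichotomy q 0 with h | h | h
      · exact h
      · exact absurd (h4' h) hp0.ne
      · nlinarith
    right; right
    have h5 : -3 ≤ p := by nlinarith
    have h6 : -3 ≤ q := by nlinarith
    refine ⟨h5, by omega, h6, by omega, ?_⟩
    by_contra h7
    push Not at h7
    have h8 : p ≤ -2 := by omega
    have h9 : q ≤ -2 := by omega
    nlinarith
  · left
    exact ⟨hp0, h3' hp0⟩
  · have hq0 : 0 < q := by
      rcases lt_trichotomy q 0 with h | h | h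
      · nlinarith
      · exact absurd (h4' h) hp0.ne'
      · exact h
    right; left
    have h5 : p ≤ 3 := by nlinarith
    have h6 : q ≤ 3 := by nlinarith
    refine ⟨by omega, h5, by omega, h6, ?_⟩
    by_contra h7
    push Not at h7
    have h8 : 2 ≤ p := by omega
    have h9 : 2 ≤ q := by omega
    nlinarith

/-- (R4) -/
theorem sub_mem (hD : D.Ok) {α β : E} (hα : α ∈ D.R) (hβ : β ∈ D.R) (hne : ∀ t : ℚ, β ≠ t • α)
    (h : 0 < D.pr α β) : β - α ∈ D.R := by
  obtain ⟨p, q, hp, hq, h1⟩ := pair hD hα hβ hne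
  rw [hp] at h
  have h0 : 0 < p := by exact_mod_cast h
  have h2 : p = 1 ∨ q = 1 := by
    rcases h1 with h1 | h1 | h1
    · omega
    · exact h1.2.2.2.2
    · omega
  rcases h2 with h2 | h2
  · have h3 := hD.refl α hα β hβ
    rw [hp, h2, Int.cast_one, one_smul] at h3
    exact h3
  · have h3 := hD.refl β hβ α hα
    rw [hq, h2, Int.cast_one, one_smul] at h3
    have h4 := neg_mem hD h3
    rwa [neg_sub] at h4

theorem sub_mem' (hD : D.Ok) {α β : E} (hα : α ∈ D.R) (hβ : β ∈ D.R) (hne : ∀ t : ℚ, β ≠ t • α)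
    (h : 0 < D.pr α β) : α - β ∈ D.R := by
  have h4 := neg_mem hD (sub_mem hD hα hβ hne h)
  rwa [neg_sub] at h4

/-- (R4) -/
theorem add_mem (hD : D.Ok) {α β : E} (hα : α ∈ D.R) (hβ : β ∈ D.R) (hne : ∀ t : ℚ, β ≠ t • α)
    (h : D.pr α β < 0) : α + β ∈ D.R := by
  obtain ⟨p, q, hp, hq, h1⟩ := pair hD hα hβ hne
  rw [hp] at h
  have h0 : p < 0 := by exact_mod_cast h
  have h2 : p = -1 ∨ q = -1 := by
    rcases h1 with h1 | h1 | h1
    · omega
    · omega
    · exact h1.2.2.2.2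
  rcases h2 with h2 | h2
  · have h3 := hD.refl α hα β hβ
    rw [hp, h2] at h3
    have h5 : β - ((-1 : ℤ) : ℚ) • α = α + β := by
      push_cast
      module
    rwa [h5] at h3
  · have h3 := hD.refl β hβ α hα
    rw [hq, h2] at h3
    have h5 : α - ((-1 : ℤ) : ℚ) • β = α + β := by
      push_cast
      module
    rwa [h5] at h3

/-- the sign of the pairing is symmetric -/
theorem pr_pos_symm (hD : D.Ok) {α β : E} (hα : α ∈ D.R) (hβ : β ∈ D.R) (h : 0 < D.pr α β) :
    0 < D.pr β α := by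
  have h1 := hD.nonneg α hα β hβ
  rcases lt_trichotomy (D.pr β α) 0 with h2 | h2 | h2
  · nlinarith
  · have := hD.zero β hβ α hα h2
    linarith
  · exact h2

theorem pr_neg_symm (hD : D.Ok) {α β : E} (hα : α ∈ D.R) (hβ : β ∈ D.R) (h : D.pr α β < 0) :
    D.pr β α < 0 := by
  have h1 := hD.nonneg α hα β hβ
  rcases lt_trichotomy (D.pr β α) 0 with h2 | h2 | h2
  · exact h2
  · have := hD.zero β hβ α hα h2
    linarith
  · nlinarith

/-- `|⟨β, α^∨⟩| ≤ 3` for non-proportional roots -/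
theorem pr_le (hD : D.Ok) {α β : E} (hα : α ∈ D.R) (hβ : β ∈ D.R) (hne : ∀ t : ℚ, β ≠ t • α) :
    |D.pr α β| ≤ 3 := by
  obtain ⟨p, q, hp, hq, h1⟩ := pair hD hα hβ hne
  have h2 : |p| ≤ 3 := by
    rw [abs_le]
    rcases h1 with h1 | h1 | h1 <;> omega
  rw [hp]
  exact_mod_cast h2

/-! ### Weights -/

/-- (W1) -/
theorem le_add {d : E → ℕ} (hD : D.Ok) (hW : Wt D d) {α μ : E} (hα : α ∈ D.R)
    (h : D.pr α μ < 0) : d μ ≤ d (μ + α) := by
  have h1 : D.pr α (μ - D.pr α μ • α) = -D.pr α μ := by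
    rw [map_sub, map_smul, hD.two α hα, smul_eq_mul]
    ring
  have h2 := hW.str (μ - D.pr α μ • α) α hα (by rw [h1]; linarith)
  rw [hW.refl μ α hα] at h2
  have h3 := hW.refl (μ + α) α hα
  have h4 : μ + α - D.pr α (μ + α) • α = μ - D.pr α μ • α - α := by
    rw [map_add, hD.two α hα]
    module
  rw [h4] at h3
  rwa [h3] at h2

theorem le_sub {d : E → ℕ} (hW : Wt D d) {α μ : E} (hα : α ∈ D.R)
    (h : 0 < D.pr α μ) : d μ ≤ d (μ - α) := hW.str μ α hα h

theorem sub_ne {d : E → ℕ} (hW : Wt D d) {α μ : E} (hα : α ∈ D.R) (hμ : d μ ≠ 0)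
    (h : 0 < D.pr α μ) : d (μ - α) ≠ 0 := by
  have := hW.str μ α hα h
  omega

theorem add_ne {d : E → ℕ} (hD : D.Ok) (hW : Wt D d) {α μ : E} (hα : α ∈ D.R) (hμ : d μ ≠ 0)
    (h : D.pr α μ < 0) : d (μ + α) ≠ 0 := by
  have := le_add hD hW hα h
  omega

/-- (W2) -/
theorem pr_nonneg {d : E → ℕ} (hD : D.Ok) (hW : Wt D d) {α μ : E} (hα : α ∈ D.R) (hμ : d μ ≠ 0)
    (h : d (μ + α) = 0) : 0 ≤ D.pr α μ := by
  by_contra h1
  exact add_ne hD hW hα hμ (not_le.1 h1) h

/-- (W2) -/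
theorem pr_nonpos {d : E → ℕ} (hW : Wt D d) {α μ : E} (hα : α ∈ D.R) (hμ : d μ ≠ 0)
    (h : d (μ - α) = 0) : D.pr α μ ≤ 0 := by
  by_contra h1
  exact sub_ne hW hα hμ (not_le.1 h1) h

theorem refl_ne {d : E → ℕ} (hW : Wt D d) {α μ : E} (hα : α ∈ D.R) (hμ : d μ ≠ 0) :
    d (μ - D.pr α μ • α) ≠ 0 := by rwa [hW.refl μ α hα]

/-- a weight of the module which is not `IsTop` -/
theorem exists_up {d : E → ℕ} {x : E →ₗ[ℚ] ℚ} {ν : E} (hν : d ν ≠ 0) (h : ¬ IsTop D d x ν) :
    ∃ α ∈ D.R, 0 < x α ∧ d (ν + α) ≠ 0 := by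
  unfold IsTop at h
  push Not at h
  exact h hν

/-- a weight which is not the highest one: there is a way up -/
theorem exists_up' {d : E → ℕ} (hd : IWt D d) {x : E →ₗ[ℚ] ℚ} (hx : Reg D x) {ν ν' : E}
    (hν : d ν ≠ 0) (hν' : d ν' ≠ 0) (hne : ν' ≠ ν) (h : x ν ≤ x ν') :
    ∃ α ∈ D.R, 0 < x α ∧ d (ν + α) ≠ 0 := by
  refine exists_up hν fun ht => ?_
  have := (hd.top x hx ν ht).2 ν' hν' hne
  linarith

/-! ### The weights `± a_i` -/

/-- the non-zero weights `± a_i` -/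
def Phi {m : ℕ} (a : Fin m → E) : Set E := {μ | μ ≠ 0 ∧ ∃ i, a i = μ ∨ -a i = μ}

theorem card_ne_zero {ι : Type} [Finite ι] {p : ι → Prop} : Nat.card {i // p i} ≠ 0 ↔ ∃ i, p i := by
  rw [Nat.card_ne_zero]
  constructor
  · rintro ⟨⟨i, hi⟩, -⟩
    exact ⟨i, hi⟩
  · rintro ⟨i, hi⟩
    exact ⟨⟨i, hi⟩, inferInstance⟩

theorem card_le_one {ι : Type} [Finite ι] {p : ι → Prop} (h : ∀ i j, p i → p j → i = j) :
    Nat.card {i // p i} ≤ 1 := by
  rw [Finite.card_le_one_iff_subsingleton]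
  exact ⟨fun i j => Subtype.ext (h i j i.2 j.2)⟩

theorem card_eq_one {ι : Type} [Finite ι] {p : ι → Prop} (i : ι) (hi : p i)
    (h : ∀ j, p j → j = i) : Nat.card {i // p i} = 1 := by
  have h1 : Nat.card {i // p i} ≠ 0 := card_ne_zero.2 ⟨i, hi⟩
  have h2 : Nat.card {i // p i} ≤ 1 := card_le_one fun j k hj hk => (h j hj).trans (h k hk).symm
  omega

theorem eq_of_card_le_one {ι : Type} [Finite ι] {p : ι → Prop} (h : Nat.card {i // p i} ≤ 1)
    {i j : ι} (hi : p i) (hj : p j) : i = j := by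
  rw [Finite.card_le_one_iff_subsingleton] at h
  exact congrArg Subtype.val (h.elim ⟨i, hi⟩ ⟨j, hj⟩)

theorem two_le_card {ι : Type} [Finite ι] {p : ι → Prop} {i j : ι} (hi : p i) (hj : p j)
    (hij : i ≠ j) : 2 ≤ Nat.card {i // p i} := by
  by_contra h
  exact hij (eq_of_card_le_one (by omega) hi hj)

variable {m : ℕ} (a : Fin m → E)

theorem dVe_ne {a : Fin m → E} {μ : E} : dVe a μ ≠ 0 ↔ ∃ i, a i = μ ∨ -a i = μ := by
  unfold dVe
  rw [Ne, Nat.add_eq_zero_iff, not_and_or]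
  change Nat.card _ ≠ 0 ∨ Nat.card _ ≠ 0 ↔ _
  rw [card_ne_zero, card_ne_zero, exists_or]

theorem dVo_ne {a : Fin m → E} {μ : E} : dVo a μ ≠ 0 ↔ μ = 0 ∨ ∃ i, a i = μ ∨ -a i = μ := by
  have h1 : dVo a μ = dVe a μ + Nat.card {_i : Unit // (0 : E) = μ} := rfl
  rw [h1, Ne, Nat.add_eq_zero_iff, not_and_or]
  change dVe a μ ≠ 0 ∨ Nat.card _ ≠ 0 ↔ _
  rw [card_ne_zero, dVe_ne, or_comm]
  refine or_congr ?_ Iff.rfl
  exact ⟨fun ⟨_, h⟩ => h.symm, fun h => ⟨(), h.symm⟩⟩

theorem dVe_ne_iff {a : Fin m → E} (h0 : ∀ i, a i ≠ 0) {μ : E} : dVe a μ ≠ 0 ↔ μ ∈ Phi a := by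
  rw [dVe_ne]
  constructor
  · rintro ⟨i, hi⟩
    refine ⟨?_, i, hi⟩
    rintro rfl
    rcases hi with hi | hi
    · exact h0 i hi
    · exact h0 i (neg_eq_zero.1 hi)
  · exact fun h => h.2

theorem Phi_neg {a : Fin m → E} {μ : E} (h : μ ∈ Phi a) : -μ ∈ Phi a := by
  obtain ⟨h0, i, hi⟩ := h
  refine ⟨neg_ne_zero.2 h0, i, ?_⟩
  rcases hi with hi | hi
  · exact Or.inr (by rw [hi])
  · exact Or.inl (by rw [← hi, neg_neg])

theorem Phi_finite : (Phi a).Finite := by
  refine ((Set.finite_range a).union (Set.finite_range fun i => -a i)).subset ?_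
  rintro μ ⟨-, i, hi | hi⟩
  · exact Or.inl ⟨i, hi⟩
  · exact Or.inr ⟨i, hi⟩

theorem mem_Phi {a : Fin m → E} {i : Fin m} (h : a i ≠ 0) : a i ∈ Phi a := ⟨h, i, Or.inl rfl⟩

/-! ### The weights of the spin modules -/

/-- the one of `± a_i` on which `x` is positive -/
noncomputable def bx (x : E →ₗ[ℚ] ℚ) (i : Fin m) : E := if 0 < x (a i) then a i else -a i

/-- the highest weight of the spin module for `x` -/
noncomputable def lam (x : E →ₗ[ℚ] ℚ) : E := (1 / 2 : ℚ) • ∑ i, bx a x i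

/-- the type of the half spin module which contains `lam` -/
noncomputable def s0 (x : E →ₗ[ℚ] ℚ) : ℚ := ∏ i, sg (decide (0 < x (a i)))

variable (x : E →ₗ[ℚ] ℚ)

theorem bx_eq (i : Fin m) : bx a x i = a i ∨ bx a x i = -a i := by
  unfold bx
  split_ifs
  · exact Or.inl rfl
  · exact Or.inr rfl

theorem bx_pos {i : Fin m} (h : x (a i) ≠ 0) : 0 < x (bx a x i) := by
  unfold bx
  split_ifs with h1
  · exact h1
  · rw [map_neg]
    have h2 : x (a i) < 0 := lt_of_le_of_ne (not_lt.1 h1) h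
    linarith

theorem bx_mem {i : Fin m} (h : a i ≠ 0) : bx a x i ∈ Phi a := by
  rcases bx_eq a x i with h1 | h1 <;> rw [h1]
  · exact mem_Phi h
  · exact Phi_neg (mem_Phi h)

/-- `μ = ± a_i` is `b_i` if `x μ > 0` -/
theorem bx_of_pos {i : Fin m} {μ : E} (h : a i = μ ∨ -a i = μ) (hx : 0 < x μ) : bx a x i = μ := by
  unfold bx
  rcases h with rfl | rfl
  · rw [if_pos hx]
  · rw [map_neg] at hx
    rw [if_neg (by linarith)]

theorem exists_bx {μ : E} (h : μ ∈ Phi a) (hx : 0 < x μ) : ∃ i, bx a x i = μ := by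
  obtain ⟨-, i, hi⟩ := h
  exact ⟨i, bx_of_pos a x hi hx⟩

theorem bx_sg (i : Fin m) : bx a x i = sg (decide (0 < x (a i))) • a i := by
  unfold bx sg
  by_cases h : 0 < x (a i)
  · simp [h]
  · simp [h]

/-- subsets and signs -/
noncomputable def eqT (m : ℕ) (s : Fin m → Bool) : (Fin m → Bool) ≃ Finset (Fin m) where
  toFun ε := univ.filter fun i => ε i ≠ s i
  invFun T := fun i => if i ∈ T then !(s i) else s i
  left_inv ε := by
    funext i
    by_cases h : ε i = s i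
    · simp [h]
    · have h1 : (!s i) = ε i := by
        cases h2 : s i <;> cases h3 : ε i <;> simp_all
      simp [h, h1]
  right_inv T := by
    ext i
    by_cases h : i ∈ T
    · simp [h]
    · simp [h]

theorem wS_symm (T : Finset (Fin m)) :
    wS a ((eqT m fun i => decide (0 < x (a i))).symm T) = lam a x - ∑ i ∈ T, bx a x i := by
  unfold wS lam
  have h1 : ∀ i, sg ((eqT m fun i => decide (0 < x (a i))).symm T i) • a i =
      bx a x i - (2 : ℚ) • (if i ∈ T then bx a x i else 0) := by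
    intro i
    rw [bx_sg]
    simp only [eqT, Equiv.coe_fn_symm_mk]
    by_cases hi : i ∈ T
    · by_cases h : 0 < x (a i)
      · simp [h, hi, sg]
        module
      · simp [h, hi, sg]
        module
    · simp [hi]
  rw [Finset.sum_congr rfl fun i _ => h1 i, Finset.sum_sub_distrib, ← Finset.smul_sum,
    smul_sub, smul_smul, Finset.sum_ite_mem, Finset.univ_inter]
  norm_num

theorem prod_symm (T : Finset (Fin m)) :
    ∏ i, sg ((eqT m fun i => decide (0 < x (a i))).symm T i) = s0 a x * (-1) ^ T.card := by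
  have h1 : ∀ i, sg ((eqT m fun i => decide (0 < x (a i))).symm T i) =
      sg (decide (0 < x (a i))) * (if i ∈ T then -1 else 1) := by
    intro i
    simp only [eqT, Equiv.coe_fn_symm_mk]
    by_cases hi : i ∈ T
    · by_cases h : 0 < x (a i)
      · simp [h, hi, sg]
      · simp [h, hi, sg]
    · simp [hi]
  rw [Finset.prod_congr rfl fun i _ => h1 i, Finset.prod_mul_distrib, Finset.prod_ite_mem,
    Finset.univ_inter, Finset.prod_const]
  rfl

theorem s0_eq : s0 a x = 1 ∨ s0 a x = -1 := by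
  unfold s0
  refine Finset.prod_induction _ (fun t : ℚ => t = 1 ∨ t = -1) ?_ (Or.inl rfl) ?_
  · rintro s t (rfl | rfl) (rfl | rfl) <;> norm_num
  · intro i _
    unfold sg
    split_ifs
    · exact Or.inl rfl
    · exact Or.inr rfl

theorem s0_ne : s0 a x ≠ 0 := by
  rcases s0_eq a x with h | h <;> rw [h] <;> norm_num

/-- multiplicities of the spin module -/
theorem dS_lam (μ : E) :
    dS a (lam a x - μ) = Nat.card {T : Finset (Fin m) // ∑ i ∈ T, bx a x i = μ} := by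
  unfold dS
  refine Nat.card_congr (((eqT m fun i => decide (0 < x (a i))).subtypeEquiv fun ε => ?_))
  obtain ⟨T, rfl⟩ := (eqT m fun i => decide (0 < x (a i))).symm.surjective ε
  rw [wS_symm, Equiv.apply_symm_apply, sub_right_inj]

theorem dH_top (μ : E) : dH a (s0 a x) (lam a x - μ) =
    Nat.card {T : Finset (Fin m) // Even T.card ∧ ∑ i ∈ T, bx a x i = μ} := by
  unfold dH
  refine Nat.card_congr (((eqT m fun i => decide (0 < x (a i))).subtypeEquiv fun ε => ?_))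
  obtain ⟨T, rfl⟩ := (eqT m fun i => decide (0 < x (a i))).symm.surjective ε
  rw [wS_symm, Equiv.apply_symm_apply, sub_right_inj, prod_symm]
  refine and_congr ?_ Iff.rfl
  have h0 := s0_ne a x
  constructor
  · intro h
    rcases Nat.even_or_odd T.card with h1 | h1
    · exact h1
    · rw [h1.neg_one_pow] at h
      exact absurd (by linarith) h0
  · intro h
    rw [h.neg_one_pow, mul_one]

theorem dH_bot (μ : E) : dH a (-s0 a x) (lam a x - μ) =
    Nat.card {T : Finset (Fin m) // Odd T.card ∧ ∑ i ∈ T, bx a x i = μ} := by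
  unfold dH
  refine Nat.card_congr (((eqT m fun i => decide (0 < x (a i))).subtypeEquiv fun ε => ?_))
  obtain ⟨T, rfl⟩ := (eqT m fun i => decide (0 < x (a i))).symm.surjective ε
  rw [wS_symm, Equiv.apply_symm_apply, sub_right_inj, prod_symm]
  refine and_congr ?_ Iff.rfl
  have h0 := s0_ne a x
  constructor
  · intro h
    rcases Nat.even_or_odd T.card with h1 | h1
    · rw [h1.neg_one_pow] at h
      exact absurd (by linarith) h0
    · exact h1
  · intro h
    rw [h.neg_one_pow]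
    ring

theorem dS_ne {μ : E} : dS a (lam a x - μ) ≠ 0 ↔ ∃ T : Finset (Fin m), ∑ i ∈ T, bx a x i = μ := by
  rw [dS_lam, card_ne_zero]

theorem dH_top_ne {μ : E} : dH a (s0 a x) (lam a x - μ) ≠ 0 ↔
    ∃ T : Finset (Fin m), Even T.card ∧ ∑ i ∈ T, bx a x i = μ := by
  rw [dH_top, card_ne_zero]

theorem dH_bot_ne {μ : E} : dH a (-s0 a x) (lam a x - μ) ≠ 0 ↔
    ∃ T : Finset (Fin m), Odd T.card ∧ ∑ i ∈ T, bx a x i = μ := by
  rw [dH_bot, card_ne_zero]

/-- both half spin modules are irreducible -/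
theorem iwt_top {a : Fin m → E} {x : E →ₗ[ℚ] ℚ} (h1 : IWt D (dH a 1)) (h2 : IWt D (dH a (-1))) :
    IWt D (dH a (s0 a x)) ∧ IWt D (dH a (-s0 a x)) := by
  rcases s0_eq a x with h | h <;> rw [h]
  · exact ⟨h1, h2⟩
  · exact ⟨h2, by rwa [neg_neg]⟩

/-- `x (Σ_T b) ≥ x (b_i)` for `i ∈ T` -/
theorem le_sum {x : E →ₗ[ℚ] ℚ} {a : Fin m → E} (hx : ∀ i, x (a i) ≠ 0) (T : Finset (Fin m))
    {i : Fin m} (hi : i ∈ T) : x (bx a x i) ≤ x (∑ i ∈ T, bx a x i) := by
  rw [map_sum]
  exact Finset.single_le_sum (f := fun i => x (bx a x i)) (fun i _ => (bx_pos a x (hx i)).le) hi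

theorem sum_nonneg {x : E →ₗ[ℚ] ℚ} {a : Fin m → E} (hx : ∀ i, x (a i) ≠ 0)
    (T : Finset (Fin m)) : 0 ≤ x (∑ i ∈ T, bx a x i) := by
  rw [map_sum]
  exact Finset.sum_nonneg fun i _ => (bx_pos a x (hx i)).le

theorem sum_pos {x : E →ₗ[ℚ] ℚ} {a : Fin m → E} (hx : ∀ i, x (a i) ≠ 0)
    (T : Finset (Fin m)) (hT : T.Nonempty) : 0 < x (∑ i ∈ T, bx a x i) := by
  rw [map_sum]
  exact Finset.sum_pos (fun i _ => bx_pos a x (hx i)) hT

theorem add_le_sum {x : E →ₗ[ℚ] ℚ} {a : Fin m → E} (hx : ∀ i, x (a i) ≠ 0) (T : Finset (Fin m))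
    {i j : Fin m} (hi : i ∈ T) (hj : j ∈ T) (hij : i ≠ j) :
    x (bx a x i) + x (bx a x j) ≤ x (∑ i ∈ T, bx a x i) := by
  have h1 : ({i, j} : Finset (Fin m)) ⊆ T := by
    intro k hk
    rw [Finset.mem_insert, Finset.mem_singleton] at hk
    rcases hk with rfl | rfl
    · exact hi
    · exact hj
  rw [map_sum, ← Finset.sum_pair (f := fun i => x (bx a x i)) hij]
  exact Finset.sum_le_sum_of_subset_of_nonneg h1 fun k _ _ => (bx_pos a x (hx k)).le

end CBasM

/-! ### Functionals -/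

/-- Module FUN. -/
theorem specFun : SpecFun := by
  intro E _ _ P A hA
  induction A, hA using Set.Finite.induction_on with
  | empty => exact ⟨0, by simp, by simp⟩
  | @insert v A hvA hA ih =>
    obtain ⟨x, hx1, hx2⟩ := ih
    by_cases hv : v ∈ P ∨ x v ≠ 0
    · refine ⟨x, hx1, ?_⟩
      rintro w (rfl | hw) hwP
      · exact hv.resolve_left hwP
      · exact hx2 w hw hwP
    · push Not at hv
      obtain ⟨hvP, hxv⟩ := hv
      obtain ⟨y, hy1, hy2⟩ := Submodule.exists_le_ker_of_notMem hvP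
      obtain ⟨t, ht⟩ : ∃ t : ℚ, t ∉ insert 0 ((fun w => -(x w / y w)) '' A) :=
        ((hA.image _).insert 0).exists_notMem
      rw [Set.mem_insert_iff, not_or] at ht
      refine ⟨x + t • y, fun p hp => ?_, ?_⟩
      · have h1 : y p = 0 := hy2 hp
        simp [hx1 p hp, h1]
      · rintro w (rfl | hw) hwP
        · simp only [LinearMap.add_apply, LinearMap.smul_apply, hxv, zero_add, smul_eq_mul]
          exact mul_ne_zero ht.1 hy1
        · simp only [LinearMap.add_apply, LinearMap.smul_apply, smul_eq_mul]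
          intro h
          by_cases hyw : y w = 0
          · rw [hyw, mul_zero, add_zero] at h
            exact hx2 w hw hwP h
          · refine ht.2 ⟨w, hw, ?_⟩
            field_simp
            linarith

/-- Module COMB. -/
theorem specComb : SpecComb := by
  intro E _ _ x y A hA C
  have h1 : ∀ᶠ N : ℚ in Filter.atTop, ∀ v ∈ A, (0 < x v → C < N * x v + y v) ∧
      (x v < 0 → N * x v + y v < -C) := by
    rw [Set.Finite.eventually_all hA]
    intro v _
    refine Filter.Eventually.and ?_ ?_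
    · by_cases hv : 0 < x v
      · filter_upwards [Filter.eventually_gt_atTop ((C - y v) / x v)] with N hN _
        rw [div_lt_iff₀ hv] at hN
        linarith
      · exact Filter.Eventually.of_forall fun N h => absurd h hv
    · by_cases hv : x v < 0
      · filter_upwards [Filter.eventually_gt_atTop ((-C - y v) / x v)] with N hN _
        rw [div_lt_iff_of_neg hv] at hN
        linarith
      · exact Filter.Eventually.of_forall fun N h => absurd h hv
  obtain ⟨N, hN⟩ := h1.exists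
  refine ⟨N • x + y, fun v hv => by simp [hv], fun v hv => ?_⟩
  simpa using hN v hv

end Pool.Agent.Lib.MPf11a48.K3
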