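import Pool.Agent.Lib.MP_f11a48_ag.K3.AlgSpec

/-!
# Clifford operators from a hyperbolic weight basis: common part of CLE and CLO
-/

set_option autoImplicit false
set_option linter.unusedSectionVars false

namespace Pool.Agent.Lib.MPf11a48.K3.CliffCoreM

open Module LieAlgebra Matrix

section

variable {F S : Type} [Field F] [CharZero F] [AddCommGroup S] [Module F S] {n m : ℕ}

/-- the Clifford operators -/
noncomputable def gam (v v' : Fin m → Fin n → F) (u : Fin n → F) (c c' : Fin m → Module.End F S)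
    (χ : Module.End F S) (k : Fin n) : Module.End F S :=
  ∑ i, (v' i k • c i + v i k • c' i) + ((1 / 2 : F) * u k) • χ

variable {v v' : Fin m → Fin n → F} {u : Fin n → F} {c c' : Fin m → Module.End F S}
  {χ : Module.End F S}

theorem gam_sum (w : Fin n → F) :
    ∑ k, w k • gam v v' u c c' χ k =
      ∑ i, ((w ⬝ᵥ v' i) • c i + (w ⬝ᵥ v i) • c' i) + ((1 / 2 : F) * (w ⬝ᵥ u)) • χ := by
  simp only [gam, smul_add, Finset.smul_sum, Finset.sum_add_distrib, smul_smul, dotProduct,
    Finset.sum_smul, Finset.mul_sum]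
  congr 1
  · congr 1 <;> exact Finset.sum_comm
  · exact Finset.sum_congr rfl fun k _ => by congr 1; ring

/-- anticommutator of two combinations -/
theorem anti (hcc : ∀ i j, c i * c j + c j * c i = 0) (hcc' : ∀ i j, c' i * c' j + c' j * c' i = 0)
    (hd : ∀ i j, c i * c' j + c' j * c i = if i = j then 1 else 0)
    (hc : ∀ i, χ * c i = -(c i * χ)) (hc' : ∀ i, χ * c' i = -(c' i * χ)) (hχ : χ * χ = 1)
    (hcomp : ∀ k l, ∑ i, (v i k * v' i l + v' i k * v i l) + (1 / 2 : F) * (u k * u l) =
      if k = l then 1 else 0) (k l : Fin n) :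
    gam v v' u c c' χ k * gam v v' u c c' χ l + gam v v' u c c' χ l * gam v v' u c c' χ k =
      if k = l then 1 else 0 := by
  -- the part without `χ`
  set A : Fin n → Module.End F S := fun k => ∑ i, (v' i k • c i + v i k • c' i) with hA
  have h1 : ∀ k, A k * χ + χ * A k = 0 := by
    intro k
    simp only [hA, Finset.sum_mul, Finset.mul_sum, ← Finset.sum_add_distrib]
    refine Finset.sum_eq_zero fun i _ => ?_
    simp only [add_mul, mul_add, smul_mul_assoc, mul_smul_comm, hc, hc', smul_neg]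
    abel
  have h2 : ∀ k l, A k * A l + A l * A k = (∑ i, (v i k * v' i l + v' i k * v i l)) • 1 := by
    intro k l
    have e1 : A k * A l = ∑ i, ∑ j, (v' i k • c i + v i k • c' i) * (v' j l • c j + v j l • c' j) := by
      simp only [hA, Finset.sum_mul, Finset.mul_sum]
      exact Finset.sum_comm
    have e2 : A l * A k = ∑ i, ∑ j, (v' j l • c j + v j l • c' j) * (v' i k • c i + v i k • c' i) := by
      simp only [hA, Finset.sum_mul, Finset.mul_sum]
    rw [e1, e2, ← Finset.sum_add_distrib, Finset.sum_smul]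
    refine Finset.sum_congr rfl fun i _ => ?_
    rw [← Finset.sum_add_distrib]
    have e3 : ∀ j, (v' i k • c i + v i k • c' i) * (v' j l • c j + v j l • c' j) +
        (v' j l • c j + v j l • c' j) * (v' i k • c i + v i k • c' i) =
        (v' i k * v' j l) • (c i * c j + c j * c i) + (v i k * v j l) • (c' i * c' j + c' j * c' i) +
        (v' i k * v j l) • (c i * c' j + c' j * c i) +
        (v i k * v' j l) • (c j * c' i + c' i * c j) := by
      intro j
      simp only [add_mul, mul_add, smul_mul_assoc, mul_smul_comm, smul_add, smul_smul]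
      rw [mul_comm (v' j l) (v' i k), mul_comm (v j l) (v i k), mul_comm (v j l) (v' i k),
        mul_comm (v' j l) (v i k)]
      abel
    rw [Finset.sum_congr rfl fun j _ => e3 j]
    simp only [hcc, hcc', hd, smul_zero, zero_add]
    rw [Finset.sum_eq_single i]
    · rw [if_pos rfl, ← add_smul]
      congr 1
      ring
    · intro j _ hj
      rw [if_neg (fun h => hj h.symm), if_neg hj, smul_zero, smul_zero, add_zero]
    · intro h
      exact absurd (Finset.mem_univ i) h
  have e : gam v v' u c c' χ k * gam v v' u c c' χ l + gam v v' u c c' χ l * gam v v' u c c' χ k =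
      (A k * A l + A l * A k) + ((1 / 2 : F) * u l) • (A k * χ + χ * A k) +
        ((1 / 2 : F) * u k) • (A l * χ + χ * A l) +
        ((1 / 2 : F) * u k * ((1 / 2 : F) * u l) * 2) • (χ * χ) := by
    have hg : ∀ k, gam v v' u c c' χ k = A k + ((1 / 2 : F) * u k) • χ := fun k => rfl
    rw [hg, hg]
    simp only [add_mul, mul_add, smul_mul_assoc, mul_smul_comm, smul_add, smul_smul]
    have e4 : ((1 / 2 : F) * u k * ((1 / 2 : F) * u l) * 2) • (χ * χ) =
        ((1 / 2 : F) * u k * ((1 / 2 : F) * u l)) • (χ * χ) +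
        ((1 / 2 : F) * u l * ((1 / 2 : F) * u k)) • (χ * χ) := by
      rw [← add_smul]
      congr 1
      ring
    rw [e4]
    abel
  rw [e, h1, h1, h2, smul_zero, smul_zero, add_zero, add_zero, hχ, ← add_smul]
  have e5 : ∑ i, (v i k * v' i l + v' i k * v i l) +
      (1 / 2 : F) * u k * ((1 / 2 : F) * u l) * 2 = if k = l then 1 else 0 := by
    rw [← hcomp k l]
    congr 1
    ring
  rw [e5]
  split_ifs
  · rw [one_smul]
  · rw [zero_smul]

theorem adj (hadj : Algebra.adjoin F (Set.range c ∪ Set.range c') = ⊤)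
    (hvv : ∀ i j, v i ⬝ᵥ v j = 0) (hvv' : ∀ i j, v' i ⬝ᵥ v' j = 0)
    (hdual : ∀ i j, v i ⬝ᵥ v' j = if i = j then 1 else 0)
    (huv : ∀ i, u ⬝ᵥ v i = 0) (huv' : ∀ i, u ⬝ᵥ v' i = 0) :
    (∀ j, ∑ k, v j k • gam v v' u c c' χ k = c j) ∧
    (∀ j, ∑ k, v' j k • gam v v' u c c' χ k = c' j) ∧
    Algebra.adjoin F (Set.range (gam v v' u c c' χ)) = ⊤ := by
  have h1 : ∀ j, ∑ k, v j k • gam v v' u c c' χ k = c j := by
    intro j
    rw [gam_sum, dotProduct_comm (v j) u, huv, mul_zero, zero_smul, add_zero,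
      Finset.sum_eq_single j]
    · rw [hdual, if_pos rfl, hvv, one_smul, zero_smul, add_zero]
    · intro i _ hi
      rw [hdual, if_neg (fun h => hi h.symm), hvv, zero_smul, zero_smul, add_zero]
    · intro h
      exact absurd (Finset.mem_univ j) h
  have h2 : ∀ j, ∑ k, v' j k • gam v v' u c c' χ k = c' j := by
    intro j
    rw [gam_sum, dotProduct_comm (v' j) u, huv', mul_zero, zero_smul, add_zero,
      Finset.sum_eq_single j]
    · rw [dotProduct_comm (v' j) (v j), hdual, if_pos rfl, hvv', one_smul, zero_smul, zero_add]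
    · intro i _ hi
      rw [dotProduct_comm (v' j) (v i), hdual, if_neg hi, hvv', zero_smul, zero_smul, add_zero]
    · intro h
      exact absurd (Finset.mem_univ j) h
  refine ⟨h1, h2, ?_⟩
  rw [eq_top_iff, ← hadj]
  refine Algebra.adjoin_le ?_
  have hmem : ∀ w : Fin n → F, ∑ k, w k • gam v v' u c c' χ k ∈
      Algebra.adjoin F (Set.range (gam v v' u c c' χ)) := fun w =>
    Subalgebra.sum_mem _ fun k _ =>
      Subalgebra.smul_mem _ (Algebra.subset_adjoin (Set.mem_range_self k)) _
  rintro x (⟨j, rfl⟩ | ⟨j, rfl⟩)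
  · rw [← h1 j]
    exact hmem _
  · rw [← h2 j]
    exact hmem _

/-- the spin operator of a matrix which is diagonal in the hyperbolic basis -/
theorem spn_diag (hvv : ∀ i j, v i ⬝ᵥ v j = 0) (hvv' : ∀ i j, v' i ⬝ᵥ v' j = 0)
    (hdual : ∀ i j, v i ⬝ᵥ v' j = if i = j then 1 else 0)
    (huv : ∀ i, u ⬝ᵥ v i = 0) (huv' : ∀ i, u ⬝ᵥ v' i = 0)
    (hadj : Algebra.adjoin F (Set.range c ∪ Set.range c') = ⊤)
    (hcomp : ∀ k l, ∑ i, (v i k * v' i l + v' i k * v i l) + (1 / 2 : F) * (u k * u l) =
      if k = l then 1 else 0) (X : Matrix (Fin n) (Fin n) F) (a : Fin m → F)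
    (hv : ∀ i, X.mulVec (v i) = a i • v i) (hv' : ∀ i, X.mulVec (v' i) = -(a i) • v' i)
    (hu : X.mulVec u = 0) :
    spn (gam v v' u c c' χ) X = (1 / 2 : F) • ∑ i, a i • (c i * c' i - c' i * c i) := by
  have hX : ∀ k l, X k l = ∑ i, a i * (v i k * v' i l - v' i k * v i l) := by
    intro k l
    have e1 : X k l = ∑ j, X k j * (if j = l then 1 else 0) := by simp
    rw [e1]
    have e2 : ∀ j, X k j * (if j = l then 1 else 0) =
        ∑ i, (X k j * v i j * v' i l + X k j * v' i j * v i l) + (1 / 2 : F) * (X k j * u j) * u l := by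
      intro j
      rw [← hcomp j l, mul_add, Finset.mul_sum]
      congr 1
      · exact Finset.sum_congr rfl fun i _ => by ring
      · ring
    rw [Finset.sum_congr rfl fun j _ => e2 j, Finset.sum_add_distrib, Finset.sum_comm]
    have e3 : ∑ j, (1 / 2 : F) * (X k j * u j) * u l = 0 := by
      rw [← Finset.sum_mul, ← Finset.mul_sum]
      have : ∑ j, X k j * u j = 0 := congrFun hu k
      rw [this, mul_zero, zero_mul]
    rw [e3, add_zero]
    refine Finset.sum_congr rfl fun i _ => ?_
    rw [Finset.sum_add_distrib, ← Finset.sum_mul, ← Finset.sum_mul]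
    have e4 : ∑ j, X k j * v i j = a i * v i k := congrFun (hv i) k
    have e5 : ∑ j, X k j * v' i j = -(a i) * v' i k := congrFun (hv' i) k
    rw [e4, e5]
    ring
  obtain ⟨h1, h2, -⟩ := adj (χ := χ) hadj hvv hvv' hdual huv huv'
  unfold spn
  congr 1
  have e1 : ∑ k, ∑ l, X k l • (gam v v' u c c' χ k * gam v v' u c c' χ l) =
      ∑ i, a i • ((∑ k, v i k • gam v v' u c c' χ k) * (∑ l, v' i l • gam v v' u c c' χ l) -
        (∑ k, v' i k • gam v v' u c c' χ k) * (∑ l, v i l • gam v v' u c c' χ l)) := by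
    have e2 : ∀ i, a i • ((∑ k, v i k • gam v v' u c c' χ k) *
        (∑ l, v' i l • gam v v' u c c' χ l) -
        (∑ k, v' i k • gam v v' u c c' χ k) * (∑ l, v i l • gam v v' u c c' χ l)) =
        ∑ k, ∑ l, (a i * (v i k * v' i l - v' i k * v i l)) •
          (gam v v' u c c' χ k * gam v v' u c c' χ l) := by
      intro i
      simp only [Finset.sum_mul, Finset.mul_sum, smul_mul_assoc, mul_smul_comm, smul_smul,
        Finset.smul_sum, smul_sub, mul_sub, sub_smul, Finset.sum_sub_distrib]
      congr 1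
      · rw [Finset.sum_comm]
        refine Finset.sum_congr rfl fun k _ => Finset.sum_congr rfl fun l _ => ?_
        congr 1
        ring
      · rw [Finset.sum_comm]
        refine Finset.sum_congr rfl fun k _ => Finset.sum_congr rfl fun l _ => ?_
        congr 1
        ring
    rw [Finset.sum_congr rfl fun i _ => e2 i]
    symm
    rw [Finset.sum_comm]
    refine Finset.sum_congr rfl fun k _ => ?_
    rw [Finset.sum_comm]
    refine Finset.sum_congr rfl fun l _ => ?_
    rw [← Finset.sum_smul, hX k l]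
  rw [e1]
  refine Finset.sum_congr rfl fun i _ => ?_
  rw [h1, h2]

end

theorem sg_cast {F : Type} [Field F] [CharZero F] (b : Bool) :
    ((sg b : ℚ) : F) = if b then 1 else -1 := by
  cases b <;> simp [sg]

theorem main {F L : Type} [Field F] [CharZero F] [LieRing L] [LieAlgebra F L]
    (hCAR : SpecCAR) (H : LieSubalgebra F L) {n m : ℕ} (θ : OR F L n) (b : HB θ H m)
    (u : Fin n → F) (hu : ∀ h : H, (θ.t h.1).mulVec u = 0)
    (huv : ∀ i, u ⬝ᵥ b.v i = 0) (huv' : ∀ i, u ⬝ᵥ b.v' i = 0)
    (hcomp : ∀ k l, ∑ i, (b.v i k * b.v' i l + b.v' i k * b.v i l) + (1 / 2 : F) * (u k * u l) =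
      if k = l then 1 else 0) :
    ∃ γ : Fin n → Module.End F (SM m F),
    (∀ i j, γ i * γ j + γ j * γ i = if i = j then 1 else 0) ∧
    (u = 0 → ∀ i, chi m F * γ i = -(γ i * chi m F)) ∧ Algebra.adjoin F (Set.range γ) = ⊤ ∧
    ∀ (h : H) (ε : Fin m → Bool), spn γ (θ.t h.1) (es ε) = (wS b.a ε) h • (es ε : SM m F) := by
  obtain ⟨c, c', hcc, hcc', hd, hn, hc, hc', hχ, hadj⟩ := hCAR F m
  refine ⟨gam b.v b.v' u c c' (chi m F), anti hcc hcc' hd hc hc' hχ hcomp, ?_,
    (adj hadj b.vv b.vv' b.dual huv huv').2.2, ?_⟩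
  · intro hu0 k
    have hg : gam b.v b.v' u c c' (chi m F) k = ∑ i, (b.v' i k • c i + b.v i k • c' i) := by
      unfold gam
      rw [hu0, Pi.zero_apply, mul_zero, zero_smul, add_zero]
    rw [hg, Finset.mul_sum, Finset.sum_mul, ← Finset.sum_neg_distrib]
    refine Finset.sum_congr rfl fun i _ => ?_
    simp only [add_mul, mul_add, smul_mul_assoc, mul_smul_comm, hc, hc', smul_neg]
    abel
  · intro h ε
    rw [spn_diag b.vv b.vv' b.dual huv huv' hadj hcomp (θ.t h.1) (fun i => b.a i h)
      (fun i => b.wv i h) (fun i => b.wv' i h) (hu h)]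
    have e1 : ∀ i, (c i * c' i - c' i * c i) (es ε : SM m F) = ((sg (ε i) : ℚ) : F) • es ε := by
      intro i
      have e2 : c' i * c i = 1 - c i * c' i := by
        have := hd i i
        rw [if_pos rfl] at this
        rw [← this]
        abel
      rw [e2, LinearMap.sub_apply, LinearMap.sub_apply, hn, sg_cast, Module.End.one_apply]
      cases ε i
      · simp
      · simp
    rw [LinearMap.smul_apply, LinearMap.sum_apply]
    have e3 : (wS b.a ε) h = (1 / 2 : F) * ∑ i, ((sg (ε i) : ℚ) : F) * b.a i h := by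
      unfold wS
      rw [LinearMap.smul_apply, LinearMap.sum_apply, Rat.smul_def]
      congr 1
      · norm_num
      · refine Finset.sum_congr rfl fun i _ => ?_
        rw [LinearMap.smul_apply, Rat.smul_def]
    rw [e3, mul_smul, Finset.sum_smul]
    congr 1
    refine Finset.sum_congr rfl fun i _ => ?_
    rw [LinearMap.smul_apply, e1, smul_smul, mul_comm]

end Pool.Agent.Lib.MPf11a48.K3.CliffCoreM
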