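import Mathlib

/-!
# Abstract root data and weights (combinatorial part)

Everything takes place in a `ℚ`-vector space `E` (the rational weights of a Cartan subalgebra).
`D.R` are the roots, `D.pr α μ = ⟨μ, α^∨⟩` for a root `α`. A function `d : E → ℕ` is the function
`μ ↦ dim M_μ` of a finite dimensional module `M`.
-/

set_option autoImplicit false

namespace Pool.Agent.Lib.MPf11a48.K3

open Finset

/-- roots and pairings (for `α ∈ R`, `pr α μ = ⟨μ, α^∨⟩`) -/
structure RDat (E : Type) [AddCommGroup E] [Module ℚ E] where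
  /-- roots -/
  R : Set E
  /-- pairing with the coroot of a root -/
  pr : E → E →ₗ[ℚ] ℚ

variable {E : Type} [AddCommGroup E] [Module ℚ E]

/-- the axioms of a reduced root system that are used -/
structure RDat.Ok (D : RDat E) : Prop where
  fin : D.R.Finite
  two : ∀ α ∈ D.R, D.pr α α = 2
  int : ∀ α ∈ D.R, ∀ β ∈ D.R, ∃ z : ℤ, D.pr α β = z
  refl : ∀ α ∈ D.R, ∀ β ∈ D.R, β - D.pr α β • α ∈ D.R
  red : ∀ α ∈ D.R, ∀ t : ℚ, t • α ∈ D.R → t = 1 ∨ t = -1
  nonneg : ∀ α ∈ D.R, ∀ β ∈ D.R, 0 ≤ D.pr α β * D.pr β α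
  prod : ∀ α ∈ D.R, ∀ β ∈ D.R, (∀ t : ℚ, β ≠ t • α) → D.pr α β * D.pr β α < 4
  zero : ∀ α ∈ D.R, ∀ β ∈ D.R, D.pr α β = 0 → D.pr β α = 0

/-- `d` is the weight multiplicity function of a finite dimensional module. -/
structure Wt (D : RDat E) (d : E → ℕ) : Prop where
  fin : {μ | d μ ≠ 0}.Finite
  int : ∀ μ, d μ ≠ 0 → ∀ α ∈ D.R, ∃ z : ℤ, D.pr α μ = z
  refl : ∀ μ, ∀ α ∈ D.R, d (μ - D.pr α μ • α) = d μ
  str : ∀ μ, ∀ α ∈ D.R, 0 < D.pr α μ → d μ ≤ d (μ - α)

/-- `x` does not vanish on roots -/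
def Reg (D : RDat E) (x : E →ₗ[ℚ] ℚ) : Prop := ∀ α ∈ D.R, x α ≠ 0

/-- `ν` is a weight of the module and no `ν + α`, `α` a root positive for `x`, is a weight. -/
def IsTop (D : RDat E) (d : E → ℕ) (x : E →ₗ[ℚ] ℚ) (ν : E) : Prop :=
  d ν ≠ 0 ∧ ∀ α ∈ D.R, 0 < x α → d (ν + α) = 0

/-- `d` is the weight multiplicity function of an irreducible finite dimensional module. -/
structure IWt (D : RDat E) (d : E → ℕ) : Prop extends Wt D d where
  /-- the highest weight: unique, multiplicity one -/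
  top : ∀ x, Reg D x → ∀ ν, IsTop D d x ν → d ν = 1 ∧ ∀ ν', d ν' ≠ 0 → ν' ≠ ν → x ν' < x ν
  /-- if `ν` is not the highest weight and every way up from `ν` can be deformed to a way through
  `ν + β`, then the multiplicity of `ν` is at most the multiplicity of `ν + β`. -/
  sb : ∀ x, Reg D x → ∀ ν, (∃ ν', d ν' ≠ 0 ∧ x ν < x ν') → ∀ β ∈ D.R, 0 < x β →
    (∀ α ∈ D.R, 0 < x α → α ≠ β → d (ν + α) ≠ 0 →
      α - β ∈ D.R ∧ (0 < x (α - β) ∨ d (ν + α - β) = 0)) → d ν ≤ d (ν + β)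
  a3 : ∀ ν, d ν ≠ 0 → ∀ α ∈ D.R, d (ν + α) = 0 → d (ν - α) = 0 → D.pr α ν = 0

/-- the property of the zero weight space of an orthogonal module if it is a line -/
def Star (D : RDat E) (d : E → ℕ) : Prop :=
  d 0 = 1 → ∀ α ∈ D.R, ∀ β ∈ D.R, (∀ t : ℚ, β ≠ t • α) → d α ≠ 0 → d β ≠ 0 → d (β - α) = 0 →
    d (α - β) = 0 → β - α ∉ D.R → d (α + β) ≤ 1 → False

/-- the two (irreducible) modules have different highest weights -/
def NonIso (D : RDat E) (d d' : E → ℕ) : Prop :=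
  ∀ x, Reg D x → ∀ ν, IsTop D d x ν → IsTop D d' x ν → False

/-- sign of a Boolean -/
def sg (b : Bool) : ℚ := if b then 1 else -1

/-- the weight `1/2 Σ ± a_i` of the spin module -/
def wS {m : ℕ} (a : Fin m → E) (ε : Fin m → Bool) : E := (1 / 2 : ℚ) • ∑ i, sg (ε i) • a i

/-- multiplicities of `V`, of dimension `2m + 1` with weights `0, ± a_i` -/
noncomputable def dVo {m : ℕ} (a : Fin m → E) (μ : E) : ℕ :=
  Nat.card {i // a i = μ} + Nat.card {i // -a i = μ} + Nat.card {_i : Unit // (0 : E) = μ}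

/-- multiplicities of `V`, of dimension `2m` with weights `± a_i` -/
noncomputable def dVe {m : ℕ} (a : Fin m → E) (μ : E) : ℕ :=
  Nat.card {i // a i = μ} + Nat.card {i // -a i = μ}

/-- multiplicities of the spin module -/
noncomputable def dS {m : ℕ} (a : Fin m → E) (μ : E) : ℕ :=
  Nat.card {ε : Fin m → Bool // wS a ε = μ}

/-- multiplicities of the half spin modules: `s = 1` or `s = -1` is the product of the signs -/
noncomputable def dH {m : ℕ} (a : Fin m → E) (s : ℚ) (μ : E) : ℕ :=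
  Nat.card {ε : Fin m → Bool // ∏ i, sg (ε i) = s ∧ wS a ε = μ}

/-- ODD: if the spin module is irreducible, then `E` contains the root system `B_m`. -/
def SpecOdd : Prop :=
  ∀ (E : Type) [AddCommGroup E] [Module ℚ E] (D : RDat E), D.Ok → ∀ (m : ℕ) (a : Fin m → E),
    3 ≤ m → Wt D (dVo a) → Star D (dVo a) → IWt D (dS a) →
    (∀ i, a i ∈ D.R) ∧ (∀ i j, i ≠ j → a i + a j ∈ D.R ∧ a i - a j ∈ D.R) ∧
      ∀ i j, D.pr (a i) (a j) = if i = j then 2 else 0

/-- the case `m = 1` of ODD -/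
def SpecOdd1 : Prop :=
  ∀ (E : Type) [AddCommGroup E] [Module ℚ E] (D : RDat E), D.Ok → ∀ (a : Fin 1 → E),
    IWt D (dS a) → a 0 ∈ D.R

/-- EVEN: if the half spin modules are irreducible and not isomorphic, then `E` contains the root
system `D_m`. -/
def SpecEven : Prop :=
  ∀ (E : Type) [AddCommGroup E] [Module ℚ E] (D : RDat E), D.Ok → ∀ (m : ℕ) (a : Fin m → E),
    2 ≤ m → Wt D (dVe a) → IWt D (dH a 1) → IWt D (dH a (-1)) → NonIso D (dH a 1) (dH a (-1)) →
    (∀ i j, i ≠ j → a i + a j ∈ D.R ∧ a i - a j ∈ D.R) ∧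
      (∀ i j, i ≠ j → ∀ k, D.pr (a i - a j) (a k) =
        (if k = i then 1 else 0) - (if k = j then 1 else 0)) ∧
      ∀ i j, i ≠ j → ∀ k, D.pr (a i + a j) (a k) =
        (if k = i then 1 else 0) + (if k = j then 1 else 0)

/-- GEN: functionals. For a finite set `A` and a subspace `P` there is a functional which vanishes
on `P` and is non-zero on all elements of `A` outside `P`. -/
def SpecFun : Prop :=
  ∀ (E : Type) [AddCommGroup E] [Module ℚ E] (P : Submodule ℚ E) (A : Set E), A.Finite →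
    ∃ x : E →ₗ[ℚ] ℚ, (∀ p ∈ P, x p = 0) ∧ ∀ v ∈ A, v ∉ P → x v ≠ 0

/-- GEN: combination of functionals: `z = N x + y` with `N` large; on a finite set `z` is larger
than `C` in absolute value, with the sign of `x`, where `x` is not zero. -/
def SpecComb : Prop :=
  ∀ (E : Type) [AddCommGroup E] [Module ℚ E] (x y : E →ₗ[ℚ] ℚ) (A : Set E), A.Finite → ∀ C : ℚ,
    ∃ z : E →ₗ[ℚ] ℚ, (∀ v, x v = 0 → z v = y v) ∧ ∀ v ∈ A, (0 < x v → C < z v) ∧
      (x v < 0 → z v < -C)

end Pool.Agent.Lib.MPf11a48.K3
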