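import Pool.Agent.Lib.MP_f11a48_ag.K3.LieDefs

/-!
# COUNT: the dimension of a Killing Lie algebra from its roots
-/

set_option autoImplicit false
set_option linter.unusedSectionVars false

namespace Pool.Agent.Lib.MPf11a48.K3

open Module LieAlgebra LieAlgebra.IsKilling LieModule

namespace CountM

variable {F L : Type} [Field F] [CharZero F] [IsAlgClosed F] [LieRing L] [LieAlgebra F L]
  [Module.Finite F L] [IsKilling F L] (H : LieSubalgebra F L) [H.IsCartanSubalgebra]

theorem finrank_eq_sum : finrank F L = ∑ χ : Weight F H L, finrank F (genWeightSpace L χ) := by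
  classical
  have hds := DirectSum.isInternal_submodule_of_iSupIndep_of_iSup_eq_top
    (LieSubmodule.iSupIndep_toSubmodule.mpr <| iSupIndep_genWeightSpace' F H L)
    (LieSubmodule.iSup_toSubmodule_eq_top.mpr <| iSup_genWeightSpace_eq_top' F H L)
  have e := LinearEquiv.ofBijective (DirectSum.coeLinearMap _) hds
  rw [← e.finrank_eq, Module.finrank_directSum]
  rfl

/-- the roots are rational weights -/
theorem root_mem (α : H.root) : (α.1.toLinear : Dual F H) ∈ PW H := by
  intro β
  refine ⟨((chainBotCoeff β.1 α.1 - chainTopCoeff β.1 α.1 : ℤ) : ℚ), ?_⟩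
  have h := apply_coroot_eq_cast β.1 α.1
  rw [Weight.toLinear_apply]
  rw [h]
  push_cast
  rfl

theorem ncard_root : (rdat H).R.ncard = H.root.card := by
  classical
  have hinj : Function.Injective fun α : H.root => (⟨α.1.toLinear, root_mem H α⟩ : PW H) := by
    intro α β h
    have h1 : α.1.toLinear = β.1.toLinear := congrArg Subtype.val h
    refine Subtype.ext ?_
    ext x
    exact LinearMap.congr_fun h1 x
  have h1 : (rdat H).R = (fun α : H.root => (⟨α.1.toLinear, root_mem H α⟩ : PW H)) '' Set.univ := by
    ext μ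
    constructor
    · rintro ⟨α, hα⟩
      exact ⟨α, trivial, Subtype.ext hα⟩
    · rintro ⟨α, -, hα⟩
      exact ⟨α, congrArg Subtype.val hα⟩
  rw [h1, Set.ncard_image_of_injective _ hinj, Set.ncard_univ, Nat.card_eq_fintype_card,
    Fintype.card_coe]

theorem sum_zero : ∑ χ : Weight F H L with ¬χ.IsNonZero, finrank F (genWeightSpace L χ) =
    finrank F H := by
  classical
  have hH : ∀ χ : Weight F H L, ¬χ.IsNonZero → finrank F (genWeightSpace L χ) = finrank F H := by
    intro χ hχ
    have h0 : (χ : H → F) = 0 := by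
      have := not_not.1 hχ
      exact this
    have h1 : (genWeightSpace L (χ : H → F)).toSubmodule = H.toLieSubmodule.toSubmodule := by
      rw [h0]
      exact congrArg LieSubmodule.toSubmodule (rootSpace_zero_eq F L H)
    have h2 : finrank F (genWeightSpace L (χ : H → F)).toSubmodule =
        finrank F H.toLieSubmodule.toSubmodule := by rw [h1]
    exact h2
  by_cases h : ∃ χ : Weight F H L, ¬χ.IsNonZero
  · obtain ⟨χ, hχ⟩ := h
    have h1 : (Finset.univ.filter fun χ : Weight F H L => ¬χ.IsNonZero) = {χ} := by
      ext ψ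
      rw [Finset.mem_filter, Finset.mem_singleton]
      constructor
      · rintro ⟨-, hψ⟩
        have h2 : (ψ : H → F) = 0 := not_not.1 hψ
        have h3 : (χ : H → F) = 0 := not_not.1 hχ
        ext x
        rw [h2, h3]
      · rintro rfl
        exact ⟨Finset.mem_univ _, hχ⟩
    rw [h1, Finset.sum_singleton, hH χ hχ]
  · have h1 : (Finset.univ.filter fun χ : Weight F H L => ¬χ.IsNonZero) = ∅ := by
      rw [Finset.filter_eq_empty_iff]
      intro χ _ hχ
      exact h ⟨χ, hχ⟩
    rw [h1, Finset.sum_empty]
    have h2 : genWeightSpace L (0 : H → F) = ⊥ := by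
      by_contra h3
      exact h ⟨⟨0, h3⟩, fun h4 => h4 rfl⟩
    have h3 : H.toLieSubmodule.toSubmodule = ⊥ := by
      have := congrArg LieSubmodule.toSubmodule (rootSpace_zero_eq F L H)
      rw [← this]
      have h4 := congrArg LieSubmodule.toSubmodule h2
      exact h4
    have h4 : finrank F H.toLieSubmodule.toSubmodule = 0 := by rw [h3, finrank_bot]
    exact h4.symm

end CountM

theorem specCount : SpecCount := by
  intro F L _ _ _ _ _ _ _ H _
  classical
  rw [CountM.finrank_eq_sum H, CountM.ncard_root H,
    ← Finset.sum_filter_add_sum_filter_not Finset.univ fun χ : Weight F H L => χ.IsNonZero,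
    CountM.sum_zero H, add_comm]
  congr 1
  have h1 : ∀ χ ∈ Finset.univ.filter (fun χ : Weight F H L => χ.IsNonZero),
      finrank F (genWeightSpace L χ) = 1 := fun χ hχ =>
    finrank_rootSpace_eq_one χ (Finset.mem_filter.1 hχ).2
  rw [Finset.sum_congr rfl h1, Finset.sum_const, smul_eq_mul, mul_one]

end Pool.Agent.Lib.MPf11a48.K3
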