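import Pool.Agent.Lib.MP_f11a48_ag.K3.CBas

/-!
# Interface between the modules EVENA and EVENB
-/

set_option autoImplicit false

namespace Pool.Agent.Lib.MPf11a48.K3

open Finset CBasM

variable {E : Type} [AddCommGroup E] [Module ℚ E]

/-- (REL) for `c` and `b` -/
structure Rel (D : RDat E) (c b : E) : Prop where
  sub : c - b ∈ D.R
  add : c + b ∈ D.R
  s1 : D.pr (c - b) c = 1
  s2 : D.pr (c - b) b = -1
  a1 : D.pr (c + b) c = 1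
  a2 : D.pr (c + b) b = 1

/-- the results of module EVENA (E0, E2, E4) -/
structure EvA (D : RDat E) {m : ℕ} (a : Fin m → E) : Prop where
  ne0 : ∀ i, a i ≠ 0
  line : ∀ b ∈ Phi a, ∀ t : ℚ, t • b ∈ Phi a → t = 1 ∨ t = -1
  one : ∀ i j, (a j = a i ∨ a j = -a i) → j = i
  nr : ∀ b ∈ Phi a, ∀ t : ℚ, t • b ∉ D.R
  rel : ∀ b ∈ Phi a, ∀ d ∈ Phi a, (∀ t : ℚ, d ≠ t • b) → Rel D d b
  plane : ∀ b ∈ Phi a, ∀ d ∈ Phi a, (∀ t : ℚ, d ≠ t • b) → ∀ w ∈ Phi a, ∀ s t : ℚ,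
    w = s • d + t • b → w = b ∨ w = -b ∨ w = d ∨ w = -d

/-- module EVENA -/
def SpecEvA : Prop :=
  ∀ (E : Type) [AddCommGroup E] [Module ℚ E] (D : RDat E), D.Ok → ∀ (m : ℕ) (a : Fin m → E),
    2 ≤ m → Wt D (dVe a) → IWt D (dH a 1) → IWt D (dH a (-1)) → NonIso D (dH a 1) (dH a (-1)) →
    EvA D a

end Pool.Agent.Lib.MPf11a48.K3
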