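import Pool.Agent.Lib.MP_f11a48_ag.K3.Comb

/-!
# Interface between EVENA (E0 - E4, helper32) and EVENB (E5 - E6 and `SpecEven`, helper7)
-/

set_option autoImplicit false

namespace Pool.Agent.Lib.MPf11a48.K3

variable {E : Type} [AddCommGroup E] [Module ℚ E]

/-- the weights `± a_i` -/
def Phi {m : ℕ} (a : Fin m → E) : Set E := {v | ∃ i, v = a i ∨ v = -a i}

/-- the result of E0 - E4 -/
structure EvenCore (D : RDat E) {m : ℕ} (a : Fin m → E) : Prop where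
  /-- E0 -/
  ne : ∀ i, a i ≠ 0
  /-- E2: the `a_i` are pairwise non-proportional -/
  line : ∀ i j, ∀ t : ℚ, a i = t • a j → i = j
  /-- E2: no root is proportional to some `a_i` -/
  notR : ∀ i, ∀ t : ℚ, t • a i ∉ D.R
  /-- E4 (REL) -/
  rel : ∀ b ∈ Phi a, ∀ c ∈ Phi a, (∀ t : ℚ, c ≠ t • b) →
    c - b ∈ D.R ∧ c + b ∈ D.R ∧ D.pr (c - b) c = 1 ∧ D.pr (c - b) b = -1 ∧
    D.pr (c + b) c = 1 ∧ D.pr (c + b) b = 1
  /-- E4: `Φ ∩ span (b, c) = {± b, ± c}` -/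
  plane : ∀ b ∈ Phi a, ∀ c ∈ Phi a, (∀ t : ℚ, c ≠ t • b) → ∀ w ∈ Phi a, ∀ s t : ℚ,
    w = s • b + t • c → w = b ∨ w = -b ∨ w = c ∨ w = -c

/-- EVENA -/
def SpecEvenA : Prop :=
  ∀ (E : Type) [AddCommGroup E] [Module ℚ E] (D : RDat E), D.Ok → ∀ (m : ℕ) (a : Fin m → E),
    2 ≤ m → Wt D (dVe a) → IWt D (dH a 1) → IWt D (dH a (-1)) → NonIso D (dH a 1) (dH a (-1)) →
    EvenCore D a

/-- EVENB -/
def SpecEvenB : Prop := SpecFun → SpecComb → SpecEvenA → SpecEven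

end Pool.Agent.Lib.MPf11a48.K3
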