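import Pool.Agent.Lib.MP_f11a48_ag.K3.KSpec
import Pool.Agent.Lib.MP_f11a48_ag.K3.Inv

/-! # KBR: Leibniz rule for products of Clifford operators -/

set_option autoImplicit false

namespace Pool.Agent.Lib.MPf11a48.K3

namespace KBrM

open InvM

theorem G_eq {ι : Type} [Fintype ι] [DecidableEq ι] {j : ℕ} (f : Fin j → Matrix ι ι ℂ) :
    G f = MultilinearMap.mkPiAlgebraFin ℂ j (Matrix ι ι ℂ) f := by
  rw [MultilinearMap.mkPiAlgebraFin_apply]
  rfl

theorem G_sum {ι : Type} [Fintype ι] [DecidableEq ι] {j m : ℕ} (f : Fin j → Matrix ι ι ℂ) (a : Fin j)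
    (c : Fin m → ℂ) (γ : Fin m → Matrix ι ι ℂ) :
    G (Function.update f a (∑ i, c i • γ i)) = ∑ i, c i • G (Function.update f a (γ i)) := by
  simp only [G_eq]
  rw [MultilinearMap.map_update_sum]
  refine Finset.sum_congr rfl fun i _ => ?_
  rw [MultilinearMap.map_update_smul]

theorem bt_eq {ι : Type} [Fintype ι] [DecidableEq ι] {m j : ℕ} (γ : Fin m → Matrix ι ι ℂ)
    (w : (Fin j → Fin m) → ℂ) : bt γ w = ∑ I, w I • G (fun a => γ (I a)) := rfl

theorem update_comp {ι : Type} {m j : ℕ} (γ : Fin m → Matrix ι ι ℂ) (I : Fin j → Fin m) (a : Fin j)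
    (i : Fin m) : Function.update (fun a => γ (I a)) a (γ i) = fun b => γ (Function.update I a i b) := by
  funext b
  by_cases hb : b = a
  · subst hb
    rw [Function.update_self, Function.update_self]
  · rw [Function.update_of_ne hb, Function.update_of_ne hb]

/-- exchange of the index `I a` and of `i` -/
def ex {m j : ℕ} (a : Fin j) : ((Fin j → Fin m) × Fin m) ≃ ((Fin j → Fin m) × Fin m) where
  toFun p := (Function.update p.1 a p.2, p.1 a)
  invFun p := (Function.update p.1 a p.2, p.1 a)
  left_inv p := by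
    ext b
    · by_cases hb : b = a
      · subst hb
        simp
      · simp [Function.update_of_ne hb]
    · simp
  right_inv p := by
    ext b
    · by_cases hb : b = a
      · subst hb
        simp
      · simp [Function.update_of_ne hb]
    · simp

end KBrM

open InvM KBrM in
theorem specKBr : SpecKBr := by
  intro ι _ _ m j γ X ρ hX w
  have h1 : X * bt γ w - bt γ w * X =
      ∑ I, ∑ a, ∑ i, (w I * ρ i (I a)) • G (fun b => γ (Function.update I a i b)) := by
    rw [bt_eq, Finset.mul_sum, Finset.sum_mul, ← Finset.sum_sub_distrib]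
    refine Finset.sum_congr rfl fun I _ => ?_
    rw [mul_smul_comm, smul_mul_assoc, ← smul_sub, leib, Finset.smul_sum]
    refine Finset.sum_congr rfl fun a _ => ?_
    rw [hX (I a), G_sum, Finset.smul_sum]
    refine Finset.sum_congr rfl fun i _ => ?_
    rw [update_comp, smul_smul]
  have h2 : bt γ (actT ρ w) =
      ∑ I, ∑ a, ∑ i, (ρ (I a) i * w (Function.update I a i)) • G (fun b => γ (I b)) := by
    rw [bt_eq]
    refine Finset.sum_congr rfl fun I _ => ?_
    rw [actT, Finset.sum_smul]
    refine Finset.sum_congr rfl fun a _ => ?_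
    rw [Finset.sum_smul]
  rw [h1, h2, Finset.sum_comm]
  conv_rhs => rw [Finset.sum_comm]
  refine Finset.sum_congr rfl fun a _ => ?_
  rw [← Fintype.sum_prod_type' (f := fun I i => (w I * ρ i (I a)) •
      G (fun b => γ (Function.update I a i b))),
    ← Fintype.sum_prod_type' (f := fun I i => (ρ (I a) i * w (Function.update I a i)) •
      G (fun b => γ (I b))), ← Equiv.sum_comp (ex a)]
  refine Finset.sum_congr rfl fun p _ => ?_
  simp only [ex, Equiv.coe_fn_mk, Function.update_self, Function.update_idem, Function.update_eq_self]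
  rw [mul_comm]

end Pool.Agent.Lib.MPf11a48.K3
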