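import Pool.Agent.Lib.MP_f11a48_ag.K3.KSpec
import Pool.Agent.Lib.MP_f11a48_ag.helper4.FixedField
import Pool.Agent.Lib.MP_f11a48_ag.helper16.Classes

/-!
# KEX: the case of `T` itself

`Φ = id`, `E = ∅`, one eigenspace.
-/

set_option autoImplicit false

namespace Pool.Agent.Lib.MPf11a48.K3

open Matrix MvPolynomial Pool.Agent.Lib.MPf11a48.Tors
open Pool.Agent.Lib.MPf11a48.CM hiding OmegaM
open Pool.Agent.Lib.MPf11a48.U (AbData Ix HD EndAlg)

namespace KExM

/-- a symmetric invertible complex matrix is congruent to `1` -/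
theorem exists_cong {n : ℕ} (q : Matrix (Fin n) (Fin n) ℂ) (hs : qᵀ = q) (hd : q.det ≠ 0) :
    ∃ P : Matrix (Fin n) (Fin n) ℂ, Pᵀ * q * P = 1 := by
  classical
  let B : LinearMap.BilinForm ℂ (Fin n → ℂ) := Matrix.toBilin' q
  have hB : ∀ x y, B x y = x ⬝ᵥ q *ᵥ y := fun x y => Matrix.toBilin'_apply' q x y
  have hsym : LinearMap.IsSymm B := ⟨fun x y => by
    rw [RingHom.id_apply, hB, hB, Matrix.dotProduct_mulVec, ← Matrix.mulVec_transpose, hs,
      dotProduct_comm]⟩
  have : Invertible (2 : ℂ) := invertibleOfNonzero two_ne_zero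
  obtain ⟨b₀, hb₀⟩ := LinearMap.BilinForm.exists_orthogonal_basis (B := B) hsym
  have hn : Module.finrank ℂ (Fin n → ℂ) = n := by simp
  let b : Module.Basis (Fin n) ℂ (Fin n → ℂ) := b₀.reindex (finCongr hn)
  have hb : ∀ i j, i ≠ j → B (b i) (b j) = 0 := by
    intro i j hij
    have h1 : B (b₀ ((finCongr hn).symm i)) (b₀ ((finCongr hn).symm j)) = 0 := by
      refine hb₀ ?_
      intro h
      exact hij ((finCongr hn).symm.injective h)
    simpa [b] using h1
  have hne : ∀ i, B (b i) (b i) ≠ 0 := by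
    intro i h0
    have h1 : ∀ y, B (b i) y = 0 := by
      intro y
      rw [← b.sum_repr y, map_sum]
      refine Finset.sum_eq_zero fun j _ => ?_
      rw [map_smul]
      by_cases hij : i = j
      · rw [← hij, h0, smul_zero]
      · rw [hb i j hij, smul_zero]
    have h2 : (b i) ᵥ* q = 0 := by
      funext j
      have h3 := h1 (Pi.single j 1)
      rw [hB, Matrix.dotProduct_mulVec] at h3
      simpa using h3
    have h3 : b i = 0 := by
      have h4 : IsUnit q.det := isUnit_iff_ne_zero.2 hd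
      have h5 : (b i) ᵥ* q ᵥ* q⁻¹ = b i := by
        rw [Matrix.vecMul_vecMul, Matrix.mul_nonsing_inv _ h4, Matrix.vecMul_one]
      rw [h2, Matrix.zero_vecMul] at h5
      exact h5.symm
    exact b.ne_zero i h3
  have hsq : ∀ i, ∃ s : ℂ, B (b i) (b i) = s * s := fun i => IsAlgClosed.exists_eq_mul_self _
  choose s hs' using hsq
  have hs0 : ∀ i, s i ≠ 0 := by
    intro i h
    apply hne i
    rw [hs', h, mul_zero]
  refine ⟨Matrix.of fun a i => (s i)⁻¹ * b i a, ?_⟩
  ext i j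
  have h1 : ((Matrix.of fun a i => (s i)⁻¹ * b i a)ᵀ * q * (Matrix.of fun a i => (s i)⁻¹ * b i a))
      i j = (s i)⁻¹ * (s j)⁻¹ * B (b i) (b j) := by
    rw [hB, Matrix.mul_assoc, Matrix.mul_apply, dotProduct, Finset.mul_sum]
    refine Finset.sum_congr rfl fun a _ => ?_
    rw [Matrix.mul_apply, Matrix.mulVec, dotProduct, Finset.mul_sum, Finset.mul_sum,
      Finset.mul_sum]
    refine Finset.sum_congr rfl fun c _ => ?_
    simp only [Matrix.transpose_apply, Matrix.of_apply]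
    ring
  rw [h1, Matrix.one_apply]
  by_cases hij : i = j
  · subst hij
    rw [if_pos rfl, hs' i]
    field_simp [hs0 i]
  · rw [if_neg hij, hb i j hij, mul_zero]

/-! ### the two classes -/

theorem sum_two {n : ℕ} (F : (Fin 0 → Fin n) × (Fin 2 → Fin n) → ℂ) (e : Fin 0 → Fin n) :
    ∑ J, F J = ∑ i, ∑ j, F (e, ![i, j]) := by
  rw [Fintype.sum_prod_type, Fintype.sum_unique, ← (finTwoArrowEquiv (Fin n)).symm.sum_comp,
    Fintype.sum_prod_type]
  refine Finset.sum_congr rfl fun i _ => Finset.sum_congr rfl fun j _ => ?_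
  rw [Subsingleton.elim (default : Fin 0 → Fin n) e]
  rfl

theorem fixes_form {K : IntermediateField ℚ ℂ} {n : ℕ} (qdR : Matrix (Fin n) (Fin n) K)
    (qB : Matrix (Fin n) (Fin n) ℚ) (f : GL (Fin n) ℂ) :
    Fixes f (formPair qdR qB) ↔ f.1ᵀ * cx qB * f.1 = qdR.map fun x => (x : ℂ) := by
  set Q : Matrix (Fin n) (Fin n) ℂ := qdR.map fun x => (x : ℂ) with hQ
  have h1 : f.1 * f⁻¹.1 = 1 := f.mul_inv
  have h2 : f⁻¹.1 * f.1 = 1 := f.inv_mul
  have key : ∀ I : TIdx (Fin n) 0 2, ∑ J : TIdx (Fin n) 0 2, tens 0 2 f.1 f⁻¹.1 I J *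
      (((formPair qdR qB).dR J : K) : ℂ) = (f⁻¹.1ᵀ * Q * f⁻¹.1) (I.2 0) (I.2 1) := by
    intro I
    rw [sum_two _ I.1, Matrix.mul_apply]
    rw [Finset.sum_comm]
    refine Finset.sum_congr rfl fun j _ => ?_
    rw [Matrix.mul_apply, Finset.sum_mul]
    refine Finset.sum_congr rfl fun i _ => ?_
    simp only [tens, formPair, Finset.univ_eq_empty, Finset.prod_empty, one_mul, Fin.prod_univ_two,
      Matrix.cons_val_zero, Matrix.cons_val_one, Matrix.transpose_apply, hQ, Matrix.map_apply]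
    ring
  constructor
  · intro h
    have h3 : f⁻¹.1ᵀ * Q * f⁻¹.1 = cx qB := by
      ext i j
      have h4 := h (fun a => Fin.elim0 a, ![i, j])
      change ∑ J : TIdx (Fin n) 0 2, tens 0 2 f.1 f⁻¹.1 (fun a => Fin.elim0 a, ![i, j]) J *
        (((formPair qdR qB).dR J : K) : ℂ) = _ at h4
      rw [key] at h4
      simpa [formPair, cx] using h4
    rw [← h3]
    calc f.1ᵀ * (f⁻¹.1ᵀ * Q * f⁻¹.1) * f.1 = (f.1ᵀ * f⁻¹.1ᵀ) * Q * (f⁻¹.1 * f.1) := by
          simp only [Matrix.mul_assoc]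
      _ = Q := by
          rw [← Matrix.transpose_mul, h2, Matrix.transpose_one, Matrix.one_mul, Matrix.mul_one]
  · intro h I
    change ∑ J : TIdx (Fin n) 0 2, tens 0 2 f.1 f⁻¹.1 I J *
        (((formPair qdR qB).dR J : K) : ℂ) = _
    rw [key, ← h]
    have h3 : f⁻¹.1ᵀ * (f.1ᵀ * cx qB * f.1) * f⁻¹.1 = cx qB := by
      calc f⁻¹.1ᵀ * (f.1ᵀ * cx qB * f.1) * f⁻¹.1 =
            (f⁻¹.1ᵀ * f.1ᵀ) * cx qB * (f.1 * f⁻¹.1) := by
            simp only [Matrix.mul_assoc]
        _ = cx qB := by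
            rw [← Matrix.transpose_mul, h1, Matrix.transpose_one, Matrix.one_mul, Matrix.mul_one]
    rw [h3]
    rfl

theorem det_exp {n : ℕ} (M : Matrix (Fin n) (Fin n) ℂ) (I : Fin n → Fin n) :
    ∑ J : Fin n → Fin n, (∏ a, M (I a) (J a)) *
      (Matrix.of fun a b => if J a = b then (1 : ℂ) else 0).det =
      (Matrix.of fun a b => if I a = b then (1 : ℂ) else 0).det * M.det := by
  have h1 : (Matrix.of fun a b => if I a = b then (1 : ℂ) else 0) * M =
      Matrix.of fun a b => M (I a) b := by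
    ext a b
    simp [Matrix.mul_apply]
  rw [← Matrix.det_mul, h1]
  have h2 : (Matrix.of fun a b => M (I a) b) =
      fun a => ∑ j, M (I a) j • (Pi.single j (1 : ℂ) : Fin n → ℂ) := by
    funext a b
    simp [Finset.sum_apply, Pi.single_apply]
  have h3 : (Matrix.of fun a b => M (I a) b).det = Matrix.detRowAlternating
      (fun a => ∑ j, M (I a) j • (Pi.single j (1 : ℂ) : Fin n → ℂ)) := by
    rw [← h2]
    rfl
  rw [h3]
  have h4 := MultilinearMap.map_sum (Matrix.detRowAlternating (n := Fin n) (R := ℂ)).toMultilinearMap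
    (fun a j => M (I a) j • (Pi.single j (1 : ℂ) : Fin n → ℂ))
  change _ = (Matrix.detRowAlternating (n := Fin n) (R := ℂ)).toMultilinearMap _
  rw [h4]
  refine Finset.sum_congr rfl fun J _ => ?_
  rw [MultilinearMap.map_smul_univ, smul_eq_mul]
  congr 1
  change Matrix.det _ = Matrix.det _
  congr 1
  ext a b
  simp [Pi.single_apply, eq_comm]

theorem det_cast {F : Type} [Field F] [Algebra F ℂ] {n : ℕ} (J : Fin n → Fin n) :
    algebraMap F ℂ (Matrix.of fun a b => if J a = b then (1 : F) else 0).det =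
      (Matrix.of fun a b => if J a = b then (1 : ℂ) else 0).det := by
  rw [RingHom.map_det]
  congr 1
  ext a b
  simp only [RingHom.mapMatrix_apply, Matrix.map_apply, Matrix.of_apply]
  split_ifs
  · exact map_one _
  · exact map_zero _

theorem fixes_det {K : IntermediateField ℚ ℂ} {n : ℕ} (δ : K) (hδ : δ ≠ 0) (f : GL (Fin n) ℂ) :
    Fixes f (detPair δ : TPair K (Fin n)) ↔ f.1.det = (δ : ℂ) := by
  have hδ' : (δ : ℂ) ≠ 0 := fun h => hδ (by exact_mod_cast h)
  have key : ∀ I : TIdx (Fin n) n 0, ∑ J : TIdx (Fin n) n 0, tens n 0 f.1 f⁻¹.1 I J *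
      (((detPair δ : TPair K (Fin n)).dR J : K) : ℂ) = (δ : ℂ)⁻¹ *
        ((Matrix.of fun a b => if I.1 a = b then (1 : ℂ) else 0).det * f.1.det) := by
    intro I
    rw [← det_exp, Finset.mul_sum, Fintype.sum_prod_type]
    refine Finset.sum_congr rfl fun J _ => ?_
    have h1 : ∀ e : Fin 0 → Fin n, tens n 0 f.1 f⁻¹.1 I (J, e) *
        (((detPair δ : TPair K (Fin n)).dR (J, e) : K) : ℂ) = (δ : ℂ)⁻¹ *
          ((∏ a, f.1 (I.1 a) (J a)) *
            (Matrix.of fun a b => if J a = b then (1 : ℂ) else 0).det) := by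
      intro e
      have h2 := det_cast (F := K) J
      have h3 : (((detPair δ : TPair K (Fin n)).dR (J, e) : K) : ℂ) = (δ : ℂ)⁻¹ *
          (Matrix.of fun a b => if J a = b then (1 : ℂ) else 0).det := by
        change ((δ⁻¹ * (Matrix.of fun a b => if J a = b then (1 : K) else 0).det : K) : ℂ) = _
        rw [← h2]
        push_cast
        rfl
      rw [h3]
      simp only [tens, Finset.univ_eq_empty, Finset.prod_empty, mul_one]
      ring
    exact (Fintype.sum_unique _).trans (h1 _)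
  have hB : ∀ I : TIdx (Fin n) n 0, (((detPair δ : TPair K (Fin n)).B I : ℚ) : ℂ) =
      (Matrix.of fun a b => if I.1 a = b then (1 : ℂ) else 0).det := fun I =>
    det_cast (F := ℚ) I.1
  constructor
  · intro h
    have h1 := h (id, fun a => Fin.elim0 a)
    change ∑ J : TIdx (Fin n) n 0, tens n 0 f.1 f⁻¹.1 (id, fun a => Fin.elim0 a) J *
      (((detPair δ : TPair K (Fin n)).dR J : K) : ℂ) = _ at h1
    have h3 : (Matrix.of fun a b => if (id a : Fin n) = b then (1 : ℂ) else 0).det = 1 := by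
      have : (Matrix.of fun a b => if (id a : Fin n) = b then (1 : ℂ) else 0) = 1 := by
        ext a b
        rw [Matrix.of_apply, Matrix.one_apply]
        rfl
      rw [this, Matrix.det_one]
    rw [key, hB] at h1
    change (δ : ℂ)⁻¹ * ((Matrix.of fun a b => if (id a : Fin n) = b then (1 : ℂ) else 0).det *
      f.1.det) = (Matrix.of fun a b => if (id a : Fin n) = b then (1 : ℂ) else 0).det at h1
    rw [h3, one_mul] at h1
    field_simp at h1
    exact h1
  · intro h I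
    change ∑ J : TIdx (Fin n) n 0, tens n 0 f.1 f⁻¹.1 I J *
      (((detPair δ : TPair K (Fin n)).dR J : K) : ℂ) = _
    rw [key, h, hB]
    field_simp

/-! ### the torsor -/

variable {n : ℕ}

/-- the index equivalence -/
def eq (n : ℕ) : ((k : Unit) × Fin n) ≃ Fin n where
  toFun u := u.2
  invFun i := ⟨(), i⟩
  left_inv := fun ⟨_, _⟩ => rfl
  right_inv := fun _ => rfl

theorem blk (X : Unit → Matrix (Fin n) (Fin n) ℂ) :
    Matrix.blockDiagonal' X = (X ()).submatrix (eq n) (eq n) := by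
  ext ⟨k, i⟩ ⟨l, j⟩
  rw [Matrix.blockDiagonal'_apply, dif_pos (Subsingleton.elim k l)]
  rfl

theorem mem_soTorsor (t : GL (Fin n) ℂ) (qB : Matrix (Fin n) (Fin n) ℚ)
    (P : Matrix (Fin n) (Fin n) ℂ) (hP : Pᵀ * cx qB * P = 1) (f : GL (Fin n) ℂ)
    (hf : f.1ᵀ * cx qB * f.1 = t.1ᵀ * cx qB * t.1) (hdet : f.1.det = t.1.det) :
    f ∈ soTorsor t qB (κ := Unit) (fun _ => n) (P.submatrix id (eq n)) := by
  have hPP : P * (Pᵀ * cx qB) = 1 := by
    rw [mul_eq_one_comm]
    exact hP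
  have ht1 : t.1 * t⁻¹.1 = 1 := t.mul_inv
  have ht2 : t⁻¹.1 * t.1 = 1 := t.inv_mul
  -- the matrix of `f t⁻¹` in the basis `P`
  obtain ⟨x, hxd⟩ : ∃ x : Matrix (Fin n) (Fin n) ℂ, x = (Pᵀ * cx qB) * (f.1 * t⁻¹.1) * P :=
    ⟨_, rfl⟩
  have hx : P * x * (Pᵀ * cx qB) = f.1 * t⁻¹.1 := by
    rw [hxd]
    calc P * ((Pᵀ * cx qB) * (f.1 * t⁻¹.1) * P) * (Pᵀ * cx qB) =
        (P * (Pᵀ * cx qB)) * (f.1 * t⁻¹.1) * (P * (Pᵀ * cx qB)) := by
          simp only [Matrix.mul_assoc]
      _ = f.1 * t⁻¹.1 := by rw [hPP, Matrix.one_mul, Matrix.mul_one]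
  have hiso : (f.1 * t⁻¹.1)ᵀ * cx qB * (f.1 * t⁻¹.1) = cx qB := by
    calc (f.1 * t⁻¹.1)ᵀ * cx qB * (f.1 * t⁻¹.1) =
        t⁻¹.1ᵀ * (f.1ᵀ * cx qB * f.1) * t⁻¹.1 := by
          rw [Matrix.transpose_mul]
          simp only [Matrix.mul_assoc]
      _ = (t⁻¹.1ᵀ * t.1ᵀ) * cx qB * (t.1 * t⁻¹.1) := by
          rw [hf]
          simp only [Matrix.mul_assoc]
      _ = cx qB := by
          rw [← Matrix.transpose_mul, ht1, Matrix.transpose_one, Matrix.one_mul, Matrix.mul_one]
  have hxx : xᵀ * x = 1 := by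
    have e1 : P * x = (f.1 * t⁻¹.1) * P := by
      rw [hxd]
      calc P * ((Pᵀ * cx qB) * (f.1 * t⁻¹.1) * P) =
          (P * (Pᵀ * cx qB)) * (f.1 * t⁻¹.1) * P := by simp only [Matrix.mul_assoc]
        _ = (f.1 * t⁻¹.1) * P := by rw [hPP, Matrix.one_mul]
    calc xᵀ * x = xᵀ * (Pᵀ * cx qB * P) * x := by rw [hP, Matrix.mul_one]
      _ = (P * x)ᵀ * cx qB * (P * x) := by
          rw [Matrix.transpose_mul P x]
          simp only [Matrix.mul_assoc]
      _ = Pᵀ * ((f.1 * t⁻¹.1)ᵀ * cx qB * (f.1 * t⁻¹.1)) * P := by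
          rw [e1, Matrix.transpose_mul (f.1 * t⁻¹.1)]
          simp only [Matrix.mul_assoc]
      _ = 1 := by rw [hiso, hP]
  have hxdet : x.det = 1 := by
    have e1 : (Pᵀ * cx qB).det * P.det = 1 := by
      rw [← Matrix.det_mul, hP, Matrix.det_one]
    have e2 : t.1.det * t⁻¹.1.det = 1 := by
      rw [← Matrix.det_mul, ht1, Matrix.det_one]
    have e3 : x.det = (Pᵀ * cx qB).det * (f.1.det * t⁻¹.1.det) * P.det := by
      rw [← Matrix.det_mul f.1, ← Matrix.det_mul, ← Matrix.det_mul, hxd]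
    rw [e3, hdet, e2, mul_one, e1]
  let xu : GL (Fin n) ℂ := ⟨x, xᵀ, by rw [mul_eq_one_comm]; exact hxx, hxx⟩
  refine ⟨fun _ => ⟨xu, hxx, hxdet⟩, ?_⟩
  have e1 : Matrix.blockDiagonal' (fun _ : Unit => x) = x.submatrix (eq n) (eq n) :=
    blk fun _ => x
  change f.1 = P.submatrix id (eq n) * Matrix.blockDiagonal' (fun _ : Unit => x) *
    ((P.submatrix id (eq n))ᵀ * cx qB) * t.1
  have e2 : (P.submatrix id (eq n))ᵀ * cx qB = (Pᵀ * cx qB).submatrix (eq n) id := by
    rw [Matrix.transpose_submatrix]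
    exact (Matrix.submatrix_mul_equiv Pᵀ (cx qB) (eq n) (Equiv.refl (Fin n)) id)
  rw [e1, e2, Matrix.submatrix_mul_equiv, Matrix.submatrix_mul_equiv, Matrix.submatrix_id_id, hx,
    Matrix.mul_assoc, ht2, Matrix.mul_one]

theorem split (qB : Matrix (Fin n) (Fin n) ℚ) (P : Matrix (Fin n) (Fin n) ℂ)
    (hP : Pᵀ * cx qB * P = 1) :
    Split qB ∅ (κ := Unit) (fun _ => n) (P.submatrix id (eq n)) (fun _ _ => 0) where
  orth := by
    have e2 : (P.submatrix id (eq n))ᵀ * cx qB = (Pᵀ * cx qB).submatrix (eq n) id := by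
      rw [Matrix.transpose_submatrix]
      exact (Matrix.submatrix_mul_equiv Pᵀ (cx qB) (eq n) (Equiv.refl (Fin n)) id)
    rw [e2]
    have e3 := Matrix.submatrix_mul_equiv (Pᵀ * cx qB) P (eq n) (Equiv.refl (Fin n)) (eq n)
    exact e3.trans (by rw [hP, Matrix.submatrix_one_equiv])
  onto := by
    have e2 : (P.submatrix id (eq n))ᵀ * cx qB = (Pᵀ * cx qB).submatrix (eq n) id := by
      rw [Matrix.transpose_submatrix]
      exact (Matrix.submatrix_mul_equiv Pᵀ (cx qB) (eq n) (Equiv.refl (Fin n)) id)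
    rw [e2, Matrix.submatrix_mul_equiv, Matrix.submatrix_id_id, mul_eq_one_comm]
    exact hP
  eig := fun e he => absurd he (Set.notMem_empty e)
  sep := fun k l h => absurd (Subsingleton.elim k l) h

theorem tensorial : IsTensorial (fun f : GL (Fin n) ℂ => f) where
  regular i j := by
    refine ⟨X (Sum.inl (i, j)), fun m => ?_, fun g => ?_⟩
    · rw [coeff_X']
      split_ifs
      · exact one_mem _
      · exact zero_mem _
    · rw [eval_X]
      rfl
  heap _ _ _ := rfl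
  rational i j := by
    refine ⟨X (Sum.inl (i, j)), fun g => ?_⟩
    rw [inv_one, mul_one, aeval_X]
    rfl

/-- the conjugates of the torsor -/
theorem exists_conj {K : IntermediateField ℚ ℂ} (t : GL (Fin n) ℂ)
    (qdR : Matrix (Fin n) (Fin n) K) (qB : Matrix (Fin n) (Fin n) ℚ) (hdetB : qB.det ≠ 0)
    (ht : t.1ᵀ * cx qB * t.1 = qdR.map fun x => (x : ℂ))
    (P : Matrix (Fin n) (Fin n) ℂ) (hP : Pᵀ * cx qB * P = 1) (f : GL (Fin n) ℂ)
    (hf : f.1ᵀ * cx qB * f.1 = qdR.map fun x => (x : ℂ))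
    (hdet : t.1.det ∈ K → f.1.det = t.1.det) :
    ∃ x ∈ soTorsor t qB (κ := Unit) (fun _ => n) (P.submatrix id (eq n)), Conj K x f := by
  by_cases h : f.1.det = t.1.det
  · exact ⟨f, mem_soTorsor t qB P hP f (hf.trans ht.symm) h, RingEquiv.refl ℂ, fun _ _ => rfl,
      fun _ _ => rfl⟩
  · have htK : t.1.det ∉ K := fun hK => h (hdet hK)
    -- `det f = - det t`
    have hqB : (cx qB).det = ((qB.det : ℚ) : ℂ) := by
      have := RingHom.map_det (algebraMap ℚ ℂ) qB
      exact this.symm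
    have hqB0 : (cx qB).det ≠ 0 := by
      rw [hqB]
      exact_mod_cast hdetB
    have hqdR : (qdR.map fun x => (x : ℂ)).det = ((qdR.det : K) : ℂ) := by
      have := RingHom.map_det (algebraMap K ℂ) qdR
      exact this.symm
    have d1 : f.1.det * (cx qB).det * f.1.det = ((qdR.det : K) : ℂ) := by
      rw [← hqdR, ← hf, Matrix.det_mul, Matrix.det_mul, Matrix.det_transpose]
    have d2 : t.1.det * (cx qB).det * t.1.det = ((qdR.det : K) : ℂ) := by
      rw [← hqdR, ← ht, Matrix.det_mul, Matrix.det_mul, Matrix.det_transpose]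
    have d3 : f.1.det * f.1.det = t.1.det * t.1.det := by
      have : (cx qB).det * (f.1.det * f.1.det) = (cx qB).det * (t.1.det * t.1.det) := by
        linear_combination d1 - d2
      exact mul_left_cancel₀ hqB0 this
    have d4 : f.1.det = -t.1.det := (mul_self_eq_mul_self_iff.1 d3).resolve_left h
    obtain ⟨τ, hτ, hne⟩ := exists_aut_ne K htK
    have d5 : τ t.1.det = -t.1.det := by
      have e1 : τ t.1.det * τ t.1.det = t.1.det * t.1.det := by
        have e2 := congrArg τ d2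
        rw [map_mul, map_mul, hτ _ (qdR.det).2, ← d2, hqB, map_ratCast] at e2
        rw [hqB] at hqB0
        have : ((qB.det : ℚ) : ℂ) * (τ t.1.det * τ t.1.det) =
            ((qB.det : ℚ) : ℂ) * (t.1.det * t.1.det) := by
          linear_combination e2
        exact mul_left_cancel₀ hqB0 this
      exact (mul_self_eq_mul_self_iff.1 e1).resolve_left hne
    have hτs : ∀ a ∈ K, τ.symm a = a := fun a ha => by
      rw [RingEquiv.symm_apply_eq, hτ a ha]
    let x : GL (Fin n) ℂ := Matrix.GeneralLinearGroup.map τ.symm.toRingHom f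
    have hx : x.1 = f.1.map τ.symm := rfl
    have hcx : (cx qB).map τ.symm = cx qB := by
      ext i j
      simp [cx]
    have hcd : (qdR.map fun x => (x : ℂ)).map τ.symm = qdR.map fun x => (x : ℂ) := by
      ext i j
      exact hτs _ (qdR i j).2
    have hxf : x.1ᵀ * cx qB * x.1 = qdR.map fun x => (x : ℂ) := by
      have h1 := congrArg (fun M : Matrix (Fin n) (Fin n) ℂ => M.map τ.symm) hf
      rw [Matrix.map_mul, Matrix.map_mul, hcx, hcd] at h1
      exact h1
    have hxdet : x.1.det = t.1.det := by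
      have h1 : x.1.det = τ.symm f.1.det := (RingHom.map_det τ.symm.toRingHom f.1).symm
      rw [h1, d4, RingEquiv.symm_apply_eq, d5]
    refine ⟨x, mem_soTorsor t qB P hP x (hxf.trans ht.symm) hxdet, τ, hτ, fun i j => ?_⟩
    rw [hx, Matrix.map_apply, RingEquiv.apply_symm_apply]

end KExM

open KExM in
/-- KEX -/
theorem specKEx (hTen : SpecKTen) : SpecKEx := by
  intro g N n A c t K qdR qB B hK hKS hn3 hn5
  have hcs : (cx qB)ᵀ = cx qB := by
    have := congrArg cx hKS.symm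
    exact this
  have hcd : (cx qB).det ≠ 0 := by
    have h1 : (cx qB).det = ((qB.det : ℚ) : ℂ) := (RingHom.map_det (algebraMap ℚ ℂ) qB).symm
    rw [h1]
    exact_mod_cast hKS.det
  obtain ⟨P, hP⟩ := exists_cong (cx qB) hcs hcd
  obtain ⟨h1, h2⟩ := hTen g N n A c t (qdR.map fun x => (x : ℂ)) qB B ∅ Unit (fun _ => n)
    (P.submatrix id (KExM.eq n)) (fun _ _ => 0) hKS (split qB P hP) (fun _ => hn3) (fun _ => hn5)
    K (Fin n) (fun f => f) hK tensorial
  have hdet0 : t.1.det ≠ 0 := by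
    have e2 : t.1.det * t⁻¹.1.det = 1 := by
      rw [← Matrix.det_mul]
      have : t.1 * t⁻¹.1 = 1 := t.mul_inv
      rw [this, Matrix.det_one]
    intro h0
    rw [h0, zero_mul] at e2
    exact zero_ne_one e2
  have conj : ∀ f : GL (Fin n) ℂ, f.1ᵀ * cx qB * f.1 = qdR.map (fun x => (x : ℂ)) →
      (t.1.det ∈ K → f.1.det = t.1.det) →
      ∃ x ∈ soTorsor t qB (κ := Unit) (fun _ => n) (P.submatrix id (KExM.eq n)), Conj K x f :=
    fun f hf hd => exists_conj t qdR qB hKS.det hKS.form P hP f hf hd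
  constructor
  · apply Set.Subset.antisymm
    · let S : Set (TPair K (Fin n)) := {α | α = formPair qdR qB ∨
        ∃ δ : K, t.1.det = δ ∧ α = detPair δ}
      have hS : ∀ α ∈ S, Fixes t α := by
        rintro α (rfl | ⟨δ, hδ, rfl⟩)
        · exact (fixes_form qdR qB t).2 hKS.form
        · refine (fixes_det δ ?_ t).2 hδ
          rintro rfl
          exact hdet0 (by simpa using hδ)
      intro f hf
      have hfS := drb_subset hS hf
      refine ⟨(fixes_form qdR qB f).1 (hfS _ (Or.inl rfl)), fun hd => ?_⟩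
      have hδ0 : (⟨t.1.det, hd⟩ : K) ≠ 0 := fun h => hdet0 (congrArg Subtype.val h)
      exact (fixes_det ⟨t.1.det, hd⟩ hδ0 f).1 (hfS _ (Or.inr ⟨⟨t.1.det, hd⟩, rfl, rfl⟩))
    · rintro f ⟨hf, hd⟩
      obtain ⟨x, hx, hxf⟩ := conj f hf hd
      exact h1 x hx f hxf
  · intro S hS hform hdetS
    refine h2 S hS fun f hf => conj f ((fixes_form qdR qB f).1 (hf _ hform)) fun hd => ?_
    have hδ0 : (⟨t.1.det, hd⟩ : K) ≠ 0 := fun h => hdet0 (congrArg Subtype.val h)
    exact (fixes_det ⟨t.1.det, hd⟩ hδ0 f).1 (hf _ (hdetS ⟨t.1.det, hd⟩ rfl))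

end Pool.Agent.Lib.MPf11a48.K3
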