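import Pool.Agent.Lib.MP_f11a48_ag.K3.KSpec3
import Pool.Agent.Lib.MP_f11a48_ag.K3.KEx
import Pool.Agent.Lib.MP_f11a48_ag.helper92.Pair

/-!
# KEX2: the case of the Tate twists of `T`

`Φ(x, z) = z ^ w x`, `E = ∅`, one eigenspace.
-/

set_option autoImplicit false
set_option linter.unusedSectionVars false

namespace Pool.Agent.Lib.MPf11a48.K3

open Matrix MvPolynomial Pool.Agent.Lib.MPf11a48.Tors
open Pool.Agent.Lib.MPf11a48.CM hiding OmegaM
open Pool.Agent.Lib.MPf11a48.U (AbData Ix HD EndAlg)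

namespace KEx2M

open KExM

variable {n : ℕ}

/-! ### the twist -/

/-- `(x, z) ↦ z ^ w x` -/
noncomputable def tw (w : ℤ) : GL (Fin n) ℂ × ℂˣ →* GL (Fin n) ℂ where
  toFun x := ⟨((x.2 ^ w : ℂˣ) : ℂ) • x.1.1, (((x.2 ^ w)⁻¹ : ℂˣ) : ℂ) • x.1⁻¹.1, by
      rw [Matrix.smul_mul, Matrix.mul_smul, smul_smul, Units.mul_inv, x.1.mul_inv, one_smul], by
      rw [Matrix.smul_mul, Matrix.mul_smul, smul_smul, Units.inv_mul, x.1.inv_mul, one_smul]⟩
  map_one' := by
    refine Units.ext ?_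
    change (((1 : ℂˣ) ^ w : ℂˣ) : ℂ) • (1 : Matrix (Fin n) (Fin n) ℂ) = 1
    rw [_root_.one_zpow, Units.val_one, one_smul]
  map_mul' x y := by
    refine Units.ext ?_
    change (((x.2 * y.2) ^ w : ℂˣ) : ℂ) • (x.1.1 * y.1.1) =
      (((x.2 ^ w : ℂˣ) : ℂ) • x.1.1) * (((y.2 ^ w : ℂˣ) : ℂ) • y.1.1)
    rw [mul_zpow, Units.val_mul, Matrix.smul_mul, Matrix.mul_smul, smul_smul]

theorem tw_val (w : ℤ) (x : GL (Fin n) ℂ × ℂˣ) :
    (tw w x).1 = ((x.2 ^ w : ℂˣ) : ℂ) • x.1.1 := rfl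

theorem tens_poly (R : Type) [CommRing R] [Algebra R ℂ] (w : ℤ) (i j : Fin n) :
    ∃ p : MvPolynomial (Var2 n) R, ∀ x : GL (Fin n) ℂ × ℂˣ,
      (tw w x).1 i j = aeval (crd x) p := by
  obtain ⟨k, rfl | rfl⟩ := w.eq_nat_or_neg
  · refine ⟨X (Sum.inr (Sum.inl ())) ^ k * X (Sum.inl (Sum.inl (i, j))), fun x => ?_⟩
    rw [map_mul, map_pow, aeval_X, aeval_X]
    change ((x.2 ^ (k : ℤ) : ℂˣ) : ℂ) * x.1.1 i j = (x.2 : ℂ) ^ k * x.1.1 i j
    rw [zpow_natCast, Units.val_pow_eq_pow_val]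
  · refine ⟨X (Sum.inr (Sum.inr ())) ^ k * X (Sum.inl (Sum.inl (i, j))), fun x => ?_⟩
    rw [map_mul, map_pow, aeval_X, aeval_X]
    change ((x.2 ^ (-(k : ℤ)) : ℂˣ) : ℂ) * x.1.1 i j = ((x.2 : ℂ)⁻¹) ^ k * x.1.1 i j
    rw [_root_.zpow_neg, zpow_natCast, Units.val_inv_eq_inv_val, Units.val_pow_eq_pow_val, inv_pow]

theorem isTens (w : ℤ) : IsTens (fun x : GL (Fin n) ℂ × ℂˣ => tw w x) where
  regular i j := tens_poly _ w i j
  heap x y z := by rw [map_mul, map_mul, map_inv]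
  rational i j := by
    obtain ⟨p, hp⟩ := tens_poly ℚ w i j
    refine ⟨p, fun x => ?_⟩
    rw [map_one, inv_one, mul_one]
    exact hp x

/-! ### the class of `det ⊗ q ^ h` -/

/-- The class of `det ⊗ q^{⊗ h}`. -/
noncomputable def dqPair {K : IntermediateField ℚ ℂ} (h : ℕ) (δ : K)
    (qdR : Matrix (Fin n) (Fin n) K) (qB : Matrix (Fin n) (Fin n) ℚ) : TPair K (Fin n) where
  n := n
  m := h * 2
  dR J := δ⁻¹ * (Matrix.of fun a b => if J.1 a = b then (1 : K) else 0).det *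
    ∏ i : Fin h, qdR (J.2 (finProdFinEquiv (i, 0))) (J.2 (finProdFinEquiv (i, 1)))
  B J := (Matrix.of fun a b => if J.1 a = b then (1 : ℚ) else 0).det *
    ∏ i : Fin h, qB (J.2 (finProdFinEquiv (i, 0))) (J.2 (finProdFinEquiv (i, 1)))

theorem sum_pairs (h : ℕ) (N Q : Matrix (Fin n) (Fin n) ℂ) (I : Fin (h * 2) → Fin n) :
    ∑ J : Fin (h * 2) → Fin n, (∏ b, N (J b) (I b)) *
      ∏ i : Fin h, Q (J (finProdFinEquiv (i, 0))) (J (finProdFinEquiv (i, 1))) =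
    ∏ i : Fin h, (Nᵀ * Q * N) (I (finProdFinEquiv (i, 0))) (I (finProdFinEquiv (i, 1))) := by
  let E : (Fin h → Fin n × Fin n) ≃ (Fin (h * 2) → Fin n) :=
    { toFun := fun J b => if (finProdFinEquiv.symm b).2 = 0 then
        (J (finProdFinEquiv.symm b).1).1 else (J (finProdFinEquiv.symm b).1).2
      invFun := fun J i => (J (finProdFinEquiv (i, 0)), J (finProdFinEquiv (i, 1)))
      left_inv := by
        intro J
        funext i
        simp only [Equiv.symm_apply_apply]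
        rfl
      right_inv := by
        intro J
        funext b
        obtain ⟨⟨i, c⟩, rfl⟩ := finProdFinEquiv.surjective b
        simp only [Equiv.symm_apply_apply]
        fin_cases c
        · rfl
        · rfl }
  have E0 : ∀ J i, E J (finProdFinEquiv (i, 0)) = (J i).1 := by
    intro J i
    change (if (finProdFinEquiv.symm (finProdFinEquiv (i, (0 : Fin 2)))).2 = 0 then
        (J (finProdFinEquiv.symm (finProdFinEquiv (i, (0 : Fin 2)))).1).1 else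
        (J (finProdFinEquiv.symm (finProdFinEquiv (i, (0 : Fin 2)))).1).2) = (J i).1
    rw [Equiv.symm_apply_apply]
    rfl
  have E1 : ∀ J i, E J (finProdFinEquiv (i, 1)) = (J i).2 := by
    intro J i
    change (if (finProdFinEquiv.symm (finProdFinEquiv (i, (1 : Fin 2)))).2 = 0 then
        (J (finProdFinEquiv.symm (finProdFinEquiv (i, (1 : Fin 2)))).1).1 else
        (J (finProdFinEquiv.symm (finProdFinEquiv (i, (1 : Fin 2)))).1).2) = (J i).2
    rw [Equiv.symm_apply_apply]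
    rfl
  rw [← E.sum_comp]
  have e1 : ∀ J : Fin h → Fin n × Fin n, (∏ b, N (E J b) (I b)) *
      ∏ i : Fin h, Q (E J (finProdFinEquiv (i, 0))) (E J (finProdFinEquiv (i, 1))) =
      ∏ i : Fin h, (N (J i).1 (I (finProdFinEquiv (i, 0))) *
        N (J i).2 (I (finProdFinEquiv (i, 1))) * Q (J i).1 (J i).2) := by
    intro J
    have e2 : ∏ b, N (E J b) (I b) = ∏ i : Fin h, (N (J i).1 (I (finProdFinEquiv (i, 0))) *
        N (J i).2 (I (finProdFinEquiv (i, 1)))) := by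
      rw [← finProdFinEquiv.prod_comp, Fintype.prod_prod_type]
      refine Finset.prod_congr rfl fun i _ => ?_
      rw [Fin.prod_univ_two, E0, E1]
    rw [e2, ← Finset.prod_mul_distrib]
    refine Finset.prod_congr rfl fun i _ => ?_
    rw [E0, E1]
  simp only [e1]
  have e3 : ∀ i : Fin h, (Nᵀ * Q * N) (I (finProdFinEquiv (i, 0))) (I (finProdFinEquiv (i, 1))) =
      ∑ p : Fin n × Fin n, N p.1 (I (finProdFinEquiv (i, 0))) *
        N p.2 (I (finProdFinEquiv (i, 1))) * Q p.1 p.2 := by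
    intro i
    rw [GL2.mul_mul_apply]
    refine Finset.sum_congr rfl fun p _ => ?_
    rw [Matrix.transpose_apply]
    ring
  simp only [e3]
  rw [Finset.prod_univ_sum, Fintype.piFinset_univ]

theorem fixes_dq {K : IntermediateField ℚ ℂ} (h : ℕ) {δ : K} (hδ : δ ≠ 0)
    {qdR : Matrix (Fin n) (Fin n) K} {qB : Matrix (Fin n) (Fin n) ℚ} (hq : ∃ a b, qB a b ≠ 0)
    (f : GL (Fin n) ℂ) {μ : ℂ} (hμ : μ ≠ 0)
    (hf : f.1ᵀ * cx qB * f.1 = μ • qdR.map fun x => (x : ℂ)) :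
    Fixes f (dqPair h δ qdR qB) ↔ f.1.det = μ ^ h * (δ : ℂ) := by
  set Q : Matrix (Fin n) (Fin n) ℂ := qdR.map fun x => (x : ℂ) with hQ
  have hδ' : (δ : ℂ) ≠ 0 := fun h => hδ (by exact_mod_cast h)
  have h1 : f.1 * f⁻¹.1 = 1 := f.mul_inv
  have hN : f⁻¹.1ᵀ * Q * f⁻¹.1 = μ⁻¹ • cx qB := by
    have h2 : Q = μ⁻¹ • (f.1ᵀ * cx qB * f.1) := by
      rw [hf, smul_smul, inv_mul_cancel₀ hμ, one_smul]
    rw [h2, Matrix.mul_smul, Matrix.smul_mul]
    congr 1
    calc f⁻¹.1ᵀ * (f.1ᵀ * cx qB * f.1) * f⁻¹.1 =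
          (f⁻¹.1ᵀ * f.1ᵀ) * cx qB * (f.1 * f⁻¹.1) := by
          simp only [Matrix.mul_assoc]
      _ = cx qB := by
          rw [← Matrix.transpose_mul, h1, Matrix.transpose_one, Matrix.one_mul, Matrix.mul_one]
  have key : ∀ I : TIdx (Fin n) n (h * 2), ∑ J : TIdx (Fin n) n (h * 2),
      tens n (h * 2) f.1 f⁻¹.1 I J * (((dqPair h δ qdR qB).dR J : K) : ℂ) =
      ((δ : ℂ)⁻¹ * ((Matrix.of fun a b => if I.1 a = b then (1 : ℂ) else 0).det * f.1.det)) *
        ((μ⁻¹) ^ h * ∏ i : Fin h, (qB (I.2 (finProdFinEquiv (i, 0)))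
          (I.2 (finProdFinEquiv (i, 1))) : ℂ)) := by
    intro I
    have e1 : ∀ (J1 : Fin n → Fin n) (J2 : Fin (h * 2) → Fin n),
        tens n (h * 2) f.1 f⁻¹.1 I (J1, J2) * (((dqPair h δ qdR qB).dR (J1, J2) : K) : ℂ) =
        ((δ : ℂ)⁻¹ * ((∏ a, f.1 (I.1 a) (J1 a)) *
          (Matrix.of fun a b => if J1 a = b then (1 : ℂ) else 0).det)) *
        ((∏ b, f⁻¹.1 (J2 b) (I.2 b)) *
          ∏ i : Fin h, Q (J2 (finProdFinEquiv (i, 0))) (J2 (finProdFinEquiv (i, 1)))) := by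
      intro J1 J2
      have h2 := det_cast (F := K) J1
      have h3 : (((dqPair h δ qdR qB).dR (J1, J2) : K) : ℂ) = (δ : ℂ)⁻¹ *
          (Matrix.of fun a b => if J1 a = b then (1 : ℂ) else 0).det *
          ∏ i : Fin h, Q (J2 (finProdFinEquiv (i, 0))) (J2 (finProdFinEquiv (i, 1))) := by
        change ((δ⁻¹ * (Matrix.of fun a b => if J1 a = b then (1 : K) else 0).det *
          ∏ i : Fin h, qdR (J2 (finProdFinEquiv (i, 0))) (J2 (finProdFinEquiv (i, 1))) : K) : ℂ) = _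
        rw [← h2]
        push_cast
        rfl
      rw [h3]
      simp only [tens]
      ring
    refine ((Fintype.sum_prod_type _).trans (Finset.sum_congr rfl fun J1 _ =>
      Finset.sum_congr rfl fun J2 _ => e1 J1 J2)).trans ?_
    rw [← Finset.sum_mul_sum, ← Finset.mul_sum, det_exp, sum_pairs, hN]
    congr 1
    simp only [Matrix.smul_apply, smul_eq_mul]
    rw [Finset.prod_mul_distrib, Finset.prod_const, Finset.card_univ, Fintype.card_fin]
    rfl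
  have hB : ∀ I : TIdx (Fin n) n (h * 2), (((dqPair h δ qdR qB).B I : ℚ) : ℂ) =
      (Matrix.of fun a b => if I.1 a = b then (1 : ℂ) else 0).det *
        ∏ i : Fin h, (qB (I.2 (finProdFinEquiv (i, 0))) (I.2 (finProdFinEquiv (i, 1))) : ℂ) := by
    intro I
    have h2 := det_cast (F := ℚ) I.1
    change (((Matrix.of fun a b => if I.1 a = b then (1 : ℚ) else 0).det *
      ∏ i : Fin h, qB (I.2 (finProdFinEquiv (i, 0))) (I.2 (finProdFinEquiv (i, 1))) : ℚ) : ℂ) = _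
    rw [Rat.cast_mul, Rat.cast_prod, ← h2, eq_ratCast]
  have hμh : μ⁻¹ ^ h * μ ^ h = 1 := by rw [← mul_pow, inv_mul_cancel₀ hμ, one_pow]
  constructor
  · intro hfix
    obtain ⟨a, b, hab⟩ := hq
    have habC : ((qB a b : ℚ) : ℂ) ≠ 0 := by exact_mod_cast hab
    let I2 : Fin (h * 2) → Fin n := fun b' => if (finProdFinEquiv.symm b').2 = 0 then a else b
    have hI0 : ∀ i : Fin h, I2 (finProdFinEquiv (i, 0)) = a := by
      intro i
      change (if (finProdFinEquiv.symm (finProdFinEquiv (i, (0 : Fin 2)))).2 = 0 then a else b) = a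
      rw [Equiv.symm_apply_apply]
      rfl
    have hI1 : ∀ i : Fin h, I2 (finProdFinEquiv (i, 1)) = b := by
      intro i
      change (if (finProdFinEquiv.symm (finProdFinEquiv (i, (1 : Fin 2)))).2 = 0 then a else b) = b
      rw [Equiv.symm_apply_apply]
      rfl
    have h2 := ((key (id, I2)).symm.trans (hfix (id, I2))).trans (hB (id, I2))
    change ((δ : ℂ)⁻¹ * ((Matrix.of fun a b => if (id a : Fin n) = b then (1 : ℂ) else 0).det *
      f.1.det)) * ((μ⁻¹) ^ h * ∏ i : Fin h, (qB (I2 (finProdFinEquiv (i, 0)))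
        (I2 (finProdFinEquiv (i, 1))) : ℂ)) =
      (Matrix.of fun a b => if (id a : Fin n) = b then (1 : ℂ) else 0).det *
        ∏ i : Fin h, (qB (I2 (finProdFinEquiv (i, 0))) (I2 (finProdFinEquiv (i, 1))) : ℂ) at h2
    simp only [hI0, hI1] at h2
    have h3 : (Matrix.of fun a b => if (id a : Fin n) = b then (1 : ℂ) else 0).det = 1 := by
      have : (Matrix.of fun a b => if (id a : Fin n) = b then (1 : ℂ) else 0) = 1 := by
        ext a b
        rw [Matrix.of_apply, Matrix.one_apply]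
        rfl
      rw [this, Matrix.det_one]
    rw [h3, one_mul, one_mul, Finset.prod_const, Finset.card_univ, Fintype.card_fin] at h2
    have h4 : (δ : ℂ)⁻¹ * f.1.det * μ⁻¹ ^ h = 1 := by
      refine mul_right_cancel₀ (pow_ne_zero h habC) ?_
      rw [one_mul]
      refine Eq.trans ?_ h2
      ring
    calc f.1.det = ((δ : ℂ)⁻¹ * f.1.det * μ⁻¹ ^ h) * (μ ^ h * δ) := by
          have : ((δ : ℂ)⁻¹ * f.1.det * μ⁻¹ ^ h) * (μ ^ h * δ) =
            ((δ : ℂ)⁻¹ * δ) * (μ⁻¹ ^ h * μ ^ h) * f.1.det := by ring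
          rw [this, hμh, inv_mul_cancel₀ hδ', one_mul, one_mul]
      _ = _ := by rw [h4, one_mul]
  · intro hdet I
    refine (key I).trans (Eq.trans ?_ (hB I).symm)
    rw [hdet]
    have e : ∀ D R : ℂ, (δ : ℂ)⁻¹ * (D * (μ ^ h * δ)) * (μ⁻¹ ^ h * R) =
        ((δ : ℂ)⁻¹ * δ) * (μ⁻¹ ^ h * μ ^ h) * (D * R) := by
      intro D R
      ring
    rw [e, hμh, inv_mul_cancel₀ hδ', one_mul, one_mul]

/-! ### roots -/

theorem exists_root {w : ℤ} (hw : w ≠ 0) {μ : ℂ} (hμ : μ ≠ 0) : ∃ z : ℂˣ, (z : ℂ) ^ w = μ := by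
  refine ⟨Units.mk0 (Complex.exp (Complex.log μ / w)) (Complex.exp_ne_zero _), ?_⟩
  have hwC : (w : ℂ) ≠ 0 := by exact_mod_cast hw
  change Complex.exp (Complex.log μ / w) ^ w = μ
  rw [← Complex.exp_int_mul, mul_div_cancel₀ _ hwC, Complex.exp_log hμ]

/-! ### the upper bound -/

theorem upper {K : IntermediateField ℚ ℂ} (hn : 0 < n) (t : GL (Fin n) ℂ)
    (qdR : Matrix (Fin n) (Fin n) K) (qB : Matrix (Fin n) (Fin n) ℚ) (hdetB : qB.det ≠ 0)
    (ht : t.1ᵀ * cx qB * t.1 = qdR.map fun x => (x : ℂ)) (w : ℤ) (M : GL (Fin n) ℂ)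
    (hM : M.1 = ((2 * Real.pi * Complex.I) ^ w : ℂ) • t.1) (f : GL (Fin n) ℂ)
    (hf : ∀ α : TPair K (Fin n), Fixes M α → Fixes f α) :
    ∃ z : ℂˣ, f.1ᵀ * cx qB * f.1 = ((z : ℂ) ^ (2 * w)) • qdR.map (fun x => (x : ℂ)) ∧
      (t.1.det ∈ K → f.1.det = (z : ℂ) ^ (n * w) * t.1.det) := by
  set Q : Matrix (Fin n) (Fin n) ℂ := qdR.map fun x => (x : ℂ) with hQ
  have hpi : (2 * Real.pi * Complex.I : ℂ) ≠ 0 := Complex.two_pi_I_ne_zero
  have hdet0 : t.1.det ≠ 0 := by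
    have e2 : t.1.det * t⁻¹.1.det = 1 := by
      rw [← Matrix.det_mul]
      have : t.1 * t⁻¹.1 = 1 := t.mul_inv
      rw [this, Matrix.det_one]
    intro h0
    rw [h0, zero_mul] at e2
    exact zero_ne_one e2
  have hfdet0 : f.1.det ≠ 0 := by
    have e2 : f.1.det * f⁻¹.1.det = 1 := by
      rw [← Matrix.det_mul]
      have : f.1 * f⁻¹.1 = 1 := f.mul_inv
      rw [this, Matrix.det_one]
    intro h0
    rw [h0, zero_mul] at e2
    exact zero_ne_one e2
  have hMQ : M.1ᵀ * cx qB * M.1 = ((2 * Real.pi * Complex.I) ^ (2 * w) : ℂ) • Q := by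
    have e : 2 * w = w + w := two_mul w
    rw [hM, Matrix.transpose_smul, Matrix.smul_mul, Matrix.smul_mul, Matrix.mul_smul, smul_smul,
      ht, e, zpow_add₀ hpi]
  have hMdet : M.1.det = ((2 * Real.pi * Complex.I) ^ w : ℂ) ^ n * t.1.det := by
    rw [hM, Matrix.det_smul, Fintype.card_fin]
  by_cases hw : w = 0
  · subst hw
    refine ⟨1, ?_, fun hd => ?_⟩
    · rw [mul_zero, zpow_zero, one_smul]
      refine (fixes_form qdR qB f).1 (hf _ ((fixes_form qdR qB M).2 ?_))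
      rw [hMQ, mul_zero, zpow_zero, one_smul]
    · rw [mul_zero, zpow_zero, one_mul]
      have hδ0 : (⟨t.1.det, hd⟩ : K) ≠ 0 := fun h => hdet0 (congrArg Subtype.val h)
      refine (fixes_det ⟨t.1.det, hd⟩ hδ0 f).1 (hf _ ((fixes_det ⟨t.1.det, hd⟩ hδ0 M).2 ?_))
      rw [hMdet, zpow_zero, one_pow, one_mul]
  -- the similitude
  obtain ⟨μ, hμ⟩ : ∃ μ : ℂ, f.1ᵀ * cx qB * f.1 = μ • Q :=
    GL2.sim_of_fixes hdetB (hf (GL2.polPair qdR qB)
      (GL2.fixes_of_sim hdetB hMQ (zpow_ne_zero _ hpi)))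
  have hqB : (cx qB).det = ((qB.det : ℚ) : ℂ) := by
    have := RingHom.map_det (algebraMap ℚ ℂ) qB
    exact this.symm
  have hqB0 : (cx qB).det ≠ 0 := by
    rw [hqB]
    exact_mod_cast hdetB
  have hne' : Nonempty (Fin n) := ⟨⟨0, hn⟩⟩
  have hμ0 : μ ≠ 0 := by
    rintro rfl
    have h1 := congrArg Matrix.det hμ
    rw [Matrix.det_mul, Matrix.det_mul, Matrix.det_transpose, zero_smul,
      Matrix.det_zero] at h1
    exact mul_ne_zero (mul_ne_zero hfdet0 hqB0) hfdet0 h1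
  obtain ⟨z, hz⟩ := exists_root (w := 2 * w) (mul_ne_zero two_ne_zero hw) hμ0
  have hz0 : (z : ℂ) ≠ 0 := z.ne_zero
  by_cases hd : t.1.det ∈ K
  swap
  · exact ⟨z, by rw [hz]; exact hμ, fun h => absurd h hd⟩
  -- the determinant
  have hsq : f.1.det * f.1.det = ((z : ℂ) ^ (n * w) * t.1.det) * ((z : ℂ) ^ (n * w) * t.1.det) := by
    have h1 := congrArg Matrix.det hμ
    rw [← ht, Matrix.det_smul, Matrix.det_mul, Matrix.det_mul, Matrix.det_mul, Matrix.det_mul,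
      Matrix.det_transpose, Matrix.det_transpose, Fintype.card_fin] at h1
    have h2 : μ ^ n = (z : ℂ) ^ (n * w) * (z : ℂ) ^ (n * w) := by
      rw [← hz, ← zpow_natCast, ← _root_.zpow_mul, ← zpow_add₀ hz0]
      congr 1
      ring
    refine mul_left_cancel₀ hqB0 ?_
    rw [h2] at h1
    linear_combination h1
  rcases Nat.even_or_odd' n with ⟨h, hh | hh⟩
  · -- even rank
    refine ⟨z, by rw [hz]; exact hμ, fun _ => ?_⟩
    have hδ0 : (⟨t.1.det, hd⟩ : K) ≠ 0 := fun h => hdet0 (congrArg Subtype.val h)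
    have hq : ∃ a b, qB a b ≠ 0 := by
      by_contra hne
      push Not at hne
      have h0 : qB = 0 := Matrix.ext hne
      rw [h0, Matrix.det_zero] at hdetB
      exact hdetB rfl
    have h1 : Fixes M (dqPair h ⟨t.1.det, hd⟩ qdR qB) := by
      refine (fixes_dq h hδ0 hq M (zpow_ne_zero _ hpi) hMQ).2 ?_
      rw [hMdet]
      congr 1
      rw [← zpow_natCast, ← zpow_natCast, ← _root_.zpow_mul, ← _root_.zpow_mul]
      congr 1
      rw [hh]
      push_cast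
      ring
    have h2 := (fixes_dq h hδ0 hq f hμ0 hμ).1 (hf _ h1)
    rw [h2, ← hz, ← zpow_natCast, ← _root_.zpow_mul]
    congr 2
    rw [hh]
    push_cast
    ring
  · -- odd rank
    rcases mul_self_eq_mul_self_iff.1 hsq with h1 | h1
    · exact ⟨z, by rw [hz]; exact hμ, fun _ => h1⟩
    · obtain ⟨ζ, hζ⟩ := exists_root hw (neg_ne_zero.2 one_ne_zero)
      refine ⟨ζ * z, ?_, fun _ => ?_⟩
      · rw [Units.val_mul, mul_zpow, hz, mul_comm 2 w, _root_.zpow_mul, hζ, hμ]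
        norm_num
      · have e : (-1 : ℂ) ^ n = -1 := Odd.neg_one_pow ⟨h, hh⟩
        rw [Units.val_mul, mul_zpow, mul_comm (n : ℤ) w, _root_.zpow_mul (ζ : ℂ), hζ, h1,
          mul_comm w (n : ℤ), zpow_natCast, e]
        ring

/-- the lower bound -/
theorem lower {K : IntermediateField ℚ ℂ} (t : GL (Fin n) ℂ)
    (qdR : Matrix (Fin n) (Fin n) K) (qB : Matrix (Fin n) (Fin n) ℚ) (hdetB : qB.det ≠ 0)
    (ht : t.1ᵀ * cx qB * t.1 = qdR.map fun x => (x : ℂ))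
    (P : Matrix (Fin n) (Fin n) ℂ) (hP : Pᵀ * cx qB * P = 1) (w : ℤ) (f : GL (Fin n) ℂ) (z : ℂˣ)
    (hf : f.1ᵀ * cx qB * f.1 = ((z : ℂ) ^ (2 * w)) • qdR.map (fun x => (x : ℂ)))
    (hdet : t.1.det ∈ K → f.1.det = (z : ℂ) ^ (n * w) * t.1.det) :
    ∃ x ∈ soTorsor t qB (κ := Unit) (fun _ => n) (P.submatrix id (eq n)), ∃ z' : ℂˣ,
      Conj K (tw w (x, z')) f := by
  have hz0 : (z : ℂ) ≠ 0 := z.ne_zero
  have hf' : (tw w (f, z⁻¹)).1 = ((z : ℂ) ^ (-w)) • f.1 := by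
    rw [tw_val]
    congr 1
    change (((z⁻¹) ^ w : ℂˣ) : ℂ) = _
    rw [Units.val_zpow_eq_zpow_val, Units.val_inv_eq_inv_val, _root_.inv_zpow, _root_.zpow_neg]
  obtain ⟨x, hx, τ, hτ, hxf⟩ := exists_conj t qdR qB hdetB ht P hP (tw w (f, z⁻¹)) (by
      rw [hf', Matrix.transpose_smul, Matrix.smul_mul, Matrix.smul_mul, Matrix.mul_smul, smul_smul,
        hf, smul_smul, ← zpow_add₀ hz0, ← zpow_add₀ hz0]
      have e : -w + -w + 2 * w = 0 := by ring
      rw [e, zpow_zero, one_smul]) (fun hd => by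
      rw [hf', Matrix.det_smul, Fintype.card_fin, hdet hd, ← mul_assoc, ← zpow_natCast,
        ← _root_.zpow_mul, ← zpow_add₀ hz0]
      have e : -w * (n : ℤ) + n * w = 0 := by ring
      rw [e, zpow_zero, one_mul])
  refine ⟨x, hx, Units.map τ.symm.toRingHom.toMonoidHom z, τ, hτ, fun i j => ?_⟩
  have h1 := hxf i j
  rw [hf'] at h1
  rw [tw_val, Matrix.smul_apply, smul_eq_mul, map_mul]
  have h2 : τ (((Units.map τ.symm.toRingHom.toMonoidHom z) ^ w : ℂˣ) : ℂ) = (z : ℂ) ^ w := by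
    rw [Units.val_zpow_eq_zpow_val, map_zpow₀]
    congr 1
    change τ (τ.symm (z : ℂ)) = z
    exact τ.apply_symm_apply _
  change f.1 i j = τ (((Units.map τ.symm.toRingHom.toMonoidHom z) ^ w : ℂˣ) : ℂ) * τ (x.1 i j)
  rw [h2, ← h1, Matrix.smul_apply, smul_eq_mul, ← mul_assoc, ← zpow_add₀ hz0, add_neg_cancel,
    zpow_zero, one_mul]

end KEx2M

open KExM KEx2M in
/-- KEX2 -/
theorem specKEx2 (hTen : SpecKTen2) : SpecKEx2 := by
  intro g N n A c t K qdR qB B hK hKS hn3 hn5 w M hM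
  have hcs : (cx qB)ᵀ = cx qB := by
    have := congrArg cx hKS.symm
    exact this
  have hcd : (cx qB).det ≠ 0 := by
    have h1 : (cx qB).det = ((qB.det : ℚ) : ℂ) := (RingHom.map_det (algebraMap ℚ ℂ) qB).symm
    rw [h1]
    exact_mod_cast hKS.det
  obtain ⟨P, hP⟩ := exists_cong (cx qB) hcs hcd
  obtain ⟨h1, h2⟩ := hTen g N n A c t (qdR.map fun x => (x : ℂ)) qB B ∅ Unit (fun _ => n)
    (P.submatrix id (KExM.eq n)) (fun _ _ => 0) hKS (split qB P hP) (fun _ => hn3) (fun _ => hn5)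
    K (Fin n) (fun x => tw w x) hK (isTens w)
  have hMt : tw w (t, tpi) = M := by
    refine Units.ext ?_
    rw [tw_val, hM]
    congr 1
    rw [Units.val_zpow_eq_zpow_val]
    rfl
  simp only [hMt] at h1 h2
  have hup : ∀ f : GL (Fin n) ℂ, f ∈ OmegaS {α : TPair K (Fin n) | Fixes M α} →
      ∃ z : ℂˣ, f.1ᵀ * cx qB * f.1 = ((z : ℂ) ^ (2 * w)) • qdR.map (fun x => (x : ℂ)) ∧
        (t.1.det ∈ K → f.1.det = (z : ℂ) ^ (n * w) * t.1.det) := fun f hf =>
    upper (by omega) t qdR qB hKS.det hKS.form w M hM f hf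
  have hlow : ∀ (f : GL (Fin n) ℂ) (z : ℂˣ),
      f.1ᵀ * cx qB * f.1 = ((z : ℂ) ^ (2 * w)) • qdR.map (fun x => (x : ℂ)) →
      (t.1.det ∈ K → f.1.det = (z : ℂ) ^ (n * w) * t.1.det) →
      ∃ x ∈ soTorsor t qB (κ := Unit) (fun _ => n) (P.submatrix id (KExM.eq n)), ∃ z' : ℂˣ,
        Conj K (tw w (x, z')) f := fun f z hf hd =>
    lower t qdR qB hKS.det hKS.form P hP w f z hf hd
  refine ⟨?_, ?_, ?_⟩
  · apply Set.Subset.antisymm
    · intro f hf
      exact hup f (drb_subset (fun α hα => hα) hf)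
    · rintro f ⟨z, hf, hd⟩
      obtain ⟨x, hx, z', hxf⟩ := hlow f z hf hd
      exact h1 x hx z' f hxf
  · intro hK
    obtain ⟨h3, h4⟩ := h2 {α : TPair K (Fin n) | Fixes M α} (fun α hα => hα) fun f hf => by
      obtain ⟨z, hf1, hf2⟩ := hup f hf
      exact hlow f z hf1 hf2
    rw [h3, h4 hK]
  · rintro rfl S hS hform hdetS
    have hdet0 : t.1.det ≠ 0 := by
      have e2 : t.1.det * t⁻¹.1.det = 1 := by
        rw [← Matrix.det_mul]
        have : t.1 * t⁻¹.1 = 1 := t.mul_inv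
        rw [this, Matrix.det_one]
      intro h0
      rw [h0, zero_mul] at e2
      exact zero_ne_one e2
    refine (h2 S hS fun f hf => hlow f 1 ?_ fun hd => ?_).1
    · rw [mul_zero, zpow_zero, one_smul]
      exact (fixes_form qdR qB f).1 (hf _ hform)
    · rw [mul_zero, zpow_zero, one_mul]
      have hδ0 : (⟨t.1.det, hd⟩ : K) ≠ 0 := fun h => hdet0 (congrArg Subtype.val h)
      exact (fixes_det ⟨t.1.det, hd⟩ hδ0 f).1 (hf _ (hdetS ⟨t.1.det, hd⟩ rfl))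

end Pool.Agent.Lib.MPf11a48.K3
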