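import Pool.Agent.Lib.MP_f11a48_ag.K3.KSpec2
import Pool.Agent.Lib.MP_f11a48_ag.K3.KGrp

/-! # Torsors over `Qbar` with group over `ℚ` through `(t, 2 π i)` -/

set_option autoImplicit false
set_option linter.unusedSectionVars false

namespace Pool.Agent.Lib.MPf11a48.K3

open Matrix MvPolynomial Pool.Agent.Lib.MPf11a48.Tors
open Pool.Agent.Lib.MPf11a48.CM hiding OmegaM
open Pool.Agent.Lib.MPf11a48.GL2 (Geo lie)
open Pool.Agent.Lib.MPf11a48.U (AbData Ix)

namespace KGrp2M

open KGrpM

variable {n : ℕ} {κ : Type} [Fintype κ] [DecidableEq κ] {m : κ → ℕ}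

theorem hasDerivAt_lb {X : ℂ → Matrix (Fin n) (Fin n) ℂ} {Y : Matrix (Fin n) (Fin n) ℂ}
    {u : ℂ → ℂ} {u' s : ℂ} (hX : ∀ i j, HasDerivAt (fun s => X s i j) (Y i j) s)
    (hu : HasDerivAt u u' s) (i j : Fin n ⊕ Unit) :
    HasDerivAt (fun s => lb (X s) (u s) i j) (lb Y u' i j) s := by
  rcases i with i | i <;> rcases j with j | j
  · exact hX i j
  · exact hasDerivAt_const s _
  · exact hasDerivAt_const s _
  · exact hu

/-- `T` contains `SO × 1` if its Lie algebra contains the Lie algebra -/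
theorem so_mem (hCurve : SpecCurve) (hGen : SpecGen) {T : Set (GL (Fin n ⊕ Unit) ℂ)}
    (h : Geo T) {P : Matrix (Fin n) ((k : κ) × Fin (m k)) ℂ}
    {P' : Matrix ((k : κ) × Fin (m k)) (Fin n) ℂ} (hP : P * P' = 1) (hP' : P' * P = 1)
    (hlie : ∀ X : (k : κ) → Matrix (Fin (m k)) (Fin (m k)) ℂ, (∀ k, (X k)ᵀ = -X k) →
      lb (cm P P' X) 0 ∈ lie T) (x : (k : κ) → SO (m k)) :
    bd (cg hP hP' (fun k => (x k).1), 1) ∈ stab T := by
  have hfac : ∀ (k : κ) (u : SO (m k)), bd (cg hP hP' (Pi.mulSingle k u.1), 1) ∈ stab T := by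
    intro k u
    have key : SO (m k) ≤ (stab T).comap (bd.comp (MonoidHom.prod ((cg hP hP').comp
        (MonoidHom.mulSingle (fun k => GL (Fin (m k)) ℂ) k)) 1)) := by
      refine hGen (m k) _ fun X hX g hg0 hd s => ?_
      change bd (cg hP hP' (Pi.mulSingle k (g s)), 1) ∈ stab T
      refine mem_stab h fun f hf => ?_
      refine hCurve (Fin n ⊕ Unit) T h (lb (cm P P' (Pi.single k X)) 0) (hlie _ fun k' => ?_)
        (fun s => bd (cg hP hP' (Pi.mulSingle k (g s)), 1)) ?_ ?_ f hf s
      · by_cases hk : k' = k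
        · subst hk
          rw [Pi.single_eq_same, hX]
        · rw [Pi.single_eq_of_ne hk, transpose_zero, neg_zero]
      · rw [hg0, Pi.mulSingle_one, map_one]
        exact map_one bd
      · intro s i j
        have e1 : lb (cm P P' (Pi.single k X)) 0 *
            (bd (cg hP hP' (Pi.mulSingle k (g s)), 1)).1 =
            lb (cm P P' (Pi.single k (X * (g s).1))) 0 := by
          rw [bd_val, lb_mul, zero_mul, cg_val, cm_mul hP']
          congr 2
          funext k'
          by_cases hk : k' = k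
          · subst hk
            rw [Pi.single_eq_same, Pi.mulSingle_eq_same, Pi.single_eq_same]
          · rw [Pi.single_eq_of_ne hk, Pi.single_eq_of_ne hk, Matrix.zero_mul]
        rw [e1]
        change HasDerivAt (fun s => lb (cm P P' (fun k' =>
          ((Pi.mulSingle k (g s) : (k : κ) → GL (Fin (m k)) ℂ) k').1)) ((1 : ℂˣ) : ℂ) i j) _ s
        refine hasDerivAt_lb (X := fun s => cm P P' (fun k' =>
          ((Pi.mulSingle k (g s) : (k : κ) → GL (Fin (m k)) ℂ) k').1)) (fun i j => ?_)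
          (hasDerivAt_const s _) i j
        refine hasDerivAt_cm (fun k' a b => ?_) i j
        by_cases hk : k' = k
        · subst hk
          simp only [Pi.mulSingle_eq_same, Pi.single_eq_same]
          exact hd s a b
        · simp only [Pi.mulSingle_eq_of_ne hk, Pi.single_eq_of_ne hk]
          exact hasDerivAt_const s _
    exact key u.2
  let Ψ : ((k : κ) → SO (m k)) →* GL (Fin n ⊕ Unit) ℂ :=
    { toFun := fun u => bd (cg hP hP' fun k => (u k).1, 1)
      map_one' := by
        have e : (cg hP hP' fun k => ((1 : (k : κ) → SO (m k)) k).1) = 1 := by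
          rw [← map_one (cg hP hP')]
          rfl
        rw [e]
        exact map_one bd
      map_mul' := by
        intro u v
        rw [← map_mul, Prod.mk_mul_mk, ← map_mul, mul_one]
        rfl }
  have key : x ∈ (stab T).comap Ψ := by
    refine Subgroup.pi_mem_of_mulSingle_mem x fun k => ?_
    change bd (cg hP hP' (fun k' => ((Pi.mulSingle k (x k) : (k : κ) → SO (m k)) k').1), 1) ∈ stab T
    have h1 := hfac k (x k)
    have e : (fun k' => ((Pi.mulSingle k (x k) : (k : κ) → SO (m k)) k').1) =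
        Pi.mulSingle k (x k).1 := by
      funext k'
      by_cases hk : k' = k
      · subst hk
        rw [Pi.mulSingle_eq_same, Pi.mulSingle_eq_same]
      · rw [Pi.mulSingle_eq_of_ne hk, Pi.mulSingle_eq_of_ne hk]
        rfl
    rwa [e]
  exact key

/-- `T` is stable under `1 × G_m` if its Lie algebra contains `(0, 1)` -/
theorem gm_mem (hCurve : SpecCurve) {T : Set (GL (Fin n ⊕ Unit) ℂ)} (h : Geo T)
    (hlie : lb (0 : Matrix (Fin n) (Fin n) ℂ) 1 ∈ lie T) (z : ℂˣ) {f : GL (Fin n ⊕ Unit) ℂ}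
    (hf : f ∈ T) : bd ((1 : GL (Fin n) ℂ), z) * f ∈ T := by
  obtain ⟨w, hw⟩ : ∃ w : ℂ, Complex.exp w = z := by
    have h1 : (z : ℂ) ∈ Set.range Complex.exp := by
      rw [Complex.range_exp]
      exact z.ne_zero
    exact h1
  have h2 := hCurve (Fin n ⊕ Unit) T h _ hlie
    (fun s => bd ((1 : GL (Fin n) ℂ), Units.mk0 (Complex.exp s) (Complex.exp_ne_zero s))) ?_ ?_ f hf w
  · have e : Units.mk0 (Complex.exp w) (Complex.exp_ne_zero w) = z := Units.ext hw
    rwa [e] at h2
  · have e : Units.mk0 (Complex.exp 0) (Complex.exp_ne_zero 0) = 1 := Units.ext Complex.exp_zero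
    rw [e]
    exact map_one bd
  · intro s i j
    rw [bd_val, lb_mul, one_mul, Matrix.zero_mul]
    change HasDerivAt (fun s => lb (1 : Matrix (Fin n) (Fin n) ℂ) (Complex.exp s) i j) _ s
    refine hasDerivAt_lb (X := fun _ => (1 : Matrix (Fin n) (Fin n) ℂ)) (fun i j => ?_)
      (Complex.hasDerivAt_exp s) i j
    exact hasDerivAt_const s _

end KGrp2M

open KGrpM KGrp2M in
theorem specKGrp2 (hFull : SpecKFull2) (hCurve : SpecCurve) (hGen : SpecGen) : SpecKGrp2 := by
  intro g N n A c t qdR qB B E κ _ _ m P lam hK hS h3 h5 T hT htT hcl f hf z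
  obtain ⟨x, hx⟩ := hf
  have hP' : (Pᵀ * cx qB) * P = 1 := hS.orth
  have hgeo := GL2.geo_of_torsor hT
  obtain ⟨hl1, hl2⟩ := hFull g N n A c t qdR qB B E κ m P lam hK hS h3 h5 T hT htT hcl
  have h1 := (so_mem hCurve hGen hgeo hS.onto hP' hl1 x (bd (t, tpi)) htT).1
  have h2 := gm_mem hCurve hgeo hl2 (z * tpi⁻¹) h1
  rw [← map_mul, ← map_mul, Prod.mk_mul_mk, Prod.mk_mul_mk, one_mul, one_mul,
    inv_mul_cancel_right] at h2
  have e : f = cg hS.onto hP' (fun k => (x k).1) * t := Units.ext hx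
  rw [e]
  exact h2

end Pool.Agent.Lib.MPf11a48.K3
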