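import Pool.Agent.Lib.MP_f11a48_ag.K3.KSpec3
import Pool.Agent.Lib.MP_f11a48_ag.K3.KGrp2

/-! # Torsors over `Qbar` with group over `ℚ` through `(c, t, 2 π i)` -/

set_option autoImplicit false
set_option linter.unusedSectionVars false

namespace Pool.Agent.Lib.MPf11a48.K3

open Matrix MvPolynomial Pool.Agent.Lib.MPf11a48.Tors
open Pool.Agent.Lib.MPf11a48.CM hiding OmegaM
open Pool.Agent.Lib.MPf11a48.GL2 (Geo lie)
open Pool.Agent.Lib.MPf11a48.U (AbData Ix HD EndAlg SpecHDA)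
open KLieM (clC)

namespace KGrp3M

open KGrpM KGrp2M

variable {g n : ℕ}

theorem hasDerivAt_lb3 {Z : ℂ → Matrix (Ix g) (Ix g) ℂ} {Z' : Matrix (Ix g) (Ix g) ℂ}
    {X : ℂ → Matrix (Fin n) (Fin n) ℂ} {Y : Matrix (Fin n) (Fin n) ℂ}
    {u : ℂ → ℂ} {u' s : ℂ} (hZ : ∀ i j, HasDerivAt (fun s => Z s i j) (Z' i j) s)
    (hX : ∀ i j, HasDerivAt (fun s => X s i j) (Y i j) s)
    (hu : HasDerivAt u u' s) (i j : Ix g ⊕ (Fin n ⊕ Unit)) :
    HasDerivAt (fun s => lb3 (Z s) (X s) (u s) i j) (lb3 Z' Y u' i j) s := by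
  rcases i with i | i <;> rcases j with j | j
  · exact hZ i j
  · exact hasDerivAt_const s _
  · exact hasDerivAt_const s _
  · exact hasDerivAt_lb hX hu i j

/-- change of the basis in a sum of Clifford operators -/
theorem sum_act (B : Fin n → Matrix (Ix g) (Ix g) ℚ) (a : Matrix (Ix g) (Ix g) ℂ)
    (x x' : Matrix (Fin n) (Fin n) ℂ)
    (h : ∀ j, a * cx (B j) = (∑ i, x i j • cx (B i)) * a) (j : Fin n) :
    a * (∑ i, x' i j • cx (B i)) = (∑ i, (x * x') i j • cx (B i)) * a := by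
  rw [Finset.mul_sum]
  simp only [Matrix.mul_smul, h]
  rw [Finset.sum_mul]
  simp only [Finset.sum_mul, Matrix.smul_mul, Finset.smul_sum, smul_smul, Matrix.mul_apply,
    Finset.sum_smul]
  rw [Finset.sum_comm]
  refine Finset.sum_congr rfl fun l _ => Finset.sum_congr rfl fun i _ => ?_
  rw [mul_comm]

theorem sum_one (B : Fin n → Matrix (Ix g) (Ix g) ℚ) (j : Fin n) :
    ∑ i, (1 : Matrix (Fin n) (Fin n) ℂ) i j • cx (B i) = cx (B j) := by
  rw [Finset.sum_eq_single j]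
  · rw [Matrix.one_apply_eq, one_smul]
  · intro i _ hij
    rw [Matrix.one_apply_ne hij, zero_smul]
  · intro h
    exact absurd (Finset.mem_univ _) h

/-- the group of all `(a, x, z)` such that `a` is compatible with `x` and the Clifford
multiplication, commutes with `S`, and multiplies `ψ` by `z` -/
def G0 (B : Fin n → Matrix (Ix g) (Ix g) ℚ) (S : Set (Matrix (Ix g) (Ix g) ℚ))
    (ψ : Matrix (Ix g) (Ix g) ℚ) : Subgroup (Grp3 g n) where
  carrier := {y | (∀ j, y.1.1 * cx (B j) = (∑ i, y.2.1.1 i j • cx (B i)) * y.1.1) ∧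
    (∀ Z ∈ S, y.1.1 * cx Z = cx Z * y.1.1) ∧
    y.1.1ᵀ * cx ψ * y.1.1 = (y.2.2 : ℂ) • cx ψ}
  mul_mem' := by
    rintro y y' ⟨h1, h2, h3⟩ ⟨h1', h2', h3'⟩
    refine ⟨fun j => ?_, fun Z hZ => ?_, ?_⟩
    · change y.1.1 * y'.1.1 * cx (B j) =
        (∑ i, (y.2.1.1 * y'.2.1.1) i j • cx (B i)) * (y.1.1 * y'.1.1)
      rw [Matrix.mul_assoc, h1', ← Matrix.mul_assoc, sum_act B _ _ _ h1, Matrix.mul_assoc]
    · change y.1.1 * y'.1.1 * cx Z = cx Z * (y.1.1 * y'.1.1)
      rw [Matrix.mul_assoc, h2' Z hZ, ← Matrix.mul_assoc, h2 Z hZ, Matrix.mul_assoc]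
    · change (y.1.1 * y'.1.1)ᵀ * cx ψ * (y.1.1 * y'.1.1) = ((y.2.2 : ℂ) * (y'.2.2 : ℂ)) • cx ψ
      calc (y.1.1 * y'.1.1)ᵀ * cx ψ * (y.1.1 * y'.1.1) =
          y'.1.1ᵀ * (y.1.1ᵀ * cx ψ * y.1.1) * y'.1.1 := by
            rw [Matrix.transpose_mul]
            simp only [Matrix.mul_assoc]
        _ = _ := by
            rw [h3, Matrix.mul_smul, Matrix.smul_mul, h3', smul_smul]
  one_mem' := by
    refine ⟨fun j => ?_, fun Z _ => ?_, ?_⟩
    · change 1 * cx (B j) = (∑ i, (1 : Matrix (Fin n) (Fin n) ℂ) i j • cx (B i)) * 1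
      rw [sum_one, Matrix.one_mul, Matrix.mul_one]
    · change 1 * cx Z = cx Z * 1
      rw [Matrix.one_mul, Matrix.mul_one]
    · change (1 : Matrix (Ix g) (Ix g) ℂ)ᵀ * cx ψ * 1 = ((1 : ℂˣ) : ℂ) • cx ψ
      rw [Matrix.transpose_one, Matrix.one_mul, Matrix.mul_one, Units.val_one, one_smul]
  inv_mem' := by
    rintro y ⟨h1, h2, h3⟩
    have e1 : y.1.1 * y.1⁻¹.1 = 1 := y.1.mul_inv
    have e2 : y.1⁻¹.1 * y.1.1 = 1 := y.1.inv_mul
    have e3 : y.2.1.1 * y.2.1⁻¹.1 = 1 := y.2.1.mul_inv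
    refine ⟨fun j => ?_, fun Z hZ => ?_, ?_⟩
    · change y.1⁻¹.1 * cx (B j) = (∑ i, y.2.1⁻¹.1 i j • cx (B i)) * y.1⁻¹.1
      have h4 := sum_act B _ _ y.2.1⁻¹.1 h1 j
      rw [e3, sum_one] at h4
      calc y.1⁻¹.1 * cx (B j) = y.1⁻¹.1 * (cx (B j) * y.1.1) * y.1⁻¹.1 := by
            rw [Matrix.mul_assoc, Matrix.mul_assoc (cx (B j)), e1, Matrix.mul_one]
        _ = y.1⁻¹.1 * y.1.1 * (∑ i, y.2.1⁻¹.1 i j • cx (B i)) * y.1⁻¹.1 := by
            rw [← h4, Matrix.mul_assoc y.1⁻¹.1 y.1.1]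
        _ = _ := by rw [e2, Matrix.one_mul]
    · change y.1⁻¹.1 * cx Z = cx Z * y.1⁻¹.1
      calc y.1⁻¹.1 * cx Z = y.1⁻¹.1 * (cx Z * y.1.1) * y.1⁻¹.1 := by
            rw [Matrix.mul_assoc, Matrix.mul_assoc (cx Z), e1, Matrix.mul_one]
        _ = y.1⁻¹.1 * y.1.1 * cx Z * y.1⁻¹.1 := by
            rw [← h2 Z hZ, Matrix.mul_assoc y.1⁻¹.1 y.1.1]
        _ = _ := by rw [e2, Matrix.one_mul]
    · change y.1⁻¹.1ᵀ * cx ψ * y.1⁻¹.1 = ((y.2.2⁻¹ : ℂˣ) : ℂ) • cx ψ
      have h4 : y.1⁻¹.1ᵀ * (y.1.1ᵀ * cx ψ * y.1.1) * y.1⁻¹.1 = cx ψ := by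
        calc y.1⁻¹.1ᵀ * (y.1.1ᵀ * cx ψ * y.1.1) * y.1⁻¹.1 =
            (y.1⁻¹.1ᵀ * y.1.1ᵀ) * cx ψ * (y.1.1 * y.1⁻¹.1) := by
              simp only [Matrix.mul_assoc]
          _ = cx ψ := by
              rw [← Matrix.transpose_mul, e1, Matrix.transpose_one, Matrix.one_mul, Matrix.mul_one]
      rw [h3, Matrix.mul_smul, Matrix.smul_mul] at h4
      have h5 : ((y.2.2⁻¹ : ℂˣ) : ℂ) • cx ψ =
          ((y.2.2⁻¹ : ℂˣ) : ℂ) • ((y.2.2 : ℂ) • (y.1⁻¹.1ᵀ * cx ψ * y.1⁻¹.1)) := by rw [h4]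
      rw [h5, smul_smul, Units.inv_mul, one_smul]

/-- the group of all `x` which can be lifted to `G` -/
def G1 (G : Subgroup (Grp3 g n)) : Subgroup (GL (Fin n) ℂ) where
  carrier := {x | ∃ a, ((a, x, 1) : Grp3 g n) ∈ G}
  mul_mem' := by
    rintro x x' ⟨a, ha⟩ ⟨a', ha'⟩
    refine ⟨a * a', ?_⟩
    have h := G.mul_mem ha ha'
    rwa [Prod.mk_mul_mk, Prod.mk_mul_mk, mul_one] at h
  one_mem' := ⟨1, G.one_mem⟩
  inv_mem' := by
    rintro x ⟨a, ha⟩
    refine ⟨a⁻¹, ?_⟩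
    have h := G.inv_mem ha
    rwa [Prod.inv_mk, Prod.inv_mk, inv_one] at h

/-- scalar matrices -/
noncomputable def sc (z : ℂˣ) : GL (Ix g) ℂ :=
  ⟨(z : ℂ) • 1, ((z⁻¹ : ℂˣ) : ℂ) • 1, by
    rw [Matrix.smul_mul, Matrix.one_mul, smul_smul, Units.mul_inv, one_smul], by
    rw [Matrix.smul_mul, Matrix.one_mul, smul_smul, Units.inv_mul, one_smul]⟩

theorem sc_val (z : ℂˣ) : (sc z : GL (Ix g) ℂ).1 = (z : ℂ) • 1 := rfl

/-- `exp w` as a unit -/
noncomputable def ex (w : ℂ) : ℂˣ := Units.mk0 (Complex.exp w) (Complex.exp_ne_zero w)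

theorem ex_val (w : ℂ) : (ex w : ℂ) = Complex.exp w := rfl

variable {κ : Type} [Fintype κ] [DecidableEq κ] {m : κ → ℕ}

theorem iso_cm {qB : Matrix (Fin n) (Fin n) ℚ} (hq : qBᵀ = qB)
    {P : Matrix (Fin n) ((k : κ) × Fin (m k)) ℂ} {X : (k : κ) → Matrix (Fin (m k)) (Fin (m k)) ℂ}
    (hX : ∀ k, (X k)ᵀ = -X k) :
    (cm P (Pᵀ * cx qB) X)ᵀ * cx qB + cx qB * cm P (Pᵀ * cx qB) X = 0 := by
  have hqc : (cx qB)ᵀ = cx qB := by
    change (qBᵀ).map (fun x => (x : ℂ)) = cx qB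
    rw [hq]
    rfl
  have hb : (blockDiagonal' X)ᵀ = -blockDiagonal' X := by
    rw [blockDiagonal'_transpose, ← blockDiagonal'_neg]
    congr 1
    funext k
    exact hX k
  unfold cm
  rw [Matrix.transpose_mul, Matrix.transpose_mul, Matrix.transpose_mul, Matrix.transpose_transpose,
    hqc, hb]
  simp only [Matrix.mul_assoc, Matrix.neg_mul, Matrix.mul_neg]
  exact neg_add_cancel _

end KGrp3M

open KGrpM KGrp2M KGrp3M in
theorem specKGrp3 (hFull : SpecKFull3) (hCur : SpecKCur) (hSc : SpecKSc) (hHDA : SpecHDA)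
    (hCurve : SpecCurve) (hGen : SpecGen) : SpecKGrp3 := by
  intro g N n A c t qdR qB B E κ _ _ m P lam hK hE hS h3 h5 T hT htT hcl y hy
  obtain ⟨⟨J, hJ⟩, -⟩ := hHDA Qbar g N A c le_rfl hK.abvar hK.per
  have hP' : (Pᵀ * cx qB) * P = 1 := hS.orth
  have hgeo := GL2.geo_of_torsor hT
  obtain ⟨hl1, hl2⟩ := hFull g N n A c t qdR qB B E κ m P lam hK hE hS h3 h5 T hT htT hcl
  let GG : Subgroup (Grp3 g n) := G0 B (EndAlg c.1) A.psi ⊓ (stab T).comap bd3
  have hfac : ∀ (k : κ) (u : SO (m k)), cg hS.onto hP' (Pi.mulSingle k u.1) ∈ G1 GG := by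
    intro k u
    have key : SO (m k) ≤ (G1 GG).comap ((cg hS.onto hP').comp
        (MonoidHom.mulSingle (fun k => GL (Fin (m k)) ℂ) k)) := by
      refine hGen (m k) _ fun X hX x hx0 hd s => ?_
      change cg hS.onto hP' (Pi.mulSingle k (x s)) ∈ G1 GG
      have hsk : ∀ k', ((Pi.single k X : (k : κ) → Matrix (Fin (m k)) (Fin (m k)) ℂ) k')ᵀ =
          -(Pi.single k X : (k : κ) → Matrix (Fin (m k)) (Fin (m k)) ℂ) k' := by
        intro k'
        by_cases hk : k' = k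
        · subst hk
          rw [Pi.single_eq_same, hX]
        · rw [Pi.single_eq_of_ne hk, transpose_zero, neg_zero]
      obtain ⟨hl, hψ, hZ⟩ := hl1 (Pi.single k X) hsk (cm P (Pᵀ * cx qB) (Pi.single k X)) rfl
      have hx0' : cg hS.onto hP' (Pi.mulSingle k (x 0)) = 1 := by
        rw [hx0, Pi.mulSingle_one, map_one]
      have hxd : ∀ s i j, HasDerivAt (fun s => (cg hS.onto hP' (Pi.mulSingle k (x s))).1 i j)
          ((cm P (Pᵀ * cx qB) (Pi.single k X) *
            (cg hS.onto hP' (Pi.mulSingle k (x s))).1) i j) s := by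
        intro s i j
        have e1 : cm P (Pᵀ * cx qB) (Pi.single k X) *
            (cg hS.onto hP' (Pi.mulSingle k (x s))).1 =
            cm P (Pᵀ * cx qB) (Pi.single k (X * (x s).1)) := by
          rw [cg_val, cm_mul hP']
          congr 1
          funext k'
          by_cases hk : k' = k
          · subst hk
            rw [Pi.single_eq_same, Pi.mulSingle_eq_same, Pi.single_eq_same]
          · rw [Pi.single_eq_of_ne hk, Pi.single_eq_of_ne hk, Matrix.zero_mul]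
        rw [e1]
        change HasDerivAt (fun s => cm P (Pᵀ * cx qB) (fun k' =>
          ((Pi.mulSingle k (x s) : (k : κ) → GL (Fin (m k)) ℂ) k').1) i j) _ s
        refine hasDerivAt_cm (fun k' a b => ?_) i j
        by_cases hk : k' = k
        · subst hk
          simp only [Pi.mulSingle_eq_same, Pi.single_eq_same]
          exact hd s a b
        · simp only [Pi.mulSingle_eq_of_ne hk, Pi.single_eq_of_ne hk]
          exact hasDerivAt_const s _
      obtain ⟨a, ha0, had, ha⟩ := hCur g n qB B A.psi _ hK.symm hK.det hK.clifford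
        (iso_cm hK.symm hsk) hψ (fun s => cg hS.onto hP' (Pi.mulSingle k (x s))) hx0' hxd
      refine ⟨a s, ⟨(ha s).1, fun Z hZ' => (ha s).2.1 _ (hZ Z hZ'), ?_⟩, ?_⟩
      · change (a s).1ᵀ * cx A.psi * (a s).1 = ((1 : ℂˣ) : ℂ) • cx A.psi
        rw [(ha s).2.2, Units.val_one, one_smul]
      · change bd3 (a s, cg hS.onto hP' (Pi.mulSingle k (x s)), 1) ∈ stab T
        refine mem_stab hgeo fun f hf => ?_
        refine hCurve _ T hgeo _ hl
          (fun s => bd3 (a s, cg hS.onto hP' (Pi.mulSingle k (x s)), 1)) ?_ ?_ f hf s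
        · rw [ha0, hx0']
          exact map_one bd3
        · intro s i j
          rw [bd3_val, lb3_mul, zero_mul]
          exact hasDerivAt_lb3 (Z := fun s => (a s).1)
            (X := fun s => (cg hS.onto hP' (Pi.mulSingle k (x s))).1)
            (u := fun _ => ((1 : ℂˣ) : ℂ)) (had s) (hxd s) (hasDerivAt_const s _) i j
    exact key u.2
  have hall : ∀ x : (k : κ) → SO (m k), cg hS.onto hP' (fun k => (x k).1) ∈ G1 GG := by
    intro x
    let Ψ : ((k : κ) → SO (m k)) →* GL (Fin n) ℂ :=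
      { toFun := fun u => cg hS.onto hP' fun k => (u k).1
        map_one' := by
          rw [← map_one (cg hS.onto hP')]
          rfl
        map_mul' := by
          intro u v
          rw [← map_mul]
          rfl }
    have key : x ∈ (G1 GG).comap Ψ := by
      refine Subgroup.pi_mem_of_mulSingle_mem x fun k => ?_
      change cg hS.onto hP' (fun k' => ((Pi.mulSingle k (x k) : (k : κ) → SO (m k)) k').1) ∈ G1 GG
      have h1 := hfac k (x k)
      have e : (fun k' => ((Pi.mulSingle k (x k) : (k : κ) → SO (m k)) k').1) =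
          Pi.mulSingle k (x k).1 := by
        funext k'
        by_cases hk : k' = k
        · subst hk
          rw [Pi.mulSingle_eq_same, Pi.mulSingle_eq_same]
        · rw [Pi.mulSingle_eq_of_ne hk, Pi.mulSingle_eq_of_ne hk]
          rfl
      rwa [e]
    exact key
  -- the scalars
  have hexp : ∀ w : ℂ, ((sc (ex (w / 2)), 1, ex w) : Grp3 g n) ∈ GG := by
    intro w
    refine ⟨⟨fun j => ?_, fun Z _ => ?_, ?_⟩, ?_⟩
    · change ((ex (w / 2) : ℂ) • (1 : Matrix (Ix g) (Ix g) ℂ)) * cx (B j) =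
        (∑ i, (1 : Matrix (Fin n) (Fin n) ℂ) i j • cx (B i)) *
          ((ex (w / 2) : ℂ) • (1 : Matrix (Ix g) (Ix g) ℂ))
      rw [sum_one, Matrix.smul_mul, Matrix.mul_smul, Matrix.one_mul, Matrix.mul_one]
    · change ((ex (w / 2) : ℂ) • (1 : Matrix (Ix g) (Ix g) ℂ)) * cx Z =
        cx Z * ((ex (w / 2) : ℂ) • (1 : Matrix (Ix g) (Ix g) ℂ))
      rw [Matrix.smul_mul, Matrix.mul_smul, Matrix.one_mul, Matrix.mul_one]
    · change ((ex (w / 2) : ℂ) • (1 : Matrix (Ix g) (Ix g) ℂ))ᵀ * cx A.psi *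
        ((ex (w / 2) : ℂ) • (1 : Matrix (Ix g) (Ix g) ℂ)) = (ex w : ℂ) • cx A.psi
      rw [Matrix.transpose_smul, Matrix.transpose_one, Matrix.smul_mul, Matrix.one_mul,
        Matrix.mul_smul, Matrix.mul_one, smul_smul, ex_val, ex_val, ← Complex.exp_add, add_halves]
    · change bd3 ((sc (ex (w / 2)), 1, ex w) : Grp3 g n) ∈ stab T
      refine mem_stab hgeo fun f hf => ?_
      refine hCurve _ T hgeo _ hl2 (fun w => bd3 ((sc (ex (w / 2)), 1, ex w) : Grp3 g n))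
        ?_ ?_ f hf w
      · have e1 : ex (0 / 2) = 1 := by
          refine Units.ext ?_
          rw [ex_val, zero_div, Complex.exp_zero]
          rfl
        have e2 : ex 0 = 1 := by
          refine Units.ext ?_
          rw [ex_val, Complex.exp_zero]
          rfl
        have e3 : (sc 1 : GL (Ix g) ℂ) = 1 := by
          refine Units.ext ?_
          rw [sc_val, Units.val_one, one_smul]
          rfl
        change bd3 ((sc (ex (0 / 2)), 1, ex 0) : Grp3 g n) = 1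
        rw [e1, e2, e3]
        exact map_one bd3
      · intro s i j
        rw [bd3_val, lb3_mul, one_mul, Matrix.zero_mul]
        refine hasDerivAt_lb3 (Z := fun s => (sc (ex (s / 2)) : GL (Ix g) ℂ).1)
          (X := fun _ => (1 : Matrix (Fin n) (Fin n) ℂ)) (u := fun s => (ex s : ℂ)) (fun i j => ?_)
          (fun i j => hasDerivAt_const s _) (Complex.hasDerivAt_exp s) i j
        simp only [sc_val, ex_val]
        rw [Matrix.smul_mul, Matrix.one_mul, Matrix.smul_apply, Matrix.smul_apply, smul_eq_mul,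
          smul_eq_mul]
        have h1 : HasDerivAt (fun s : ℂ => Complex.exp (s / 2)) (Complex.exp (s / 2) * (1 / 2)) s :=
          (Complex.hasDerivAt_exp (s / 2)).comp s ((hasDerivAt_id s).div_const 2)
        have h2 := h1.mul_const ((1 : Matrix (Ix g) (Ix g) ℂ) i j)
        have e : Complex.exp (s / 2) * (1 / 2) * (1 : Matrix (Ix g) (Ix g) ℂ) i j =
            (2 : ℂ)⁻¹ * (Complex.exp (s / 2) * (1 : Matrix (Ix g) (Ix g) ℂ) i j) := by ring
        rw [e] at h2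
        exact h2
  obtain ⟨⟨x, hx⟩, hy1, hy2, hy3⟩ := hy
  have hyx : y.2.1 = cg hS.onto hP' (fun k => (x k).1) := Units.ext hx
  obtain ⟨a, ha⟩ := hall x
  obtain ⟨w, hw⟩ : ∃ w : ℂ, Complex.exp w = y.2.2 := by
    have h1 : (y.2.2 : ℂ) ∈ Set.range Complex.exp := by
      rw [Complex.range_exp]
      exact y.2.2.ne_zero
    exact h1
  have hw' : ex w = y.2.2 := Units.ext hw
  have hy0 : y ∈ G0 B (EndAlg c.1) A.psi := ⟨hy1, hy2, hy3⟩
  obtain ⟨y1, hy1d⟩ : ∃ y1 : Grp3 g n, y1 = (sc (ex (w / 2)), 1, ex w) *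
    (a, cg hS.onto hP' (fun k => (x k).1), 1) := ⟨_, rfl⟩
  have hy1G : y1 ∈ GG := by
    rw [hy1d]
    exact GG.mul_mem (hexp w) ha
  have hy12 : y1.2 = y.2 := by
    rw [hy1d]
    refine Prod.ext ?_ ?_
    · change 1 * cg hS.onto hP' (fun k => (x k).1) = y.2.1
      rw [one_mul, hyx]
    · change ex w * 1 = y.2.2
      rw [mul_one, hw']
  obtain ⟨v, hv⟩ : ∃ v : Grp3 g n, v = y * y1⁻¹ := ⟨_, rfl⟩
  have hv0 : v ∈ G0 B (EndAlg c.1) A.psi := by
    rw [hv]
    exact (G0 B (EndAlg c.1) A.psi).mul_mem hy0 ((G0 B (EndAlg c.1) A.psi).inv_mem hy1G.1)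
  have hv2 : v.2 = 1 := by
    rw [hv, Prod.snd_mul, Prod.snd_inv, hy12, mul_inv_cancel]
  have hv21 : v.2.1.1 = 1 := by
    rw [hv2]
    rfl
  have hv22 : (v.2.2 : ℂ) = 1 := by
    rw [hv2]
    rfl
  obtain ⟨hv1, hvE, hvψ⟩ := hv0
  obtain ⟨s, hs⟩ := hSc g N n A c t qdR qB B E κ m P lam hK hS v.1.1 (fun j => by
      have h1 := hv1 j
      rwa [hv21, sum_one] at h1) (fun Z hZ => hvE Z (hE Z hZ))
  have hψ0 : A.psi ≠ 0 := by
    intro h0
    have h1 : A.psi.det ≠ 0 := hJ.det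
    have hne : Nonempty (Ix g) := ⟨Sum.inl ⟨0, hK.pos⟩⟩
    rw [h0, Matrix.det_zero] at h1
    exact h1 rfl
  have hss : s * s = 1 := by
    rw [hs, hv22, one_smul, Matrix.transpose_smul, Matrix.transpose_one, Matrix.smul_mul,
      Matrix.one_mul, Matrix.mul_smul, Matrix.mul_one, smul_smul] at hvψ
    obtain ⟨i, j, hij⟩ : ∃ i j, A.psi i j ≠ 0 := by
      by_contra hne
      push Not at hne
      exact hψ0 (Matrix.ext hne)
    have h1 := congrFun (congrFun hvψ i) j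
    rw [Matrix.smul_apply, smul_eq_mul] at h1
    have h2 : cx A.psi i j ≠ 0 := by
      change ((A.psi i j : ℚ) : ℂ) ≠ 0
      exact_mod_cast hij
    exact mul_right_cancel₀ h2 (h1.trans (one_mul _).symm)
  have hvG : v ∈ GG := by
    rcases mul_self_eq_one_iff.1 hss with h1 | h1
    · have e : v = 1 := by
        refine Prod.ext (Units.ext ?_) hv2
        change v.1.1 = 1
        rw [hs, h1, one_smul]
      rw [e]
      exact GG.one_mem
    · have e : v = (sc (ex ((2 * Real.pi * Complex.I) / 2)), 1, ex (2 * Real.pi * Complex.I)) := by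
        refine Prod.ext (Units.ext ?_) ?_
        · change v.1.1 = (ex ((2 * Real.pi * Complex.I) / 2) : ℂ) • 1
          have e1 : (2 * Real.pi * Complex.I) / 2 = Real.pi * Complex.I := by ring
          rw [hs, h1, e1, ex_val, Complex.exp_pi_mul_I]
        · rw [hv2]
          refine Prod.ext rfl (Units.ext ?_)
          change (1 : ℂ) = ex (2 * Real.pi * Complex.I)
          rw [ex_val, Complex.exp_two_pi_mul_I]
      rw [e]
      exact hexp _
  have hyG : y ∈ GG := by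
    have e : y = v * y1 := by
      rw [hv, inv_mul_cancel_right]
    rw [e]
    exact GG.mul_mem hvG hy1G
  have h1 : bd3 y ∈ stab T := hyG.2
  rw [map_mul]
  exact (h1 _ htT).1

end Pool.Agent.Lib.MPf11a48.K3
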