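import Pool.Agent.Lib.MP_f11a48_ag.K3.KBr

/-! # KINJ: products of Clifford operators of alternating tensors -/

set_option autoImplicit false

namespace Pool.Agent.Lib.MPf11a48.K3

namespace KInjM

open InvM

/-- the alternating sum of contractions -/
theorem comm {A : Type} [Ring A] {m : ℕ} (γ : Fin m → A)
    (hγ : ∀ i j, γ i * γ j + γ j * γ i = if i = j then 1 else 0) (k : Fin m) :
    ∀ {j : ℕ} (I : Fin (j + 1) → Fin m), γ k * G (fun a => γ (I a)) =
      (-1) ^ (j + 1) * (G (fun a => γ (I a)) * γ k) +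
      ∑ a : Fin (j + 1), (-1) ^ (a : ℕ) * ((if k = I a then 1 else 0) *
        G (fun b => γ (I (a.succAbove b))))
  | 0, I => by
    rw [G_succ, G_zero, mul_one, Fin.sum_univ_succ, Finset.univ_eq_empty, Finset.sum_empty, add_zero,
      G_zero, mul_one, ← hγ k (I 0)]
    simp
  | j + 1, I => by
    rw [Fin.sum_univ_succ, G_succ]
    have ih := comm γ hγ k (fun a : Fin (j + 1) => I a.succ)
    have h1 : γ k * γ (I 0) = (if k = I 0 then 1 else 0) - γ (I 0) * γ k :=
      eq_sub_of_add_eq (hγ k (I 0))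
    have h2 : ∀ a : Fin (j + 1), G (fun b => γ (I (a.succ.succAbove b))) =
        γ (I 0) * G (fun b => γ (I (a.succAbove b).succ)) := by
      intro a
      rw [G_succ]
      simp only [Fin.succ_succAbove_zero, Fin.succ_succAbove_succ]
    have h3 : ∀ a : Fin (j + 1), (-1 : A) ^ ((a.succ : Fin (j + 2)) : ℕ) *
        ((if k = I a.succ then 1 else 0) * G (fun b => γ (I (a.succ.succAbove b)))) =
        -(γ (I 0) * ((-1) ^ (a : ℕ) * ((if k = I a.succ then 1 else 0) *
          G (fun b => γ (I (a.succAbove b).succ))))) := by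
      intro a
      rw [h2, Fin.val_succ, pow_succ]
      have hc : ∀ x : A, (-1 : A) ^ (a : ℕ) * x = x * (-1) ^ (a : ℕ) := by
        intro x
        exact (((Commute.one_left x).neg_left).pow_left _).eq
      by_cases h : k = I a.succ
      · rw [if_pos h, one_mul, one_mul, ← mul_assoc (γ (I 0)), ← hc (γ (I 0))]
        noncomm_ring
      · rw [if_neg h]
        simp
    rw [Finset.sum_congr rfl fun a _ => h3 a, Finset.sum_neg_distrib, ← Finset.mul_sum]
    have h4 : ∑ a : Fin (j + 1), (-1 : A) ^ (a : ℕ) * ((if k = I a.succ then 1 else 0) *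
          G (fun b => γ (I (a.succAbove b).succ))) =
        γ k * G (fun a => γ (I a.succ)) - (-1) ^ (j + 1) * (G (fun a => γ (I a.succ)) * γ k) := by
      rw [ih]
      abel
    rw [h4, ← mul_assoc, h1]
    have hc : ∀ x : A, (-1 : A) ^ (j + 1) * x = x * (-1) ^ (j + 1) := by
      intro x
      exact (((Commute.one_left x).neg_left).pow_left _).eq
    simp only [Fin.val_zero, pow_zero, one_mul, Fin.zero_succAbove]
    rw [pow_succ (-1 : A) (j + 1), mul_assoc ((-1 : A) ^ (j + 1)), hc, hc]
    noncomm_ring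

theorem cons_cycle {m j : ℕ} (a : Fin (j + 1)) (k : Fin m) (J : Fin j → Fin m) :
    (Fin.insertNth a k J : Fin (j + 1) → Fin m) = (Fin.cons k J : Fin (j + 1) → Fin m) ∘ a.cycleRange := by
  funext b
  rcases Fin.eq_self_or_eq_succAbove a b with h | ⟨c, h⟩
  · subst h
    rw [Function.comp_apply, Fin.cycleRange_self, Fin.cons_zero, Fin.insertNth_apply_same]
  · subst h
    rw [Function.comp_apply, Fin.cycleRange_succAbove, Fin.cons_succ, Fin.insertNth_apply_succAbove]

/-- extension of a permutation of `Fin j` by a fixed point -/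
theorem cons_perm {m j : ℕ} (σ : Equiv.Perm (Fin j)) (k : Fin m) (J : Fin j → Fin m) :
    (Fin.cons k (J ∘ σ) : Fin (j + 1) → Fin m) =
      (Fin.cons k J : Fin (j + 1) → Fin m) ∘ (Equiv.Perm.decomposeFin.symm (0, σ)) := by
  funext b
  refine Fin.cases ?_ (fun c => ?_) b
  · rw [Function.comp_apply, Equiv.Perm.decomposeFin_symm_apply_zero, Fin.cons_zero, Fin.cons_zero]
  · rw [Function.comp_apply, Equiv.Perm.decomposeFin_symm_apply_succ, Equiv.swap_self,
      Equiv.refl_apply, Fin.cons_succ, Fin.cons_succ, Function.comp_apply]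

theorem alt_cons {m j : ℕ} (w : (Fin (j + 1) → Fin m) → ℂ) (hw : Alt w) (k : Fin m) :
    Alt (fun J : Fin j → Fin m => w (Fin.cons k J)) := by
  intro σ J
  simp only
  rw [cons_perm, hw, Equiv.Perm.decomposeFin.symm_sign, if_pos rfl, one_mul]

theorem contract {ι : Type} [Fintype ι] [DecidableEq ι] {m j : ℕ} (γ : Fin m → Matrix ι ι ℂ)
    (hγ : ∀ i j, γ i * γ j + γ j * γ i = if i = j then 1 else 0)
    (w : (Fin (j + 1) → Fin m) → ℂ) (hw : Alt w) (k : Fin m) :
    γ k * bt γ w = (-1) ^ (j + 1) * (bt γ w * γ k) +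
      ((j + 1 : ℕ) : ℂ) • bt γ (fun J : Fin j → Fin m => w (Fin.cons k J)) := by
  have h1 : γ k * bt γ w = (-1) ^ (j + 1) * (bt γ w * γ k) +
      ∑ I, w I • ∑ a : Fin (j + 1), (-1) ^ (a : ℕ) * ((if k = I a then 1 else 0) *
        G (fun b => γ (I (a.succAbove b)))) := by
    rw [KBrM.bt_eq, Finset.mul_sum, Finset.sum_mul, Finset.mul_sum, ← Finset.sum_add_distrib]
    refine Finset.sum_congr rfl fun I _ => ?_
    rw [mul_smul_comm, comm γ hγ k I, smul_add, smul_mul_assoc, mul_smul_comm]
  rw [h1]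
  congr 1
  simp only [Finset.smul_sum]
  rw [Finset.sum_comm]
  have h2 : ∀ a : Fin (j + 1), ∑ I : Fin (j + 1) → Fin m, w I • ((-1 : Matrix ι ι ℂ) ^ (a : ℕ) *
      ((if k = I a then 1 else 0) * G (fun b => γ (I (a.succAbove b))))) =
      bt γ (fun J : Fin j → Fin m => w (Fin.cons k J)) := by
    intro a
    rw [← Equiv.sum_comp (Fin.insertNthEquiv (fun _ => Fin m) a), Fintype.sum_prod_type]
    have h3 : ∀ (x : Fin m) (J : Fin j → Fin m),
        w ((Fin.insertNthEquiv (fun _ => Fin m) a) (x, J)) • ((-1 : Matrix ι ι ℂ) ^ (a : ℕ) *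
        ((if k = (Fin.insertNthEquiv (fun _ => Fin m) a) (x, J) a then 1 else 0) *
        G (fun b => γ ((Fin.insertNthEquiv (fun _ => Fin m) a) (x, J) (a.succAbove b))))) =
        if k = x then w (Fin.cons x J) • G (fun b => γ (J b)) else 0 := by
      intro x J
      have e1 : (Fin.insertNthEquiv (fun _ => Fin m) a) (x, J) =
        (Fin.insertNth a x J : Fin (j + 1) → Fin m) := rfl
      have e2 : w (Fin.insertNth a x J : Fin (j + 1) → Fin m) = (-1) ^ (a : ℕ) * w (Fin.cons x J) := by
        rw [cons_cycle, hw, Fin.sign_cycleRange]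
        push_cast
        rfl
      rw [e1, e2, Fin.insertNth_apply_same]
      simp only [Fin.insertNth_apply_succAbove]
      by_cases hx : k = x
      · rw [if_pos hx, if_pos hx, one_mul]
        have e3 : (-1 : Matrix ι ι ℂ) ^ (a : ℕ) = ((-1 : ℂ) ^ (a : ℕ)) • 1 := by
          have e4 : (-1 : Matrix ι ι ℂ) = (-1 : ℂ) • 1 := by
            rw [neg_smul, one_smul]
          rw [e4, smul_pow, one_pow]
        rw [e3, smul_mul_assoc, one_mul, smul_smul, mul_comm, ← mul_assoc, ← pow_add, ← two_mul,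
          pow_mul]
        norm_num
      · rw [if_neg hx, if_neg hx, zero_mul, mul_zero, smul_zero]
    rw [Finset.sum_congr rfl fun x _ => Finset.sum_congr rfl fun J _ => h3 x J]
    rw [Finset.sum_comm]
    rw [KBrM.bt_eq]
    refine Finset.sum_congr rfl fun J _ => ?_
    rw [Finset.sum_ite_eq Finset.univ k, if_pos (Finset.mem_univ _)]
  rw [Finset.sum_congr rfl fun a _ => h2 a, Finset.sum_const, Finset.card_univ, Fintype.card_fin,
    Nat.cast_smul_eq_nsmul]

end KInjM

open KInjM in
theorem specKInj : SpecKInj := by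
  intro ι _ _ _ m j γ hγ w hw h0
  induction j with
  | zero =>
    rw [KBrM.bt_eq, Fintype.sum_unique, InvM.G_zero] at h0
    funext I
    rw [Subsingleton.elim I default]
    by_contra h
    exact one_ne_zero ((smul_eq_zero.1 h0).resolve_left h)
  | succ j ih =>
    have h1 : ∀ k, (fun J : Fin j → Fin m => w (Fin.cons k J)) = 0 := by
      intro k
      refine ih _ (alt_cons w hw k) ?_
      have h2 := contract γ hγ w hw k
      rw [h0, mul_zero, zero_mul, mul_zero, zero_add] at h2
      have h3 : ((j + 1 : ℕ) : ℂ) ≠ 0 := by exact_mod_cast Nat.succ_ne_zero j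
      exact (smul_eq_zero.1 h2.symm).resolve_left h3
    funext I
    have h2 := congrFun (h1 (I 0)) (fun a => I a.succ)
    have h3 : (Fin.cons (I 0) (fun a : Fin j => I a.succ) : Fin (j + 1) → Fin m) = I :=
      Fin.cons_self_tail I
    rw [h3] at h2
    exact h2

end Pool.Agent.Lib.MPf11a48.K3
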