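import Pool.Agent.Lib.MP_f11a48_ag.K3.KSpec

/-! # Module KIRR: irreducibility from the absence of invariants in the exterior powers -/

set_option autoImplicit false

namespace Pool.Agent.Lib.MPf11a48.K3

open Matrix MvPolynomial

namespace KIrrM

variable {m d : ℕ}

/-- the tensor of the maximal minors of a matrix -/
noncomputable def minors (B : Matrix (Fin d) (Fin m) ℂ) (I : Fin d → Fin m) : ℂ :=
  (Matrix.of fun a c => B a (I c)).det

theorem alt_minors (B : Matrix (Fin d) (Fin m) ℂ) : Alt (minors B) := by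
  intro σ I
  have h := Matrix.det_permute' σ (Matrix.of fun a c => B a (I c))
  exact h

/-- the action of a matrix on the minors is given by the trace -/
theorem actT_minors (B : Matrix (Fin d) (Fin m) ℂ) (X : Matrix (Fin m) (Fin m) ℂ)
    (A : Matrix (Fin d) (Fin d) ℂ) (h : B * Xᵀ = A * B) :
    actT X (minors B) = fun I => A.trace * minors B I := by
  funext I
  set N : Matrix (Fin d) (Fin d) ℂ := Matrix.of fun a c => B a (I c) with hN
  have h1 : ∀ a k, minors B (Function.update I a k) =
      (N.adjugate *ᵥ fun i => B i k) a := by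
    intro a k
    rw [← Matrix.cramer_eq_adjugate_mulVec, Matrix.cramer_apply]
    unfold minors
    congr 1
    ext i c
    rw [Matrix.updateCol_apply, Matrix.of_apply, hN, Matrix.of_apply]
    by_cases hc : c = a
    · rw [if_pos hc, hc, Function.update_self]
    · rw [if_neg hc, Function.update_of_ne hc]
  have h2 : ∀ a, ∑ k, X (I a) k * minors B (Function.update I a k) = (N.adjugate * (A * N)) a a := by
    intro a
    simp only [h1]
    rw [Matrix.mul_apply]
    simp only [Matrix.mulVec, dotProduct, Finset.mul_sum]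
    rw [Finset.sum_comm]
    refine Finset.sum_congr rfl fun i _ => ?_
    have h3 : (A * N) i a = (A * B) i (I a) := by
      rw [Matrix.mul_apply, Matrix.mul_apply]
      rfl
    rw [h3, ← h, Matrix.mul_apply, Finset.mul_sum]
    refine Finset.sum_congr rfl fun k _ => ?_
    rw [Matrix.transpose_apply]
    ring
  unfold actT
  simp only [h2]
  change (N.adjugate * (A * N)).trace = A.trace * minors B I
  rw [Matrix.trace_mul_comm, Matrix.mul_assoc, Matrix.mul_adjugate, Matrix.mul_smul, Matrix.mul_one,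
    Matrix.trace_smul, smul_eq_mul, mul_comm]
  rfl

/-- the Gram determinant from the minors -/
theorem det_gram (B : Matrix (Fin d) (Fin m) ℂ) :
    (B * Bᵀ).det = ∑ I : Fin d → Fin m, (∏ c, B c (I c)) * minors B I := by
  have h1 : (B * Bᵀ).det =
      Matrix.detRowAlternating fun c => ∑ k, (B c k) • (fun a => B a k) := by
    change (B * Bᵀ).det = Matrix.det (fun c => ∑ k, (B c k) • (fun a => B a k))
    congr 1
    funext c a
    rw [Matrix.mul_apply, Finset.sum_apply]
    refine Finset.sum_congr rfl fun k _ => ?_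
    rw [Pi.smul_apply, smul_eq_mul, Matrix.transpose_apply]
  rw [h1]
  have h2 := (Matrix.detRowAlternating (R := ℂ) (n := Fin d)).toMultilinearMap.map_sum
    (fun c k => (B c k) • (fun a => B a k))
  refine h2.trans (Finset.sum_congr rfl fun I _ => ?_)
  have h3 := (Matrix.detRowAlternating (R := ℂ) (n := Fin d)).toMultilinearMap.map_smul_univ
    (fun c => B c (I c)) (fun c a => B a (I c))
  refine h3.trans ?_
  rw [smul_eq_mul]
  congr 1
  unfold minors
  rw [← Matrix.det_transpose]
  rfl

end KIrrM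

/-- Module KIRR. -/
theorem specKIrr : SpecKIrr := by
  intro m g hskew hno hiso W hW
  by_contra hcon
  rw [not_or] at hcon
  obtain ⟨h0, h1⟩ := hcon
  have hdot : ∀ X ∈ g, ∀ v w : Fin m → ℂ, (X *ᵥ v) ⬝ᵥ w = -(v ⬝ᵥ (X *ᵥ w)) := by
    intro X hX v w
    rw [Matrix.dotProduct_mulVec, ← Matrix.mulVec_transpose, hskew X hX, Matrix.neg_mulVec,
      neg_dotProduct, neg_neg]
  have hnd : ∀ v ∈ W, (∀ w ∈ W, v ⬝ᵥ w = 0) → v = 0 := by
    let R : Submodule ℂ (Fin m → ℂ) :=
      { carrier := {v | v ∈ W ∧ ∀ w ∈ W, v ⬝ᵥ w = 0}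
        add_mem' := fun {a b} ha hb => ⟨W.add_mem ha.1 hb.1, fun w hw => by
          rw [add_dotProduct, ha.2 w hw, hb.2 w hw, add_zero]⟩
        zero_mem' := ⟨W.zero_mem, fun w _ => zero_dotProduct w⟩
        smul_mem' := fun t a ha => ⟨W.smul_mem t ha.1, fun w hw => by
          rw [smul_dotProduct, ha.2 w hw, smul_zero]⟩ }
    have hR := hiso R (fun X hX v hv => ⟨hW X hX v hv.1, fun w hw => by
      rw [hdot X hX, hv.2 _ (hW X hX w hw), neg_zero]⟩) fun v hv w hw => hv.2 w hw.1
    intro v hv hvw
    have : v ∈ R := ⟨hv, hvw⟩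
    rw [hR] at this
    exact (Submodule.mem_bot ℂ).1 this
  set d := Module.finrank ℂ W with hd
  have hd0 : 0 < d := by
    rw [Nat.pos_iff_ne_zero]
    intro h
    exact h0 (Submodule.finrank_eq_zero.1 h)
  have hdm : d < m := by
    have h2 := Submodule.finrank_lt h1
    rwa [Module.finrank_fin_fun] at h2
  let b : Module.Basis (Fin d) ℂ W := Module.finBasis ℂ W
  let B : Matrix (Fin d) (Fin m) ℂ := fun a k => (b a : Fin m → ℂ) k
  have hG : (B * Bᵀ).det ≠ 0 := by
    intro hdet
    obtain ⟨v, hv0, hv⟩ := Matrix.exists_mulVec_eq_zero_iff.2 hdet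
    apply hv0
    have hsum : (v ᵥ* B) = ((∑ i, v i • b i : W) : Fin m → ℂ) := by
      funext k
      rw [Submodule.coe_sum, Finset.sum_apply]
      rfl
    have h2 : v ᵥ* B = 0 := by
      refine hnd _ (by rw [hsum]; exact Subtype.property _) fun w hw => ?_
      -- `w` is a combination of the `b i`
      have hw2 : w = (b.repr ⟨w, hw⟩) ᵥ* B := by
        have h3 := congrArg (Subtype.val) (b.sum_repr ⟨w, hw⟩)
        rw [Submodule.coe_sum] at h3
        funext k
        have h4 := congrFun h3 k
        rw [Finset.sum_apply] at h4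
        exact h4.symm
      rw [hw2, dotProduct_comm, ← Matrix.dotProduct_mulVec, ← Matrix.mulVec_transpose,
        Matrix.mulVec_mulVec, hv, dotProduct_zero]
    have h5 : (∑ i, v i • b i : W) = 0 := by
      apply Subtype.ext
      rw [← hsum, h2]
      rfl
    have h6 := (Fintype.linearIndependent_iff.1 b.linearIndependent) v h5
    funext i
    exact h6 i
  have hact : ∀ X ∈ g, actT X (KIrrM.minors B) = 0 := by
    intro X hX
    let A : Matrix (Fin d) (Fin d) ℂ := fun i l => b.repr ⟨X *ᵥ (b i : Fin m → ℂ), hW X hX _ (b i).2⟩ l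
    have hAB : B * Xᵀ = A * B := by
      ext i k
      have h3 := congrArg (Subtype.val) (b.sum_repr ⟨X *ᵥ (b i : Fin m → ℂ), hW X hX _ (b i).2⟩)
      rw [Submodule.coe_sum] at h3
      have h4 := congrFun h3 k
      rw [Finset.sum_apply] at h4
      rw [Matrix.mul_apply, Matrix.mul_apply]
      refine Eq.trans ?_ h4.symm
      change _ = (X *ᵥ (b i : Fin m → ℂ)) k
      rw [Matrix.mulVec, dotProduct]
      exact Finset.sum_congr rfl fun l _ => mul_comm _ _
    have h3 : A * (B * Bᵀ) + (B * Bᵀ) * Aᵀ = 0 := by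
      have e1 : A * (B * Bᵀ) = B * Xᵀ * Bᵀ := by rw [hAB, Matrix.mul_assoc]
      have e2 : (B * Bᵀ) * Aᵀ = B * X * Bᵀ := by
        rw [Matrix.mul_assoc, ← Matrix.transpose_mul, ← hAB, Matrix.transpose_mul,
          Matrix.transpose_transpose, Matrix.mul_assoc]
      rw [e1, e2, hskew X hX, Matrix.mul_neg, Matrix.neg_mul, neg_add_cancel]
    have htr : A.trace = 0 := by
      have hu : IsUnit (B * Bᵀ).det := isUnit_iff_ne_zero.2 hG
      have e1 : A = -((B * Bᵀ) * Aᵀ * (B * Bᵀ)⁻¹) := by
        have e2 : A * (B * Bᵀ) = -((B * Bᵀ) * Aᵀ) := eq_neg_of_add_eq_zero_left h3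
        rw [← Matrix.neg_mul, ← e2, Matrix.mul_assoc, Matrix.mul_nonsing_inv _ hu, Matrix.mul_one]
      have e3 : A.trace = -A.trace := by
        conv_lhs => rw [e1]
        rw [Matrix.trace_neg, Matrix.mul_assoc, Matrix.trace_mul_comm, Matrix.mul_assoc,
          Matrix.nonsing_inv_mul _ hu, Matrix.mul_one, Matrix.trace_transpose]
      exact self_eq_neg.1 e3
    rw [KIrrM.actT_minors B X A hAB, htr]
    funext I
    exact zero_mul _
  have hzero := hno d hd0 hdm _ (KIrrM.alt_minors B) hact
  apply hG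
  rw [KIrrM.det_gram, hzero]
  simp

end Pool.Agent.Lib.MPf11a48.K3
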