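import Pool.Agent.Lib.MP_f11a48_ag.K3.KSpec

/-! # KISO: no isotropic stable subspaces -/

set_option autoImplicit false

namespace Pool.Agent.Lib.MPf11a48.K3

open Matrix

namespace KIsoM

variable {ι : Type} [Fintype ι] [DecidableEq ι] {m : ℕ}

/-- the Clifford operator of a vector -/
noncomputable def Gm (γ : Fin m → Matrix ι ι ℂ) (v : Fin m → ℂ) : Matrix ι ι ℂ := ∑ i, v i • γ i

omit [Fintype ι] [DecidableEq ι] in
theorem Gm_add (γ : Fin m → Matrix ι ι ℂ) (v w : Fin m → ℂ) : Gm γ (v + w) = Gm γ v + Gm γ w := by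
  simp only [Gm, Pi.add_apply, add_smul, Finset.sum_add_distrib]

omit [Fintype ι] [DecidableEq ι] in
theorem Gm_smul (γ : Fin m → Matrix ι ι ℂ) (c : ℂ) (v : Fin m → ℂ) : Gm γ (c • v) = c • Gm γ v := by
  simp only [Gm, Pi.smul_apply, smul_eq_mul, mul_smul, Finset.smul_sum]

omit [Fintype ι] [DecidableEq ι] in
theorem Gm_zero (γ : Fin m → Matrix ι ι ℂ) : Gm γ 0 = 0 := by
  simp [Gm]

theorem Gm_anti (γ : Fin m → Matrix ι ι ℂ)
    (hγ : ∀ i j, γ i * γ j + γ j * γ i = if i = j then 1 else 0) (v w : Fin m → ℂ) :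
    Gm γ v * Gm γ w + Gm γ w * Gm γ v = (v ⬝ᵥ w) • 1 := by
  have h1 : Gm γ v * Gm γ w = ∑ i, ∑ j, (v i * w j) • (γ i * γ j) := by
    rw [Gm, Gm, Finset.sum_mul]
    refine Finset.sum_congr rfl fun i _ => ?_
    rw [Finset.mul_sum]
    refine Finset.sum_congr rfl fun j _ => ?_
    rw [smul_mul_assoc, mul_smul_comm, smul_smul]
  have h2 : Gm γ w * Gm γ v = ∑ i, ∑ j, (v i * w j) • (γ j * γ i) := by
    rw [Finset.sum_comm, Gm, Gm, Finset.sum_mul]
    refine Finset.sum_congr rfl fun j _ => ?_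
    rw [Finset.mul_sum]
    refine Finset.sum_congr rfl fun i _ => ?_
    rw [smul_mul_assoc, mul_smul_comm, smul_smul, mul_comm (w j)]
  rw [h1, h2, ← Finset.sum_add_distrib, dotProduct, Finset.sum_smul]
  refine Finset.sum_congr rfl fun i _ => ?_
  rw [← Finset.sum_add_distrib]
  have h3 : ∀ j, (v i * w j) • (γ i * γ j) + (v i * w j) • (γ j * γ i) =
      if i = j then (v i * w j) • (1 : Matrix ι ι ℂ) else 0 := by
    intro j
    rw [← smul_add, hγ]
    split_ifs
    · rfl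
    · rw [smul_zero]
  rw [Finset.sum_congr rfl fun j _ => h3 j, Finset.sum_ite_eq Finset.univ i,
    if_pos (Finset.mem_univ _)]

theorem Gm_comm (γ : Fin m → Matrix ι ι ℂ) (X : Matrix ι ι ℂ) (ρ : Matrix (Fin m) (Fin m) ℂ)
    (h : ∀ j, X * γ j - γ j * X = ∑ i, ρ i j • γ i) (v : Fin m → ℂ) :
    X * Gm γ v - Gm γ v * X = Gm γ (ρ *ᵥ v) := by
  rw [Gm, Finset.mul_sum, Finset.sum_mul, ← Finset.sum_sub_distrib]
  have h1 : ∀ j, X * (v j • γ j) - (v j • γ j) * X = ∑ i, (ρ i j * v j) • γ i := by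
    intro j
    rw [mul_smul_comm, smul_mul_assoc, ← smul_sub, h j, Finset.smul_sum]
    refine Finset.sum_congr rfl fun i _ => ?_
    rw [smul_smul, mul_comm]
  rw [Finset.sum_congr rfl fun j _ => h1 j, Finset.sum_comm, Gm]
  refine Finset.sum_congr rfl fun i _ => ?_
  rw [mulVec, dotProduct, Finset.sum_smul]

/-- a nonzero common kernel of anticommuting operators of square zero -/
theorem exists_ker [Nonempty ι] (γ : Fin m → Matrix ι ι ℂ)
    (hγ : ∀ i j, γ i * γ j + γ j * γ i = if i = j then 1 else 0)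
    (W : Set (Fin m → ℂ)) (hW : ∀ v ∈ W, ∀ w ∈ W, v ⬝ᵥ w = 0) (S : Finset (Fin m → ℂ))
    (hS : ∀ v ∈ S, v ∈ W) : ∃ h : ι → ℂ, h ≠ 0 ∧ ∀ v ∈ S, Gm γ v *ᵥ h = 0 := by
  classical
  induction S using Finset.induction with
  | empty =>
    refine ⟨fun _ => 1, ?_, fun v hv => absurd hv (Finset.notMem_empty v)⟩
    intro h
    have h1 := congrFun h (Classical.arbitrary ι)
    exact one_ne_zero h1
  | insert v S hv ih =>
    obtain ⟨h, h0, h1⟩ := ih fun w hw => hS w (Finset.mem_insert_of_mem hw)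
    have hvW := hS v (Finset.mem_insert_self _ _)
    by_cases h2 : Gm γ v *ᵥ h = 0
    · refine ⟨h, h0, fun w hw => ?_⟩
      rcases Finset.mem_insert.1 hw with rfl | hw
      · exact h2
      · exact h1 w hw
    · refine ⟨Gm γ v *ᵥ h, h2, fun w hw => ?_⟩
      have h3 := Gm_anti γ hγ w v
      rcases Finset.mem_insert.1 hw with rfl | hw
      · rw [hW _ hvW _ hvW, zero_smul, ← two_mul] at h3
        have h4 : Gm γ w * Gm γ w = 0 := by
          have h5 : (2 : ℂ) • (Gm γ w * Gm γ w) = 0 := by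
            rw [← h3, two_mul, two_smul]
          exact (smul_eq_zero.1 h5).resolve_left two_ne_zero
        rw [mulVec_mulVec, h4, zero_mulVec]
      · rw [hW _ (hS w (Finset.mem_insert_of_mem hw)) _ hvW, zero_smul] at h3
        rw [mulVec_mulVec, eq_neg_of_add_eq_zero_left h3, neg_mulVec, ← mulVec_mulVec, h1 w hw,
          mulVec_zero, neg_zero]

/-- if `u ≠ 0`, `m ≥ 3`, then `u^⊥` is not totally isotropic -/
theorem exists_perp (hm : 3 ≤ m) (u : Fin m → ℂ) (hu : u ≠ 0) :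
    ∃ a b : Fin m → ℂ, u ⬝ᵥ a = 0 ∧ u ⬝ᵥ b = 0 ∧ a ⬝ᵥ b ≠ 0 := by
  obtain ⟨i, hi⟩ : ∃ i, u i ≠ 0 := by
    by_contra h
    push Not at h
    exact hu (funext h)
  obtain ⟨p, hp⟩ : ∃ p, p ≠ i := by
    by_contra h
    push Not at h
    have h1 := Finset.card_le_one.2 (fun a (_ : a ∈ (Finset.univ : Finset (Fin m))) b _ =>
      (h a).trans (h b).symm)
    rw [Finset.card_univ, Fintype.card_fin] at h1
    omega
  obtain ⟨q, hq, hq'⟩ : ∃ q, q ≠ i ∧ q ≠ p := by
    by_contra h
    push Not at h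
    have h1 : (Finset.univ : Finset (Fin m)) ⊆ {i, p} := by
      intro q _
      by_cases h2 : q = i
      · simp [h2]
      · simp [h q h2]
    have h2 := (Finset.card_le_card h1).trans Finset.card_le_two
    rw [Finset.card_univ, Fintype.card_fin] at h2
    omega
  set a : Fin m → ℂ := u i • Pi.single p 1 - u p • Pi.single i 1 with ha
  set b : Fin m → ℂ := u i • Pi.single q 1 - u q • Pi.single i 1 with hb
  have e1 : ∀ x y : Fin m, (Pi.single x (1 : ℂ) : Fin m → ℂ) ⬝ᵥ Pi.single y 1 = if x = y then 1 else 0 := by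
    intro x y
    rw [single_dotProduct, one_mul, Pi.single_apply]
  have ua : u ⬝ᵥ a = 0 := by
    rw [ha, dotProduct_sub, dotProduct_smul, dotProduct_smul, dotProduct_single, dotProduct_single]
    simp [mul_comm]
  have ub : u ⬝ᵥ b = 0 := by
    rw [hb, dotProduct_sub, dotProduct_smul, dotProduct_smul, dotProduct_single, dotProduct_single]
    simp [mul_comm]
  have aa : a ⬝ᵥ a = u i ^ 2 + u p ^ 2 := by
    rw [ha]
    simp only [dotProduct_sub, sub_dotProduct, dotProduct_smul, smul_dotProduct, e1, smul_eq_mul]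
    simp [hp, hp.symm]
    ring
  have bb : b ⬝ᵥ b = u i ^ 2 + u q ^ 2 := by
    rw [hb]
    simp only [dotProduct_sub, sub_dotProduct, dotProduct_smul, smul_dotProduct, e1, smul_eq_mul]
    simp [hq, hq.symm]
    ring
  have ab : a ⬝ᵥ b = u p * u q := by
    rw [ha, hb]
    simp only [dotProduct_sub, sub_dotProduct, dotProduct_smul, smul_dotProduct, e1, smul_eq_mul]
    simp [hp, hq.symm, hq'.symm]
    ring
  by_cases h1 : u p = 0
  · refine ⟨a, a, ua, ua, ?_⟩
    rw [aa, h1]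
    simpa using hi
  · by_cases h2 : u q = 0
    · refine ⟨b, b, ub, ub, ?_⟩
      rw [bb, h2]
      simpa using hi
    · refine ⟨a, b, ua, ub, ?_⟩
      rw [ab]
      exact mul_ne_zero h1 h2

end KIsoM

open KIsoM in
theorem specKIso : SpecKIso := by
  intro ι _ _ _ m γ kk hm hkk W hst hiso
  rw [Submodule.eq_bot_iff]
  intro u hu
  by_contra hu0
  -- the common kernel
  obtain ⟨S, hS⟩ := IsNoetherian.noetherian W
  obtain ⟨h, h0, hh⟩ := exists_ker γ hkk.cl (W : Set (Fin m → ℂ)) hiso S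
    (fun v hv => by rw [← hS]; exact Submodule.subset_span hv)
  let N : Submodule ℂ (ι → ℂ) :=
    { carrier := {h | ∀ w ∈ W, Gm γ w *ᵥ h = 0}
      add_mem' := by
        intro x y hx hy w hw
        rw [mulVec_add, hx w hw, hy w hw, add_zero]
      zero_mem' := fun w _ => mulVec_zero _
      smul_mem' := by
        intro c x hx w hw
        rw [mulVec_smul, hx w hw, smul_zero] }
  have hN : h ∈ N := by
    intro w hw
    rw [← hS] at hw
    induction hw using Submodule.span_induction with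
    | mem x hx => exact hh x hx
    | zero => rw [Gm_zero, zero_mulVec]
    | add x y _ _ hx hy => rw [Gm_add, add_mulVec, hx, hy, add_zero]
    | smul c x _ hx => rw [Gm_smul, smul_mulVec, hx, smul_zero]
  have hX : ∀ Y ∈ Algebra.adjoin ℂ (Prod.fst '' kk), ∀ x ∈ N, Y *ᵥ x ∈ N := by
    intro Y hY
    induction hY using Algebra.adjoin_induction with
    | mem Y hY =>
      obtain ⟨X, hX, rfl⟩ := hY
      intro x hx w hw
      have h1 := Gm_comm γ X.1 X.2 (hkk.act X hX) w
      have h2 : Gm γ w * X.1 = X.1 * Gm γ w - Gm γ (X.2 *ᵥ w) := by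
        rw [← h1]
        abel
      rw [mulVec_mulVec, h2, sub_mulVec, ← mulVec_mulVec, hx w hw, hx _ (hst X hX w hw), mulVec_zero,
        sub_zero]
    | algebraMap r =>
      intro x hx
      rw [Algebra.algebraMap_eq_smul_one, smul_mulVec, one_mulVec]
      exact N.smul_mem r hx
    | add Y Z _ _ hY hZ =>
      intro x hx
      rw [add_mulVec]
      exact N.add_mem (hY x hx) (hZ x hx)
    | mul Y Z _ _ hY hZ =>
      intro x hx
      rw [← mulVec_mulVec]
      exact hY _ (hZ x hx)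
  have hGG : ∀ a b : Fin m → ℂ, ∀ x ∈ N, (Gm γ a * Gm γ b) *ᵥ x ∈ N := by
    intro a b x hx
    have h1 : Gm γ a * Gm γ b ∈ Algebra.adjoin ℂ (Prod.fst '' kk) := by
      rw [Gm, Gm, Finset.sum_mul]
      refine Subalgebra.sum_mem _ fun i _ => ?_
      rw [Finset.mul_sum]
      refine Subalgebra.sum_mem _ fun j _ => ?_
      rw [smul_mul_assoc, mul_smul_comm]
      exact Subalgebra.smul_mem _ (Subalgebra.smul_mem _ (hkk.gen i j) _) _
    exact hX _ h1 x hx
  -- `Γ a h = 0` for `a ⊥ u`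
  have hperp : ∀ a : Fin m → ℂ, u ⬝ᵥ a = 0 → Gm γ a *ᵥ h = 0 := by
    intro a ha
    obtain ⟨i, hi⟩ : ∃ i, u i ≠ 0 := by
      by_contra hcon
      push Not at hcon
      exact hu0 (funext hcon)
    set b : Fin m → ℂ := (u i)⁻¹ • Pi.single i 1 with hb
    have hub : u ⬝ᵥ b = 1 := by
      rw [hb, dotProduct_smul, dotProduct_single, mul_one, smul_eq_mul, inv_mul_cancel₀ hi]
    have h1 := hGG a b h hN u hu
    have h2 : Gm γ u * (Gm γ a * Gm γ b) = -Gm γ a + Gm γ a * Gm γ b * Gm γ u := by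
      have e1 : Gm γ u * Gm γ a = -(Gm γ a * Gm γ u) := by
        have := Gm_anti γ hkk.cl u a
        rw [ha, zero_smul] at this
        exact eq_neg_of_add_eq_zero_left this
      have e2 : Gm γ u * Gm γ b = 1 - Gm γ b * Gm γ u := by
        have := Gm_anti γ hkk.cl u b
        rw [hub, one_smul] at this
        exact eq_sub_of_add_eq this
      rw [← mul_assoc, e1, neg_mul, mul_assoc, e2]
      noncomm_ring
    rw [mulVec_mulVec, h2, add_mulVec, ← mulVec_mulVec _ (Gm γ a * Gm γ b) (Gm γ u), hN u hu,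
      mulVec_zero, add_zero, neg_mulVec, neg_eq_zero] at h1
    exact h1
  obtain ⟨a, b, ha, hb, hab⟩ := exists_perp hm u hu0
  have h1 := Gm_anti γ hkk.cl a b
  have h2 : (a ⬝ᵥ b) • h = 0 := by
    have h3 : (Gm γ a * Gm γ b + Gm γ b * Gm γ a) *ᵥ h = (a ⬝ᵥ b) • h := by
      rw [h1, smul_mulVec, one_mulVec]
    rw [← h3, add_mulVec, ← mulVec_mulVec, ← mulVec_mulVec, hperp a ha, hperp b hb, mulVec_zero,
      mulVec_zero, add_zero]
  exact h0 ((smul_eq_zero.1 h2).resolve_left hab)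

end Pool.Agent.Lib.MPf11a48.K3
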