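import Pool.Agent.Lib.MP_f11a48_ag.K3.KSpec

/-!
# KLNK: no links between two anticommuting Clifford families
-/

set_option autoImplicit false

namespace Pool.Agent.Lib.MPf11a48.K3.KLnkM

open Matrix

section ring

variable {R : Type} [Ring R] [Algebra ℂ R]

/-- independence of the products `γ u * γ v` over the commutant, for skew coefficients -/
theorem indep {m : ℕ} (γ : Fin m → R)
    (hcl : ∀ i j, γ i * γ j + γ j * γ i = if i = j then 1 else 0) (P : Fin m → Fin m → R)
    (hP : ∀ u v k, P u v * γ k = γ k * P u v) (hsk : ∀ u v, P v u = -P u v)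
    (h0 : ∑ u, ∑ v, γ u * γ v * P u v = 0) (k l : Fin m) : P k l = 0 := by
  have h1 : ∑ v, γ v * P k v = 0 := by
    have e1 : γ k * (∑ u, ∑ v, γ u * γ v * P u v) - (∑ u, ∑ v, γ u * γ v * P u v) * γ k =
        ∑ u, ∑ v, ((if k = u then (1 : R) else 0) * γ v - γ u * (if k = v then (1 : R) else 0)) *
          P u v := by
      simp only [Finset.mul_sum, Finset.sum_mul, ← Finset.sum_sub_distrib]
      refine Finset.sum_congr rfl fun u _ => Finset.sum_congr rfl fun v _ => ?_
      rw [← hcl k u, ← hcl k v, mul_assoc (γ u * γ v), hP]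
      noncomm_ring
    rw [h0, mul_zero, zero_mul, sub_zero] at e1
    have e2 : ∑ u, ∑ v, ((if k = u then (1 : R) else 0) * γ v -
        γ u * (if k = v then (1 : R) else 0)) * P u v = (2 : ℂ) • ∑ v, γ v * P k v := by
      simp only [sub_mul, Finset.sum_sub_distrib]
      have e3 : ∑ u, ∑ v, (if k = u then (1 : R) else 0) * γ v * P u v = ∑ v, γ v * P k v := by
        rw [Finset.sum_eq_single k]
        · simp
        · intro u _ hu
          simp [Ne.symm hu]
        · simp
      have e4 : ∑ u, ∑ v, γ u * (if k = v then (1 : R) else 0) * P u v =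
          -∑ v, γ v * P k v := by
        rw [← Finset.sum_neg_distrib]
        refine Finset.sum_congr rfl fun u _ => ?_
        rw [Finset.sum_eq_single k]
        · rw [if_pos rfl, mul_one, hsk k u, mul_neg]
        · intro v _ hv
          simp [Ne.symm hv]
        · simp
      rw [e3, e4, sub_neg_eq_add, two_smul]
    rw [e2] at e1
    exact (smul_eq_zero.1 e1.symm).resolve_left two_ne_zero
  have h2 : γ l * (∑ v, γ v * P k v) + (∑ v, γ v * P k v) * γ l = P k l := by
    have e1 : γ l * (∑ v, γ v * P k v) + (∑ v, γ v * P k v) * γ l =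
        ∑ v, (if l = v then (1 : R) else 0) * P k v := by
      simp only [Finset.mul_sum, Finset.sum_mul, ← Finset.sum_add_distrib]
      refine Finset.sum_congr rfl fun v _ => ?_
      rw [← hcl l v, mul_assoc (γ v), hP]
      noncomm_ring
    rw [e1]
    simp
  rw [← h2, h1, mul_zero, zero_mul, add_zero]

/-- the map `Y ↦ ∑ Y u v γ u γ v` -/
noncomputable def Γ {m : ℕ} (γ : Fin m → R) : Matrix (Fin m) (Fin m) ℂ →ₗ[ℂ] R where
  toFun Y := ∑ u, ∑ v, Y u v • (γ u * γ v)
  map_add' Y Z := by
    simp only [Matrix.add_apply, add_smul, Finset.sum_add_distrib]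
  map_smul' t Y := by
    simp only [Matrix.smul_apply, smul_eq_mul, mul_smul, Finset.smul_sum, RingHom.id_apply]

theorem Γ_apply {m : ℕ} (γ : Fin m → R) (Y : Matrix (Fin m) (Fin m) ℂ) :
    Γ γ Y = ∑ u, ∑ v, Y u v • (γ u * γ v) := rfl

theorem Γ_single {m : ℕ} (γ : Fin m → R) (i j : Fin m) :
    Γ γ (Matrix.single i j 1) = γ i * γ j := by
  rw [Γ_apply, Finset.sum_eq_single i, Finset.sum_eq_single j]
  · simp
  · intro v _ hv
    rw [Matrix.single_apply, if_neg (by rintro ⟨-, h⟩; exact hv h.symm), zero_smul]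
  · simp
  · intro u _ hu
    refine Finset.sum_eq_zero fun v _ => ?_
    rw [Matrix.single_apply, if_neg (by rintro ⟨h, -⟩; exact hu h.symm), zero_smul]
  · simp

/-- Leibniz rule -/
theorem Γ_leib {m : ℕ} (γ : Fin m → R) (X : R) (ρ : Matrix (Fin m) (Fin m) ℂ) (hρ : ρᵀ = -ρ)
    (hX : ∀ j, X * γ j - γ j * X = ∑ i, ρ i j • γ i) (Y : Matrix (Fin m) (Fin m) ℂ) :
    X * Γ γ Y - Γ γ Y * X = Γ γ (ρ * Y - Y * ρ) := by
  have hs : ∀ a b, ρ a b = -ρ b a := by
    intro a b
    have := congrFun (congrFun hρ b) a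
    rw [Matrix.transpose_apply, Matrix.neg_apply] at this
    exact this
  have h1 : X * Γ γ Y - Γ γ Y * X =
      ∑ u, ∑ v, ∑ a, (Y u v * ρ a u) • (γ a * γ v) +
        ∑ u, ∑ v, ∑ a, (Y u v * ρ a v) • (γ u * γ a) := by
    rw [Γ_apply]
    simp only [Finset.mul_sum, Finset.sum_mul, ← Finset.sum_sub_distrib, ← Finset.sum_add_distrib]
    refine Finset.sum_congr rfl fun u _ => Finset.sum_congr rfl fun v _ => ?_
    have e1 : X * Y u v • (γ u * γ v) - Y u v • (γ u * γ v) * X =
        Y u v • ((X * γ u - γ u * X) * γ v + γ u * (X * γ v - γ v * X)) := by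
      rw [mul_smul_comm, smul_mul_assoc, ← smul_sub]
      congr 1
      noncomm_ring
    rw [e1, hX, hX, Finset.sum_mul, Finset.mul_sum, ← Finset.sum_add_distrib, Finset.smul_sum]
    refine Finset.sum_congr rfl fun a _ => ?_
    rw [smul_mul_assoc, mul_smul_comm, smul_add, smul_smul, smul_smul]
  rw [h1, Γ_apply]
  simp only [Matrix.sub_apply, Matrix.mul_apply, sub_smul, Finset.sum_smul, Finset.sum_sub_distrib]
  rw [sub_eq_add_neg]
  congr 1
  · calc ∑ u, ∑ v, ∑ a, (Y u v * ρ a u) • (γ a * γ v)
        = ∑ u, ∑ a, ∑ v, (Y u v * ρ a u) • (γ a * γ v) :=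
          Finset.sum_congr rfl fun u _ => Finset.sum_comm
      _ = ∑ a, ∑ u, ∑ v, (Y u v * ρ a u) • (γ a * γ v) := Finset.sum_comm
      _ = ∑ a, ∑ v, ∑ u, (Y u v * ρ a u) • (γ a * γ v) :=
          Finset.sum_congr rfl fun a _ => Finset.sum_comm
      _ = _ := by
          refine Finset.sum_congr rfl fun a _ => Finset.sum_congr rfl fun v _ =>
            Finset.sum_congr rfl fun u _ => ?_
          rw [mul_comm]
  · simp only [← Finset.sum_neg_distrib]
    refine Finset.sum_congr rfl fun u _ => ?_
    rw [Finset.sum_comm]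
    refine Finset.sum_congr rfl fun a _ => Finset.sum_congr rfl fun v _ => ?_
    rw [hs a v, mul_neg, neg_smul]

theorem comm_single {m : ℕ} (ρ : Matrix (Fin m) (Fin m) ℂ) (i j : Fin m) :
    ρ * Matrix.single i j 1 - Matrix.single i j 1 * ρ =
      ∑ p, ρ p i • Matrix.single p j (1 : ℂ) - ∑ p, ρ j p • Matrix.single i p (1 : ℂ) := by
  ext a b
  rw [Matrix.sub_apply, Matrix.sub_apply, Matrix.sum_apply, Matrix.sum_apply,
    Matrix.mul_apply, Matrix.mul_apply]
  simp only [Matrix.smul_apply, Matrix.single_apply, smul_eq_mul]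
  have a1 : ∑ p, ρ a p * (if i = p ∧ j = b then (1 : ℂ) else 0) =
      if j = b then ρ a i else 0 := by
    rw [Finset.sum_eq_single i]
    · simp
    · intro p _ hp
      simp [Ne.symm hp]
    · simp
  have a2 : ∑ p, (if i = a ∧ j = p then (1 : ℂ) else 0) * ρ p b =
      if i = a then ρ j b else 0 := by
    rw [Finset.sum_eq_single j]
    · simp
    · intro p _ hp
      simp [Ne.symm hp]
    · simp
  have a3 : ∑ p, ρ p i * (if p = a ∧ j = b then (1 : ℂ) else 0) =
      if j = b then ρ a i else 0 := by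
    rw [Finset.sum_eq_single a]
    · simp
    · intro p _ hp
      simp [hp]
    · simp
  have a4 : ∑ p, ρ j p * (if i = a ∧ p = b then (1 : ℂ) else 0) =
      if i = a then ρ j b else 0 := by
    rw [Finset.sum_eq_single b]
    · simp
    · intro p _ hp
      simp [hp]
    · simp
  rw [a1, a2, a3, a4]

/-- invariance of `∑ E_uv ⊗ E_uv` -/
theorem casimir {m : ℕ} (ρ : Matrix (Fin m) (Fin m) ℂ) (hρ : ρᵀ = -ρ)
    (b : Matrix (Fin m) (Fin m) ℂ →ₗ[ℂ] Matrix (Fin m) (Fin m) ℂ →ₗ[ℂ] R) :
    ∑ u, ∑ v, b (ρ * Matrix.single u v 1 - Matrix.single u v 1 * ρ) (Matrix.single u v 1) +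
      ∑ u, ∑ v, b (Matrix.single u v 1) (ρ * Matrix.single u v 1 - Matrix.single u v 1 * ρ) =
      0 := by
  have hs : ∀ a b, ρ a b = -ρ b a := by
    intro a b
    have := congrFun (congrFun hρ b) a
    rw [Matrix.transpose_apply, Matrix.neg_apply] at this
    exact this
  simp only [comm_single, map_sub, LinearMap.sub_apply, map_sum, LinearMap.sum_apply, map_smul,
    LinearMap.smul_apply, Finset.sum_sub_distrib]
  have h1 : ∑ u, ∑ v, ∑ p, ρ p u • b (Matrix.single u v 1) (Matrix.single p v 1) =
      -∑ u, ∑ v, ∑ p, ρ p u • b (Matrix.single p v 1) (Matrix.single u v 1) := by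
    simp only [← Finset.sum_neg_distrib]
    calc ∑ u, ∑ v, ∑ p, ρ p u • b (Matrix.single u v 1) (Matrix.single p v 1)
        = ∑ v, ∑ u, ∑ p, ρ p u • b (Matrix.single u v 1) (Matrix.single p v 1) :=
          Finset.sum_comm
      _ = ∑ v, ∑ p, ∑ u, ρ p u • b (Matrix.single u v 1) (Matrix.single p v 1) :=
          Finset.sum_congr rfl fun v _ => Finset.sum_comm
      _ = ∑ p, ∑ v, ∑ u, ρ p u • b (Matrix.single u v 1) (Matrix.single p v 1) :=
          Finset.sum_comm
      _ = _ := by
          refine Finset.sum_congr rfl fun p _ => Finset.sum_congr rfl fun v _ =>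
            Finset.sum_congr rfl fun u _ => ?_
          rw [hs p u, neg_smul]
  have h2 : ∑ u, ∑ v, ∑ p, ρ v p • b (Matrix.single u v 1) (Matrix.single u p 1) =
      -∑ u, ∑ v, ∑ p, ρ v p • b (Matrix.single u p 1) (Matrix.single u v 1) := by
    simp only [← Finset.sum_neg_distrib]
    refine Finset.sum_congr rfl fun u _ => ?_
    rw [Finset.sum_comm]
    refine Finset.sum_congr rfl fun v _ => Finset.sum_congr rfl fun p _ => ?_
    rw [hs p v, neg_smul]
  rw [h1, h2]
  abel

end ring

end Pool.Agent.Lib.MPf11a48.K3.KLnkM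

namespace Pool.Agent.Lib.MPf11a48.K3

open Matrix KLnkM

theorem specKLnk : SpecKLnk := by
  intro ι _ _ _ m m' γ γ' kk hm hanti hCF hcl' hskew' hact' φ hφ1 hφ2 hφ3
  -- the bilinear map
  let b : Matrix (Fin m) (Fin m) ℂ →ₗ[ℂ] Matrix (Fin m) (Fin m) ℂ →ₗ[ℂ] Matrix ι ι ℂ :=
    (LinearMap.mul ℂ (Matrix ι ι ℂ)).compl₁₂ (Γ γ) ((Γ γ').comp φ)
  have hb : ∀ Y Z, b Y Z = Γ γ Y * Γ γ' (φ Z) := fun Y Z => rfl
  let β : Matrix ι ι ℂ := ∑ u, ∑ v, b (Matrix.single u v 1) (Matrix.single u v 1)
  -- the commutator with `X`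
  have hcomm : ∀ (X : Matrix ι ι ℂ) (ρ : Matrix (Fin m) (Fin m) ℂ)
      (σ : Matrix (Fin m') (Fin m') ℂ), ρᵀ = -ρ → σᵀ = -σ →
      (∀ j, X * γ j - γ j * X = ∑ i, ρ i j • γ i) →
      (∀ j, X * γ' j - γ' j * X = ∑ i, σ i j • γ' i) →
      X * β - β * X = ∑ u, ∑ v, (b (ρ * Matrix.single u v 1 - Matrix.single u v 1 * ρ)
        (Matrix.single u v 1) + Γ γ (Matrix.single u v 1) *
          Γ γ' (σ * φ (Matrix.single u v 1) - φ (Matrix.single u v 1) * σ)) := by
    intro X ρ σ hρ hσ hX hX'
    simp only [β, Finset.mul_sum, Finset.sum_mul, ← Finset.sum_sub_distrib]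
    refine Finset.sum_congr rfl fun u _ => Finset.sum_congr rfl fun v _ => ?_
    rw [hb, hb, ← Γ_leib γ X ρ hρ hX, ← Γ_leib γ' X σ hσ hX']
    noncomm_ring
  -- `β` commutes with the elements of `kk`
  have hβ : ∀ X ∈ kk, X.1 * β = β * X.1 := by
    intro X hX
    have hρ := hCF.skew (X.1, X.2.1) ⟨X, hX, rfl⟩
    have hσ := hskew' X hX
    have h1 := hcomm X.1 X.2.1 X.2.2 hρ hσ (hCF.act (X.1, X.2.1) ⟨X, hX, rfl⟩) (hact' X hX)
    rw [← sub_eq_zero, h1]
    have h2 := casimir X.2.1 hρ b
    rw [← h2, ← Finset.sum_add_distrib]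
    refine Finset.sum_congr rfl fun u _ => ?_
    rw [← Finset.sum_add_distrib]
    refine Finset.sum_congr rfl fun v _ => ?_
    rw [hb (Matrix.single u v 1), hφ3 X.2 ⟨X, hX, rfl⟩]
  -- so with the products `γ i γ j`
  have hβ' : ∀ i j, γ i * γ j * β = β * (γ i * γ j) := by
    intro i j
    have h1 : Algebra.adjoin ℂ (Prod.fst '' ((fun X : Matrix ι ι ℂ ×
        (Matrix (Fin m) (Fin m) ℂ × Matrix (Fin m') (Fin m') ℂ) => (X.1, X.2.1)) '' kk)) ≤
        Subalgebra.centralizer ℂ {β} := by
      rw [Algebra.adjoin_le_iff]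
      rintro _ ⟨_, ⟨X, hX, rfl⟩, rfl⟩
      rw [SetLike.mem_coe, Subalgebra.mem_centralizer_iff]
      intro g hg
      rw [Set.mem_singleton_iff.1 hg]
      exact (hβ X hX).symm
    have h2 := h1 (hCF.gen i j)
    rw [Subalgebra.mem_centralizer_iff] at h2
    exact (h2 β rfl).symm
  -- the elementary skew matrices
  have hAc : ∀ i j, i ≠ j → ∀ Y, φ ((Matrix.single i j 1 - Matrix.single j i 1) * Y -
      Y * (Matrix.single i j 1 - Matrix.single j i 1)) = 0 := by
    intro i j hij
    set A : Matrix (Fin m) (Fin m) ℂ := Matrix.single i j 1 - Matrix.single j i 1 with hA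
    have hAt : Aᵀ = -A := by
      rw [hA, Matrix.transpose_sub, Matrix.transpose_single, Matrix.transpose_single]
      abel
    have hγ : ∀ k, γ i * γ j * γ k - γ k * (γ i * γ j) = ∑ l, A l k • γ l := by
      intro k
      have e1 : γ i * γ j * γ k - γ k * (γ i * γ j) =
          γ i * (γ j * γ k + γ k * γ j) - (γ i * γ k + γ k * γ i) * γ j := by noncomm_ring
      rw [e1, hCF.cl, hCF.cl]
      have e2 : ∑ l, A l k • γ l = (if j = k then (1 : ℂ) else 0) • γ i -
          (if i = k then (1 : ℂ) else 0) • γ j := by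
        have e3 : ∀ l, A l k • γ l = (if i = l then (if j = k then (1 : ℂ) else 0) • γ l else 0) -
            (if j = l then (if i = k then (1 : ℂ) else 0) • γ l else 0) := by
          intro l
          rw [hA, Matrix.sub_apply, Matrix.single_apply, Matrix.single_apply, sub_smul]
          congr 1
          · by_cases h : i = l
            · by_cases h' : j = k <;> simp [h, h']
            · simp [h]
          · by_cases h : j = l
            · by_cases h' : i = k <;> simp [h, h']
            · simp [h]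
        rw [Finset.sum_congr rfl fun l _ => e3 l, Finset.sum_sub_distrib, Finset.sum_ite_eq,
          Finset.sum_ite_eq]
        simp
      rw [e2]
      by_cases h1 : j = k <;> by_cases h2 : i = k <;> simp [h1, h2]
    have hγ' : ∀ k, γ i * γ j * γ' k - γ' k * (γ i * γ j) =
        ∑ l, (0 : Matrix (Fin m') (Fin m') ℂ) l k • γ' l := by
      intro k
      have e1 : γ i * γ j * γ' k - γ' k * (γ i * γ j) =
          γ i * (γ j * γ' k + γ' k * γ j) - (γ i * γ' k + γ' k * γ i) * γ j := by noncomm_ring
      rw [e1, hanti, hanti]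
      simp
    have h1 := hcomm (γ i * γ j) A 0 hAt (by simp) hγ hγ'
    rw [hβ' i j, sub_self] at h1
    simp only [zero_mul, mul_zero, sub_zero, map_zero, add_zero] at h1
    have h2 := casimir A hAt b
    rw [← h1, zero_add] at h2
    -- independence
    have hcommP : ∀ (Z : Matrix (Fin m') (Fin m') ℂ) (k : Fin m),
        Γ γ' Z * γ k = γ k * Γ γ' Z := by
      intro Z k
      rw [Γ_apply, Finset.sum_mul, Finset.mul_sum]
      refine Finset.sum_congr rfl fun u _ => ?_
      rw [Finset.sum_mul, Finset.mul_sum]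
      refine Finset.sum_congr rfl fun v _ => ?_
      rw [smul_mul_assoc, mul_smul_comm]
      congr 1
      have e1 : γ' u * γ' v * γ k - γ k * (γ' u * γ' v) =
          γ' u * (γ k * γ' v + γ' v * γ k) - (γ k * γ' u + γ' u * γ k) * γ' v := by noncomm_ring
      rw [hanti, hanti, mul_zero, zero_mul, sub_zero, sub_eq_zero] at e1
      exact e1
    have hsk : ∀ Y : Matrix (Fin m) (Fin m) ℂ, φ (A * Yᵀ - Yᵀ * A) = -φ (A * Y - Y * A) := by
      intro Y
      rw [← hφ1]
      congr 1
      rw [Matrix.transpose_sub, Matrix.transpose_mul, Matrix.transpose_mul, hAt]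
      simp only [Matrix.mul_neg, Matrix.neg_mul]
      abel
    have h3 : ∀ k l, Γ γ' (φ (A * Matrix.single k l 1 - Matrix.single k l 1 * A)) = 0 := by
      refine indep γ hCF.cl (fun u v => Γ γ' (φ (A * Matrix.single u v 1 - Matrix.single u v 1 * A)))
        (fun u v k => hcommP _ k) ?_ ?_
      · intro u v
        have := hsk (Matrix.single u v 1)
        rw [Matrix.transpose_single] at this
        rw [this, map_neg]
      · rw [← h2]
        refine Finset.sum_congr rfl fun u _ => Finset.sum_congr rfl fun v _ => ?_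
        rw [hb, Γ_single]
    have h4 : ∀ k l, φ (A * Matrix.single k l 1 - Matrix.single k l 1 * A) = 0 := by
      intro k l
      ext u' v'
      set Z := φ (A * Matrix.single k l 1 - Matrix.single k l 1 * A) with hZ
      have h5 := h3 k l
      rw [Γ_apply] at h5
      have h6 := indep γ' hcl' (fun u v => algebraMap ℂ (Matrix ι ι ℂ) (Z u v))
        (fun u v k => Algebra.commutes _ _) (by
          intro u v
          have e1 := congrFun (congrFun (hφ2 (A * Matrix.single k l 1 - Matrix.single k l 1 * A)) u) v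
          rw [Matrix.transpose_apply, Matrix.neg_apply] at e1
          change algebraMap ℂ (Matrix ι ι ℂ) (Z v u) = -algebraMap ℂ (Matrix ι ι ℂ) (Z u v)
          rw [hZ, e1, map_neg]) (by
          rw [← h5]
          refine Finset.sum_congr rfl fun u _ => Finset.sum_congr rfl fun v _ => ?_
          rw [← Algebra.commutes, Algebra.smul_def]) u' v'
      have h7 : Z u' v' = 0 :=
        FaithfulSMul.algebraMap_injective ℂ (Matrix ι ι ℂ) (by rw [h6, map_zero])
      exact h7
    intro Y
    rw [Matrix.matrix_eq_sum_single Y]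
    simp only [Finset.mul_sum, Finset.sum_mul, ← Finset.sum_sub_distrib, map_sum]
    refine Finset.sum_eq_zero fun k _ => Finset.sum_eq_zero fun l _ => ?_
    have : Matrix.single k l (Y k l) = Y k l • Matrix.single k l (1 : ℂ) := by
      rw [Matrix.smul_single, smul_eq_mul, mul_one]
    rw [this, Matrix.mul_smul, Matrix.smul_mul, ← smul_sub, map_smul, h4, smul_zero]
  -- the values on the elementary matrices
  have hE : ∀ i j, φ (Matrix.single i j 1) = 0 := by
    intro i j
    have h1 : φ (Matrix.single i j 1 - Matrix.single j i 1) = 0 := by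
      by_cases hij : i = j
      · rw [hij, sub_self, map_zero]
      · obtain ⟨c, hci, hcj⟩ : ∃ c : Fin m, c ≠ i ∧ c ≠ j := by
          by_contra hcon
          push Not at hcon
          have h2 : (Finset.univ : Finset (Fin m)) ⊆ {i, j} := by
            intro c _
            by_cases hc : c = i
            · simp [hc]
            · simp [hcon c hc]
          have h3 := Finset.card_le_card h2
          rw [Finset.card_univ, Fintype.card_fin] at h3
          have h4 := Finset.card_le_two (a := i) (b := j)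
          omega
        have h2 := hAc i c (Ne.symm hci) (Matrix.single c j 1 - Matrix.single j c 1)
        have h3 : (Matrix.single i c (1 : ℂ) - Matrix.single c i 1) *
            (Matrix.single c j 1 - Matrix.single j c 1) -
            (Matrix.single c j 1 - Matrix.single j c 1) *
            (Matrix.single i c 1 - Matrix.single c i 1) =
            Matrix.single i j 1 - Matrix.single j i 1 := by
          have z1 : Matrix.single i c (1 : ℂ) * Matrix.single j c 1 = 0 :=
            Matrix.single_mul_single_of_ne _ _ _ _ hcj _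
          have z2 : Matrix.single c i (1 : ℂ) * Matrix.single c j 1 = 0 :=
            Matrix.single_mul_single_of_ne _ _ _ _ (Ne.symm hci) _
          have z3 : Matrix.single c i (1 : ℂ) * Matrix.single j c 1 = 0 :=
            Matrix.single_mul_single_of_ne _ _ _ _ hij _
          have z4 : Matrix.single c j (1 : ℂ) * Matrix.single i c 1 = 0 :=
            Matrix.single_mul_single_of_ne _ _ _ _ (Ne.symm hij) _
          have z5 : Matrix.single c j (1 : ℂ) * Matrix.single c i 1 = 0 :=
            Matrix.single_mul_single_of_ne _ _ _ _ (Ne.symm hcj) _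
          have z6 : Matrix.single j c (1 : ℂ) * Matrix.single i c 1 = 0 :=
            Matrix.single_mul_single_of_ne _ _ _ _ hci _
          simp only [sub_mul, mul_sub, Matrix.single_mul_single_same, mul_one, z1, z2, z3, z4, z5,
            z6]
          abel
        rw [h3] at h2
        exact h2
    have h2 := hφ1 (Matrix.single i j 1)
    rw [Matrix.transpose_single] at h2
    rw [map_sub, h2, sub_neg_eq_add, ← two_smul ℂ] at h1
    exact (smul_eq_zero.1 h1).resolve_left two_ne_zero
  refine LinearMap.ext fun Y => ?_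
  conv_lhs => rw [Matrix.matrix_eq_sum_single Y]
  rw [map_sum]
  simp only [map_sum, LinearMap.zero_apply]
  refine Finset.sum_eq_zero fun i _ => Finset.sum_eq_zero fun j _ => ?_
  have : Matrix.single i j (Y i j) = Y i j • Matrix.single i j (1 : ℂ) := by
    rw [Matrix.smul_single, smul_eq_mul, mul_one]
  rw [this, map_smul, hE, smul_zero]

end Pool.Agent.Lib.MPf11a48.K3
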