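import Pool.Agent.Lib.MP_f11a48_ag.K3.KSpec

/-! # KNI: no invariants in the exterior powers -/

set_option autoImplicit false

namespace Pool.Agent.Lib.MPf11a48.K3

open Matrix

namespace KNIM

/-- an operator which commutes with the `X` commutes with the products `γ a γ b` -/
theorem comm_gen {ι : Type} [Fintype ι] [DecidableEq ι] {m : ℕ} {γ : Fin m → Matrix ι ι ℂ}
    {kk : Set (Matrix ι ι ℂ × Matrix (Fin m) (Fin m) ℂ)} (h : CF γ kk) (T : Matrix ι ι ℂ)
    (hT : ∀ X ∈ kk, X.1 * T = T * X.1) (a b : Fin m) : (γ a * γ b) * T = T * (γ a * γ b) := by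
  have h1 : Algebra.adjoin ℂ (Prod.fst '' kk) ≤ Subalgebra.centralizer ℂ {T} := by
    refine Algebra.adjoin_le ?_
    rintro _ ⟨X, hX, rfl⟩
    refine (Subalgebra.mem_centralizer_iff ℂ).2 ?_
    intro g hg
    rw [Set.mem_singleton_iff.1 hg]
    exact (hT X hX).symm
  have h2 := (Subalgebra.mem_centralizer_iff ℂ).1 (h1 (h.gen a b)) T rfl
  exact h2.symm

/-- the skew-symmetric matrix `E_ab - E_ba` -/
def sk {m : ℕ} (a b : Fin m) : Matrix (Fin m) (Fin m) ℂ := single a b 1 - single b a 1

theorem act_sk {ι : Type} [Fintype ι] [DecidableEq ι] {m : ℕ} (γ : Fin m → Matrix ι ι ℂ)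
    (hγ : ∀ i j, γ i * γ j + γ j * γ i = if i = j then 1 else 0) (a b k : Fin m) :
    (γ a * γ b) * γ k - γ k * (γ a * γ b) = ∑ i, sk a b i k • γ i := by
  have h1 : ∑ i, sk a b i k • γ i = (if b = k then γ a else 0) - (if a = k then γ b else 0) := by
    have h2 : ∀ i, sk a b i k • γ i = (if i = a then (if b = k then γ a else 0) else 0) -
        (if i = b then (if a = k then γ b else 0) else 0) := by
      intro i
      rw [sk, Matrix.sub_apply, single_apply, single_apply, sub_smul]
      by_cases h1 : a = i
      · subst h1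
        by_cases h2 : b = a
        · subst h2
          simp
        · have h3 : ¬ a = b := fun h => h2 h.symm
          simp [h2, h3, ite_smul]
      · have h1' : ¬ i = a := fun h => h1 h.symm
        by_cases h2 : b = i
        · subst h2
          simp [h1, h1', ite_smul]
        · have h2' : ¬ i = b := fun h => h2 h.symm
          simp [h1, h1', h2, h2']
    rw [Finset.sum_congr rfl fun i _ => h2 i, Finset.sum_sub_distrib, Finset.sum_ite_eq' Finset.univ a,
      Finset.sum_ite_eq' Finset.univ b, if_pos (Finset.mem_univ _), if_pos (Finset.mem_univ _)]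
  have h3 : (γ a * γ b) * γ k - γ k * (γ a * γ b) =
      γ a * (γ b * γ k + γ k * γ b) - (γ a * γ k + γ k * γ a) * γ b := by noncomm_ring
  rw [h1, h3, hγ, hγ]
  by_cases h1 : b = k <;> by_cases h2 : a = k <;> simp [h1, h2]

theorem alt_actT {m j : ℕ} (X : Matrix (Fin m) (Fin m) ℂ) (w : (Fin j → Fin m) → ℂ) (hw : Alt w) :
    Alt (actT X w) := by
  intro σ I
  have h0 : actT X w I = ∑ a, ∑ k, X (I (σ a)) k * w (Function.update I (σ a) k) :=
    (Equiv.sum_comp σ (fun a => ∑ k, X (I a) k * w (Function.update I a k))).symm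
  rw [h0, actT, Finset.mul_sum]
  refine Finset.sum_congr rfl fun a _ => ?_
  rw [Finset.mul_sum]
  refine Finset.sum_congr rfl fun k _ => ?_
  have h1 : Function.update (I ∘ σ) a k = Function.update I (σ a) k ∘ σ := by
    funext b
    by_cases hb : b = a
    · subst hb
      rw [Function.update_self, Function.comp_apply, Function.update_self]
    · rw [Function.update_of_ne hb, Function.comp_apply, Function.comp_apply,
        Function.update_of_ne (fun h => hb (σ.injective h))]
  rw [h1, hw, Function.comp_apply]
  ring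

theorem alt_not_inj {m j : ℕ} (w : (Fin j → Fin m) → ℂ) (hw : Alt w) (I : Fin j → Fin m)
    (hI : ¬ Function.Injective I) : w I = 0 := by
  rw [Function.Injective] at hI
  push Not at hI
  obtain ⟨a, b, h1, h2⟩ := hI
  have h3 : I ∘ (Equiv.swap a b) = I := by
    funext c
    rw [Function.comp_apply, Equiv.swap_apply_def]
    split_ifs with h4 h5
    · rw [h4, h1]
    · rw [h5, h1]
    · rfl
  have h4 := hw (Equiv.swap a b) I
  rw [h3, Equiv.Perm.sign_swap h2] at h4
  simp only [Units.val_neg, Units.val_one, Int.cast_neg, Int.cast_one, neg_mul, one_mul] at h4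
  linear_combination h4 / 2

/-- an alternating tensor killed by all skew-symmetric matrices is zero -/
theorem zero_of_sk {m j : ℕ} (hj : 0 < j) (hjm : j < m) (w : (Fin j → Fin m) → ℂ) (hw : Alt w)
    (h : ∀ a b, a ≠ b → actT (sk a b) w = 0) : w = 0 := by
  funext I
  by_cases hI : Function.Injective I
  · obtain ⟨b, hb⟩ : ∃ b, b ∉ Set.range I := by
      by_contra hcon
      push Not at hcon
      have hs : Function.Surjective I := fun x => hcon x
      have h1 := Fintype.card_le_of_surjective I hs
      rw [Fintype.card_fin, Fintype.card_fin] at h1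
      omega
    have hb' : ∀ c, I c ≠ b := fun c hc => hb ⟨c, hc⟩
    set z : Fin j := ⟨0, hj⟩ with hz
    have h1 := congrFun (h b (I z) (fun h => hb' z h.symm)) (Function.update I z b)
    rw [actT, Pi.zero_apply, Finset.sum_eq_single z, Finset.sum_eq_single (I z)] at h1
    · rw [Function.update_self, Function.update_idem, Function.update_eq_self, sk, Matrix.sub_apply,
        single_apply, single_apply, if_pos ⟨rfl, rfl⟩, if_neg (fun h => hb' z h.1)] at h1
      rw [Pi.zero_apply]
      linear_combination h1
    · intro k _ hk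
      rw [Function.update_self, sk, Matrix.sub_apply, single_apply, single_apply,
        if_neg (fun h => hk h.2.symm), if_neg (fun h => hb' z h.1)]
      ring
    · intro h
      exact absurd (Finset.mem_univ _) h
    · intro a _ ha
      refine Finset.sum_eq_zero fun k _ => ?_
      rw [Function.update_of_ne ha, sk, Matrix.sub_apply, single_apply, single_apply,
        if_neg (fun h => hb' a h.1.symm), if_neg (fun h => ha (hI h.1.symm))]
      ring
    · intro h
      exact absurd (Finset.mem_univ _) h
  · exact alt_not_inj w hw I hI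

end KNIM

open KNIM in
theorem specKNI (hB : SpecKBr) (hI : SpecKInj) : SpecKNI := by
  intro ι _ _ _ m γ kk hkk j hj hjm w hw hinv
  refine zero_of_sk hj hjm w hw fun a b _ => ?_
  refine hI ι m j γ hkk.cl _ (alt_actT _ w hw) ?_
  rw [← hB ι m j γ (γ a * γ b) (sk a b) (act_sk γ hkk.cl a b) w, sub_eq_zero]
  refine comm_gen hkk _ (fun X hX => ?_) a b
  rw [← sub_eq_zero, hB ι m j γ X.1 X.2 (hkk.act X hX) w, hinv _ ⟨X, hX, rfl⟩]
  rw [bt]
  simp

end Pool.Agent.Lib.MPf11a48.K3
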