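import Pool.Agent.Lib.MP_f11a48_ag.K3.KRat
import Pool.Agent.Lib.MP_f11a48_ag.K3.KSpec2

/-! # Module KRAT2: the rational Lie algebra and the logarithmic derivatives, with Tate twists -/

set_option autoImplicit false

namespace Pool.Agent.Lib.MPf11a48.K3

open Matrix MvPolynomial Pool.Agent.Lib.MPf11a48.Tors
open Pool.Agent.Lib.MPf11a48.CM hiding OmegaM
open Pool.Agent.Lib.MPf11a48.GL2 (lie)
open Pool.Agent.Lib.MPf11a48.U (AbData Ix HD EndAlg)

namespace KRat2M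

open KRatM

theorem lb_add {n : ℕ} (ρ ρ' : Matrix (Fin n) (Fin n) ℂ) (m m' : ℂ) :
    lb (ρ + ρ') (m + m') = lb ρ m + lb ρ' m' := by
  unfold lb
  rw [fromBlocks_add]
  congr 1 <;> simp

theorem lb_smul {n : ℕ} (r : ℂ) (ρ : Matrix (Fin n) (Fin n) ℂ) (m : ℂ) :
    lb (r • ρ) (r * m) = r • lb ρ m := by
  unfold lb
  rw [fromBlocks_smul]
  congr 1 <;> simp

theorem lb_zero {n : ℕ} : lb (0 : Matrix (Fin n) (Fin n) ℂ) 0 = 0 := by
  ext i j
  rcases i with i | i <;> rcases j with j | j <;> simp [lb]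

/-- the logarithmic derivative of a block diagonal point -/
theorem log_bd {n : ℕ} (t : GL (Fin n) ℂ) (z : ℂˣ) (δ : Derivation Qbar ℂ ℂ) :
    (bd (t, z)).1.map δ * (bd (t, z))⁻¹.1 = lb (t.1.map δ * t⁻¹.1) (δ z / z) := by
  have h1 : (bd (t, z)).1.map δ = lb (t.1.map δ) (δ z) := by
    rw [bd_val]
    ext i j
    rcases i with i | i <;> rcases j with j | j <;> simp [lb]
  have h2 : (bd (t, z))⁻¹.1 = lb t⁻¹.1 ((z : ℂ)⁻¹) := by
    rw [← map_inv, bd_val]
    change lb t⁻¹.1 ((z⁻¹ : ℂˣ) : ℂ) = lb t⁻¹.1 ((z : ℂ)⁻¹)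
    rw [Units.val_inv_eq_inv_val]
  rw [h1, h2, lb_mul, div_eq_mul_inv]

theorem ap_lb {n : ℕ} (l : QForm) (ρ : Matrix (Fin n) (Fin n) ℂ) (m : ℂ) :
    cx (fun i j => l (lb ρ m i j)) = lb (cx (ap l ρ)) ((l m : ℚ) : ℂ) := by
  ext i j
  change ((l (lb ρ m i j) : ℚ) : ℂ) = lb (cx (ap l ρ)) ((l m : ℚ) : ℂ) i j
  rcases i with i | i <;> rcases j with j | j <;> simp [lb, cx, ap_apply]

end KRat2M

open KRatM KRat2M in
/-- Module KRAT2. -/
theorem specKRat2 (hLRat : SpecLRat) : SpecKRat2 := by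
  intro g N n A c t qdR qB B E J ψ hK hHD T hT htT hcl
  have hG := GL2.geo_of_torsor hT
  have hso : ∀ ρ ∈ soE qB E, ∀ ρ' ∈ soE qB E, ρ + ρ' ∈ soE qB E := by
    rintro a ⟨ha1, ha2⟩ b ⟨hb1, hb2⟩
    refine ⟨?_, fun e he => ?_⟩
    · rw [Matrix.transpose_add, Matrix.add_mul, Matrix.mul_add, add_add_add_comm, ha1, hb1,
        add_zero]
    · rw [Matrix.add_mul, Matrix.mul_add, ha2 e he, hb2 e he]
  have hso2 : ∀ (r : ℚ), ∀ ρ ∈ soE qB E, r • ρ ∈ soE qB E := by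
    rintro r a ⟨ha1, ha2⟩
    refine ⟨?_, fun e he => ?_⟩
    · rw [Matrix.transpose_smul, Matrix.smul_mul, Matrix.mul_smul, ← smul_add, ha1, smul_zero]
    · rw [Matrix.smul_mul, Matrix.mul_smul, ha2 e he]
  let kk : Submodule ℚ (Matrix (Ix g) (Ix g) ℚ) :=
    { carrier := {Z | ∃ (m : ℚ) (ρ : Matrix (Fin n) (Fin n) ℚ), Zᵀ * ψ + ψ * Z = m • ψ ∧
        ρ ∈ soE qB E ∧ lb (cx ρ) m ∈ lie T ∧ ∀ j, Z * B j - B j * Z = ∑ i, ρ i j • B i}
      add_mem' := by
        rintro a b ⟨m, ρ, hm, hρ, hl, h1⟩ ⟨m', ρ', hm', hρ', hl', h2⟩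
        refine ⟨m + m', ρ + ρ', ?_, hso ρ hρ ρ' hρ', ?_, fun j => ?_⟩
        · rw [Matrix.transpose_add, Matrix.add_mul, Matrix.mul_add, add_add_add_comm, hm, hm',
            add_smul]
        · rw [cx_add, Rat.cast_add, lb_add]
          exact add_mem hl hl'
        · have e1 : (a + b) * B j - B j * (a + b) = (a * B j - B j * a) + (b * B j - B j * b) := by
            noncomm_ring
          rw [e1, h1 j, h2 j, ← Finset.sum_add_distrib]
          exact Finset.sum_congr rfl fun i _ => by rw [Matrix.add_apply, add_smul]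
      zero_mem' := by
        refine ⟨0, 0, by simp, ⟨by simp, by simp⟩, ?_, fun j => by simp⟩
        rw [cx_zero, Rat.cast_zero, lb_zero]
        exact zero_mem _
      smul_mem' := by
        rintro r a ⟨m, ρ, hm, hρ, hl, h1⟩
        refine ⟨r * m, r • ρ, ?_, hso2 r ρ hρ, ?_, fun j => ?_⟩
        · rw [Matrix.transpose_smul, Matrix.smul_mul, Matrix.mul_smul, ← smul_add, hm, smul_smul]
        · rw [cx_smul, Rat.cast_mul, lb_smul]
          exact Submodule.smul_mem _ _ hl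
        · rw [Matrix.smul_mul, Matrix.mul_smul, ← smul_sub, h1 j, Finset.smul_sum]
          exact Finset.sum_congr rfl fun i _ => by rw [Matrix.smul_apply, smul_eq_mul, smul_smul] }
  refine ⟨kk, fun Z hZ => hZ, fun δ => ?_⟩
  -- the logarithmic derivatives
  obtain ⟨ψdR, hψ, hleg⟩ := hHD.leg
  have hX := U.SimM.log_deriv c ψ ψdR hψ hleg δ
  have hx1 := hG.deriv_mem htT δ
  rw [log_bd] at hx1
  have hx2 := log_form t qB qdR hK.alg hK.form δ
  have hx3 : ∀ e ∈ E, (t.1.map δ * t⁻¹.1) * cx e = cx e * (t.1.map δ * t⁻¹.1) := by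
    intro e he
    obtain ⟨e', he', h⟩ := hK.endT e he
    exact log_end t e e' he' h δ
  have hX2 := log_cliff c t B hK.morphism δ
  have htpi : ((tpi : ℂˣ) : ℂ) = 2 * Real.pi * Complex.I := rfl
  rw [htpi] at hx1
  set X := c.1.map δ * c⁻¹.1 with hXdef
  set x := t.1.map δ * t⁻¹.1 with hxdef
  set m : ℂ := δ (2 * Real.pi * Complex.I) / (2 * Real.pi * Complex.I) with hm
  have key : ∀ l : QForm, ap l X ∈ kk := by
    intro l
    refine ⟨l m, ap l x, ?_, ⟨?_, fun e he => ?_⟩, ?_, fun j => ?_⟩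
    · have h1 := congrArg (ap l) hX
      change ap l (Xᵀ * cx ψ + cx ψ * X) = ap l (m • cx ψ) at h1
      rw [ap_add, mul_rat, rat_mul, ap_smul, ap_transpose] at h1
      exact h1
    · have h1 := congrArg (ap l) hx2
      rw [ap_add, mul_rat, rat_mul, ap_transpose, ap_zero] at h1
      exact h1
    · have h1 := congrArg (ap l) (hx3 e he)
      rw [mul_rat, rat_mul] at h1
      exact h1
    · have h1 := hLRat _ T hT hcl _ hx1 l
      rw [ap_lb] at h1
      exact h1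
    · have h1 := congrArg (ap l) (hX2 j)
      rw [ap_sub, mul_rat, rat_mul, ap_sum] at h1
      rw [h1]
      exact Finset.sum_congr rfl fun i _ => ap_smul l _ _
  obtain ⟨r, β, l, hXe⟩ := eq_sum X
  rw [hXe]
  exact Submodule.sum_mem _ fun i _ => Submodule.smul_mem _ _ (Submodule.subset_span
    ⟨_, key (l i), rfl⟩)

end Pool.Agent.Lib.MPf11a48.K3
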