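import Pool.Agent.Lib.MP_f11a48_ag.K3.KSpec3
import Pool.Agent.Lib.MP_f11a48_ag.K3.KFull2

/-! # KSC: endomorphisms commuting with the Clifford operators and with the commutant of the
infinitesimal isometries are scalars -/

set_option autoImplicit false

namespace Pool.Agent.Lib.MPf11a48.K3

open Matrix
open Pool.Agent.Lib.MPf11a48.U (AbData Ix HD EndAlg)
open KLieM KRatM

namespace KScM

variable {μ : Type} [Fintype μ] [DecidableEq μ]

omit [DecidableEq μ] in
theorem comm_sum {I : Type} [Fintype I] {b : Matrix μ μ ℂ} (x : I → ℂ) (Y : I → Matrix μ μ ℂ)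
    (h : ∀ i, b * Y i = Y i * b) : b * (∑ i, x i • Y i) = (∑ i, x i • Y i) * b := by
  rw [Finset.mul_sum, Finset.sum_mul]
  refine Finset.sum_congr rfl fun i _ => ?_
  rw [Matrix.mul_smul, Matrix.smul_mul, h]

variable {n : ℕ} {κ : Type} [Fintype κ] [DecidableEq κ] {m : κ → ℕ}

omit [DecidableEq μ] in
/-- a matrix which commutes with the products of two Clifford operators in the same block commutes
with the images of the infinitesimal isometries -/
theorem comm_clC {B : Fin n → Matrix μ μ ℚ} {qB : Matrix (Fin n) (Fin n) ℚ}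
    {E : Set (Matrix (Fin n) (Fin n) ℚ)} {P : Matrix (Fin n) ((k : κ) × Fin (m k)) ℂ}
    {lam : Matrix (Fin n) (Fin n) ℚ → κ → ℂ} (hS : Split qB E m P lam) (hq : qBᵀ = qB)
    (hdet : qB.det ≠ 0) {s : ℂ} (hs : 2 * (s * s) = 1) {Y : Matrix μ μ ℂ}
    (hY : ∀ k a b, Y * (gam B P s ⟨k, a⟩ * gam B P s ⟨k, b⟩) =
      gam B P s ⟨k, a⟩ * gam B P s ⟨k, b⟩ * Y)
    {x : Matrix (Fin n) (Fin n) ℂ} (hx : xᵀ * cx qB + cx qB * x = 0)
    (hE : ∀ e ∈ E, x * cx e = cx e * x) : Y * clC B qB x = clC B qB x * Y := by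
  obtain ⟨X, -, hX⟩ := KFull2M.exists_fam hS hq hx hE
  have h1 : clC B qB x = ∑ u, ∑ v, (blockDiagonal' X) u v •
      (bl B (fun a => P a u) * bl B (fun a => P a v)) := by
    rw [hX]
    exact clC_conj hdet _
  have h2 : ∀ u v, (blockDiagonal' X) u v • (bl B (fun a => P a u) * bl B (fun a => P a v)) =
      (2 * (blockDiagonal' X) u v) • (gam B P s u * gam B P s v) := by
    intro u v
    rw [gam, gam, Matrix.smul_mul, Matrix.mul_smul, smul_smul, smul_smul]
    congr 1
    linear_combination (-(blockDiagonal' X) u v) * hs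
  simp only [h1, h2]
  have h3 : ∀ u v, Y * ((2 * (blockDiagonal' X) u v) • (gam B P s u * gam B P s v)) =
      ((2 * (blockDiagonal' X) u v) • (gam B P s u * gam B P s v)) * Y := by
    rintro ⟨k, a⟩ ⟨k', b⟩
    by_cases hk : k = k'
    · subst hk
      rw [Matrix.mul_smul, Matrix.smul_mul, hY]
    · rw [blockDiagonal'_apply_ne _ _ _ hk, mul_zero, zero_smul, Matrix.mul_zero, Matrix.zero_mul]
  rw [Finset.mul_sum, Finset.sum_mul]
  refine Finset.sum_congr rfl fun u _ => ?_
  rw [Finset.mul_sum, Finset.sum_mul]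
  exact Finset.sum_congr rfl fun v _ => h3 u v

end KScM

open KScM in
theorem specKSc (hScl : SpecKScl) : SpecKSc := by
  intro g N n A c t qdR qB B E κ _ _ m P lam hK hS b hb hbZ
  obtain ⟨s, hs⟩ : ∃ s : ℂ, 2 * (s * s) = 1 := by
    obtain ⟨s, hs⟩ := IsAlgClosed.exists_pow_nat_eq ((2 : ℂ)⁻¹) two_pos
    exact ⟨s, by rw [← pow_two, hs, mul_inv_cancel₀ two_ne_zero]⟩
  refine hScl (Ix g) κ m (gam B P s) (gam_anti hK.clifford hS.orth hs) b ?_ ?_
  · intro u
    rw [gam, Matrix.mul_smul, Matrix.smul_mul, bl, comm_sum _ _ hb]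
  · intro Y hY
    obtain ⟨d, β, l, h1⟩ := eq_sum Y
    have h2 : ∀ i, b * cx (ap (l i) Y) = cx (ap (l i) Y) * b := by
      intro i
      refine hbZ _ fun ρ hρ => ?_
      have h3 : Y * cx (cli qB B ρ) = cx (cli qB B ρ) * Y := by
        rw [← clC_cx]
        refine comm_clC hS hK.symm hK.det hs hY ?_ ?_
        · have h4 := congrArg cx hρ.1
          rw [cx_add, cx_mul, cx_mul, cx_zero] at h4
          exact h4
        · intro e he
          rw [← cx_mul, ← cx_mul, hρ.2 e he]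
      rw [← mul_rat, h3, rat_mul]
    rw [h1]
    exact comm_sum _ _ h2

end Pool.Agent.Lib.MPf11a48.K3
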