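import Pool.Agent.Lib.MP_f11a48_ag.K3.KSpec3

/-! # KSCL: matrices which commute with the Clifford operators and with the commutant of the
products in the blocks -/

set_option autoImplicit false

namespace Pool.Agent.Lib.MPf11a48.K3

open Matrix

namespace KSclM

variable {ι : Type} [Fintype ι] [DecidableEq ι] {κ : Type} {m : κ → ℕ}

/-- the first index of the block of `p` -/
def z (p : (k : κ) × Fin (m k)) : (k : κ) × Fin (m k) := ⟨p.1, ⟨0, Nat.zero_lt_of_lt p.2.2⟩⟩

theorem z_eq (k : κ) (a b : Fin (m k)) : z (⟨k, a⟩ : (k : κ) × Fin (m k)) = z ⟨k, b⟩ := rfl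

/-- `γ_0 γ_b` -/
def u (γ : (k : κ) × Fin (m k) → Matrix ι ι ℂ) (p : (k : κ) × Fin (m k)) : Matrix ι ι ℂ :=
  γ (z p) * γ p

theorem two_smul_sq [DecidableEq κ] {γ : (k : κ) × Fin (m k) → Matrix ι ι ℂ}
    (hγ : ∀ u v, γ u * γ v + γ v * γ u = if u = v then 1 else 0) (v : (k : κ) × Fin (m k)) :
    (2 : ℂ) • (γ v * γ v) = 1 := by
  have h := hγ v v
  rw [if_pos rfl] at h
  rw [two_smul, h]

theorem sq [DecidableEq κ] {γ : (k : κ) × Fin (m k) → Matrix ι ι ℂ}
    (hγ : ∀ u v, γ u * γ v + γ v * γ u = if u = v then 1 else 0) (v : (k : κ) × Fin (m k)) :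
    γ v * γ v = (2 : ℂ)⁻¹ • 1 := by
  rw [← two_smul_sq hγ v, smul_smul, inv_mul_cancel₀ two_ne_zero, one_smul]

theorem anti [DecidableEq κ] {γ : (k : κ) × Fin (m k) → Matrix ι ι ℂ}
    (hγ : ∀ u v, γ u * γ v + γ v * γ u = if u = v then 1 else 0) {v w : (k : κ) × Fin (m k)}
    (h : v ≠ w) : γ v * γ w = -(γ w * γ v) := by
  have h1 := hγ v w
  rw [if_neg h] at h1
  exact eq_neg_of_add_eq_zero_left h1

/-- a Clifford operator commutes or anticommutes with `u p` -/
theorem gam_u [DecidableEq κ] {γ : (k : κ) × Fin (m k) → Matrix ι ι ℂ}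
    (hγ : ∀ u v, γ u * γ v + γ v * γ u = if u = v then 1 else 0) {p : (k : κ) × Fin (m k)}
    (hp : p ≠ z p) (v : (k : κ) × Fin (m k)) :
    γ v * u γ p = (if v = p ∨ v = z p then -1 else 1 : ℂ) • (u γ p * γ v) := by
  unfold u
  by_cases h1 : v = p
  · subst h1
    rw [if_pos (Or.inl rfl), ← mul_assoc, anti hγ hp, neg_mul, mul_assoc, neg_smul, one_smul]
  · by_cases h2 : v = z p
    · rw [if_pos (Or.inr h2), h2, ← mul_assoc, mul_assoc (γ (z p)) (γ p), anti hγ hp, mul_neg,
        ← mul_assoc, smul_neg, neg_smul, one_smul, neg_neg]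
    · rw [if_neg (by tauto), one_smul, ← mul_assoc, anti hγ h2, neg_mul, mul_assoc, anti hγ h1,
        mul_neg, neg_neg, mul_assoc]

/-- `u r` and `u p` commute or anticommute -/
theorem u_u [DecidableEq κ] {γ : (k : κ) × Fin (m k) → Matrix ι ι ℂ}
    (hγ : ∀ u v, γ u * γ v + γ v * γ u = if u = v then 1 else 0) {p : (k : κ) × Fin (m k)}
    (hp : p ≠ z p) (r : (k : κ) × Fin (m k)) :
    ∃ s : ℂ, s * s = 1 ∧ u γ r * u γ p = s • (u γ p * u γ r) := by
  set s1 : ℂ := if r = p ∨ r = z p then -1 else 1 with hs1
  set s2 : ℂ := if z r = p ∨ z r = z p then -1 else 1 with hs2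
  refine ⟨s1 * s2, ?_, ?_⟩
  · have h1 : s1 * s1 = 1 := by
      rw [hs1]
      split_ifs <;> norm_num
    have h2 : s2 * s2 = 1 := by
      rw [hs2]
      split_ifs <;> norm_num
    linear_combination (s2 * s2) * h1 + h2
  · have e1 := gam_u hγ hp r
    have e2 := gam_u hγ hp (z r)
    rw [← hs1] at e1
    rw [← hs2] at e2
    have e3 : u γ r = γ (z r) * γ r := rfl
    rw [e3, mul_assoc, e1, mul_smul_comm, ← mul_assoc, e2, smul_mul_assoc, smul_smul, mul_assoc]

theorem u_sq [DecidableEq κ] {γ : (k : κ) × Fin (m k) → Matrix ι ι ℂ}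
    (hγ : ∀ u v, γ u * γ v + γ v * γ u = if u = v then 1 else 0) {p : (k : κ) × Fin (m k)}
    (hp : p ≠ z p) : (-4 : ℂ) • (u γ p * u γ p) = 1 := by
  have e3 : u γ p = γ (z p) * γ p := rfl
  have e4 : u γ p * u γ p = -((γ (z p) * γ (z p)) * (γ p * γ p)) := by
    rw [e3]
    calc γ (z p) * γ p * (γ (z p) * γ p) = γ (z p) * (γ p * γ (z p)) * γ p := by
          simp only [mul_assoc]
      _ = γ (z p) * (-(γ (z p) * γ p)) * γ p := by rw [anti hγ hp]
      _ = _ := by simp only [mul_neg, neg_mul, mul_assoc]
  rw [e4, sq hγ, sq hγ, smul_mul_assoc, one_mul, smul_smul, smul_neg, neg_smul, neg_neg, smul_smul]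
  norm_num

/-- products of two Clifford operators in a block are products of `u`'s -/
theorem comm_of_u [DecidableEq κ] {γ : (k : κ) × Fin (m k) → Matrix ι ι ℂ}
    (hγ : ∀ u v, γ u * γ v + γ v * γ u = if u = v then 1 else 0) {Y : Matrix ι ι ℂ}
    (hY : ∀ p, p ≠ z p → u γ p * Y = Y * u γ p) (k : κ) (a b : Fin (m k)) :
    Y * (γ ⟨k, a⟩ * γ ⟨k, b⟩) = γ ⟨k, a⟩ * γ ⟨k, b⟩ * Y := by
  set p : (k : κ) × Fin (m k) := ⟨k, a⟩ with hp
  set q : (k : κ) × Fin (m k) := ⟨k, b⟩ with hq
  have hz : z p = z q := rfl
  -- `γ p γ q = 2 (γ p γ z) (γ z γ q)`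
  have h1 : γ p * γ q = (2 : ℂ) • ((γ p * γ (z p)) * (γ (z q) * γ q)) := by
    calc γ p * γ q = γ p * ((2 : ℂ) • (γ (z p) * γ (z p))) * γ q := by
          rw [two_smul_sq hγ, mul_one]
      _ = _ := by
          rw [← hz]
          simp only [mul_smul_comm, smul_mul_assoc, mul_assoc]
  have h2 : ∀ p : (k : κ) × Fin (m k), (γ (z p) * γ p) * Y = Y * (γ (z p) * γ p) := by
    intro p
    by_cases h : p = z p
    · have h3 : γ (z p) * γ p = (2 : ℂ)⁻¹ • 1 := by
        rw [← h]
        exact sq hγ p
      rw [h3, smul_mul_assoc, mul_smul_comm, one_mul, mul_one]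
    · exact hY p h
  have h3 : (γ p * γ (z p)) * Y = Y * (γ p * γ (z p)) := by
    by_cases h : p = z p
    · have h4 := h2 p
      rw [← h] at h4 ⊢
      exact h4
    · rw [anti hγ h, neg_mul, mul_neg, h2 p]
  have h4 : Y * ((γ p * γ (z p)) * (γ (z q) * γ q)) = (γ p * γ (z p)) * (γ (z q) * γ q) * Y := by
    calc Y * ((γ p * γ (z p)) * (γ (z q) * γ q)) = (Y * (γ p * γ (z p))) * (γ (z q) * γ q) := by
          simp only [mul_assoc]
      _ = (γ p * γ (z p)) * (Y * (γ (z q) * γ q)) := by rw [← h3, mul_assoc]
      _ = (γ p * γ (z p)) * ((γ (z q) * γ q) * Y) := by rw [h2 q]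
      _ = _ := by simp only [mul_assoc]
  rw [h1, smul_mul_assoc, mul_smul_comm, h4]

end KSclM

open KSclM in
theorem specKScl : SpecKScl := by
  intro ι _ _ κ _ _ m γ hγ X hX hH
  have key : ∀ (S : Finset ((k : κ) × Fin (m k))) (Y : Matrix ι ι ℂ),
      (∀ p, p ≠ z p → p ∉ S → u γ p * Y = Y * u γ p) → X * Y = Y * X := by
    intro S
    induction S using Finset.induction with
    | empty =>
      intro Y hY
      exact hH Y fun k a b => comm_of_u hγ (fun p hp => hY p hp (Finset.notMem_empty p)) k a b
    | insert r S hr ih =>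
      intro Y hY
      by_cases hrz : r = z r
      · refine ih Y fun p hp hpS => hY p hp ?_
        rw [Finset.mem_insert, not_or]
        refine ⟨?_, hpS⟩
        rintro rfl
        exact hp hrz
      · -- conjugation by `u r`
        have hu := u_sq hγ hrz
        set U : Matrix ι ι ℂ := u γ r with hU
        set V : Matrix ι ι ℂ := (-4 : ℂ) • U with hV
        have hUV : U * V = 1 := by rw [hV, mul_smul_comm, hu]
        have hVU : V * U = 1 := by rw [hV, smul_mul_assoc, hu]
        have hstep : ∀ Y : Matrix ι ι ℂ, (∀ p, p ≠ z p → p ∉ insert r S → u γ p * Y = Y * u γ p) →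
            X * (Y + U * Y * V) = (Y + U * Y * V) * X := by
          intro Y hY
          refine ih _ fun p hp hpS => ?_
          by_cases hpr : p = r
          · subst hpr
            have e1 : u γ p = U := rfl
            rw [e1, mul_add, add_mul]
            have e2 : U * (U * Y * V) = Y * U := by
              have e3 : U * U = (-(4 : ℂ)⁻¹) • (1 : Matrix ι ι ℂ) := by
                rw [← hu, smul_smul]
                norm_num
              rw [hV]
              calc U * (U * Y * ((-4 : ℂ) • U)) = (U * U) * Y * ((-4 : ℂ) • U) := by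
                    simp only [mul_assoc]
                _ = Y * U := by
                    rw [e3, smul_mul_assoc, one_mul, smul_mul_assoc, mul_smul_comm, smul_smul]
                    norm_num
            have e4 : U * Y * V * U = U * Y := by rw [mul_assoc, hVU, mul_one]
            rw [e2, e4, add_comm]
          · have h1 := hY p hp (by rw [Finset.mem_insert, not_or]; exact ⟨hpr, hpS⟩)
            obtain ⟨s, hs, h2⟩ := u_u hγ hp r
            rw [← hU] at h2
            have h3 : u γ p * U = s • (U * u γ p) := by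
              rw [h2, smul_smul, hs, one_smul]
            have h4 : u γ p * V = s • (V * u γ p) := by
              rw [hV, mul_smul_comm, h3, smul_mul_assoc, smul_comm]
            have h5 : V * u γ p = s • (u γ p * V) := by
              rw [h4, smul_smul, hs, one_smul]
            rw [mul_add, add_mul, h1]
            congr 1
            calc u γ p * (U * Y * V) = (u γ p * U) * Y * V := by simp only [mul_assoc]
              _ = s • (U * (u γ p * Y) * V) := by
                  rw [h3]
                  simp only [smul_mul_assoc, mul_assoc]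
              _ = s • (U * Y * (u γ p * V)) := by
                  rw [h1]
                  simp only [mul_assoc]
              _ = U * Y * V * u γ p := by
                  rw [h4, mul_smul_comm, smul_smul, hs, one_smul]
                  simp only [mul_assoc]
        have h1 := hstep Y hY
        -- the same for `γ r Y`
        have hgu : γ r * U = -(U * γ r) := by
          have := gam_u hγ hrz r
          rw [if_pos (Or.inl rfl), neg_smul, one_smul] at this
          exact this
        have h2 := hstep (γ r * Y) fun p hp hpS => by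
          rw [Finset.mem_insert, not_or] at hpS
          have e1 : γ r * u γ p = u γ p * γ r := by
            have := gam_u hγ hp r
            rw [if_neg, one_smul] at this
            · exact this
            · rintro (h | h)
              · exact hpS.1 h.symm
              · apply hrz
                rw [h]
                rfl
          rw [← mul_assoc, ← e1, mul_assoc, hY p hp (by rw [Finset.mem_insert, not_or]; exact hpS),
            mul_assoc]
        have h3 : γ r * Y + U * (γ r * Y) * V = γ r * (Y - U * Y * V) := by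
          have e2 : U * (γ r * Y) = -(γ r * (U * Y)) := by
            rw [← mul_assoc, ← mul_assoc, hgu, neg_mul, neg_neg]
          rw [e2, mul_sub, neg_mul, ← sub_eq_add_neg]
          simp only [mul_assoc]
        rw [h3, ← mul_assoc, hX, mul_assoc, mul_assoc] at h2
        have h4 : X * (Y - U * Y * V) = (Y - U * Y * V) * X := by
          have h5 := congrArg (fun A => (2 : ℂ) • (γ r * A)) h2
          simp only [← mul_assoc] at h5
          rw [sq hγ] at h5
          simp only [mul_assoc, smul_mul_assoc, one_mul, smul_smul] at h5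
          norm_num at h5
          simpa only [mul_assoc] using h5
        have h5 : (2 : ℂ) • (X * Y) = (2 : ℂ) • (Y * X) := by
          have e1 : (2 : ℂ) • (X * Y) = X * (Y + U * Y * V) + X * (Y - U * Y * V) := by
            rw [← mul_add, two_smul, ← mul_add]
            congr 1
            abel
          have e2 : (2 : ℂ) • (Y * X) = (Y + U * Y * V) * X + (Y - U * Y * V) * X := by
            rw [← add_mul, two_smul, ← add_mul]
            congr 1
            abel
          rw [e1, e2, h1, h4]
        have h6 := congrArg (fun A => (2 : ℂ)⁻¹ • A) h5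
        simp only [smul_smul] at h6
        rw [inv_mul_cancel₀ two_ne_zero, one_smul, one_smul] at h6
        exact h6
  have hall : ∀ Y : Matrix ι ι ℂ, X * Y = Y * X := fun Y =>
    key Finset.univ Y fun p _ hp => absurd (Finset.mem_univ p) hp
  obtain ⟨s, hs⟩ := Matrix.mem_range_scalar_of_commute_single (M := X)
    (fun i j _ => (hall (single i j 1)).symm)
  refine ⟨s, ?_⟩
  rw [← hs, Matrix.scalar_apply, ← Matrix.smul_one_eq_diagonal]

end Pool.Agent.Lib.MPf11a48.K3
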