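import Pool.Agent.Lib.MP_f11a48_ag.K3.KSpec2
import Pool.Agent.Lib.MP_f11a48_ag.K3.KTen
import Pool.Agent.Lib.MP_f11a48_ag.helper92.Bridge

/-! # Objects obtained from an orthogonal object and the Tate object by tensor operations -/

set_option autoImplicit false
set_option linter.unusedSectionVars false

namespace Pool.Agent.Lib.MPf11a48.K3

open Matrix MvPolynomial Pool.Agent.Lib.MPf11a48.Tors
open Pool.Agent.Lib.MPf11a48.CM hiding OmegaM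
open Pool.Agent.Lib.MPf11a48.U (AbData Ix)

namespace KTen2M

open KTenM

variable {n : ℕ} {ι : Type} [Fintype ι] [DecidableEq ι]

/-- the entries of `g` and `g⁻¹` which are the coordinates of a block diagonal matrix -/
noncomputable def sb {k : IntermediateField ℚ ℂ} : Var2 n →
    MvPolynomial (((Fin n ⊕ Unit) × (Fin n ⊕ Unit)) ⊕ ((Fin n ⊕ Unit) × (Fin n ⊕ Unit))) k :=
  Sum.elim (Sum.elim (fun e => X (Sum.inl (Sum.inl e.1, Sum.inl e.2)))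
    fun e => X (Sum.inr (Sum.inl e.1, Sum.inl e.2)))
    (Sum.elim (fun _ => X (Sum.inl (Sum.inr (), Sum.inr ())))
      fun _ => X (Sum.inr (Sum.inr (), Sum.inr ())))

theorem sb_eval {k : IntermediateField ℚ ℂ} (x : GL (Fin n) ℂ × ℂˣ) :
    (fun e => aeval (Sum.elim (ent (bd x)) (ent (bd x)⁻¹)) (sb (k := k) e)) = crd x := by
  funext e
  rcases e with (e | e) | (e | e)
  · exact aeval_X _ _
  · exact aeval_X _ _
  · exact aeval_X _ _
  · refine (aeval_X _ _).trans ?_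
    change ((x.2⁻¹ : ℂˣ) : ℂ) = (x.2 : ℂ)⁻¹
    exact Units.val_inv_eq_inv_val _

/-- matrices without off-diagonal blocks -/
theorem exists_bd {g : GL (Fin n ⊕ Unit) ℂ} (h1 : ∀ i u, g.1 (Sum.inl i) (Sum.inr u) = 0)
    (h2 : ∀ u i, g.1 (Sum.inr u) (Sum.inl i) = 0) : ∃ x, bd x = g := by
  have ha : g.1 * g⁻¹.1 = 1 := g.mul_inv
  have hb : g⁻¹.1 * g.1 = 1 := g.inv_mul
  have hA : g.1.toBlocks₁₁ * g⁻¹.1.toBlocks₁₁ = 1 := by
    ext i j
    have h3 := congrFun (congrFun ha (Sum.inl i)) (Sum.inl j)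
    rw [Matrix.mul_apply, Fintype.sum_sum_type] at h3
    simp only [h1, zero_mul, Finset.sum_const_zero, add_zero] at h3
    rw [Matrix.mul_apply]
    refine h3.trans ?_
    simp [Matrix.one_apply]
  have hz : g.1 (Sum.inr ()) (Sum.inr ()) * g⁻¹.1 (Sum.inr ()) (Sum.inr ()) = 1 := by
    have h3 := congrFun (congrFun ha (Sum.inr ())) (Sum.inr ())
    rw [Matrix.mul_apply, Fintype.sum_sum_type] at h3
    simp only [h2, zero_mul, Finset.sum_const_zero, zero_add] at h3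
    simpa using h3
  refine ⟨(⟨g.1.toBlocks₁₁, g⁻¹.1.toBlocks₁₁, hA, mul_eq_one_comm.1 hA⟩,
    ⟨g.1 (Sum.inr ()) (Sum.inr ()), g⁻¹.1 (Sum.inr ()) (Sum.inr ()), hz, by
      rw [mul_comm]; exact hz⟩), ?_⟩
  apply Units.ext
  ext i j
  rcases i with i | i <;> rcases j with j | j
  · rfl
  · exact (h1 i j).symm
  · exact (h2 i j).symm
  · rfl

/-- preimages of closed sets under polynomial maps -/
theorem closedOver_pull2 {k : IntermediateField ℚ ℂ} {Ψ : GL (Fin n) ℂ × ℂˣ → GL ι ℂ}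
    (hΨ : ∀ i j, ∃ p : MvPolynomial (Var2 n) k, ∀ x, (Ψ x).1 i j = aeval (crd x) p)
    {T₀ : Set (GL ι ℂ)} (h : ClosedOver k T₀) :
    ClosedOver k {g : GL (Fin n ⊕ Unit) ℂ | ∃ x, bd x = g ∧ Ψ x ∈ T₀} := by
  obtain ⟨S, hS⟩ := h
  choose P hP using hΨ
  choose M q hq using fun p : MvPolynomial (ι × ι) k =>
    clear_inverse (ι := Fin n ⊕ Unit)
      (aeval (fun ij : ι × ι => aeval (sb (k := k) (n := n)) (P ij.1 ij.2)) p)
  have key : ∀ (p : MvPolynomial (ι × ι) k) (x : GL (Fin n) ℂ × ℂˣ),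
      aeval (ent (bd x)) (q p) = (bd x).1.det ^ M p *
        aeval (fun ij : ι × ι => (Ψ x).1 ij.1 ij.2) p := by
    intro p x
    rw [hq, comp_aeval_apply]
    congr 3
    funext ij
    rw [comp_aeval_apply, sb_eval]
    exact (hP ij.1 ij.2 x).symm
  refine ⟨{r | (∃ i u, r = X (Sum.inl i, Sum.inr u)) ∨ (∃ u i, r = X (Sum.inr u, Sum.inl i)) ∨
    ∃ p ∈ S, r = q p}, ?_⟩
  ext g
  constructor
  · rintro ⟨x, rfl, hx⟩ r (⟨i, u, rfl⟩ | ⟨u, i, rfl⟩ | ⟨p, hp, rfl⟩)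
    · exact aeval_X _ _
    · exact aeval_X _ _
    · have h1 := key p x
      rw [hS] at hx
      rw [hx p hp, mul_zero] at h1
      exact h1
  · intro hg
    have hg1 : ∀ (i : Fin n) (u : Unit), g.1 (Sum.inl i) (Sum.inr u) = 0 := by
      intro i u
      have h1 := hg (X (Sum.inl i, Sum.inr u)) (Or.inl ⟨i, u, rfl⟩)
      rw [aeval_X] at h1
      exact h1
    have hg2 : ∀ (u : Unit) (i : Fin n), g.1 (Sum.inr u) (Sum.inl i) = 0 := by
      intro u i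
      have h1 := hg (X (Sum.inr u, Sum.inl i)) (Or.inr (Or.inl ⟨u, i, rfl⟩))
      rw [aeval_X] at h1
      exact h1
    obtain ⟨x, rfl⟩ := exists_bd hg1 hg2
    refine ⟨x, rfl, ?_⟩
    rw [hS]
    intro p hp
    have h1 := (key p x).symm.trans (hg _ (Or.inr (Or.inr ⟨p, hp, rfl⟩)))
    exact (mul_eq_zero.1 h1).resolve_left (pow_ne_zero _ (det_ne (bd x)))

variable {Φ : GL (Fin n) ℂ × ℂˣ → GL ι ℂ}

theorem isTorsor_pull2 (hΦ : IsTens Φ) {T₀ : Set (GL ι ℂ)}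
    (hT₀ : IsTorsor Qbar T₀) {t : GL (Fin n) ℂ × ℂˣ} (ht : Φ t ∈ T₀) :
    IsTorsor Qbar {g : GL (Fin n ⊕ Unit) ℂ | ∃ x, bd x = g ∧ Φ x ∈ T₀} where
  closed := closedOver_pull2 hΦ.regular hT₀.closed
  nonempty := ⟨bd t, t, rfl, ht⟩
  heap := by
    rintro _ ⟨x, rfl, hx⟩ _ ⟨y, rfl, hy⟩ _ ⟨z, rfl, hz⟩
    refine ⟨x * y⁻¹ * z, by rw [map_mul, map_mul, map_inv], ?_⟩
    rw [hΦ.heap]
    exact hT₀.heap _ hx _ hy _ hz

theorem mul_eq2 (hΦ : IsTens Φ) (g t : GL (Fin n) ℂ × ℂˣ) :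
    Φ (g * t) = Φ g * (Φ 1)⁻¹ * Φ t := by
  rw [← hΦ.heap, inv_one, mul_one]

theorem bd_injective : Function.Injective (bd (n := n)) := by
  intro x y hxy
  have h1 : lb x.1.1 x.2 = lb y.1.1 y.2 := congrArg Units.val hxy
  refine Prod.ext (Units.ext ?_) (Units.ext ?_)
  · ext i j
    exact congrFun (congrFun h1 (Sum.inl i)) (Sum.inl j)
  · exact congrFun (congrFun h1 (Sum.inr ())) (Sum.inr ())

theorem grp_pull2 (hΦ : IsTens Φ) {T₀ : Set (GL ι ℂ)}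
    (hT₀ : IsTorsor Qbar T₀) (hcl : ClosedOver ⊥ (grp T₀)) {t : GL (Fin n) ℂ × ℂˣ}
    (ht : Φ t ∈ T₀) :
    ClosedOver ⊥ (grp {g : GL (Fin n ⊕ Unit) ℂ | ∃ x, bd x = g ∧ Φ x ∈ T₀}) := by
  have e : grp {g : GL (Fin n ⊕ Unit) ℂ | ∃ x, bd x = g ∧ Φ x ∈ T₀} =
      {g | ∃ x, bd x = g ∧ Φ x * (Φ 1)⁻¹ ∈ grp T₀} := by
    ext g
    rw [mem_grp_iff (isTorsor_pull2 hΦ hT₀ ht) (c := bd t) ⟨t, rfl, ht⟩]
    constructor
    · rintro ⟨x, hx, hx'⟩
      refine ⟨x * t⁻¹, by rw [map_mul, map_inv, hx, mul_inv_cancel_right], ?_⟩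
      rw [mem_grp_iff hT₀ ht, ← mul_eq2 hΦ, inv_mul_cancel_right]
      exact hx'
    · rintro ⟨x, rfl, hx⟩
      refine ⟨x * t, map_mul _ _ _, ?_⟩
      rw [mul_eq2 hΦ, ← mem_grp_iff hT₀ ht]
      exact hx
  rw [e]
  refine closedOver_pull2 (Ψ := fun x => Φ x * (Φ 1)⁻¹) (fun i j => ?_) hcl
  obtain ⟨p, hp⟩ := hΦ.rational i j
  obtain ⟨q, hq⟩ := exists_bot p
  exact ⟨q, fun x => (hp x).trans (hq _).symm⟩

/-- forgetting the Tate object -/
theorem isTens_of_isTensorial {Φ : GL (Fin n) ℂ → GL ι ℂ} (h : IsTensorial Φ) :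
    IsTens fun x : GL (Fin n) ℂ × ℂˣ => Φ x.1 where
  regular := by
    intro i j
    obtain ⟨p, hp, hF⟩ := h.regular i j
    obtain ⟨q, hq⟩ := GL2T.polyQ hp
    refine ⟨rename Sum.inl q, fun x => ?_⟩
    rw [aeval_rename]
    exact (hF x.1).trans (hq _).symm
  heap x y z := h.heap x.1 y.1 z.1
  rational := by
    intro i j
    obtain ⟨p, hp⟩ := h.rational i j
    refine ⟨rename Sum.inl p, fun x => ?_⟩
    rw [aeval_rename]
    exact hp x.1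

end KTen2M

open KTenM KTen2M in
theorem specKTen2 (hGrp : SpecKGrp2) : SpecKTen2 := by
  intro g N n A c t qdR qB B E κ _ _ m P lam hKS hSp h3 h5 K ι _ _ Φ hK hΦ
  have hT₀ : IsTorsor Qbar (OmegaDRB K (Φ (t, tpi))) := by
    have h := isTorsor_OmegaDRB K (Φ (t, tpi))
    exact ⟨GL2.closedOver_mono hK h.closed, h.nonempty, h.heap⟩
  have ht : Φ (t, tpi) ∈ OmegaDRB K (Φ (t, tpi)) := mem_OmegaDRB_self K (Φ (t, tpi))
  have hcl : ClosedOver ⊥ (grp (OmegaDRB K (Φ (t, tpi)))) := by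
    rw [grp_OmegaDRB]
    exact closedOver_GdRB K (Φ (t, tpi))
  have h0 : ∀ x ∈ soTorsor t qB m P, ∀ z, Φ (x, z) ∈ OmegaDRB K (Φ (t, tpi)) := by
    intro x hx z
    obtain ⟨y, hy, hy'⟩ := hGrp g N n A c t qdR qB B E κ m P lam hKS hSp h3 h5 _
      (isTorsor_pull2 hΦ hT₀ ht) ⟨_, rfl, ht⟩ (grp_pull2 hΦ hT₀ hcl ht) x hx z
    rwa [bd_injective hy] at hy'
  have h1 : ∀ x ∈ soTorsor t qB m P, ∀ z f, Conj K (Φ (x, z)) f →
      f ∈ OmegaDRB K (Φ (t, tpi)) := by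
    intro x hx z f hf
    obtain ⟨τ, hτ, hf⟩ := hf
    have hf' : f = tw τ (Φ (x, z)) := by
      apply Units.ext
      exact Matrix.ext hf
    rw [hf']
    exact OmegaDRB_tw hτ (h0 x hx z)
  refine ⟨h1, fun S hS hsub => ?_⟩
  have h3 : OmegaDRB K (Φ (t, tpi)) = OmegaS S := by
    refine (drb_subset hS).antisymm fun f hf => ?_
    obtain ⟨x, hx, z, hxf⟩ := hsub f hf
    exact h1 x hx z f hxf
  refine ⟨h3, ?_⟩
  rintro rfl
  rw [← h3]
  exact OmegaM_eq_OmegaDRB _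

open KTen2M in
/-- the version without Tate twists -/
theorem specKTen' (hTen : SpecKTen2) : SpecKTen := by
  intro g N n A c t qdR qB B E κ _ _ m P lam hKS hSp h3 h5 K ι _ _ Φ hK hΦ
  obtain ⟨h1, h2⟩ := hTen g N n A c t qdR qB B E κ m P lam hKS hSp h3 h5 K ι
    (fun x => Φ x.1) hK (isTens_of_isTensorial hΦ)
  refine ⟨fun x hx f hf => h1 x hx tpi f hf, fun S hS hsub => h2 S hS fun f hf => ?_⟩
  obtain ⟨x, hx, hxf⟩ := hsub f hf
  exact ⟨x, hx, tpi, hxf⟩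

end Pool.Agent.Lib.MPf11a48.K3
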