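import Pool.Agent.Lib.MP_f11a48_ag.K3.All
import Pool.Agent.Lib.MP_f11a48_ag.K3.Bic2
import Pool.Agent.Lib.MP_f11a48_ag.K3.KBr
import Pool.Agent.Lib.MP_f11a48_ag.K3.KInj
import Pool.Agent.Lib.MP_f11a48_ag.K3.KNI
import Pool.Agent.Lib.MP_f11a48_ag.K3.KIso
import Pool.Agent.Lib.MP_f11a48_ag.K3.KIrr
import Pool.Agent.Lib.MP_f11a48_ag.K3.KLnk
import Pool.Agent.Lib.MP_f11a48_ag.K3.LRat
import Pool.Agent.Lib.MP_f11a48_ag.K3.KRat2
import Pool.Agent.Lib.MP_f11a48_ag.K3.KRat3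
import Pool.Agent.Lib.MP_f11a48_ag.K3.KLie
import Pool.Agent.Lib.MP_f11a48_ag.K3.KFull2
import Pool.Agent.Lib.MP_f11a48_ag.K3.KFull3
import Pool.Agent.Lib.MP_f11a48_ag.K3.KGrp2
import Pool.Agent.Lib.MP_f11a48_ag.K3.KGrp3
import Pool.Agent.Lib.MP_f11a48_ag.K3.KScl
import Pool.Agent.Lib.MP_f11a48_ag.K3.KSc
import Pool.Agent.Lib.MP_f11a48_ag.K3.KCur
import Pool.Agent.Lib.MP_f11a48_ag.K3.KTen2
import Pool.Agent.Lib.MP_f11a48_ag.K3.KTen3
import Pool.Agent.Lib.MP_f11a48_ag.K3.KEx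
import Pool.Agent.Lib.MP_f11a48_ag.K3.KEx2
import Pool.Agent.Lib.MP_f11a48_ag.U.Final

/-! # Kuga-Satake varieties: assembly -/

set_option autoImplicit false

namespace Pool.Agent.Lib.MPf11a48.K3

theorem kHDA : U.SpecHDA := U.hda' U.specTL'

theorem kLie : SpecKLie :=
  specKLie specBic2 (specKNI specKBr specKInj) specKIso specKIrr specKLnk rep specGour

theorem kTen2 : SpecKTen2 :=
  specKTen2 (specKGrp2 (specKFull2 (specKRat2 specLRat) kLie specPerf kHDA) specCurve specGen)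

theorem kEx : SpecKEx := specKEx (specKTen' kTen2)

theorem kEx2 : SpecKEx2 := specKEx2 kTen2

theorem kTen3 : SpecKTen3 :=
  specKTen3 (specKGrp3 (specKFull3 (specKRat3 specLRat) kLie specPerf kHDA (specKSc specKScl))
    specKCur (specKSc specKScl) kHDA specCurve specGen)

end Pool.Agent.Lib.MPf11a48.K3
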