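import Pool.Agent.Lib.MP_f11a48_ag.K3.Stmt
import Pool.Agent.Lib.MP_f11a48_ag.U.Statement

/-!
# Orthogonal de Rham-Betti objects with a Kuga-Satake variety

Period matrices are written as in the other files: rows are indexed by a basis of the Betti space,
columns by a basis of the de Rham space.
-/

set_option autoImplicit false

namespace Pool.Agent.Lib.MPf11a48.K3

open Matrix MvPolynomial Pool.Agent.Lib.MPf11a48.CM Pool.Agent.Lib.MPf11a48.GL2T
open Pool.Agent.Lib.MPf11a48.U (AbData Ix)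

/-- complexification of a rational matrix -/
def cx {μ ν : Type} (A : Matrix μ ν ℚ) : Matrix μ ν ℂ := A.map (fun x => (x : ℂ))

/-- The Lie algebra of the infinitesimal isometries of `qB` which commute with `E`. -/
def soE {n : ℕ} (qB : Matrix (Fin n) (Fin n) ℚ) (E : Set (Matrix (Fin n) (Fin n) ℚ)) :
    Set (Matrix (Fin n) (Fin n) ℚ) :=
  {ρ | ρᵀ * qB + qB * ρ = 0 ∧ ∀ e ∈ E, ρ * e = e * ρ}

/-- The image of `ρ` in the even Clifford algebra (up to the factor `1/4`), if `B i` is the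
Clifford multiplication by the `i`-th basis vector. -/
noncomputable def cli {n : ℕ} {μ : Type} [Fintype μ] (qB : Matrix (Fin n) (Fin n) ℚ)
    (B : Fin n → Matrix μ μ ℚ) (ρ : Matrix (Fin n) (Fin n) ℚ) : Matrix μ μ ℚ :=
  ∑ i, ∑ j, (ρ * qB⁻¹) i j • (B i * B j)

/-- `T` is an orthogonal de Rham-Betti object over `Qbar` (with rational Betti space) of rank `n`,
with period matrix `t` and Gram matrices `qdR`, `qB`, and `A` (an abelian variety over `Qbar` with
period matrix `c`) is a Kuga-Satake variety of `T`: the morphism `T → End(h^1(A))`, given on the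
Betti side by `e_i ↦ B i`, satisfies `v ∘ v = q(v)`; the elements of `E` are endomorphisms of `T`;
every endomorphism of `A` commutes with the infinitesimal isometries of `T` which commute
with `E`. -/
structure KugaSatake {g N n : ℕ} (A : AbData g N) (c : GL (Ix g) ℂ) (t : GL (Fin n) ℂ)
    (qdR : Matrix (Fin n) (Fin n) ℂ) (qB : Matrix (Fin n) (Fin n) ℚ)
    (B : Fin n → Matrix (Ix g) (Ix g) ℚ) (E : Set (Matrix (Fin n) (Fin n) ℚ)) : Prop where
  pos : 0 < g
  abvar : A.IsAbVar Qbar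
  per : c.1 = A.per
  symm : qBᵀ = qB
  det : qB.det ≠ 0
  alg : IsAlg qdR
  form : t.1ᵀ * cx qB * t.1 = qdR
  clifford : ∀ i j, B i * B j + B j * B i = (2 * qB i j) • (1 : Matrix (Ix g) (Ix g) ℚ)
  morphism : ∀ j, ∃ B' : Matrix (Ix g) (Ix g) ℂ, IsAlg B' ∧
    c.1 * B' = (∑ i, t.1 i j • cx (B i)) * c.1
  endT : ∀ e ∈ E, ∃ e' : Matrix (Fin n) (Fin n) ℂ, IsAlg e' ∧ t.1 * e' = cx e * t.1
  endA : ∀ Z : Matrix (Ix g) (Ix g) ℚ, A.IsEndo Z → ∀ ρ ∈ soE qB E,
    Z * cli qB B ρ = cli qB B ρ * Z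

/-- Over `ℂ`, the orthogonal space `T_B ⊗ ℂ` is the orthogonal sum of the (common) eigenspaces of
`E`, of dimension `m k`; the columns of `P` are orthonormal bases of the eigenspaces. -/
structure Split {n : ℕ} (qB : Matrix (Fin n) (Fin n) ℚ) (E : Set (Matrix (Fin n) (Fin n) ℚ))
    {κ : Type} [Fintype κ] [DecidableEq κ] (m : κ → ℕ)
    (P : Matrix (Fin n) ((k : κ) × Fin (m k)) ℂ) (lam : Matrix (Fin n) (Fin n) ℚ → κ → ℂ) :
    Prop where
  orth : Pᵀ * cx qB * P = 1
  onto : P * (Pᵀ * cx qB) = 1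
  eig : ∀ e ∈ E, cx e * P = P * Matrix.diagonal fun u : (k : κ) × Fin (m k) => lam e u.1
  sep : ∀ k l, k ≠ l → ∃ e ∈ E, lam e k ≠ lam e l

/-- The isomorphisms `x t`, where `x` is an isometry of `T_B ⊗ ℂ` which preserves the eigenspaces
of `E` and has determinant `1` on each of them. -/
def soTorsor {n : ℕ} (t : GL (Fin n) ℂ) (qB : Matrix (Fin n) (Fin n) ℚ) {κ : Type} [Fintype κ]
    [DecidableEq κ] (m : κ → ℕ) (P : Matrix (Fin n) ((k : κ) × Fin (m k)) ℂ) :
    Set (GL (Fin n) ℂ) :=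
  {f | ∃ x : (k : κ) → SO (m k),
    f.1 = P * Matrix.blockDiagonal' (fun k => (x k).1.1) * (Pᵀ * cx qB) * t.1}

/-- `Φ : GL_n → GL_ι` is a morphism of torsors over `Qbar`, and the corresponding homomorphism of
groups `g ↦ Φ(g) Φ(1)⁻¹` is defined over `ℚ`. (For an object `T` of rank `n` with period matrix `t`
this means that `Φ t` is the period matrix of an object obtained from `T` by tensor operations.) -/
structure IsTensorial {n : ℕ} {ι : Type} [Fintype ι] [DecidableEq ι]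
    (Φ : GL (Fin n) ℂ → GL ι ℂ) : Prop where
  regular : ∀ i j, RegularGL fun f => (Φ f).1 i j
  heap : ∀ x y z, Φ (x * y⁻¹ * z) = Φ x * (Φ y)⁻¹ * Φ z
  rational : ∀ i j, ∃ p : MvPolynomial (Fin n × Fin n ⊕ Fin n × Fin n) ℚ, ∀ g : GL (Fin n) ℂ,
    (Φ g * (Φ 1)⁻¹).1 i j = aeval (Sum.elim (fun e => g.1 e.1 e.2) fun e => g⁻¹.1 e.1 e.2) p

/-- The class of the bilinear form with Gram matrices `qdR`, `qB`. -/
def formPair {K : IntermediateField ℚ ℂ} {n : ℕ} (qdR : Matrix (Fin n) (Fin n) K)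
    (qB : Matrix (Fin n) (Fin n) ℚ) : TPair K (Fin n) where
  n := 0
  m := 2
  dR J := qdR (J.2 0) (J.2 1)
  B J := qB (J.2 0) (J.2 1)

/-- The class of the determinant, if it has the value `δ`. -/
noncomputable def detPair {K : IntermediateField ℚ ℂ} {n : ℕ} (δ : K) : TPair K (Fin n) where
  n := n
  m := 0
  dR J := δ⁻¹ * (Matrix.of fun a b => if J.1 a = b then (1 : K) else 0).det
  B J := (Matrix.of fun a b => if J.1 a = b then (1 : ℚ) else 0).det

end Pool.Agent.Lib.MPf11a48.K3
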