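import Pool.Agent.Lib.MP_f11a48_ag.K3.KStmt

/-!
# Objects built from an orthogonal object and the Tate object by tensor operations
-/

set_option autoImplicit false

namespace Pool.Agent.Lib.MPf11a48.K3

open Matrix MvPolynomial Pool.Agent.Lib.MPf11a48.CM Pool.Agent.Lib.MPf11a48.GL2T
open Pool.Agent.Lib.MPf11a48.U (AbData Ix)

/-- Indices for the coordinates of `GL_n × G_m`. -/
abbrev Var2 (n : ℕ) : Type := (Fin n × Fin n ⊕ Fin n × Fin n) ⊕ (Unit ⊕ Unit)

/-- The coordinates of the point `(f, z)` of `GL_n × G_m`: the entries of `f` and `f⁻¹`, and `z`,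
`1 / z`. -/
noncomputable def crd {n : ℕ} (x : GL (Fin n) ℂ × ℂˣ) : Var2 n → ℂ :=
  Sum.elim (Sum.elim (fun e => x.1.1 e.1 e.2) fun e => x.1⁻¹.1 e.1 e.2)
    (Sum.elim (fun _ => (x.2 : ℂ)) fun _ => (x.2 : ℂ)⁻¹)

/-- `Φ : GL_n × G_m → GL_ι` is a morphism of torsors over `Qbar`, and the corresponding homomorphism
of groups `x ↦ Φ(x) Φ(1)⁻¹` is defined over `ℚ`. (For an object `T` of rank `n` with period matrix
`t` this means that `Φ(t, 2 π i)` is the period matrix of an object obtained from `T` and the Tate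
object `ℚ(-1)` by tensor operations.) -/
structure IsTens {n : ℕ} {ι : Type} [Fintype ι] [DecidableEq ι]
    (Φ : GL (Fin n) ℂ × ℂˣ → GL ι ℂ) : Prop where
  regular : ∀ i j, ∃ p : MvPolynomial (Var2 n) Qbar, ∀ x, (Φ x).1 i j = aeval (crd x) p
  heap : ∀ x y z, Φ (x * y⁻¹ * z) = Φ x * (Φ y)⁻¹ * Φ z
  rational : ∀ i j, ∃ p : MvPolynomial (Var2 n) ℚ, ∀ x,
    (Φ x * (Φ 1)⁻¹).1 i j = aeval (crd x) p

/-- `2 π i`, the period of the Tate object `ℚ(-1)` -/
noncomputable def tpi : ℂˣ := Units.mk0 (2 * Real.pi * Complex.I) Complex.two_pi_I_ne_zero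

end Pool.Agent.Lib.MPf11a48.K3
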