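import Pool.Agent.Lib.MP_f11a48_ag.K3.Comb

/-!
# Root data and weights of representations of semisimple Lie algebras
-/

set_option autoImplicit false
set_option linter.unusedSectionVars false

namespace Pool.Agent.Lib.MPf11a48.K3

open Module LieAlgebra LieAlgebra.IsKilling

/-- a representation of a Lie algebra on a vector space -/
structure Rp (F L M : Type) [Field F] [LieRing L] [LieAlgebra F L] [AddCommGroup M]
    [Module F M] where
  /-- the action -/
  r : L →ₗ[F] M →ₗ[F] M
  lie : ∀ x y v, r ⁅x, y⁆ v = r x (r y v) - r y (r x v)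

section defs

variable {F L : Type} [Field F] [CharZero F] [IsAlgClosed F] [LieRing L] [LieAlgebra F L]
  [Module.Finite F L] [IsKilling F L] (H : LieSubalgebra F L) [H.IsCartanSubalgebra]

/-- weights with rational values on all coroots -/
def PW : Submodule ℚ (Dual F H) where
  carrier := {μ | ∀ α : H.root, ∃ q : ℚ, μ (coroot α.1) = (q : F)}
  add_mem' := by
    intro μ ν hμ hν α
    obtain ⟨q, hq⟩ := hμ α
    obtain ⟨r, hr⟩ := hν α
    exact ⟨q + r, by rw [LinearMap.add_apply, hq, hr]; push_cast; rfl⟩
  zero_mem' := fun α => ⟨0, by simp⟩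
  smul_mem' := by
    intro t μ hμ α
    obtain ⟨q, hq⟩ := hμ α
    refine ⟨t * q, ?_⟩
    rw [LinearMap.smul_apply, hq, Rat.smul_def]
    push_cast
    rfl

variable {H}

theorem pw_unique {μ : Dual F H} {α : H.root} {q r : ℚ} (hq : μ (coroot α.1) = (q : F))
    (hr : μ (coroot α.1) = (r : F)) : q = r := by
  have : (q : F) = (r : F) := hq.symm.trans hr
  exact_mod_cast this

/-- the pairing with the coroot of a root -/
noncomputable def val (α : H.root) : PW H →ₗ[ℚ] ℚ where
  toFun μ := (μ.2 α).choose
  map_add' μ ν := by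
    refine pw_unique ((μ + ν).2 α).choose_spec ?_
    have h1 := (μ.2 α).choose_spec
    have h2 := (ν.2 α).choose_spec
    push_cast
    exact congrArg₂ (· + ·) h1 h2
  map_smul' t μ := by
    refine pw_unique ((t • μ).2 α).choose_spec ?_
    have h1 := (μ.2 α).choose_spec
    have h2 : (t • μ.1) (coroot α.1) = t • μ.1 (coroot α.1) := LinearMap.smul_apply _ _ _
    refine h2.trans ?_
    rw [Rat.smul_def, RingHom.id_apply, smul_eq_mul]
    push_cast
    exact congrArg ((t : F) * ·) h1

theorem val_spec (α : H.root) (μ : PW H) : μ.1 (coroot α.1) = ((val α μ : ℚ) : F) :=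
  (μ.2 α).choose_spec

variable (H) in
/-- the root data of `(L, H)`, in the space of rational weights -/
noncomputable def rdat : RDat (PW H) where
  R := {μ | ∃ α : H.root, (α.1.toLinear : Dual F H) = μ.1}
  pr μ := by
    classical
    exact if h : ∃ α : H.root, (α.1.toLinear : Dual F H) = μ.1 then val h.choose else 0

/-- weight spaces of a representation `ρ` -/
def wtsp {M : Type} [AddCommGroup M] [Module F M] (H : LieSubalgebra F L)
    (ρ : Rp F L M) (μ : Dual F H) : Submodule F M where
  carrier := {v | ∀ h : H, ρ.r h.1 v = μ h • v}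
  add_mem' := by
    intro v w hv hw h
    rw [map_add, hv h, hw h, smul_add]
  zero_mem' := by
    intro h
    rw [map_zero, smul_zero]
  smul_mem' := by
    intro t v hv h
    rw [map_smul, hv h, smul_comm]

/-- multiplicities of a representation -/
noncomputable def mu {M : Type} [AddCommGroup M] [Module F M] (H : LieSubalgebra F L)
    [H.IsCartanSubalgebra] (ρ : Rp F L M) (μ : PW H) : ℕ := finrank F (wtsp H ρ μ.1)

/-- `M` has no invariant subspace except `0` and `M` -/
def IrrRep {M : Type} [AddCommGroup M] [Module F M] (ρ : Rp F L M) : Prop :=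
  Nontrivial M ∧ ∀ W : Submodule F M, (∀ x, ∀ v ∈ W, ρ.r x v ∈ W) → W = ⊥ ∨ W = ⊤

/-- `M` is the sum of its weight spaces -/
def Diag {M : Type} [AddCommGroup M] [Module F M] (H : LieSubalgebra F L)
    (ρ : Rp F L M) : Prop := ⨆ μ : Dual F H, wtsp H ρ μ = ⊤

end defs

/-- RT: the roots of a semisimple Lie algebra satisfy the axioms. -/
def SpecRoot : Prop :=
  ∀ (F L : Type) [Field F] [CharZero F] [IsAlgClosed F] [LieRing L] [LieAlgebra F L]
    [Module.Finite F L] [IsKilling F L] (H : LieSubalgebra F L) [H.IsCartanSubalgebra],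
    (rdat H).Ok

/-- INT: weights of finite dimensional representations are integral. -/
def SpecInt : Prop :=
  ∀ (F L : Type) [Field F] [CharZero F] [IsAlgClosed F] [LieRing L] [LieAlgebra F L]
    [Module.Finite F L] [IsKilling F L] (H : LieSubalgebra F L) [H.IsCartanSubalgebra]
    (M : Type) [AddCommGroup M] [Module F M] [Module.Finite F M] (ρ : Rp F L M)
    (μ : Dual F H), wtsp H ρ μ ≠ ⊥ → ∀ α : H.root, ∃ z : ℤ, μ (coroot α.1) = (z : F)

/-- WT: the multiplicities of a finite dimensional representation satisfy the axioms. -/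
def SpecWt : Prop :=
  ∀ (F L : Type) [Field F] [CharZero F] [IsAlgClosed F] [LieRing L] [LieAlgebra F L]
    [Module.Finite F L] [IsKilling F L] (H : LieSubalgebra F L) [H.IsCartanSubalgebra]
    (M : Type) [AddCommGroup M] [Module F M] [Module.Finite F M] (ρ : Rp F L M),
    Wt (rdat H) (mu H ρ)

/-- IW: the multiplicities of an irreducible representation satisfy the axioms. -/
def SpecIWt : Prop :=
  ∀ (F L : Type) [Field F] [CharZero F] [IsAlgClosed F] [LieRing L] [LieAlgebra F L]
    [Module.Finite F L] [IsKilling F L] (H : LieSubalgebra F L) [H.IsCartanSubalgebra]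
    (M : Type) [AddCommGroup M] [Module F M] [Module.Finite F M] (ρ : Rp F L M),
    IrrRep ρ → Diag H ρ → IWt (rdat H) (mu H ρ)

/-- NI: irreducible representations with the same highest weight are isomorphic. -/
def SpecNI : Prop :=
  ∀ (F L : Type) [Field F] [CharZero F] [IsAlgClosed F] [LieRing L] [LieAlgebra F L]
    [Module.Finite F L] [IsKilling F L] (H : LieSubalgebra F L) [H.IsCartanSubalgebra]
    (M N : Type) [AddCommGroup M] [Module F M] [Module.Finite F M] [AddCommGroup N] [Module F N]
    [Module.Finite F N] (ρ : Rp F L M) (σ : Rp F L N),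
    IrrRep ρ → Diag H ρ → IrrRep σ → Diag H σ →
    (∀ φ : M →ₗ[F] N, (∀ x v, φ (ρ.r x v) = σ.r x (φ v)) → φ = 0) →
    NonIso (rdat H) (mu H ρ) (mu H σ)

/-- STAR -/
def SpecStar : Prop :=
  ∀ (F L : Type) [Field F] [CharZero F] [IsAlgClosed F] [LieRing L] [LieAlgebra F L]
    [Module.Finite F L] [IsKilling F L] (H : LieSubalgebra F L) [H.IsCartanSubalgebra]
    (M : Type) [AddCommGroup M] [Module F M] [Module.Finite F M] (ρ : Rp F L M),
    Star (rdat H) (mu H ρ)

/-- CNT: dimension of `L` from the roots. -/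
def SpecCount : Prop :=
  ∀ (F L : Type) [Field F] [CharZero F] [IsAlgClosed F] [LieRing L] [LieAlgebra F L]
    [Module.Finite F L] [IsKilling F L] (H : LieSubalgebra F L) [H.IsCartanSubalgebra],
    finrank F L = finrank F H + (rdat H).R.ncard

/-- DIAG: a Cartan subalgebra acts diagonalisably on an irreducible representation. -/
def SpecDiag : Prop :=
  ∀ (F L : Type) [Field F] [CharZero F] [IsAlgClosed F] [LieRing L] [LieAlgebra F L]
    [Module.Finite F L] [IsKilling F L] (H : LieSubalgebra F L) [H.IsCartanSubalgebra]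
    (M : Type) [AddCommGroup M] [Module F M] [Module.Finite F M] (ρ : Rp F L M),
    IrrRep ρ → Diag H ρ

/-- WEYL: complete reducibility. -/
def SpecWeyl : Prop :=
  ∀ (F L : Type) [Field F] [CharZero F] [IsAlgClosed F] [LieRing L] [LieAlgebra F L]
    [Module.Finite F L] [IsKilling F L]
    (M : Type) [AddCommGroup M] [Module F M] [Module.Finite F M] (ρ : Rp F L M)
    (N : Submodule F M), (∀ x, ∀ v ∈ N, ρ.r x v ∈ N) →
    ∃ p : Module.End F M, (∀ x v, p (ρ.r x v) = ρ.r x (p v)) ∧ (∀ v, p v ∈ N) ∧ ∀ v ∈ N, p v = v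

end Pool.Agent.Lib.MPf11a48.K3
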