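import Pool.Agent.Lib.MP_f11a48_ag.K3.Ext

/-!
# LNK: no morphisms between the skew-symmetric matrices
-/

set_option autoImplicit false
set_option linter.unusedSectionVars false

namespace Pool.Agent.Lib.MPf11a48.K3

open Matrix MvPolynomial Pool.Agent.Lib.MPf11a48.Tors
open Pool.Agent.Lib.MPf11a48.CM hiding OmegaM
open Pool.Agent.Lib.MPf11a48.GL2 (Geo lie)
open scoped Kronecker

namespace LnkM

open ExtM

variable {n m : ℕ}

/-- the indices of the tensors -/
abbrev Ix (n m : ℕ) : Type := Fin n × Fin n × Fin m × Fin m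

/-- the matrix of `c ⊗ c ⊗ d ⊗ d` -/
noncomputable def P4 (A : Matrix (Fin n) (Fin n) ℂ) (B : Matrix (Fin m) (Fin m) ℂ) :
    Matrix (Ix n m) (Ix n m) ℂ := A ⊗ₖ (A ⊗ₖ (B ⊗ₖ B))

theorem P4_mul {A A' : Matrix (Fin n) (Fin n) ℂ} {B B' : Matrix (Fin m) (Fin m) ℂ}
    (h : A * A' = 1) (h' : B * B' = 1) : P4 A B * P4 A' B' = 1 := by
  unfold P4
  rw [← mul_kronecker_mul, ← mul_kronecker_mul, ← mul_kronecker_mul, h, h', one_kronecker_one,
    one_kronecker_one, one_kronecker_one]

theorem P4_apply (A : Matrix (Fin n) (Fin n) ℂ) (B : Matrix (Fin m) (Fin m) ℂ) (x y : Ix n m) :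
    P4 A B x y = A x.1 y.1 * (A x.2.1 y.2.1 * (B x.2.2.1 y.2.2.1 * B x.2.2.2 y.2.2.2)) := rfl

/-- the action on tensors of a pair of matrices -/
def act4 {R : Type} [Ring R] (M : Matrix (Fin n) (Fin n) R × Matrix (Fin m) (Fin m) R)
    (w : Ix n m → R) : Ix n m → R := fun x =>
  ∑ p, M.1 x.1 p * w (p, x.2) + ∑ p, M.1 x.2.1 p * w (x.1, p, x.2.2) +
    ∑ p, M.2 x.2.2.1 p * w (x.1, x.2.1, p, x.2.2.2) +
    ∑ p, M.2 x.2.2.2 p * w (x.1, x.2.1, x.2.2.1, p)

theorem D_P4 (D : Derivation Qbar ℂ ℂ) (c : GL (Fin n) ℂ) (d : GL (Fin m) ℂ) (v : Ix n m → ℂ) :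
    ((P4 c.1 d.1).map D).mulVec v = act4 (dlog D c, dlog D d) ((P4 c.1 d.1).mulVec v) := by
  funext x
  have h1 : ∀ y, D (P4 c.1 d.1 x y) =
      ∑ p, dlog D c x.1 p * P4 c.1 d.1 (p, x.2) y +
      ∑ p, dlog D c x.2.1 p * P4 c.1 d.1 (x.1, p, x.2.2) y +
      ∑ p, dlog D d x.2.2.1 p * P4 c.1 d.1 (x.1, x.2.1, p, x.2.2.2) y +
      ∑ p, dlog D d x.2.2.2 p * P4 c.1 d.1 (x.1, x.2.1, x.2.2.1, p) y := by
    intro y
    have l4 : ∀ a b u v : ℂ, D (a * (b * (u * v))) = D a * (b * (u * v)) + D b * (a * (u * v)) +
        D u * (a * (b * v)) + D v * (a * (b * u)) := by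
      intro a b u v
      rw [Derivation.leibniz, Derivation.leibniz, Derivation.leibniz]
      simp only [smul_eq_mul]
      ring
    rw [P4_apply, l4, D_entry D c x.1, D_entry D c x.2.1, D_entry D d x.2.2.1,
      D_entry D d x.2.2.2, Finset.sum_mul, Finset.sum_mul, Finset.sum_mul, Finset.sum_mul]
    simp only [P4_apply]
    congr 1
    · congr 1
      · congr 1
        · refine Finset.sum_congr rfl fun p _ => ?_
          ring
        · refine Finset.sum_congr rfl fun p _ => ?_
          ring
      · refine Finset.sum_congr rfl fun p _ => ?_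
        ring
    · refine Finset.sum_congr rfl fun p _ => ?_
      ring
  simp only [mulVec, dotProduct, Matrix.map_apply, h1, act4, add_mul, Finset.sum_add_distrib,
    Finset.sum_mul, Finset.mul_sum]
  congr 1
  · congr 1
    · congr 1
      · rw [Finset.sum_comm]
        refine Finset.sum_congr rfl fun p _ => Finset.sum_congr rfl fun y _ => ?_
        ring
      · rw [Finset.sum_comm]
        refine Finset.sum_congr rfl fun p _ => Finset.sum_congr rfl fun y _ => ?_
        ring
    · rw [Finset.sum_comm]
      refine Finset.sum_congr rfl fun p _ => Finset.sum_congr rfl fun y _ => ?_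
      ring
  · rw [Finset.sum_comm]
    refine Finset.sum_congr rfl fun p _ => Finset.sum_congr rfl fun y _ => ?_
    ring

/-- the action is linear in the pair of matrices -/
theorem act4_span (h : Set (Matrix (Fin n) (Fin n) Qbar × Matrix (Fin m) (Fin m) Qbar))
    (w : Ix n m → Qbar) (hw : ∀ X ∈ h, act4 X w = 0)
    (M : Matrix (Fin n) (Fin n) ℂ × Matrix (Fin m) (Fin m) ℂ)
    (hM : M ∈ Submodule.span ℂ {M | ∃ X ∈ h, M = (toC X.1, toC X.2)}) :
    act4 M (fun I => ((w I : Qbar) : ℂ)) = 0 := by
  induction hM using Submodule.span_induction with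
  | mem M h =>
    obtain ⟨X, hX, rfl⟩ := h
    funext I
    have h1 := congrFun (hw X hX) I
    have h2 := congrArg (algebraMap Qbar ℂ) h1
    simp only [act4, map_sum, map_mul, map_add, Pi.zero_apply, map_zero] at h2
    exact h2
  | zero => funext I; simp [act4]
  | add M N _ _ h1 h2 =>
    funext I
    have e1 := congrFun h1 I
    have e2 := congrFun h2 I
    simp only [act4, Pi.zero_apply] at e1 e2 ⊢
    simp only [Prod.fst_add, Prod.snd_add, Matrix.add_apply, add_mul, Finset.sum_add_distrib]
    linear_combination e1 + e2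
  | smul t M _ h1 =>
    funext I
    have e1 := congrFun h1 I
    simp only [act4, Pi.zero_apply] at e1 ⊢
    simp only [Prod.smul_fst, Prod.smul_snd, Matrix.smul_apply, smul_eq_mul, mul_assoc,
      ← Finset.mul_sum]
    linear_combination t * e1

end LnkM

open ExtM LnkM

theorem specLnk : SpecLnk := by
  intro n m c d h hskew hNL hlog φ hφ1 hφ2 hφ3
  let w : Ix n m → Qbar := fun x => φ (Matrix.single x.1 x.2.1 1) x.2.2.1 x.2.2.2
  have hw : ∀ X ∈ h, act4 X w = 0 := by
    intro X hX
    obtain ⟨hs1, hs2⟩ := hskew X hX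
    have s1 : ∀ a b, X.1 a b = -X.1 b a := by
      intro a b
      have := congrFun (congrFun hs1 b) a
      rw [Matrix.transpose_apply, Matrix.neg_apply] at this
      exact this
    have s2 : ∀ a b, X.2 a b = -X.2 b a := by
      intro a b
      have := congrFun (congrFun hs2 b) a
      rw [Matrix.transpose_apply, Matrix.neg_apply] at this
      exact this
    funext x
    obtain ⟨i, j, k, l⟩ := x
    have h1 : X.1 * Matrix.single i j 1 - Matrix.single i j 1 * X.1 =
        ∑ p, X.1 p i • Matrix.single p j (1 : Qbar) - ∑ p, X.1 j p • Matrix.single i p (1 : Qbar) := by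
      ext a b
      rw [Matrix.sub_apply, Matrix.sub_apply, Matrix.sum_apply, Matrix.sum_apply,
        Matrix.mul_apply, Matrix.mul_apply]
      simp only [Matrix.smul_apply, Matrix.single_apply, smul_eq_mul]
      have a1 : ∑ p, X.1 a p * (if i = p ∧ j = b then (1 : Qbar) else 0) =
          if j = b then X.1 a i else 0 := by
        rw [Finset.sum_eq_single i]
        · simp
        · intro p _ hp
          simp [Ne.symm hp]
        · simp
      have a2 : ∑ p, (if i = a ∧ j = p then (1 : Qbar) else 0) * X.1 p b =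
          if i = a then X.1 j b else 0 := by
        rw [Finset.sum_eq_single j]
        · simp
        · intro p _ hp
          simp [Ne.symm hp]
        · simp
      have a3 : ∑ p, X.1 p i * (if p = a ∧ j = b then (1 : Qbar) else 0) =
          if j = b then X.1 a i else 0 := by
        rw [Finset.sum_eq_single a]
        · simp
        · intro p _ hp
          simp [hp]
        · simp
      have a4 : ∑ p, X.1 j p * (if i = a ∧ p = b then (1 : Qbar) else 0) =
          if i = a then X.1 j b else 0 := by
        rw [Finset.sum_eq_single b]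
        · simp
        · intro p _ hp
          simp [hp]
        · simp
      rw [a1, a2, a3, a4]
    have h2 := hφ3 X hX (Matrix.single i j 1)
    rw [h1, map_sub, map_sum, map_sum] at h2
    have h3 := congrFun (congrFun h2 k) l
    simp only [map_smul, Matrix.sub_apply, Matrix.sum_apply, Matrix.smul_apply, smul_eq_mul,
      Matrix.mul_apply] at h3
    simp only [act4, w, Pi.zero_apply]
    have e1 : ∑ p, X.1 i p * φ (Matrix.single p j 1) k l =
        -∑ p, X.1 p i * φ (Matrix.single p j 1) k l := by
      rw [← Finset.sum_neg_distrib]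
      refine Finset.sum_congr rfl fun p _ => ?_
      rw [s1 i p]
      ring
    have e2 : ∑ p, X.2 l p * φ (Matrix.single i j 1) k p =
        -∑ p, φ (Matrix.single i j 1) k p * X.2 p l := by
      rw [← Finset.sum_neg_distrib]
      refine Finset.sum_congr rfl fun p _ => ?_
      rw [s2 l p]
      ring
    rw [e1, e2]
    linear_combination -h3
  have hcc : c.1 * c⁻¹.1 = 1 := c.mul_inv
  have hdd : d.1 * d⁻¹.1 = 1 := d.mul_inv
  have hPQ := P4_mul hcc hdd
  obtain ⟨h1, h2⟩ := key (P4 c.1 d.1) (P4 c⁻¹.1 d⁻¹.1) hPQ (fun I => ((w I : Qbar) : ℂ))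
    (fun I => (w I).2) (fun D => by
      rw [D_P4, mulVec_mulVec, hPQ, one_mulVec]
      exact act4_span h w hw _ (hlog D))
  have h3 := hNL (fun i j k l => (P4 c⁻¹.1 d⁻¹.1).mulVec (fun I => ((w I : Qbar) : ℂ)) (i, j, k, l))
    (fun i j k l => ((w (i, j, k, l) : Qbar) : ℂ)) (fun i j k l => h2 _) (fun i j k l => (w _).2)
    (by
      intro i j k l
      have e : w (j, i, k, l) = -w (i, j, k, l) := by
        simp only [w]
        have e1 := hφ1 (Matrix.single i j 1)
        rw [Matrix.transpose_single] at e1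
        rw [e1, Matrix.neg_apply]
      rw [e]
      simp)
    (by
      intro i j k l
      have e : w (i, j, l, k) = -w (i, j, k, l) := by
        simp only [w]
        have e1 := congrFun (congrFun (hφ2 (Matrix.single i j 1)) k) l
        rw [Matrix.transpose_apply, Matrix.neg_apply] at e1
        exact e1
      rw [e]
      simp)
    (by
      intro i j k l
      have e := congrFun h1 (i, j, k, l)
      rw [← e]
      conv_rhs => rw [mulVec, dotProduct]
      rw [Fintype.sum_prod_type]
      refine Finset.sum_congr rfl fun i' _ => ?_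
      rw [Fintype.sum_prod_type]
      refine Finset.sum_congr rfl fun j' _ => ?_
      rw [Fintype.sum_prod_type]
      refine Finset.sum_congr rfl fun k' _ => Finset.sum_congr rfl fun l' _ => ?_
      rw [P4_apply]
      ring)
  have h4 : ∀ i j, φ (Matrix.single i j 1) = 0 := by
    intro i j
    ext k l
    have := congrFun (congrFun (congrFun (congrFun h3 i) j) k) l
    exact this
  refine LinearMap.ext fun Y => ?_
  conv_lhs => rw [Matrix.matrix_eq_sum_single Y]
  rw [map_sum]
  simp only [map_sum, LinearMap.zero_apply]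
  refine Finset.sum_eq_zero fun i _ => Finset.sum_eq_zero fun j _ => ?_
  have : Matrix.single i j (Y i j) = Y i j • Matrix.single i j (1 : Qbar) := by
    rw [Matrix.smul_single, smul_eq_mul, mul_one]
  rw [this, map_smul, h4, smul_zero]

end Pool.Agent.Lib.MPf11a48.K3
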