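import Pool.Agent.Lib.MP_f11a48_ag.K3.AlgSpec

/-! # MULT: multiplicities from a basis of weight vectors -/

set_option autoImplicit false
set_option linter.unusedSectionVars false

namespace Pool.Agent.Lib.MPf11a48.K3

open Module

theorem specMult : SpecMult := by
  intro F L _ _ _ H M _ _ ρ ι _ b lam hb
  classical
  have hmem : ∀ i, b i ∈ wtsp H ρ (lam i) := fun i h => hb i h
  refine ⟨?_, ?_⟩
  · rw [Diag, eq_top_iff, ← b.span_eq, Submodule.span_le]
    rintro _ ⟨i, rfl⟩
    exact Submodule.mem_iSup_of_mem (lam i) (hmem i)
  · intro μ
    have hspan : wtsp H ρ μ =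
        Submodule.span F (Set.range fun i : {i // lam i = μ} => b i.1) := by
      apply le_antisymm
      · intro v hv
        have h1 : ∀ i, b.repr v i ≠ 0 → lam i = μ := by
          intro i hi
          refine LinearMap.ext fun h => ?_
          have h2 := congrArg (fun w => b.repr w i) (hv h)
          have h3 : b.repr (ρ.r h.1 v) i = lam i h * b.repr v i := by
            have e1 : ρ.r h.1 v = ∑ j, (b.repr v j * lam j h) • b j := by
              conv_lhs => rw [← b.sum_repr v]
              rw [map_sum]
              refine Finset.sum_congr rfl fun j _ => ?_
              rw [map_smul, hb, smul_smul]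
            rw [e1, b.repr_sum_self]
            ring
          have h4 : b.repr (μ h • v) i = μ h * b.repr v i := by
            rw [map_smul, Finsupp.smul_apply, smul_eq_mul]
          have h5 : lam i h * b.repr v i = μ h * b.repr v i := by
            rw [← h3, ← h4]
            exact h2
          exact mul_right_cancel₀ hi h5
        rw [← b.sum_repr v]
        refine Submodule.sum_mem _ fun i _ => ?_
        by_cases hi : b.repr v i = 0
        · rw [hi, zero_smul]
          exact zero_mem _
        · exact Submodule.smul_mem _ _ (Submodule.subset_span ⟨⟨i, h1 i hi⟩, rfl⟩)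
      · rw [Submodule.span_le]
        rintro _ ⟨i, rfl⟩
        have h1 := hmem i.1
        rw [i.2] at h1
        exact h1
    have h2 := finrank_span_eq_card (b.linearIndependent.comp
      (Subtype.val : {i // lam i = μ} → ι) Subtype.val_injective)
    rw [hspan, Nat.card_eq_fintype_card]
    exact h2

end Pool.Agent.Lib.MPf11a48.K3
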