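import Pool.Agent.Lib.MP_f11a48_ag.K3.Count

/-!
# NI: irreducible representations with the same highest weight are isomorphic
-/

set_option autoImplicit false
set_option linter.unusedSectionVars false

namespace Pool.Agent.Lib.MPf11a48.K3

open Module LieAlgebra LieAlgebra.IsKilling LieModule

namespace NIM

variable {F L : Type} [Field F] [CharZero F] [IsAlgClosed F] [LieRing L] [LieAlgebra F L]
  [Module.Finite F L] [IsKilling F L] {H : LieSubalgebra F L} [H.IsCartanSubalgebra]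

/-- a root as a rational weight -/
noncomputable def rt (α : H.root) : PW H := ⟨α.1.toLinear, CountM.root_mem H α⟩

theorem rt_mem (α : H.root) : rt α ∈ (rdat H).R := ⟨α, rfl⟩

theorem exists_rt {μ : PW H} (h : μ ∈ (rdat H).R) : ∃ α : H.root, rt α = μ := by
  obtain ⟨α, hα⟩ := h
  exact ⟨α, Subtype.ext hα⟩

section rep

variable {P : Type} [AddCommGroup P] [Module F P] (ρ : Rp F L P)

theorem mem_wtsp {μ : Dual F H} {v : P} : v ∈ wtsp H ρ μ ↔ ∀ h : H, ρ.r h.1 v = μ h • v := Iff.rfl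

theorem move {μ : Dual F H} {w : P} (hw : w ∈ wtsp H ρ μ) {α : Weight F H L} {e : L}
    (he : e ∈ rootSpace H α) : ρ.r e w ∈ wtsp H ρ (μ + α.toLinear) := by
  intro h
  have h1 : ⁅(h : L), e⁆ = α h • e := lie_eq_smul_of_mem_rootSpace he h
  have h2 := ρ.lie (h : L) e w
  rw [h1, map_smul, LinearMap.smul_apply, hw h, map_smul] at h2
  have h3 : ρ.r h.1 (ρ.r e w) = α h • ρ.r e w + μ h • ρ.r e w := by
    rw [h2]
    abel
  rw [h3, LinearMap.add_apply, Weight.toLinear_apply, add_smul, add_comm]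

theorem move_rt {μ : PW H} {w : P} (hw : w ∈ wtsp H ρ μ.1) {α : H.root} {e : L}
    (he : e ∈ rootSpace H α.1) : ρ.r e w ∈ wtsp H ρ (μ + rt α).1 := move ρ hw he

theorem cartan_comm (h h' : H) (w : P) : ρ.r h.1 (ρ.r h'.1 w) = ρ.r h'.1 (ρ.r h.1 w) := by
  have h1 : ⁅(h : L), (h' : L)⁆ = 0 := by
    have h2 : ⁅h, h'⁆ = 0 := trivial_lie_zero H H h h'
    have h3 := congrArg (Subtype.val : H → L) h2
    exact h3
  have h2 := ρ.lie (h : L) (h' : L) w
  rw [h1, map_zero, LinearMap.zero_apply] at h2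
  exact (sub_eq_zero.1 h2.symm)

theorem indep : iSupIndep fun μ : Dual F H => wtsp H ρ μ := by
  let f : H → Module.End F P := fun h => ρ.r h.1
  have h1 : iSupIndep fun χ : H → F => ⨅ i, (f i).maxGenEigenspace (χ i) := by
    refine Module.End.independent_iInf_maxGenEigenspace_of_forall_mapsTo f fun i j φ => ?_
    refine Module.End.mapsTo_maxGenEigenspace_of_comm ?_ φ
    exact LinearMap.ext fun w => cartan_comm ρ j i w
  have h2 : iSupIndep ((fun χ : H → F => ⨅ i, (f i).maxGenEigenspace (χ i)) ∘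
      fun μ : Dual F H => (μ : H → F)) := h1.comp DFunLike.coe_injective
  refine h2.mono fun μ v hv => ?_
  refine (Submodule.mem_iInf _).2 fun h => ?_
  refine (Module.End.mem_maxGenEigenspace _ _ _).2 ⟨1, ?_⟩
  rw [pow_one]
  change ρ.r h.1 v - μ h • v = 0
  rw [hv h, sub_self]

variable (x : PW H →ₗ[ℚ] ℚ) (u : P)

/-- the smallest subspace containing `u` and stable under the negative root spaces -/
noncomputable def gen : Submodule F P :=
  sInf {W | u ∈ W ∧ ∀ α : H.root, x (rt α) < 0 → ∀ f ∈ rootSpace H α.1, ∀ w ∈ W, ρ.r f w ∈ W}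

theorem gen_mem : u ∈ gen ρ x u := Submodule.mem_sInf.2 fun _ hW => hW.1

theorem gen_le {W : Submodule F P} (h1 : u ∈ W)
    (h2 : ∀ α : H.root, x (rt α) < 0 → ∀ f ∈ rootSpace H α.1, ∀ w ∈ W, ρ.r f w ∈ W) :
    gen ρ x u ≤ W := sInf_le ⟨h1, h2⟩

theorem gen_neg {α : H.root} (hα : x (rt α) < 0) {f : L} (hf : f ∈ rootSpace H α.1) {w : P}
    (hw : w ∈ gen ρ x u) : ρ.r f w ∈ gen ρ x u :=
  Submodule.mem_sInf.2 fun W hW => hW.2 α hα f hf w (Submodule.mem_sInf.1 hw W hW)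

variable {x u}

theorem gen_cartan {ν : Dual F H} (hu : u ∈ wtsp H ρ ν) (h : H) {w : P} (hw : w ∈ gen ρ x u) :
    ρ.r h.1 w ∈ gen ρ x u := by
  have h1 : gen ρ x u ≤ gen ρ x u ⊓ ⨅ h : H, (gen ρ x u).comap (ρ.r h.1) := by
    refine gen_le ρ x u ⟨gen_mem ρ x u, (Submodule.mem_iInf _).2 fun h => ?_⟩ ?_
    · change ρ.r h.1 u ∈ gen ρ x u
      rw [hu h]
      exact Submodule.smul_mem _ _ (gen_mem ρ x u)
    · intro α hα f hf w hw
      refine ⟨gen_neg ρ x u hα hf hw.1, (Submodule.mem_iInf _).2 fun h => ?_⟩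
      change ρ.r h.1 (ρ.r f w) ∈ gen ρ x u
      have h1 : ⁅(h : L), f⁆ = α.1 h • f := lie_eq_smul_of_mem_rootSpace hf h
      have h2 := ρ.lie (h : L) f w
      rw [h1, map_smul, LinearMap.smul_apply] at h2
      have h3 : ρ.r h.1 (ρ.r f w) = α.1 h • ρ.r f w + ρ.r f (ρ.r h.1 w) := by
        rw [h2]
        abel
      rw [h3]
      refine Submodule.add_mem _ (Submodule.smul_mem _ _ (gen_neg ρ x u hα hf hw.1)) ?_
      exact gen_neg ρ x u hα hf ((Submodule.mem_iInf _).1 hw.2 h)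
  exact (Submodule.mem_iInf _).1 (h1 hw).2 h

theorem mem_cartan {χ : H → F} (h0 : χ = 0) {e : L} (he : e ∈ rootSpace H χ) : e ∈ H := by
  rw [h0, rootSpace_zero_eq F L H] at he
  exact he

theorem gen_pos (hx : Reg (rdat H) x) {ν : Dual F H} (hu : u ∈ wtsp H ρ ν)
    (hk : ∀ α : H.root, 0 < x (rt α) → ∀ e ∈ rootSpace H α.1, ρ.r e u = 0)
    {α : H.root} (hα : 0 < x (rt α)) {e : L} (he : e ∈ rootSpace H α.1) {w : P}
    (hw : w ∈ gen ρ x u) : ρ.r e w ∈ gen ρ x u := by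
  have h1 : gen ρ x u ≤ gen ρ x u ⊓ ⨅ (α : H.root) (_ : 0 < x (rt α)) (e : rootSpace H α.1),
      (gen ρ x u).comap (ρ.r e.1) := by
    refine gen_le ρ x u ⟨gen_mem ρ x u, ?_⟩ ?_
    · refine (Submodule.mem_iInf _).2 fun α => (Submodule.mem_iInf _).2 fun hα =>
        (Submodule.mem_iInf _).2 fun e => ?_
      change ρ.r e.1 u ∈ gen ρ x u
      rw [hk α hα e.1 e.2]
      exact Submodule.zero_mem _
    · intro β hβ f hf w hw
      refine ⟨gen_neg ρ x u hβ hf hw.1, ?_⟩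
      have hw2 : ∀ α : H.root, 0 < x (rt α) → ∀ e ∈ rootSpace H α.1, ρ.r e w ∈ gen ρ x u :=
        fun α hα e he => (Submodule.mem_iInf _).1 ((Submodule.mem_iInf _).1
          ((Submodule.mem_iInf _).1 hw.2 α) hα) ⟨e, he⟩
      refine (Submodule.mem_iInf _).2 fun α => (Submodule.mem_iInf _).2 fun hα =>
        (Submodule.mem_iInf _).2 fun e => ?_
      change ρ.r e.1 (ρ.r f w) ∈ gen ρ x u
      have h2 := ρ.lie e.1 f w
      have h3 : ρ.r e.1 (ρ.r f w) = ρ.r ⁅e.1, f⁆ w + ρ.r f (ρ.r e.1 w) := by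
        rw [h2]
        abel
      rw [h3]
      refine Submodule.add_mem _ ?_ (gen_neg ρ x u hβ hf (hw2 α hα e.1 e.2))
      have h4 : ⁅e.1, f⁆ ∈ rootSpace H (α.1 + β.1 : H → F) :=
        lie_mem_genWeightSpace_of_mem_genWeightSpace e.2 hf
      by_cases h5 : rootSpace H (α.1 + β.1 : H → F) = ⊥
      · rw [h5] at h4
        have h6 : ⁅e.1, f⁆ = 0 := h4
        rw [h6, map_zero, LinearMap.zero_apply]
        exact Submodule.zero_mem _
      · by_cases h6 : (α.1 + β.1 : H → F) = 0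
        · exact gen_cartan ρ hu ⟨_, mem_cartan h6 h4⟩ hw.1
        · let χ : Weight F H L := ⟨α.1 + β.1, h5⟩
          let γ : H.root := ⟨χ, Finset.mem_filter.2 ⟨Finset.mem_univ _, h6⟩⟩
          have h7 : rt γ = rt α + rt β := by
            refine Subtype.ext (LinearMap.ext fun h => ?_)
            rfl
          have h8 : x (rt γ) ≠ 0 := hx _ (rt_mem γ)
          rcases lt_or_gt_of_ne h8 with h9 | h9
          · exact gen_neg ρ x u h9 h4 hw.1
          · exact hw2 γ h9 _ h4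
  exact (Submodule.mem_iInf _).1 ((Submodule.mem_iInf _).1
          ((Submodule.mem_iInf _).1 (h1 hw).2 α) hα) ⟨e, he⟩

theorem gen_all (hx : Reg (rdat H) x) {ν : Dual F H} (hu : u ∈ wtsp H ρ ν)
    (hk : ∀ α : H.root, 0 < x (rt α) → ∀ e ∈ rootSpace H α.1, ρ.r e u = 0) (y : L) {w : P}
    (hw : w ∈ gen ρ x u) : ρ.r y w ∈ gen ρ x u := by
  let Y : Submodule F L := ⨅ w : gen ρ x u, (gen ρ x u).comap (ρ.r.flip w.1)
  have hY : ∀ y, y ∈ Y ↔ ∀ w ∈ gen ρ x u, ρ.r y w ∈ gen ρ x u := by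
    intro y
    rw [Submodule.mem_iInf]
    exact ⟨fun h w hw => h ⟨w, hw⟩, fun h w => h w.1 w.2⟩
  have htop : (⨆ χ : Weight F H L, (genWeightSpace L χ).toSubmodule) = ⊤ :=
    LieSubmodule.iSup_toSubmodule_eq_top.mpr <| iSup_genWeightSpace_eq_top' F H L
  have h1 : (⨆ χ : Weight F H L, (genWeightSpace L χ).toSubmodule) ≤ Y := by
    refine iSup_le fun χ e he => (hY e).2 fun w hw => ?_
    by_cases h6 : (χ : H → F) = 0
    · exact gen_cartan ρ hu ⟨_, mem_cartan h6 he⟩ hw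
    · let γ : H.root := ⟨χ, Finset.mem_filter.2 ⟨Finset.mem_univ _, h6⟩⟩
      have h8 : x (rt γ) ≠ 0 := hx _ (rt_mem γ)
      rcases lt_or_gt_of_ne h8 with h9 | h9
      · exact gen_neg ρ x u (α := γ) h9 he hw
      · exact gen_pos ρ hx hu hk (α := γ) h9 he hw
  rw [htop] at h1
  exact (hY y).1 (h1 trivial) w hw

theorem gen_le_low {ν : PW H} (hu : u ∈ wtsp H ρ ν.1) :
    gen ρ x u ≤ Submodule.span F {u} ⊔ ⨆ (μ : PW H) (_ : x μ < x ν), wtsp H ρ μ.1 := by
  have hlow : ∀ μ : PW H, x μ < x ν → wtsp H ρ μ.1 ≤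
      Submodule.span F {u} ⊔ ⨆ (μ : PW H) (_ : x μ < x ν), wtsp H ρ μ.1 := fun μ hμ =>
    (le_iSup₂ (f := fun (μ : PW H) (_ : x μ < x ν) => wtsp H ρ μ.1) μ hμ).trans le_sup_right
  refine gen_le ρ x u (Submodule.mem_sup_left (Submodule.mem_span_singleton_self u)) ?_
  intro α hα f hf
  have h1 : Submodule.span F {u} ⊔ ⨆ (μ : PW H) (_ : x μ < x ν), wtsp H ρ μ.1 ≤
      (Submodule.span F {u} ⊔ ⨆ (μ : PW H) (_ : x μ < x ν), wtsp H ρ μ.1).comap (ρ.r f) := by
    refine sup_le ?_ (iSup₂_le fun μ hμ w hw => ?_)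
    · rw [Submodule.span_singleton_le_iff_mem]
      refine hlow (ν + rt α) ?_ (move_rt ρ hu hf)
      rw [map_add]
      linarith
    · refine hlow (μ + rt α) ?_ (move_rt ρ hw hf)
      rw [map_add]
      linarith
  exact fun w hw => h1 hw

theorem gen_line {ν : PW H} (hu : u ∈ wtsp H ρ ν.1) {w : P} (hw : w ∈ gen ρ x u)
    (hw' : w ∈ wtsp H ρ ν.1) : ∃ a : F, w = a • u := by
  obtain ⟨y, hy, z, hz, h1⟩ := Submodule.mem_sup.1 (gen_le_low ρ hu hw)
  obtain ⟨a, ha⟩ := Submodule.mem_span_singleton.1 hy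
  refine ⟨a, ?_⟩
  have h2 : (⨆ (μ : PW H) (_ : x μ < x ν), wtsp H ρ μ.1) ≤
      ⨆ (μ : Dual F H) (_ : μ ≠ ν.1), wtsp H ρ μ := by
    refine iSup₂_le fun μ hμ => ?_
    refine le_iSup₂ (f := fun (μ : Dual F H) (_ : μ ≠ ν.1) => wtsp H ρ μ) μ.1 ?_
    intro h3
    have h4 : μ = ν := Subtype.ext h3
    rw [h4] at hμ
    exact lt_irrefl _ hμ
  have h3 : z ∈ wtsp H ρ ν.1 := by
    have h4 : z = w - a • u := by
      rw [← h1, ha]
      abel
    rw [h4]
    exact Submodule.sub_mem _ hw' (Submodule.smul_mem _ _ hu)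
  have h4 := Submodule.disjoint_def.1 (indep (H := H) ρ ν.1) z h3 (h2 hz)
  rw [← h1, ← ha, h4, add_zero]

end rep

/-- the direct sum of two representations -/
noncomputable def prodRp {M N : Type} [AddCommGroup M] [Module F M] [AddCommGroup N] [Module F N]
    (ρ : Rp F L M) (σ : Rp F L N) : Rp F L (M × N) where
  r :=
    { toFun := fun x => (ρ.r x).prodMap (σ.r x)
      map_add' := by
        intro x y
        refine LinearMap.ext fun v => ?_
        simp [LinearMap.prodMap_apply]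
      map_smul' := by
        intro a x
        refine LinearMap.ext fun v => ?_
        simp [LinearMap.prodMap_apply] }
  lie := by
    intro x y v
    exact Prod.ext (ρ.lie x y v.1) (σ.lie x y v.2)

theorem prodRp_apply {M N : Type} [AddCommGroup M] [Module F M] [AddCommGroup N] [Module F N]
    (ρ : Rp F L M) (σ : Rp F L N) (y : L) (v : M × N) :
    (prodRp ρ σ).r y v = (ρ.r y v.1, σ.r y v.2) := rfl

theorem exists_top {M : Type} [AddCommGroup M] [Module F M] [Module.Finite F M] (ρ : Rp F L M)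
    {x : PW H →ₗ[ℚ] ℚ} {ν : PW H} (h : IsTop (rdat H) (mu H ρ) x ν) :
    ∃ v : M, v ≠ 0 ∧ v ∈ wtsp H ρ ν.1 ∧
      ∀ α : H.root, 0 < x (rt α) → ∀ e ∈ rootSpace H α.1, ρ.r e v = 0 := by
  have h1 : wtsp H ρ ν.1 ≠ ⊥ := by
    intro h2
    refine h.1 ?_
    change finrank F (wtsp H ρ ν.1) = 0
    rw [h2, finrank_bot]
  obtain ⟨v, hv, hv0⟩ := Submodule.exists_mem_ne_zero_of_ne_bot h1
  refine ⟨v, hv0, hv, fun α hα e he => ?_⟩
  have h2 : mu H ρ (ν + rt α) = 0 := h.2 (rt α) (rt_mem α) hα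
  have h3 : wtsp H ρ (ν + rt α).1 = ⊥ := Submodule.finrank_eq_zero.1 h2
  have h4 := move_rt ρ hv he
  rw [h3] at h4
  exact h4

end NIM

open NIM in
theorem specNI : SpecNI := by
  intro F L _ _ _ _ _ _ _ H _ M N _ _ _ _ _ _ ρ σ hM _ hN _ hom x hx ν hν hν'
  obtain ⟨v, hv0, hv, hvk⟩ := exists_top ρ hν
  obtain ⟨v', hv0', hv', hvk'⟩ := exists_top σ hν'
  let π := prodRp ρ σ
  let u : M × N := (v, v')
  have hu : u ∈ wtsp H π ν.1 := fun h => Prod.ext (hv h) (hv' h)
  have hk : ∀ α : H.root, 0 < x (rt α) → ∀ e ∈ rootSpace H α.1, π.r e u = 0 :=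
    fun α hα e he => Prod.ext (hvk α hα e he) (hvk' α hα e he)
  have hall : ∀ (y : L) (w : M × N), w ∈ gen π x u → π.r y w ∈ gen π x u :=
    fun y w hw => gen_all π hx hu hk y hw
  -- the intersection with `0 × N`
  have hK : ∀ n : N, ((0, n) : M × N) ∈ gen π x u → n = 0 := by
    rcases hN.2 ((gen π x u).comap (LinearMap.inr F M N)) (fun y n hn => by
      have h1 := hall y _ hn
      change ((0, σ.r y n) : M × N) ∈ gen π x u
      have h2 : π.r y (LinearMap.inr F M N n) = (0, σ.r y n) :=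
        Prod.ext (map_zero (ρ.r y)) rfl
      rw [h2] at h1
      exact h1) with h1 | h1
    · intro n hn
      have h2 : n ∈ (gen π x u).comap (LinearMap.inr F M N) := hn
      rw [h1] at h2
      exact h2
    · exfalso
      have h2 : v' ∈ (gen π x u).comap (LinearMap.inr F M N) := by
        rw [h1]
        trivial
      have h3 : ((0, v') : M × N) ∈ wtsp H π ν.1 := fun h =>
        Prod.ext (by
          change ρ.r h.1 0 = ν.1 h • (0 : M)
          rw [map_zero, smul_zero]) (hv' h)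
      obtain ⟨a, ha⟩ := gen_line π hu h2 h3
      have h4 : (0 : M) = a • v := congrArg Prod.fst ha
      have h5 : v' = a • v' := congrArg Prod.snd ha
      rcases smul_eq_zero.1 h4.symm with h6 | h6
      · rw [h6, zero_smul] at h5
        exact hv0' h5
      · exact hv0 h6
  -- the projection to `M`
  have hsurj : ∀ m : M, ∃ n : N, ((m, n) : M × N) ∈ gen π x u := by
    have h0 : ∀ m : M, m ∈ (gen π x u).map (LinearMap.fst F M N) ↔
        ∃ n : N, ((m, n) : M × N) ∈ gen π x u := by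
      intro m
      constructor
      · rintro ⟨w, hw, rfl⟩
        exact ⟨w.2, hw⟩
      · rintro ⟨n, hn⟩
        exact ⟨(m, n), hn, rfl⟩
    rcases hM.2 ((gen π x u).map (LinearMap.fst F M N)) (fun y m hm => by
      obtain ⟨n, hn⟩ := (h0 m).1 hm
      exact (h0 _).2 ⟨σ.r y n, hall y _ hn⟩) with h1 | h1
    · exfalso
      have h2 : v ∈ (gen π x u).map (LinearMap.fst F M N) := (h0 v).2 ⟨v', gen_mem π x u⟩
      rw [h1] at h2
      exact hv0 h2
    · intro m
      refine (h0 m).1 ?_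
      rw [h1]
      trivial
  have huniq : ∀ (m : M) (n n' : N), ((m, n) : M × N) ∈ gen π x u →
      ((m, n') : M × N) ∈ gen π x u → n = n' := by
    intro m n n' h1 h2
    have h3 := Submodule.sub_mem _ h1 h2
    have h4 : ((m, n) : M × N) - (m, n') = (0, n - n') := Prod.ext (sub_self m) rfl
    rw [h4] at h3
    exact sub_eq_zero.1 (hK _ h3)
  choose g hg using hsurj
  let φ : M →ₗ[F] N :=
    { toFun := g
      map_add' := fun m m' => huniq (m + m') _ _ (hg _) (Submodule.add_mem _ (hg m) (hg m'))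
      map_smul' := fun a m => huniq (a • m) _ _ (hg _) (Submodule.smul_mem _ a (hg m)) }
  have h1 : φ = 0 := hom φ fun y m => huniq (ρ.r y m) _ _ (hg _) (hall y _ (hg m))
  have h2 : g v = 0 := LinearMap.congr_fun h1 v
  have h3 := huniq v _ _ (hg v) (gen_mem π x u)
  exact hv0' (h3.symm.trans h2)

end Pool.Agent.Lib.MPf11a48.K3
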