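import Pool.Agent.Lib.MP_f11a48_ag.K3.EvenDefs

/-!
# Basic lemmas for ODD and EVENB (helper7)
-/

set_option autoImplicit false
set_option linter.unusedSectionVars false
set_option linter.unusedVariables false

namespace Pool.Agent.Lib.MPf11a48.K3

open Finset

variable {E : Type} [AddCommGroup E] [Module ℚ E]

namespace OddM

/-! ## roots -/

section Roots

variable {D : RDat E} (hD : D.Ok)

include hD

theorem root_ne_zero {α : E} (h : α ∈ D.R) : α ≠ 0 := by
  rintro rfl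
  have := hD.two 0 h
  simp at this

theorem root_neg {α : E} (h : α ∈ D.R) : -α ∈ D.R := by
  have := hD.refl α h α h
  rw [hD.two α h] at this
  have e : α - (2 : ℚ) • α = -α := by rw [two_smul]; abel
  rwa [e] at this

theorem root_pair {α β : E} (hα : α ∈ D.R) (hβ : β ∈ D.R) (hn : ∀ t : ℚ, β ≠ t • α) :
    ∃ p q : ℤ, D.pr α β = p ∧ D.pr β α = q ∧ ((p = 0 ∧ q = 0) ∨ (0 < p ∧ 0 < q ∧ p * q < 4) ∨
      (p < 0 ∧ q < 0 ∧ p * q < 4)) := by
  obtain ⟨p, hp⟩ := hD.int α hα β hβ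
  obtain ⟨q, hq⟩ := hD.int β hβ α hα
  refine ⟨p, q, hp, hq, ?_⟩
  have h1 := hD.nonneg α hα β hβ
  have h2 := hD.prod α hα β hβ hn
  have h3 := hD.zero α hα β hβ
  have h4 := hD.zero β hβ α hα
  rw [hp, hq] at h1 h2 h3
  rw [hp, hq] at h4
  have h1' : 0 ≤ p * q := by exact_mod_cast h1
  have h2' : p * q < 4 := by exact_mod_cast h2
  by_cases hp0 : p = 0
  · left
    refine ⟨hp0, ?_⟩
    have := h3 (by rw [hp0]; simp)
    exact_mod_cast this
  · have hq0 : q ≠ 0 := by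
      intro h
      apply hp0
      have := h4 (by rw [h]; simp)
      exact_mod_cast this
    right
    rcases lt_or_gt_of_ne hp0 with h | h
    · right
      refine ⟨h, ?_, h2'⟩
      rcases lt_or_gt_of_ne hq0 with h' | h'
      · exact h'
      · nlinarith
    · left
      refine ⟨h, ?_, h2'⟩
      rcases lt_or_gt_of_ne hq0 with h' | h'
      · nlinarith
      · exact h'

end Roots

theorem np_symm {α β : E} (hβ : β ≠ 0) (hn : ∀ t : ℚ, β ≠ t • α) (hα : α ≠ 0) :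
    ∀ t : ℚ, α ≠ t • β := by
  intro t ht
  have h0 : t ≠ 0 := by
    rintro rfl
    exact hα (by rw [ht, zero_smul])
  exact hn t⁻¹ (by rw [ht, smul_smul, inv_mul_cancel₀ h0, one_smul])

/-! ## the weights `± a_i` -/

section Phi

variable {m : ℕ} {a : Fin m → E}

theorem phi_neg {v : E} (h : v ∈ Phi a) : -v ∈ Phi a := by
  obtain ⟨i, hi | hi⟩ := h
  · exact ⟨i, Or.inr (by rw [hi])⟩
  · exact ⟨i, Or.inl (by rw [hi, neg_neg])⟩

theorem phi_finite : (Phi a).Finite := by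
  have : Phi a ⊆ Set.range a ∪ Set.range (fun i => -a i) := by
    rintro v ⟨i, hi | hi⟩
    · exact Or.inl ⟨i, hi.symm⟩
    · exact Or.inr ⟨i, hi.symm⟩
  exact ((Set.finite_range a).union (Set.finite_range _)).subset this

theorem phi_ne (hne : ∀ i, a i ≠ 0) {v : E} (h : v ∈ Phi a) : v ≠ 0 := by
  obtain ⟨i, hi | hi⟩ := h
  · rw [hi]; exact hne i
  · rw [hi]; exact neg_ne_zero.2 (hne i)

/-- the finite set on which functionals are chosen generic -/
def AA (D : RDat E) (a : Fin m → E) : Set E := D.R ∪ Phi a ∪ Set.image2 (fun u v => u - v) (Phi a) (Phi a)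

theorem aa_finite {D : RDat E} (hD : D.Ok) : (AA D a).Finite :=
  (hD.fin.union phi_finite).union (Set.Finite.image2 _ phi_finite phi_finite)

theorem aa_root {D : RDat E} {v : E} (h : v ∈ D.R) : v ∈ AA D a := Or.inl (Or.inl h)

theorem aa_phi {D : RDat E} {v : E} (h : v ∈ Phi a) : v ∈ AA D a := Or.inl (Or.inr h)

theorem aa_sub {D : RDat E} {u v : E} (hu : u ∈ Phi a) (hv : v ∈ Phi a) : u - v ∈ AA D a :=
  Or.inr ⟨u, hu, v, hv, rfl⟩

end Phi

/-! ## counting -/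

section Count

variable {m : ℕ}

/-- number of subsets with given sum -/
noncomputable def Nb (b : Fin m → E) (μ : E) : ℕ :=
  Nat.card {T : Finset (Fin m) // ∑ i ∈ T, b i = μ}

theorem sg_ne (s : Bool) : sg s ≠ 0 := by cases s <;> simp [sg]

theorem sg_not (s : Bool) : sg (!s) = -sg s := by cases s <;> simp [sg]

/-- sign patterns and subsets -/
def flip (σ : Fin m → Bool) : (Fin m → Bool) ≃ Finset (Fin m) where
  toFun ε := univ.filter fun i => ε i ≠ σ i
  invFun T := fun i => if i ∈ T then !σ i else σ i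
  left_inv ε := by
    funext i
    by_cases h : ε i = σ i
    · simp [h]
    · simp only [mem_filter, mem_univ, true_and, ne_eq, h, not_false_eq_true, if_true]
      revert h
      cases ε i <;> cases σ i <;> simp
  right_inv T := by
    ext i
    by_cases h : i ∈ T <;> simp [h]

theorem mem_flip (σ ε : Fin m → Bool) (i : Fin m) : i ∈ flip σ ε ↔ ε i ≠ σ i := by
  simp [flip]

theorem wS_flip (a : Fin m → E) (σ ε : Fin m → Bool) :
    wS a ε = wS a σ - ∑ i ∈ flip σ ε, sg (σ i) • a i := by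
  have h1 : ∑ i ∈ flip σ ε, sg (σ i) • a i = ∑ i, if ε i ≠ σ i then sg (σ i) • a i else 0 := by
    rw [← Finset.sum_filter]
    rfl
  rw [h1, wS, wS, Finset.smul_sum, Finset.smul_sum, ← Finset.sum_sub_distrib]
  refine Finset.sum_congr rfl fun i _ => ?_
  by_cases h : ε i = σ i
  · simp [h]
  · have e : ε i = !σ i := by
      revert h
      cases ε i <;> cases σ i <;> simp
    rw [if_pos h, e, sg_not, neg_smul, smul_neg]
    have : sg (σ i) • a i = (1 / 2 : ℚ) • sg (σ i) • a i + (1 / 2 : ℚ) • sg (σ i) • a i := by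
      rw [← add_smul]; norm_num
    nth_rewrite 3 [this]
    abel

theorem dS_eq (a : Fin m → E) (σ : Fin m → Bool) (μ : E) :
    dS a (wS a σ - μ) = Nb (fun i => sg (σ i) • a i) μ := by
  refine Nat.card_congr ((flip σ).subtypeEquiv fun ε => ?_)
  rw [wS_flip a σ ε]
  exact sub_right_inj

variable {b : Fin m → E}

theorem Nb_ne {μ : E} : Nb b μ ≠ 0 ↔ ∃ T : Finset (Fin m), ∑ i ∈ T, b i = μ := by
  rw [Nb, Nat.card_ne_zero]
  constructor
  · rintro ⟨⟨T, hT⟩, _⟩
    exact ⟨T, hT⟩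
  · rintro ⟨T, hT⟩
    exact ⟨⟨T, hT⟩, inferInstance⟩

theorem Nb_two {μ : E} {T₁ T₂ : Finset (Fin m)} (h : T₁ ≠ T₂) (h₁ : ∑ i ∈ T₁, b i = μ)
    (h₂ : ∑ i ∈ T₂, b i = μ) : 2 ≤ Nb b μ := by
  have : Nontrivial {T : Finset (Fin m) // ∑ i ∈ T, b i = μ} :=
    ⟨⟨T₁, h₁⟩, ⟨T₂, h₂⟩, fun h' => h (congrArg Subtype.val h')⟩
  exact Finite.one_lt_card

theorem Nb_le_one {μ : E} (h : ∀ T₁ T₂ : Finset (Fin m), ∑ i ∈ T₁, b i = μ → ∑ i ∈ T₂, b i = μ →
    T₁ = T₂) : Nb b μ ≤ 1 := by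
  rw [Nb, Finite.card_le_one_iff_subsingleton]
  exact ⟨fun T₁ T₂ => Subtype.ext (h _ _ T₁.2 T₂.2)⟩

theorem sum_pos_of {z : E →ₗ[ℚ] ℚ} (hb : ∀ i, 0 < z (b i)) (T : Finset (Fin m)) :
    0 ≤ z (∑ i ∈ T, b i) := by
  rw [map_sum]
  exact Finset.sum_nonneg fun i _ => (hb i).le

theorem le_sum_of {z : E →ₗ[ℚ] ℚ} (hb : ∀ i, 0 < z (b i)) {T : Finset (Fin m)} {i : Fin m}
    (hi : i ∈ T) : z (b i) ≤ z (∑ i ∈ T, b i) := by
  rw [map_sum]
  exact Finset.single_le_sum (f := fun i => z (b i)) (fun j _ => (hb j).le) hi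

theorem Nb_zero {z : E →ₗ[ℚ] ℚ} (hb : ∀ i, 0 < z (b i)) : Nb b 0 ≤ 1 := by
  have key : ∀ T : Finset (Fin m), ∑ i ∈ T, b i = 0 → T = ∅ := by
    intro T hT
    by_contra hne
    obtain ⟨i, hi⟩ := Finset.nonempty_iff_ne_empty.2 hne
    have := le_sum_of hb hi
    rw [hT, map_zero] at this
    exact absurd (hb i) (not_lt.2 this)
  exact Nb_le_one fun T₁ T₂ h₁ h₂ => (key T₁ h₁).trans (key T₂ h₂).symm

/-- exists a sign choice -/
theorem exists_sign (a : Fin m → E) (z : E →ₗ[ℚ] ℚ) (hz : ∀ i, z (a i) ≠ 0) :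
    ∃ σ : Fin m → Bool, ∀ i, 0 < z (sg (σ i) • a i) := by
  refine ⟨fun i => decide (0 < z (a i)), fun i => ?_⟩
  by_cases h : 0 < z (a i)
  · simp [h, sg]
  · have : z (a i) < 0 := lt_of_le_of_ne (not_lt.1 h) (hz i)
    simp [h, sg]
    exact this

theorem sign_mem (a : Fin m → E) (σ : Fin m → Bool) (i : Fin m) : sg (σ i) • a i ∈ Phi a := by
  cases h : σ i
  · exact ⟨i, Or.inr (by simp [sg])⟩
  · exact ⟨i, Or.inl (by simp [sg])⟩

theorem exists_idx {a : Fin m → E} {z : E →ₗ[ℚ] ℚ} {σ : Fin m → Bool}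
    (hσ : ∀ i, 0 < z (sg (σ i) • a i)) {v : E} (hv : v ∈ Phi a) (hz : 0 < z v) :
    ∃ i, sg (σ i) • a i = v := by
  obtain ⟨i, hi⟩ := hv
  refine ⟨i, ?_⟩
  have h := hσ i
  cases hs : σ i
  · rw [hs] at h
    simp only [sg] at h ⊢
    simp only [Bool.false_eq_true, if_false, neg_smul, one_smul, map_neg] at h ⊢
    rcases hi with hi | hi
    · rw [hi] at hz; linarith
    · exact hi.symm
  · rw [hs] at h
    simp only [sg] at h ⊢
    simp only [if_true, one_smul] at h ⊢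
    rcases hi with hi | hi
    · exact hi.symm
    · rw [hi, map_neg] at hz; linarith

theorem sign_or (a : Fin m → E) (σ : Fin m → Bool) (i : Fin m) {v : E}
    (h : a i = v ∨ a i = -v) : sg (σ i) • a i = v ∨ sg (σ i) • a i = -v := by
  cases hs : σ i
  · rcases h with h | h
    · right; simp [sg, h]
    · left; simp [sg, h]
  · rcases h with h | h
    · left; simp [sg, h]
    · right; simp [sg, h]

end Count

/-! ## the spin module -/

section Spin

variable {m : ℕ} {D : RDat E} {a : Fin m → E} {z : E →ₗ[ℚ] ℚ} {σ : Fin m → Bool}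

theorem dS_ne {μ : E} : dS a (wS a σ - μ) ≠ 0 ↔
    ∃ T : Finset (Fin m), ∑ i ∈ T, sg (σ i) • a i = μ := by
  rw [dS_eq, Nb_ne]

theorem dS_top_ne : dS a (wS a σ) ≠ 0 := by
  have : dS a (wS a σ - 0) ≠ 0 := dS_ne.2 ⟨∅, by simp⟩
  rwa [sub_zero] at this

theorem not_top (hS : IWt D (dS a)) (hreg : Reg D z)
    {μ : E} (hμ : 0 < z μ) (hT : ∃ T : Finset (Fin m), ∑ i ∈ T, sg (σ i) • a i = μ) :
    ∃ α ∈ D.R, 0 < z α ∧ ∃ T : Finset (Fin m), ∑ i ∈ T, sg (σ i) • a i = μ - α := by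
  by_contra hcon
  push Not at hcon
  have htop : IsTop D (dS a) z (wS a σ - μ) := by
    refine ⟨dS_ne.2 hT, fun α hα hzα => ?_⟩
    by_contra h
    have e : wS a σ - μ + α = wS a σ - (μ - α) := by abel
    rw [e] at h
    obtain ⟨T, hT⟩ := dS_ne.1 h
    exact hcon α hα hzα T hT
  have := (hS.top z hreg _ htop).2 (wS a σ) dS_top_ne (by
    intro h
    have : μ = 0 := by
      have h' := sub_eq_self.1 h.symm
      exact h'
    rw [this, map_zero] at hμ
    exact lt_irrefl _ hμ)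
  rw [map_sub] at this
  linarith

theorem sb_le (hS : IWt D (dS a)) (hreg : Reg D z) {μ β : E} (hμ : 0 < z μ) (hβ : β ∈ D.R)
    (hzβ : 0 < z β)
    (H : ∀ α ∈ D.R, 0 < z α → α ≠ β → (∃ T : Finset (Fin m), ∑ i ∈ T, sg (σ i) • a i = μ - α) →
      α - β ∈ D.R ∧ 0 < z (α - β)) :
    Nb (fun i => sg (σ i) • a i) μ ≤ Nb (fun i => sg (σ i) • a i) (μ - β) := by
  rw [← dS_eq, ← dS_eq]
  have e : wS a σ - (μ - β) = wS a σ - μ + β := by abel
  rw [e]
  refine hS.sb z hreg _ ⟨wS a σ, dS_top_ne, by rw [map_sub]; linarith⟩ β hβ hzβ ?_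
  intro α hα hzα hne hd
  have e' : wS a σ - μ + α = wS a σ - (μ - α) := by abel
  rw [e'] at hd
  obtain ⟨h1, h2⟩ := H α hα hzα hne (dS_ne.1 hd)
  exact ⟨h1, Or.inl h2⟩

/-- O0 -/
theorem ne_zero (hF : SpecFun) (hD : D.Ok) (hS : IWt D (dS a)) : ∀ i, a i ≠ 0 := by
  intro i0 h0
  obtain ⟨x, -, hx⟩ := hF E ⊥ (D.R ∪ Set.range a) (hD.fin.union (Set.finite_range a))
  have hreg : Reg D x := fun α hα => hx α (Or.inl hα) (by
    rw [Submodule.mem_bot]; exact root_ne_zero hD hα)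
  let σ : Fin m → Bool := fun i => decide (0 ≤ x (a i))
  have hσ : ∀ i, 0 ≤ x (sg (σ i) • a i) := by
    intro i
    by_cases h : 0 ≤ x (a i)
    · simp [σ, h, sg]
    · simp only [σ, h, decide_false, sg, Bool.false_eq_true, if_false, neg_smul, one_smul, map_neg]
      linarith [not_le.1 h]
  have htop : IsTop D (dS a) x (wS a σ) := by
    refine ⟨dS_top_ne, fun α hα hxα => ?_⟩
    by_contra h
    have e : wS a σ + α = wS a σ - (-α) := by abel
    rw [e] at h
    obtain ⟨T, hT⟩ := dS_ne.1 h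
    have h1 : 0 ≤ x (∑ i ∈ T, sg (σ i) • a i) := by
      rw [map_sum]; exact Finset.sum_nonneg fun i _ => hσ i
    rw [hT, map_neg] at h1
    linarith
  have h1 := (hS.top x hreg _ htop).1
  have h2 : 2 ≤ Nb (fun i => sg (σ i) • a i) 0 := by
    refine Nb_two (T₁ := ∅) (T₂ := {i0}) (by simp) (by simp) ?_
    simp [h0]
  rw [← dS_eq, sub_zero, h1] at h2
  omega

end Spin

end OddM

end Pool.Agent.Lib.MPf11a48.K3
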