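import Pool.Agent.Lib.MP_f11a48_ag.K3.OddBasic

/-!
# ODD and ODD1 (helper7)
-/

set_option autoImplicit false
set_option linter.unusedSectionVars false
set_option linter.unusedVariables false

namespace Pool.Agent.Lib.MPf11a48.K3

open Finset

variable {E : Type} [AddCommGroup E] [Module ℚ E]

namespace OddM

/-! ## multiplicities of `V` -/

section V

variable {m : ℕ} {D : RDat E} {a : Fin m → E}

theorem dVo_ne {μ : E} (h : dVo a μ ≠ 0) (h0 : μ ≠ 0) : μ ∈ Phi a := by
  by_contra hcon
  apply h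
  have h1 : Nat.card {i // a i = μ} = 0 := by
    rw [Nat.card_eq_zero]
    left
    exact ⟨fun i => hcon ⟨i.1, Or.inl i.2.symm⟩⟩
  have h2 : Nat.card {i // -a i = μ} = 0 := by
    rw [Nat.card_eq_zero]
    left
    exact ⟨fun i => hcon ⟨i.1, Or.inr i.2.symm⟩⟩
  have h3 : Nat.card {_i : Unit // (0 : E) = μ} = 0 := by
    rw [Nat.card_eq_zero]
    left
    exact ⟨fun i => h0 i.2.symm⟩
  rw [dVo, h1, h2, h3]

theorem dVo_of_phi {μ : E} (h : μ ∈ Phi a) : dVo a μ ≠ 0 := by
  obtain ⟨i, hi | hi⟩ := h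
  · have h1 : Nat.card {i // a i = μ} ≠ 0 := Nat.card_ne_zero.2 ⟨⟨i, hi.symm⟩, inferInstance⟩
    rw [dVo]; omega
  · have h1 : Nat.card {i // -a i = μ} ≠ 0 := Nat.card_ne_zero.2 ⟨⟨i, hi.symm⟩, inferInstance⟩
    rw [dVo]; omega

theorem dVo_zero (hne : ∀ i, a i ≠ 0) : dVo a 0 = 1 := by
  have h1 : Nat.card {i // a i = 0} = 0 := by
    rw [Nat.card_eq_zero]
    left
    exact ⟨fun i => hne i.1 i.2⟩
  have h2 : Nat.card {i // -a i = 0} = 0 := by
    rw [Nat.card_eq_zero]
    left
    exact ⟨fun i => hne i.1 (neg_eq_zero.1 i.2)⟩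
  have h3 : Nat.card {_i : Unit // (0 : E) = 0} = 1 := by
    have : Unique {_i : Unit // (0 : E) = 0} := ⟨⟨⟨(), rfl⟩⟩, fun x => Subtype.ext rfl⟩
    exact Nat.card_unique
  rw [dVo, h1, h2, h3]

theorem ne_neg_self {v : E} (h : v ≠ 0) : v ≠ -v := by
  intro h'
  apply h
  have h2 : (2 : ℚ) • v = 0 := by
    rw [two_smul]
    nth_rewrite 2 [h']
    abel
  exact (smul_eq_zero.1 h2).resolve_left two_ne_zero

theorem dVo_eq {μ : E} (h0 : μ ≠ 0) : dVo a μ = Nat.card {i // a i = μ ∨ a i = -μ} := by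
  have h3 : Nat.card {_i : Unit // (0 : E) = μ} = 0 := by
    rw [Nat.card_eq_zero]
    left
    exact ⟨fun i => h0 i.2.symm⟩
  rw [dVo, h3, add_zero, ← Nat.card_sum]
  have hdec : ∀ i, ¬ (a i = μ ∧ a i = -μ) := fun i hi => ne_neg_self h0 (hi.1.symm.trans hi.2)
  refine Nat.card_congr
    { toFun := Sum.elim (fun i => ⟨i.1, Or.inl i.2⟩) (fun i => ⟨i.1, Or.inr (neg_eq_iff_eq_neg.1 i.2)⟩)
      invFun := fun i => open Classical in if h : a i.1 = μ then Sum.inl ⟨i.1, h⟩ else
        Sum.inr ⟨i.1, neg_eq_iff_eq_neg.2 (i.2.resolve_left h)⟩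
      left_inv := ?_
      right_inv := ?_ }
  · rintro (⟨i, hi⟩ | ⟨i, hi⟩)
    · simp [hi]
    · have : ¬ a i = μ := fun h => hdec i ⟨h, neg_eq_iff_eq_neg.1 hi⟩
      simp [this]
  · rintro ⟨i, hi⟩
    by_cases h : a i = μ
    · simp [h]
    · simp [h]

theorem dVo_le_one {μ : E} (h0 : μ ≠ 0)
    (h : ∀ i j, (a i = μ ∨ a i = -μ) → (a j = μ ∨ a j = -μ) → i = j) : dVo a μ ≤ 1 := by
  rw [dVo_eq h0, Finite.card_le_one_iff_subsingleton]
  exact ⟨fun i j => Subtype.ext (h i.1 j.1 i.2 j.2)⟩

theorem eq_of_dVo_le_one {μ : E} (h0 : μ ≠ 0) (h : dVo a μ ≤ 1) :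
    ∀ i j, (a i = μ ∨ a i = -μ) → (a j = μ ∨ a j = -μ) → i = j := by
  rw [dVo_eq h0, Finite.card_le_one_iff_subsingleton] at h
  intro i j hi hj
  exact congrArg Subtype.val (h.elim ⟨i, hi⟩ ⟨j, hj⟩)

end V

/-! ## one line -/

section Line

variable {m : ℕ} {D : RDat E} {a : Fin m → E}

theorem exists_one {c : E} (hF : SpecFun) (hc : c ≠ 0) : ∃ y : E →ₗ[ℚ] ℚ, y c = 1 := by
  obtain ⟨x, -, hx⟩ := hF E ⊥ {c} (Set.finite_singleton c)
  have h := hx c rfl (by rw [Submodule.mem_bot]; exact hc)
  exact ⟨(x c)⁻¹ • x, by simp [h]⟩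

theorem exists_fun (hF : SpecFun) (hD : D.Ok) (c : E) : ∃ x : E →ₗ[ℚ] ℚ, x c = 0 ∧
    ∀ v ∈ AA D a, (∀ t : ℚ, v ≠ t • c) → x v ≠ 0 := by
  obtain ⟨x, h1, h2⟩ := hF E (Submodule.span ℚ {c}) (AA D a) (aa_finite hD)
  refine ⟨x, h1 c (Submodule.mem_span_singleton_self c), fun v hv hn => h2 v hv ?_⟩
  rw [Submodule.mem_span_singleton]
  rintro ⟨t, ht⟩
  exact hn t ht.symm

/-- a functional adapted to a line -/
theorem exists_line (hF : SpecFun) (hC : SpecComb) (hD : D.Ok) {c : E} (hc : c ≠ 0) (C : ℚ)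
    (hC0 : 0 ≤ C) : ∃ z : E →ₗ[ℚ] ℚ, z c = 1 ∧
      ∀ v ∈ AA D a, (∀ t : ℚ, v ≠ t • c) → C < |z v| := by
  obtain ⟨x, hx0, hx⟩ := exists_fun (a := a) hF hD c
  obtain ⟨y, hy⟩ := exists_one hF hc
  obtain ⟨z, hz1, hz2⟩ := hC E x y (AA D a) (aa_finite hD) C
  refine ⟨z, (hz1 c hx0).trans hy, fun v hv hn => ?_⟩
  rcases lt_or_gt_of_ne (hx v hv hn) with h | h
  · have := (hz2 v hv).2 h
    rw [lt_abs]; right; linarith
  · have := (hz2 v hv).1 h
    rw [lt_abs]; left; linarith

/-- the positive system of a functional adapted to the line of a minimal `c` -/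
theorem line_sys (hF : SpecFun) (hC : SpecComb) (hD : D.Ok) (hne : ∀ i, a i ≠ 0) {c : E}
    (hc : c ∈ Phi a) (hmin : ∀ t : ℚ, 0 < t → t < 1 → t • c ∉ Phi a) :
    ∃ (z : E →ₗ[ℚ] ℚ) (σ : Fin m → Bool), Reg D z ∧ z c = 1 ∧ (∀ i, 0 < z (sg (σ i) • a i)) ∧
      (∀ i, 1 ≤ z (sg (σ i) • a i)) ∧
      (∀ i, z (sg (σ i) • a i) ≤ 4 → ∃ t : ℚ, sg (σ i) • a i = t • c) ∧
      (∀ i, z (sg (σ i) • a i) ≤ 1 → sg (σ i) • a i = c) ∧
      ∀ α ∈ D.R, (∃ t : ℚ, α = t • c) ∨ 4 < |z α| := by
  have hc0 := phi_ne hne hc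
  obtain ⟨z, hz1, hz⟩ := exists_line (a := a) hF hC hD hc0 4 (by norm_num)
  have hza : ∀ i, z (a i) ≠ 0 := by
    intro i h0
    by_cases h : ∃ t : ℚ, a i = t • c
    · obtain ⟨t, ht⟩ := h
      rw [ht, map_smul, hz1, smul_eq_mul, mul_one] at h0
      rw [h0, zero_smul] at ht
      exact hne i ht
    · push Not at h
      have := hz (a i) (aa_phi ⟨i, Or.inl rfl⟩) h
      rw [h0, abs_zero] at this
      linarith
  obtain ⟨σ, hσ⟩ := exists_sign a z hza
  have h4 : ∀ i, z (sg (σ i) • a i) ≤ 4 → ∃ t : ℚ, sg (σ i) • a i = t • c := by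
    intro i hi
    by_contra h
    push Not at h
    have := hz _ (aa_phi (sign_mem a σ i)) h
    rw [abs_of_pos (hσ i)] at this
    linarith
  have h1 : ∀ i, 1 ≤ z (sg (σ i) • a i) := by
    intro i
    by_contra h
    push Not at h
    obtain ⟨t, ht⟩ := h4 i (by linarith)
    have hp := hσ i
    rw [ht, map_smul, hz1, smul_eq_mul, mul_one] at h hp
    exact hmin t hp h (ht ▸ sign_mem a σ i)
  refine ⟨z, σ, ?_, hz1, hσ, h1, h4, ?_, ?_⟩
  · intro α hα h0
    by_cases h : ∃ t : ℚ, α = t • c
    · obtain ⟨t, ht⟩ := h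
      rw [ht, map_smul, hz1, smul_eq_mul, mul_one] at h0
      rw [h0, zero_smul] at ht
      exact root_ne_zero hD hα ht
    · push Not at h
      have := hz α (aa_root hα) h
      rw [h0, abs_zero] at this
      linarith
  · intro i hi
    obtain ⟨t, ht⟩ := h4 i (by linarith)
    have h := h1 i
    rw [ht, map_smul, hz1, smul_eq_mul, mul_one] at h hi
    have : t = 1 := le_antisymm hi h
    rw [ht, this, one_smul]
  · intro α hα
    by_cases h : ∃ t : ℚ, α = t • c
    · exact Or.inl h
    · push Not at h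
      exact Or.inr (hz α (aa_root hα) h)

/-- O1 -/
theorem line_min (hF : SpecFun) (hC : SpecComb) (hD : D.Ok) (hS : IWt D (dS a)) {c : E}
    (hc : c ∈ Phi a) (hmin : ∀ t : ℚ, 0 < t → t < 1 → t • c ∉ Phi a) :
    c ∈ D.R ∧ ∀ i j, (a i = c ∨ a i = -c) → (a j = c ∨ a j = -c) → i = j := by
  have hne := ne_zero hF hD hS
  obtain ⟨z, σ, hreg, hz1, hσ, h1, h4, heq, hR⟩ := line_sys hF hC hD hne hc hmin
  have hz1' : 0 < z c := by rw [hz1]; norm_num
  obtain ⟨i0, hi0⟩ := exists_idx hσ hc hz1'
  have key : ∀ α ∈ D.R, 0 < z α → (∃ T : Finset (Fin m), ∑ i ∈ T, sg (σ i) • a i = c - α) →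
      α = c := by
    rintro α hα hzα ⟨T, hT⟩
    rcases Finset.eq_empty_or_nonempty T with h | ⟨i, hi⟩
    · rw [h, Finset.sum_empty] at hT
      exact (sub_eq_zero.1 hT.symm).symm
    · exfalso
      have h2 := le_sum_of hσ hi
      rw [hT, map_sub, hz1] at h2
      have := h1 i
      linarith
  have hcR : c ∈ D.R := by
    obtain ⟨α, hα, hzα, hT⟩ := not_top hS hreg hz1' ⟨{i0}, by rw [Finset.sum_singleton, hi0]⟩
    rw [key α hα hzα hT] at hα
    exact hα
  refine ⟨hcR, ?_⟩
  have hle := sb_le hS hreg (σ := σ) hz1' hcR hz1' (fun α hα hzα hn hT => absurd (key α hα hzα hT) hn)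
  rw [sub_self] at hle
  have hle' := hle.trans (Nb_zero hσ)
  intro i j hi hj
  by_contra hij
  have ei : sg (σ i) • a i = c := by
    rcases sign_or a σ i hi with h | h
    · exact h
    · exfalso
      have := hσ i
      rw [h, map_neg, hz1] at this
      linarith
  have ej : sg (σ j) • a j = c := by
    rcases sign_or a σ j hj with h | h
    · exact h
    · exfalso
      have := hσ j
      rw [h, map_neg, hz1] at this
      linarith
  have := Nb_two (b := fun i => sg (σ i) • a i) (μ := c) (T₁ := {i}) (T₂ := {j})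
    (fun h => hij (Finset.singleton_injective h)) (by rw [Finset.sum_singleton, ei])
    (by rw [Finset.sum_singleton, ej])
  omega

/-- O1' : `3 c` is not a weight -/
theorem line_three (hF : SpecFun) (hC : SpecComb) (hD : D.Ok) (hS : IWt D (dS a)) {c : E}
    (hc : c ∈ Phi a) (hmin : ∀ t : ℚ, 0 < t → t < 1 → t • c ∉ Phi a) :
    (3 : ℚ) • c ∉ Phi a := by
  intro h3
  have hne := ne_zero hF hD hS
  have hc0 := phi_ne hne hc
  obtain ⟨hcR, hmul⟩ := line_min hF hC hD hS hc hmin
  obtain ⟨z, σ, hreg, hz1, hσ, h1, h4, heq, hR⟩ := line_sys hF hC hD hne hc hmin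
  have hz1' : 0 < z c := by rw [hz1]; norm_num
  have hz3 : z ((3 : ℚ) • c) = 3 := by rw [map_smul, hz1]; norm_num
  obtain ⟨i0, hi0⟩ := exists_idx hσ hc hz1'
  obtain ⟨i3, hi3⟩ := exists_idx hσ h3 (by rw [hz3]; norm_num)
  have hle := sb_le hS hreg (σ := σ) (μ := (3 : ℚ) • c) (β := c) (by rw [hz3]; norm_num) hcR hz1' (by
    rintro α hα hzα hn ⟨T, hT⟩
    exfalso
    have hval : z (∑ i ∈ T, sg (σ i) • a i) < 3 := by
      rw [hT, map_sub, hz3]; linarith
    have hsum : ∃ s : ℚ, ∑ i ∈ T, sg (σ i) • a i = s • c := by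
      have : ∀ i ∈ T, ∃ t : ℚ, sg (σ i) • a i = t • c := fun i hi =>
        h4 i (by linarith [le_sum_of hσ hi])
      choose! t ht using this
      exact ⟨∑ i ∈ T, t i, by rw [Finset.sum_smul]; exact Finset.sum_congr rfl ht⟩
    obtain ⟨s, hs⟩ := hsum
    have hαc : α = (3 - s) • c := by
      rw [sub_smul, ← hs, hT]; abel
    have := hD.red c hcR (3 - s) (hαc ▸ hα)
    rcases this with h | h
    · exact hn (by rw [hαc, h, one_smul])
    · rw [hαc, h, map_smul, hz1] at hzα
      norm_num at hzα)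
  have e2 : (3 : ℚ) • c - c = (2 : ℚ) • c := by
    nth_rewrite 2 [← one_smul ℚ c]
    rw [← sub_smul]; norm_num
  rw [e2] at hle
  have hnot : ∀ T : Finset (Fin m), ∑ i ∈ T, sg (σ i) • a i = (2 : ℚ) • c → i0 ∉ T := by
    intro T hT hi
    have hsum : ∑ i ∈ T.erase i0, sg (σ i) • a i = c := by
      have := Finset.add_sum_erase T (fun i => sg (σ i) • a i) hi
      rw [hT, hi0, two_smul] at this
      exact add_left_cancel this
    have hnon : (T.erase i0).Nonempty := by
      rw [Finset.nonempty_iff_ne_empty]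
      intro h
      rw [h, Finset.sum_empty] at hsum
      exact hc0 hsum.symm
    obtain ⟨j, hj⟩ := hnon
    have h2 := le_sum_of hσ hj
    rw [hsum, hz1] at h2
    have hj' := heq j h2
    have e : j = i0 := by
      refine hmul j i0 ?_ ?_
      · rcases h : σ j with _ | _
        · right
          rw [h] at hj'
          simp only [sg, Bool.false_eq_true, if_false, neg_smul, one_smul] at hj'
          exact neg_eq_iff_eq_neg.1 hj'
        · left
          rw [h] at hj'
          simpa [sg] using hj'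
      · rcases h : σ i0 with _ | _
        · right
          rw [h] at hi0
          simp only [sg, Bool.false_eq_true, if_false, neg_smul, one_smul] at hi0
          exact neg_eq_iff_eq_neg.1 hi0
        · left
          rw [h] at hi0
          simpa [sg] using hi0
    exact Finset.ne_of_mem_erase hj e
  -- injection
  have hinj : Nat.card (Option {T : Finset (Fin m) // ∑ i ∈ T, sg (σ i) • a i = (2 : ℚ) • c}) ≤
      Nat.card {T : Finset (Fin m) // ∑ i ∈ T, sg (σ i) • a i = (3 : ℚ) • c} := by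
    have h30 : i3 ≠ i0 := by
      rintro rfl
      rw [hi0] at hi3
      have : z c = z ((3 : ℚ) • c) := by rw [← hi3]
      rw [hz1, hz3] at this
      norm_num at this
    let f : Option {T : Finset (Fin m) // ∑ i ∈ T, sg (σ i) • a i = (2 : ℚ) • c} →
        {T : Finset (Fin m) // ∑ i ∈ T, sg (σ i) • a i = (3 : ℚ) • c} := fun o =>
      match o with
      | none => ⟨{i3}, by rw [Finset.sum_singleton, hi3]⟩
      | some T => ⟨insert i0 T.1, by
          rw [Finset.sum_insert (hnot T.1 T.2), hi0, T.2]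
          nth_rewrite 1 [← one_smul ℚ c]
          rw [← add_smul]; norm_num⟩
    refine Nat.card_le_card_of_injective f ?_
    rintro (_ | ⟨T, hT⟩) (_ | ⟨T', hT'⟩) h
    · rfl
    · exfalso
      have h' := congrArg Subtype.val h
      simp only [f] at h'
      have : i0 ∈ ({i3} : Finset (Fin m)) := h' ▸ Finset.mem_insert_self i0 T'
      exact h30 (Finset.mem_singleton.1 this).symm
    · exfalso
      have h' := congrArg Subtype.val h
      simp only [f] at h'
      have : i0 ∈ ({i3} : Finset (Fin m)) := h' ▸ Finset.mem_insert_self i0 T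
      exact h30 (Finset.mem_singleton.1 this).symm
    · have h' := congrArg Subtype.val h
      simp only [f] at h'
      have : T = T' := by
        rw [← Finset.erase_insert (hnot T hT), ← Finset.erase_insert (hnot T' hT'), h']
      subst this
      rfl
  rw [Finite.card_option] at hinj
  have hh : Nb (fun i => sg (σ i) • a i) ((2 : ℚ) • c) + 1 ≤ Nb (fun i => sg (σ i) • a i) ((3 : ℚ) • c) :=
    hinj
  omega

/-- O1' -/
theorem line_two (hF : SpecFun) (hC : SpecComb) (hD : D.Ok) (hV : Wt D (dVo a))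
    (hS : IWt D (dS a)) {c : E}
    (hc : c ∈ Phi a) (hmin : ∀ t : ℚ, 0 < t → t < 1 → t • c ∉ Phi a) (t : ℚ) (ht : 0 < t)
    (htc : t • c ∈ Phi a) : t = 1 ∨ t = 2 := by
  have hne := ne_zero hF hD hS
  have hc0 := phi_ne hne hc
  have hcR := (line_min hF hC hD hS hc hmin).1
  have desc : ∀ s : ℚ, 1 < s → s • c ∈ Phi a → (s - 1) • c ∈ Phi a := by
    intro s hs hsc
    have h1 := hV.str (s • c) c hcR (by rw [map_smul, hD.two c hcR, smul_eq_mul]; linarith)
    have h2 : dVo a (s • c - c) ≠ 0 := by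
      have := dVo_of_phi hsc
      omega
    have e : s • c - c = (s - 1) • c := by rw [sub_smul, one_smul]
    rw [e] at h2
    exact dVo_ne h2 (smul_ne_zero (by linarith) hc0)
  have ge1 : ∀ s : ℚ, 0 < s → s • c ∈ Phi a → 1 ≤ s := by
    intro s hs hsc
    by_contra h
    exact hmin s hs (not_le.1 h) hsc
  have h3 := line_three hF hC hD hS hc hmin
  have main : ∀ n : ℕ, ∀ s : ℚ, 2 < s → s ≤ n → s • c ∈ Phi a → False := by
    intro n
    induction n with
    | zero => intro s hs hn _; simp at hn; linarith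
    | succ n ih =>
      intro s hs hn hsc
      have h1 := desc s (by linarith) hsc
      have h2 := desc (s - 1) (by linarith) h1
      have h4 := ge1 _ (by linarith) h2
      rcases eq_or_lt_of_le h4 with h | h
      · apply h3
        have : s = 3 := by linarith
        rwa [this] at hsc
      · refine ih (s - 1) (by linarith) (by push_cast at hn; linarith) h1
  have h1 := ge1 t ht htc
  rcases eq_or_lt_of_le h1 with h | h
  · exact Or.inl h.symm
  · have h2 := ge1 _ (by linarith) (desc t h htc)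
    rcases eq_or_lt_of_le h2 with h' | h'
    · right; linarith
    · exfalso
      obtain ⟨n, hn⟩ := exists_nat_ge t
      exact main n t (by linarith) hn htc

/-- some element of `Φ` is not on the line of a minimal `c` -/
theorem exists_off (hF : SpecFun) (hC : SpecComb) (hD : D.Ok) (hV : Wt D (dVo a))
    (hS : IWt D (dS a)) (hm : 3 ≤ m) {c : E}
    (hc : c ∈ Phi a) (hmin : ∀ t : ℚ, 0 < t → t < 1 → t • c ∉ Phi a) :
    ∃ v ∈ Phi a, ∀ t : ℚ, v ≠ t • c := by
  by_contra hcon
  push Not at hcon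
  have hne := ne_zero hF hD hS
  have hc0 := phi_ne hne hc
  obtain ⟨hcR, hmul⟩ := line_min hF hC hD hS hc hmin
  obtain ⟨z, σ, hreg, hz1, hσ, h1, h4, heq, hR⟩ := line_sys hF hC hD hne hc hmin
  have hall : ∀ i, sg (σ i) • a i = c ∨ sg (σ i) • a i = (2 : ℚ) • c := by
    intro i
    obtain ⟨t, ht⟩ := hcon _ (sign_mem a σ i)
    have hp := hσ i
    rw [ht, map_smul, hz1, smul_eq_mul, mul_one] at hp
    rcases line_two hF hC hD hV hS hc hmin t hp (ht ▸ sign_mem a σ i) with h | h
    · left; rw [ht, h, one_smul]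
    · right; rw [ht, h]
  have hsig : ∀ (i : Fin m) (v : E), sg (σ i) • a i = v → (a i = v ∨ a i = -v) := by
    intro i v h
    rcases hs : σ i with _ | _
    · right
      rw [hs] at h
      simp only [sg, Bool.false_eq_true, if_false, neg_smul, one_smul] at h
      exact neg_eq_iff_eq_neg.1 h
    · left
      rw [hs] at h
      simpa [sg] using h
  have h2 : ∀ i j, sg (σ i) • a i = (2 : ℚ) • c → sg (σ j) • a j = (2 : ℚ) • c → i = j := by
    have hle : dVo a ((2 : ℚ) • c) ≤ 1 := by
      have h1 := hV.str ((2 : ℚ) • c) c hcR (by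
        rw [map_smul, hD.two c hcR]; norm_num)
      have e : (2 : ℚ) • c - c = c := by rw [two_smul]; abel
      rw [e] at h1
      exact h1.trans (dVo_le_one hc0 hmul)
    intro i j hi hj
    exact eq_of_dVo_le_one (smul_ne_zero two_ne_zero hc0) hle i j (hsig i _ hi) (hsig j _ hj)
  have h1' : ∀ i j, sg (σ i) • a i = c → sg (σ j) • a j = c → i = j := fun i j hi hj =>
    hmul i j (hsig i _ hi) (hsig j _ hj)
  let i : Fin m := ⟨0, by omega⟩
  let j : Fin m := ⟨1, by omega⟩
  let k : Fin m := ⟨2, by omega⟩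
  have hij : i ≠ j := by simp [i, j]
  have hik : i ≠ k := by simp [i, k]
  have hjk : j ≠ k := by simp [j, k]
  rcases hall i with hi | hi <;> rcases hall j with hj | hj <;> rcases hall k with hk | hk
  · exact hij (h1' i j hi hj)
  · exact hij (h1' i j hi hj)
  · exact hik (h1' i k hi hk)
  · exact hjk (h2 j k hj hk)
  · exact hjk (h1' j k hj hk)
  · exact hik (h2 i k hi hk)
  · exact hij (h2 i j hi hj)
  · exact hij (h2 i j hi hj)

theorem sig_or (a : Fin m → E) (σ : Fin m → Bool) (i : Fin m) {v : E}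
    (h : sg (σ i) • a i = v) : a i = v ∨ a i = -v := by
  rcases hs : σ i with _ | _
  · right
    rw [hs] at h
    simp only [sg, Bool.false_eq_true, if_false, neg_smul, one_smul] at h
    exact neg_eq_iff_eq_neg.1 h
  · left
    rw [hs] at h
    simpa [sg] using h

/-- O2 -/
theorem level (hF : SpecFun) (hC : SpecComb) (hD : D.Ok) (hV : Wt D (dVo a))
    (hSt : Star D (dVo a)) (hS : IWt D (dS a)) (hm : 3 ≤ m) {c : E}
    (hc : c ∈ Phi a) (hmin : ∀ t : ℚ, 0 < t → t < 1 → t • c ∉ Phi a) (x1 : E →ₗ[ℚ] ℚ)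
    (hx0 : x1 c = 0) (hx : ∀ v ∈ AA D a, (∀ t : ℚ, v ≠ t • c) → x1 v ≠ 0) :
    (2 : ℚ) • c ∉ Phi a ∧ ∃ e ∈ Phi a, 0 < x1 e ∧ (∀ v ∈ Phi a, 0 < x1 v → x1 e ≤ x1 v) ∧
      (∀ v ∈ Phi a, x1 v = x1 e → v = e) ∧ D.pr c e = 0 ∧ e + c ∈ D.R ∧ e - c ∈ D.R ∧
      e + c ∉ Phi a ∧ e - c ∉ Phi a := by
  have hne := ne_zero hF hD hS
  have hc0 := phi_ne hne hc
  obtain ⟨hcR, hmul⟩ := line_min hF hC hD hS hc hmin
  obtain ⟨y, hy1⟩ := exists_one hF hc0
  -- the least level
  obtain ⟨v0, hv0, hv0n⟩ := exists_off hF hC hD hV hS hm hc hmin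
  have hpos : ({v | v ∈ Phi a ∧ 0 < x1 v} : Set E).Nonempty := by
    rcases lt_or_gt_of_ne (hx v0 (aa_phi hv0) hv0n) with h | h
    · exact ⟨-v0, phi_neg hv0, by rw [map_neg]; linarith⟩
    · exact ⟨v0, hv0, h⟩
  obtain ⟨a0, ⟨ha0, ha0p⟩, ha0min⟩ := Set.exists_min_image {v | v ∈ Phi a ∧ 0 < x1 v} x1
    (phi_finite.subset fun v hv => hv.1) hpos
  obtain ⟨e, ⟨he, hee⟩, hemin⟩ := Set.exists_min_image {v | v ∈ Phi a ∧ x1 v = x1 a0} y
    (phi_finite.subset fun v hv => hv.1) ⟨a0, ha0, rfl⟩
  have hep : 0 < x1 e := by rw [hee]; exact ha0p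
  have hlev : ∀ v ∈ Phi a, 0 < x1 v → x1 e ≤ x1 v := fun v hv hp => by
    rw [hee]; exact ha0min v ⟨hv, hp⟩
  have hlev' : ∀ v ∈ Phi a, x1 v = x1 e → ∃ t : ℚ, 0 ≤ t ∧ v = e + t • c := by
    intro v hv hve
    have h1 : ∃ t : ℚ, v - e = t • c := by
      by_contra h
      push Not at h
      exact hx (v - e) (aa_sub hv he) h (by rw [map_sub, hve, sub_self])
    obtain ⟨t, ht⟩ := h1
    have h2 := hemin v ⟨hv, hve.trans hee⟩
    have h3 : y v = y e + t := by
      have : y (v - e) = t := by rw [ht, map_smul, hy1, smul_eq_mul, mul_one]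
      rw [map_sub] at this
      linarith
    refine ⟨t, by linarith, ?_⟩
    rw [← ht]; abel
  have hDmin : ∀ v ∈ Phi a, x1 v = x1 e → ∀ t : ℚ, 0 < t → t < 1 → t • v ∉ Phi a := by
    intro v hv hve t ht0 ht1 h
    have := hlev _ h (by rw [map_smul, hve]; exact mul_pos ht0 hep)
    rw [map_smul, hve, smul_eq_mul] at this
    nlinarith
  have hDR : ∀ v ∈ Phi a, x1 v = x1 e → v ∈ D.R ∧
      ∀ i j, (a i = v ∨ a i = -v) → (a j = v ∨ a j = -v) → i = j := fun v hv hve =>
    line_min hF hC hD hS hv (hDmin v hv hve)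
  obtain ⟨heR, hemul⟩ := hDR e he rfl
  have he0 := phi_ne hne he
  have hec : ∀ t : ℚ, e ≠ t • c := by
    intro t ht
    rw [ht, map_smul, hx0, smul_zero] at hep
    exact lt_irrefl _ hep
  have hshift : ∀ t : ℚ, x1 (e + t • c) = x1 e := by
    intro t; rw [map_add, map_smul, hx0, smul_zero, add_zero]
  have hshift_ne : ∀ t : ℚ, e + t • c ≠ 0 := by
    intro t h
    have := hshift t
    rw [h, map_zero] at this
    linarith
  have hsub : x1 (e - c) = x1 e := by rw [map_sub, hx0, sub_zero]
  have hadd : x1 (e + c) = x1 e := by rw [map_add, hx0, add_zero]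
  have hsub0 : e - c ≠ 0 := by
    intro h; rw [h, map_zero] at hsub; linarith
  have hadd0 : e + c ≠ 0 := by
    intro h; rw [h, map_zero] at hadd; linarith
  -- (i)
  have hi1 : e - c ∉ Phi a := by
    intro h
    obtain ⟨t, ht, hte⟩ := hlev' _ h hsub
    have : (t + 1) • c = 0 := by
      rw [add_smul, one_smul]
      have : e - c = e + t • c := hte
      have h2 : t • c = -c := by
        have := congrArg (fun w => w - e) this
        simp only [add_sub_cancel_left] at this
        rw [← this]; abel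
      rw [h2]; abel
    rcases smul_eq_zero.1 this with h | h
    · linarith
    · exact hc0 h
  have hi1' : c - e ∉ Phi a := by
    intro h
    apply hi1
    have := phi_neg h
    rwa [neg_sub] at this
  have hrho : e - c ∈ D.R := by
    by_contra h
    refine hSt (dVo_zero hne) c hcR e heR hec (dVo_of_phi hc) (dVo_of_phi he) ?_ ?_ h ?_
    · by_contra h'
      exact hi1 (dVo_ne h' hsub0)
    · by_contra h'
      exact hi1' (dVo_ne h' (by rw [← neg_sub]; exact neg_ne_zero.2 hsub0))
    · by_cases h' : dVo a (c + e) = 0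
      · omega
      · have hce : c + e = e + c := add_comm _ _
        rw [hce] at h' ⊢
        have hmem := dVo_ne h' hadd0
        exact dVo_le_one hadd0 (hDR _ hmem hadd).2
  -- (ii)
  obtain ⟨p, hp⟩ := hD.int c hcR e heR
  have hsc : e - D.pr c e • c ∈ Phi a := by
    have h1 := hV.refl e c hcR
    refine dVo_ne (h1 ▸ dVo_of_phi he) ?_
    have := hshift_ne (-(D.pr c e))
    rwa [neg_smul, ← sub_eq_add_neg] at this
  have hp0 : p ≤ 0 := by
    obtain ⟨t, ht, hte⟩ := hlev' _ hsc (by rw [map_sub, map_smul, hx0, smul_zero, sub_zero])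
    have : (D.pr c e + t) • c = 0 := by
      have h2 := congrArg (fun w => e - w) hte
      simp only [sub_sub_cancel] at h2
      rw [add_smul, h2]; abel
    rcases smul_eq_zero.1 this with h | h
    · have : (p : ℚ) ≤ 0 := by rw [← hp]; linarith
      exact_mod_cast this
    · exact absurd h hc0
  have hnrho : ∀ t : ℚ, e - c ≠ t • c := by
    intro t ht
    apply hec (t + 1)
    rw [add_smul, one_smul, ← ht]; abel
  have hp1 : -1 ≤ p := by
    obtain ⟨p', q', hp', hq', hh⟩ := root_pair hD hcR hrho hnrho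
    rw [map_sub, hD.two c hcR, hp] at hp'
    have hpp : p' = p - 2 := by exact_mod_cast hp'.symm
    rcases hh with ⟨h1, h2⟩ | ⟨h1, h2, h3⟩ | ⟨h1, h2, h3⟩
    · omega
    · omega
    · nlinarith
  -- (iii)
  have haddR : e + c ∈ D.R := by
    have h01 : p = 0 ∨ p = -1 := by omega
    rcases h01 with h | h
    · have h1 := hD.refl c hcR _ hrho
      rw [map_sub, hD.two c hcR, hp, h] at h1
      have e1 : e - c - (((0 : ℤ) : ℚ) - 2) • c = e + c := by
        push_cast
        rw [zero_sub, neg_smul, two_smul]; abel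
      rwa [e1] at h1
    · have h1 := hD.refl c hcR _ heR
      rw [hp, h] at h1
      have e1 : e - ((-1 : ℤ) : ℚ) • c = e + c := by
        push_cast
        rw [neg_smul, one_smul]; abel
      rwa [e1] at h1
  have hnadd : ∀ t : ℚ, e + c ≠ t • c := by
    intro t ht
    apply hec (t - 1)
    rw [sub_smul, one_smul, ← ht]; abel
  -- (iv)
  have htwo : (2 : ℚ) • c ∉ Phi a := by
    intro h2
    obtain ⟨p', q', hp', hq', hh⟩ := root_pair hD hcR haddR hnadd
    rw [map_add, hD.two c hcR, hp] at hp'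
    have hpp : p' = p + 2 := by exact_mod_cast hp'.symm
    have hq0 : 0 < q' := by
      rcases hh with ⟨h1, h2⟩ | ⟨h1, h2, h3⟩ | ⟨h1, h2, h3⟩
      · omega
      · exact h2
      · omega
    have hq0' : (0 : ℚ) < q' := by exact_mod_cast hq0
    have h3 := hV.str ((2 : ℚ) • c) (e + c) haddR (by
      rw [map_smul, hq', smul_eq_mul]; linarith)
    have e1 : (2 : ℚ) • c - (e + c) = c - e := by rw [two_smul]; abel
    rw [e1] at h3
    have h4 := dVo_of_phi h2
    have h5 : dVo a (c - e) ≠ 0 := by omega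
    exact hi1' (dVo_ne h5 (by rw [← neg_sub]; exact neg_ne_zero.2 hsub0))
  -- (v)
  have hpz : p = 0 := by
    by_contra hpn
    have hpm : p = -1 := by omega
    have haddPhi : e + c ∈ Phi a := by
      rw [hp, hpm] at hsc
      have e1 : e - ((-1 : ℤ) : ℚ) • c = e + c := by
        push_cast
        rw [neg_smul, one_smul]; abel
      rwa [e1] at hsc
    obtain ⟨z, hz1, hz2⟩ := hC E x1 y (AA D a) (aa_finite hD) 0
    have hzc : z c = 1 := (hz1 c hx0).trans hy1
    have hzpos : ∀ v ∈ AA D a, 0 < x1 v → 0 < z v := fun v hv h => (hz2 v hv).1 h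
    have hznn : ∀ v ∈ AA D a, 0 < z v → 0 ≤ x1 v := by
      intro v hv h
      by_contra h'
      have := (hz2 v hv).2 (not_le.1 h')
      linarith
    have hline : ∀ v ∈ AA D a, x1 v = 0 → ∃ t : ℚ, v = t • c ∧ z v = t := by
      intro v hv h
      by_contra h'
      push Not at h'
      refine hx v hv (fun t ht => h' t ht ?_) h
      rw [ht, map_smul, hzc, smul_eq_mul, mul_one]
    have hzne : ∀ v ∈ AA D a, v ≠ 0 → z v ≠ 0 := by
      intro v hv h0 hzv
      rcases lt_trichotomy (x1 v) 0 with h | h | h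
      · have := (hz2 v hv).2 h
        linarith
      · obtain ⟨t, ht, hzt⟩ := hline v hv h
        rw [hzv] at hzt
        rw [← hzt, zero_smul] at ht
        exact h0 ht
      · have := hzpos v hv h
        linarith
    have hreg : Reg D z := fun α hα => hzne α (aa_root hα) (root_ne_zero hD hα)
    obtain ⟨σ, hσ⟩ := exists_sign a z fun i => hzne _ (aa_phi ⟨i, Or.inl rfl⟩) (hne i)
    have hbnn : ∀ i, 0 ≤ x1 (sg (σ i) • a i) := fun i =>
      hznn _ (aa_phi (sign_mem a σ i)) (hσ i)
    have hle_sum : ∀ (T : Finset (Fin m)) (i : Fin m), i ∈ T →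
        x1 (sg (σ i) • a i) ≤ x1 (∑ i ∈ T, sg (σ i) • a i) := by
      intro T i hi
      rw [map_sum]
      exact Finset.single_le_sum (f := fun i => x1 (sg (σ i) • a i)) (fun j _ => hbnn j) hi
    have hzc' : 0 < z c := by rw [hzc]; norm_num
    have hze : 0 < z e := hzpos e (aa_phi he) hep
    have hzec : 0 < z (e + c) := by rw [map_add]; linarith
    obtain ⟨ic, hic⟩ := exists_idx hσ hc hzc'
    obtain ⟨ie, hie⟩ := exists_idx hσ he hze
    obtain ⟨is, his⟩ := exists_idx hσ haddPhi hzec
    have hne1 : ie ≠ ic := by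
      rintro rfl
      rw [hie] at hic
      exact hec 1 (by rw [one_smul]; exact hic)
    have hne2 : is ≠ ie := by
      rintro rfl
      rw [hie] at his
      exact hc0 (by simpa using his)
    have hN2 : 2 ≤ Nb (fun i => sg (σ i) • a i) (e + c) := by
      refine Nb_two (T₁ := {ie, ic}) (T₂ := {is}) ?_ ?_ ?_
      · intro h
        have h1 : ie ∈ ({is} : Finset (Fin m)) := h ▸ Finset.mem_insert_self _ _
        exact hne2 (Finset.mem_singleton.1 h1).symm
      · rw [Finset.sum_pair hne1, hie, hic]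
      · rw [Finset.sum_singleton, his]
    -- elements on the line of `c`
    have honline : ∀ i, x1 (sg (σ i) • a i) = 0 → i = ic := by
      intro i hi
      obtain ⟨t, ht, hzt⟩ := hline _ (aa_phi (sign_mem a σ i)) hi
      have ht0 : 0 < t := by rw [← hzt]; exact hσ i
      have hbc : sg (σ i) • a i = c := by
        rcases line_two hF hC hD hV hS hc hmin t ht0 (ht ▸ sign_mem a σ i) with h | h
        · rw [ht, h, one_smul]
        · exfalso
          apply htwo
          rw [← h, ← ht]
          exact sign_mem a σ i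
      exact hmul i ic (sig_or a σ i hbc) (sig_or a σ ic hic)
    have hsb := sb_le hS hreg (σ := σ) (μ := e + c) (β := c) hzec hcR hzc' (by
      rintro α hα hzα hn ⟨T, hT⟩
      have hx1α : 0 < x1 α := by
        rcases (hznn α (aa_root hα) hzα).eq_or_lt with h | h
        · exfalso
          obtain ⟨t, ht, hzt⟩ := hline α (aa_root hα) h.symm
          rcases hD.red c hcR t (ht ▸ hα) with h' | h'
          · exact hn (by rw [ht, h', one_smul])
          · rw [hzt, h'] at hzα
            norm_num at hzα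
        · exact h
      have hTlt : x1 (∑ i ∈ T, sg (σ i) • a i) < x1 e := by
        rw [hT, map_sub, hadd]; linarith
      have hTsub : ∀ i ∈ T, i = ic := by
        intro i hi
        apply honline
        rcases (hbnn i).eq_or_lt with h | h
        · exact h.symm
        · exfalso
          have h1 := hlev _ (sign_mem a σ i) h
          have h2 := hle_sum T i hi
          linarith
      by_cases hTi : ic ∈ T
      · have hTe : T = {ic} := by
          ext i
          rw [Finset.mem_singleton]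
          exact ⟨hTsub i, fun h => h ▸ hTi⟩
        rw [hTe, Finset.sum_singleton, hic] at hT
        have hαe : α = e := by
          have := congrArg (fun w => e - (w - c)) hT
          beta_reduce at this
          rw [sub_self, sub_zero] at this
          rw [this]; abel
        rw [hαe]
        refine ⟨hrho, hzpos _ (aa_root hrho) (by rw [hsub]; exact hep)⟩
      · have hTe : T = ∅ := by
          rw [Finset.eq_empty_iff_forall_notMem]
          intro i hi
          exact hTi (hTsub i hi ▸ hi)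
        rw [hTe, Finset.sum_empty] at hT
        have hαe : α = e + c := (sub_eq_zero.1 hT.symm).symm
        rw [hαe, add_sub_cancel_right]
        exact ⟨heR, hze⟩)
    rw [add_sub_cancel_right] at hsb
    have hN1 : Nb (fun i => sg (σ i) • a i) e ≤ 1 := by
      have key : ∀ T : Finset (Fin m), ∑ i ∈ T, sg (σ i) • a i = e → T = {ie} := by
        intro T hT
        have hex : ∃ i ∈ T, 0 < x1 (sg (σ i) • a i) := by
          by_contra h
          push Not at h
          have : x1 (∑ i ∈ T, sg (σ i) • a i) ≤ 0 := by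
            rw [map_sum]; exact Finset.sum_nonpos h
          rw [hT] at this
          linarith
        obtain ⟨i, hi, hip⟩ := hex
        have hsplit : sg (σ i) • a i + ∑ j ∈ T.erase i, sg (σ j) • a j = e := by
          rw [Finset.add_sum_erase T (fun i => sg (σ i) • a i) hi, hT]
        have hrest : 0 ≤ x1 (∑ j ∈ T.erase i, sg (σ j) • a j) := by
          rw [map_sum]; exact Finset.sum_nonneg fun j _ => hbnn j
        have hlei := hlev _ (sign_mem a σ i) hip
        have hx1s : x1 (sg (σ i) • a i) + x1 (∑ j ∈ T.erase i, sg (σ j) • a j) = x1 e := by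
          rw [← map_add, hsplit]
        have hxi : x1 (sg (σ i) • a i) = x1 e := by linarith
        obtain ⟨t, ht, hte⟩ := hlev' _ (sign_mem a σ i) hxi
        have hrest' : z (∑ j ∈ T.erase i, sg (σ j) • a j) = -t := by
          have h1 : ∑ j ∈ T.erase i, sg (σ j) • a j = -(t • c) := by
            rw [hte] at hsplit
            have := congrArg (fun w => w - e - t • c) hsplit
            beta_reduce at this
            have e1 : e + t • c + ∑ j ∈ T.erase i, sg (σ j) • a j - e - t • c =
              ∑ j ∈ T.erase i, sg (σ j) • a j := by abel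
            rw [e1] at this
            rw [this]; abel
          rw [h1, map_neg, map_smul, hzc, smul_eq_mul, mul_one]
        have hnn := sum_pos_of hσ (T.erase i)
        have ht0 : t = 0 := by linarith
        rw [ht0, zero_smul, add_zero] at hte
        have hiie : i = ie := hemul i ie (sig_or a σ i hte) (sig_or a σ ie hie)
        have hemp : T.erase i = ∅ := by
          by_contra h
          obtain ⟨j, hj⟩ := Finset.nonempty_iff_ne_empty.2 h
          have h1 := le_sum_of hσ hj
          rw [hrest', ht0] at h1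
          have := hσ j
          linarith
        rw [← hiie]
        rw [← Finset.insert_erase hi, hemp]
        rfl
      exact Nb_le_one fun T₁ T₂ h₁ h₂ => (key T₁ h₁).trans (key T₂ h₂).symm
    omega
  rw [hpz] at hp
  have hpr0 : D.pr c e = 0 := by rw [hp]; simp
  have huniq : ∀ v ∈ Phi a, x1 v = x1 e → v = e := by
    intro v hv hve
    obtain ⟨t, ht, hte⟩ := hlev' v hv hve
    have h1 : D.pr c v = 2 * t := by
      rw [hte, map_add, map_smul, hpr0, hD.two c hcR, smul_eq_mul]; ring
    have h2 : v - D.pr c v • c ∈ Phi a := by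
      refine dVo_ne (hV.refl v c hcR ▸ dVo_of_phi hv) ?_
      rw [h1, hte]
      have := hshift_ne (t - 2 * t)
      rwa [sub_smul, ← add_sub_assoc] at this
    obtain ⟨t', ht', hte'⟩ := hlev' _ h2 (by rw [map_sub, map_smul, hx0, smul_zero, sub_zero, hve])
    have h3 : (t + t') • c = 0 := by
      rw [h1, hte] at hte'
      have := congrArg (fun w => w - e + t • c) hte'
      beta_reduce at this
      have e1 : e + t • c - (2 * t) • c - e + t • c = 0 := by
        rw [mul_smul, two_smul]; abel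
      rw [e1] at this
      rw [add_smul, this]
      abel
    rcases smul_eq_zero.1 h3 with h | h
    · have : t = 0 := by linarith
      rw [hte, this, zero_smul, add_zero]
    · exact absurd h hc0
  refine ⟨htwo, e, he, hep, hlev, huniq, hpr0, haddR, hrho, ?_, hi1⟩
  intro h
  have := huniq _ h hadd
  exact hc0 (by simpa using this)

end Line

end OddM

end Pool.Agent.Lib.MPf11a48.K3
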