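import Pool.Agent.Lib.MP_f11a48_ag.K3.RepB
import Mathlib.Algebra.Lie.Semisimple.Lemmas
import Mathlib.Algebra.Lie.CartanCriterion
import Mathlib.Algebra.Lie.CartanExists

/-!
# REP: the Lie algebra theorem (assembly)
-/

set_option autoImplicit false
set_option linter.unusedSectionVars false

namespace Pool.Agent.Lib.MPf11a48.K3

open Module LieAlgebra LieAlgebra.IsKilling Matrix

namespace RepM

section killing

variable {F : Type} [Field F] [CharZero F] [IsAlgClosed F] {L : Type} [LieRing L]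
  [LieAlgebra F L] [Module.Finite F L] {n : ℕ}

/-- the Lie module of a representation by matrices -/
@[reducible]
def lrm (θ : OR F L n) : LieRingModule L (Fin n → F) where
  bracket x v := (θ.t x).mulVec v
  add_lie x y v := by
    change (θ.t (x + y)).mulVec v = (θ.t x).mulVec v + (θ.t y).mulVec v
    rw [map_add, Matrix.add_mulVec]
  lie_add x v w := Matrix.mulVec_add _ _ _
  leibniz_lie x y v := by
    change (θ.t x).mulVec ((θ.t y).mulVec v) = (θ.t ⁅x, y⁆).mulVec v +
      (θ.t y).mulVec ((θ.t x).mulVec v)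
    rw [θ.lie, Matrix.sub_mulVec, Matrix.mulVec_mulVec, Matrix.mulVec_mulVec, sub_add_cancel]

theorem lmod (θ : OR F L n) :
    letI := lrm θ
    LieModule F L (Fin n → F) := by
  letI := lrm θ
  refine { smul_lie := fun t x v => ?_, lie_smul := fun t x v => ?_ }
  · change (θ.t (t • x)).mulVec v = t • (θ.t x).mulVec v
    rw [map_smul, Matrix.smul_mulVec]
  · exact Matrix.mulVec_smul _ _ _

theorem trace_skew {X : Matrix (Fin n) (Fin n) F} (hX : Xᵀ = -X) : X.trace = 0 := by
  have h1 := Matrix.trace_transpose X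
  rw [hX, Matrix.trace_neg] at h1
  have h2 : (2 : F) * X.trace = 0 := by linear_combination -h1
  rcases mul_eq_zero.1 h2 with h3 | h3
  · exact absurd h3 two_ne_zero
  · exact h3

theorem killing_of (θ : OR F L n) (hinj : Function.Injective θ.t) (hI : IrrRep θ.rp) :
    IsKilling F L := by
  letI := lrm θ
  haveI := lmod θ
  haveI : Nontrivial (Fin n → F) := hI.1
  haveI : LieModule.IsIrreducible F L (Fin n → F) := by
    refine LieModule.IsIrreducible.mk fun N hN => ?_
    rcases hI.2 N.toSubmodule (fun x v hv => N.lie_mem hv) with h | h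
    · exfalso
      refine hN ?_
      exact (LieSubmodule.toSubmodule_eq_bot N).1 h
    · exact (LieSubmodule.toSubmodule_eq_top N).1 h
  haveI : LieModule.IsFaithful F L (Fin n → F) := by
    refine ⟨fun x y hxy => hinj ?_⟩
    have h1 : ∀ v : Fin n → F, (θ.t x).mulVec v = (θ.t y).mulVec v := fun v =>
      LinearMap.congr_fun hxy v
    exact Matrix.ext_of_mulVec_single fun j => h1 _
  haveI : HasTrivialRadical F L := by
    refine hasTrivialRadical_of_isIrreducible_of_isFaithful F L (Fin n → F) fun x => ?_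
    have h1 : LieModule.toEnd F L (Fin n → F) x = Matrix.toLin' (θ.t x) := by
      refine LinearMap.ext fun v => ?_
      rw [Matrix.toLin'_apply]
      rfl
    rw [h1, Matrix.trace_toLin'_eq]
    exact trace_skew (θ.skew x)
  infer_instance

end killing

section bounds

variable {F : Type} [Field F] [CharZero F] [IsAlgClosed F] {L : Type} [LieRing L]
  [LieAlgebra F L] [Module.Finite F L] [IsKilling F L] {H : LieSubalgebra F L}
  [H.IsCartanSubalgebra]

theorem bound_odd (hRoot : SpecRoot) (hInt : SpecInt) (hWt : SpecWt) (hIWt : SpecIWt)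
    (hStar : SpecStar) (hWeyl : SpecWeyl) (hMult : SpecMult) (hSpl : SpecSpl) (hClo : SpecClo)
    (hCen : SpecCen) (hInv : SpecInv) (hOdd : SpecOdd) (hOdd1 : SpecOdd1) {m : ℕ}
    (hm : m = 1 ∨ 3 ≤ m) (θ : OR F L (2 * m + 1)) (hNo : NoInv (Set.range θ.t)) (b : HBo θ H m) :
    m + (2 * (m * (m - 1)) + 2 * m) ≤ finrank F L := by
  obtain ⟨a, ha⟩ := exists_lift hInt b.toHB
  obtain ⟨γ, hγ, hadj, hwt⟩ := hClo F L H m θ b
  obtain ⟨-, hS2⟩ := hSpl F (SM m F) _ γ hγ
  let σ := spinRp γ θ hS2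
  have hT : ∀ T : Module.End F (SM m F), (∀ x, T * σ.r x = σ.r x * T) → ∃ t : F, T = t • 1 := by
    intro T hT
    have h1 := hInv F (SM m F) _ γ hγ (Set.range θ.t) (by
      rintro _ ⟨x, rfl⟩
      exact θ.skew x) hNo T (by
      rintro _ ⟨x, rfl⟩
      exact hT x)
    exact (hCen F (SM m F) _ γ hγ hadj T h1).1 ⟨m, rfl⟩
  have hirr : IrrRep σ := irr_of_comm hWeyl σ hT
  have ha' : (fun i => (a i).1) = b.a := funext ha
  have hwt' : ∀ (h : H) (ε : Fin m → Bool),
      σ.r h.1 (es ε) = (wS (fun i => (a i).1) ε) h • es ε := by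
    intro h ε
    rw [ha']
    exact hwt h ε
  obtain ⟨hD, hmu⟩ := mu_spin hMult σ a hwt'
  have hI := hIWt F L H (SM m F) σ hirr hD
  rw [hmu] at hI
  have hOk := hRoot F L H
  have key : (∀ i, a i ∈ (rdat H).R) ∧
      (∀ i j, i ≠ j → a i + a j ∈ (rdat H).R ∧ a i - a j ∈ (rdat H).R) ∧
      ∀ i j, (rdat H).pr (a i) (a j) = if i = j then 2 else 0 := by
    rcases hm with hm | hm
    · subst hm
      have h1 := hOdd1 (PW H) (rdat H) hOk a hI
      have h0 : ∀ i : Fin 1, i = 0 := fun i => Subsingleton.elim _ _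
      refine ⟨fun i => by rw [h0 i]; exact h1, fun i j hij => absurd (Subsingleton.elim i j) hij,
        fun i j => ?_⟩
      rw [h0 i, h0 j, if_pos rfl]
      exact hOk.two _ h1
    · have h1 := hWt F L H (Fin (2 * m + 1) → F) θ.rp
      have h2 := hStar F L H (Fin (2 * m + 1) → F) θ.rp
      rw [mu_odd hMult rfl b a ha] at h1 h2
      exact hOdd (PW H) (rdat H) hOk m a hm h1 h2 hI
  obtain ⟨k1, k2, k3⟩ := key
  choose c hc using fun i => exists_coroot (k1 i)
  have hh : ∀ k i, (a i).1 ((1 / 2 : F) • c k) = if k = i then 1 else 0 := by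
    intro k i
    rw [map_smul, hc, k3, smul_eq_mul]
    by_cases h : k = i
    · rw [if_pos h, if_pos h]
      push_cast
      norm_num
    · rw [if_neg h, if_neg h]
      push_cast
      norm_num
  have h1 := le_finrank_cartan hh
  have h2 := ncard_odd hOk hh k1 k2
  rw [specCount F L H]
  omega

theorem chi_sq (m : ℕ) : chi m F * chi m F = 1 := by
  refine LinearMap.ext fun f => funext fun ε => ?_
  change ((∏ i, sg (ε i) : ℚ) : F) * (((∏ i, sg (ε i) : ℚ) : F) * f ε) = f ε
  rcases prod_sg ε with h | h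
  · rw [h]
    push_cast
    ring
  · rw [h]
    push_cast
    ring

theorem chi_spn {m n : ℕ} (γ : Fin n → Module.End F (SM m F))
    (hχ : ∀ i, chi m F * γ i = -(γ i * chi m F)) (X : Matrix (Fin n) (Fin n) F) :
    chi m F * spn γ X = spn γ X * chi m F := by
  have h1 : ∀ i j, chi m F * (γ i * γ j) = (γ i * γ j) * chi m F := by
    intro i j
    refine LinearMap.ext fun f => ?_
    have h2 : ∀ i f, chi m F (γ i f) = -(γ i (chi m F f)) := fun i f => LinearMap.congr_fun (hχ i) f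
    change chi m F (γ i (γ j f)) = γ i (γ j (chi m F f))
    rw [h2, h2, map_neg, neg_neg]
  rw [spn, mul_smul_comm, smul_mul_assoc, Finset.mul_sum, Finset.sum_mul]
  congr 1
  refine Finset.sum_congr rfl fun i _ => ?_
  rw [Finset.mul_sum, Finset.sum_mul]
  refine Finset.sum_congr rfl fun j _ => ?_
  rw [mul_smul_comm, smul_mul_assoc, h1]

theorem nonempty_one (m : ℕ) : Nonempty (Es m 1) := ⟨⟨fun _ => true, by simp [sg]⟩⟩

theorem nonempty_neg {m : ℕ} (hm : 0 < m) : Nonempty (Es m (-1)) := by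
  classical
  refine ⟨⟨fun i => if i = ⟨0, hm⟩ then false else true, ?_⟩⟩
  rw [Finset.prod_eq_single (⟨0, hm⟩ : Fin m)]
  · simp [sg]
  · intro i _ hi
    simp [sg, hi]
  · intro h
    exact absurd (Finset.mem_univ _) h

theorem bound_even (hRoot : SpecRoot) (hInt : SpecInt) (hWt : SpecWt) (hIWt : SpecIWt)
    (hWeyl : SpecWeyl) (hMult : SpecMult) (hSpl : SpecSpl) (hCle : SpecCle)
    (hCen : SpecCen) (hInv : SpecInv) (hEven : SpecEven) {m : ℕ}
    (hm : 2 ≤ m) (θ : OR F L (2 * m)) (hNo : NoInv (Set.range θ.t)) (b : HB θ H m) :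
    m + 2 * (m * (m - 1)) ≤ finrank F L := by
  obtain ⟨a, ha⟩ := exists_lift hInt b
  obtain ⟨γ, hγ, hχ, hadj, hwt⟩ := hCle F L H m θ b
  obtain ⟨-, hS2⟩ := hSpl F (SM m F) _ γ hγ
  let σ := spinRp γ θ hS2
  have hσ : ∀ x, chi m F * σ.r x = σ.r x * chi m F := fun x => chi_spn γ hχ (θ.t x)
  have hT : ∀ T : Module.End F (SM m F), (∀ x, T * σ.r x = σ.r x * T) →
      ∃ t r : F, T = t • 1 + r • chi m F := by
    intro T hT
    have h1 := hInv F (SM m F) _ γ hγ (Set.range θ.t) (by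
      rintro _ ⟨x, rfl⟩
      exact θ.skew x) hNo T (by
      rintro _ ⟨x, rfl⟩
      exact hT x)
    exact (hCen F (SM m F) _ γ hγ hadj T h1).2 (chi m F) (chi_sq m) hχ
  have ha' : (fun i => (a i).1) = b.a := funext ha
  have hwt' : ∀ (h : H) (ε : Fin m → Bool),
      σ.r h.1 (es ε) = (wS (fun i => (a i).1) ε) h • es ε := by
    intro h ε
    rw [ha']
    exact hwt h ε
  obtain ⟨hD1, hmu1⟩ := mu_half hMult σ hσ 1 a hwt'
  obtain ⟨hD2, hmu2⟩ := mu_half hMult σ hσ (-1) a hwt'
  have hirr1 : IrrRep (halfRp σ hσ 1) := half_irr hWeyl σ hσ hT 1 (nonempty_one m)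
  have hirr2 : IrrRep (halfRp σ hσ (-1)) :=
    half_irr hWeyl σ hσ hT (-1) (nonempty_neg (by omega))
  have hI1 := hIWt F L H (Es m 1 → F) (halfRp σ hσ 1) hirr1 hD1
  have hI2 := hIWt F L H (Es m (-1) → F) (halfRp σ hσ (-1)) hirr2 hD2
  have hN := specNI F L H (Es m 1 → F) (Es m (-1) → F) (halfRp σ hσ 1) (halfRp σ hσ (-1)) hirr1
    hD1 hirr2 hD2 fun φ hφ => half_hom σ hσ hT φ hφ
  rw [hmu1] at hI1
  rw [hmu2] at hI2
  rw [hmu1, hmu2] at hN
  have hOk := hRoot F L H
  have h1 := hWt F L H (Fin (2 * m) → F) θ.rp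
  rw [mu_even hMult rfl b a ha] at h1
  obtain ⟨k1, k2, k3⟩ := hEven (PW H) (rdat H) hOk m a hm h1 hI1 hI2 hN
  have hne : ∀ k : Fin m, ∃ j : Fin m, k ≠ j := by
    intro k
    by_cases h : k = ⟨0, by omega⟩
    · refine ⟨⟨1, by omega⟩, ?_⟩
      rw [h]
      intro h2
      have := congrArg Fin.val h2
      simp at this
    · exact ⟨⟨0, by omega⟩, h⟩
  choose o ho using hne
  choose c hc using fun k => exists_coroot (k1 k (o k) (ho k)).1
  choose d hd using fun k => exists_coroot (k1 k (o k) (ho k)).2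
  have hh : ∀ k i, (a i).1 ((1 / 2 : F) • (c k + d k)) = if k = i then 1 else 0 := by
    intro k i
    rw [map_smul, map_add, hc, hd, k2 k (o k) (ho k), k3 k (o k) (ho k), smul_eq_mul]
    by_cases h : k = i
    · rw [if_pos h.symm, if_pos h]
      push_cast
      ring
    · rw [if_neg (fun h' => h h'.symm), if_neg h]
      push_cast
      ring
  have h2 := le_finrank_cartan hh
  have h3 := ncard_even hOk hh k1
  rw [specCount F L H]
  omega

end bounds

section final

variable {F : Type} [Field F] [CharZero F] [IsAlgClosed F]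

/-- the Lie ring given by a space of matrices closed under commutators -/
@[reducible]
def lieRing {n : ℕ} (g : Submodule F (Matrix (Fin n) (Fin n) F))
    (hbr : ∀ X ∈ g, ∀ Y ∈ g, X * Y - Y * X ∈ g) : LieRing g where
  bracket X Y := ⟨X.1 * Y.1 - Y.1 * X.1, hbr _ X.2 _ Y.2⟩
  add_lie X Y Z := by
    refine Subtype.ext ?_
    change (X.1 + Y.1) * Z.1 - Z.1 * (X.1 + Y.1) =
      (X.1 * Z.1 - Z.1 * X.1) + (Y.1 * Z.1 - Z.1 * Y.1)
    rw [add_mul, mul_add]
    abel
  lie_add X Y Z := by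
    refine Subtype.ext ?_
    change X.1 * (Y.1 + Z.1) - (Y.1 + Z.1) * X.1 =
      (X.1 * Y.1 - Y.1 * X.1) + (X.1 * Z.1 - Z.1 * X.1)
    rw [add_mul, mul_add]
    abel
  lie_self X := by
    refine Subtype.ext ?_
    change X.1 * X.1 - X.1 * X.1 = 0
    rw [sub_self]
  leibniz_lie X Y Z := by
    refine Subtype.ext ?_
    change X.1 * (Y.1 * Z.1 - Z.1 * Y.1) - (Y.1 * Z.1 - Z.1 * Y.1) * X.1 =
      ((X.1 * Y.1 - Y.1 * X.1) * Z.1 - Z.1 * (X.1 * Y.1 - Y.1 * X.1)) +
      (Y.1 * (X.1 * Z.1 - Z.1 * X.1) - (X.1 * Z.1 - Z.1 * X.1) * Y.1)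
    noncomm_ring

/-- the Lie algebra given by a space of matrices closed under commutators -/
@[reducible]
def lieAlg {n : ℕ} (g : Submodule F (Matrix (Fin n) (Fin n) F))
    (hbr : ∀ X ∈ g, ∀ Y ∈ g, X * Y - Y * X ∈ g) : @LieAlgebra F g _ (lieRing g hbr) :=
  letI := lieRing g hbr
  { (inferInstance : Module F g) with
    lie_smul := fun t X Y => by
      refine Subtype.ext ?_
      change X.1 * (t • Y.1) - (t • Y.1) * X.1 = t • (X.1 * Y.1 - Y.1 * X.1)
      rw [mul_smul_comm, smul_mul_assoc, smul_sub] }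

end final

end RepM

open RepM in
theorem specRep (hRoot : SpecRoot) (hInt : SpecInt) (hWt : SpecWt) (hIWt : SpecIWt)
    (hStar : SpecStar) (hDiag : SpecDiag) (hWeyl : SpecWeyl) (hHyp : SpecHyp) (hMult : SpecMult)
    (hSpl : SpecSpl) (hCle : SpecCle) (hClo : SpecClo) (hCen : SpecCen) (hInv : SpecInv)
    (hOdd : SpecOdd) (hOdd1 : SpecOdd1) (hEven : SpecEven) : SpecRep := by
  intro F _ _ _ n hn hn5 g hsk hbr hirr hNo X hX
  refine mem_of_finrank hsk ?_ hX
  letI : LieRing g := lieRing g hbr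
  letI : LieAlgebra F g := lieAlg g hbr
  let θ : OR F g n :=
    { t := g.subtype
      lie := fun _ _ => rfl
      skew := fun x => hsk _ x.2 }
  have hI : IrrRep θ.rp := by
    haveI : Nonempty (Fin n) := ⟨⟨0, by omega⟩⟩
    refine ⟨inferInstance, fun W hW => hirr W fun X hX v hv => hW ⟨X, hX⟩ v hv⟩
  haveI hK : IsKilling F g := killing_of θ (Subtype.val_injective) hI
  have hrange : Set.range θ.t = (g : Set (Matrix (Fin n) (Fin n) F)) := Subtype.range_val
  obtain ⟨x, hx⟩ := exists_isCartanSubalgebra_engel F g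
  haveI := hx
  have hD : Diag (LieSubalgebra.engel F x) θ.rp :=
    hDiag F g (LieSubalgebra.engel F x) (Fin n → F) θ.rp hI
  have hNo' : NoInv (Set.range θ.t) := by
    rw [hrange]
    exact hNo
  rcases hHyp F g (LieSubalgebra.engel F x) n θ hD with ⟨m, hm, ⟨b⟩⟩ | ⟨m, hm, ⟨b⟩⟩
  · subst hm
    have h1 := bound_even hRoot hInt hWt hIWt hWeyl hMult hSpl hCle hCen hInv hEven
      (by omega) θ hNo' b
    obtain ⟨k, rfl⟩ : ∃ k, m = k + 1 := ⟨m - 1, by omega⟩
    have h2 : 2 * (k + 1) - 1 = 2 * k + 1 := by omega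
    have h3 : k + 1 - 1 = k := by omega
    rw [h3] at h1
    rw [h2]
    nlinarith [h1]
  · subst hm
    have h1 := bound_odd hRoot hInt hWt hIWt hStar hWeyl hMult hSpl hClo hCen hInv hOdd hOdd1
      (by omega) θ hNo' b
    obtain ⟨k, rfl⟩ : ∃ k, m = k + 1 := ⟨m - 1, by omega⟩
    have h2 : 2 * (k + 1) + 1 - 1 = 2 * (k + 1) := by omega
    have h3 : k + 1 - 1 = k := by omega
    rw [h3] at h1
    rw [h2]
    nlinarith [h1]

end Pool.Agent.Lib.MPf11a48.K3
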