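import Pool.Agent.Lib.MP_f11a48_ag.K3.Ni

/-!
# REP, part A: counting dimensions
-/

set_option autoImplicit false
set_option linter.unusedSectionVars false

namespace Pool.Agent.Lib.MPf11a48.K3

open Module LieAlgebra LieAlgebra.IsKilling Matrix

namespace RepM

/-! ## Skew-symmetric matrices -/

theorem two_mul_card_lt (n : ℕ) :
    2 * Fintype.card {p : Fin n × Fin n // p.1 < p.2} = n * (n - 1) := by
  classical
  have h1 : Fintype.card {p : Fin n × Fin n // p.1 < p.2} =
      Fintype.card {p : Fin n × Fin n // p.2 < p.1} :=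
    Fintype.card_congr ⟨fun p => ⟨(p.1.2, p.1.1), p.2⟩, fun p => ⟨(p.1.2, p.1.1), p.2⟩,
      fun _ => rfl, fun _ => rfl⟩
  have h2 : (Finset.univ : Finset (Fin n)).offDiag =
      (Finset.univ.filter fun p : Fin n × Fin n => p.1 < p.2) ∪
      (Finset.univ.filter fun p : Fin n × Fin n => p.2 < p.1) := by
    ext p
    simp only [Finset.mem_offDiag, Finset.mem_univ, true_and, Finset.mem_union, Finset.mem_filter]
    exact ne_iff_lt_or_gt
  have h3 : Disjoint (Finset.univ.filter fun p : Fin n × Fin n => p.1 < p.2)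
      (Finset.univ.filter fun p : Fin n × Fin n => p.2 < p.1) := by
    rw [Finset.disjoint_left]
    intro p hp hp'
    exact lt_asymm (Finset.mem_filter.1 hp).2 (Finset.mem_filter.1 hp').2
  have h4 := Finset.offDiag_card (Finset.univ : Finset (Fin n))
  rw [h2, Finset.card_union_of_disjoint h3, Finset.card_univ, Fintype.card_fin] at h4
  rw [Fintype.card_subtype, Fintype.card_subtype] at h1
  rw [Fintype.card_subtype, Nat.mul_sub, mul_one, ← h4, two_mul]
  congr 1

variable {F : Type} [Field F] [CharZero F]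

/-- the space of skew-symmetric matrices -/
def Sk (F : Type) [Field F] (n : ℕ) : Submodule F (Matrix (Fin n) (Fin n) F) where
  carrier := {X | Xᵀ = -X}
  add_mem' := by
    intro X Y hX hY
    change (X + Y)ᵀ = -(X + Y)
    rw [transpose_add, show Xᵀ = -X from hX, show Yᵀ = -Y from hY, neg_add]
  zero_mem' := by
    change (0 : Matrix (Fin n) (Fin n) F)ᵀ = -0
    simp
  smul_mem' := by
    intro a X hX
    change (a • X)ᵀ = -(a • X)
    rw [transpose_smul, show Xᵀ = -X from hX, smul_neg]

theorem finrank_Sk_le (n : ℕ) : 2 * finrank F (Sk F n) ≤ n * (n - 1) := by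
  classical
  let e : Sk F n →ₗ[F] ({p : Fin n × Fin n // p.1 < p.2} → F) :=
    { toFun := fun X p => X.1 p.1.1 p.1.2
      map_add' := fun _ _ => rfl
      map_smul' := fun _ _ => rfl }
  have he : Function.Injective e := by
    rw [injective_iff_map_eq_zero]
    rintro ⟨X, hX⟩ h
    have h1 : ∀ i j, i < j → X i j = 0 := fun i j hij => congrFun h ⟨(i, j), hij⟩
    have h2 : ∀ i j, X j i = -X i j := fun i j => congrFun (congrFun hX i) j
    refine Subtype.ext (Matrix.ext fun i j => ?_)
    change X i j = 0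
    rcases lt_trichotomy i j with h3 | h3 | h3
    · exact h1 i j h3
    · rw [h3]
      have h4 := h2 j j
      have h5 : (2 : F) * X j j = 0 := by linear_combination h4
      rcases mul_eq_zero.1 h5 with h6 | h6
      · exact absurd h6 two_ne_zero
      · exact h6
    · rw [h2 j i, h1 j i h3, neg_zero]
  have h1 := LinearMap.finrank_le_finrank_of_injective he
  rw [Module.finrank_fintype_fun_eq_card] at h1
  rw [← two_mul_card_lt]
  omega

theorem mem_of_finrank {n : ℕ} {g : Submodule F (Matrix (Fin n) (Fin n) F)}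
    (hg : ∀ X ∈ g, Xᵀ = -X) (h : n * (n - 1) ≤ 2 * finrank F g) {X : Matrix (Fin n) (Fin n) F}
    (hX : Xᵀ = -X) : X ∈ g := by
  have h1 : g ≤ Sk F n := hg
  have h2 : finrank F (Sk F n) ≤ finrank F g := by
    have := finrank_Sk_le (F := F) n
    omega
  have h3 := Submodule.eq_of_le_of_finrank_le h1 h2
  rw [h3]
  exact hX

/-! ## Counting roots -/

/-- vectors of `ℤ^m` -/
def vec {m : ℕ} : (({p : Fin m × Fin m // p.1 ≠ p.2} × Bool) ⊕ (Fin m × Bool)) → Fin m → ℤ
  | Sum.inl (p, true), k => (if k = p.1.1 then 1 else 0) - (if k = p.1.2 then 1 else 0)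
  | Sum.inl (p, false), k =>
      if p.1.1 < p.1.2 then (if k = p.1.1 then 1 else 0) + (if k = p.1.2 then 1 else 0)
      else -((if k = p.1.1 then 1 else 0) + (if k = p.1.2 then 1 else 0))
  | Sum.inr (i, true), k => if k = i then 1 else 0
  | Sum.inr (i, false), k => -(if k = i then 1 else 0)

theorem sum_ind {m : ℕ} (i : Fin m) : ∑ k : Fin m, (if k = i then (1 : ℤ) else 0) = 1 := by
  simp

/-- the sum of the coordinates -/
def tot {m : ℕ} : (({p : Fin m × Fin m // p.1 ≠ p.2} × Bool) ⊕ (Fin m × Bool)) → ℤ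
  | Sum.inl (_, true) => 0
  | Sum.inl (p, false) => if p.1.1 < p.1.2 then 2 else -2
  | Sum.inr (_, true) => 1
  | Sum.inr (_, false) => -1

theorem sum_vec {m : ℕ} (s : ({p : Fin m × Fin m // p.1 ≠ p.2} × Bool) ⊕ (Fin m × Bool)) :
    ∑ k, vec s k = tot s := by
  rcases s with ⟨p, _ | _⟩ | ⟨i, _ | _⟩
  · by_cases h : p.1.1 < p.1.2
    · simp only [vec, tot, if_pos h]
      rw [Finset.sum_add_distrib, sum_ind, sum_ind]
      norm_num
    · simp only [vec, tot, if_neg h]
      rw [Finset.sum_neg_distrib, Finset.sum_add_distrib, sum_ind, sum_ind]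
      norm_num
  · simp only [vec, tot]
    rw [Finset.sum_sub_distrib, sum_ind, sum_ind]
    norm_num
  · simp only [vec, tot]
    rw [Finset.sum_neg_distrib, sum_ind]
  · simp only [vec, tot]
    rw [sum_ind]

theorem vec_injective {m : ℕ} : Function.Injective (vec (m := m)) := by
  intro s t h
  have h0 : tot s = tot t := by rw [← sum_vec, ← sum_vec, h]
  have hk : ∀ k, vec s k = vec t k := fun k => congrFun h k
  rcases s with ⟨⟨⟨i, j⟩, hp⟩, _ | _⟩ | ⟨i, _ | _⟩ <;>
    rcases t with ⟨⟨⟨k, l⟩, hq⟩, _ | _⟩ | ⟨k, _ | _⟩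
  · -- false, false
    simp only [tot] at h0
    have hij : i ≠ j := hp
    have hkl : k ≠ l := hq
    have h1 := hk i
    have h2 := hk j
    have h3 := hk k
    have h4 := hk l
    simp only [vec] at h1 h2 h3 h4
    have h5 : (i < j) ↔ (k < l) := by
      constructor
      · intro h6
        by_contra h7
        rw [if_pos h6, if_neg h7] at h0
        norm_num at h0
      · intro h6
        by_contra h7
        rw [if_neg h7, if_pos h6] at h0
        norm_num at h0
    have h6 : i = k ∨ i = l := by
      by_contra h7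
      push Not at h7
      by_cases h8 : i < j
      · have h9 := h5.1 h8
        simp [h8, h9, hij, h7.1, h7.2] at h1
      · have h9 : ¬k < l := fun h => h8 (h5.2 h)
        simp [h8, h9, hij, h7.1, h7.2] at h1
    have h7 : j = k ∨ j = l := by
      by_contra h7
      push Not at h7
      by_cases h8 : i < j
      · have h9 := h5.1 h8
        simp [h8, h9, hij.symm, h7.1, h7.2] at h2
      · have h9 : ¬k < l := fun h => h8 (h5.2 h)
        simp [h8, h9, hij.symm, h7.1, h7.2] at h2
    rcases h6 with h6 | h6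
    · rcases h7 with h7 | h7
      · exact absurd (h6.trans h7.symm) hij
      · subst h6
        subst h7
        rfl
    · rcases h7 with h7 | h7
      · subst h6
        subst h7
        exfalso
        rcases lt_trichotomy i j with h8 | h8 | h8
        · exact lt_asymm h8 (h5.1 h8)
        · exact hij h8
        · exact lt_asymm h8 (h5.2 h8)
      · exact absurd (h6.trans h7.symm) hij
  · simp only [tot] at h0
    split_ifs at h0 <;> norm_num at h0
  · simp only [tot] at h0
    split_ifs at h0 <;> norm_num at h0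
  · simp only [tot] at h0
    split_ifs at h0 <;> norm_num at h0
  · simp only [tot] at h0
    split_ifs at h0 <;> norm_num at h0
  · -- true, true
    have hij : i ≠ j := hp
    have hkl : k ≠ l := hq
    have h1 := hk i
    have h2 := hk j
    simp only [vec] at h1 h2
    have h3 : i = k := by
      by_contra h3
      by_cases h5 : i = l
      · simp [hij, h3, h5] at h1
        omega
      · simp [hij, h3, h5] at h1
    have h4 : j = l := by
      by_contra h4
      by_cases h5 : j = k
      · simp [hij.symm, h4, h5] at h2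
        omega
      · simp [hij.symm, h4, h5] at h2
    subst h3
    subst h4
    rfl
  · simp only [tot] at h0
    norm_num at h0
  · simp only [tot] at h0
    norm_num at h0
  · simp only [tot] at h0
    split_ifs at h0 <;> norm_num at h0
  · simp only [tot] at h0
    norm_num at h0
  · have h1 := hk i
    simp only [vec] at h1
    have h3 : i = k := by
      by_contra h3
      simp [h3] at h1
    rw [h3]
  · simp only [tot] at h0
    norm_num at h0
  · simp only [tot] at h0
    split_ifs at h0 <;> norm_num at h0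
  · simp only [tot] at h0
    norm_num at h0
  · simp only [tot] at h0
    norm_num at h0
  · have h1 := hk i
    simp only [vec] at h1
    have h3 : i = k := by
      by_contra h3
      simp [h3] at h1
    rw [h3]

theorem card_pairs (m : ℕ) : Fintype.card {p : Fin m × Fin m // p.1 ≠ p.2} = m * (m - 1) := by
  classical
  have h4 := Finset.offDiag_card (Finset.univ : Finset (Fin m))
  rw [Finset.card_univ, Fintype.card_fin] at h4
  rw [Fintype.card_subtype, Nat.mul_sub, mul_one, ← h4]
  congr 1
  ext p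
  simp

section lie

variable [IsAlgClosed F] {L : Type} [LieRing L] [LieAlgebra F L]
  [Module.Finite F L] [IsKilling F L] {H : LieSubalgebra F L} [H.IsCartanSubalgebra]

/-- the combinations `± a_i ± a_j`, `± a_i` -/
noncomputable def comb {m : ℕ} (a : Fin m → PW H) :
    (({p : Fin m × Fin m // p.1 ≠ p.2} × Bool) ⊕ (Fin m × Bool)) → PW H
  | Sum.inl (p, true) => a p.1.1 - a p.1.2
  | Sum.inl (p, false) => if p.1.1 < p.1.2 then a p.1.1 + a p.1.2 else -(a p.1.1 + a p.1.2)
  | Sum.inr (i, true) => a i
  | Sum.inr (i, false) => -a i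

theorem comb_apply {m : ℕ} {a : Fin m → PW H} {h : Fin m → H}
    (hh : ∀ k i, (a i).1 (h k) = if k = i then 1 else 0)
    (s : ({p : Fin m × Fin m // p.1 ≠ p.2} × Bool) ⊕ (Fin m × Bool)) (k : Fin m) :
    (comb a s).1 (h k) = ((vec s k : ℤ) : F) := by
  rcases s with ⟨p, _ | _⟩ | ⟨i, _ | _⟩
  · simp only [comb, vec]
    by_cases h1 : p.1.1 < p.1.2
    · rw [if_pos h1, if_pos h1]
      have h2 : (a p.1.1 + a p.1.2).1 (h k) = (a p.1.1).1 (h k) + (a p.1.2).1 (h k) := rfl
      rw [h2, hh, hh]
      push_cast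
      rfl
    · rw [if_neg h1, if_neg h1]
      have h2 : (-(a p.1.1 + a p.1.2)).1 (h k) = -((a p.1.1).1 (h k) + (a p.1.2).1 (h k)) := rfl
      rw [h2, hh, hh]
      push_cast
      rfl
  · simp only [comb, vec]
    have h2 : (a p.1.1 - a p.1.2).1 (h k) = (a p.1.1).1 (h k) - (a p.1.2).1 (h k) := rfl
    rw [h2, hh, hh]
    push_cast
    rfl
  · simp only [comb, vec]
    have h2 : (-a i).1 (h k) = -(a i).1 (h k) := rfl
    rw [h2, hh]
    push_cast
    rfl
  · simp only [comb, vec]
    rw [hh]
    push_cast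
    rfl

theorem comb_injective {m : ℕ} {a : Fin m → PW H} {h : Fin m → H}
    (hh : ∀ k i, (a i).1 (h k) = if k = i then 1 else 0) : Function.Injective (comb a) := by
  intro s t hst
  refine vec_injective (funext fun k => ?_)
  have h1 := comb_apply hh s k
  have h2 := comb_apply hh t k
  rw [hst, h2] at h1
  exact_mod_cast h1.symm

theorem le_finrank_cartan {m : ℕ} {a : Fin m → PW H} {h : Fin m → H}
    (hh : ∀ k i, (a i).1 (h k) = if k = i then 1 else 0) : m ≤ finrank F H := by
  have h1 : LinearIndependent F h := by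
    rw [Fintype.linearIndependent_iff]
    intro c hc i
    have h2 := congrArg (a i).1 hc
    rw [map_sum, map_zero] at h2
    have h3 : ∑ k, (a i).1 (c k • h k) = c i := by
      rw [Finset.sum_eq_single i]
      · rw [map_smul, hh, if_pos rfl, smul_eq_mul, mul_one]
      · intro k _ hk
        rw [map_smul, hh, if_neg hk, smul_zero]
      · intro h4
        exact absurd (Finset.mem_univ i) h4
    rw [← h3, h2]
  have h2 := h1.fintype_card_le_finrank
  rwa [Fintype.card_fin] at h2

theorem neg_mem (hOk : (rdat H).Ok) {β : PW H} (h : β ∈ (rdat H).R) : -β ∈ (rdat H).R := by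
  have h1 := hOk.refl β h β h
  rw [hOk.two β h] at h1
  have h2 : β - (2 : ℚ) • β = -β := by
    rw [two_smul]
    abel
  rwa [h2] at h1

theorem comb_mem (hOk : (rdat H).Ok) {m : ℕ} {a : Fin m → PW H}
    (h2 : ∀ i j, i ≠ j → a i + a j ∈ (rdat H).R ∧ a i - a j ∈ (rdat H).R)
    (s : {p : Fin m × Fin m // p.1 ≠ p.2} × Bool) : comb a (Sum.inl s) ∈ (rdat H).R := by
  rcases s with ⟨p, _ | _⟩
  · simp only [comb]
    by_cases h1 : p.1.1 < p.1.2
    · rw [if_pos h1]
      exact (h2 _ _ p.2).1
    · rw [if_neg h1]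
      exact neg_mem hOk (h2 _ _ p.2).1
  · exact (h2 _ _ p.2).2

theorem comb_mem' (hOk : (rdat H).Ok) {m : ℕ} {a : Fin m → PW H} (h1 : ∀ i, a i ∈ (rdat H).R)
    (h2 : ∀ i j, i ≠ j → a i + a j ∈ (rdat H).R ∧ a i - a j ∈ (rdat H).R)
    (s : ({p : Fin m × Fin m // p.1 ≠ p.2} × Bool) ⊕ (Fin m × Bool)) :
    comb a s ∈ (rdat H).R := by
  rcases s with s | ⟨i, _ | _⟩
  · exact comb_mem hOk h2 s
  · exact neg_mem hOk (h1 i)
  · exact h1 i

theorem ncard_even (hOk : (rdat H).Ok) {m : ℕ} {a : Fin m → PW H} {h : Fin m → H}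
    (hh : ∀ k i, (a i).1 (h k) = if k = i then 1 else 0)
    (h2 : ∀ i j, i ≠ j → a i + a j ∈ (rdat H).R ∧ a i - a j ∈ (rdat H).R) :
    2 * (m * (m - 1)) ≤ (rdat H).R.ncard := by
  have hinj : Function.Injective fun s => comb a (Sum.inl s) :=
    (comb_injective hh).comp Sum.inl_injective
  have h3 : (Set.range fun s => comb a (Sum.inl s)).ncard = 2 * (m * (m - 1)) := by
    rw [← Set.image_univ, Set.ncard_image_of_injective _ hinj, Set.ncard_univ,
      Nat.card_eq_fintype_card, Fintype.card_prod, card_pairs, Fintype.card_bool, mul_comm]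
  rw [← h3]
  refine Set.ncard_le_ncard ?_ hOk.fin
  rintro _ ⟨s, rfl⟩
  exact comb_mem hOk h2 s

theorem ncard_odd (hOk : (rdat H).Ok) {m : ℕ} {a : Fin m → PW H} {h : Fin m → H}
    (hh : ∀ k i, (a i).1 (h k) = if k = i then 1 else 0) (h1 : ∀ i, a i ∈ (rdat H).R)
    (h2 : ∀ i j, i ≠ j → a i + a j ∈ (rdat H).R ∧ a i - a j ∈ (rdat H).R) :
    2 * (m * (m - 1)) + 2 * m ≤ (rdat H).R.ncard := by
  have hinj := comb_injective hh
  have h3 : (Set.range (comb a)).ncard = 2 * (m * (m - 1)) + 2 * m := by
    rw [← Set.image_univ, Set.ncard_image_of_injective _ hinj, Set.ncard_univ,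
      Nat.card_eq_fintype_card, Fintype.card_sum, Fintype.card_prod, Fintype.card_prod, card_pairs,
      Fintype.card_bool, Fintype.card_fin, mul_comm, mul_comm m 2]
  rw [← h3]
  refine Set.ncard_le_ncard ?_ hOk.fin
  rintro _ ⟨s, rfl⟩
  exact comb_mem' hOk h1 h2 s

/-- the pairing with a root is given by an element of `H` -/
theorem exists_coroot {β : PW H} (hβ : β ∈ (rdat H).R) :
    ∃ h : H, ∀ μ : PW H, μ.1 h = (((rdat H).pr β μ : ℚ) : F) := by
  classical
  have hβ' : ∃ α : H.root, (α.1.toLinear : Dual F H) = β.1 := hβ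
  refine ⟨coroot hβ'.choose.1, fun μ => ?_⟩
  have h1 : (rdat H).pr β = val hβ'.choose := dif_pos hβ'
  rw [h1]
  exact val_spec _ μ

end lie

end RepM

end Pool.Agent.Lib.MPf11a48.K3
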