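import Pool.Agent.Lib.MP_f11a48_ag.K3.RepA
import Pool.Agent.Lib.MP_f11a48_ag.K3.AlgSpec

/-!
# REP, part B: the spin representations
-/

set_option autoImplicit false
set_option linter.unusedSectionVars false

namespace Pool.Agent.Lib.MPf11a48.K3

open Module LieAlgebra LieAlgebra.IsKilling Matrix

namespace RepM

/-! ## `spn` is linear -/

section spin

variable {F : Type} [Field F]

/-- `spn` as a linear map -/
noncomputable def spnL {S : Type} [AddCommGroup S] [Module F S] {n : ℕ}
    (γ : Fin n → Module.End F S) : Matrix (Fin n) (Fin n) F →ₗ[F] Module.End F S where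
  toFun := spn γ
  map_add' := by
    intro X Y
    simp only [spn, Matrix.add_apply, add_smul, Finset.sum_add_distrib, smul_add]
  map_smul' := by
    intro t X
    simp only [spn, Matrix.smul_apply, smul_eq_mul, RingHom.id_apply, mul_smul, Finset.smul_sum]
    refine Finset.sum_congr rfl fun i _ => Finset.sum_congr rfl fun j _ => ?_
    rw [smul_comm]

variable {L : Type} [LieRing L] [LieAlgebra F L]

/-- the spin representation -/
noncomputable def spinRp {S : Type} [AddCommGroup S] [Module F S] {n : ℕ}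
    (γ : Fin n → Module.End F S) (θ : OR F L n)
    (hS : ∀ X Y : Matrix (Fin n) (Fin n) F, Xᵀ = -X → Yᵀ = -Y →
      spn γ (X * Y - Y * X) = spn γ X * spn γ Y - spn γ Y * spn γ X) : Rp F L S where
  r := (spnL γ).comp θ.t
  lie := by
    intro x y v
    change spn γ (θ.t ⁅x, y⁆) v = spn γ (θ.t x) (spn γ (θ.t y) v) - spn γ (θ.t y) (spn γ (θ.t x) v)
    rw [θ.lie, hS _ _ (θ.skew x) (θ.skew y)]
    rfl

/-- the indices of the half spin modules -/
abbrev Es (m : ℕ) (s : ℚ) : Type := {ε : Fin m → Bool // ∏ i, sg (ε i) = s}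

/-- extension by zero -/
noncomputable def ext {m : ℕ} (F : Type) [Field F] (s : ℚ) : (Es m s → F) →ₗ[F] SM m F where
  toFun f := fun ε => by
    classical
    exact if h : ∏ i, sg (ε i) = s then f ⟨ε, h⟩ else 0
  map_add' f g := by
    funext ε
    by_cases h : ∏ i, sg (ε i) = s
    · simp [h]
    · simp [h]
  map_smul' t f := by
    funext ε
    by_cases h : ∏ i, sg (ε i) = s
    · simp [h]
    · simp [h]

/-- restriction -/
noncomputable def res {m : ℕ} (F : Type) [Field F] (s : ℚ) : SM m F →ₗ[F] (Es m s → F) where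
  toFun f := fun e => f e.1
  map_add' _ _ := rfl
  map_smul' _ _ := rfl

theorem ext_apply_mem {m : ℕ} {s : ℚ} (f : Es m s → F) (e : Es m s) : ext F s f e.1 = f e := by
  change (dite _ _ _ : F) = _
  rw [dif_pos e.2]

theorem ext_apply_not {m : ℕ} {s : ℚ} (f : Es m s → F) {ε : Fin m → Bool}
    (h : ∏ i, sg (ε i) ≠ s) : ext F s f ε = 0 := dif_neg h

theorem res_ext {m : ℕ} {s : ℚ} (f : Es m s → F) : res F s (ext F s f) = f :=
  funext fun e => ext_apply_mem f e

theorem ext_res {m : ℕ} {s : ℚ} {f : SM m F} (h : ∀ ε, ∏ i, sg (ε i) ≠ s → f ε = 0) :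
    ext F s (res F s f) = f := by
  funext ε
  by_cases h1 : ∏ i, sg (ε i) = s
  · exact ext_apply_mem (res F s f) ⟨ε, h1⟩
  · rw [ext_apply_not _ h1, h ε h1]

theorem ext_injective {m : ℕ} {s : ℚ} : Function.Injective (ext (m := m) F s) :=
  Function.LeftInverse.injective res_ext

theorem prod_sg {m : ℕ} (ε : Fin m → Bool) : ∏ i, sg (ε i) = 1 ∨ ∏ i, sg (ε i) = -1 := by
  refine Finset.prod_induction (fun i => sg (ε i)) (fun q : ℚ => q = 1 ∨ q = -1) ?_ (Or.inl rfl) ?_
  · rintro a b (rfl | rfl) (rfl | rfl) <;> norm_num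
  · intro i _
    cases ε i
    · exact Or.inr rfl
    · exact Or.inl rfl

theorem decomp {m : ℕ} (f : SM m F) :
    f = ext F 1 (res F 1 f) + ext F (-1) (res F (-1) f) := by
  funext ε
  rw [Pi.add_apply]
  rcases prod_sg ε with h | h
  · rw [ext_apply_mem (res F 1 f) ⟨ε, h⟩, ext_apply_not (res F (-1) f) (ε := ε)
      (by rw [h]; norm_num), add_zero]
    rfl
  · rw [ext_apply_mem (res F (-1) f) ⟨ε, h⟩, ext_apply_not (res F 1 f) (ε := ε)
      (by rw [h]; norm_num), zero_add]
    rfl

theorem res_ext_ne {m : ℕ} {s s' : ℚ} (hs : s ≠ s') (f : Es m s → F) :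
    res F s' (ext F s f) = 0 := by
  funext e
  exact ext_apply_not f (by rw [e.2]; exact hs.symm)

variable [CharZero F]

theorem chi_ext {m : ℕ} {s : ℚ} (f : Es m s → F) : chi m F (ext F s f) = (s : F) • ext F s f := by
  funext ε
  change ((∏ i, sg (ε i) : ℚ) : F) * ext F s f ε = (s : F) * ext F s f ε
  by_cases h : ∏ i, sg (ε i) = s
  · rw [h]
  · rw [ext_apply_not f h, mul_zero, mul_zero]

theorem supp_of_chi {m : ℕ} {s : ℚ} {f : SM m F} (h : chi m F f = (s : F) • f)
    {ε : Fin m → Bool} (hε : ∏ i, sg (ε i) ≠ s) : f ε = 0 := by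
  have h1 : ((∏ i, sg (ε i) : ℚ) : F) * f ε = (s : F) * f ε := congrFun h ε
  have h2 : (((∏ i, sg (ε i) : ℚ) : F) - (s : F)) * f ε = 0 := by linear_combination h1
  rcases mul_eq_zero.1 h2 with h3 | h3
  · exfalso
    refine hε ?_
    have h4 := sub_eq_zero.1 h3
    exact_mod_cast h4
  · exact h3

/-- an operator commuting with `chi` preserves the half spin modules -/
theorem ext_res_comm {m : ℕ} {s : ℚ} {A : Module.End F (SM m F)}
    (hA : chi m F * A = A * chi m F) (f : Es m s → F) :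
    ext F s (res F s (A (ext F s f))) = A (ext F s f) := by
  refine ext_res fun ε hε => supp_of_chi ?_ hε
  have h1 : chi m F (A (ext F s f)) = A (chi m F (ext F s f)) := LinearMap.congr_fun hA _
  rw [h1, chi_ext, map_smul]

theorem res_comm {m : ℕ} {s : ℚ} (hs : s = 1 ∨ s = -1) {A : Module.End F (SM m F)}
    (hA : chi m F * A = A * chi m F) (f : SM m F) :
    res F s (A f) = res F s (A (ext F s (res F s f))) := by
  have h1 := decomp f
  have h2 : ∀ s' : ℚ, s' ≠ s → ∀ g : Es m s' → F, res F s (A (ext F s' g)) = 0 := by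
    intro s' hs' g
    rw [← ext_res_comm hA g]
    exact res_ext_ne hs' _
  rcases hs with rfl | rfl
  · conv_lhs => rw [h1]
    rw [map_add, map_add, h2 (-1) (by norm_num), add_zero]
  · conv_lhs => rw [h1]
    rw [map_add, map_add, h2 1 (by norm_num), zero_add]

/-- the half spin representations -/
noncomputable def halfRp {m : ℕ} (σ : Rp F L (SM m F))
    (hσ : ∀ x, chi m F * σ.r x = σ.r x * chi m F) (s : ℚ) : Rp F L (Es m s → F) where
  r :=
    { toFun := fun x => (res F s) ∘ₗ (σ.r x) ∘ₗ (ext F s)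
      map_add' := by
        intro x y
        refine LinearMap.ext fun v => ?_
        change res F s (σ.r (x + y) (ext F s v)) =
          res F s (σ.r x (ext F s v)) + res F s (σ.r y (ext F s v))
        rw [map_add, LinearMap.add_apply, map_add]
      map_smul' := by
        intro t x
        refine LinearMap.ext fun v => ?_
        change res F s (σ.r (t • x) (ext F s v)) = t • res F s (σ.r x (ext F s v))
        rw [map_smul, LinearMap.smul_apply, map_smul] }
  lie := by
    intro x y v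
    change res F s (σ.r ⁅x, y⁆ (ext F s v)) =
      res F s (σ.r x (ext F s (res F s (σ.r y (ext F s v))))) -
        res F s (σ.r y (ext F s (res F s (σ.r x (ext F s v)))))
    rw [ext_res_comm (hσ x), ext_res_comm (hσ y), σ.lie, map_sub]

theorem halfRp_apply {m : ℕ} (σ : Rp F L (SM m F))
    (hσ : ∀ x, chi m F * σ.r x = σ.r x * chi m F) (s : ℚ) (x : L) (f : Es m s → F) :
    (halfRp σ hσ s).r x f = res F s (σ.r x (ext F s f)) := rfl

theorem ext_halfRp {m : ℕ} (σ : Rp F L (SM m F))
    (hσ : ∀ x, chi m F * σ.r x = σ.r x * chi m F) (s : ℚ) (x : L) (f : Es m s → F) :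
    ext F s ((halfRp σ hσ s).r x f) = σ.r x (ext F s f) := ext_res_comm (hσ x) f

theorem ext_single {m : ℕ} {s : ℚ} [DecidableEq (Es m s)] (e : Es m s) :
    ext F s (Pi.single e 1) = es e.1 := by
  funext ε
  by_cases h : ∏ i, sg (ε i) = s
  · have h1 := ext_apply_mem (F := F) (Pi.single e 1) ⟨ε, h⟩
    rw [h1]
    by_cases h2 : ε = e.1
    · subst h2
      have h3 : (⟨e.1, h⟩ : Es m s) = e := rfl
      rw [h3, Pi.single_eq_same]
      exact (if_pos rfl).symm
    · have h3 : (⟨ε, h⟩ : Es m s) ≠ e := fun h4 => h2 (congrArg Subtype.val h4)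
      rw [Pi.single_eq_of_ne h3]
      exact (if_neg h2).symm
  · rw [ext_apply_not _ h]
    have h2 : ε ≠ e.1 := by
      rintro rfl
      exact h e.2
    exact (if_neg h2).symm

/-- irreducibility of the spin module -/
theorem irr_of_comm [IsAlgClosed F] [Module.Finite F L] [IsKilling F L] (hWeyl : SpecWeyl)
    {M : Type} [AddCommGroup M] [Module F M] [Module.Finite F M] [Nontrivial M] (σ : Rp F L M)
    (hT : ∀ T : Module.End F M, (∀ x, T * σ.r x = σ.r x * T) → ∃ t : F, T = t • 1) : IrrRep σ := by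
  refine ⟨inferInstance, fun W hW => ?_⟩
  obtain ⟨p, hp1, hp2, hp3⟩ := hWeyl F L M σ W hW
  obtain ⟨t, ht⟩ := hT p fun x => LinearMap.ext fun v => hp1 x v
  by_cases h0 : t = 0
  · left
    rw [eq_bot_iff]
    intro v hv
    have h1 := hp3 v hv
    rw [ht, h0, zero_smul, LinearMap.zero_apply] at h1
    rw [← h1]
    exact Submodule.zero_mem _
  · right
    rw [eq_top_iff]
    intro v _
    have h1 := hp2 v
    rw [ht] at h1
    have h2 : t • v ∈ W := h1
    have h3 : v = t⁻¹ • (t • v) := by rw [smul_smul, inv_mul_cancel₀ h0, one_smul]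
    rw [h3]
    exact Submodule.smul_mem _ _ h2

/-- irreducibility of the half spin modules -/
theorem half_irr [IsAlgClosed F] [Module.Finite F L] [IsKilling F L] (hWeyl : SpecWeyl)
    {m : ℕ} (σ : Rp F L (SM m F)) (hσ : ∀ x, chi m F * σ.r x = σ.r x * chi m F)
    (hT : ∀ T : Module.End F (SM m F), (∀ x, T * σ.r x = σ.r x * T) →
      ∃ t r : F, T = t • 1 + r • chi m F) (s : ℚ) (hs : Nonempty (Es m s)) :
    IrrRep (halfRp σ hσ s) := by
  refine ⟨inferInstance, fun W hW => ?_⟩
  obtain ⟨p, hp1, hp2, hp3⟩ := hWeyl F L (SM m F) σ (W.map (ext F s)) (by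
    rintro x _ ⟨v, hv, rfl⟩
    exact ⟨(halfRp σ hσ s).r x v, hW x v hv, ext_halfRp σ hσ s x v⟩)
  obtain ⟨t, r, ht⟩ := hT p fun x => LinearMap.ext fun v => hp1 x v
  have hp : ∀ g : Es m s → F, p (ext F s g) = (t + r * (s : F)) • ext F s g := by
    intro g
    rw [ht]
    change t • ext F s g + r • chi m F (ext F s g) = _
    rw [chi_ext, smul_smul, add_smul]
  by_cases h0 : t + r * (s : F) = 0
  · left
    rw [eq_bot_iff]
    intro g hg
    have h1 := hp3 _ (Submodule.mem_map_of_mem hg)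
    rw [hp, h0, zero_smul] at h1
    have h2 : ext F s g = ext F s 0 := by rw [← h1, map_zero]
    exact ext_injective h2
  · right
    rw [eq_top_iff]
    intro g _
    have h1 := hp2 (ext F s g)
    rw [hp] at h1
    obtain ⟨w, hw, hw'⟩ := h1
    have h2 : w = (t + r * (s : F)) • g := by
      apply ext_injective (F := F)
      rw [hw', map_smul]
    have h3 : g = (t + r * (s : F))⁻¹ • w := by
      rw [h2, smul_smul, inv_mul_cancel₀ h0, one_smul]
    rw [h3]
    exact Submodule.smul_mem _ _ hw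

/-- there is no homomorphism between the half spin modules -/
theorem half_hom {m : ℕ} (σ : Rp F L (SM m F)) (hσ : ∀ x, chi m F * σ.r x = σ.r x * chi m F)
    (hT : ∀ T : Module.End F (SM m F), (∀ x, T * σ.r x = σ.r x * T) →
      ∃ t r : F, T = t • 1 + r • chi m F) (φ : (Es m 1 → F) →ₗ[F] (Es m (-1) → F))
    (hφ : ∀ x v, φ ((halfRp σ hσ 1).r x v) = (halfRp σ hσ (-1)).r x (φ v)) : φ = 0 := by
  obtain ⟨t, r, ht⟩ := hT ((ext F (-1)) ∘ₗ φ ∘ₗ (res F 1)) (fun x => LinearMap.ext fun f => by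
    change ext F (-1) (φ (res F 1 (σ.r x f))) = σ.r x (ext F (-1) (φ (res F 1 f)))
    rw [res_comm (Or.inl rfl) (hσ x), ← halfRp_apply σ hσ, hφ, ext_halfRp])
  refine LinearMap.ext fun g => ?_
  have h1 := LinearMap.congr_fun ht (ext F 1 g)
  have h2 : ext F (-1) (φ (res F 1 (ext F 1 g))) = t • ext F 1 g + r • chi m F (ext F 1 g) := h1
  rw [res_ext, chi_ext, smul_smul, ← add_smul] at h2
  have h3 := congrArg (res F (-1)) h2
  rw [res_ext, map_smul, res_ext_ne (by norm_num), smul_zero] at h3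
  exact h3

end spin

/-! ## Multiplicities -/

section mult

variable {F : Type} [Field F] [CharZero F] [IsAlgClosed F] {L : Type} [LieRing L]
  [LieAlgebra F L] [Module.Finite F L] [IsKilling F L] {H : LieSubalgebra F L}
  [H.IsCartanSubalgebra]

theorem coe_wS {m : ℕ} (a : Fin m → PW H) (ε : Fin m → Bool) :
    (wS a ε).1 = wS (fun i => (a i).1) ε := by
  rw [wS, wS, Submodule.coe_smul, Submodule.coe_sum]
  rfl

theorem mu_spin (hMult : SpecMult) {m : ℕ} (σ : Rp F L (SM m F)) (a : Fin m → PW H)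
    (h : ∀ (h : H) (ε : Fin m → Bool), σ.r h.1 (es ε) = (wS (fun i => (a i).1) ε) h • es ε) :
    Diag H σ ∧ mu H σ = dS a := by
  classical
  obtain ⟨h1, h2⟩ := hMult F L H (SM m F) σ (Fin m → Bool) (Pi.basisFun F (Fin m → Bool))
    (fun ε => wS (fun i => (a i).1) ε) (fun ε h' => by
      have h3 : (Pi.basisFun F (Fin m → Bool)) ε = (es ε : SM m F) := by
        funext δ
        rw [Pi.basisFun_apply, Pi.single_apply]
        rfl
      rw [h3]
      exact h h' ε)
  refine ⟨h1, funext fun μ => ?_⟩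
  rw [mu, h2, dS]
  refine Nat.card_congr (Equiv.subtypeEquivRight fun ε => ?_)
  rw [← coe_wS]
  exact (Subtype.ext_iff).symm

theorem mu_half (hMult : SpecMult) {m : ℕ} (σ : Rp F L (SM m F))
    (hσ : ∀ x, chi m F * σ.r x = σ.r x * chi m F) (s : ℚ) (a : Fin m → PW H)
    (h : ∀ (h : H) (ε : Fin m → Bool), σ.r h.1 (es ε) = (wS (fun i => (a i).1) ε) h • es ε) :
    Diag H (halfRp σ hσ s) ∧ mu H (halfRp σ hσ s) = dH a s := by
  classical
  obtain ⟨h1, h2⟩ := hMult F L H (Es m s → F) (halfRp σ hσ s) (Es m s) (Pi.basisFun F (Es m s))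
    (fun e => wS (fun i => (a i).1) e.1) (fun e h' => by
      rw [Pi.basisFun_apply, halfRp_apply, ext_single, h h' e.1, map_smul, ← ext_single, res_ext])
  refine ⟨h1, funext fun μ => ?_⟩
  rw [mu, h2, dH]
  refine (Nat.card_congr (Equiv.subtypeEquivRight fun e => ?_)).trans
    (Nat.card_congr (Equiv.subtypeSubtypeEquivSubtypeInter (fun ε : Fin m → Bool =>
      ∏ i, sg (ε i) = s) fun ε => wS a ε = μ))
  rw [← coe_wS]
  exact (Subtype.ext_iff).symm

theorem card_sum {α β : Type} [Finite α] [Finite β] (p : α ⊕ β → Prop) :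
    Nat.card {x // p x} = Nat.card {x : α // p (Sum.inl x)} + Nat.card {x : β // p (Sum.inr x)} := by
  rw [Nat.card_congr Equiv.subtypeSum, Nat.card_sum]

variable {n : ℕ} {θ : OR F L n} {m : ℕ}

theorem li_even (b : HB θ H m) :
    LinearIndependent F (Sum.elim b.v b.v' : Fin m ⊕ Fin m → Fin n → F) := by
  rw [Fintype.linearIndependent_iff]
  intro c hc
  rw [Fintype.sum_sum_type] at hc
  simp only [Sum.elim_inl, Sum.elim_inr] at hc
  have h1 : ∀ w : Fin n → F, ∑ i, c (Sum.inl i) * (b.v i ⬝ᵥ w) +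
      ∑ i, c (Sum.inr i) * (b.v' i ⬝ᵥ w) = 0 := by
    intro w
    have h2 := congrArg (fun u : Fin n → F => u ⬝ᵥ w) hc
    simp only [add_dotProduct, zero_dotProduct, sum_dotProduct, smul_dotProduct,
      smul_eq_mul] at h2
    exact h2
  rintro (j | j)
  · have h2 := h1 (b.v' j)
    simp only [b.dual, b.vv', mul_zero, Finset.sum_const_zero, add_zero, mul_ite, mul_one,
      Finset.sum_ite_eq', Finset.mem_univ, if_true] at h2
    exact h2
  · have h2 := h1 (b.v j)
    have h3 : ∀ i, b.v' i ⬝ᵥ b.v j = if j = i then 1 else 0 := fun i => by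
      rw [dotProduct_comm, b.dual]
    simp only [h3, b.vv, mul_zero, Finset.sum_const_zero, zero_add, mul_ite, mul_one,
      Finset.sum_ite_eq, Finset.mem_univ, if_true] at h2
    exact h2

theorem li_odd (b : HBo θ H m) :
    LinearIndependent F (Sum.elim (Sum.elim b.v b.v') (fun _ => b.u) :
      (Fin m ⊕ Fin m) ⊕ Unit → Fin n → F) := by
  rw [Fintype.linearIndependent_iff]
  intro c hc
  rw [Fintype.sum_sum_type, Fintype.sum_sum_type] at hc
  simp only [Sum.elim_inl, Sum.elim_inr, Finset.univ_unique, Finset.sum_singleton] at hc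
  have h1 : ∀ w : Fin n → F, ∑ i, c (Sum.inl (Sum.inl i)) * (b.v i ⬝ᵥ w) +
      ∑ i, c (Sum.inl (Sum.inr i)) * (b.v' i ⬝ᵥ w) + c (Sum.inr default) * (b.u ⬝ᵥ w) = 0 := by
    intro w
    have h2 := congrArg (fun u : Fin n → F => u ⬝ᵥ w) hc
    simp only [add_dotProduct, zero_dotProduct, sum_dotProduct, smul_dotProduct,
      smul_eq_mul] at h2
    exact h2
  rintro ((j | j) | j)
  · have h2 := h1 (b.v' j)
    simp only [b.dual, b.vv', b.uv', mul_zero, Finset.sum_const_zero, add_zero, mul_ite, mul_one,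
      Finset.sum_ite_eq', Finset.mem_univ, if_true] at h2
    exact h2
  · have h2 := h1 (b.v j)
    have h3 : ∀ i, b.v' i ⬝ᵥ b.v j = if j = i then 1 else 0 := fun i => by
      rw [dotProduct_comm, b.dual]
    simp only [h3, b.vv, b.uv, mul_zero, Finset.sum_const_zero, zero_add, add_zero, mul_ite,
      mul_one, Finset.sum_ite_eq, Finset.mem_univ, if_true] at h2
    exact h2
  · have h2 := h1 b.u
    have h3 : ∀ i, b.v i ⬝ᵥ b.u = 0 := fun i => by rw [dotProduct_comm, b.uv]
    have h4 : ∀ i, b.v' i ⬝ᵥ b.u = 0 := fun i => by rw [dotProduct_comm, b.uv']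
    simp only [h3, h4, b.uu, mul_zero, Finset.sum_const_zero, zero_add] at h2
    rcases mul_eq_zero.1 h2 with h5 | h5
    · exact h5
    · exact absurd h5 two_ne_zero

theorem mu_even (hMult : SpecMult) (hn : n = 2 * m) (b : HB θ H m) (a : Fin m → PW H)
    (ha : ∀ i, (a i).1 = b.a i) : mu H θ.rp = dVe a := by
  classical
  have hcard : Fintype.card (Fin m ⊕ Fin m) = finrank F (Fin n → F) := by
    rw [Fintype.card_sum, Fintype.card_fin, Module.finrank_fintype_fun_eq_card, Fintype.card_fin,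
      hn, two_mul]
  rcases Nat.eq_zero_or_pos m with h0 | h0
  · -- `n = 0`
    subst h0
    have hn0 : n = 0 := by omega
    subst hn0
    funext μ
    rw [mu, dVe]
    have h1 : ∀ v : Fin 0 → F, v = 0 := fun v => Subsingleton.elim _ _
    have h2 : wtsp H θ.rp μ.1 = ⊥ := by
      rw [eq_bot_iff]
      intro v _
      exact h1 v
    rw [h2, finrank_bot]
    simp
  · haveI : Nonempty (Fin m ⊕ Fin m) := ⟨Sum.inl ⟨0, h0⟩⟩
    let B : Basis (Fin m ⊕ Fin m) F (Fin n → F) :=
      basisOfLinearIndependentOfCardEqFinrank (li_even b) hcard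
    have hB : ∀ i, B i = Sum.elim b.v b.v' i := fun i => by
      rw [coe_basisOfLinearIndependentOfCardEqFinrank]
    obtain ⟨-, h2⟩ := hMult F L H (Fin n → F) θ.rp (Fin m ⊕ Fin m) B
      (Sum.elim b.a fun i => -b.a i) (by
        rintro (i | i) h
        · rw [hB]
          exact b.wv i h
        · rw [hB]
          exact b.wv' i h)
    funext μ
    rw [mu, h2, card_sum, dVe]
    refine congrArg₂ (· + ·) ?_ ?_
    · refine Nat.card_congr (Equiv.subtypeEquivRight fun i => ?_)
      rw [Sum.elim_inl, ← ha]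
      exact Subtype.ext_iff.symm
    · refine Nat.card_congr (Equiv.subtypeEquivRight fun i => ?_)
      rw [Sum.elim_inr, ← ha]
      exact (Subtype.ext_iff (a1 := -a i)).symm

theorem mu_odd (hMult : SpecMult) (hn : n = 2 * m + 1) (b : HBo θ H m) (a : Fin m → PW H)
    (ha : ∀ i, (a i).1 = b.a i) : mu H θ.rp = dVo a := by
  classical
  have hcard : Fintype.card ((Fin m ⊕ Fin m) ⊕ Unit) = finrank F (Fin n → F) := by
    rw [Fintype.card_sum, Fintype.card_sum, Fintype.card_fin, Module.finrank_fintype_fun_eq_card,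
      Fintype.card_fin, hn, two_mul]
    rfl
  let B : Basis ((Fin m ⊕ Fin m) ⊕ Unit) F (Fin n → F) :=
    basisOfLinearIndependentOfCardEqFinrank (li_odd b) hcard
  have hB : ∀ i, B i = Sum.elim (Sum.elim b.v b.v') (fun _ => b.u) i := fun i => by
    rw [coe_basisOfLinearIndependentOfCardEqFinrank]
  obtain ⟨-, h2⟩ := hMult F L H (Fin n → F) θ.rp ((Fin m ⊕ Fin m) ⊕ Unit) B
    (Sum.elim (Sum.elim b.a fun i => -b.a i) fun _ => 0) (by
      rintro ((i | i) | i) h
      · rw [hB]
        exact b.wv i h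
      · rw [hB]
        exact b.wv' i h
      · rw [hB]
        change (θ.t h.1).mulVec b.u = (0 : F) • b.u
        rw [b.wu, zero_smul])
  funext μ
  rw [mu, h2, card_sum, card_sum, dVo]
  refine congrArg₂ (· + ·) (congrArg₂ (· + ·) ?_ ?_) ?_
  · refine Nat.card_congr (Equiv.subtypeEquivRight fun i => ?_)
    rw [Sum.elim_inl, Sum.elim_inl, ← ha]
    exact Subtype.ext_iff.symm
  · refine Nat.card_congr (Equiv.subtypeEquivRight fun i => ?_)
    rw [Sum.elim_inl, Sum.elim_inr, ← ha]
    exact (Subtype.ext_iff (a1 := -a i)).symm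
  · refine Nat.card_congr (Equiv.subtypeEquivRight fun i => ?_)
    rw [Sum.elim_inr]
    exact (Subtype.ext_iff (a1 := (0 : PW H))).symm

theorem exists_lift (hInt : SpecInt) (b : HB θ H m) : ∃ a : Fin m → PW H, ∀ i, (a i).1 = b.a i := by
  have h1 : ∀ i, b.a i ∈ PW H := by
    intro i α
    have h2 : wtsp H θ.rp (b.a i) ≠ ⊥ := by
      intro h3
      have h4 : b.v i ∈ wtsp H θ.rp (b.a i) := fun h => b.wv i h
      rw [h3] at h4
      have h5 : b.v i = 0 := h4
      have h6 := b.dual i i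
      rw [h5, zero_dotProduct, if_pos rfl] at h6
      exact zero_ne_one h6
    obtain ⟨z, hz⟩ := hInt F L H (Fin n → F) θ.rp (b.a i) h2 α
    refine ⟨z, ?_⟩
    rw [hz]
    push_cast
    rfl
  exact ⟨fun i => ⟨b.a i, h1 i⟩, fun _ => rfl⟩

end mult

end RepM

end Pool.Agent.Lib.MPf11a48.K3
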